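import Mathlib
import Pool.Agent.Lib.MP_73c19a_an.Tree

section

/-!
# Basic lemmas on trees
-/

set_option autoImplicit false

namespace KX

variable {V : Type} [DecidableEq V]

theorem dgr_eq_sum_tree1b (n : V →₀ ℕ) {S : Finset V} (h : n.support ⊆ S) :
    dgr n = ∑ j ∈ S, n j := by
  unfold dgr
  exact Finsupp.sum_of_support_subset n h _ (fun _ _ => rfl)

theorem kab_eq_sum_tree1b (k : V →₀ ℤ) {S : Finset V} (h : k.support ⊆ S) :
    kab k = ∑ j ∈ S, (k j).natAbs := by
  unfold kab
  exact Finsupp.sum_of_support_subset k h _ (fun _ _ => rfl)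

theorem dgr_add_tree1b (n m : V →₀ ℕ) : dgr (n + m) = dgr n + dgr m := by
  rw [dgr_eq_sum_tree1b (n + m) Finsupp.support_add,
    dgr_eq_sum_tree1b n (Finset.subset_union_left (s₂ := m.support)),
    dgr_eq_sum_tree1b m (Finset.subset_union_right (s₁ := n.support)), ← Finset.sum_add_distrib]
  rfl

theorem dgr_sub_le_tree1b (n m : V →₀ ℕ) : dgr (n - m) ≤ dgr n := by
  rw [dgr_eq_sum_tree1b (n - m) Finsupp.support_tsub, dgr_eq_sum_tree1b n le_rfl]
  refine Finset.sum_le_sum fun j _ => ?_
  rw [Finsupp.tsub_apply]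
  exact Nat.sub_le _ _

theorem kab_add_le_tree1b (n m : V →₀ ℤ) : kab (n + m) ≤ kab n + kab m := by
  rw [kab_eq_sum_tree1b (n + m) Finsupp.support_add,
    kab_eq_sum_tree1b n (Finset.subset_union_left (s₂ := m.support)),
    kab_eq_sum_tree1b m (Finset.subset_union_right (s₁ := n.support)), ← Finset.sum_add_distrib]
  refine Finset.sum_le_sum fun j _ => ?_
  rw [Finsupp.add_apply]
  exact Int.natAbs_add_le _ _

namespace Tr

theorem one_le_q (h : Tr V) : 1 ≤ q h := by
  induction h with
  | leaf l => exact le_rfl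
  | node j f p ihf ihp => simp only [q]; omega

theorem n_supp (h : Tr V) : (n h).support ⊆ A h := by
  induction h with
  | leaf l => exact l.hn
  | node j f p ihf ihp =>
    simp only [n, A]
    exact (Finsupp.support_tsub.trans Finsupp.support_add).trans (Finset.union_subset_union ihf ihp)

theorem k_supp (h : Tr V) : (k h).support ⊆ A h := by
  induction h with
  | leaf l => exact l.hk
  | node j f p ihf ihp =>
    simp only [k, A]
    exact Finsupp.support_add.trans (Finset.union_subset_union ihf ihp)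

/-- `|n_h| + |k_h| ≤ N h` -/
theorem nk_le_N (h : Tr V) : dgr (n h) + kab (k h) ≤ N h := by
  induction h with
  | leaf l => exact le_rfl
  | node j f p ihf ihp =>
    simp only [n, k, N]
    have h1 := dgr_sub_le_tree1b (n f + n p) (Finsupp.single j 1)
    have h2 := dgr_add_tree1b (n f) (n p)
    have h3 := kab_add_le_tree1b (k f) (k p)
    omega

theorem Lam_le_L (G : Geo V) (h : Tr V) (hc : conn h) : G.Lam (A h) ≤ L G h := by
  induction h with
  | leaf l => exact le_rfl
  | node j f p ihf ihp =>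
    obtain ⟨h1, h2, h3, h4⟩ := hc
    simp only [A, L]
    have h5 := G.Lam_union (A := A f) (B := A p) ⟨j, Finset.mem_inter.mpr ⟨h1, h2⟩⟩
    have h6 := ihf h3
    have h7 := ihp h4
    omega

theorem card_le_ca (h : Tr V) : (A h).card ≤ ca h := by
  induction h with
  | leaf l => exact le_rfl
  | node j f p ihf ihp =>
    simp only [A, ca]
    have := Finset.card_union_le (A f) (A p)
    omega

theorem ca_le (B : Finset V) (h : Tr V) : ca h ≤ q h * B.card + o B h := by
  induction h with
  | leaf l =>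
    simp only [ca, q, o, one_mul]
    have h1 := Finset.card_sdiff_add_card_inter l.A B
    have h2 := Finset.card_le_card (Finset.inter_subset_right (s₁ := l.A) (s₂ := B))
    omega
  | node j f p ihf ihp =>
    simp only [ca, q, o, add_mul]
    omega

theorem card_sdiff_le_o (B : Finset V) (h : Tr V) : (A h \ B).card ≤ o B h := by
  induction h with
  | leaf l => exact le_rfl
  | node j f p ihf ihp =>
    simp only [A, o]
    rw [Finset.union_sdiff_distrib]
    have := Finset.card_union_le (A f \ B) (A p \ B)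
    omega

/-- `∑ |A_l \ B| = |A_h \ B| + ∑_{nodes} |(A_f ∩ A_p) \ B|` -/
theorem o_eq (B : Finset V) (h : Tr V) : o B h = (A h \ B).card + ov B h := by
  induction h with
  | leaf l => rfl
  | node j f p ihf ihp =>
    simp only [A, o, ov]
    rw [Finset.union_sdiff_distrib]
    have h1 := Finset.card_union_add_card_inter (A f \ B) (A p \ B)
    have h2 : (A f \ B) ∩ (A p \ B) = (A f ∩ A p) \ B := by
      ext x
      simp only [Finset.mem_inter, Finset.mem_sdiff]
      tauto
    rw [h2] at h1
    omega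

end Tr

end KX
end

section

/-!
# Basic lemmas on trees
-/

set_option autoImplicit false

namespace KX

variable {V : Type} [DecidableEq V]

namespace Tr

theorem mass_node (G : Geo V) (P : BP V) (j : V) (f p : Tr V) :
    mass G P (node j f p) = mass G P f + mass G P p := by
  unfold mass
  simp only [q, o, N, L]
  push_cast
  ring

theorem mu_q_le_mass (G : Geo V) (P : BP V) (h : Tr V) : P.mu * q h ≤ mass G P h := by
  unfold mass
  have h1 : 0 ≤ P.la * o P.B h := mul_nonneg P.la_pos.le (Nat.cast_nonneg _)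
  have h2 : 0 ≤ P.de * ((N h : ℝ) + L G h) :=
    mul_nonneg P.de_pos.le (add_nonneg (Nat.cast_nonneg _) (Nat.cast_nonneg _))
  linarith

theorem mu_le_mass (G : Geo V) (P : BP V) (h : Tr V) : P.mu ≤ mass G P h := by
  refine le_trans ?_ (mu_q_le_mass G P h)
  have h1 : (1 : ℝ) ≤ q h := by exact_mod_cast one_le_q h
  nlinarith [P.mu_pos]

/-- `win` is the largest such exponent -/
theorem le_win_iff_tree1c (G : Geo V) (P : BP V) (h : Tr V) (a : ℕ) :
    a ≤ win G P h ↔ P.mu * (3 / 2 : ℝ) ^ a ≤ mass G P h := by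
  have h1 := mu_le_mass G P h
  have h2 := P.mu_pos
  have h3 : 1 ≤ mass G P h / P.mu := (one_le_div h2).mpr h1
  have h4 : 0 ≤ Real.logb (3 / 2) (mass G P h / P.mu) :=
    Real.logb_nonneg (by norm_num) h3
  unfold win
  rw [Nat.le_floor_iff h4, Real.le_logb_iff_rpow_le (by norm_num) (by linarith),
    Real.rpow_natCast, le_div_iff₀ h2, mul_comm]

theorem le_win (G : Geo V) (P : BP V) (h : Tr V) :
    P.mu * (3 / 2 : ℝ) ^ win G P h ≤ mass G P h :=
  (le_win_iff_tree1c G P h _).mp le_rfl

theorem win_lt (G : Geo V) (P : BP V) (h : Tr V) :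
    mass G P h < P.mu * (3 / 2 : ℝ) ^ (win G P h + 1) := by
  by_contra hcon
  push Not at hcon
  have := (le_win_iff_tree1c G P h _).mpr hcon
  omega

/-- `win` is the largest such exponent -/
theorem le_win_iff (G : Geo V) (P : BP V) (h : Tr V) (a : ℕ) :
    a ≤ win G P h ↔ P.mu * (3 / 2 : ℝ) ^ a ≤ mass G P h :=
  le_win_iff_tree1c G P h a

theorem n_eq_zero_tree1c (h : Tr V) {j : V} (hj : j ∉ A h) : n h j = 0 := by
  by_contra hne
  exact hj (n_supp h (Finsupp.mem_support_iff.mpr hne))

theorem k_eq_zero_tree1c (h : Tr V) {j : V} (hj : j ∉ A h) : k h j = 0 := by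
  by_contra hne
  exact hj (k_supp h (Finsupp.mem_support_iff.mpr hne))

theorem kap_mem (j : V) (f p : Tr V) (h : kap j f p ≠ 0) : j ∈ A f ∧ j ∈ A p := by
  constructor
  · by_contra hj
    apply h
    unfold kap
    rw [n_eq_zero_tree1c f hj, k_eq_zero_tree1c f hj]
    simp
  · by_contra hj
    apply h
    unfold kap
    rw [n_eq_zero_tree1c p hj, k_eq_zero_tree1c p hj]
    simp

/-- if the coefficient of the bracket is nonzero then `|n_h| + 1 = |n_f| + |n_p|` -/
theorem deg_node (j : V) (f p : Tr V) (h : kap j f p ≠ 0) :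
    deg (node j f p) + 1 = deg f + deg p := by
  have hj : 1 ≤ (n f + n p) j := by
    by_contra hcon
    apply h
    rw [Finsupp.add_apply] at hcon
    have h1 : n f j = 0 := by omega
    have h2 : n p j = 0 := by omega
    unfold kap
    rw [h1, h2]
    simp
  unfold deg
  simp only [n]
  have h3 : (n f + n p) - Finsupp.single j 1 + Finsupp.single j 1 = n f + n p := by
    apply tsub_add_cancel_of_le
    rw [Finsupp.single_le_iff]
    exact hj
  have h4 : dgr (Finsupp.single j 1) = 1 := by
    unfold dgr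
    rw [Finsupp.sum_single_index rfl]
  have h5 := dgr_add_tree1b ((n f + n p) - Finsupp.single j 1) (Finsupp.single j 1)
  rw [h3, h4, dgr_add_tree1b] at h5
  exact h5.symm

/-- `∑_j |kap j f p| ≤ N f * N p` -/
theorem sum_kap_le (f p : Tr V) : ∑ j ∈ A f ∩ A p, (kap j f p).natAbs ≤ N f * N p := by
  have key : ∀ (S : Finset V) (a b : V → ℕ), ∑ j ∈ S, a j * b j ≤ (∑ j ∈ S, a j) * ∑ j ∈ S, b j := by
    intro S a b
    rw [Finset.sum_mul]
    refine Finset.sum_le_sum fun j hj => ?_
    exact Nat.mul_le_mul_left _ (Finset.single_le_sum (fun _ _ => Nat.zero_le _) hj)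
  have h1 : ∀ j, (kap j f p).natAbs ≤ (k p j).natAbs * n f j + n p j * (k f j).natAbs := by
    intro j
    unfold kap
    refine (Int.natAbs_sub_le _ _).trans ?_
    rw [Int.natAbs_mul, Int.natAbs_mul, Int.natAbs_natCast, Int.natAbs_natCast]
  have hS : ∀ (a : V → ℕ) (T : Finset V), A f ∩ A p ⊆ T →
      ∑ j ∈ A f ∩ A p, a j ≤ ∑ j ∈ T, a j := fun a T hT => Finset.sum_le_sum_of_subset hT
  have h2 : ∑ j ∈ A f ∩ A p, (k p j).natAbs ≤ kab (k p) := by
    rw [kab_eq_sum_tree1b (k p) (k_supp p)]
    exact hS _ _ Finset.inter_subset_right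
  have h3 : ∑ j ∈ A f ∩ A p, (k f j).natAbs ≤ kab (k f) := by
    rw [kab_eq_sum_tree1b (k f) (k_supp f)]
    exact hS _ _ Finset.inter_subset_left
  have h4 : ∑ j ∈ A f ∩ A p, n f j ≤ dgr (n f) := by
    rw [dgr_eq_sum_tree1b (n f) (n_supp f)]
    exact hS _ _ Finset.inter_subset_left
  have h5 : ∑ j ∈ A f ∩ A p, n p j ≤ dgr (n p) := by
    rw [dgr_eq_sum_tree1b (n p) (n_supp p)]
    exact hS _ _ Finset.inter_subset_right
  calc ∑ j ∈ A f ∩ A p, (kap j f p).natAbs
      ≤ ∑ j ∈ A f ∩ A p, ((k p j).natAbs * n f j + n p j * (k f j).natAbs) :=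
        Finset.sum_le_sum fun j _ => h1 j
    _ = ∑ j ∈ A f ∩ A p, (k p j).natAbs * n f j + ∑ j ∈ A f ∩ A p, n p j * (k f j).natAbs :=
        Finset.sum_add_distrib
    _ ≤ kab (k p) * dgr (n f) + dgr (n p) * kab (k f) :=
        add_le_add ((key _ _ _).trans (Nat.mul_le_mul h2 h4))
          ((key _ _ _).trans (Nat.mul_le_mul h5 h3))
    _ ≤ (dgr (n f) + kab (k f)) * (dgr (n p) + kab (k p)) := by nlinarith
    _ ≤ N f * N p := Nat.mul_le_mul (nk_le_N f) (nk_le_N p)

end Tr

end KX
end

section

/-!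
# Basic lemmas on trees
-/

set_option autoImplicit false

namespace KX

variable {V : Type} [DecidableEq V]

namespace Geo

theorem one_le_ainv (G : Geo V) (A : Finset V) : 1 ≤ G.ainv A := by
  unfold ainv
  rw [Finset.le_fold_max]
  exact Or.inl le_rfl

theorem inv_le_ainv (G : Geo V) {A : Finset V} {j : V} (h : j ∈ A) : (G.a j)⁻¹ ≤ G.ainv A := by
  unfold ainv
  rw [Finset.le_fold_max]
  exact Or.inr ⟨j, h, le_rfl⟩

theorem ainv_le_iff_tree1a (G : Geo V) {A : Finset V} {c : ℝ} :
    G.ainv A ≤ c ↔ 1 ≤ c ∧ ∀ j ∈ A, (G.a j)⁻¹ ≤ c := by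
  unfold ainv
  rw [Finset.fold_max_le]

theorem ainv_mono (G : Geo V) {A B : Finset V} (h : A ⊆ B) : G.ainv A ≤ G.ainv B := by
  rw [ainv_le_iff_tree1a]
  exact ⟨G.one_le_ainv B, fun j hj => G.inv_le_ainv (h hj)⟩

/-- for `j` in both clusters; `ainv (A ∪ B) = max (ainv A) (ainv B)` -/
theorem ainv_union (G : Geo V) {A B : Finset V} {j : V} (hA : j ∈ A) (hB : j ∈ B) :
    (G.a j)⁻¹ * G.ainv (A ∪ B) ≤ G.ainv A * G.ainv B := by
  have h1 : G.ainv (A ∪ B) ≤ max (G.ainv A) (G.ainv B) := by
    rw [ainv_le_iff_tree1a]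
    refine ⟨le_max_of_le_left (G.one_le_ainv A), fun i hi => ?_⟩
    rcases Finset.mem_union.mp hi with h | h
    · exact le_max_of_le_left (G.inv_le_ainv h)
    · exact le_max_of_le_right (G.inv_le_ainv h)
  have h2 := G.inv_le_ainv hA
  have h3 := G.inv_le_ainv hB
  have h4 : 0 ≤ (G.a j)⁻¹ := (inv_pos.mpr (G.a_pos j)).le
  have h5 := G.one_le_ainv A
  have h6 := G.one_le_ainv B
  have h7 : 0 ≤ G.ainv (A ∪ B) := zero_le_one.trans (G.one_le_ainv _)
  rcases le_max_iff.mp h1 with h | h
  · calc (G.a j)⁻¹ * G.ainv (A ∪ B) ≤ G.ainv B * G.ainv A :=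
          mul_le_mul h3 h h7 (zero_le_one.trans h6)
      _ = G.ainv A * G.ainv B := mul_comm _ _
  · exact mul_le_mul h2 h h7 (zero_le_one.trans h5)

theorem brm_le (G : Geo V) {S : Finset V} {i : V} (h : i ∈ S) : G.brm S ≤ G.br i := by
  unfold brm
  rw [dif_pos ⟨i, h⟩]
  exact Finset.inf'_le _ h

theorem one_le_brm (G : Geo V) (S : Finset V) : 1 ≤ G.brm S := by
  unfold brm
  split_ifs with h
  · exact Finset.le_inf' h _ fun i _ => G.one_le_br i
  · exact le_rfl

theorem exists_brm (G : Geo V) {S : Finset V} (h : S.Nonempty) : ∃ i ∈ S, G.brm S = G.br i := by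
  unfold brm
  rw [dif_pos h]
  exact Finset.exists_mem_eq_inf' h _

end Geo

end KX
end

section

/-!
# Tours in `ℤ^d`: definitions

`nd i j` is the integer sup distance, `tour A` the smallest length of a closed walk through all
points of the finite set `A`.
-/

set_option autoImplicit false

namespace KX

/-- Integer sup distance of two points of `ℤ^d`. -/
def nd {d : ℕ} (i j : Fin d → ℤ) : ℕ := Finset.univ.sup fun a => (i a - j a).natAbs

/-- Length of a walk (list of points). -/
def plen {d : ℕ} : List (Fin d → ℤ) → ℕ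
  | [] => 0
  | [_] => 0
  | a :: b :: l => nd a b + plen (b :: l)

/-- Length of a closed walk. -/
def clen {d : ℕ} : List (Fin d → ℤ) → ℕ
  | [] => 0
  | a :: l => plen (a :: (l ++ [a]))

/-- The smallest length of a closed walk visiting every point of `A`. -/
noncomputable def tour {d : ℕ} (A : Finset (Fin d → ℤ)) : ℕ :=
  sInf {n | ∃ l : List (Fin d → ℤ), l ≠ [] ∧ (∀ x ∈ A, x ∈ l) ∧ clen l = n}

/-- `⟨j⟩ = 1 + |j|`. -/
noncomputable def brz {d : ℕ} (j : Fin d → ℤ) : ℝ := 1 + nd j 0

end KX
end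

section

/-!
# Tours: basic properties

Proofs. `tour_mono`: a walk through `B` is a walk through `A`. `clen_rotate`: `clen` is invariant
under rotation of the list. `tour_union`: rotate both optimal walks so that they start at a common
point `c`; the walk `c, ..., (c), ..., c` obtained by concatenation has length the sum.
`tour_dist`: the closed walk goes from `i` to `j` and back.
-/

set_option autoImplicit false

namespace KX

variable {d : ℕ}

theorem nd_self (i : Fin d → ℤ) : nd i i = 0 := by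
  simp [nd]

theorem nd_comm (i j : Fin d → ℤ) : nd i j = nd j i := by
  unfold nd
  congr 1
  funext a
  rw [← Int.natAbs_neg, neg_sub]

theorem nd_coord_T1 (i j : Fin d → ℤ) (a : Fin d) : (i a - j a).natAbs ≤ nd i j :=
  Finset.le_sup (f := fun a => (i a - j a).natAbs) (Finset.mem_univ a)

theorem nd_triangle (i j k : Fin d → ℤ) : nd i k ≤ nd i j + nd j k := by
  refine Finset.sup_le fun a _ => ?_
  have h1 := nd_coord_T1 i j a
  have h2 := nd_coord_T1 j k a
  omega

theorem plen_cons_T1 (a b : Fin d → ℤ) (l : List (Fin d → ℤ)) :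
    plen (a :: b :: l) = nd a b + plen (b :: l) := rfl

theorem plen_append_T1 (s : List (Fin d → ℤ)) (a : Fin d → ℤ) (t : List (Fin d → ℤ)) :
    plen (s ++ a :: t) = plen (s ++ [a]) + plen (a :: t) := by
  induction s with
  | nil => simp [plen]
  | cons b s ih =>
    cases s with
    | nil => simp [plen]
    | cons c s =>
      simp only [List.cons_append, plen_cons_T1] at ih ⊢
      rw [ih, add_assoc]

theorem nd_le_plen_T1 (a : Fin d → ℤ) (s : List (Fin d → ℤ)) (b : Fin d → ℤ) :
    nd a b ≤ plen (a :: (s ++ [b])) := by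
  induction s generalizing a with
  | nil => simp [plen]
  | cons c s ih =>
    have h1 := ih c
    have h2 := nd_triangle a c b
    simp only [List.cons_append, plen_cons_T1]
    omega

theorem clen_rotate_T1 (s : List (Fin d → ℤ)) (i : Fin d → ℤ) (t : List (Fin d → ℤ)) :
    clen (s ++ i :: t) = clen (i :: (t ++ s)) := by
  cases s with
  | nil => simp
  | cons b s =>
    have h1 : clen ((b :: s) ++ i :: t) = plen ((b :: s) ++ i :: (t ++ [b])) := by
      simp [clen]
    have h2 : clen (i :: (t ++ b :: s)) = plen ((i :: t) ++ b :: (s ++ [i])) := by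
      simp [clen]
    rw [h1, h2, plen_append_T1, plen_append_T1 (i :: t)]
    simp only [List.cons_append]
    omega

theorem tour_set_nonempty_T1 (A : Finset (Fin d → ℤ)) :
    {n | ∃ l : List (Fin d → ℤ), l ≠ [] ∧ (∀ x ∈ A, x ∈ l) ∧ clen l = n}.Nonempty := by
  refine ⟨clen (0 :: A.toList), 0 :: A.toList, by simp, fun x hx => ?_, rfl⟩
  simp [hx]

theorem tour_spec_T1 (A : Finset (Fin d → ℤ)) :
    ∃ l : List (Fin d → ℤ), l ≠ [] ∧ (∀ x ∈ A, x ∈ l) ∧ clen l = tour A :=
  Nat.sInf_mem (tour_set_nonempty_T1 A)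

/-- the optimum is attained, by a walk which may be assumed to start at a given point of `A` -/
theorem tour_exists (A : Finset (Fin d → ℤ)) (i : Fin d → ℤ) (hi : i ∈ A) :
    ∃ l : List (Fin d → ℤ), (∀ x ∈ A, x ∈ i :: l) ∧ clen (i :: l) = tour A := by
  obtain ⟨l, _, h1, h2⟩ := tour_spec_T1 A
  obtain ⟨s, t, rfl⟩ := List.append_of_mem (h1 i hi)
  refine ⟨t ++ s, fun x hx => ?_, ?_⟩
  · have := h1 x hx
    simp only [List.mem_append, List.mem_cons] at this ⊢
    tauto
  · rw [← h2, clen_rotate_T1]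

theorem tour_le (A : Finset (Fin d → ℤ)) (l : List (Fin d → ℤ)) (hl : l ≠ [])
    (h : ∀ x ∈ A, x ∈ l) : tour A ≤ clen l :=
  Nat.sInf_le ⟨l, hl, h, rfl⟩

theorem tour_mono {A B : Finset (Fin d → ℤ)} (h : A ⊆ B) : tour A ≤ tour B := by
  obtain ⟨l, h0, h1, h2⟩ := tour_spec_T1 B
  rw [← h2]
  exact tour_le A l h0 fun x hx => h1 x (h hx)

theorem tour_union {A B : Finset (Fin d → ℤ)} (h : (A ∩ B).Nonempty) :
    tour (A ∪ B) ≤ tour A + tour B := by
  obtain ⟨c, hc⟩ := h
  rw [Finset.mem_inter] at hc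
  obtain ⟨s, hs1, hs2⟩ := tour_exists A c hc.1
  obtain ⟨t, ht1, ht2⟩ := tour_exists B c hc.2
  rw [← hs2, ← ht2]
  have h1 : clen (c :: (s ++ c :: t)) = clen (c :: s) + clen (c :: t) := by
    have e1 : clen (c :: (s ++ c :: t)) = plen ((c :: s) ++ c :: (t ++ [c])) := by
      simp [clen]
    rw [e1, plen_append_T1]
    simp [clen]
  rw [← h1]
  refine tour_le _ _ (by simp) fun x hx => ?_
  rw [Finset.mem_union] at hx
  rcases hx with hx | hx
  · have := hs1 x hx
    simp only [List.mem_append, List.mem_cons] at this ⊢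
    tauto
  · have := ht1 x hx
    simp only [List.mem_append, List.mem_cons] at this ⊢
    tauto

theorem tour_dist {A : Finset (Fin d → ℤ)} {i j : Fin d → ℤ} (hi : i ∈ A) (hj : j ∈ A) :
    2 * nd i j ≤ tour A := by
  obtain ⟨l, hl1, hl2⟩ := tour_exists A i hi
  rw [← hl2]
  have h1 := hl1 j hj
  rw [List.mem_cons] at h1
  rcases h1 with rfl | h1
  · rw [nd_self]; omega
  · obtain ⟨s, t, rfl⟩ := List.append_of_mem h1
    have e1 : clen (i :: (s ++ j :: t)) = plen ((i :: s) ++ j :: (t ++ [i])) := by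
      simp [clen]
    rw [e1, plen_append_T1]
    have h2 := nd_le_plen_T1 i s j
    have h3 := nd_le_plen_T1 j t i
    rw [nd_comm j i] at h3
    simp only [List.cons_append]
    omega

theorem tour_pair (i j : Fin d → ℤ) : tour {i, j} = 2 * nd i j := by
  refine le_antisymm ?_ (tour_dist (by simp) (by simp))
  have h := tour_le {i, j} [i, j] (by simp) (by simp)
  refine h.trans ?_
  simp only [clen, plen, List.cons_append, List.nil_append]
  rw [nd_comm j i]
  omega

theorem brz_le {A : Finset (Fin d → ℤ)} {i j : Fin d → ℤ} (hi : i ∈ A) (hj : j ∈ A) :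
    brz i ≤ brz j * (1 + tour A) := by
  have h1 := tour_dist hi hj
  have h2 := nd_triangle i j 0
  have h3 : nd i 0 ≤ tour A + nd j 0 := by omega
  have h4 : (nd i 0 : ℝ) ≤ tour A + nd j 0 := by exact_mod_cast h3
  have h5 : (0 : ℝ) ≤ nd j 0 := Nat.cast_nonneg _
  have h6 : (0 : ℝ) ≤ tour A := Nat.cast_nonneg _
  unfold brz
  nlinarith [mul_nonneg h5 h6]

end KX
end

section

/-!
# Tours: counting

`tour_sum`. For `A ∋ i` with `p + 1` points take an optimal closed walk starting at `i`
(`tour_exists`) and keep only the first visits: this gives a list `i, a_1, ..., a_p` without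
repetition with point set `A`, whose walk length is at most `tour A` (triangle inequality). Hence
the sum is at most the sum over all `(a_1, ..., a_p)` of the product of the
`exp (-δ * nd a_(m+1) a_m)`, which is `Sd d δ ^ p` (translation invariance, induction on `p`).

`Sd_le`: `nd x 0 ≥ (1/d) ∑ |x_a|`, the sum factors, `∑_{n ∈ ℤ} exp (-(δ/d)|n|) ≤ 4 d / δ` for
`0 < δ ≤ 1`.
-/

set_option autoImplicit false

namespace KX

open scoped ENNReal

/-- `∑_x exp (-δ |x|)` over `ℤ^d`. -/
noncomputable def Sd (d : ℕ) (δ : ℝ) : ℝ≥0∞ :=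
  ∑' x : Fin d → ℤ, ENNReal.ofReal (Real.exp (-δ * nd x 0))

theorem plen_cons_le_T2a {d : ℕ} (i a : Fin d → ℤ) (l : List (Fin d → ℤ)) :
    plen (i :: l) ≤ nd i a + plen (a :: l) := by
  cases l with
  | nil => simp [plen]
  | cons b l =>
    simp only [plen_cons_T1]
    have := nd_triangle i a b
    omega

theorem plen_sublist_T2a {d : ℕ} {l' l : List (Fin d → ℤ)} (h : l'.Sublist l) :
    ∀ i, plen (i :: l') ≤ plen (i :: l) := by
  induction h with
  | slnil => intro i; exact le_rfl
  | cons a h ih =>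
    intro i
    rw [plen_cons_T1]
    exact (plen_cons_le_T2a i a _).trans (Nat.add_le_add_left (ih a) _)
  | cons_cons a h ih =>
    intro i
    rw [plen_cons_T1, plen_cons_T1]
    exact Nat.add_le_add_left (ih a) _

theorem exists_list_T2a {d : ℕ} (A : Finset (Fin d → ℤ)) (i : Fin d → ℤ) (hi : i ∈ A) (p : ℕ)
    (hc : A.card = p + 1) :
    ∃ l : List (Fin d → ℤ), l.length = p ∧ (i :: l).toFinset = A ∧ plen (i :: l) ≤ tour A := by
  classical
  obtain ⟨l, h1, h2⟩ := tour_exists A i hi
  set l' : List (Fin d → ℤ) := (l.filter (fun x => x ∈ A ∧ x ≠ i)).dedup with hl'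
  have hsub : l'.Sublist l := (List.dedup_sublist _).trans List.filter_sublist
  have hmem : ∀ x, x ∈ l' ↔ x ∈ A ∧ x ≠ i := by
    intro x
    rw [hl', List.mem_dedup, List.mem_filter]
    constructor
    · rintro ⟨_, h⟩
      simpa using h
    · intro h
      refine ⟨?_, by simpa using h⟩
      have := h1 x h.1
      rw [List.mem_cons] at this
      exact this.resolve_left h.2
  have hnd : (i :: l').Nodup := by
    rw [List.nodup_cons]
    refine ⟨fun h => ((hmem i).1 h).2 rfl, List.nodup_dedup _⟩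
  have hfin : (i :: l').toFinset = A := by
    ext x
    rw [List.mem_toFinset, List.mem_cons, hmem]
    constructor
    · rintro (rfl | h)
      · exact hi
      · exact h.1
    · intro h
      by_cases hx : x = i
      · exact Or.inl hx
      · exact Or.inr ⟨h, hx⟩
  refine ⟨l', ?_, hfin, ?_⟩
  · have h3 := List.toFinset_card_of_nodup hnd
    rw [hfin, hc, List.length_cons] at h3
    omega
  · rw [← h2]
    refine (plen_sublist_T2a hsub i).trans ?_
    exact plen_sublist_T2a (List.sublist_append_left l [i]) i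

theorem sum_nd_T2a {d : ℕ} (δ : ℝ) (i : Fin d → ℤ) :
    ∑' a : Fin d → ℤ, ENNReal.ofReal (Real.exp (-δ * nd i a)) = Sd d δ := by
  unfold Sd
  rw [← Equiv.tsum_eq (Equiv.subLeft i)]
  refine tsum_congr fun a => ?_
  congr 4
  unfold nd
  congr 1
  funext x
  simp

/-- sum over the lists of length `p` -/
noncomputable def G_T2a {d : ℕ} (δ : ℝ) (p : ℕ) (i : Fin d → ℤ) (l : List (Fin d → ℤ)) : ℝ≥0∞ :=
  if l.length = p then ENNReal.ofReal (Real.exp (-δ * plen (i :: l))) else 0

theorem G_sum_T2a {d : ℕ} (δ : ℝ) (p : ℕ) (i : Fin d → ℤ) :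
    ∑' l, G_T2a δ p i l ≤ Sd d δ ^ p := by
  induction p generalizing i with
  | zero =>
    rw [tsum_eq_single []]
    · simp [G_T2a, plen]
    · intro l hl
      unfold G_T2a
      rw [if_neg]
      simpa using hl
  | succ p ih =>
    have hinj : Function.Injective
        (fun x : (Fin d → ℤ) × List (Fin d → ℤ) => x.1 :: x.2) := by
      rintro ⟨a, l⟩ ⟨b, m⟩ h
      simp only [List.cons.injEq] at h
      rw [h.1, h.2]
    rw [← hinj.tsum_eq]
    · rw [ENNReal.tsum_prod']
      calc ∑' (a : Fin d → ℤ), ∑' (l : List (Fin d → ℤ)), G_T2a δ (p + 1) i (a :: l)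
          = ∑' (a : Fin d → ℤ), ENNReal.ofReal (Real.exp (-δ * nd i a)) *
              ∑' (l : List (Fin d → ℤ)), G_T2a δ p a l := by
            refine tsum_congr fun a => ?_
            rw [← ENNReal.tsum_mul_left]
            refine tsum_congr fun l => ?_
            unfold G_T2a
            by_cases h : l.length = p
            · rw [if_pos h, if_pos (by simp [h]), plen_cons_T1, ← ENNReal.ofReal_mul
                (Real.exp_pos _).le, ← Real.exp_add]
              congr 2
              push_cast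
              ring
            · rw [if_neg h, if_neg (by simpa using h), mul_zero]
        _ ≤ ∑' (a : Fin d → ℤ), ENNReal.ofReal (Real.exp (-δ * nd i a)) * Sd d δ ^ p :=
            ENNReal.tsum_le_tsum fun a => mul_le_mul_right (ih a) _
        _ = Sd d δ ^ (p + 1) := by
            rw [ENNReal.tsum_mul_right, sum_nd_T2a, pow_succ, mul_comm]
    · intro l hl
      cases l with
      | nil =>
        exfalso
        apply hl
        unfold G_T2a
        rw [if_neg]
        simp
      | cons a l => exact ⟨(a, l), rfl⟩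

theorem tour_sum {d : ℕ} (δ : ℝ) (hδ : 0 < δ) (i : Fin d → ℤ) (p : ℕ) :
    ∑' A : Finset (Fin d → ℤ), (if i ∈ A ∧ A.card = p + 1 then
      ENNReal.ofReal (Real.exp (-δ * tour A)) else 0) ≤ Sd d δ ^ p := by
  classical
  set S : Set (Finset (Fin d → ℤ)) := {A | i ∈ A ∧ A.card = p + 1} with hS
  have hex : ∀ A : S, ∃ l : List (Fin d → ℤ), l.length = p ∧ (i :: l).toFinset = A.1 ∧
      plen (i :: l) ≤ tour A.1 := fun A => exists_list_T2a A.1 i A.2.1 p A.2.2
  choose L hL1 hL2 hL3 using hex
  have hLinj : Function.Injective L := by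
    intro A B h
    apply Subtype.ext
    rw [← hL2 A, ← hL2 B, h]
  calc ∑' A : Finset (Fin d → ℤ), (if i ∈ A ∧ A.card = p + 1 then
        ENNReal.ofReal (Real.exp (-δ * tour A)) else 0)
      = ∑' A : Finset (Fin d → ℤ), S.indicator
          (fun A => ENNReal.ofReal (Real.exp (-δ * tour A))) A := by
        refine tsum_congr fun A => ?_
        by_cases hA : i ∈ A ∧ A.card = p + 1
        · rw [if_pos hA, Set.indicator_of_mem (show A ∈ S from hA)]
        · rw [if_neg hA, Set.indicator_of_notMem (show A ∉ S from hA)]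
    _ = ∑' A : S, ENNReal.ofReal (Real.exp (-δ * tour A.1)) := by
        rw [← tsum_subtype]
    _ ≤ ∑' A : S, G_T2a δ p i (L A) := by
        apply ENNReal.tsum_le_tsum
        intro A
        unfold G_T2a
        rw [if_pos (hL1 A)]
        apply ENNReal.ofReal_le_ofReal
        apply Real.exp_le_exp.2
        have h1 : (plen (i :: L A) : ℝ) ≤ tour A.1 := by exact_mod_cast hL3 A
        nlinarith
    _ ≤ ∑' l, G_T2a δ p i l := ENNReal.tsum_comp_le_tsum_of_injective hLinj _
    _ ≤ _ := G_sum_T2a δ p i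

end KX
end
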