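import Pool.Agent.Lib.MP_73c19a_an.Tree
import Pool.Agent.Lib.MP_73c19a_an.RBa
import Pool.Agent.Lib.MP_73c19a_an.Posa
import Pool.Agent.Lib.MP_73c19a_an.RBc
import Pool.Agent.Lib.MP_73c19a_an.Mg.G002

section

/-!
# Formal series in the monomials `x^n e^{i k·φ}`: definitions

A formal series is a function `g : Mon V → ℂ`. `XX F g = {g, F}` is the derivation generated by `F`,
`Dw w` the derivative in the direction `w` of the angles, `expX F = exp (XX F)`.
-/

set_option autoImplicit false

namespace KX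

open scoped ENNReal

/-- monomials `x^n e^{i k·φ}` -/
abbrev Mon (V : Type) := (V →₀ ℕ) × (V →₀ ℤ)

open Classical in
/-- push-forward of a family of coefficients -/
noncomputable def push {ι M : Type} (T : ι → M) (u : ι → ℂ) : M → ℂ :=
  fun m => ∑' i, if T i = m then u i else 0

/-- weighted `ℓ¹` norm -/
noncomputable def nr {M : Type} (w : M → ℝ≥0∞) (g : M → ℂ) : ℝ≥0∞ := ∑' m, ‖g m‖ₑ * w m

/-- product of formal series -/
noncomputable def mulm {V : Type} (g h : Mon V → ℂ) : Mon V → ℂ :=
  push (fun x : Mon V × Mon V => x.1 + x.2) fun x => g x.1 * h x.2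

variable {V : Type} [DecidableEq V]

/-- coefficient of the bracket of two monomials at the site `j` -/
noncomputable def kapm (j : V) (m1 m2 : Mon V) : ℤ :=
  m1.2 j * (m2.1 j : ℤ) - (m1.1 j : ℤ) * m2.2 j

/-- monomial of the bracket at the site `j` -/
noncomputable def tgt (j : V) (m1 m2 : Mon V) : Mon V :=
  (m1.1 + m2.1 - Finsupp.single j 1, m1.2 + m2.2)

/-- `XX F g = {g, F}` -/
noncomputable def XX (F g : Mon V → ℂ) : Mon V → ℂ :=
  push (fun x : V × Mon V × Mon V => tgt x.1 x.2.1 x.2.2)
    fun x => Complex.I * (kapm x.1 x.2.1 x.2.2 : ℂ) * g x.2.1 * F x.2.2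

/-- `k · w` for integer vectors (finite sum) -/
noncomputable def dotm (k : V →₀ ℤ) (w : V → ℝ) : ℝ := k.sum fun j x => (x : ℝ) * w j

/-- derivative of the angles in the direction `w` -/
noncomputable def Dw (w : V → ℝ) (g : Mon V → ℂ) : Mon V → ℂ :=
  fun m => Complex.I * (dotm m.2 w : ℂ) * g m

/-- `exp (XX F) g` -/
noncomputable def expX (F g : Mon V → ℂ) : Mon V → ℂ :=
  fun m => ∑' n : ℕ, (1 / (n.factorial : ℂ)) * ((XX F)^[n] g) m

/-- conjugation: `g*(n, k) = conj (g (n, -k))` -/
noncomputable def cj (g : Mon V → ℂ) : Mon V → ℂ := fun m => (starRingEnd ℂ) (g (m.1, -m.2))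

/-- a single monomial -/
noncomputable def em (m : Mon V) : Mon V → ℂ := Pi.single m 1

/-- degree plus number of harmonics -/
noncomputable def NM (m : Mon V) : ℕ := dgr m.1 + kab m.2

/-- support of a monomial -/
noncomputable def spm (m : Mon V) : Finset V := m.1.support ∪ m.2.support

/-- product of the `a j` -/
noncomputable def amn (a : V → ℝ) (n : V →₀ ℕ) : ℝ := n.prod fun j x => a j ^ x

/-- weight for observables -/
noncomputable def wm (G : Geo V) (rho s : ℝ) (m : Mon V) : ℝ≥0∞ :=
  ENNReal.ofReal (rho ^ dgr m.1 * amn G.a m.1 * Real.exp (s * NM m))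

/-- weight for generators -/
noncomputable def wg (G : Geo V) (rho s : ℝ) (m : Mon V) : ℝ≥0∞ :=
  wm G rho s m * ENNReal.ofReal (G.ainv (spm m))

/-- the derivation of the Hamiltonian `w · x + p` -/
noncomputable def dl (w : V → ℝ) (p g : Mon V → ℂ) : Mon V → ℂ := Dw w g + XX p g

end KX
end

section

/-!
# Push-forwards
-/

set_option autoImplicit false

namespace KX

open scoped ENNReal

section gen

variable {ι κ M M' : Type}

open Classical in
/-- sum over a fibre, in `[0, ∞]` -/
theorem tsum_fibre_a1 (w : M → ℝ≥0∞) (T : ι → M) (v : ι → ℝ≥0∞) :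
    ∑' m, (∑' i, if T i = m then v i else 0) * w m = ∑' i, v i * w (T i) := by
  simp only [← ENNReal.tsum_mul_right]
  rw [ENNReal.tsum_comm]
  refine tsum_congr fun i => ?_
  rw [tsum_eq_single (T i)]
  · simp
  · intro m hm
    rw [if_neg (fun h => hm h.symm), zero_mul]

open Classical in
theorem enorm_ite_a1 (T : ι → M) (u : ι → ℂ) (m : M) (i : ι) :
    ‖(if T i = m then u i else 0 : ℂ)‖ₑ = if T i = m then ‖u i‖ₑ else 0 := by
  split_ifs <;> simp

open Classical in
theorem tsum_fibre_ne_top_a1 (w : M → ℝ≥0∞) (T : ι → M) (v : ι → ℝ≥0∞)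
    (h : ∑' i, v i * w (T i) ≠ ∞) (m : M) (hm : w m ≠ 0) :
    ∑' i, (if T i = m then v i else 0) ≠ ∞ := by
  rw [← tsum_fibre_a1] at h
  have h1 : (∑' i, if T i = m then v i else 0) * w m ≠ ∞ := ne_top_of_le_ne_top h (ENNReal.le_tsum m)
  intro h2
  rw [h2] at h1
  exact h1 (ENNReal.top_mul hm)

open Classical in
theorem summable_fibre_a1 (w : M → ℝ≥0∞) (T : ι → M) (u : ι → ℂ)
    (h : ∑' i, ‖u i‖ₑ * w (T i) ≠ ∞) (m : M) (hm : w m ≠ 0) :
    Summable fun i => (if T i = m then u i else 0 : ℂ) := by
  refine Summable.of_enorm ?_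
  simp only [enorm_ite_a1]
  exact tsum_fibre_ne_top_a1 w T _ h m hm

/-- norm of a push-forward -/
theorem nr_push_le (w : M → ℝ≥0∞) (T : ι → M) (u : ι → ℂ) :
    nr w (push T u) ≤ ∑' i, ‖u i‖ₑ * w (T i) := by
  classical
  rw [← tsum_fibre_a1]
  refine ENNReal.tsum_le_tsum fun m => mul_le_mul_left ?_ _
  refine enorm_tsum_le_tsum_enorm.trans (le_of_eq (tsum_congr fun i => ?_))
  convert enorm_ite_a1 T u m i

/-- summability over a fibre -/
theorem summable_fibre (w : M → ℝ≥0∞) (T : ι → M) (u : ι → ℂ) (h : ∑' i, ‖u i‖ₑ * w (T i) ≠ ∞)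
    (m : M) (hm : w m ≠ 0) : Summable fun i => ‖(by classical exact if T i = m then u i else 0 : ℂ)‖ := by
  have h1 := (summable_fibre_a1 w T u h m hm).norm
  convert h1

/-- additivity -/
theorem push_add (w : M → ℝ≥0∞) (hw : ∀ m, w m ≠ 0) (T : ι → M) (u v : ι → ℂ)
    (hu : ∑' i, ‖u i‖ₑ * w (T i) ≠ ∞) (hv : ∑' i, ‖v i‖ₑ * w (T i) ≠ ∞) :
    push T (fun i => u i + v i) = fun m => push T u m + push T v m := by
  classical
  funext m
  unfold push
  rw [← Summable.tsum_add]
  · refine tsum_congr fun i => ?_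
    split_ifs <;> simp
  · convert summable_fibre_a1 w T u hu m (hw m)
  · convert summable_fibre_a1 w T v hv m (hw m)

theorem push_smul (T : ι → M) (u : ι → ℂ) (c : ℂ) :
    push T (fun i => c * u i) = fun m => c * push T u m := by
  classical
  funext m
  unfold push
  rw [← tsum_mul_left]
  refine tsum_congr fun i => ?_
  split_ifs <;> simp

/-- the push-forward only depends on the values of `T` where `u ≠ 0` -/
theorem push_congr (T T' : ι → M) (u : ι → ℂ) (h : ∀ i, u i ≠ 0 → T i = T' i) :
    push T u = push T' u := by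
  classical
  funext m
  unfold push
  refine tsum_congr fun i => ?_
  by_cases hi : u i = 0
  · simp [hi]
  · rw [h i hi]

/-- reindexing -/
theorem push_equiv (e : κ ≃ ι) (T : ι → M) (u : ι → ℂ) : push (T ∘ e) (u ∘ e) = push T u := by
  classical
  funext m
  unfold push
  exact e.tsum_eq fun i => if T i = m then u i else 0

end gen

end KX
end

section

/-!
# Joint small ball estimate for independent integer vectors
-/

set_option autoImplicit false

namespace KX

open MeasureTheory

open scoped ENNReal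

/-- the distribution of one frequency -/
noncomputable def nu : Measure ℝ :=
  volume.withDensity fun x => if 0 < x then ENNReal.ofReal (2 / √Real.pi * Real.exp (-x ^ 2)) else 0

theorem nu_eq : nu = (volume.restrict (Set.Ioi 0)).withDensity
    fun x => ENNReal.ofReal (2 / √Real.pi * Real.exp (-x ^ 2)) := by
  have h1 : (fun x : ℝ => if 0 < x then ENNReal.ofReal (2 / √Real.pi * Real.exp (-x ^ 2)) else 0) =
      (Set.Ioi (0 : ℝ)).indicator fun x => ENNReal.ofReal (2 / √Real.pi * Real.exp (-x ^ 2)) := by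
    funext x
    by_cases hx : 0 < x
    · simp [Set.indicator, hx]
    · simp [Set.indicator, hx]
  unfold nu
  rw [h1, withDensity_indicator measurableSet_Ioi]

instance nu_prob : IsProbabilityMeasure nu := by
  constructor
  have hpi : 0 < √Real.pi := Real.sqrt_pos.2 Real.pi_pos
  have hint : Integrable (fun x : ℝ => 2 / √Real.pi * Real.exp (-x ^ 2))
      (volume.restrict (Set.Ioi 0)) := by
    have h1 := (integrable_exp_neg_mul_sq one_pos).integrableOn (s := Set.Ioi (0 : ℝ))
    simp only [neg_mul, one_mul] at h1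
    exact h1.const_mul _
  rw [nu_eq, withDensity_apply _ MeasurableSet.univ, Measure.restrict_univ,
    ← ofReal_integral_eq_lintegral_ofReal hint (Filter.Eventually.of_forall fun x => by positivity),
    integral_const_mul]
  have h2 := integral_gaussian_Ioi 1
  simp only [neg_mul, one_mul, div_one] at h2
  rw [h2]
  have h3 : 2 / √Real.pi * (√Real.pi / 2) = 1 := by field_simp
  rw [h3, ENNReal.ofReal_one]

theorem nu_le (s : Set ℝ) : nu s ≤ 2 * volume s := by
  have hpi : 1 ≤ √Real.pi := by
    rw [Real.one_le_sqrt]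
    have := Real.pi_gt_three
    linarith
  have h1 : nu ≤ (2 : ℝ≥0∞) • (volume : Measure ℝ) := by
    have h2 : ((2 : ℝ≥0∞) • (volume : Measure ℝ)) = volume.withDensity fun _ => 2 := by
      rw [withDensity_const]
    rw [h2]
    unfold nu
    refine withDensity_mono (Filter.Eventually.of_forall fun x => ?_)
    by_cases hx : 0 < x
    · simp only [hx, if_true]
      rw [← ENNReal.ofReal_ofNat]
      refine ENNReal.ofReal_le_ofReal ?_
      have h3 : 2 / √Real.pi ≤ 2 := div_le_self zero_le_two hpi
      have h4 : Real.exp (-x ^ 2) ≤ 1 := Real.exp_le_one_iff.2 (by nlinarith [sq_nonneg x])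
      calc 2 / √Real.pi * Real.exp (-x ^ 2) ≤ 2 * 1 :=
            mul_le_mul h3 h4 (Real.exp_pos _).le zero_le_two
        _ = 2 := mul_one 2
    · simp [hx]
  exact h1 s

end KX
end

section

/-!
# Joint small ball estimate for independent integer vectors
-/

set_option autoImplicit false

namespace KX

open MeasureTheory

open scoped ENNReal

/-- the distribution of the frequencies -/
noncomputable def PP (V : Type) : Measure (V → ℝ) := Measure.infinitePi fun _ : V => nu

instance PP_prob (V : Type) : IsProbabilityMeasure (PP V) := by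
  unfold PP; infer_instance

/-- Fubini: the law of the coordinates in the finite set `S` is the product law, independent of the
others. `mrg S x w` has the coordinates `x` on `S` and those of `w` outside `S`. -/
noncomputable def mrg {V : Type} [DecidableEq V] (S : Finset V) (x : S → ℝ) (w : V → ℝ) : V → ℝ :=
  fun j => if h : j ∈ S then x ⟨j, h⟩ else w j

private theorem measurable_mrg {V : Type} [DecidableEq V] (S : Finset V) :
    Measurable fun p : (V → ℝ) × (S → ℝ) => mrg S p.2 p.1 := by
  rw [measurable_pi_iff]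
  intro j
  unfold mrg
  by_cases h : j ∈ S
  · simp only [h, dif_pos]
    exact (measurable_pi_apply _).comp measurable_snd
  · simp only [h, dif_neg, not_false_eq_true]
    exact (measurable_pi_apply _).comp measurable_fst

theorem PP_fubini {V : Type} [DecidableEq V] (S : Finset V) (E : Set (V → ℝ))
    (hE : MeasurableSet E) :
    PP V E = ∫⁻ w, Measure.pi (fun _ : S => nu) {x | mrg S x w ∈ E} ∂(PP V) := by
  have key : ((PP V).prod (Measure.pi fun _ : S => nu)).map
      (fun p : (V → ℝ) × (S → ℝ) => mrg S p.2 p.1) = PP V := by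
    unfold PP
    refine Measure.eq_infinitePi _ ?_
    intro T t ht
    have hmeas : MeasurableSet ((T : Set V).pi t) :=
      MeasurableSet.pi T.countable_toSet fun i _ => ht i
    rw [Measure.map_apply (measurable_mrg S) hmeas]
    have hset : (fun p : (V → ℝ) × (S → ℝ) => mrg S p.2 p.1) ⁻¹' ((T : Set V).pi t) =
        (((T \ S : Finset V) : Set V).pi t) ×ˢ
          (Set.pi Set.univ fun i : S => if (i : V) ∈ T then t i else Set.univ) := by
      ext ⟨w, x⟩
      simp only [Set.mem_preimage, Set.mem_pi, Set.mem_prod, Finset.mem_coe, Finset.mem_sdiff,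
        Set.mem_univ, forall_true_left, mrg]
      constructor
      · intro h
        refine ⟨fun i hi => ?_, fun i => ?_⟩
        · have := h i hi.1
          rwa [dif_neg hi.2] at this
        · by_cases hi : (i : V) ∈ T
          · rw [if_pos hi]
            have := h i hi
            rwa [dif_pos i.2] at this
          · rw [if_neg hi]; trivial
      · rintro ⟨h1, h2⟩ i hi
        by_cases hS : i ∈ S
        · rw [dif_pos hS]
          have := h2 ⟨i, hS⟩
          rwa [if_pos hi] at this
        · rw [dif_neg hS]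
          exact h1 i ⟨hi, hS⟩
    rw [hset, Measure.prod_prod, Measure.infinitePi_pi _ (fun i _ => ht i),
      Measure.pi_pi]
    have h2 : (∏ i : S, nu (if (i : V) ∈ T then t i else Set.univ)) =
        ∏ i ∈ T ∩ S, nu (t i) := by
      rw [Finset.prod_coe_sort S (fun i => nu (if i ∈ T then t i else Set.univ)),
        Finset.inter_comm, ← Finset.filter_mem_eq_inter, Finset.prod_filter]
      refine Finset.prod_congr rfl fun i _ => ?_
      split_ifs
      · rfl
      · exact measure_univ
    rw [h2, mul_comm, Finset.prod_inter_mul_prod_sdiff]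
  conv_lhs => rw [← key]
  rw [Measure.map_apply (measurable_mrg S) hE,
    Measure.prod_apply ((measurable_mrg S) hE)]
  rfl

theorem pi_nu_le {S : Type} [Fintype S] (E : Set (S → ℝ)) :
    Measure.pi (fun _ : S => nu) E ≤ 2 ^ Fintype.card S * volume E := by
  have h0 : (2 : ℝ≥0∞) ^ Fintype.card S ≠ 0 := pow_ne_zero _ (by norm_num)
  have ht : (2 : ℝ≥0∞) ^ Fintype.card S ≠ ∞ := ENNReal.pow_ne_top (by norm_num)
  have key : ((((2 : ℝ≥0∞) ^ Fintype.card S)⁻¹ • Measure.pi (fun _ : S => nu)).toOuterMeasure) ≤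
      OuterMeasure.pi (fun _ : S => (volume : Measure ℝ).toOuterMeasure) := by
    rw [OuterMeasure.le_pi]
    intro s _
    show (((2 : ℝ≥0∞) ^ Fintype.card S)⁻¹ • Measure.pi (fun _ : S => nu)) (Set.pi Set.univ s) ≤
      ∏ i, volume (s i)
    rw [Measure.smul_apply, Measure.pi_pi, smul_eq_mul]
    calc ((2 : ℝ≥0∞) ^ Fintype.card S)⁻¹ * ∏ i, nu (s i)
        ≤ ((2 : ℝ≥0∞) ^ Fintype.card S)⁻¹ * ∏ i, (2 * volume (s i)) := by
          gcongr with i _
          exact nu_le _
      _ = ((2 : ℝ≥0∞) ^ Fintype.card S)⁻¹ * (2 ^ Fintype.card S * ∏ i, volume (s i)) := by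
          rw [Finset.prod_mul_distrib, Finset.prod_const, Finset.card_univ]
      _ = ∏ i, volume (s i) := by
          rw [← mul_assoc, ENNReal.inv_mul_cancel h0 ht, one_mul]
  have hle : Measure.pi (fun _ : S => nu) ≤
      ((2 : ℝ≥0∞) ^ Fintype.card S) • (volume : Measure (S → ℝ)) := by
    rw [Measure.le_iff]
    intro s hs
    have h1 : (((2 : ℝ≥0∞) ^ Fintype.card S)⁻¹ • Measure.pi (fun _ : S => nu)) s ≤
        OuterMeasure.pi (fun _ : S => (volume : Measure ℝ).toOuterMeasure) s := key s
    have h2 : (volume : Measure (S → ℝ)) s =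
        OuterMeasure.pi (fun _ : S => (volume : Measure ℝ).toOuterMeasure) s := by
      rw [volume_pi, Measure.pi]
      exact toMeasure_apply _ _ hs
    rw [← h2, Measure.smul_apply, smul_eq_mul] at h1
    rw [Measure.smul_apply, smul_eq_mul]
    calc Measure.pi (fun _ : S => nu) s
        = 2 ^ Fintype.card S * (((2 : ℝ≥0∞) ^ Fintype.card S)⁻¹ *
            Measure.pi (fun _ : S => nu) s) := by
          rw [← mul_assoc, ENNReal.mul_inv_cancel h0 ht, one_mul]
      _ ≤ 2 ^ Fintype.card S * volume s := by gcongr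
  have := hle E
  rwa [Measure.smul_apply, smul_eq_mul] at this

end KX
end

section

/-!
# Union bounds for the small divisor conditions
-/

set_option autoImplicit false

namespace KX

open MeasureTheory

open scoped ENNReal

variable {V : Type} [DecidableEq V]

omit [DecidableEq V] in
private theorem lbl_countable_aux [Countable V] : Countable (Lbl V) := by
  have h : Function.Injective (fun l : Lbl V => ((l.A, l.n, l.k) : Finset V × (V →₀ ℕ) × (V →₀ ℤ))) := by
    intro l l' hl
    simp only [Prod.mk.injEq] at hl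
    exact Lbl.ext hl.1 hl.2.1 hl.2.2
  exact h.countable

instance Lbl_countable [Countable V] : Countable (Lbl V) := lbl_countable_aux

omit [DecidableEq V] in
private theorem q_pos_aux (h : Tr V) : 1 ≤ Tr.q h := by
  induction h with
  | leaf l => exact le_refl _
  | node j f p hf hp =>
    simp only [Tr.q]
    omega

private theorem tr_q_countable [Countable V] (n : ℕ) : {h : Tr V | Tr.q h ≤ n}.Countable := by
  induction n with
  | zero =>
    have : {h : Tr V | Tr.q h ≤ 0} = ∅ := by
      ext h
      simp only [Set.mem_ofPred_eq, Set.mem_empty_iff_false, iff_false, not_le]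
      exact q_pos_aux h
    rw [this]
    exact Set.countable_empty
  | succ n ih =>
    have h1 : (Set.range (fun l : Lbl V => Tr.leaf l)).Countable := Set.countable_range _
    have h2 : ((fun x : V × Tr V × Tr V => Tr.node x.1 x.2.1 x.2.2) ''
        ((Set.univ : Set V) ×ˢ ({h : Tr V | Tr.q h ≤ n} ×ˢ {h : Tr V | Tr.q h ≤ n}))).Countable :=
      (Set.countable_univ.prod (ih.prod ih)).image _
    refine (h1.union h2).mono ?_
    intro h hh
    cases h with
    | leaf l => exact Or.inl ⟨l, rfl⟩
    | node j f p =>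
      refine Or.inr ⟨(j, f, p), ⟨Set.mem_univ _, ?_, ?_⟩, rfl⟩
      · have := q_pos_aux p
        simp only [Set.mem_ofPred_eq, Tr.q] at hh ⊢
        omega
      · have := q_pos_aux f
        simp only [Set.mem_ofPred_eq, Tr.q] at hh ⊢
        omega

instance Tr_countable [Countable V] : Countable (Tr V) := by
  rw [← Set.countable_univ_iff]
  have : (Set.univ : Set (Tr V)) = ⋃ n : ℕ, {h : Tr V | Tr.q h ≤ n} := by
    ext h
    simp only [Set.mem_univ, Set.mem_iUnion, Set.mem_ofPred_eq, true_iff]
    exact ⟨_, le_refl _⟩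
  rw [this]
  exact Set.countable_iUnion tr_q_countable

/-- weighted sum over the labels whose cluster contains a given site -/
def LS (G : Geo V) (ell de : ℝ) : Prop :=
  ∀ i : V, ∑' l : Lbl V, (if i ∈ l.A then
    ENNReal.ofReal (Real.exp (-(ell * l.A.card + de * (l.N + G.Lam l.A)))) else 0) ≤ 1

/-- the locations are summable -/
def SB (G : Geo V) (bD Cb : ℝ) : Prop :=
  ∑' i : V, ENNReal.ofReal ((G.br i) ^ (-bD)) ≤ ENNReal.ofReal Cb

end KX
end

section

/-!
# Push-forwards
-/

set_option autoImplicit false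

namespace KX

open scoped ENNReal

variable {V : Type} [DecidableEq V]

theorem amn_pos_a1 (G : Geo V) (n : V →₀ ℕ) : 0 < amn G.a n :=
  Finset.prod_pos fun j _ => pow_pos (G.a_pos j) _

theorem wm_real_pos_a1 (G : Geo V) (rho s : ℝ) (hr : 0 < rho) (m : Mon V) :
    0 < rho ^ dgr m.1 * amn G.a m.1 * Real.exp (s * NM m) :=
  mul_pos (mul_pos (pow_pos hr _) (amn_pos_a1 G _)) (Real.exp_pos _)

theorem dgr_add_a1 (n n' : V →₀ ℕ) : dgr (n + n') = dgr n + dgr n' :=
  Finsupp.sum_add_index' (fun _ => rfl) (fun _ _ _ => rfl)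

theorem kab_add_a1 (k k' : V →₀ ℤ) : kab (k + k') ≤ kab k + kab k' := by
  unfold kab
  have h1 : (k + k').sum (fun _ x => x.natAbs) = ∑ j ∈ k.support ∪ k'.support, ((k + k') j).natAbs :=
    Finset.sum_subset Finsupp.support_add fun j _ hj => by
      rw [Finsupp.notMem_support_iff.1 hj]; rfl
  have h2 : k.sum (fun _ x => x.natAbs) = ∑ j ∈ k.support ∪ k'.support, (k j).natAbs :=
    Finset.sum_subset Finset.subset_union_left fun j _ hj => by
      rw [Finsupp.notMem_support_iff.1 hj]; rfl
  have h3 : k'.sum (fun _ x => x.natAbs) = ∑ j ∈ k.support ∪ k'.support, (k' j).natAbs :=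
    Finset.sum_subset Finset.subset_union_right fun j _ hj => by
      rw [Finsupp.notMem_support_iff.1 hj]; rfl
  rw [h1, h2, h3, ← Finset.sum_add_distrib]
  exact Finset.sum_le_sum fun j _ => Int.natAbs_add_le _ _

theorem amn_add_a1 (a : V → ℝ) (n n' : V →₀ ℕ) : amn a (n + n') = amn a n * amn a n' :=
  Finsupp.prod_add_index' (fun _ => pow_zero _) (fun _ _ _ => pow_add _ _ _)

theorem NM_add_a1 (m m' : Mon V) : NM (m + m') ≤ NM m + NM m' := by
  unfold NM
  have h1 := dgr_add_a1 m.1 m'.1
  have h2 := kab_add_a1 m.2 m'.2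
  have e1 : (m + m').1 = m.1 + m'.1 := rfl
  have e2 : (m + m').2 = m.2 + m'.2 := rfl
  rw [e1, e2]
  omega

theorem wm_ne_zero (G : Geo V) (rho s : ℝ) (hr : 0 < rho) (m : Mon V) : wm G rho s m ≠ 0 := by
  unfold wm
  exact (ENNReal.ofReal_pos.2 (wm_real_pos_a1 G rho s hr m)).ne'

theorem one_le_ainv_enn_a1 (G : Geo V) (A : Finset V) : 1 ≤ ENNReal.ofReal (G.ainv A) := by
  rw [← ENNReal.ofReal_one]
  exact ENNReal.ofReal_le_ofReal (G.one_le_ainv A)

theorem wg_ne_zero (G : Geo V) (rho s : ℝ) (hr : 0 < rho) (m : Mon V) : wg G rho s m ≠ 0 := by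
  unfold wg
  refine mul_ne_zero (wm_ne_zero G rho s hr m) ?_
  exact (lt_of_lt_of_le zero_lt_one (one_le_ainv_enn_a1 G _)).ne'

theorem wm_le_wg (G : Geo V) (rho s : ℝ) (m : Mon V) : wm G rho s m ≤ wg G rho s m := by
  unfold wg
  exact le_mul_of_one_le_right (zero_le) (one_le_ainv_enn_a1 G _)

theorem wm_mono (G : Geo V) (rho : ℝ) (hr : 0 < rho) {s s' : ℝ} (h : s ≤ s') (m : Mon V) :
    wm G rho s m ≤ wm G rho s' m := by
  unfold wm
  refine ENNReal.ofReal_le_ofReal (mul_le_mul_of_nonneg_left ?_ ?_)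
  · exact Real.exp_le_exp.2 (mul_le_mul_of_nonneg_right h (Nat.cast_nonneg _))
  · exact (mul_pos (pow_pos hr _) (amn_pos_a1 G _)).le

theorem wg_mono (G : Geo V) (rho : ℝ) (hr : 0 < rho) {s s' : ℝ} (h : s ≤ s') (m : Mon V) :
    wg G rho s m ≤ wg G rho s' m :=
  mul_le_mul_left (wm_mono G rho hr h m) _

theorem wm_add_le (G : Geo V) (rho s : ℝ) (hr : 0 < rho) (hs : 0 ≤ s) (m m' : Mon V) :
    wm G rho s (m + m') ≤ wm G rho s m * wm G rho s m' := by
  unfold wm
  rw [← ENNReal.ofReal_mul (wm_real_pos_a1 G rho s hr m).le]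
  refine ENNReal.ofReal_le_ofReal ?_
  have e1 : (m + m').1 = m.1 + m'.1 := rfl
  rw [e1, dgr_add_a1, amn_add_a1, pow_add]
  have h1 : Real.exp (s * NM (m + m')) ≤ Real.exp (s * NM m) * Real.exp (s * NM m') := by
    rw [← Real.exp_add, ← mul_add]
    refine Real.exp_le_exp.2 (mul_le_mul_of_nonneg_left ?_ hs)
    exact_mod_cast NM_add_a1 m m'
  calc rho ^ dgr m.1 * rho ^ dgr m'.1 * (amn G.a m.1 * amn G.a m'.1) * Real.exp (s * NM (m + m'))
      ≤ rho ^ dgr m.1 * rho ^ dgr m'.1 * (amn G.a m.1 * amn G.a m'.1) *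
        (Real.exp (s * NM m) * Real.exp (s * NM m')) := by
        refine mul_le_mul_of_nonneg_left h1 ?_
        have := amn_pos_a1 G m.1
        have := amn_pos_a1 G m'.1
        positivity
    _ = _ := by ring

end KX
end
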