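import Pool.Agent.Lib.MP_73c19a_an.Mg.G002
import Pool.Agent.Lib.MP_73c19a_an.Posa
import Pool.Agent.Lib.MP_73c19a_an.Mg.G001

section

/-!
# Basic lemmas on trees
-/

set_option autoImplicit false

namespace KX

variable {V : Type} [DecidableEq V]

namespace Tr

theorem win_mono_T1d (G : Geo V) (P : BP V) (h h' : Tr V) (hm : mass G P h ≤ mass G P h') :
    win G P h ≤ win G P h' := by
  rw [le_win_iff]
  exact (le_win G P h).trans hm

theorem mass_nonneg_T1d (G : Geo V) (P : BP V) (h : Tr V) : 0 ≤ mass G P h :=
  P.mu_pos.le.trans (mu_le_mass G P h)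

/-- the key order property: a good tree of degree at most one is eliminated strictly
after all the trees which it contains. Four cases (degree of `f`, degree of `node j f p`):
`deg f = 0`, result `0`: `deg p = 1`, `win p ≥ win f`, mass at least `2 mu (3/2)^win f`;
`deg f = 0`, result `1`: `win` does not decrease, `2 a < 2 a + 1`;
`deg f = 1`, result `0`: `deg p = 0`, `win p ≥ win f + 1`;
`deg f = 1`, result `1`: `deg p = 1`, `win p ≥ win f`, mass at least `2 mu (3/2)^win f`. -/
theorem good_tau (G : Geo V) (P : BP V) (h : Tr V) (hg : Good G P h) (hd : deg h ≤ 1) :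
    birth G P h ≤ tau G P h := by
  cases h with
  | leaf l => exact Nat.zero_le _
  | node j f p =>
    obtain ⟨_, _, hf, _, hk, _, hp⟩ := hg
    have hdn := deg_node j f p hk
    have hmn := mass_node G P j f p
    have hmf := mass_nonneg_T1d G P f
    have hmp := mass_nonneg_T1d G P p
    have hwf := le_win G P f
    have hwp := le_win G P p
    -- windows of children
    have hnf : win G P f ≤ win G P (node j f p) := win_mono_T1d G P _ _ (by linarith)
    have hnp : win G P p ≤ win G P (node j f p) := win_mono_T1d G P _ _ (by linarith)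
    have key : win G P f ≤ win G P p → win G P f + 1 ≤ win G P (node j f p) := by
      intro hle
      rw [le_win_iff, hmn]
      have h1 : (3 / 2 : ℝ) ^ win G P f ≤ (3 / 2 : ℝ) ^ win G P p :=
        pow_le_pow_right₀ (by norm_num) hle
      have h2 := mul_le_mul_of_nonneg_left h1 P.mu_pos.le
      have h3 : 0 < P.mu * (3 / 2 : ℝ) ^ win G P f := mul_pos P.mu_pos (by positivity)
      rw [pow_succ]
      nlinarith
    simp only [birth, tau] at hp ⊢
    by_cases hp1 : deg p ≤ 1
    · have hp2 := hp hp1
      have hdf : deg f = 0 ∨ deg f = 1 := by omega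
      have hdp : deg p = 0 ∨ deg p = 1 := by omega
      rcases hdf with hdf | hdf <;> rcases hdp with hdp | hdp
      · omega
      · have := key (by omega)
        omega
      · have := key (by omega)
        omega
      · have := key (by omega)
        omega
    · omega

theorem good_conn (G : Geo V) (P : BP V) (h : Tr V) (hg : Good G P h) : conn h := by
  induction h with
  | leaf l => trivial
  | node j f p ihf ihp =>
    obtain ⟨hf, hp, _, _, hk, _, _⟩ := hg
    obtain ⟨h1, h2⟩ := kap_mem j f p hk
    exact ⟨h1, h2, ihf hf, ihp hp⟩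

theorem br_le_of_mem (G : Geo V) (h : Tr V) (hc : conn h) {i j : V} (hi : i ∈ A h) (hj : j ∈ A h) :
    G.br i ≤ G.br j * (1 + L G h) := by
  have h1 := G.br_le hi hj
  have h2 : (G.Lam (A h) : ℝ) ≤ L G h := by exact_mod_cast Lam_le_L G h hc
  have h3 := G.one_le_br j
  refine h1.trans (mul_le_mul_of_nonneg_left (by linarith) (by linarith))

theorem mg_nonneg (w : V → ℝ) (hw : ∀ i, 0 ≤ w i) (h : Tr V) : 0 ≤ mg w h := by
  induction h with
  | leaf l => exact le_refl _
  | node j f p ihf ihp =>
    simp only [mg]
    have := Finset.sum_nonneg (s := A f ∩ A p) (f := w) fun i _ => hw i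
    linarith

theorem mg_mono (w w' : V → ℝ) (hw : ∀ i, w i ≤ w' i) (h : Tr V) : mg w h ≤ mg w' h := by
  induction h with
  | leaf l => exact le_refl _
  | node j f p ihf ihp =>
    simp only [mg]
    have := Finset.sum_le_sum (s := A f ∩ A p) (f := w) (g := w') fun i _ => hw i
    linarith

theorem mg_add (w w' : V → ℝ) (h : Tr V) : mg (fun i => w i + w' i) h = mg w h + mg w' h := by
  induction h with
  | leaf l => simp [mg]
  | node j f p ihf ihp =>
    simp only [mg, ihf, ihp, Finset.sum_add_distrib]
    ring

end Tr

end KX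
end

section

/-!
# Positions in trees

`Lf h`: the leaf positions, `Dv h`: the positions of the divided (left) children, with their
subtrees and leaf sets.
-/

set_option autoImplicit false
set_option linter.unusedSectionVars false

namespace KX

variable {V : Type} [DecidableEq V]

namespace Tr

theorem ls_some_ssubset (h : Tr V) (z : Dv h) : ls h (some z) ⊂ ls h none := by
  refine (Finset.ssubset_univ_iff).2 fun he => ?_
  cases h with
  | leaf l => exact Empty.elim z
  | node j f p =>
    rcases z with z | z
    · rw [ls_inl] at he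
      have h1 : (embR j f p (Lf_nonempty p).some) ∈ (ls f z).map (embL j f p) := by
        rw [he]; exact Finset.mem_univ _
      obtain ⟨a, _, ha⟩ := Finset.mem_map.1 h1
      cases ha
    · rw [ls_inr] at he
      have h1 : (embL j f p (Lf_nonempty f).some) ∈ (ls p (some z)).map (embR j f p) := by
        rw [he]; exact Finset.mem_univ _
      obtain ⟨a, _, ha⟩ := Finset.mem_map.1 h1
      cases ha

/-- every divided subtree of a good tree is good, of degree at most one, with `k ≠ 0`, and its
elimination time is smaller than the birth of the tree -/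
theorem good_sub (G : Geo V) (P : BP V) (h : Tr V) (hg : Good G P h) (y : Dv h) :
    Good G P (sub h y) ∧ deg (sub h y) ≤ 1 ∧ k (sub h y) ≠ 0 ∧ tau G P (sub h y) < birth G P h := by
  induction h with
  | leaf l => exact Empty.elim y
  | node j f p hf hp =>
    obtain ⟨gf, gp, df, kf, _, hb, _⟩ := hg
    have hbn : birth G P (node j f p) = tau G P f + 1 := rfl
    rcases y with (_ | y) | y
    · exact ⟨gf, df, kf, by rw [hbn]; exact Nat.lt_succ_self _⟩
    · obtain ⟨h1, h2, h3, h4⟩ := hf gf y
      refine ⟨h1, h2, h3, ?_⟩
      have h5 := good_tau G P f gf df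
      have h6 : tau G P (sub (node j f p) (Sum.inl (some y))) = tau G P (sub f y) := rfl
      rw [hbn, h6]
      omega
    · obtain ⟨h1, h2, h3, h4⟩ := hp gp y
      refine ⟨h1, h2, h3, ?_⟩
      have h6 : tau G P (sub (node j f p) (Sum.inr y)) = tau G P (sub p y) := rfl
      rw [hbn, h6]
      omega

/-- laminarity of the divided positions which are not the root -/
theorem laminar_some (G : Geo V) (P : BP V) (h : Tr V) (hg : Good G P h)
    (y z : Dv h) (hyz : y ≠ z) :
    (ls h (some y) ⊂ ls h (some z) ∧ tau G P (sub h y) < tau G P (sub h z)) ∨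
    (ls h (some z) ⊂ ls h (some y) ∧ tau G P (sub h z) < tau G P (sub h y)) ∨
    Disjoint (ls h (some y)) (ls h (some z)) := by
  induction h with
  | leaf l => exact Empty.elim y
  | node j f p hf hp =>
    obtain ⟨gf, gp, df, kf, _, hb, _⟩ := hg
    have key : ∀ z : Dv f, ls f (some z) ⊂ ls f none ∧ tau G P (sub f z) < tau G P f := fun z =>
      ⟨ls_some_ssubset f z, lt_of_lt_of_le (good_sub G P f gf z).2.2.2 (good_tau G P f gf df)⟩
    have hmapL : ∀ a b : Finset (Lf f), a ⊂ b → a.map (embL j f p) ⊂ b.map (embL j f p) :=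
      fun a b hab => (Finset.map_ssubset_map).2 hab
    rcases y with y | y
    · rcases z with z | z
      · rw [ls_inl, ls_inl]
        rcases y with _ | y
        · rcases z with _ | z
          · exact (hyz rfl).elim
          · right; left
            exact ⟨hmapL _ _ (key z).1, (key z).2⟩
        · rcases z with _ | z
          · left
            exact ⟨hmapL _ _ (key y).1, (key y).2⟩
          · have hyz' : y ≠ z := fun h => hyz (by rw [h])
            rcases hf gf y z hyz' with h1 | h1 | h1
            · left; exact ⟨hmapL _ _ h1.1, h1.2⟩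
            · right; left; exact ⟨hmapL _ _ h1.1, h1.2⟩
            · right; right; exact (Finset.disjoint_map _).2 h1
      · right; right
        rw [ls_inl, ls_inr, Finset.disjoint_left]
        intro a ha hb
        obtain ⟨x, _, rfl⟩ := Finset.mem_map.1 ha
        obtain ⟨x', _, hx'⟩ := Finset.mem_map.1 hb
        cases hx'
    · rcases z with z | z
      · right; right
        rw [ls_inl, ls_inr, Finset.disjoint_left]
        intro a ha hb
        obtain ⟨x, _, rfl⟩ := Finset.mem_map.1 ha
        obtain ⟨x', _, hx'⟩ := Finset.mem_map.1 hb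
        cases hx'
      · have hyz' : y ≠ z := fun h => hyz (by rw [h])
        rw [ls_inr, ls_inr]
        rcases hp gp y z hyz' with h1 | h1 | h1
        · left; exact ⟨(Finset.map_ssubset_map).2 h1.1, h1.2⟩
        · right; left; exact ⟨(Finset.map_ssubset_map).2 h1.1, h1.2⟩
        · right; right; exact (Finset.disjoint_map _).2 h1

/-- laminarity: two different divided positions (or the root, when it is itself divided) are nested,
with strictly increasing elimination times, or disjoint -/
theorem laminar (G : Geo V) (P : BP V) (h : Tr V) (hg : Good G P h) (hd : deg h ≤ 1)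
    (y z : Option (Dv h)) (hyz : y ≠ z) :
    (ls h y ⊂ ls h z ∧ tau G P (osub h y) < tau G P (osub h z)) ∨
    (ls h z ⊂ ls h y ∧ tau G P (osub h z) < tau G P (osub h y)) ∨
    Disjoint (ls h y) (ls h z) := by
  have key : ∀ z : Dv h, ls h (some z) ⊂ ls h none ∧ tau G P (sub h z) < tau G P h := fun z =>
    ⟨ls_some_ssubset h z, lt_of_lt_of_le (good_sub G P h hg z).2.2.2 (good_tau G P h hg hd)⟩
  rcases y with _ | y
  · rcases z with _ | z
    · exact (hyz rfl).elim
    · right; left; exact key z
  · rcases z with _ | z
    · left; exact key y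
    · exact laminar_some G P h hg y z fun h => hyz (by rw [h])

end Tr

end KX
end

section

/-!
# The geometric data of `ℤ^d`
-/

set_option autoImplicit false

namespace KX

open scoped ENNReal

/-- geometry of `ℤ^d` with tours as cluster lengths -/
noncomputable def geoZ (d : ℕ) (a : (Fin d → ℤ) → ℝ) (ha0 : ∀ j, 0 < a j) (ha1 : ∀ j, a j ≤ 1) :
    Geo (Fin d → ℤ) where
  Lam := tour
  Lam_mono := tour_mono
  Lam_union := tour_union
  br := brz
  one_le_br := fun i => by unfold brz; linarith [Nat.cast_nonneg (α := ℝ) (nd i 0)]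
  br_le := brz_le
  a := a
  a_pos := ha0
  a_le_one := ha1

end KX
end

section

/-!
# Algebraic identities for formal series

All identities are equalities of push-forwards over a common index set (`push_push`, `push_congr`,
`push_add`, `push_equiv`).
-/

set_option autoImplicit false

namespace KX

open scoped ENNReal

variable {V : Type} [DecidableEq V]

theorem mulm_comm (g h : Mon V → ℂ) : mulm g h = mulm h g := by
  unfold mulm
  rw [← push_equiv (Equiv.prodComm (Mon V) (Mon V)) (fun x : Mon V × Mon V => x.1 + x.2)
    (fun x => g x.1 * h x.2)]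
  congr 1
  · funext x
    simp only [Function.comp_apply, Equiv.prodComm_apply, Prod.fst_swap, Prod.snd_swap]
    exact add_comm _ _
  · funext x
    simp only [Function.comp_apply, Equiv.prodComm_apply, Prod.fst_swap, Prod.snd_swap]
    exact mul_comm _ _

theorem em_self_alg2a (m : Mon V) : em m m = 1 := by
  unfold em
  exact Pi.single_eq_same m 1

theorem em_ne_alg2a {m m' : Mon V} (h : m' ≠ m) : em m m' = 0 := by
  unfold em
  exact Pi.single_eq_of_ne h 1

theorem mulm_em (m m' : Mon V) : mulm (em m) (em m') = em (m + m') := by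
  funext n
  unfold mulm push
  rw [tsum_eq_single (m, m')]
  · simp only [em_self_alg2a, mul_one]
    by_cases h : m + m' = n
    · rw [if_pos h, ← h, em_self_alg2a]
    · rw [if_neg h, em_ne_alg2a (Ne.symm h)]
  · rintro ⟨a, b⟩ hab
    by_cases ha : a = m
    · have hb : b ≠ m' := fun hb => hab (by rw [ha, hb])
      simp only [em_ne_alg2a hb, mul_zero, ite_self]
    · simp only [em_ne_alg2a ha, zero_mul, ite_self]

theorem mulm_one (g : Mon V → ℂ) : mulm g (em 0) = g := by
  funext n
  unfold mulm push
  rw [tsum_eq_single (n, 0)]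
  · simp only [em_self_alg2a, mul_one, add_zero, if_true]
  · rintro ⟨a, b⟩ hab
    by_cases hb : b = 0
    · subst hb
      have ha : a ≠ n := fun ha => hab (by rw [ha])
      simp only [add_zero, if_neg ha]
    · simp only [em_ne_alg2a hb, mul_zero, ite_self]

theorem nr_em (w : Mon V → ℝ≥0∞) (m : Mon V) : nr w (em m) = w m := by
  unfold nr
  rw [tsum_eq_single m]
  · rw [em_self_alg2a]
    simp
  · intro m' hm'
    rw [em_ne_alg2a hm']
    simp

/-- the absolute sum defining the product -/
theorem mulm_abs_alg2a (G : Geo V) (rho s : ℝ) (hr : 0 < rho) (hs : 0 ≤ s) (g h : Mon V → ℂ) :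
    ∑' x : Mon V × Mon V, ‖g x.1 * h x.2‖ₑ * wm G rho s (x.1 + x.2) ≤
      nr (wm G rho s) g * nr (wm G rho s) h := by
  unfold nr
  rw [← ENNReal.tsum_mul_right]
  rw [ENNReal.tsum_prod' (f := fun x : Mon V × Mon V =>
    ‖g x.1 * h x.2‖ₑ * wm G rho s (x.1 + x.2))]
  refine ENNReal.tsum_le_tsum fun a => ?_
  rw [← ENNReal.tsum_mul_left]
  refine ENNReal.tsum_le_tsum fun b => ?_
  simp only
  rw [enorm_mul]
  calc ‖g a‖ₑ * ‖h b‖ₑ * wm G rho s (a + b)
      ≤ ‖g a‖ₑ * ‖h b‖ₑ * (wm G rho s a * wm G rho s b) :=
        mul_le_mul_right (wm_add_le G rho s hr hs a b) _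
    _ = ‖g a‖ₑ * wm G rho s a * (‖h b‖ₑ * wm G rho s b) := by ring

theorem mulm_add (G : Geo V) (rho s : ℝ) (hr : 0 < rho) (hs : 0 ≤ s) (g h h' : Mon V → ℂ)
    (hg : nr (wm G rho s) g ≠ ∞) (hh : nr (wm G rho s) h ≠ ∞) (hh' : nr (wm G rho s) h' ≠ ∞) :
    mulm g (fun m => h m + h' m) = fun m => mulm g h m + mulm g h' m := by
  unfold mulm
  simp only [mul_add]
  exact push_add (wm G rho s) (wm_ne_zero G rho s hr) _ _ _
    (ne_top_of_le_ne_top (ENNReal.mul_ne_top hg hh) (mulm_abs_alg2a G rho s hr hs g h))
    (ne_top_of_le_ne_top (ENNReal.mul_ne_top hg hh') (mulm_abs_alg2a G rho s hr hs g h'))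

end KX
end
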