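import Pool.Agent.Lib.MP_73c19a_an.Mg.G002
import Pool.Agent.Lib.MP_73c19a_an.Model

section

/-!
# Tours: counting

`tour_sum`. For `A ∋ i` with `p + 1` points take an optimal closed walk starting at `i`
(`tour_exists`) and keep only the first visits: this gives a list `i, a_1, ..., a_p` without
repetition with point set `A`, whose walk length is at most `tour A` (triangle inequality). Hence
the sum is at most the sum over all `(a_1, ..., a_p)` of the product of the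
`exp (-δ * nd a_(m+1) a_m)`, which is `Sd d δ ^ p` (translation invariance, induction on `p`).

`Sd_le`: `nd x 0 ≥ (1/d) ∑ |x_a|`, the sum factors, `∑_{n ∈ ℤ} exp (-(δ/d)|n|) ≤ 4 d / δ` for
`0 < δ ≤ 1`.
-/

set_option autoImplicit false

namespace KX

open scoped ENNReal

/-- The sum over `ℤ^d` of a product. -/
theorem t2b_tsum_prod (g : ℤ → ℝ≥0∞) (d : ℕ) :
    ∑' x : Fin d → ℤ, ∏ a, g (x a) = (∑' n, g n) ^ d := by
  induction d with
  | zero =>
    rw [pow_zero, tsum_eq_single default (fun x hx => absurd (Subsingleton.elim _ _) hx)]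
    simp
  | succ d ih =>
    rw [← (Fin.consEquiv fun _ => ℤ).tsum_eq, ENNReal.tsum_prod', pow_succ', ← ih]
    rw [← ENNReal.tsum_mul_right]
    refine tsum_congr fun n => ?_
    rw [← ENNReal.tsum_mul_left]
    refine tsum_congr fun x => ?_
    rw [Fin.prod_univ_succ]
    simp [Fin.consEquiv]

/-- The sum over `ℤ` of a function of the absolute value. -/
theorem t2b_tsum_int (g : ℕ → ℝ≥0∞) (hg : Antitone g) :
    ∑' n : ℤ, g n.natAbs ≤ 2 * ∑' n, g n := by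
  rw [tsum_of_nat_of_neg_add_one (f := fun n : ℤ => g n.natAbs) ENNReal.summable
    ENNReal.summable, two_mul]
  refine add_le_add (le_of_eq ?_) (ENNReal.tsum_le_tsum fun n => hg ?_)
  · refine tsum_congr fun n => ?_
    rw [Int.natAbs_natCast]
  · omega

theorem t2b_sum_le_nd {d : ℕ} (x : Fin d → ℤ) (a : Fin d) : (x a).natAbs ≤ nd x 0 := by
  have := Finset.le_sup (f := fun a => (x a - (0 : Fin d → ℤ) a).natAbs) (Finset.mem_univ a)
  simpa [nd] using this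

theorem Sd_le {d : ℕ} (hd : 1 ≤ d) (δ : ℝ) (hδ : 0 < δ) (hδ1 : δ ≤ 1) :
    Sd d δ ≤ ENNReal.ofReal ((4 * d / δ) ^ d) := by
  have hd0 : (0 : ℝ) < d := by exact_mod_cast hd
  have hd1 : (1 : ℝ) ≤ d := by exact_mod_cast hd
  set c := δ / d with hc
  have hc0 : 0 < c := by positivity
  have hc1 : c ≤ 1 := by
    rw [hc, div_le_one hd0]
    linarith
  set g : ℕ → ℝ≥0∞ := fun n => ENNReal.ofReal (Real.exp (-c * n)) with hgdef
  have hg : Antitone g := by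
    intro m n hmn
    refine ENNReal.ofReal_le_ofReal (Real.exp_le_exp.2 ?_)
    have : (m : ℝ) ≤ n := by exact_mod_cast hmn
    nlinarith
  have h1 : Sd d δ ≤ ∑' x : Fin d → ℤ, ∏ a, g (x a).natAbs := by
    refine ENNReal.tsum_le_tsum fun x => ?_
    rw [hgdef]
    simp only
    rw [← ENNReal.ofReal_prod_of_nonneg (fun a _ => (Real.exp_pos _).le), ← Real.exp_sum]
    refine ENNReal.ofReal_le_ofReal (Real.exp_le_exp.2 ?_)
    have h2 : ∑ a, (((x a).natAbs : ℕ) : ℝ) ≤ d * (nd x 0 : ℝ) := by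
      have : ∑ a : Fin d, (((x a).natAbs : ℕ) : ℝ) ≤ ∑ a : Fin d, (nd x 0 : ℝ) :=
        Finset.sum_le_sum fun a _ => by exact_mod_cast t2b_sum_le_nd x a
      simpa using this
    have h3 : ∑ a, -c * (((x a).natAbs : ℕ) : ℝ) = -(c * ∑ a, (((x a).natAbs : ℕ) : ℝ)) := by
      rw [← Finset.mul_sum, neg_mul]
    rw [h3, neg_mul, neg_le_neg_iff]
    have h4 : c * (d * (nd x 0 : ℝ)) = δ * nd x 0 := by
      rw [hc]
      field_simp
    rw [← h4]
    exact mul_le_mul_of_nonneg_left h2 hc0.le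
  have h2 : ∑' n : ℤ, g n.natAbs ≤ ENNReal.ofReal (4 * d / δ) := by
    refine (t2b_tsum_int g hg).trans ?_
    have h3 : ∀ n : ℕ, g n = ENNReal.ofReal (Real.exp (-c)) ^ n := by
      intro n
      rw [← ENNReal.ofReal_pow (Real.exp_pos _).le, ← Real.exp_nat_mul]
      show ENNReal.ofReal (Real.exp (-c * n)) = _
      rw [mul_comm]
    simp only [h3]
    rw [ENNReal.tsum_geometric]
    have h4 : (1 : ℝ≥0∞) - ENNReal.ofReal (Real.exp (-c)) =
        ENNReal.ofReal (1 - Real.exp (-c)) := by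
      rw [ENNReal.ofReal_sub _ (Real.exp_pos _).le, ENNReal.ofReal_one]
    have h5 : c / 2 ≤ 1 - Real.exp (-c) := by
      have h6 : 1 + c ≤ Real.exp c := by
        have := Real.add_one_le_exp c
        linarith
      have h7 : Real.exp (-c) ≤ (1 + c)⁻¹ := by
        rw [Real.exp_neg]
        exact inv_anti₀ (by positivity) h6
      have h8 : (1 + c)⁻¹ ≤ 1 - c / 2 := by
        rw [inv_le_comm₀ (by positivity) (by linarith)]
        rw [inv_eq_one_div, div_le_iff₀ (by linarith)]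
        nlinarith
      linarith
    have h6 : 0 < 1 - Real.exp (-c) := by linarith [half_pos hc0]
    rw [h4, ← ENNReal.ofReal_inv_of_pos h6]
    have h7 : (2 : ℝ≥0∞) = ENNReal.ofReal 2 := by simp
    rw [h7, ← ENNReal.ofReal_mul (by norm_num)]
    refine ENNReal.ofReal_le_ofReal ?_
    have h8 : (1 - Real.exp (-c))⁻¹ ≤ (c / 2)⁻¹ := inv_anti₀ (by positivity) h5
    have h9 : 2 * (c / 2)⁻¹ = 4 * d / δ := by
      rw [hc]
      field_simp
      norm_num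
    calc 2 * (1 - Real.exp (-c))⁻¹ ≤ 2 * (c / 2)⁻¹ := by linarith
      _ = 4 * d / δ := h9
  refine h1.trans ?_
  rw [t2b_tsum_prod (fun n : ℤ => g n.natAbs), ENNReal.ofReal_pow (by positivity)]
  exact pow_le_pow_left' h2 d

theorem one_le_Sd {d : ℕ} (δ : ℝ) : 1 ≤ Sd d δ := by
  have h := ENNReal.le_tsum (f := fun x : Fin d → ℤ => ENNReal.ofReal (Real.exp (-δ * nd x 0))) 0
  have h0 : nd (0 : Fin d → ℤ) 0 = 0 := by
    simp [nd]
  simp only [h0, Nat.cast_zero, mul_zero, Real.exp_zero, ENNReal.ofReal_one] at h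
  exact h

theorem t2b_rpow_int (s : ℝ) (hs : 1 < s) :
    ∑' n : ℤ, ENNReal.ofReal ((1 + (n.natAbs : ℝ)) ^ (-s)) ≠ ∞ := by
  have hg : Antitone fun n : ℕ => ENNReal.ofReal ((1 + (n : ℝ)) ^ (-s)) := by
    intro m n hmn
    refine ENNReal.ofReal_le_ofReal (Real.rpow_le_rpow_of_nonpos (by positivity) ?_ (by linarith))
    have : (m : ℝ) ≤ n := by exact_mod_cast hmn
    linarith
  refine ne_top_of_le_ne_top ?_ (t2b_tsum_int _ hg)
  refine ENNReal.mul_ne_top (by simp) ?_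
  have h1 : Summable fun n : ℕ => (n : ℝ) ^ (-s) := Real.summable_nat_rpow.2 (by linarith)
  have h2 : Summable fun n : ℕ => (1 + (n : ℝ)) ^ (-s) := by
    have := (summable_nat_add_iff 1).2 h1
    refine this.congr fun n => ?_
    push_cast
    rw [add_comm]
  exact h2.tsum_ofReal_ne_top

/-- `∑_j ⟨j⟩^(-(d+1))` is finite: there are at most `(2n+1)^d` points with `nd j 0 ≤ n`
(compare with `∑ n^(-2)`). -/
theorem brz_summable (d : ℕ) : Summable fun j : Fin d → ℤ => (brz j) ^ (-((d : ℝ) + 1)) := by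
  rcases Nat.eq_zero_or_pos d with rfl | hd
  · exact (hasSum_fintype _).summable
  have hd0 : (0 : ℝ) < d := by exact_mod_cast hd
  set s : ℝ := ((d : ℝ) + 1) / d with hs
  have hs1 : 1 < s := by
    rw [hs, lt_div_iff₀ hd0]
    linarith
  have hb : ∀ j : Fin d → ℤ, 0 < brz j := by
    intro j
    unfold brz
    positivity
  have h1 : ∑' j : Fin d → ℤ, ENNReal.ofReal ((brz j) ^ (-((d : ℝ) + 1))) ≠ ∞ := by
    refine ne_top_of_le_ne_top ?_ (b := (∑' n : ℤ, ENNReal.ofReal ((1 + (n.natAbs : ℝ)) ^ (-s))) ^ d)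
      ?_
    · exact ENNReal.pow_ne_top (t2b_rpow_int s hs1)
    · rw [← t2b_tsum_prod]
      refine ENNReal.tsum_le_tsum fun j => ?_
      rw [← ENNReal.ofReal_prod_of_nonneg (fun a _ => by positivity)]
      refine ENNReal.ofReal_le_ofReal ?_
      have h2 : (brz j) ^ (-((d : ℝ) + 1)) = ∏ _a : Fin d, (brz j) ^ (-s) := by
        rw [Finset.prod_const, Finset.card_univ, Fintype.card_fin, ← Real.rpow_natCast,
          ← Real.rpow_mul (hb j).le]
        congr 1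
        rw [hs]
        field_simp
      rw [h2]
      refine Finset.prod_le_prod (fun a _ => (Real.rpow_pos_of_pos (hb j) _).le) fun a _ => ?_
      refine Real.rpow_le_rpow_of_nonpos (by positivity) ?_ (by linarith)
      unfold brz
      have : (((j a).natAbs : ℕ) : ℝ) ≤ (nd j 0 : ℝ) := by exact_mod_cast t2b_sum_le_nd j a
      linarith
  have h2 : ∀ j : Fin d → ℤ, 0 ≤ (brz j) ^ (-((d : ℝ) + 1)) := fun j =>
    (Real.rpow_pos_of_pos (hb j) _).le
  have h3 := ENNReal.summable_toReal h1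
  refine h3.congr fun j => ?_
  rw [ENNReal.toReal_ofReal (h2 j)]

end KX
end

section

/-!
# The actions `(1 + N j)^(-M)` for a norm `N` on `ℝ^d`

`anorm`: equivalence of norms on `ℝ^d`; `nd` is the sup distance of integer points. `anorm_sum`:
`(1 + N j)^(-M) ≤ C (brz j)^(-M)` and `∑ (brz j)^(-p)` converges for `p > d` (hypothesis `hs`, proved
elsewhere).
-/

set_option autoImplicit false

namespace KX

private theorem nd_norm {d : ℕ} (i j : Fin d → ℤ) :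
    ‖(fun a => (((i - j) a : ℤ) : ℝ))‖ = (nd i j : ℝ) := by
  have habs : ∀ a, ‖(((i - j) a : ℤ) : ℝ)‖ = (((i a - j a).natAbs : ℕ) : ℝ) := by
    intro a
    rw [Real.norm_eq_abs, Nat.cast_natAbs, Int.cast_abs]
    rfl
  apply le_antisymm
  · rw [pi_norm_le_iff_of_nonneg (Nat.cast_nonneg _)]
    intro a
    have h : (i a - j a).natAbs ≤ nd i j :=
      Finset.le_sup (f := fun a => (i a - j a).natAbs) (Finset.mem_univ a)
    rw [habs a]
    exact_mod_cast h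
  · have h : nd i j ≤ ⌊‖(fun a => (((i - j) a : ℤ) : ℝ))‖⌋₊ := by
      refine Finset.sup_le fun a _ => Nat.le_floor ?_
      have h1 := norm_le_pi_norm (fun a => (((i - j) a : ℤ) : ℝ)) a
      rw [habs a] at h1
      exact h1
    calc ((nd i j : ℕ) : ℝ) ≤ (⌊‖(fun a => (((i - j) a : ℤ) : ℝ))‖⌋₊ : ℝ) := by exact_mod_cast h
      _ ≤ _ := Nat.floor_le (norm_nonneg _)

private theorem anorm_zero {d : ℕ} (N : (Fin d → ℝ) → ℝ)
    (hsm : ∀ (c : ℝ) x, N (c • x) = |c| * N x) : N 0 = 0 := by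
  have h := hsm 0 0
  simpa using h

private theorem anorm_nonneg {d : ℕ} (N : (Fin d → ℝ) → ℝ) (hpos : ∀ x, x ≠ 0 → 0 < N x)
    (hsm : ∀ (c : ℝ) x, N (c • x) = |c| * N x) (x : Fin d → ℝ) : 0 ≤ N x := by
  by_cases h : x = 0
  · rw [h, anorm_zero N hsm]
  · exact (hpos x h).le

private theorem anorm_upper {d : ℕ} (N : (Fin d → ℝ) → ℝ) (hpos : ∀ x, x ≠ 0 → 0 < N x)
    (hsm : ∀ (c : ℝ) x, N (c • x) = |c| * N x) (hadd : ∀ x y, N (x + y) ≤ N x + N y) :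
    ∃ c2 : ℝ, 1 ≤ c2 ∧ ∀ x, N x ≤ c2 * ‖x‖ := by
  have hnn := anorm_nonneg N hpos hsm
  have hsum : ∀ (s : Finset (Fin d)) (f : Fin d → (Fin d → ℝ)),
      N (∑ a ∈ s, f a) ≤ ∑ a ∈ s, N (f a) := by
    intro s f
    induction s using Finset.induction_on with
    | empty => simp [anorm_zero N hsm]
    | insert a s ha ih =>
      rw [Finset.sum_insert ha, Finset.sum_insert ha]
      exact (hadd _ _).trans (by linarith)
  refine ⟨1 + ∑ a, N (Pi.single a 1), ?_, ?_⟩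
  · have : 0 ≤ ∑ a, N (Pi.single a (1 : ℝ)) := Finset.sum_nonneg fun a _ => hnn _
    linarith
  · intro x
    have hx : x = ∑ a, x a • (Pi.single a (1 : ℝ) : Fin d → ℝ) := by
      ext b
      simp [Finset.sum_apply, Pi.single_apply]
    have h1 : N x ≤ ∑ a, |x a| * N (Pi.single a 1) := by
      calc N x = N (∑ a, x a • (Pi.single a (1 : ℝ) : Fin d → ℝ)) := by rw [← hx]
        _ ≤ ∑ a, N (x a • (Pi.single a (1 : ℝ) : Fin d → ℝ)) := hsum _ _
        _ = ∑ a, |x a| * N (Pi.single a 1) := by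
          refine Finset.sum_congr rfl fun a _ => hsm _ _
    have h2 : ∑ a, |x a| * N (Pi.single a 1) ≤ ∑ a, ‖x‖ * N (Pi.single a 1) := by
      refine Finset.sum_le_sum fun a _ => mul_le_mul_of_nonneg_right ?_ (hnn _)
      have := norm_le_pi_norm x a
      rwa [Real.norm_eq_abs] at this
    have h3 : ∑ a, ‖x‖ * N (Pi.single a 1) = (∑ a, N (Pi.single a 1)) * ‖x‖ := by
      rw [Finset.sum_mul]
      exact Finset.sum_congr rfl fun a _ => mul_comm _ _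
    have h4 : 0 ≤ ‖x‖ := norm_nonneg x
    nlinarith

private theorem anorm_lower {d : ℕ} (N : (Fin d → ℝ) → ℝ) (hpos : ∀ x, x ≠ 0 → 0 < N x)
    (hsm : ∀ (c : ℝ) x, N (c • x) = |c| * N x) (hadd : ∀ x y, N (x + y) ≤ N x + N y) :
    ∃ c1 : ℝ, 0 < c1 ∧ ∀ x, c1 * ‖x‖ ≤ N x := by
  obtain ⟨c2, hc2, hN⟩ := anorm_upper N hpos hsm hadd
  have hnn := anorm_nonneg N hpos hsm
  have hneg : ∀ x, N (-x) = N x := by
    intro x
    have := hsm (-1) x
    simpa using this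
  have hsub : ∀ x y, |N x - N y| ≤ c2 * ‖x - y‖ := by
    intro x y
    have h1 : N x ≤ N (x - y) + N y := by
      have := hadd (x - y) y
      simpa using this
    have h2 : N y ≤ N (x - y) + N x := by
      have h := hadd (y - x) x
      have h' : N (y - x) = N (x - y) := by rw [← hneg (x - y)]; congr 1; abel
      rw [h'] at h
      simpa using h
    have h3 := hN (x - y)
    rw [abs_le]
    constructor <;> linarith
  have hcont : Continuous N := by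
    have hL : LipschitzWith (Real.toNNReal c2) N := by
      refine LipschitzWith.of_dist_le_mul fun x y => ?_
      rw [Real.dist_eq, dist_eq_norm, Real.coe_toNNReal _ (by linarith)]
      exact hsub x y
    exact hL.continuous
  rcases Nat.eq_zero_or_pos d with hd | hd
  · subst hd
    refine ⟨1, one_pos, fun x => ?_⟩
    have hx : x = 0 := Subsingleton.elim _ _
    rw [hx, anorm_zero N hsm]
    simp
  · haveI : Nonempty (Fin d) := ⟨⟨0, hd⟩⟩
    have hcp : IsCompact (Metric.sphere (0 : Fin d → ℝ) 1) := isCompact_sphere 0 1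
    have hne : (Metric.sphere (0 : Fin d → ℝ) 1).Nonempty := by
      refine ⟨fun _ => 1, ?_⟩
      rw [mem_sphere_zero_iff_norm, pi_norm_const, norm_one]
    obtain ⟨z, hz, hmin⟩ := hcp.exists_isMinOn hne hcont.continuousOn
    have hz1 : ‖z‖ = 1 := by simpa using hz
    have hz0 : z ≠ 0 := by
      intro h
      rw [h] at hz1
      simp at hz1
    refine ⟨N z, hpos z hz0, fun x => ?_⟩
    by_cases hx : x = 0
    · rw [hx, anorm_zero N hsm]; simp
    · have hxn : 0 < ‖x‖ := norm_pos_iff.2 hx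
      have hmem : ‖x‖⁻¹ • x ∈ Metric.sphere (0 : Fin d → ℝ) 1 := by
        rw [mem_sphere_zero_iff_norm, norm_smul, norm_inv, norm_norm, inv_mul_cancel₀ hxn.ne']
      have h1 : N z ≤ N (‖x‖⁻¹ • x) := hmin hmem
      rw [hsm, abs_of_pos (inv_pos.2 hxn)] at h1
      have h2 : N z * ‖x‖ ≤ ‖x‖⁻¹ * N x * ‖x‖ := mul_le_mul_of_nonneg_right h1 hxn.le
      calc N z * ‖x‖ ≤ ‖x‖⁻¹ * N x * ‖x‖ := h2
        _ = N x := by field_simp

/-- equivalence of norms -/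
theorem anorm (d : ℕ) (N : (Fin d → ℝ) → ℝ) (hpos : ∀ x, x ≠ 0 → 0 < N x)
    (hsm : ∀ (c : ℝ) x, N (c • x) = |c| * N x) (hadd : ∀ x y, N (x + y) ≤ N x + N y) :
    ∃ c1 c2 : ℝ, 0 < c1 ∧ 1 ≤ c2 ∧ ∀ i j : Fin d → ℤ,
      c1 * nd i j ≤ N (fun a => (((i - j) a : ℤ) : ℝ)) ∧
      N (fun a => (((i - j) a : ℤ) : ℝ)) ≤ c2 * nd i j := by
  obtain ⟨c2, hc2, h2⟩ := anorm_upper N hpos hsm hadd
  obtain ⟨c1, hc1, h1⟩ := anorm_lower N hpos hsm hadd
  refine ⟨c1, c2, hc1, hc2, fun i j => ?_⟩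
  have := nd_norm i j
  exact ⟨by rw [← this]; exact h1 _, by rw [← this]; exact h2 _⟩

theorem anorm_le (d : ℕ) (N : (Fin d → ℝ) → ℝ) (hpos : ∀ x, x ≠ 0 → 0 < N x)
    (hsm : ∀ (c : ℝ) x, N (c • x) = |c| * N x) (hadd : ∀ x y, N (x + y) ≤ N x + N y)
    (M : ℝ) (hM : 0 ≤ M) :
    (∀ j : Fin d → ℤ, 0 < (1 + N (fun a => ((j a : ℤ) : ℝ))) ^ (-M) ∧
      (1 + N (fun a => ((j a : ℤ) : ℝ))) ^ (-M) ≤ 1) ∧
    ∃ K1 : ℝ, 1 ≤ K1 ∧ ∀ i j : Fin d → ℤ, (1 + N (fun a => ((i a : ℤ) : ℝ))) ^ (-M) ≤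
      (1 + N (fun a => ((j a : ℤ) : ℝ))) ^ (-M) * (K1 * (1 + nd i j)) ^ M := by
  have hnn := anorm_nonneg N hpos hsm
  have h1N : ∀ j : Fin d → ℤ, 1 ≤ 1 + N (fun a => ((j a : ℤ) : ℝ)) := fun j => by
    linarith [hnn (fun a => ((j a : ℤ) : ℝ))]
  refine ⟨fun j => ⟨Real.rpow_pos_of_pos (by linarith [h1N j]) _,
    Real.rpow_le_one_of_one_le_of_nonpos (h1N j) (by linarith)⟩, ?_⟩
  obtain ⟨c1, c2, hc1, hc2, hc⟩ := anorm d N hpos hsm hadd
  refine ⟨c2, hc2, fun i j => ?_⟩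
  have hi : 0 < 1 + N (fun a => ((i a : ℤ) : ℝ)) := by linarith [h1N i]
  have hj : 0 < 1 + N (fun a => ((j a : ℤ) : ℝ)) := by linarith [h1N j]
  have hnd : (0 : ℝ) ≤ (nd i j : ℝ) := Nat.cast_nonneg _
  have hsplit : N (fun a => ((j a : ℤ) : ℝ)) ≤ N (fun a => ((i a : ℤ) : ℝ)) + c2 * nd i j := by
    have e1 : (fun a => ((j a : ℤ) : ℝ)) =
        (fun a => ((i a : ℤ) : ℝ)) + (fun a => (((j - i) a : ℤ) : ℝ)) := by
      ext a
      simp
    have e2 := hadd (fun a => ((i a : ℤ) : ℝ)) (fun a => (((j - i) a : ℤ) : ℝ))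
    rw [← e1] at e2
    have e3 := (hc j i).2
    rw [nd_comm j i] at e3
    linarith
  have hprod : 1 + N (fun a => ((j a : ℤ) : ℝ)) ≤
      (1 + N (fun a => ((i a : ℤ) : ℝ))) * (c2 * (1 + nd i j)) := by
    have a1 : 0 ≤ N (fun a => ((i a : ℤ) : ℝ)) := hnn _
    have a2 : 0 ≤ c2 * nd i j := by positivity
    have a3 : 0 ≤ N (fun a => ((i a : ℤ) : ℝ)) * (c2 * (1 + nd i j) - 1) := by
      refine mul_nonneg a1 ?_
      nlinarith
    nlinarith
  have hpow := Real.rpow_le_rpow hj.le hprod hM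
  rw [Real.mul_rpow hi.le (by positivity)] at hpow
  rw [Real.rpow_neg hi.le, Real.rpow_neg hj.le]
  have hiM : 0 < (1 + N (fun a => ((i a : ℤ) : ℝ))) ^ M := Real.rpow_pos_of_pos hi _
  have hjM : 0 < (1 + N (fun a => ((j a : ℤ) : ℝ))) ^ M := Real.rpow_pos_of_pos hj _
  rw [inv_mul_eq_div, le_div_iff₀ hjM, inv_mul_le_iff₀ hiM]
  exact hpow

theorem anorm_sum (d : ℕ) (N : (Fin d → ℝ) → ℝ) (hpos : ∀ x, x ≠ 0 → 0 < N x)
    (hsm : ∀ (c : ℝ) x, N (c • x) = |c| * N x) (hadd : ∀ x y, N (x + y) ≤ N x + N y)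
    (b M : ℝ) (hb : 0 ≤ b) (hM : 2 * b + d < M)
    (hs : ∀ p : ℝ, (d : ℝ) < p → Summable fun j : Fin d → ℤ => brz j ^ (-p)) :
    Summable fun j : Fin d → ℤ => (1 + N (fun a => ((j a : ℤ) : ℝ))) ^ (-M) * (brz j) ^ (2 * b) := by
  have hnn := anorm_nonneg N hpos hsm
  obtain ⟨c1, c2, hc1, hc2, hc⟩ := anorm d N hpos hsm hadd
  have hd0 : (0 : ℝ) ≤ (d : ℝ) := Nat.cast_nonneg _
  have hM0 : 0 ≤ M := by linarith
  set c : ℝ := min 1 c1 with hcdef
  have hc0 : 0 < c := lt_min one_pos hc1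
  have hsum : Summable fun j : Fin d → ℤ => c ^ (-M) * brz j ^ (-(M - 2 * b)) :=
    (hs (M - 2 * b) (by linarith)).mul_left _
  refine Summable.of_nonneg_of_le ?_ ?_ hsum
  · intro j
    have h1 : 0 ≤ N (fun a => ((j a : ℤ) : ℝ)) := hnn _
    have h2 : 0 ≤ brz j := by unfold brz; positivity
    positivity
  · intro j
    have hb0 : 0 < brz j := by unfold brz; positivity
    have hN0 : 0 ≤ N (fun a => ((j a : ℤ) : ℝ)) := hnn _
    have hlow : c * brz j ≤ 1 + N (fun a => ((j a : ℤ) : ℝ)) := by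
      have h1 := (hc j 0).1
      simp only [sub_zero] at h1
      have h2 : c ≤ 1 := min_le_left _ _
      have h3 : c ≤ c1 := min_le_right _ _
      have h4 : (0 : ℝ) ≤ (nd j 0 : ℝ) := Nat.cast_nonneg _
      unfold brz
      nlinarith [mul_le_mul_of_nonneg_right h3 h4]
    have h5 : (1 + N (fun a => ((j a : ℤ) : ℝ))) ^ (-M) ≤ (c * brz j) ^ (-M) :=
      Real.rpow_le_rpow_of_nonpos (by positivity) hlow (by linarith)
    rw [Real.mul_rpow hc0.le hb0.le] at h5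
    calc (1 + N (fun a => ((j a : ℤ) : ℝ))) ^ (-M) * (brz j) ^ (2 * b)
        ≤ (c ^ (-M) * brz j ^ (-M)) * (brz j) ^ (2 * b) :=
          mul_le_mul_of_nonneg_right h5 (by positivity)
      _ = c ^ (-M) * brz j ^ (-(M - 2 * b)) := by
          rw [mul_assoc, ← Real.rpow_add hb0]
          congr 2
          ring

end KX
end

section

/-!
# Taylor-Fourier expansion of an interaction: partial derivatives in the actions

`dx1`, `dx2` are the partial derivatives in the first and second variable. They are again analytic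
on `Dom r s` (`AnalyticOnNhd.fderiv` and `HasFDerivAt.comp`; `deriv` of the restriction to a line is
`fderiv` applied to a unit vector) and periodic in the angles.
-/

set_option autoImplicit false

namespace KamLattice

noncomputable def dx1 (f : ℂ × ℂ × ℂ × ℂ → ℂ) (z : ℂ × ℂ × ℂ × ℂ) : ℂ :=
  deriv (fun x => f (x, z.2.1, z.2.2.1, z.2.2.2)) z.1

noncomputable def dx2 (f : ℂ × ℂ × ℂ × ℂ → ℂ) (z : ℂ × ℂ × ℂ × ℂ) : ℂ :=
  deriv (fun y => f (z.1, y, z.2.2.1, z.2.2.2)) z.2.1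

/-- `f` is analytic on `Dom r s` and `2π`-periodic in both angles -/
structure AP (r s : ℝ) (f : ℂ × ℂ × ℂ × ℂ → ℂ) : Prop where
  an : AnalyticOnNhd ℂ f (Dom r s)
  p1 : ∀ x y φ ψ : ℂ, (x, y, φ, ψ) ∈ Dom r s → f (x, y, φ + 2 * Real.pi, ψ) = f (x, y, φ, ψ)
  p2 : ∀ x y φ ψ : ℂ, (x, y, φ, ψ) ∈ Dom r s → f (x, y, φ, ψ + 2 * Real.pi) = f (x, y, φ, ψ)

theorem isOpen_Dom (r s : ℝ) : IsOpen (Dom r s) := by
  have h1 : IsOpen {z : ℂ × ℂ × ℂ × ℂ | ‖z.1‖ < r} :=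
    isOpen_lt (by fun_prop) continuous_const
  have h2 : IsOpen {z : ℂ × ℂ × ℂ × ℂ | ‖z.2.1‖ < r} :=
    isOpen_lt (by fun_prop) continuous_const
  have h3 : IsOpen {z : ℂ × ℂ × ℂ × ℂ | |z.2.2.1.im| < s} :=
    isOpen_lt (continuous_abs.comp (Complex.continuous_im.comp (by fun_prop))) continuous_const
  have h4 : IsOpen {z : ℂ × ℂ × ℂ × ℂ | |z.2.2.2.im| < s} :=
    isOpen_lt (continuous_abs.comp (Complex.continuous_im.comp (by fun_prop))) continuous_const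
  exact h1.inter (h2.inter (h3.inter h4))

theorem dx1_eq_fderiv {f : ℂ × ℂ × ℂ × ℂ → ℂ} {z : ℂ × ℂ × ℂ × ℂ}
    (hf : DifferentiableAt ℂ f z) : dx1 f z = fderiv ℂ f z (1, 0, 0, 0) := by
  have h1 : HasDerivAt (fun x : ℂ => (x, z.2.1, z.2.2.1, z.2.2.2))
      ((1, 0, 0, 0) : ℂ × ℂ × ℂ × ℂ) z.1 :=
    (hasDerivAt_id z.1).prodMk
      ((hasDerivAt_const z.1 z.2.1).prodMk
        ((hasDerivAt_const z.1 z.2.2.1).prodMk (hasDerivAt_const z.1 z.2.2.2)))
  have h2 : HasFDerivAt f (fderiv ℂ f z) (z.1, z.2.1, z.2.2.1, z.2.2.2) := hf.hasFDerivAt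
  exact (h2.comp_hasDerivAt z.1 h1).deriv

theorem dx2_eq_fderiv {f : ℂ × ℂ × ℂ × ℂ → ℂ} {z : ℂ × ℂ × ℂ × ℂ}
    (hf : DifferentiableAt ℂ f z) : dx2 f z = fderiv ℂ f z (0, 1, 0, 0) := by
  have h1 : HasDerivAt (fun y : ℂ => (z.1, y, z.2.2.1, z.2.2.2))
      ((0, 1, 0, 0) : ℂ × ℂ × ℂ × ℂ) z.2.1 :=
    (hasDerivAt_const z.2.1 z.1).prodMk
      ((hasDerivAt_id z.2.1).prodMk
        ((hasDerivAt_const z.2.1 z.2.2.1).prodMk (hasDerivAt_const z.2.1 z.2.2.2)))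
  have h2 : HasFDerivAt f (fderiv ℂ f z) (z.1, z.2.1, z.2.2.1, z.2.2.2) := hf.hasFDerivAt
  exact (h2.comp_hasDerivAt z.2.1 h1).deriv

theorem analyticOnNhd_fderiv_apply {r s : ℝ} {f : ℂ × ℂ × ℂ × ℂ → ℂ}
    (h : AnalyticOnNhd ℂ f (Dom r s)) (v : ℂ × ℂ × ℂ × ℂ) :
    AnalyticOnNhd ℂ (fun z => fderiv ℂ f z v) (Dom r s) := fun z hz =>
  ((ContinuousLinearMap.apply ℂ ℂ v).analyticAt _).comp (h.fderiv z hz)

theorem AP.dx1 {r s : ℝ} {f : ℂ × ℂ × ℂ × ℂ → ℂ} (h : AP r s f) : AP r s (dx1 f) := by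
  refine ⟨?_, ?_, ?_⟩
  · exact (analyticOnNhd_fderiv_apply h.an (1, 0, 0, 0)).congr (isOpen_Dom r s)
      fun z hz => (dx1_eq_fderiv (h.an z hz).differentiableAt).symm
  · intro x y φ ψ hz
    refine Filter.EventuallyEq.deriv_eq ?_
    have ho : IsOpen {x' : ℂ | ‖x'‖ < r} := isOpen_lt continuous_norm continuous_const
    filter_upwards [ho.mem_nhds hz.1] with x' hx'
    exact h.p1 x' y φ ψ ⟨hx', hz.2⟩
  · intro x y φ ψ hz
    refine Filter.EventuallyEq.deriv_eq ?_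
    have ho : IsOpen {x' : ℂ | ‖x'‖ < r} := isOpen_lt continuous_norm continuous_const
    filter_upwards [ho.mem_nhds hz.1] with x' hx'
    exact h.p2 x' y φ ψ ⟨hx', hz.2⟩

theorem AP.dx2 {r s : ℝ} {f : ℂ × ℂ × ℂ × ℂ → ℂ} (h : AP r s f) : AP r s (dx2 f) := by
  refine ⟨?_, ?_, ?_⟩
  · exact (analyticOnNhd_fderiv_apply h.an (0, 1, 0, 0)).congr (isOpen_Dom r s)
      fun z hz => (dx2_eq_fderiv (h.an z hz).differentiableAt).symm
  · intro x y φ ψ hz
    refine Filter.EventuallyEq.deriv_eq ?_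
    have ho : IsOpen {x' : ℂ | ‖x'‖ < r} := isOpen_lt continuous_norm continuous_const
    filter_upwards [ho.mem_nhds hz.2.1] with x' hx'
    exact h.p1 x x' φ ψ ⟨hz.1, hx', hz.2.2⟩
  · intro x y φ ψ hz
    refine Filter.EventuallyEq.deriv_eq ?_
    have ho : IsOpen {x' : ℂ | ‖x'‖ < r} := isOpen_lt continuous_norm continuous_const
    filter_upwards [ho.mem_nhds hz.2.1] with x' hx'
    exact h.p2 x x' φ ψ ⟨hz.1, hx', hz.2.2⟩

theorem AP.iter {r s : ℝ} {f : ℂ × ℂ × ℂ × ℂ → ℂ} (h : AP r s f) (p q : ℕ) :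
    AP r s (KamLattice.dx2^[q] (KamLattice.dx1^[p] f)) := by
  have h1 : ∀ p : ℕ, AP r s (KamLattice.dx1^[p] f) := by
    intro p
    induction p with
    | zero => exact h
    | succ p ih =>
      rw [Function.iterate_succ_apply']
      exact ih.dx1
  induction q with
  | zero => exact h1 p
  | succ q ih =>
    rw [Function.iterate_succ_apply']
    exact ih.dx2

theorem dx1_iter_eq (f : ℂ × ℂ × ℂ × ℂ → ℂ) (p : ℕ) (z : ℂ × ℂ × ℂ × ℂ) :
    (dx1^[p] f) z = iteratedDeriv p (fun x => f (x, z.2.1, z.2.2.1, z.2.2.2)) z.1 := by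
  induction p generalizing z with
  | zero => simp
  | succ p ih =>
    rw [Function.iterate_succ_apply', iteratedDeriv_succ, dx1]
    congr 1
    funext x
    rw [ih]

theorem dx2_iter_eq (f : ℂ × ℂ × ℂ × ℂ → ℂ) (q : ℕ) (z : ℂ × ℂ × ℂ × ℂ) :
    (dx2^[q] f) z = iteratedDeriv q (fun y => f (z.1, y, z.2.2.1, z.2.2.2)) z.2.1 := by
  induction q generalizing z with
  | zero => simp
  | succ q ih =>
    rw [Function.iterate_succ_apply', iteratedDeriv_succ, dx2]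
    congr 1
    funext y
    rw [ih]

end KamLattice
end

section

/-!
# Taylor-Fourier expansion of an interaction: Taylor series in the two actions

Fixed angles. Proof: Cauchy estimates `Complex.norm_iteratedDeriv_le_of_forall_mem_sphere_norm_le`
in `x` (for every `y` with `‖y‖ ≤ R2`) and then in `y` for the function
`y ↦ (dx1^[p] f) (p1, p2 + y, φ, ψ) / p!`, bounded by `K / R1 ^ p`; the Taylor series in `x` and then
in `y` (`Complex.hasSum_taylorSeries_on_ball`), joined with `HasSum.prod_fiberwise` /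
`Summable.tsum_prod` and the bound (geometric series).
-/

set_option autoImplicit false

namespace KamLattice

/-- Taylor coefficient in the actions, at the angles `φ, ψ` -/
noncomputable def tc (f : ℂ × ℂ × ℂ × ℂ → ℂ) (p1 p2 : ℝ) (p q : ℕ) (φ ψ : ℂ) : ℂ :=
  (dx2^[q] (dx1^[p] f)) ((p1 : ℂ), (p2 : ℂ), φ, ψ) / ((p.factorial : ℂ) * (q.factorial : ℂ))

private lemma expb_x {f : ℂ × ℂ × ℂ × ℂ → ℂ} {r s : ℝ} (hf : AP r s f) {x y φ ψ : ℂ}
    (hx : ‖x‖ < r) (hy : ‖y‖ < r) (hφ : |φ.im| < s) (hψ : |ψ.im| < s) :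
    DifferentiableAt ℂ (fun x => f (x, y, φ, ψ)) x := by
  have h := (hf.an (x, y, φ, ψ) ⟨hx, hy, hφ, hψ⟩).differentiableAt
  have h2 : DifferentiableAt ℂ (fun x : ℂ => (x, y, φ, ψ)) x := by fun_prop
  exact DifferentiableAt.comp (g := f) (f := fun x : ℂ => (x, y, φ, ψ)) x h h2

private lemma expb_y {f : ℂ × ℂ × ℂ × ℂ → ℂ} {r s : ℝ} (hf : AP r s f) {x y φ ψ : ℂ}
    (hx : ‖x‖ < r) (hy : ‖y‖ < r) (hφ : |φ.im| < s) (hψ : |ψ.im| < s) :
    DifferentiableAt ℂ (fun y => f (x, y, φ, ψ)) y := by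
  have h := (hf.an (x, y, φ, ψ) ⟨hx, hy, hφ, hψ⟩).differentiableAt
  have h2 : DifferentiableAt ℂ (fun y : ℂ => (x, y, φ, ψ)) y := by fun_prop
  exact DifferentiableAt.comp (g := f) (f := fun y : ℂ => (x, y, φ, ψ)) y h h2

private lemma expb_norm {p R r : ℝ} (hp : 0 ≤ p) (h : p + R < r) {x : ℂ} (hx : ‖x‖ ≤ R) :
    ‖(p : ℂ) + x‖ < r := by
  calc ‖(p : ℂ) + x‖ ≤ ‖(p : ℂ)‖ + ‖x‖ := norm_add_le _ _
    _ = p + ‖x‖ := by rw [Complex.norm_real, Real.norm_of_nonneg hp]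
    _ < r := by linarith

private lemma expb_norm' {p R r : ℝ} (hp : 0 ≤ p) (h : p + R < r) {x : ℂ}
    (hx : x ∈ Metric.closedBall (p : ℂ) R) : ‖x‖ < r := by
  rw [mem_closedBall_iff_norm] at hx
  have := expb_norm hp h hx
  rwa [add_sub_cancel] at this

/-- bound of the derivatives in the first action -/
private lemma expb_bound1 (f : ℂ × ℂ × ℂ × ℂ → ℂ) (r s : ℝ) (hf : AP r s f) (p1 p2 R1 R2 K : ℝ)
    (hp1 : 0 ≤ p1) (hp2 : 0 ≤ p2) (hR1 : 0 < R1) (h1 : p1 + R1 < r)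
    (h2 : p2 + R2 < r) (φ ψ : ℂ) (hφ : |φ.im| < s) (hψ : |ψ.im| < s)
    (hK : ∀ x y : ℂ, ‖x‖ ≤ R1 → ‖y‖ ≤ R2 → ‖f (p1 + x, p2 + y, φ, ψ)‖ ≤ K) (p : ℕ)
    (y : ℂ) (hy : ‖y‖ ≤ R2) :
    ‖(dx1^[p] f) ((p1 : ℂ), p2 + y, φ, ψ)‖ ≤ p.factorial * K / R1 ^ p := by
  rw [dx1_iter_eq]
  simp only
  apply Complex.norm_iteratedDeriv_le_of_forall_mem_sphere_norm_le p hR1
  · apply DifferentiableOn.diffContOnCl
    rw [closure_ball _ hR1.ne']
    intro x hx
    exact (expb_x hf (expb_norm' hp1 h1 hx) (expb_norm hp2 h2 hy) hφ hψ).differentiableWithinAt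
  · intro x hx
    have := hK (x - p1) y (by rw [mem_sphere_iff_norm] at hx; exact hx.le) hy
    rwa [add_sub_cancel] at this

theorem tc_bound (f : ℂ × ℂ × ℂ × ℂ → ℂ) (r s : ℝ) (hf : AP r s f) (p1 p2 R1 R2 K : ℝ)
    (hp1 : 0 ≤ p1) (hp2 : 0 ≤ p2) (hR1 : 0 < R1) (hR2 : 0 < R2) (h1 : p1 + R1 < r)
    (h2 : p2 + R2 < r) (φ ψ : ℂ) (hφ : |φ.im| < s) (hψ : |ψ.im| < s)
    (hK : ∀ x y : ℂ, ‖x‖ ≤ R1 → ‖y‖ ≤ R2 → ‖f (p1 + x, p2 + y, φ, ψ)‖ ≤ K) (p q : ℕ) :
    ‖tc f p1 p2 p q φ ψ‖ ≤ K / (R1 ^ p * R2 ^ q) := by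
  have hg : AP r s (dx1^[p] f) := hf.iter p 0
  have hp1r : ‖(p1 : ℂ)‖ < r := by
    rw [Complex.norm_real, Real.norm_of_nonneg hp1]; linarith
  have h3 : ‖(dx2^[q] (dx1^[p] f)) ((p1 : ℂ), (p2 : ℂ), φ, ψ)‖ ≤
      q.factorial * (p.factorial * K / R1 ^ p) / R2 ^ q := by
    rw [dx2_iter_eq]
    simp only
    apply Complex.norm_iteratedDeriv_le_of_forall_mem_sphere_norm_le q hR2
    · apply DifferentiableOn.diffContOnCl
      rw [closure_ball _ hR2.ne']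
      intro y hy
      exact (expb_y hg hp1r (expb_norm' hp2 h2 hy) hφ hψ).differentiableWithinAt
    · intro y hy
      have := expb_bound1 f r s hf p1 p2 R1 R2 K hp1 hp2 hR1 h1 h2 φ ψ hφ hψ hK p (y - p2)
        (by rw [mem_sphere_iff_norm] at hy; exact hy.le)
      rwa [add_sub_cancel] at this
  unfold tc
  have hpf : (0 : ℝ) < p.factorial := by exact_mod_cast p.factorial_pos
  have hqf : (0 : ℝ) < q.factorial := by exact_mod_cast q.factorial_pos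
  rw [norm_div, norm_mul, Complex.norm_natCast, Complex.norm_natCast, div_le_iff₀ (by positivity)]
  refine h3.trans (le_of_eq ?_)
  field_simp

theorem tc_hasSum (f : ℂ × ℂ × ℂ × ℂ → ℂ) (r s : ℝ) (hf : AP r s f) (p1 p2 R1 R2 K : ℝ)
    (hp1 : 0 ≤ p1) (hp2 : 0 ≤ p2) (hR1 : 0 < R1) (hR2 : 0 < R2) (h1 : p1 + R1 < r)
    (h2 : p2 + R2 < r) (φ ψ : ℂ) (hφ : |φ.im| < s) (hψ : |ψ.im| < s)
    (hK : ∀ x y : ℂ, ‖x‖ ≤ R1 → ‖y‖ ≤ R2 → ‖f (p1 + x, p2 + y, φ, ψ)‖ ≤ K)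
    (x y : ℂ) (hx : ‖x‖ < R1) (hy : ‖y‖ < R2) :
    HasSum (fun a : ℕ × ℕ => tc f p1 p2 a.1 a.2 φ ψ * x ^ a.1 * y ^ a.2)
      (f (p1 + x, p2 + y, φ, ψ)) := by
  have hp1r : ‖(p1 : ℂ)‖ < r := by
    rw [Complex.norm_real, Real.norm_of_nonneg hp1]; linarith
  -- summability
  have hsum : Summable (fun a : ℕ × ℕ => tc f p1 p2 a.1 a.2 φ ψ * x ^ a.1 * y ^ a.2) := by
    have hgx : Summable fun n : ℕ => K * (‖x‖ / R1) ^ n :=
      (summable_geometric_of_lt_one (by positivity) ((div_lt_one hR1).2 hx)).mul_left K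
    have hgy : Summable fun n : ℕ => (‖y‖ / R2) ^ n :=
      summable_geometric_of_lt_one (by positivity) ((div_lt_one hR2).2 hy)
    have hK0 : 0 ≤ K := (norm_nonneg _).trans (hK 0 0 (by simpa using hR1.le) (by simpa using hR2.le))
    have hg : Summable fun a : ℕ × ℕ => K * (‖x‖ / R1) ^ a.1 * (‖y‖ / R2) ^ a.2 :=
      hgx.mul_of_nonneg hgy (fun n => by positivity) (fun n => by positivity)
    refine Summable.of_norm_bounded hg fun a => ?_
    rw [norm_mul, norm_mul, norm_pow, norm_pow]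
    have := tc_bound f r s hf p1 p2 R1 R2 K hp1 hp2 hR1 hR2 h1 h2 φ ψ hφ hψ hK a.1 a.2
    calc ‖tc f p1 p2 a.1 a.2 φ ψ‖ * ‖x‖ ^ a.1 * ‖y‖ ^ a.2
        ≤ K / (R1 ^ a.1 * R2 ^ a.2) * ‖x‖ ^ a.1 * ‖y‖ ^ a.2 := by gcongr
      _ = K * (‖x‖ / R1) ^ a.1 * (‖y‖ / R2) ^ a.2 := by
          rw [div_pow, div_pow]
          field_simp
  -- sum over the second index
  have hq : ∀ p : ℕ, HasSum (fun q : ℕ => tc f p1 p2 p q φ ψ * x ^ p * y ^ q)
      ((p.factorial : ℂ)⁻¹ * (x ^ p * (dx1^[p] f) ((p1 : ℂ), p2 + y, φ, ψ))) := by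
    intro p
    have hg : AP r s (dx1^[p] f) := hf.iter p 0
    have hd : DifferentiableOn ℂ (fun y => (dx1^[p] f) ((p1 : ℂ), y, φ, ψ))
        (Metric.ball (p2 : ℂ) R2) := fun w hw =>
      (expb_y hg hp1r (expb_norm' hp2 h2 (Metric.ball_subset_closedBall hw)) hφ
        hψ).differentiableWithinAt
    have hz : (p2 : ℂ) + y ∈ Metric.ball (p2 : ℂ) R2 := by
      rw [mem_ball_iff_norm, add_sub_cancel_left]; exact hy
    have h3 := (Complex.hasSum_taylorSeries_on_ball hd hz).mul_left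
      ((p.factorial : ℂ)⁻¹ * x ^ p)
    rw [mul_assoc] at h3
    have he : (fun q : ℕ => tc f p1 p2 p q φ ψ * x ^ p * y ^ q) = fun q : ℕ =>
        (p.factorial : ℂ)⁻¹ * x ^ p * ((q.factorial : ℂ)⁻¹ • ((p2 : ℂ) + y - p2) ^ q •
          iteratedDeriv q (fun y => (dx1^[p] f) ((p1 : ℂ), y, φ, ψ)) p2) := by
      funext q
      unfold tc
      rw [dx2_iter_eq, add_sub_cancel_left, smul_eq_mul, smul_eq_mul, div_eq_mul_inv, mul_inv]
      simp only
      ring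
    rw [he]
    exact h3
  -- sum over the first index
  have hp : HasSum (fun p : ℕ => (p.factorial : ℂ)⁻¹ *
      (x ^ p * (dx1^[p] f) ((p1 : ℂ), p2 + y, φ, ψ))) (f (p1 + x, p2 + y, φ, ψ)) := by
    have hd : DifferentiableOn ℂ (fun x => f (x, p2 + y, φ, ψ)) (Metric.ball (p1 : ℂ) R1) :=
      fun w hw => (expb_x hf (expb_norm' hp1 h1 (Metric.ball_subset_closedBall hw))
        (expb_norm hp2 h2 hy.le) hφ hψ).differentiableWithinAt
    have hz : (p1 : ℂ) + x ∈ Metric.ball (p1 : ℂ) R1 := by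
      rw [mem_ball_iff_norm, add_sub_cancel_left]; exact hx
    have h3 := Complex.hasSum_taylorSeries_on_ball hd hz
    have he : (fun p : ℕ => (p.factorial : ℂ)⁻¹ *
        (x ^ p * (dx1^[p] f) ((p1 : ℂ), p2 + y, φ, ψ))) = fun p : ℕ =>
        ((p.factorial : ℂ)⁻¹ • ((p1 : ℂ) + x - p1) ^ p •
          iteratedDeriv p (fun x => f (x, p2 + y, φ, ψ)) p1) := by
      funext p
      rw [dx1_iter_eq, add_sub_cancel_left, smul_eq_mul, smul_eq_mul]
    rw [he]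
    exact h3
  have h3 := hsum.hasSum.prod_fiberwise hq
  have h4 := hsum.hasSum
  rwa [h3.unique hp] at h4

/-- the coefficients are analytic and periodic functions of the angles -/
theorem tc_analytic (f : ℂ × ℂ × ℂ × ℂ → ℂ) (r s : ℝ) (hf : AP r s f) (p1 p2 : ℝ)
    (hp1 : 0 ≤ p1) (hp2 : 0 ≤ p2) (h1 : p1 < r) (h2 : p2 < r) (p q : ℕ) :
    AnalyticOnNhd ℂ (fun z : ℂ × ℂ => tc f p1 p2 p q z.1 z.2) {z | |z.1.im| < s ∧ |z.2.im| < s} ∧
    (∀ φ ψ : ℂ, |φ.im| < s → |ψ.im| < s →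
      tc f p1 p2 p q (φ + 2 * Real.pi) ψ = tc f p1 p2 p q φ ψ) ∧
    (∀ φ ψ : ℂ, |φ.im| < s → |ψ.im| < s →
      tc f p1 p2 p q φ (ψ + 2 * Real.pi) = tc f p1 p2 p q φ ψ) := by
  have hg := hf.iter p q
  have hp1r : ‖(p1 : ℂ)‖ < r := by rwa [Complex.norm_real, Real.norm_of_nonneg hp1]
  have hp2r : ‖(p2 : ℂ)‖ < r := by rwa [Complex.norm_real, Real.norm_of_nonneg hp2]
  refine ⟨?_, ?_, ?_⟩
  · intro z hz
    have h3 : AnalyticAt ℂ (fun z : ℂ × ℂ => ((p1 : ℂ), (p2 : ℂ), z.1, z.2)) z :=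
      analyticAt_const.prod (analyticAt_const.prod (analyticAt_fst.prod analyticAt_snd))
    have h4 := hg.an ((p1 : ℂ), (p2 : ℂ), z.1, z.2) ⟨hp1r, hp2r, hz.1, hz.2⟩
    have h5 : AnalyticAt ℂ (fun z : ℂ × ℂ => (dx2^[q] (dx1^[p] f)) ((p1 : ℂ), (p2 : ℂ), z.1, z.2))
        z := AnalyticAt.fun_comp (g := dx2^[q] (dx1^[p] f))
          (f := fun z : ℂ × ℂ => ((p1 : ℂ), (p2 : ℂ), z.1, z.2)) h4 h3
    exact h5.div_const
  · intro φ ψ hφ hψ
    unfold tc
    have h3 := hg.p1 (p1 : ℂ) (p2 : ℂ) φ ψ ⟨hp1r, hp2r, hφ, hψ⟩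
    rw [h3]
  · intro φ ψ hφ hψ
    unfold tc
    have h3 := hg.p2 (p1 : ℂ) (p2 : ℂ) φ ψ ⟨hp1r, hp2r, hφ, hψ⟩
    rw [h3]

end KamLattice
end
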