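import Pool.Agent.Lib.MP_73c19a_an.Mg.G008

section

/-!
# Algebraic identities for formal series

All identities are equalities of push-forwards over a common index set (`push_push`, `push_congr`,
`push_add`, `push_equiv`).
-/

set_option autoImplicit false

namespace KX

open scoped ENNReal

variable {V : Type} [DecidableEq V]

theorem XX_abs_ne_top_alg2c (G : Geo V) (rho s : ℝ) (hr : 0 < rho) (hs : 0 < s)
    (F g : Mon V → ℂ) (hF : nr (wg G rho s) F ≠ ∞) (hg : nr (wm G rho s) g ≠ ∞) :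
    ∑' x : V × Mon V × Mon V, ‖Complex.I * (kapm x.1 x.2.1 x.2.2 : ℂ) * g x.2.1 * F x.2.2‖ₑ *
      wm G rho 0 (tgt x.1 x.2.1 x.2.2) ≠ ∞ := by
  have h1 := XX_abs_le G rho 0 s s hr le_rfl hs hs F g
  rw [zero_add] at h1
  exact ne_top_of_le_ne_top
    (ENNReal.mul_ne_top (ENNReal.mul_ne_top ENNReal.ofReal_ne_top hg) hF) h1

theorem XX_add (G : Geo V) (rho s s' : ℝ) (hr : 0 < rho) (hs : 0 < s) (F g g' : Mon V → ℂ)
    (hF : nr (wg G rho s) F ≠ ∞) (hg : nr (wm G rho s) g ≠ ∞) (hg' : nr (wm G rho s) g' ≠ ∞) :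
    XX F (fun m => g m + g' m) = fun m => XX F g m + XX F g' m := by
  unfold XX
  rw [← push_add (wm G rho 0) (wm_ne_zero G rho 0 hr) _ _ _
    (XX_abs_ne_top_alg2c G rho s hr hs F g hF hg) (XX_abs_ne_top_alg2c G rho s hr hs F g' hF hg')]
  congr 1
  funext x
  ring

theorem XX_smul (F g : Mon V → ℂ) (c : ℂ) : XX F (fun m => c * g m) = fun m => c * XX F g m := by
  unfold XX
  rw [← push_smul]
  congr 1
  funext x
  ring

theorem XX_add_left (G : Geo V) (rho s : ℝ) (hr : 0 < rho) (hs : 0 < s) (F F' g : Mon V → ℂ)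
    (hF : nr (wg G rho s) F ≠ ∞) (hF' : nr (wg G rho s) F' ≠ ∞) (hg : nr (wm G rho s) g ≠ ∞) :
    XX (fun m => F m + F' m) g = fun m => XX F g m + XX F' g m := by
  unfold XX
  rw [← push_add (wm G rho 0) (wm_ne_zero G rho 0 hr) _ _ _
    (XX_abs_ne_top_alg2c G rho s hr hs F g hF hg) (XX_abs_ne_top_alg2c G rho s hr hs F' g hF' hg)]
  congr 1
  funext x
  ring

theorem XX_smul_left (F g : Mon V → ℂ) (c : ℂ) :
    XX (fun m => c * F m) g = fun m => c * XX F g m := by
  unfold XX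
  rw [← push_smul]
  congr 1
  funext x
  ring

end KX
end

section

/-!
# Algebraic identities for formal series

All identities are equalities of push-forwards over a common index set (`push_push`, `push_congr`,
`push_add`, `push_equiv`).
-/

set_option autoImplicit false

namespace KX

open scoped ENNReal

variable {V : Type} [DecidableEq V]

/-- `Dw` is a derivation of the bracket -/
theorem Dw_XX (G : Geo V) (rho s : ℝ) (hr : 0 < rho) (hs : 0 < s) (w : V → ℝ) (F g : Mon V → ℂ)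
    (hF : nr (wg G rho s) F ≠ ∞) (hF' : nr (wg G rho s) (Dw w F) ≠ ∞)
    (hg : nr (wm G rho s) g ≠ ∞) (hg' : nr (wm G rho s) (Dw w g) ≠ ∞) :
    Dw w (XX F g) = fun m => XX F (Dw w g) m + XX (Dw w F) g m := by
  have key : ∀ F' g' : Mon V → ℂ, nr (wg G rho s) F' ≠ ∞ → nr (wm G rho s) g' ≠ ∞ →
      ∑' x : V × Mon V × Mon V, ‖Complex.I * (kapm x.1 x.2.1 x.2.2 : ℂ) * g' x.2.1 * F' x.2.2‖ₑ *
        wm G rho 0 (tgt x.1 x.2.1 x.2.2) ≠ ∞ := by
    intro F' g' h1 h2
    have h := XX_abs_le G rho 0 s s hr le_rfl hs hs F' g'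
    rw [zero_add] at h
    exact ne_top_of_le_ne_top
      (ENNReal.mul_ne_top (ENNReal.mul_ne_top ENNReal.ofReal_ne_top h2) h1) h
  have hdot : ∀ a b : V →₀ ℤ, dotm (a + b) w = dotm a w + dotm b w := by
    intro a b
    unfold dotm
    rw [Finsupp.sum_add_index']
    · intro j; simp
    · intro j x y; push_cast; ring
  have h1 : Dw w (XX F g) = push (fun x : V × Mon V × Mon V => tgt x.1 x.2.1 x.2.2)
      (fun x => Complex.I * (kapm x.1 x.2.1 x.2.2 : ℂ) * Dw w g x.2.1 * F x.2.2 +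
        Complex.I * (kapm x.1 x.2.1 x.2.2 : ℂ) * g x.2.1 * Dw w F x.2.2) := by
    funext m
    simp only [Dw, XX, push]
    rw [← tsum_mul_left]
    refine tsum_congr fun x => ?_
    by_cases hx : tgt x.1 x.2.1 x.2.2 = m
    · rw [if_pos hx, if_pos hx]
      have : m.2 = x.2.1.2 + x.2.2.2 := by rw [← hx]; rfl
      rw [this, hdot]
      push_cast
      ring
    · rw [if_neg hx, if_neg hx, mul_zero]
  rw [h1, push_add (wm G rho 0) (wm_ne_zero G rho 0 hr) _ _ _ (key F (Dw w g) hF hg')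
    (key (Dw w F) g hF' hg)]
  rfl

end KX
end

section

/-!
# The exponential of a derivation
-/

set_option autoImplicit false

namespace KX

open scoped ENNReal

variable {V : Type} [DecidableEq V]

/-- the transformed perturbation `∑ (XX F)^n (p - r/(n+1)) / n!` -/
noncomputable def tp (F p r : Mon V → ℂ) : Mon V → ℂ :=
  fun m => ∑' n : ℕ, (1 / (n.factorial : ℂ)) *
    ((XX F)^[n] (fun m' => p m' - r m' / ((n : ℂ) + 1))) m

/-- the operators `δ_0 = Dw w + XX p`, `δ_m = XX ((XX F)^m p - (XX F)^(m-1) r)` -/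
noncomputable def dls (F p r : Mon V → ℂ) (w : V → ℝ) (a : ℕ) (g : Mon V → ℂ) : Mon V → ℂ :=
  match a with
  | 0 => dl w p g
  | a + 1 => XX (fun m => ((XX F)^[a + 1] p) m - ((XX F)^[a] r) m) g

section aux3f

variable {G : Geo V} {rho : ℝ}

theorem XX_fsum_3f {ι : Type} [DecidableEq ι] (G : Geo V) (rho s : ℝ) (hr : 0 < rho) (hs : 0 < s)
    (F : Mon V → ℂ) (hF : nr (wg G rho s) F ≠ ∞) (S : Finset ι) (c : ι → ℂ) (f : ι → Mon V → ℂ)
    (hf : ∀ i ∈ S, nr (wm G rho s) (f i) ≠ ∞) :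
    nr (wm G rho s) (fun m => ∑ i ∈ S, c i * f i m) ≠ ∞ ∧
    XX F (fun m => ∑ i ∈ S, c i * f i m) = fun m => ∑ i ∈ S, c i * XX F (f i) m := by
  induction S using Finset.induction_on with
  | empty =>
    constructor
    · simp [nr]
    · have h := XX_smul F (fun _ => (0 : ℂ)) 0
      simp only [zero_mul] at h
      simpa using h
  | insert a S ha ih =>
    obtain ⟨ih1, ih2⟩ := ih fun i hi => hf i (Finset.mem_insert_of_mem hi)
    have hfa := hf a (Finset.mem_insert_self a S)
    have hca : nr (wm G rho s) (fun m => c a * f a m) ≠ ∞ := by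
      rw [nr_smul]
      exact ENNReal.mul_ne_top enorm_ne_top hfa
    have e : (fun m => ∑ i ∈ insert a S, c i * f i m) =
        fun m => c a * f a m + ∑ i ∈ S, c i * f i m := by
      funext m
      rw [Finset.sum_insert ha]
    constructor
    · rw [e]
      exact ne_top_of_le_ne_top (ENNReal.add_ne_top.2 ⟨hca, ih1⟩) (nr_add_le _ _ _)
    · rw [e, XX_add G rho s s hr hs F _ _ hF hca ih1, XX_smul, ih2]
      funext m
      rw [Finset.sum_insert ha]

/-- observables at every level below `s` -/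
def Ob3f (G : Geo V) (rho s : ℝ) (g : Mon V → ℂ) : Prop :=
  ∀ σ, 0 < σ → σ < s → nr (wm G rho σ) g ≠ ∞

/-- generators at every level below `s` -/
def Ge3f (G : Geo V) (rho s : ℝ) (g : Mon V → ℂ) : Prop :=
  ∀ σ, 0 < σ → σ < s → nr (wg G rho σ) g ≠ ∞

theorem Ob3f.XX {s s1 : ℝ} (hr : 0 < rho) (h2 : s ≤ s1) {F g : Mon V → ℂ}
    (hF : Ge3f G rho s1 F) (hg : Ob3f G rho s g) : Ob3f G rho s (XX F g) := by
  intro σ h0 h1
  have hy : 0 < (s - σ) / 2 := by linarith
  have hb := nr_XX_le G rho σ ((s - σ) / 2) ((s - σ) / 2) hr h0.le hy hy F g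
  refine ne_top_of_le_ne_top (ENNReal.mul_ne_top (ENNReal.mul_ne_top ENNReal.ofReal_ne_top
    (hg _ (by linarith) (by linarith))) (hF _ (by linarith) (by linarith))) hb

theorem Ge3f.XX {s : ℝ} (hr : 0 < rho) {F g : Mon V → ℂ}
    (hF : Ge3f G rho s F) (hg : Ge3f G rho s g) : Ge3f G rho s (XX F g) := by
  intro σ h0 h1
  have hy : 0 < (s - σ) / 2 := by linarith
  have hb := nr_XX_le' G rho σ ((s - σ) / 2) ((s - σ) / 2) hr h0.le hy hy F g
  refine ne_top_of_le_ne_top (ENNReal.mul_ne_top (ENNReal.mul_ne_top ENNReal.ofReal_ne_top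
    (hg _ (by linarith) (by linarith))) (hF _ (by linarith) (by linarith))) hb

theorem Ob3f.add {s : ℝ} {f g : Mon V → ℂ} (hf : Ob3f G rho s f) (hg : Ob3f G rho s g) :
    Ob3f G rho s (fun m => f m + g m) := fun σ h0 h1 =>
  ne_top_of_le_ne_top (ENNReal.add_ne_top.2 ⟨hf σ h0 h1, hg σ h0 h1⟩) (nr_add_le _ _ _)

theorem Ob3f.smul {s : ℝ} {f : Mon V → ℂ} (c : ℂ) (hf : Ob3f G rho s f) :
    Ob3f G rho s (fun m => c * f m) := fun σ h0 h1 => by
  rw [nr_smul]
  exact ENNReal.mul_ne_top enorm_ne_top (hf σ h0 h1)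

theorem Ge3f.add {s : ℝ} {f g : Mon V → ℂ} (hf : Ge3f G rho s f) (hg : Ge3f G rho s g) :
    Ge3f G rho s (fun m => f m + g m) := fun σ h0 h1 =>
  ne_top_of_le_ne_top (ENNReal.add_ne_top.2 ⟨hf σ h0 h1, hg σ h0 h1⟩) (nr_add_le _ _ _)

theorem Ge3f.smul {s : ℝ} {f : Mon V → ℂ} (c : ℂ) (hf : Ge3f G rho s f) :
    Ge3f G rho s (fun m => c * f m) := fun σ h0 h1 => by
  rw [nr_smul]
  exact ENNReal.mul_ne_top enorm_ne_top (hf σ h0 h1)

theorem Ge3f.iter {s : ℝ} (hr : 0 < rho) {F g : Mon V → ℂ}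
    (hF : Ge3f G rho s F) (hg : Ge3f G rho s g) (n : ℕ) : Ge3f G rho s ((KX.XX F)^[n] g) := by
  induction n with
  | zero => exact hg
  | succ n ih => rw [Function.iterate_succ_apply']; exact Ge3f.XX hr hF ih

theorem Ge3f.sub {s : ℝ} {f g : Mon V → ℂ} (hf : Ge3f G rho s f) (hg : Ge3f G rho s g) :
    Ge3f G rho s (fun m => f m - g m) := by
  have := hf.add (hg.smul (-1))
  simpa only [neg_one_mul, ← sub_eq_add_neg] using this

/-- commutation with the bracket by a generator -/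
theorem XX_comm_3f {s s1 : ℝ} (hr : 0 < rho) (hs : 0 < s) (h2 : s ≤ s1) {F q g : Mon V → ℂ}
    (hF : Ge3f G rho s1 F) (hq : Ge3f G rho s1 q) (hg : Ob3f G rho s g) (m : Mon V) :
    XX F (XX q g) m = XX q (XX F g) m + XX (XX F q) g m := by
  have h := XX_jacobi G rho (s / 2) hr (by positivity) F q g
    (hF _ (by positivity) (by linarith)) (hq _ (by positivity) (by linarith))
    (hg _ (by positivity) (by linarith))
  have := congrFun h m
  rw [← this]
  ring

theorem dls_comm_3f {s s1 : ℝ} (hr : 0 < rho) (hs : 0 < s) (h2 : s ≤ s1) {F p r g : Mon V → ℂ}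
    {w : V → ℝ} (hr' : Dw w F = r) (hF : Ge3f G rho s1 F) (hp : Ge3f G rho s1 p)
    (hrr : Ge3f G rho s1 r) (hg : Ob3f G rho s g) (hDg : Ob3f G rho s (Dw w g)) (a : ℕ) :
    XX F (dls F p r w a g) = fun m => dls F p r w a (XX F g) m + dls F p r w (a + 1) g m := by
  funext m
  cases a with
  | zero =>
    have e0 : dls F p r w 0 g = fun m => Dw w g m + XX p g m := rfl
    have h2' : 0 < s / 2 := by positivity
    have hXp : Ob3f G rho s (XX p g) := Ob3f.XX hr h2 hp hg
    rw [e0, XX_add G rho (s / 2) (s / 2) hr h2' F _ _ (hF _ h2' (by linarith))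
      (hDg _ h2' (by linarith)) (hXp _ h2' (by linarith))]
    have hD := congrFun (Dw_XX G rho (s / 2) hr h2' w F g (hF _ h2' (by linarith))
      (by rw [hr']; exact hrr _ h2' (by linarith)) (hg _ h2' (by linarith))
      (hDg _ h2' (by linarith))) m
    rw [hr'] at hD
    have hJ := XX_comm_3f hr hs h2 hF hp hg m
    show XX F (Dw w g) m + XX F (XX p g) m = (Dw w (XX F g) m + XX p (XX F g) m) +
      XX (fun m => (XX F p) m - r m) g m
    have hsub : XX (fun m => (XX F p) m - r m) g m = XX (XX F p) g m - XX r g m := by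
      have h3 := congrFun (XX_add_left G rho (s / 2) hr h2' (XX F p) (fun m => (-1) * r m) g
        ((Ge3f.XX hr hF hp) _ h2' (by linarith)) ((hrr.smul (-1)) _ h2' (by linarith))
        (hg _ h2' (by linarith))) m
      simp only [XX_smul_left] at h3
      have h4 : (fun m => XX F p m + (-1) * r m) = fun m => XX F p m - r m := by
        funext m; ring
      rw [h4] at h3
      rw [h3]
      ring
    rw [hsub, hD, hJ]
    ring
  | succ a =>
    have h2' : 0 < s / 2 := by positivity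
    have hq : Ge3f G rho s1 (fun m => ((XX F)^[a + 1] p) m - ((XX F)^[a] r) m) :=
      (hF.iter hr hp (a + 1)).sub (hF.iter hr hrr a)
    have hJ := XX_comm_3f hr hs h2 hF hq hg m
    show XX F (XX (fun m => ((XX F)^[a + 1] p) m - ((XX F)^[a] r) m) g) m =
      XX (fun m => ((XX F)^[a + 1] p) m - ((XX F)^[a] r) m) (XX F g) m +
      XX (fun m => ((XX F)^[a + 1 + 1] p) m - ((XX F)^[a + 1] r) m) g m
    rw [hJ]
    congr 2
    have h3 := XX_add G rho (s1 / 2) (s1 / 2) hr (by linarith) F ((XX F)^[a + 1] p)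
      (fun m => (-1) * ((XX F)^[a] r) m) (hF _ (by linarith) (by linarith))
      (ne_top_of_le_ne_top ((hF.iter hr hp (a + 1)) _ (by linarith : 0 < s1 / 2) (by linarith))
        (nr_mono (wm_le_wg G rho (s1 / 2)) _))
      (ne_top_of_le_ne_top (((hF.iter hr hrr a).smul (-1)) _ (by linarith : 0 < s1 / 2)
        (by linarith)) (nr_mono (wm_le_wg G rho (s1 / 2)) _))
    rw [XX_smul] at h3
    have h4 : (fun m => ((XX F)^[a + 1] p) m + (-1) * ((XX F)^[a] r) m) =
        fun m => ((XX F)^[a + 1] p) m - ((XX F)^[a] r) m := by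
      funext m; ring
    rw [h4] at h3
    rw [h3]
    funext m
    rw [Function.iterate_succ_apply' (XX F) (a + 1) p, Function.iterate_succ_apply' (XX F) a r]
    ring

end aux3f

/-- `(XX F)^n δ_0 g = ∑_a C(n, a) δ_a (XX F)^(n-a) g`, by induction from
`[XX F, Dw w] = - XX (Dw w F)` and the Jacobi identity -/
theorem XX_iter_dl (G : Geo V) (rho s s1 : ℝ) (hr : 0 < rho) (hs : 0 < s) (hs1 : 0 < s1)
    (h2 : s ≤ s1 / 2) (F p r g : Mon V → ℂ) (w : V → ℝ) (hr' : Dw w F = r)
    (hF : nr (wg G rho s1) F ≠ ∞) (hp : nr (wg G rho s1) p ≠ ∞) (hrr : nr (wg G rho s1) r ≠ ∞)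
    (hg : nr (wm G rho s) g ≠ ∞) (hdg : nr (wm G rho s) (dl w p g) ≠ ∞) (n : ℕ) (m : Mon V) :
    ((XX F)^[n] (dl w p g)) m = ∑ x ∈ Finset.HasAntidiagonal.antidiagonal n,
      (n.choose x.1 : ℂ) * dls F p r w x.1 ((XX F)^[x.2] g) m := by
  have hFG : Ge3f G rho s1 F := fun σ _ h1 => ne_top_of_le_ne_top hF (nr_mono (wg_mono G rho hr h1.le) _)
  have hpG : Ge3f G rho s1 p := fun σ _ h1 => ne_top_of_le_ne_top hp (nr_mono (wg_mono G rho hr h1.le) _)
  have hrG : Ge3f G rho s1 r := fun σ _ h1 =>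
    ne_top_of_le_ne_top hrr (nr_mono (wg_mono G rho hr h1.le) _)
  have hgO : Ob3f G rho s g := fun σ _ h1 => ne_top_of_le_ne_top hg (nr_mono (wm_mono G rho hr h1.le) _)
  have hle : s ≤ s1 := by linarith
  have hdO : Ob3f G rho s (dl w p g) := fun σ _ h1 =>
    ne_top_of_le_ne_top hdg (nr_mono (wm_mono G rho hr h1.le) _)
  have hDO : Ob3f G rho s (Dw w g) := by
    have h1 := hdO.add ((Ob3f.XX hr hle hpG hgO).smul (-1))
    have h3 : (fun m => dl w p g m + (-1) * XX p g m) = Dw w g := by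
      funext m
      simp only [dl, Pi.add_apply]
      ring
    rwa [h3] at h1
  -- the orbit of g
  have horb : ∀ b : ℕ, Ob3f G rho s ((XX F)^[b] g) ∧ Ob3f G rho s (Dw w ((XX F)^[b] g)) := by
    intro b
    induction b with
    | zero => exact ⟨hgO, hDO⟩
    | succ b ih =>
      rw [Function.iterate_succ_apply']
      refine ⟨Ob3f.XX hr hle hFG ih.1, ?_⟩
      intro σ h0 h1
      have h5 : (σ + s) / 2 < s := by linarith
      have h6 : 0 < (σ + s) / 2 := by linarith
      rw [Dw_XX G rho ((σ + s) / 2) hr h6 w F _ (hFG _ h6 (by linarith))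
        (by rw [hr']; exact hrG _ h6 (by linarith)) (ih.1 _ h6 h5) (ih.2 _ h6 h5), hr']
      exact ((Ob3f.XX hr hle hFG ih.2).add (Ob3f.XX hr hle hrG ih.1)) σ h0 h1
  have hdls : ∀ a b : ℕ, Ob3f G rho s (dls F p r w a ((XX F)^[b] g)) := by
    intro a b
    cases a with
    | zero =>
      exact (horb b).2.add (Ob3f.XX hr hle hpG (horb b).1)
    | succ a =>
      exact Ob3f.XX hr hle ((hFG.iter hr hpG (a + 1)).sub (hFG.iter hr hrG a)) (horb b).1
  -- induction
  have key : ∀ n : ℕ, ((XX F)^[n] (dl w p g)) = fun m =>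
      ∑ x ∈ Finset.HasAntidiagonal.antidiagonal n,
        (n.choose x.1 : ℂ) * dls F p r w x.1 ((XX F)^[x.2] g) m := by
    intro n
    induction n with
    | zero =>
      funext m
      simp [dls]
    | succ n ih =>
      rw [Function.iterate_succ_apply', ih]
      have h2' : 0 < s / 2 := by positivity
      rw [(XX_fsum_3f G rho (s / 2) hr h2' F (hFG _ h2' (by linarith))
        (Finset.HasAntidiagonal.antidiagonal n) (fun x => (n.choose x.1 : ℂ))
        (fun x => dls F p r w x.1 ((XX F)^[x.2] g))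
        (fun x _ => hdls x.1 x.2 _ h2' (by linarith))).2]
      funext m
      rw [Finset.sum_antidiagonal_choose_succ_mul
        (fun a b => dls F p r w a ((XX F)^[b] g) m) n, ← Finset.sum_add_distrib]
      refine Finset.sum_congr rfl fun x hx => ?_
      have hx' : x.1 + x.2 = n := Finset.HasAntidiagonal.mem_antidiagonal.1 hx
      have hch : n.choose x.2 = n.choose x.1 := by
        rw [← hx', Nat.choose_symm_add]
      rw [dls_comm_3f hr hs hle hr' hFG hpG hrG (horb x.2).1 (horb x.2).2 x.1, hch,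
        Function.iterate_succ_apply']
      ring
  exact congrFun (key n) m

end KX
end

section

/-!
# Symplectic transformations of formal series and the limit theorem
-/

set_option autoImplicit false

namespace KX

open scoped ENNReal

variable {V : Type} [DecidableEq V]

/-- `Φ` is a transformation from level `s` to level `s'`, `ep`-close to the identity, multiplicative,
real, and conjugates the derivation of `(w, p)` to that of `(w', p')`. -/
structure Tsf (G : Geo V) (rho s s' ep : ℝ) (w : V → ℝ) (p : Mon V → ℂ) (w' : V → ℝ)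
    (p' : Mon V → ℂ) (Φ : (Mon V → ℂ) → Mon V → ℂ) : Prop where
  near : ∀ g, nr (wm G rho s') (fun m => Φ g m - g m) ≤ ENNReal.ofReal ep * nr (wm G rho s) g
  add : ∀ g h, nr (wm G rho s) g ≠ ∞ → nr (wm G rho s) h ≠ ∞ →
    Φ (fun m => g m + h m) = fun m => Φ g m + Φ h m
  smul : ∀ (c : ℂ) g, Φ (fun m => c * g m) = fun m => c * Φ g m
  mul : ∀ g h, nr (wm G rho s) g ≠ ∞ → nr (wm G rho s) h ≠ ∞ → Φ (mulm g h) = mulm (Φ g) (Φ h)
  one : Φ (em 0) = em 0
  real : ∀ g, Φ (cj g) = cj (Φ g)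
  inter : ∀ g, nr (wm G rho s) g ≠ ∞ → nr (wm G rho s) (dl w p g) ≠ ∞ →
    dl w' p' (Φ g) = Φ (dl w p g)

theorem Tsf.refl (G : Geo V) (rho s ep : ℝ) (hep : 0 ≤ ep) (w : V → ℝ) (p : Mon V → ℂ) :
    Tsf G rho s s ep w p w p id where
  near := by
    intro g
    have : nr (wm G rho s) (fun m => id g m - g m) = 0 := by simp [nr]
    rw [this]
    exact bot_le
  add := fun g h _ _ => rfl
  smul := fun c g => rfl
  mul := fun g h _ _ => rfl
  one := rfl
  real := fun g => rfl
  inter := fun g _ _ => rfl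

theorem Tsf.nr_lvl_le (G : Geo V) {rho : ℝ} (hr : 0 < rho) {s s' : ℝ} (h : s ≤ s')
    (g : Mon V → ℂ) : nr (wm G rho s) g ≤ nr (wm G rho s') g :=
  nr_mono (fun m => wm_mono G rho hr h m) g

theorem Tsf.nr_le {G : Geo V} {rho s s' ep : ℝ} {w w' : V → ℝ}
    {p p' : Mon V → ℂ} {Φ : (Mon V → ℂ) → Mon V → ℂ} (hr : 0 < rho)
    (hs' : s' ≤ s) (h : Tsf G rho s s' ep w p w' p' Φ) (g : Mon V → ℂ) :
    nr (wm G rho s') (Φ g) ≤ nr (wm G rho s) g + ENNReal.ofReal ep * nr (wm G rho s) g := by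
  have e : (Φ g) = fun m => g m + (Φ g m - g m) := by funext m; ring
  calc nr (wm G rho s') (Φ g) = nr (wm G rho s') (fun m => g m + (Φ g m - g m)) := by rw [← e]
    _ ≤ nr (wm G rho s') g + nr (wm G rho s') (fun m => Φ g m - g m) := nr_add_le _ _ _
    _ ≤ _ := add_le_add (Tsf.nr_lvl_le G hr hs' g) (h.near g)

theorem Tsf.nr_ne_top {G : Geo V} {rho s s' ep : ℝ} {w w' : V → ℝ}
    {p p' : Mon V → ℂ} {Φ : (Mon V → ℂ) → Mon V → ℂ} (hr : 0 < rho)
    (hs' : s' ≤ s) (h : Tsf G rho s s' ep w p w' p' Φ) {g : Mon V → ℂ}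
    (hg : nr (wm G rho s) g ≠ ∞) : nr (wm G rho s') (Φ g) ≠ ∞ :=
  ne_top_of_le_ne_top (ENNReal.add_ne_top.2 ⟨hg, ENNReal.mul_ne_top ENNReal.ofReal_ne_top hg⟩)
    (h.nr_le hr hs' g)

theorem Tsf.comp {G : Geo V} {rho s s' s'' ep ep' : ℝ} {w w' w'' : V → ℝ}
    {p p' p'' : Mon V → ℂ} {Φ Φ' : (Mon V → ℂ) → Mon V → ℂ} (hr : 0 < rho) (hs : s'' ≤ s')
    (hs' : s' ≤ s)
    (hep : 0 ≤ ep) (hep' : 0 ≤ ep') (h : Tsf G rho s s' ep w p w' p' Φ)
    (h' : Tsf G rho s' s'' ep' w' p' w'' p'' Φ') :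
    Tsf G rho s s'' (ep' * (1 + ep) + ep) w p w'' p'' (Φ' ∘ Φ) where
  near := by
    intro g
    have e : (fun m => (Φ' ∘ Φ) g m - g m) =
        fun m => (Φ' (Φ g) m - Φ g m) + (Φ g m - g m) := by
      funext m
      simp only [Function.comp_apply]
      ring
    rw [e]
    calc nr (wm G rho s'') (fun m => (Φ' (Φ g) m - Φ g m) + (Φ g m - g m))
        ≤ nr (wm G rho s'') (fun m => Φ' (Φ g) m - Φ g m) +
          nr (wm G rho s'') (fun m => Φ g m - g m) := nr_add_le _ _ _
      _ ≤ ENNReal.ofReal ep' * (nr (wm G rho s) g + ENNReal.ofReal ep * nr (wm G rho s) g) +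
          ENNReal.ofReal ep * nr (wm G rho s) g := by
        apply add_le_add
        · exact (h'.near (Φ g)).trans (mul_le_mul_right (h.nr_le hr hs' g) _)
        · exact (Tsf.nr_lvl_le G hr hs _).trans (h.near g)
      _ = ENNReal.ofReal (ep' * (1 + ep) + ep) * nr (wm G rho s) g := by
        rw [ENNReal.ofReal_add (by positivity) hep, ENNReal.ofReal_mul hep',
          ENNReal.ofReal_add zero_le_one hep, ENNReal.ofReal_one]
        ring
  add := by
    intro g k hg hk
    simp only [Function.comp_apply]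
    rw [h.add g k hg hk, h'.add _ _ (h.nr_ne_top hr hs' hg) (h.nr_ne_top hr hs' hk)]
  smul := by
    intro c g
    simp only [Function.comp_apply]
    rw [h.smul, h'.smul]
  mul := by
    intro g k hg hk
    simp only [Function.comp_apply]
    rw [h.mul g k hg hk, h'.mul _ _ (h.nr_ne_top hr hs' hg) (h.nr_ne_top hr hs' hk)]
  one := by
    simp only [Function.comp_apply]
    rw [h.one, h'.one]
  real := by
    intro g
    simp only [Function.comp_apply]
    rw [h.real, h'.real]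
  inter := by
    intro g hg hd
    simp only [Function.comp_apply]
    have e := h.inter g hg hd
    rw [h'.inter (Φ g) (h.nr_ne_top hr hs' hg) (by rw [e]; exact h.nr_ne_top hr hs' hd), e]

/-- restriction to lower levels -/
theorem Tsf.mono {G : Geo V} {rho s s' ep ep' s2 s2' : ℝ} {w w' : V → ℝ} {p p' : Mon V → ℂ}
    {Φ : (Mon V → ℂ) → Mon V → ℂ} (hr : 0 < rho) (h : Tsf G rho s s' ep w p w' p' Φ) (hs : s ≤ s2)
    (hs' : s2' ≤ s') (hep : ep ≤ ep') : Tsf G rho s2 s2' ep' w p w' p' Φ := by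
  have hf : ∀ g : Mon V → ℂ, nr (wm G rho s2) g ≠ ∞ → nr (wm G rho s) g ≠ ∞ := fun g hg =>
    ne_top_of_le_ne_top hg (Tsf.nr_lvl_le G hr hs g)
  refine ⟨fun g => ?_, fun g k hg hk => h.add g k (hf g hg) (hf k hk), h.smul,
    fun g k hg hk => h.mul g k (hf g hg) (hf k hk), h.one, h.real,
    fun g hg hd => h.inter g (hf g hg) (hf _ hd)⟩
  calc nr (wm G rho s2') (fun m => Φ g m - g m) ≤ nr (wm G rho s') (fun m => Φ g m - g m) :=
        Tsf.nr_lvl_le G hr hs' _
    _ ≤ ENNReal.ofReal ep * nr (wm G rho s) g := h.near g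
    _ ≤ ENNReal.ofReal ep' * nr (wm G rho s2) g :=
      mul_le_mul' (ENNReal.ofReal_le_ofReal hep) (Tsf.nr_lvl_le G hr hs g)

end KX
end

section

/-!
# Symplectic transformations of formal series and the limit theorem
-/

set_option autoImplicit false
set_option linter.unusedSectionVars false

namespace KX

open scoped ENNReal

variable {V : Type} [DecidableEq V]

/-- restriction to `x = 0`: the Fourier coefficients -/
def at0 (g : Mon V → ℂ) : (V →₀ ℤ) → ℂ := fun k => g (0, k)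

/-- the part of degree at most one -/
noncomputable def le1 (p : Mon V → ℂ) : Mon V → ℂ := fun m => if dgr m.1 ≤ 1 then p m else 0

theorem dgr_le_one_of_tgt_Limc (j : V) (m1 m2 : Mon V) (k : V →₀ ℤ)
    (ht : tgt j m1 m2 = (0, k)) : dgr m2.1 ≤ 1 := by
  have h1 : m1.1 + m2.1 - Finsupp.single j 1 = 0 := congrArg Prod.fst ht
  have h2 : m2.1 ≤ Finsupp.single j 1 :=
    le_trans (le_add_of_nonneg_left bot_le) (tsub_eq_zero_iff_le.1 h1)
  have h3 : m2.1 = Finsupp.single j (m2.1 j) := by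
    ext i
    by_cases hi : j = i
    · subst hi; simp
    · have := h2 i
      rw [Finsupp.single_eq_of_ne (Ne.symm hi)] at this
      rw [Finsupp.single_eq_of_ne (Ne.symm hi)]
      omega
  have h4 : m2.1 j ≤ 1 := by
    have := h2 j
    rwa [Finsupp.single_eq_same] at this
  rw [h3]
  unfold dgr
  rw [Finsupp.sum_single_index rfl]
  exact h4

/-- at `x = 0` only the part of degree at most one of the perturbation acts -/
theorem at0_XX (p g : Mon V → ℂ) : at0 (XX p g) = at0 (XX (le1 p) g) := by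
  classical
  funext k
  unfold at0 XX push
  refine tsum_congr fun x => ?_
  by_cases h1 : tgt x.1 x.2.1 x.2.2 = (0, k)
  · simp only [if_pos h1]
    have h3 := dgr_le_one_of_tgt_Limc x.1 x.2.1 x.2.2 k h1
    have h4 : le1 p x.2.2 = p x.2.2 := if_pos h3
    rw [h4]
  · simp only [if_neg h1]

/-- Fourier norm `∑_k |g_k| e^{s |k|}` -/
noncomputable def nf (s : ℝ) (g : (V →₀ ℤ) → ℂ) : ℝ≥0∞ :=
  ∑' k, ‖g k‖ₑ * ENNReal.ofReal (Real.exp (s * kab k))

theorem nf_at0_le (G : Geo V) (rho s : ℝ) (g : Mon V → ℂ) : nf s (at0 g) ≤ nr (wm G rho s) g := by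
  have hinj : Function.Injective (fun k : V →₀ ℤ => ((0, k) : Mon V)) := by
    intro a b hab
    exact congrArg Prod.snd hab
  have h1 := ENNReal.tsum_comp_le_tsum_of_injective hinj (fun m => ‖g m‖ₑ * wm G rho s m)
  refine le_trans (le_of_eq ?_) h1
  unfold nf at0
  refine tsum_congr fun k => ?_
  have h2 : wm G rho s ((0, k) : Mon V) = ENNReal.ofReal (Real.exp (s * kab k)) := by
    unfold wm
    congr 1
    have h3 : dgr (0 : V →₀ ℕ) = 0 := by unfold dgr; exact Finsupp.sum_zero_index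
    have h4 : amn G.a (0 : V →₀ ℕ) = 1 := by unfold amn; exact Finsupp.prod_zero_index
    have h5 : NM ((0, k) : Mon V) = kab k := by
      unfold NM
      rw [h3, zero_add]
    rw [h5]
    simp only [h3, h4, pow_zero, one_mul]
  rw [h2]

/-- Fourier product -/
noncomputable def mulf (g h : (V →₀ ℤ) → ℂ) : (V →₀ ℤ) → ℂ :=
  push (fun x : (V →₀ ℤ) × (V →₀ ℤ) => x.1 + x.2) fun x => g x.1 * h x.2

theorem at0_mulm (g h : Mon V → ℂ) : at0 (mulm g h) = mulf (at0 g) (at0 h) := by
  classical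
  funext k
  unfold at0 mulm mulf push
  have hinj : Function.Injective
      (fun y : (V →₀ ℤ) × (V →₀ ℤ) => (((0, y.1), (0, y.2)) : Mon V × Mon V)) := by
    intro a b hab
    have h1 := congrArg (fun z : Mon V × Mon V => z.1.2) hab
    have h2 := congrArg (fun z : Mon V × Mon V => z.2.2) hab
    exact Prod.ext h1 h2
  refine (hinj.tsum_eq
    (f := fun x : Mon V × Mon V => @ite ℂ (x.1 + x.2 = (0, k)) (Classical.propDecidable _)
      (g x.1 * h x.2) 0) ?_).symm.trans
    (tsum_congr fun y => ?_)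
  rotate_left
  · simp only
    have h1 : (((0, y.1) : Mon V) + (0, y.2) = (0, k)) ↔ (y.1 + y.2 = k) := by
      rw [Prod.mk_add_mk, Prod.ext_iff]
      simp
    by_cases h2 : y.1 + y.2 = k
    · rw [if_pos h2, if_pos (h1.2 h2)]
    · rw [if_neg h2, if_neg (fun h3 => h2 (h1.1 h3))]
  · intro x hx
    have h1 : x.1 + x.2 = (0, k) := by
      by_contra h2
      exact hx (if_neg h2)
    have h2 : x.1.1 + x.2.1 = 0 := congrArg Prod.fst h1
    have h3 : x.1.1 = 0 ∧ x.2.1 = 0 := by
      constructor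
      · ext i
        have := DFunLike.congr_fun h2 i
        rw [Finsupp.add_apply, Finsupp.zero_apply] at this
        rw [Finsupp.zero_apply]
        omega
      · ext i
        have := DFunLike.congr_fun h2 i
        rw [Finsupp.add_apply, Finsupp.zero_apply] at this
        rw [Finsupp.zero_apply]
        omega
    exact ⟨(x.1.2, x.2.2), Prod.ext (Prod.ext h3.1.symm rfl) (Prod.ext h3.2.symm rfl)⟩

end KX
end
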