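import Pool.Agent.Lib.MP_73c19a_an.Mg.G008
import Pool.Agent.Lib.MP_73c19a_an.Mg.G001
import Pool.Agent.Lib.MP_73c19a_an.Mg.G002

section

/-!
# Taylor-Fourier expansion of an interaction: derivatives term by term

At real points. Differentiate the series along the real line in one variable
(`hasDerivAt_tsum_of_isPreconnected` on `|x| < ρ < R1`, `hasDerivAt_tsum` for the angles, majorants
from `majorant_summable` with `e = 1`), compare with the complex derivative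
(`HasDerivAt.comp_ofReal`, uniqueness of the derivative); `f` is differentiable in each variable by
`AP.an`.
-/

set_option autoImplicit false

namespace KamLattice

open scoped Topology

/-- differentiation of a series of functions of a real variable, compared with the complex
derivative of the sum -/
theorem core_expf {ι : Type} (F : ℂ → ℂ) (p x : ℝ) (t : Set ℝ) (ht : IsOpen t)
    (hc : IsPreconnected t) (hx : x ∈ t) (g g' : ι → ℝ → ℂ) (u : ι → ℝ) (hu : Summable u)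
    (hg : ∀ n, ∀ y ∈ t, HasDerivAt (g n) (g' n y) y) (hg' : ∀ n, ∀ y ∈ t, ‖g' n y‖ ≤ u n)
    (hsum : ∀ y ∈ t, HasSum (fun n => g n y) (F (p + y : ℝ)))
    (hF : DifferentiableAt ℂ F ((p + x : ℝ) : ℂ)) :
    HasSum (fun n => g' n x) (deriv F ((p + x : ℝ) : ℂ)) := by
  have hd := hasDerivAt_tsum_of_isPreconnected hu ht hc hg hg' hx (hsum x hx).summable hx
  have heq : (fun z : ℝ => F ((p + z : ℝ) : ℂ)) =ᶠ[𝓝 x] fun z => ∑' n, g n z := by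
    filter_upwards [ht.mem_nhds hx] with z hz
    exact (hsum z hz).tsum_eq.symm
  have h1 : HasDerivAt (fun z : ℝ => F ((p + z : ℝ) : ℂ)) (∑' n, g' n x) x :=
    hd.congr_of_eventuallyEq heq
  have h2 : HasDerivAt (fun z : ℝ => F ((p + z : ℝ) : ℂ)) (deriv F ((p + x : ℝ) : ℂ)) x :=
    (hF.hasDerivAt.comp_ofReal).comp_const_add p x
  rw [← h1.unique h2]
  exact (Summable.of_norm_bounded hu (fun n => hg' n x hx)).hasSum

theorem norm_ex_expf (k l : ℤ) (φ ψ : ℝ) :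
    ‖Complex.exp (Complex.I * ((k : ℂ) * φ + (l : ℂ) * ψ))‖ = 1 := by
  have h : Complex.I * ((k : ℂ) * φ + (l : ℂ) * ψ) = ((k * φ + l * ψ : ℝ) : ℂ) * Complex.I := by
    push_cast
    ring
  rw [h, Complex.norm_exp_ofReal_mul_I]

theorem K_nonneg_expf {c : ℕ × ℕ × ℤ × ℤ → ℂ} {K R1 R2 s' : ℝ} (hc : CB c K R1 R2 s') : 0 ≤ K := by
  have h := (norm_nonneg _).trans (hc 0 0 0 0)
  simpa using h

theorem mem_Dom_expf {r s s' p1 p2 R1 R2 x y : ℝ} (φ ψ : ℝ) (hp10 : 0 ≤ p1) (hp20 : 0 ≤ p2)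
    (hs' : 0 < s') (hs : s' < s) (h1 : p1 + R1 < r) (h2 : p2 + R2 < r) (hx : |x| < R1)
    (hy : |y| < R2) :
    (((p1 + x : ℝ) : ℂ), ((p2 + y : ℝ) : ℂ), (φ : ℂ), (ψ : ℂ)) ∈ Dom r s := by
  have hs0 : 0 < s := hs'.trans hs
  refine ⟨?_, ?_, ?_, ?_⟩
  · show ‖((p1 + x : ℝ) : ℂ)‖ < r
    rw [Complex.norm_real, Real.norm_eq_abs]
    have h3 := abs_add_le p1 x
    rw [abs_of_nonneg hp10] at h3
    linarith
  · show ‖((p2 + y : ℝ) : ℂ)‖ < r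
    rw [Complex.norm_real, Real.norm_eq_abs]
    have h3 := abs_add_le p2 y
    rw [abs_of_nonneg hp20] at h3
    linarith
  · show |(φ : ℂ).im| < s
    rw [Complex.ofReal_im, abs_zero]
    exact hs0
  · show |(ψ : ℂ).im| < s
    rw [Complex.ofReal_im, abs_zero]
    exact hs0

/-- bound of one term of the differentiated series -/
theorem term_bound_expf {K R1 R2 s' ρ z w : ℝ} (hK : 0 ≤ K) (hR1 : 0 < R1) (hR2 : 0 < R2)
    (hρ : 0 < ρ) (n m : ℕ) (E : ℝ) (hE : 0 ≤ E) (k1 k2 : ℝ) (hk1 : 0 ≤ k1) (hk2 : 0 ≤ k2)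
    (hz : |z| ≤ ρ) (cn : ℝ) (hcn0 : 0 ≤ cn) (hcn : cn ≤ K / (R1 ^ n * R2 ^ m) * E) :
    (n : ℝ) * cn * |z| ^ (n - 1) * |w| ^ m ≤
      ρ⁻¹ * (K / (R1 ^ n * R2 ^ m) * E * ρ ^ n * |w| ^ m * (1 + n + m + k1 + k2) ^ 1) := by
  have hB : 0 ≤ K / (R1 ^ n * R2 ^ m) * E := by positivity
  have hw : 0 ≤ |w| ^ m := pow_nonneg (abs_nonneg _) _
  rcases Nat.eq_zero_or_pos n with rfl | hn
  · have h0 : (0 : ℝ) ≤ ρ⁻¹ * (K / (R1 ^ 0 * R2 ^ m) * E * ρ ^ 0 * |w| ^ m *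
        (1 + ((0 : ℕ) : ℝ) + m + k1 + k2) ^ 1) := by positivity
    simpa using h0
  · obtain ⟨l, rfl⟩ : ∃ l, n = l + 1 := ⟨n - 1, by omega⟩
    have hl : l + 1 - 1 = l := by omega
    rw [hl]
    have hzl : |z| ^ l ≤ ρ ^ l := pow_le_pow_left₀ (abs_nonneg _) hz l
    have e1 : ρ⁻¹ * (K / (R1 ^ (l + 1) * R2 ^ m) * E * ρ ^ (l + 1) * |w| ^ m *
        (1 + ((l + 1 : ℕ) : ℝ) + m + k1 + k2) ^ 1) =
        K / (R1 ^ (l + 1) * R2 ^ m) * E * ρ ^ l * |w| ^ m *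
        (1 + ((l + 1 : ℕ) : ℝ) + m + k1 + k2) := by
      rw [pow_succ ρ l, pow_one]
      field_simp
    rw [e1]
    have hm0 : (0 : ℝ) ≤ m := Nat.cast_nonneg m
    have hn0 : (0 : ℝ) ≤ ((l + 1 : ℕ) : ℝ) := Nat.cast_nonneg _
    calc ((l + 1 : ℕ) : ℝ) * cn * |z| ^ l * |w| ^ m
        ≤ (1 + ((l + 1 : ℕ) : ℝ) + m + k1 + k2) * (K / (R1 ^ (l + 1) * R2 ^ m) * E) * ρ ^ l *
          |w| ^ m := by
          gcongr
          linarith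
      _ = _ := by ring

theorem deriv_act1 (f : ℂ × ℂ × ℂ × ℂ → ℂ) (r s : ℝ) (hf : AP r s f)
    (p1 p2 R1 R2 s' K : ℝ) (hp10 : 0 ≤ p1) (hp20 : 0 ≤ p2) (hR1 : 0 < R1) (hR2 : 0 < R2)
    (hs' : 0 < s') (hs : s' < s) (h1 : p1 + R1 < r) (h2 : p2 + R2 < r)
    (c : ℕ × ℕ × ℤ × ℤ → ℂ) (hc : CB c K R1 R2 s')
    (hsum : ∀ x y φ ψ : ℝ, |x| < R1 → |y| < R2 →
      HasSum (term4 c x y φ ψ) (f ((p1 + x : ℝ), (p2 + y : ℝ), φ, ψ)))
    (x y φ ψ : ℝ) (hx : |x| < R1) (hy : |y| < R2) :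
    HasSum (fun a : ℕ × ℕ × ℤ × ℤ => (a.1 : ℂ) * c a * (x : ℂ) ^ (a.1 - 1) * (y : ℂ) ^ a.2.1 *
        Complex.exp (Complex.I * (a.2.2.1 * φ + a.2.2.2 * ψ)))
      (deriv (fun z : ℂ => f (z, (p2 + y : ℝ), φ, ψ)) (p1 + x : ℝ)) := by
  obtain ⟨ρ, hρ1, hρ2⟩ := exists_between hx
  have hρ0 : 0 < ρ := lt_of_le_of_lt (abs_nonneg x) hρ1
  have hK : 0 ≤ K := K_nonneg_expf hc
  have hF : DifferentiableAt ℂ (fun z : ℂ => f (z, (p2 + y : ℝ), φ, ψ)) ((p1 + x : ℝ) : ℂ) := by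
    have h3 := (hf.an _ (mem_Dom_expf φ ψ hp10 hp20 hs' hs h1 h2 hx hy)).differentiableAt
    exact h3.comp (((p1 + x : ℝ)) : ℂ) (f := fun z : ℂ => (z, ((p2 + y : ℝ) : ℂ), (φ : ℂ), (ψ : ℂ)))
      (by fun_prop)
  have hu : Summable fun a : ℕ × ℕ × ℤ × ℤ => ρ⁻¹ * (K / (R1 ^ a.1 * R2 ^ a.2.1) *
      Real.exp (-s' * (|(a.2.2.1 : ℝ)| + |(a.2.2.2 : ℝ)|)) * ρ ^ a.1 * |y| ^ a.2.1 *
      (1 + a.1 + a.2.1 + |(a.2.2.1 : ℝ)| + |(a.2.2.2 : ℝ)|) ^ 1) :=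
    (majorant_summable K R1 R2 s' ρ |y| hR1 hR2 hs' hρ0.le hρ2 (abs_nonneg y) hy 1).mul_left _
  refine core_expf (fun z : ℂ => f (z, (p2 + y : ℝ), φ, ψ)) p1 x (Set.Ioo (-ρ) ρ) isOpen_Ioo
    isPreconnected_Ioo (abs_lt.1 hρ1) (fun a x => term4 c x y φ ψ a)
    (fun a x => (a.1 : ℂ) * c a * (x : ℂ) ^ (a.1 - 1) * (y : ℂ) ^ a.2.1 *
        Complex.exp (Complex.I * (a.2.2.1 * φ + a.2.2.2 * ψ))) _ hu ?_ ?_ ?_ hF
  · intro a x' _
    have h3 : HasDerivAt (fun z : ℂ => c a * z ^ a.1 * (y : ℂ) ^ a.2.1 *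
        Complex.exp (Complex.I * (a.2.2.1 * φ + a.2.2.2 * ψ)))
        (c a * ((a.1 : ℂ) * (x' : ℂ) ^ (a.1 - 1)) * (y : ℂ) ^ a.2.1 *
        Complex.exp (Complex.I * (a.2.2.1 * φ + a.2.2.2 * ψ))) (x' : ℂ) :=
      (((hasDerivAt_pow a.1 (x' : ℂ)).const_mul (c a)).mul_const _).mul_const _
    have h4 := h3.comp_ofReal
    have h5 : (a.1 : ℂ) * c a * (x' : ℂ) ^ (a.1 - 1) * (y : ℂ) ^ a.2.1 *
        Complex.exp (Complex.I * (a.2.2.1 * φ + a.2.2.2 * ψ)) =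
        c a * ((a.1 : ℂ) * (x' : ℂ) ^ (a.1 - 1)) * (y : ℂ) ^ a.2.1 *
        Complex.exp (Complex.I * (a.2.2.1 * φ + a.2.2.2 * ψ)) := by ring
    rw [h5]
    exact h4
  · rintro ⟨n, m, k, l⟩ x' hx'
    simp only [norm_mul, norm_pow, Complex.norm_real, Real.norm_eq_abs, norm_ex_expf, mul_one,
      Complex.norm_natCast]
    exact term_bound_expf (s' := s') hK hR1 hR2 hρ0 n m _ (Real.exp_pos _).le _ _ (abs_nonneg _)
      (abs_nonneg _) (abs_lt.2 hx').le _ (norm_nonneg _) (hc n m k l)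
  · intro x' hx'
    exact hsum x' y φ ψ ((abs_lt.2 hx').trans hρ2) hy

theorem deriv_act2 (f : ℂ × ℂ × ℂ × ℂ → ℂ) (r s : ℝ) (hf : AP r s f)
    (p1 p2 R1 R2 s' K : ℝ) (hp10 : 0 ≤ p1) (hp20 : 0 ≤ p2) (hR1 : 0 < R1) (hR2 : 0 < R2)
    (hs' : 0 < s') (hs : s' < s) (h1 : p1 + R1 < r) (h2 : p2 + R2 < r)
    (c : ℕ × ℕ × ℤ × ℤ → ℂ) (hc : CB c K R1 R2 s')
    (hsum : ∀ x y φ ψ : ℝ, |x| < R1 → |y| < R2 →
      HasSum (term4 c x y φ ψ) (f ((p1 + x : ℝ), (p2 + y : ℝ), φ, ψ)))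
    (x y φ ψ : ℝ) (hx : |x| < R1) (hy : |y| < R2) :
    HasSum (fun a : ℕ × ℕ × ℤ × ℤ => (a.2.1 : ℂ) * c a * (x : ℂ) ^ a.1 * (y : ℂ) ^ (a.2.1 - 1) *
        Complex.exp (Complex.I * (a.2.2.1 * φ + a.2.2.2 * ψ)))
      (deriv (fun z : ℂ => f ((p1 + x : ℝ), z, φ, ψ)) (p2 + y : ℝ)) := by
  obtain ⟨ρ, hρ1, hρ2⟩ := exists_between hy
  have hρ0 : 0 < ρ := lt_of_le_of_lt (abs_nonneg y) hρ1
  have hK : 0 ≤ K := K_nonneg_expf hc
  have hF : DifferentiableAt ℂ (fun z : ℂ => f ((p1 + x : ℝ), z, φ, ψ)) ((p2 + y : ℝ) : ℂ) := by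
    have h3 := (hf.an _ (mem_Dom_expf φ ψ hp10 hp20 hs' hs h1 h2 hx hy)).differentiableAt
    exact h3.comp (((p2 + y : ℝ)) : ℂ) (f := fun z : ℂ => (((p1 + x : ℝ) : ℂ), z, (φ : ℂ), (ψ : ℂ)))
      (by fun_prop)
  have hu : Summable fun a : ℕ × ℕ × ℤ × ℤ => ρ⁻¹ * (K / (R1 ^ a.1 * R2 ^ a.2.1) *
      Real.exp (-s' * (|(a.2.2.1 : ℝ)| + |(a.2.2.2 : ℝ)|)) * |x| ^ a.1 * ρ ^ a.2.1 *
      (1 + a.1 + a.2.1 + |(a.2.2.1 : ℝ)| + |(a.2.2.2 : ℝ)|) ^ 1) :=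
    (majorant_summable K R1 R2 s' |x| ρ hR1 hR2 hs' (abs_nonneg x) hx hρ0.le hρ2 1).mul_left _
  refine core_expf (fun z : ℂ => f ((p1 + x : ℝ), z, φ, ψ)) p2 y (Set.Ioo (-ρ) ρ) isOpen_Ioo
    isPreconnected_Ioo (abs_lt.1 hρ1) (fun a y => term4 c x y φ ψ a)
    (fun a y => (a.2.1 : ℂ) * c a * (x : ℂ) ^ a.1 * (y : ℂ) ^ (a.2.1 - 1) *
        Complex.exp (Complex.I * (a.2.2.1 * φ + a.2.2.2 * ψ))) _ hu ?_ ?_ ?_ hF
  · intro a y' _
    have h3 : HasDerivAt (fun z : ℂ => c a * (x : ℂ) ^ a.1 * z ^ a.2.1 *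
        Complex.exp (Complex.I * (a.2.2.1 * φ + a.2.2.2 * ψ)))
        (c a * (x : ℂ) ^ a.1 * ((a.2.1 : ℂ) * (y' : ℂ) ^ (a.2.1 - 1)) *
        Complex.exp (Complex.I * (a.2.2.1 * φ + a.2.2.2 * ψ))) (y' : ℂ) :=
      ((hasDerivAt_pow a.2.1 (y' : ℂ)).const_mul (c a * (x : ℂ) ^ a.1)).mul_const _
    have h4 := h3.comp_ofReal
    have h5 : (a.2.1 : ℂ) * c a * (x : ℂ) ^ a.1 * (y' : ℂ) ^ (a.2.1 - 1) *
        Complex.exp (Complex.I * (a.2.2.1 * φ + a.2.2.2 * ψ)) =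
        c a * (x : ℂ) ^ a.1 * ((a.2.1 : ℂ) * (y' : ℂ) ^ (a.2.1 - 1)) *
        Complex.exp (Complex.I * (a.2.2.1 * φ + a.2.2.2 * ψ)) := by ring
    rw [h5]
    exact h4
  · rintro ⟨n, m, k, l⟩ y' hy'
    simp only [norm_mul, norm_pow, Complex.norm_real, Real.norm_eq_abs, norm_ex_expf, mul_one,
      Complex.norm_natCast]
    have h3 := term_bound_expf (s' := s') (w := x) hK hR2 hR1 hρ0 m n _
      (Real.exp_pos (-s' * (|(k : ℝ)| + |(l : ℝ)|))).le _ _ (abs_nonneg (k : ℝ))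
      (abs_nonneg (l : ℝ)) (abs_lt.2 hy').le _ (norm_nonneg (c (n, m, k, l)))
      (by rw [mul_comm (R2 ^ m)]; exact hc n m k l)
    calc (m : ℝ) * ‖c (n, m, k, l)‖ * |x| ^ n * |y'| ^ (m - 1)
        = (m : ℝ) * ‖c (n, m, k, l)‖ * |y'| ^ (m - 1) * |x| ^ n := by ring
      _ ≤ _ := h3
      _ = _ := by ring
  · intro y' hy'
    exact hsum x y' φ ψ hx ((abs_lt.2 hy').trans hρ2)

end KamLattice
end

section

/-!
# Taylor-Fourier expansion of an interaction: angle derivatives term by term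

As in `Expf.lean` (same hypotheses), for the angles: `hasDerivAt_tsum` with a majorant uniform in the
angle (`majorant_summable` with `e = 1`).
-/

set_option autoImplicit false

namespace KamLattice

open scoped Topology

/-- differentiation of a series of functions of a real variable, compared with the complex
derivative of the sum -/
theorem core_expg {ι : Type} (F : ℂ → ℂ) (p x : ℝ) (t : Set ℝ) (ht : IsOpen t)
    (hc : IsPreconnected t) (hx : x ∈ t) (g g' : ι → ℝ → ℂ) (u : ι → ℝ) (hu : Summable u)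
    (hg : ∀ n, ∀ y ∈ t, HasDerivAt (g n) (g' n y) y) (hg' : ∀ n, ∀ y ∈ t, ‖g' n y‖ ≤ u n)
    (hsum : ∀ y ∈ t, HasSum (fun n => g n y) (F (p + y : ℝ)))
    (hF : DifferentiableAt ℂ F ((p + x : ℝ) : ℂ)) :
    HasSum (fun n => g' n x) (deriv F ((p + x : ℝ) : ℂ)) := by
  have hd := hasDerivAt_tsum_of_isPreconnected hu ht hc hg hg' hx (hsum x hx).summable hx
  have heq : (fun z : ℝ => F ((p + z : ℝ) : ℂ)) =ᶠ[𝓝 x] fun z => ∑' n, g n z := by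
    filter_upwards [ht.mem_nhds hx] with z hz
    exact (hsum z hz).tsum_eq.symm
  have h1 : HasDerivAt (fun z : ℝ => F ((p + z : ℝ) : ℂ)) (∑' n, g' n x) x :=
    hd.congr_of_eventuallyEq heq
  have h2 : HasDerivAt (fun z : ℝ => F ((p + z : ℝ) : ℂ)) (deriv F ((p + x : ℝ) : ℂ)) x :=
    (hF.hasDerivAt.comp_ofReal).comp_const_add p x
  rw [← h1.unique h2]
  exact (Summable.of_norm_bounded hu (fun n => hg' n x hx)).hasSum

theorem norm_ex_expg (k l : ℤ) (φ ψ : ℝ) :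
    ‖Complex.exp (Complex.I * ((k : ℂ) * φ + (l : ℂ) * ψ))‖ = 1 := by
  have h : Complex.I * ((k : ℂ) * φ + (l : ℂ) * ψ) = ((k * φ + l * ψ : ℝ) : ℂ) * Complex.I := by
    push_cast
    ring
  rw [h, Complex.norm_exp_ofReal_mul_I]

theorem K_nonneg_expg {c : ℕ × ℕ × ℤ × ℤ → ℂ} {K R1 R2 s' : ℝ} (hc : CB c K R1 R2 s') : 0 ≤ K := by
  have h := (norm_nonneg _).trans (hc 0 0 0 0)
  simpa using h

theorem mem_Dom_expg {r s s' p1 p2 R1 R2 x y : ℝ} (φ ψ : ℝ) (hp10 : 0 ≤ p1) (hp20 : 0 ≤ p2)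
    (hs' : 0 < s') (hs : s' < s) (h1 : p1 + R1 < r) (h2 : p2 + R2 < r) (hx : |x| < R1)
    (hy : |y| < R2) :
    (((p1 + x : ℝ) : ℂ), ((p2 + y : ℝ) : ℂ), (φ : ℂ), (ψ : ℂ)) ∈ Dom r s := by
  have hs0 : 0 < s := hs'.trans hs
  refine ⟨?_, ?_, ?_, ?_⟩
  · show ‖((p1 + x : ℝ) : ℂ)‖ < r
    rw [Complex.norm_real, Real.norm_eq_abs]
    have h3 := abs_add_le p1 x
    rw [abs_of_nonneg hp10] at h3
    linarith
  · show ‖((p2 + y : ℝ) : ℂ)‖ < r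
    rw [Complex.norm_real, Real.norm_eq_abs]
    have h3 := abs_add_le p2 y
    rw [abs_of_nonneg hp20] at h3
    linarith
  · show |(φ : ℂ).im| < s
    rw [Complex.ofReal_im, abs_zero]
    exact hs0
  · show |(ψ : ℂ).im| < s
    rw [Complex.ofReal_im, abs_zero]
    exact hs0

/-- bound of one term of the differentiated series -/
theorem term_bound_expg {K R1 R2 : ℝ} (hK : 0 ≤ K) (hR1 : 0 < R1) (hR2 : 0 < R2)
    {x y : ℝ} (n m : ℕ) (E : ℝ) (hE : 0 ≤ E) (k1 k2 k : ℝ) (hk0 : 0 ≤ k) (hk : k ≤ k1 + k2)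
    (cn : ℝ) (hcn : cn ≤ K / (R1 ^ n * R2 ^ m) * E) :
    k * (cn * |x| ^ n * |y| ^ m) ≤
      K / (R1 ^ n * R2 ^ m) * E * |x| ^ n * |y| ^ m * (1 + n + m + k1 + k2) ^ 1 := by
  have hB : 0 ≤ K / (R1 ^ n * R2 ^ m) * E := by positivity
  have hm0 : (0 : ℝ) ≤ m := Nat.cast_nonneg m
  have hn0 : (0 : ℝ) ≤ n := Nat.cast_nonneg n
  rw [pow_one, mul_comm]
  gcongr
  linarith

theorem deriv_ang1 (f : ℂ × ℂ × ℂ × ℂ → ℂ) (r s : ℝ) (hf : AP r s f)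
    (p1 p2 R1 R2 s' K : ℝ) (hp10 : 0 ≤ p1) (hp20 : 0 ≤ p2) (hR1 : 0 < R1) (hR2 : 0 < R2)
    (hs' : 0 < s') (hs : s' < s) (h1 : p1 + R1 < r) (h2 : p2 + R2 < r)
    (c : ℕ × ℕ × ℤ × ℤ → ℂ) (hc : CB c K R1 R2 s')
    (hsum : ∀ x y φ ψ : ℝ, |x| < R1 → |y| < R2 →
      HasSum (term4 c x y φ ψ) (f ((p1 + x : ℝ), (p2 + y : ℝ), φ, ψ)))
    (x y φ ψ : ℝ) (hx : |x| < R1) (hy : |y| < R2) :
    HasSum (fun a : ℕ × ℕ × ℤ × ℤ => Complex.I * (a.2.2.1 : ℂ) * term4 c x y φ ψ a)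
      (deriv (fun z : ℂ => f ((p1 + x : ℝ), (p2 + y : ℝ), z, ψ)) φ) := by
  have hK : 0 ≤ K := K_nonneg_expg hc
  have hF : DifferentiableAt ℂ (fun z : ℂ => f ((p1 + x : ℝ), (p2 + y : ℝ), z, ψ)) ((0 + φ : ℝ) : ℂ) := by
    rw [zero_add]
    have h3 := (hf.an _ (mem_Dom_expg φ ψ hp10 hp20 hs' hs h1 h2 hx hy)).differentiableAt
    exact h3.comp (φ : ℂ) (f := fun z : ℂ => (((p1 + x : ℝ) : ℂ), ((p2 + y : ℝ) : ℂ), z, (ψ : ℂ)))
      (by fun_prop)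
  have hu := majorant_summable K R1 R2 s' |x| |y| hR1 hR2 hs' (abs_nonneg x) hx (abs_nonneg y) hy 1
  have key := core_expg (fun z : ℂ => f ((p1 + x : ℝ), (p2 + y : ℝ), z, ψ)) 0 φ Set.univ isOpen_univ
    isPreconnected_univ (Set.mem_univ _) (fun a v => term4 c x y v ψ a)
    (fun a v => Complex.I * (a.2.2.1 : ℂ) * term4 c x y v ψ a) _ hu ?_ ?_ ?_ hF
  · rwa [zero_add] at key
  · intro a v _
    have h3 : HasDerivAt (fun z : ℂ => a.2.2.1 * z + a.2.2.2 * ψ)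
        (a.2.2.1 : ℂ) (v : ℂ) := by
      have h := ((hasDerivAt_id (v : ℂ)).const_mul (a.2.2.1 : ℂ)).add_const
        ((a.2.2.2 : ℂ) * (ψ : ℂ))
      rw [mul_one] at h
      exact h
    have h4 := ((h3.const_mul Complex.I).cexp).const_mul
      (c a * (x : ℂ) ^ a.1 * (y : ℂ) ^ a.2.1)
    have h5 := h4.comp_ofReal
    have h6 : Complex.I * (a.2.2.1 : ℂ) * term4 c x y v ψ a =
        c a * (x : ℂ) ^ a.1 * (y : ℂ) ^ a.2.1 * (Complex.exp (Complex.I *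
          (a.2.2.1 * v + a.2.2.2 * ψ)) * (Complex.I * (a.2.2.1 : ℂ))) := by
      unfold term4
      ring
    rw [h6]
    exact h5
  · rintro ⟨n, m, k, l⟩ v _
    unfold term4
    simp only [norm_mul, norm_pow, Complex.norm_real, Real.norm_eq_abs, norm_ex_expg, mul_one,
      Complex.norm_I, one_mul, Complex.norm_intCast]
    exact term_bound_expg hK hR1 hR2 n m _ (Real.exp_pos _).le _ _ _ (abs_nonneg (k : ℝ)) (by linarith [abs_nonneg (l : ℝ)]) _ (hc n m k l)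
  · intro v _
    rw [zero_add]
    exact hsum x y v ψ hx hy

theorem deriv_ang2 (f : ℂ × ℂ × ℂ × ℂ → ℂ) (r s : ℝ) (hf : AP r s f)
    (p1 p2 R1 R2 s' K : ℝ) (hp10 : 0 ≤ p1) (hp20 : 0 ≤ p2) (hR1 : 0 < R1) (hR2 : 0 < R2)
    (hs' : 0 < s') (hs : s' < s) (h1 : p1 + R1 < r) (h2 : p2 + R2 < r)
    (c : ℕ × ℕ × ℤ × ℤ → ℂ) (hc : CB c K R1 R2 s')
    (hsum : ∀ x y φ ψ : ℝ, |x| < R1 → |y| < R2 →
      HasSum (term4 c x y φ ψ) (f ((p1 + x : ℝ), (p2 + y : ℝ), φ, ψ)))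
    (x y φ ψ : ℝ) (hx : |x| < R1) (hy : |y| < R2) :
    HasSum (fun a : ℕ × ℕ × ℤ × ℤ => Complex.I * (a.2.2.2 : ℂ) * term4 c x y φ ψ a)
      (deriv (fun z : ℂ => f ((p1 + x : ℝ), (p2 + y : ℝ), φ, z)) ψ) := by
  have hK : 0 ≤ K := K_nonneg_expg hc
  have hF : DifferentiableAt ℂ (fun z : ℂ => f ((p1 + x : ℝ), (p2 + y : ℝ), φ, z)) ((0 + ψ : ℝ) : ℂ) := by
    rw [zero_add]
    have h3 := (hf.an _ (mem_Dom_expg φ ψ hp10 hp20 hs' hs h1 h2 hx hy)).differentiableAt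
    exact h3.comp (ψ : ℂ) (f := fun z : ℂ => (((p1 + x : ℝ) : ℂ), ((p2 + y : ℝ) : ℂ), (φ : ℂ), z))
      (by fun_prop)
  have hu := majorant_summable K R1 R2 s' |x| |y| hR1 hR2 hs' (abs_nonneg x) hx (abs_nonneg y) hy 1
  have key := core_expg (fun z : ℂ => f ((p1 + x : ℝ), (p2 + y : ℝ), φ, z)) 0 ψ Set.univ isOpen_univ
    isPreconnected_univ (Set.mem_univ _) (fun a v => term4 c x y φ v a)
    (fun a v => Complex.I * (a.2.2.2 : ℂ) * term4 c x y φ v a) _ hu ?_ ?_ ?_ hF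
  · rwa [zero_add] at key
  · intro a v _
    have h3 : HasDerivAt (fun z : ℂ => a.2.2.1 * φ + a.2.2.2 * z)
        (a.2.2.2 : ℂ) (v : ℂ) := by
      have h := ((hasDerivAt_id (v : ℂ)).const_mul (a.2.2.2 : ℂ)).const_add
        ((a.2.2.1 : ℂ) * (φ : ℂ))
      rw [mul_one] at h
      exact h
    have h4 := ((h3.const_mul Complex.I).cexp).const_mul
      (c a * (x : ℂ) ^ a.1 * (y : ℂ) ^ a.2.1)
    have h5 := h4.comp_ofReal
    have h6 : Complex.I * (a.2.2.2 : ℂ) * term4 c x y φ v a =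
        c a * (x : ℂ) ^ a.1 * (y : ℂ) ^ a.2.1 * (Complex.exp (Complex.I *
          (a.2.2.1 * φ + a.2.2.2 * v)) * (Complex.I * (a.2.2.2 : ℂ))) := by
      unfold term4
      ring
    rw [h6]
    exact h5
  · rintro ⟨n, m, k, l⟩ v _
    unfold term4
    simp only [norm_mul, norm_pow, Complex.norm_real, Real.norm_eq_abs, norm_ex_expg, mul_one,
      Complex.norm_I, one_mul, Complex.norm_intCast]
    exact term_bound_expg hK hR1 hR2 n m _ (Real.exp_pos _).le _ _ _ (abs_nonneg (l : ℝ)) (by linarith [abs_nonneg (k : ℝ)]) _ (hc n m k l)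
  · intro v _
    rw [zero_add]
    exact hsum x y φ v hx hy

end KamLattice
end

section

/-!
# Taylor-Fourier expansion of an interaction

`expand_main`: coefficients `c (n1, n2, k1, k2)` with the Cauchy bounds, the reality symmetry, and
absolutely convergent series for `f` and its four first derivatives at real points.
-/

set_option autoImplicit false

namespace KamLattice

theorem expand_main (f : ℂ × ℂ × ℂ × ℂ → ℂ) (r s : ℝ) (hf : AnalyticOnNhd ℂ f (Dom r s))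
    (hp1 : ∀ x y φ ψ : ℂ, (x, y, φ, ψ) ∈ Dom r s → f (x, y, φ + 2 * Real.pi, ψ) = f (x, y, φ, ψ))
    (hp2 : ∀ x y φ ψ : ℂ, (x, y, φ, ψ) ∈ Dom r s → f (x, y, φ, ψ + 2 * Real.pi) = f (x, y, φ, ψ))
    (hre : ∀ x y φ ψ : ℝ, ((x : ℂ), (y : ℂ), (φ : ℂ), (ψ : ℂ)) ∈ Dom r s →
      (f ((x : ℂ), (y : ℂ), (φ : ℂ), (ψ : ℂ))).im = 0)
    (p1 p2 R1 R2 s' K : ℝ) (hp10 : 0 ≤ p1) (hp20 : 0 ≤ p2) (hR1 : 0 < R1) (hR2 : 0 < R2)
    (hs' : 0 < s') (hs : s' < s) (h1 : p1 + R1 < r) (h2 : p2 + R2 < r)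
    (hK : ∀ x y φ ψ : ℂ, ‖x‖ ≤ R1 → ‖y‖ ≤ R2 → |φ.im| ≤ s' → |ψ.im| ≤ s' →
      ‖f (p1 + x, p2 + y, φ, ψ)‖ ≤ K) :
    ∃ c : ℕ × ℕ × ℤ × ℤ → ℂ,
      (∀ n1 n2 k1 k2, ‖c (n1, n2, k1, k2)‖ ≤
        K / (R1 ^ n1 * R2 ^ n2) * Real.exp (-s' * (|(k1 : ℝ)| + |(k2 : ℝ)|))) ∧
      (∀ n1 n2 k1 k2, c (n1, n2, -k1, -k2) = (starRingEnd ℂ) (c (n1, n2, k1, k2))) ∧
      ∀ x y φ ψ : ℝ, |x| < R1 → |y| < R2 →
        HasSum (term4 c x y φ ψ) (f ((p1 + x : ℝ), (p2 + y : ℝ), φ, ψ)) ∧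
        HasSum (fun a : ℕ × ℕ × ℤ × ℤ => (a.1 : ℂ) * c a * (x : ℂ) ^ (a.1 - 1) * (y : ℂ) ^ a.2.1 *
            Complex.exp (Complex.I * (a.2.2.1 * φ + a.2.2.2 * ψ)))
          (deriv (fun z : ℂ => f (z, (p2 + y : ℝ), φ, ψ)) (p1 + x : ℝ)) ∧
        HasSum (fun a : ℕ × ℕ × ℤ × ℤ => (a.2.1 : ℂ) * c a * (x : ℂ) ^ a.1 * (y : ℂ) ^ (a.2.1 - 1) *
            Complex.exp (Complex.I * (a.2.2.1 * φ + a.2.2.2 * ψ)))
          (deriv (fun z : ℂ => f ((p1 + x : ℝ), z, φ, ψ)) (p2 + y : ℝ)) ∧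
        HasSum (fun a : ℕ × ℕ × ℤ × ℤ => Complex.I * (a.2.2.1 : ℂ) * term4 c x y φ ψ a)
          (deriv (fun z : ℂ => f ((p1 + x : ℝ), (p2 + y : ℝ), z, ψ)) φ) ∧
        HasSum (fun a : ℕ × ℕ × ℤ × ℤ => Complex.I * (a.2.2.2 : ℂ) * term4 c x y φ ψ a)
          (deriv (fun z : ℂ => f ((p1 + x : ℝ), (p2 + y : ℝ), φ, z)) ψ) := by
  have hAP : AP r s f := ⟨hf, hp1, hp2⟩
  obtain ⟨c0, hc0, hs0⟩ := coef_exists f r s hAP p1 p2 R1 R2 s' K hp10 hp20 hR1 hR2 hs' hs h1 h2 hK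
  obtain ⟨c, hc, hcr, hcs⟩ := coef_real f r s hre p1 p2 R1 R2 s' K hp10 hp20 hR1 hR2 hs' hs h1 h2
    c0 hc0 hs0
  refine ⟨c, hc, hcr, fun x y φ ψ hx hy => ⟨hcs x y φ ψ hx hy, ?_, ?_, ?_, ?_⟩⟩
  · exact deriv_act1 f r s hAP p1 p2 R1 R2 s' K hp10 hp20 hR1 hR2 hs' hs h1 h2 c hc hcs x y φ ψ hx hy
  · exact deriv_act2 f r s hAP p1 p2 R1 R2 s' K hp10 hp20 hR1 hR2 hs' hs h1 h2 c hc hcs x y φ ψ hx hy
  · exact deriv_ang1 f r s hAP p1 p2 R1 R2 s' K hp10 hp20 hR1 hR2 hs' hs h1 h2 c hc hcs x y φ ψ hx hy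
  · exact deriv_ang2 f r s hAP p1 p2 R1 R2 s' K hp10 hp20 hR1 hR2 hs' hs h1 h2 c hc hcs x y φ ψ hx hy

end KamLattice
end

section

/-!
# Parameters for `ℤ^d`: geometry and label sums
-/

set_option autoImplicit false

namespace KX

open scoped ENNReal

theorem one_le_brz {d : ℕ} (j : Fin d → ℤ) : 1 ≤ brz j := by
  unfold brz
  have : (0 : ℝ) ≤ nd j 0 := Nat.cast_nonneg _
  linarith

theorem brz_pos {d : ℕ} (j : Fin d → ℤ) : 0 < brz j := lt_of_lt_of_le one_pos (one_le_brz j)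

/-- sums of products over `ℤ^d` (or any finite power) -/
theorem tsum_pi_prod {α : Type} (d : ℕ) (f : Fin d → α → ℝ≥0∞) :
    ∑' x : Fin d → α, ∏ a, f a (x a) = ∏ a, ∑' n, f a n := by
  induction d with
  | zero => simp
  | succ d ih =>
    rw [← (Fin.consEquiv (fun _ : Fin (d + 1) => α)).tsum_eq, ENNReal.tsum_prod']
    simp only [Fin.consEquiv_apply, Fin.prod_univ_succ, Fin.cons_zero, Fin.cons_succ]
    simp_rw [ENNReal.tsum_mul_left, ENNReal.tsum_mul_right, ih]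

theorem int_summable (q : ℝ) (hq : 1 < q) :
    Summable fun n : ℤ => (1 + (n.natAbs : ℝ)) ^ (-q) := by
  have h : Summable fun n : ℕ => (1 + (n : ℝ)) ^ (-q) := by
    have h1 := (summable_nat_add_iff 1).2 (Real.summable_nat_rpow.2 (by linarith : -q < -1))
    refine h1.congr fun n => ?_
    push_cast
    rw [add_comm]
  refine Summable.of_nat_of_neg ?_ ?_
  · simpa using h
  · simpa using h

/-- `∑_j ⟨j⟩^(-p)` converges for `p > d` -/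
theorem brz_summable' (d : ℕ) (hd : 1 ≤ d) (p : ℝ) (hp : (d : ℝ) < p) :
    Summable fun j : Fin d → ℤ => (brz j) ^ (-p) := by
  have hd0 : (0 : ℝ) < d := by exact_mod_cast hd
  have hq : 1 < p / d := by rw [lt_div_iff₀ hd0]; linarith
  set f : ℤ → ℝ := fun n => (1 + (n.natAbs : ℝ)) ^ (-(p / d)) with hf
  have hf0 : ∀ n, 0 ≤ f n := fun n => by rw [hf]; positivity
  have hs : Summable f := int_summable _ hq
  have h1 : ∑' x : Fin d → ℤ, ∏ a, ENNReal.ofReal (f (x a)) ≠ ∞ := by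
    rw [tsum_pi_prod d fun _ n => ENNReal.ofReal (f n)]
    refine ENNReal.prod_ne_top fun a _ => ?_
    rw [← ENNReal.ofReal_tsum_of_nonneg hf0 hs]
    exact ENNReal.ofReal_ne_top
  have h2 := ENNReal.summable_toReal h1
  refine Summable.of_nonneg_of_le (fun j => by have := brz_pos j; positivity) (fun j => ?_) h2
  rw [ENNReal.toReal_prod]
  have h3 : ∀ a, (ENNReal.ofReal (f (j a))).toReal = f (j a) := fun a =>
    ENNReal.toReal_ofReal (hf0 _)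
  simp_rw [h3]
  have h4 : ∀ a, (brz j) ^ (-(p / d)) ≤ f (j a) := by
    intro a
    rw [hf]
    refine Real.rpow_le_rpow_of_nonpos (by positivity) ?_ (by
      have : 0 ≤ p / d := by linarith
      linarith)
    unfold brz
    have : (j a).natAbs ≤ nd j 0 := by
      unfold nd
      have := Finset.le_sup (f := fun a => (j a - (0 : Fin d → ℤ) a).natAbs) (Finset.mem_univ a)
      simpa using this
    have : ((j a).natAbs : ℝ) ≤ nd j 0 := by exact_mod_cast this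
    linarith
  calc (brz j) ^ (-p) = ∏ _a : Fin d, (brz j) ^ (-(p / d)) := by
        rw [Finset.prod_const, Finset.card_univ, Fintype.card_fin, ← Real.rpow_natCast,
          ← Real.rpow_mul (brz_pos j).le]
        congr 1
        field_simp
    _ ≤ ∏ a, f (j a) := Finset.prod_le_prod (fun a _ => by have := brz_pos j; positivity)
        fun a _ => h4 a

end KX
end
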