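import Pool.Agent.Lib.MP_73c19a_an.Schemea
import Pool.Agent.Lib.MP_73c19a_an.Mg.G009
import Pool.Agent.Lib.MP_73c19a_an.Mg.G010
import Pool.Agent.Lib.MP_73c19a_an.Mg.G003
import Pool.Agent.Lib.MP_73c19a_an.Run

section

/-!
# The Lie series on trees

`opX ka e u` is the tree form of the bracket with the generator `e`; `stp` one elimination step;
`cc` the universal coefficients, `cP` the product of the leaf coefficients and of the bracket
coefficients, `QQ` the majorants.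
-/

set_option autoImplicit false

namespace KX

open scoped ENNReal

variable {V : Type} [DecidableEq V]

private theorem rst_cast (E : Tr V → Prop) (c : Tr V → ℝ) (Φ : Tr V → ℂ) (h : Tr V) :
    rst E (fun h' => (c h' : ℂ) * Φ h') h = ((rst E c h : ℝ) : ℂ) * Φ h := by
  unfold rst
  by_cases hE : E h
  · rw [if_pos hE, if_pos hE]
  · rw [if_neg hE, if_neg hE]; simp

private theorem opX_iter_prod (e : Tr V → ℝ) (g : Tr V → ℂ) (Φ Ψ : Tr V → ℂ)
    (hg : ∀ f, g f = (e f : ℂ) * Ψ f)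
    (hΦ : ∀ j f p, Φ (Tr.node j f p) = ika j f p * Ψ f * Φ p)
    (v : Tr V → ℝ) (w : Tr V → ℂ) (hw : ∀ h, w h = (v h : ℂ) * Φ h) (m : ℕ) :
    ∀ h, ((opX ika g)^[m] w) h =
      ((((opX (fun _ _ _ => (1 : ℝ)) e)^[m] v) h : ℝ) : ℂ) * Φ h := by
  induction m with
  | zero => exact hw
  | succ m ih =>
    intro h
    rw [Function.iterate_succ_apply', Function.iterate_succ_apply']
    cases h with
    | leaf l =>
      show (0 : ℂ) = ((0 : ℝ) : ℂ) * _
      simp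
    | node j f p =>
      show ika j f p * g f * ((opX ika g)^[m] w) p =
        ((1 * e f * ((opX (fun _ _ _ => (1 : ℝ)) e)^[m] v) p : ℝ) : ℂ) * Φ (Tr.node j f p)
      rw [ih p, hg f, hΦ]
      push_cast
      ring

/-- product formula: if `u t` is obtained from the leaf coefficients `P0` by the steps with the
frequencies `om s`, `s < t`, then `u t h = cc t h * cP P0 h * YY om h`. -/
theorem product_formula (G : Geo V) (P : BP V) (P0 : Lbl V → ℂ) (om : ℕ → V → ℝ)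
    (u : ℕ → Tr V → ℂ) (h0 : u 0 = lf0 P0)
    (h1 : ∀ t, u (t + 1) = nxt G P t (om t) (u t)) (t : ℕ) (h : Tr V) :
    u t h = (cc G P t h : ℂ) * cP P0 h * Tr.YY G P om h := by
  set Φ : Tr V → ℂ := fun h => cP P0 h * Tr.YY G P om h with hΦdef
  set Ψ : Tr V → ℂ := fun f => Φ f * (Complex.I * (dot (Tr.k f) (om (Tr.tau G P f)) : ℂ))⁻¹
    with hΨdef
  have hΦ : ∀ j f p, Φ (Tr.node j f p) = ika j f p * Ψ f * Φ p := by
    intro j f p
    show (Complex.I * (Tr.kap j f p : ℂ) * cP P0 f * cP P0 p) *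
      (Tr.YY G P om f * (Complex.I * (dot (Tr.k f) (om (Tr.tau G P f)) : ℂ))⁻¹ *
        Tr.YY G P om p) = (Complex.I * (Tr.kap j f p : ℂ)) *
        ((cP P0 f * Tr.YY G P om f) *
          (Complex.I * (dot (Tr.k f) (om (Tr.tau G P f)) : ℂ))⁻¹) *
        (cP P0 p * Tr.YY G P om p)
    ring
  suffices H : ∀ t h, u t h = (cc G P t h : ℂ) * Φ h by
    rw [H t h, hΦdef]
    ring
  intro t
  induction t with
  | zero =>
    intro h
    rw [h0]
    cases h with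
    | leaf l =>
      show P0 l = ((1 : ℝ) : ℂ) * (P0 l * 1)
      simp
    | node j f p =>
      show (0 : ℂ) = ((0 : ℝ) : ℂ) * _
      simp
  | succ t ih =>
    intro h
    rw [h1 t]
    have hu : u t = fun h' => (cc G P t h' : ℂ) * Φ h' := funext ih
    have hstp : cc G P (t + 1) h = (∑ m ∈ Finset.range (Tr.spine h + 1),
        (1 / (m.factorial : ℝ)) * ((opX (fun _ _ _ => (1 : ℝ))
          (rst (Tr.EE G P t) (cc G P t)))^[m]
          (fun h' => cc G P t h' - rst (Tr.EE G P t) (cc G P t) h' / (m + 1))) h) -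
        rst (Tr.SS G P t) (cc G P t) h := rfl
    have hnxt : nxt G P t (om t) (u t) h = (∑ m ∈ Finset.range (Tr.spine h + 1),
        (1 / (m.factorial : ℂ)) * ((opX ika (gen G P t (om t) (u t)))^[m]
          (fun h' => u t h' - rst (Tr.EE G P t) (u t) h' / (m + 1))) h) -
        rst (Tr.SS G P t) (u t) h := rfl
    have hg : ∀ f, gen G P t (om t) (u t) f =
        ((rst (Tr.EE G P t) (cc G P t) f : ℝ) : ℂ) * Ψ f := by
      intro f
      unfold gen rst
      by_cases hE : Tr.EE G P t f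
      · rw [if_pos hE, if_pos hE]
        have h2 : Tr.tau G P f = t := hE.2.2
        show u t f / (Complex.I * (dot (Tr.k f) (om t) : ℂ)) = _
        rw [ih f]
        show (cc G P t f : ℂ) * Φ f / (Complex.I * (dot (Tr.k f) (om t) : ℂ)) =
          (cc G P t f : ℂ) * (Φ f * (Complex.I * (dot (Tr.k f) (om (Tr.tau G P f)) : ℂ))⁻¹)
        rw [h2]
        ring
      · rw [if_neg hE, if_neg hE]; simp
    have hw : ∀ (m : ℕ) (h' : Tr V), u t h' - rst (Tr.EE G P t) (u t) h' / ((m : ℂ) + 1) =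
        ((cc G P t h' - rst (Tr.EE G P t) (cc G P t) h' / ((m : ℝ) + 1) : ℝ) : ℂ) * Φ h' := by
      intro m h'
      rw [hu, rst_cast]
      push_cast
      ring
    rw [hnxt, hstp]
    have hS : rst (Tr.SS G P t) (u t) h = ((rst (Tr.SS G P t) (cc G P t) h : ℝ) : ℂ) * Φ h := by
      rw [hu, rst_cast]
    rw [hS]
    push_cast
    rw [sub_mul, Finset.sum_mul]
    congr 1
    apply Finset.sum_congr rfl
    intro m _
    rw [opX_iter_prod (rst (Tr.EE G P t) (cc G P t)) (gen G P t (om t) (u t)) Φ Ψ hg hΦ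
      (fun h' => cc G P t h' - rst (Tr.EE G P t) (cc G P t) h' / ((m : ℝ) + 1)) _ (hw m) m h]
    ring

end KX
end

section

/-!
# Symplectic transformations of formal series and the limit theorem
-/

set_option autoImplicit false

namespace KX

open scoped ENNReal

variable {V : Type} [DecidableEq V]

/-- hypotheses of the limit theorem: transformations `Φ t` from `(w t, p t)` to
`(w (t+1), p (t+1))`, levels `s t` decreasing to at least `s0 > 0`, summable `ep`. -/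
structure Chain (G : Geo V) (rho s0 : ℝ) (s ep : ℕ → ℝ) (w : ℕ → V → ℝ) (p : ℕ → Mon V → ℂ)
    (Φ : ℕ → (Mon V → ℂ) → Mon V → ℂ) (w' : V → ℝ) : Prop where
  rho0 : 0 < rho
  s00 : 0 < s0
  s0s : ∀ t, s0 ≤ s t
  anti : ∀ t, s (t + 1) ≤ s t
  ep0 : ∀ t, 0 ≤ ep t
  eps : Summable ep
  ep4 : ∑' t, ep t ≤ 1 / 4
  tsf : ∀ t, Tsf G rho (s t) (s (t + 1)) (ep t) (w t) (p t) (w (t + 1)) (p (t + 1)) (Φ t)
  small : Filter.Tendsto (fun t => nr (wg G rho s0) (le1 (p t))) Filter.atTop (nhds 0)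
  wlim : ∀ j, Filter.Tendsto (fun t => w t j) Filter.atTop (nhds (w' j))

/-- composition `Φ (t-1) ∘ ... ∘ Φ 0` -/
noncomputable def cmp (Φ : ℕ → (Mon V → ℂ) → Mon V → ℂ) : ℕ → (Mon V → ℂ) → Mon V → ℂ
  | 0 => id
  | t + 1 => Φ t ∘ cmp Φ t

private theorem cmp_norm {G : Geo V} {rho s0 : ℝ} {s ep : ℕ → ℝ} {w : ℕ → V → ℝ}
    {p : ℕ → Mon V → ℂ}
    {Φ : ℕ → (Mon V → ℂ) → Mon V → ℂ} {w' : V → ℝ} (h : Chain G rho s0 s ep w p Φ w')
    (g : Mon V → ℂ) (t : ℕ) :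
    nr (wm G rho (s t)) (cmp Φ t g) ≤
      ENNReal.ofReal (Real.exp (∑ i ∈ Finset.range t, ep i)) * nr (wm G rho (s 0)) g := by
  induction t with
  | zero => simp [cmp]
  | succ t ih =>
    have h1 : nr (wm G rho (s (t + 1))) (cmp Φ (t + 1) g) ≤
        nr (wm G rho (s (t + 1))) (cmp Φ t g) +
          nr (wm G rho (s (t + 1))) (fun m => cmp Φ (t + 1) g m - cmp Φ t g m) := by
      refine le_trans (le_of_eq ?_) (nr_add_le _ _ _)
      congr 1
      funext m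
      ring
    have h2 : nr (wm G rho (s (t + 1))) (cmp Φ t g) ≤ nr (wm G rho (s t)) (cmp Φ t g) :=
      nr_mono (fun m => wm_mono G rho h.rho0 (h.anti t) m) _
    have h3 : nr (wm G rho (s (t + 1))) (fun m => cmp Φ (t + 1) g m - cmp Φ t g m) ≤
        ENNReal.ofReal (ep t) * nr (wm G rho (s t)) (cmp Φ t g) := (h.tsf t).near (cmp Φ t g)
    have h4 : (1 : ℝ≥0∞) + ENNReal.ofReal (ep t) ≤ ENNReal.ofReal (Real.exp (ep t)) := by
      rw [← ENNReal.ofReal_one, ← ENNReal.ofReal_add zero_le_one (h.ep0 t)]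
      apply ENNReal.ofReal_le_ofReal
      linarith [Real.add_one_le_exp (ep t)]
    calc nr (wm G rho (s (t + 1))) (cmp Φ (t + 1) g)
        ≤ nr (wm G rho (s t)) (cmp Φ t g) +
          ENNReal.ofReal (ep t) * nr (wm G rho (s t)) (cmp Φ t g) :=
          h1.trans (add_le_add h2 h3)
      _ = (1 + ENNReal.ofReal (ep t)) * nr (wm G rho (s t)) (cmp Φ t g) := by ring
      _ ≤ ENNReal.ofReal (Real.exp (ep t)) *
          (ENNReal.ofReal (Real.exp (∑ i ∈ Finset.range t, ep i)) * nr (wm G rho (s 0)) g) :=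
          mul_le_mul' h4 ih
      _ = _ := by
        rw [← mul_assoc, ← ENNReal.ofReal_mul (Real.exp_pos _).le, ← Real.exp_add,
          Finset.sum_range_succ, add_comm (ep t)]

/-- the composition is Cauchy: distance of consecutive terms at most `2 ep t * nr g` -/
theorem cmp_step {G : Geo V} {rho s0 : ℝ} {s ep : ℕ → ℝ} {w : ℕ → V → ℝ} {p : ℕ → Mon V → ℂ}
    {Φ : ℕ → (Mon V → ℂ) → Mon V → ℂ} {w' : V → ℝ} (h : Chain G rho s0 s ep w p Φ w')
    (g : Mon V → ℂ) (t : ℕ) :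
    nr (wm G rho s0) (fun m => cmp Φ (t + 1) g m - cmp Φ t g m) ≤
      ENNReal.ofReal (2 * ep t) * nr (wm G rho (s 0)) g := by
  have h1 : nr (wm G rho s0) (fun m => cmp Φ (t + 1) g m - cmp Φ t g m) ≤
      nr (wm G rho (s (t + 1))) (fun m => cmp Φ (t + 1) g m - cmp Φ t g m) :=
    nr_mono (fun m => wm_mono G rho h.rho0 (h.s0s (t + 1)) m) _
  have h3 : nr (wm G rho (s (t + 1))) (fun m => cmp Φ (t + 1) g m - cmp Φ t g m) ≤
      ENNReal.ofReal (ep t) * nr (wm G rho (s t)) (cmp Φ t g) := (h.tsf t).near (cmp Φ t g)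
  have h4 : Real.exp (∑ i ∈ Finset.range t, ep i) ≤ 2 := by
    have h5 : ∑ i ∈ Finset.range t, ep i ≤ 1 / 4 :=
      (h.eps.sum_le_tsum _ fun i _ => h.ep0 i).trans h.ep4
    have h6 : Real.exp (∑ i ∈ Finset.range t, ep i) ≤ Real.exp (Real.log 2) := by
      apply Real.exp_le_exp.2
      linarith [Real.log_two_gt_d9]
    rwa [Real.exp_log (by norm_num)] at h6
  calc _ ≤ ENNReal.ofReal (ep t) * nr (wm G rho (s t)) (cmp Φ t g) := h1.trans h3
    _ ≤ ENNReal.ofReal (ep t) * (ENNReal.ofReal 2 * nr (wm G rho (s 0)) g) := by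
        gcongr
        refine (cmp_norm h g t).trans ?_
        gcongr
    _ = _ := by
        rw [← mul_assoc, ← ENNReal.ofReal_mul (h.ep0 t), mul_comm (ep t)]

/-- the limit functional -/
noncomputable def Th (Φ : ℕ → (Mon V → ℂ) → Mon V → ℂ) (g : Mon V → ℂ) : (V →₀ ℤ) → ℂ :=
  fun k => at0 g k + ∑' t, (at0 (cmp Φ (t + 1) g) k - at0 (cmp Φ t g) k)

private theorem nf_step {G : Geo V} {rho s0 : ℝ} {s ep : ℕ → ℝ} {w : ℕ → V → ℝ}
    {p : ℕ → Mon V → ℂ}
    {Φ : ℕ → (Mon V → ℂ) → Mon V → ℂ} {w' : V → ℝ} (h : Chain G rho s0 s ep w p Φ w')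
    (g : Mon V → ℂ) (t : ℕ) :
    nf s0 (fun k => at0 (cmp Φ (t + 1) g) k - at0 (cmp Φ t g) k) ≤
      ENNReal.ofReal (2 * ep t) * nr (wm G rho (s 0)) g :=
  (nf_at0_le G rho s0 (fun m => cmp Φ (t + 1) g m - cmp Φ t g m)).trans (cmp_step h g t)

/-- pointwise summability of the increments -/
private theorem summable_step {G : Geo V} {rho s0 : ℝ} {s ep : ℕ → ℝ} {w : ℕ → V → ℝ}
    {p : ℕ → Mon V → ℂ}
    {Φ : ℕ → (Mon V → ℂ) → Mon V → ℂ} {w' : V → ℝ} (h : Chain G rho s0 s ep w p Φ w')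
    (g : Mon V → ℂ) (hg : nr (wm G rho (s 0)) g ≠ ∞) (k : V →₀ ℤ) :
    Summable fun t => at0 (cmp Φ (t + 1) g) k - at0 (cmp Φ t g) k := by
  have hb : ∀ t, ‖at0 (cmp Φ (t + 1) g) k - at0 (cmp Φ t g) k‖ ≤
      2 * ep t * (nr (wm G rho (s 0)) g).toReal := by
    intro t
    have h1 : ‖at0 (cmp Φ (t + 1) g) k - at0 (cmp Φ t g) k‖ₑ *
        ENNReal.ofReal (Real.exp (s0 * kab k)) ≤
        ENNReal.ofReal (2 * ep t) * nr (wm G rho (s 0)) g :=
      (ENNReal.le_tsum (f := fun k => ‖at0 (cmp Φ (t + 1) g) k - at0 (cmp Φ t g) k‖ₑ *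
        ENNReal.ofReal (Real.exp (s0 * kab k))) k).trans (nf_step h g t)
    have h2 : (1 : ℝ≥0∞) ≤ ENNReal.ofReal (Real.exp (s0 * kab k)) := by
      rw [← ENNReal.ofReal_one]
      apply ENNReal.ofReal_le_ofReal
      exact Real.one_le_exp (mul_nonneg h.s00.le (Nat.cast_nonneg _))
    have h3 : ‖at0 (cmp Φ (t + 1) g) k - at0 (cmp Φ t g) k‖ₑ ≤
        ENNReal.ofReal (2 * ep t) * nr (wm G rho (s 0)) g := by
      refine le_trans ?_ h1
      exact le_mul_of_one_le_right zero_le h2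
    have h4 : ENNReal.ofReal (2 * ep t) * nr (wm G rho (s 0)) g =
        ENNReal.ofReal (2 * ep t * (nr (wm G rho (s 0)) g).toReal) := by
      rw [ENNReal.ofReal_mul (p := 2 * ep t) (by linarith [h.ep0 t]), ENNReal.ofReal_toReal hg]
    rw [h4, ← ofReal_norm] at h3
    exact (ENNReal.ofReal_le_ofReal_iff (by
      have := h.ep0 t
      positivity)).1 h3
  refine Summable.of_norm_bounded ?_ hb
  exact (h.eps.mul_left 2).mul_right _

/-- the limit functional is the limit -/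
theorem Th_tendsto {G : Geo V} {rho s0 : ℝ} {s ep : ℕ → ℝ} {w : ℕ → V → ℝ} {p : ℕ → Mon V → ℂ}
    {Φ : ℕ → (Mon V → ℂ) → Mon V → ℂ} {w' : V → ℝ} (h : Chain G rho s0 s ep w p Φ w')
    (g : Mon V → ℂ) (hg : nr (wm G rho (s 0)) g ≠ ∞) :
    Filter.Tendsto (fun t => nf s0 (fun k => at0 (cmp Φ t g) k - Th Φ g k)) Filter.atTop
      (nhds 0) := by
  set D : ℕ → (V →₀ ℤ) → ℂ := fun t k => at0 (cmp Φ (t + 1) g) k - at0 (cmp Φ t g) k with hD
  have hsum : ∀ k, Summable fun t => D t k := summable_step h g hg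
  -- telescoping
  have htel : ∀ t k, at0 (cmp Φ t g) k = at0 g k + ∑ i ∈ Finset.range t, D i k := by
    intro t k
    have h1 := Finset.sum_range_sub (fun i => at0 (cmp Φ i g) k) t
    have h2 : at0 (cmp Φ 0 g) k = at0 g k := rfl
    rw [show ∑ i ∈ Finset.range t, D i k = at0 (cmp Φ t g) k - at0 (cmp Φ 0 g) k from h1, h2]
    ring
  have htail : ∀ t, (fun k => at0 (cmp Φ t g) k - Th Φ g k) =
      fun k => ∑' i, (-1 : ℂ) * D (i + t) k := by
    intro t
    funext k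
    have h1 := (hsum k).sum_add_tsum_nat_add t
    have h2 : Th Φ g k = at0 g k + ∑' i, D i k := rfl
    rw [h2, htel t k, ← h1, tsum_mul_left]
    ring
  have hle : ∀ t, nf s0 (fun k => at0 (cmp Φ t g) k - Th Φ g k) ≤
      ∑' i, ENNReal.ofReal (2 * ep (i + t)) * nr (wm G rho (s 0)) g := by
    intro t
    rw [htail t]
    refine (nr_tsum_le (fun k : V →₀ ℤ => ENNReal.ofReal (Real.exp (s0 * kab k)))
      (fun (i : ℕ) k => (-1 : ℂ) * D (i + t) k)).trans ?_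
    refine ENNReal.tsum_le_tsum fun i => ?_
    rw [nr_smul]
    have h1 : ‖(-1 : ℂ)‖ₑ = 1 := by simp
    rw [h1, one_mul]
    exact nf_step h g (i + t)
  have hfin : ∑' i, ENNReal.ofReal (2 * ep i) * nr (wm G rho (s 0)) g ≠ ∞ := by
    rw [ENNReal.tsum_mul_right]
    refine ENNReal.mul_ne_top ?_ hg
    rw [← ENNReal.ofReal_tsum_of_nonneg (fun i => by linarith [h.ep0 i]) (h.eps.mul_left 2)]
    exact ENNReal.ofReal_ne_top
  have hlim := ENNReal.tendsto_sum_nat_add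
    (fun i => ENNReal.ofReal (2 * ep i) * nr (wm G rho (s 0)) g) hfin
  exact tendsto_of_tendsto_of_tendsto_of_le_of_le tendsto_const_nhds hlim
    (fun t => zero_le) hle

end KX
end

section

/-!
# Symplectic transformations of formal series and the limit theorem
-/

set_option autoImplicit false

namespace KX

open scoped ENNReal

variable {V : Type} [DecidableEq V]

section lime

/-- the weight of `nf` -/
noncomputable def limeW (s : ℝ) (k : V →₀ ℤ) : ℝ≥0∞ := ENNReal.ofReal (Real.exp (s * kab k))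

omit [DecidableEq V] in
theorem lime_nf (s : ℝ) (g : (V →₀ ℤ) → ℂ) : nf s g = nr (limeW s) g := rfl

omit [DecidableEq V] in
theorem lime_one_le {s : ℝ} (hs : 0 ≤ s) (k : V →₀ ℤ) : 1 ≤ limeW s k := by
  unfold limeW
  rw [← ENNReal.ofReal_one]
  apply ENNReal.ofReal_le_ofReal
  exact Real.one_le_exp (by positivity)

omit [DecidableEq V] in
theorem lime_mono {s s' : ℝ} (h : s ≤ s') (g : (V →₀ ℤ) → ℂ) : nf s g ≤ nf s' g := by
  rw [lime_nf, lime_nf]
  refine nr_mono (fun k => ?_) g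
  unfold limeW
  apply ENNReal.ofReal_le_ofReal
  apply Real.exp_le_exp.2
  exact mul_le_mul_of_nonneg_right h (by positivity)

omit [DecidableEq V] in
theorem lime_single {s : ℝ} (hs : 0 ≤ s) (g : (V →₀ ℤ) → ℂ) (k : V →₀ ℤ) : ‖g k‖ₑ ≤ nf s g := by
  rw [lime_nf]
  unfold nr
  calc ‖g k‖ₑ ≤ ‖g k‖ₑ * limeW s k := le_mul_of_one_le_right zero_le (lime_one_le hs k)
    _ ≤ _ := ENNReal.le_tsum (f := fun k => ‖g k‖ₑ * limeW s k) k

omit [DecidableEq V] in
theorem lime_tsum_le {s : ℝ} (hs : 0 ≤ s) (g : (V →₀ ℤ) → ℂ) : ∑' k, ‖g k‖ₑ ≤ nf s g := by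
  rw [lime_nf]
  unfold nr
  exact ENNReal.tsum_le_tsum fun k => le_mul_of_one_le_right zero_le (lime_one_le hs k)

/-- the composed transformations -/
theorem lime_tsf {G : Geo V} {rho s0 : ℝ} {s ep : ℕ → ℝ} {w : ℕ → V → ℝ} {p : ℕ → Mon V → ℂ}
    {Φ : ℕ → (Mon V → ℂ) → Mon V → ℂ} {w' : V → ℝ} (h : Chain G rho s0 s ep w p Φ w') (t : ℕ) :
    ∃ e : ℝ, 0 ≤ e ∧ Tsf G rho (s 0) (s t) e (w 0) (p 0) (w t) (p t) (cmp Φ t) := by
  have hanti : ∀ t, s t ≤ s 0 := by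
    intro t
    induction t with
    | zero => exact le_rfl
    | succ t ih => exact (h.anti t).trans ih
  induction t with
  | zero => exact ⟨0, le_rfl, Tsf.refl G rho (s 0) 0 le_rfl (w 0) (p 0)⟩
  | succ t ih =>
    obtain ⟨e, he, ih⟩ := ih
    refine ⟨ep t * (1 + e) + e, ?_, Tsf.comp h.rho0 (h.anti t) (hanti t) he (h.ep0 t) ih (h.tsf t)⟩
    have := h.ep0 t
    positivity

/-- pointwise convergence -/
theorem lime_pt {G : Geo V} {rho s0 : ℝ} {s ep : ℕ → ℝ} {w : ℕ → V → ℝ} {p : ℕ → Mon V → ℂ}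
    {Φ : ℕ → (Mon V → ℂ) → Mon V → ℂ} {w' : V → ℝ} (h : Chain G rho s0 s ep w p Φ w')
    {g : Mon V → ℂ} (hg : nr (wm G rho (s 0)) g ≠ ∞) (k : V →₀ ℤ) :
    Filter.Tendsto (fun t => at0 (cmp Φ t g) k) Filter.atTop (nhds (Th Φ g k)) := by
  rw [tendsto_iff_norm_sub_tendsto_zero]
  have h1 : Filter.Tendsto (fun t => ‖at0 (cmp Φ t g) k - Th Φ g k‖ₑ) Filter.atTop (nhds 0) :=
    tendsto_of_tendsto_of_tendsto_of_le_of_le tendsto_const_nhds (Th_tendsto h g hg)
      (fun t => zero_le)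
      (fun t => lime_single h.s00.le (fun k => at0 (cmp Φ t g) k - Th Φ g k) k)
  have h2 := (ENNReal.tendsto_toReal ENNReal.zero_ne_top).comp h1
  simpa [Function.comp_def] using h2

/-- closeness of the limit functional to the identity -/
theorem lime_near {G : Geo V} {rho s0 : ℝ} {s ep : ℕ → ℝ} {w : ℕ → V → ℝ} {p : ℕ → Mon V → ℂ}
    {Φ : ℕ → (Mon V → ℂ) → Mon V → ℂ} {w' : V → ℝ} (h : Chain G rho s0 s ep w p Φ w')
    (g : Mon V → ℂ) :
    nf s0 (fun k => Th Φ g k - at0 g k) ≤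
      ENNReal.ofReal (2 * ∑' t, ep t) * nr (wm G rho (s 0)) g := by
  have h1 : (fun k => Th Φ g k - at0 g k) =
      fun k => ∑' t, (at0 (cmp Φ (t + 1) g) k - at0 (cmp Φ t g) k) := by
    funext k
    unfold Th
    ring
  rw [h1, lime_nf]
  refine (nr_tsum_le (limeW s0) fun t k => at0 (cmp Φ (t + 1) g) k - at0 (cmp Φ t g) k).trans ?_
  have h2 : ∀ t, nr (limeW s0) (fun k => at0 (cmp Φ (t + 1) g) k - at0 (cmp Φ t g) k) ≤
      ENNReal.ofReal (2 * ep t) * nr (wm G rho (s 0)) g := by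
    intro t
    exact (nf_at0_le G rho s0 (fun m => cmp Φ (t + 1) g m - cmp Φ t g m)).trans (cmp_step h g t)
  refine (ENNReal.tsum_le_tsum h2).trans ?_
  rw [ENNReal.tsum_mul_right, ← ENNReal.ofReal_tsum_of_nonneg
    (fun t => mul_nonneg zero_le_two (h.ep0 t)) (h.eps.mul_left 2), tsum_mul_left]

/-- a uniform bound for the composed transformations -/
theorem lime_bd {G : Geo V} {rho s0 : ℝ} {s ep : ℕ → ℝ} {w : ℕ → V → ℝ} {p : ℕ → Mon V → ℂ}
    {Φ : ℕ → (Mon V → ℂ) → Mon V → ℂ} {w' : V → ℝ} (h : Chain G rho s0 s ep w p Φ w')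
    (g : Mon V → ℂ) (t : ℕ) :
    nr (wm G rho s0) (cmp Φ t g) ≤
      (1 + ∑' t, ENNReal.ofReal (2 * ep t)) * nr (wm G rho (s 0)) g := by
  have h1 : nr (wm G rho s0) (cmp Φ t g) ≤
      (1 + ∑ i ∈ Finset.range t, ENNReal.ofReal (2 * ep i)) * nr (wm G rho (s 0)) g := by
    induction t with
    | zero =>
      simp only [Finset.range_zero, Finset.sum_empty, add_zero, one_mul]
      exact nr_mono (fun m => wm_mono G rho h.rho0 (h.s0s 0) m) g
    | succ t ih =>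
      have h2 : cmp Φ (t + 1) g = fun m => cmp Φ t g m + (cmp Φ (t + 1) g m - cmp Φ t g m) := by
        funext m
        ring
      rw [h2]
      refine (nr_add_le _ _ _).trans ?_
      refine (add_le_add ih (cmp_step h g t)).trans ?_
      rw [← add_mul, Finset.sum_range_succ, ← add_assoc]
  refine h1.trans ?_
  gcongr
  exact ENNReal.sum_le_tsum _

omit [DecidableEq V] in
theorem lime_prod (f g : (V →₀ ℤ) → ℂ) :
    ∑' x : (V →₀ ℤ) × (V →₀ ℤ), ‖f x.1‖ₑ * ‖g x.2‖ₑ = (∑' k, ‖f k‖ₑ) * ∑' k, ‖g k‖ₑ := by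
  refine (ENNReal.tsum_prod (f := fun a b => ‖f a‖ₑ * ‖g b‖ₑ)).trans ?_
  simp only [ENNReal.tsum_mul_left, ENNReal.tsum_mul_right]

omit [DecidableEq V] in
theorem lime_mulf_le (f g : (V →₀ ℤ) → ℂ) (k : V →₀ ℤ) :
    ‖mulf f g k‖ₑ ≤ (∑' k, ‖f k‖ₑ) * ∑' k, ‖g k‖ₑ := by
  classical
  have h1 : nr (fun _ => (1 : ℝ≥0∞)) (mulf f g) ≤
      ∑' x : (V →₀ ℤ) × (V →₀ ℤ), ‖f x.1 * g x.2‖ₑ * 1 :=
    nr_push_le (fun _ => (1 : ℝ≥0∞)) (fun x : (V →₀ ℤ) × (V →₀ ℤ) => x.1 + x.2)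
      fun x => f x.1 * g x.2
  have h2 : ‖mulf f g k‖ₑ ≤ nr (fun _ => (1 : ℝ≥0∞)) (mulf f g) := by
    unfold nr
    simp only [mul_one]
    exact ENNReal.le_tsum (f := fun k => ‖mulf f g k‖ₑ) k
  refine h2.trans (h1.trans (le_of_eq ?_))
  simp only [mul_one, enorm_mul]
  exact lime_prod f g

omit [DecidableEq V] in
theorem lime_fin {f g : (V →₀ ℤ) → ℂ} (hf : ∑' k, ‖f k‖ₑ ≠ ∞) (hg : ∑' k, ‖g k‖ₑ ≠ ∞) :
    ∑' x : (V →₀ ℤ) × (V →₀ ℤ), ‖f x.1 * g x.2‖ₑ * (fun _ => (1 : ℝ≥0∞)) (x.1 + x.2) ≠ ∞ := by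
  simp only [mul_one, enorm_mul]
  rw [lime_prod f g]
  exact ENNReal.mul_ne_top hf hg

omit [DecidableEq V] in
theorem lime_addl {f f' f'' g : (V →₀ ℤ) → ℂ} (hf : ∑' k, ‖f k‖ₑ ≠ ∞) (hf' : ∑' k, ‖f' k‖ₑ ≠ ∞)
    (hg : ∑' k, ‖g k‖ₑ ≠ ∞) (h : ∀ k, f'' k = f k + f' k) :
    mulf f'' g = fun k => mulf f g k + mulf f' g k := by
  have h1 := push_add (fun _ => (1 : ℝ≥0∞)) (fun _ => one_ne_zero)
    (fun x : (V →₀ ℤ) × (V →₀ ℤ) => x.1 + x.2) (fun x => f x.1 * g x.2)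
    (fun x => f' x.1 * g x.2) (lime_fin hf hg) (lime_fin hf' hg)
  unfold mulf
  rw [← h1]
  refine congrArg _ (funext fun x => ?_)
  rw [h, add_mul]

omit [DecidableEq V] in
theorem lime_addr {f g g' g'' : (V →₀ ℤ) → ℂ} (hf : ∑' k, ‖f k‖ₑ ≠ ∞) (hg : ∑' k, ‖g k‖ₑ ≠ ∞)
    (hg' : ∑' k, ‖g' k‖ₑ ≠ ∞) (h : ∀ k, g'' k = g k + g' k) :
    mulf f g'' = fun k => mulf f g k + mulf f g' k := by
  have h1 := push_add (fun _ => (1 : ℝ≥0∞)) (fun _ => one_ne_zero)
    (fun x : (V →₀ ℤ) × (V →₀ ℤ) => x.1 + x.2) (fun x => f x.1 * g x.2)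
    (fun x => f x.1 * g' x.2) (lime_fin hf hg) (lime_fin hf hg')
  unfold mulf
  rw [← h1]
  refine congrArg _ (funext fun x => ?_)
  rw [h, mul_add]

omit [DecidableEq V] in
/-- continuity of the Fourier product -/
theorem lime_mulf {a b : ℕ → (V →₀ ℤ) → ℂ} {a' b' : (V →₀ ℤ) → ℂ}
    (ha : Filter.Tendsto (fun t => ∑' k, ‖a t k - a' k‖ₑ) Filter.atTop (nhds 0))
    (hb : Filter.Tendsto (fun t => ∑' k, ‖b t k - b' k‖ₑ) Filter.atTop (nhds 0))
    (ha' : ∑' k, ‖a' k‖ₑ ≠ ∞) (hb' : ∑' k, ‖b' k‖ₑ ≠ ∞) (k : V →₀ ℤ) :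
    Filter.Tendsto (fun t => mulf (a t) (b t) k) Filter.atTop (nhds (mulf a' b' k)) := by
  classical
  have hA : ∀ᶠ t in Filter.atTop, ∑' k, ‖a t k - a' k‖ₑ < 1 :=
    ha.eventually_lt_const one_pos
  have hB : ∀ᶠ t in Filter.atTop, ∑' k, ‖b t k - b' k‖ₑ < 1 :=
    hb.eventually_lt_const one_pos
  have key : ∀ᶠ t in Filter.atTop, ‖mulf (a t) (b t) k - mulf a' b' k‖ₑ ≤
      (∑' k, ‖a t k - a' k‖ₑ) * (1 + ∑' k, ‖b' k‖ₑ) + (∑' k, ‖a' k‖ₑ) * ∑' k, ‖b t k - b' k‖ₑ := by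
    filter_upwards [hA, hB] with t h1 h2
    have h3 : ∑' k, ‖b t k‖ₑ ≤ 1 + ∑' k, ‖b' k‖ₑ := by
      calc ∑' k, ‖b t k‖ₑ ≤ ∑' k, (‖b t k - b' k‖ₑ + ‖b' k‖ₑ) := by
            refine ENNReal.tsum_le_tsum fun k => ?_
            calc ‖b t k‖ₑ = ‖(b t k - b' k) + b' k‖ₑ := by rw [sub_add_cancel]
              _ ≤ _ := enorm_add_le _ _
        _ = (∑' k, ‖b t k - b' k‖ₑ) + ∑' k, ‖b' k‖ₑ := ENNReal.tsum_add
        _ ≤ _ := by gcongr
    have h3' : ∑' k, ‖b t k‖ₑ ≠ ∞ :=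
      ne_top_of_le_ne_top (ENNReal.add_ne_top.2 ⟨ENNReal.one_ne_top, hb'⟩) h3
    have h1' : ∑' k, ‖a t k - a' k‖ₑ ≠ ∞ := h1.ne_top
    have h2' : ∑' k, ‖b t k - b' k‖ₑ ≠ ∞ := h2.ne_top
    have e3 : mulf (a t) (b t) = fun k => mulf a' (b t) k + mulf (fun k => a t k - a' k) (b t) k :=
      lime_addl ha' h1' h3' fun k => by ring
    have e4 : mulf a' (b t) = fun k => mulf a' b' k + mulf a' (fun k => b t k - b' k) k :=
      lime_addr ha' hb' h2' fun k => by ring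
    have e5 : mulf (a t) (b t) k - mulf a' b' k =
        mulf (fun k => a t k - a' k) (b t) k + mulf a' (fun k => b t k - b' k) k := by
      rw [e3, e4]
      ring
    rw [e5]
    refine (enorm_add_le _ _).trans (add_le_add ?_ (lime_mulf_le _ _ k))
    exact (lime_mulf_le _ _ k).trans (by gcongr)
  have hlim : Filter.Tendsto (fun t => (∑' k, ‖a t k - a' k‖ₑ) * (1 + ∑' k, ‖b' k‖ₑ) +
      (∑' k, ‖a' k‖ₑ) * ∑' k, ‖b t k - b' k‖ₑ) Filter.atTop (nhds 0) := by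
    have h1 := ENNReal.Tendsto.mul_const ha
      (Or.inr (ENNReal.add_ne_top.2 ⟨ENNReal.one_ne_top, hb'⟩) : (0 : ℝ≥0∞) ≠ 0 ∨ 1 + ∑' k, ‖b' k‖ₑ ≠ ∞)
    have h2 := ENNReal.Tendsto.const_mul hb (Or.inr ha' : (0 : ℝ≥0∞) ≠ 0 ∨ ∑' k, ‖a' k‖ₑ ≠ ∞)
    have h3 := h1.add h2
    simpa using h3
  rw [tendsto_iff_norm_sub_tendsto_zero]
  have h1 : Filter.Tendsto (fun t => ‖mulf (a t) (b t) k - mulf a' b' k‖ₑ) Filter.atTop (nhds 0) :=
    tendsto_of_tendsto_of_tendsto_of_le_of_le' tendsto_const_nhds hlim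
      (Filter.Eventually.of_forall fun t => zero_le) key
  have h2 := (ENNReal.tendsto_toReal ENNReal.zero_ne_top).comp h1
  simpa [Function.comp_def] using h2

/-- the perturbation disappears in the limit -/
theorem lime_small {G : Geo V} {rho s0 : ℝ} {s ep : ℕ → ℝ} {w : ℕ → V → ℝ} {p : ℕ → Mon V → ℂ}
    {Φ : ℕ → (Mon V → ℂ) → Mon V → ℂ} {w' : V → ℝ} (h : Chain G rho s0 s ep w p Φ w')
    {g : Mon V → ℂ} (hg : nr (wm G rho (s 0)) g ≠ ∞) (k : V →₀ ℤ) :
    Filter.Tendsto (fun t => at0 (XX (p t) (cmp Φ t g)) k) Filter.atTop (nhds 0) := by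
  have hB : (1 + ∑' t, ENNReal.ofReal (2 * ep t)) * nr (wm G rho (s 0)) g ≠ ∞ := by
    refine ENNReal.mul_ne_top (ENNReal.add_ne_top.2 ⟨ENNReal.one_ne_top, ?_⟩) hg
    rw [← ENNReal.ofReal_tsum_of_nonneg
      (fun t => mul_nonneg zero_le_two (h.ep0 t)) (h.eps.mul_left 2)]
    exact ENNReal.ofReal_ne_top
  set B := (1 + ∑' t, ENNReal.ofReal (2 * ep t)) * nr (wm G rho (s 0)) g with hBdef
  have key : ∀ t, ‖at0 (XX (p t) (cmp Φ t g)) k‖ₑ ≤
      ENNReal.ofReal (1 / (rho * s0 * s0)) * B * nr (wg G rho s0) (le1 (p t)) := by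
    intro t
    rw [at0_XX]
    refine (lime_single le_rfl (at0 (XX (le1 (p t)) (cmp Φ t g))) k).trans ?_
    refine (nf_at0_le G rho 0 _).trans ?_
    refine (nr_XX_le G rho 0 s0 s0 h.rho0 le_rfl h.s00 h.s00 (le1 (p t)) (cmp Φ t g)).trans ?_
    rw [zero_add]
    gcongr
    exact lime_bd h g t
  have hlim : Filter.Tendsto (fun t => ENNReal.ofReal (1 / (rho * s0 * s0)) * B *
      nr (wg G rho s0) (le1 (p t))) Filter.atTop (nhds 0) := by
    have h2 := ENNReal.Tendsto.const_mul (a := ENNReal.ofReal (1 / (rho * s0 * s0)) * B) h.small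
      (Or.inr (ENNReal.mul_ne_top ENNReal.ofReal_ne_top hB))
    simpa using h2
  have h1 : Filter.Tendsto (fun t => ‖at0 (XX (p t) (cmp Φ t g)) k‖ₑ) Filter.atTop (nhds 0) :=
    tendsto_of_tendsto_of_tendsto_of_le_of_le tendsto_const_nhds hlim (fun t => zero_le) key
  rw [tendsto_zero_iff_norm_tendsto_zero]
  have h2 := (ENNReal.tendsto_toReal ENNReal.zero_ne_top).comp h1
  simpa [Function.comp_def] using h2

end lime

/-- properties of the limit -/
theorem limit_main {G : Geo V} {rho s0 : ℝ} {s ep : ℕ → ℝ} {w : ℕ → V → ℝ} {p : ℕ → Mon V → ℂ}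
    {Φ : ℕ → (Mon V → ℂ) → Mon V → ℂ} {w' : V → ℝ} (h : Chain G rho s0 s ep w p Φ w') :
    (∀ g, nr (wm G rho (s 0)) g ≠ ∞ →
      nf s0 (fun k => Th Φ g k - at0 g k) ≤
        ENNReal.ofReal (2 * ∑' t, ep t) * nr (wm G rho (s 0)) g) ∧
    (∀ g g', nr (wm G rho (s 0)) g ≠ ∞ → nr (wm G rho (s 0)) g' ≠ ∞ →
      Th Φ (fun m => g m + g' m) = fun k => Th Φ g k + Th Φ g' k) ∧
    (∀ (c : ℂ) g, nr (wm G rho (s 0)) g ≠ ∞ → Th Φ (fun m => c * g m) = fun k => c * Th Φ g k) ∧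
    (∀ g g', nr (wm G rho (s 0)) g ≠ ∞ → nr (wm G rho (s 0)) g' ≠ ∞ →
      Th Φ (mulm g g') = mulf (Th Φ g) (Th Φ g')) ∧
    (Th Φ (em 0) = fun k => if k = 0 then 1 else 0) ∧
    (∀ g, nr (wm G rho (s 0)) g ≠ ∞ → ∀ k, Th Φ (cj g) k = (starRingEnd ℂ) (Th Φ g (-k))) ∧
    (∀ g, nr (wm G rho (s 0)) g ≠ ∞ → nr (wm G rho (s 0)) (dl (w 0) (p 0) g) ≠ ∞ → ∀ k,
      Complex.I * (dotm k w' : ℂ) * Th Φ g k = Th Φ (dl (w 0) (p 0) g) k) := by
  refine ⟨fun g _ => lime_near h g, ?_, ?_, ?_, ?_, ?_, ?_⟩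
  · intro g g' hg hg'
    funext k
    have hgg : nr (wm G rho (s 0)) (fun m => g m + g' m) ≠ ∞ :=
      ne_top_of_le_ne_top (ENNReal.add_ne_top.2 ⟨hg, hg'⟩) (nr_add_le _ _ _)
    refine tendsto_nhds_unique (lime_pt h hgg k) ?_
    have h1 := (lime_pt h hg k).add (lime_pt h hg' k)
    refine h1.congr fun t => ?_
    obtain ⟨e, he, ht⟩ := lime_tsf h t
    rw [ht.add g g' hg hg']
    rfl
  · intro c g hg
    funext k
    have hcg : nr (wm G rho (s 0)) (fun m => c * g m) ≠ ∞ := by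
      rw [nr_smul]
      exact ENNReal.mul_ne_top enorm_ne_top hg
    refine tendsto_nhds_unique (lime_pt h hcg k) ?_
    have h1 := (lime_pt h hg k).const_mul c
    refine h1.congr fun t => ?_
    obtain ⟨e, he, ht⟩ := lime_tsf h t
    rw [ht.smul c g]
    rfl
  · intro g g' hg hg'
    funext k
    have hs0 : 0 ≤ s 0 := h.s00.le.trans (h.s0s 0)
    have hgg : nr (wm G rho (s 0)) (mulm g g') ≠ ∞ :=
      ne_top_of_le_ne_top (ENNReal.mul_ne_top hg hg') (nr_mulm_le G rho (s 0) h.rho0 hs0 g g')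
    refine tendsto_nhds_unique (lime_pt h hgg k) ?_
    have hT : ∀ g, nr (wm G rho (s 0)) g ≠ ∞ → ∑' k, ‖Th Φ g k‖ₑ ≠ ∞ := by
      intro g hg
      have h1 : ∑' k, ‖Th Φ g k‖ₑ ≤ nf s0 (at0 g) + nf s0 (fun k => Th Φ g k - at0 g k) := by
        refine (lime_tsum_le h.s00.le _).trans ?_
        have h2 : Th Φ g = fun k => at0 g k + (Th Φ g k - at0 g k) := by
          funext k
          ring
        conv_lhs => rw [h2]
        exact nr_add_le (limeW s0) (at0 g) fun k => Th Φ g k - at0 g k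
      refine ne_top_of_le_ne_top (ENNReal.add_ne_top.2 ⟨?_, ?_⟩) h1
      · refine ne_top_of_le_ne_top hg ((nf_at0_le G rho s0 g).trans ?_)
        exact nr_mono (fun m => wm_mono G rho h.rho0 (h.s0s 0) m) g
      · exact ne_top_of_le_ne_top (ENNReal.mul_ne_top ENNReal.ofReal_ne_top hg) (lime_near h g)
    have hC : ∀ g, nr (wm G rho (s 0)) g ≠ ∞ → Filter.Tendsto
        (fun t => ∑' k, ‖at0 (cmp Φ t g) k - Th Φ g k‖ₑ) Filter.atTop (nhds 0) := by
      intro g hg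
      exact tendsto_of_tendsto_of_tendsto_of_le_of_le tendsto_const_nhds (Th_tendsto h g hg)
        (fun t => zero_le)
        (fun t => lime_tsum_le h.s00.le (fun k => at0 (cmp Φ t g) k - Th Φ g k))
    have h1 := lime_mulf (hC g hg) (hC g' hg') (hT g hg) (hT g' hg') k
    refine h1.congr fun t => ?_
    obtain ⟨e, he, ht⟩ := lime_tsf h t
    rw [ht.mul g g' hg hg', at0_mulm]
  · funext k
    have h1 : ∀ t, cmp Φ t (em 0) = em 0 := fun t => by
      obtain ⟨e, he, ht⟩ := lime_tsf h t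
      exact ht.one
    unfold Th
    simp only [h1, sub_self, tsum_zero, add_zero]
    unfold at0 em
    by_cases hk : k = 0
    · subst hk
      rw [if_pos rfl]
      exact Pi.single_eq_same (M := fun _ : Mon V => ℂ) 0 1
    · rw [if_neg hk, Pi.single_eq_of_ne]
      intro h
      exact hk (congrArg Prod.snd h)
  · intro g _ k
    have h1 : ∀ t, cmp Φ t (cj g) = cj (cmp Φ t g) := fun t => by
      obtain ⟨e, he, ht⟩ := lime_tsf h t
      exact ht.real g
    unfold Th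
    simp only [h1]
    unfold at0 cj
    simp only [map_add, Complex.conj_tsum, map_sub]
  · intro g hg hdg k
    have h1 := lime_pt h hdg k
    have h2 : Filter.Tendsto (fun t => Complex.I * (dotm k (w t) : ℂ) * at0 (cmp Φ t g) k +
        at0 (XX (p t) (cmp Φ t g)) k) Filter.atTop
        (nhds (Complex.I * (dotm k w' : ℂ) * Th Φ g k + 0)) := by
      have h3 : Filter.Tendsto (fun t => dotm k (w t)) Filter.atTop (nhds (dotm k w')) := by
        unfold dotm Finsupp.sum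
        exact tendsto_finsetSum _ fun j _ => (h.wlim j).const_mul _
      have h4 : Filter.Tendsto (fun t => (dotm k (w t) : ℂ)) Filter.atTop
          (nhds (dotm k w' : ℂ)) := (Complex.continuous_ofReal.tendsto _).comp h3
      exact ((h4.const_mul Complex.I).mul (lime_pt h hg k)).add (lime_small h hg k)
    rw [add_zero] at h2
    refine tendsto_nhds_unique h2 (h1.congr fun t => ?_)
    obtain ⟨e, he, ht⟩ := lime_tsf h t
    rw [← ht.inter g hg hdg]
    rfl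

end KX
end

section

/-!
# Evaluation of the limit: the torus functions
-/

set_option autoImplicit false

namespace KX

open scoped ENNReal

/-- the circle -/
abbrev Cir := AddCircle (2 * Real.pi)

/-- character of the torus -/
noncomputable def chi {V : Type} (k : V →₀ ℤ) (θ : V → Cir) : ℂ := k.prod fun j x => fourier x (θ j)

/-- sum of a Fourier series -/
noncomputable def evc {V : Type} (g : (V →₀ ℤ) → ℂ) (θ : V → Cir) : ℂ := ∑' k, g k * chi k θ

/-- motion with constant velocity -/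
noncomputable def flow {V : Type} (w : V → ℝ) (θ : V → Cir) (t : ℝ) : V → Cir :=
  fun j => θ j + ((t * w j : ℝ) : Cir)

variable {V : Type}

theorem fourier_norm_one (n : ℤ) (x : Cir) : ‖(fourier n x : ℂ)‖ = 1 := by
  rw [fourier_apply]
  exact Circle.norm_coe _

theorem norm_chi (k : V →₀ ℤ) (θ : V → Cir) : ‖chi k θ‖ = 1 := by
  unfold chi Finsupp.prod
  rw [norm_prod]
  exact Finset.prod_eq_one fun j _ => fourier_norm_one _ _

theorem chi_add (k k' : V →₀ ℤ) (θ : V → Cir) : chi (k + k') θ = chi k θ * chi k' θ := by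
  classical
  unfold chi
  rw [Finsupp.prod_add_index']
  · intro a
    simp
  · intro a m n
    exact fourier_add

theorem chi_neg (k : V →₀ ℤ) (θ : V → Cir) : chi (-k) θ = (starRingEnd ℂ) (chi k θ) := by
  unfold chi
  rw [Finsupp.prod_neg_index (fun a => by simp)]
  unfold Finsupp.prod
  rw [map_prod]
  exact Finset.prod_congr rfl fun j _ => fourier_neg

theorem chi_zero (θ : V → Cir) : chi 0 θ = 1 := by
  unfold chi
  exact Finsupp.prod_zero_index

theorem chi_continuous (k : V →₀ ℤ) : Continuous (chi k : (V → Cir) → ℂ) := by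
  unfold chi Finsupp.prod
  exact continuous_finsetProd _ fun j _ => (fourier (k j)).continuous.comp (continuous_apply j)

theorem fourier_shift (n : ℤ) (x : Cir) (u : ℝ) :
    (fourier n (x + (u : Cir)) : ℂ) = Complex.exp (Complex.I * ((n : ℝ) * u : ℝ)) * fourier n x := by
  have h1 : (fourier n (x + (u : Cir)) : ℂ) = fourier n x * fourier n (u : Cir) := by
    rw [fourier_apply, fourier_apply, fourier_apply, smul_add, AddCircle.toCircle_add]
    push_cast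
    rfl
  rw [h1, fourier_coe_apply, mul_comm]
  congr 2
  push_cast
  have : (Real.pi : ℂ) ≠ 0 := by exact_mod_cast Real.pi_ne_zero
  field_simp

theorem chi_flow (k : V →₀ ℤ) (w : V → ℝ) (θ : V → Cir) (t : ℝ) :
    chi k (flow w θ t) = Complex.exp (Complex.I * (t * (k.sum fun j x => (x : ℝ) * w j) : ℝ)) *
      chi k θ := by
  unfold chi flow Finsupp.prod Finsupp.sum
  rw [Finset.prod_congr rfl fun j _ => fourier_shift (k j) (θ j) (t * w j),
    Finset.prod_mul_distrib, ← Complex.exp_sum]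
  congr 2
  rw [← Finset.mul_sum]
  congr 1
  rw [← Complex.ofReal_sum]
  congr 1
  rw [Finset.mul_sum]
  exact Finset.sum_congr rfl fun j _ => by ring

theorem pow_sub_le (a b : ℂ) (ha : ‖a‖ = 1) (hb : ‖b‖ = 1) (n : ℕ) :
    ‖a ^ n - b ^ n‖ ≤ n * ‖a - b‖ := by
  induction n with
  | zero => simp
  | succ n ih =>
    have : a ^ (n + 1) - b ^ (n + 1) = (a ^ n - b ^ n) * a + b ^ n * (a - b) := by ring
    rw [this]
    refine (norm_add_le _ _).trans ?_
    rw [norm_mul, norm_mul, norm_pow, ha, hb, one_pow]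
    push_cast
    nlinarith [norm_nonneg (a - b)]

theorem fourier_pow (n : ℕ) (x : Cir) : (fourier (n : ℤ) x : ℂ) = (fourier 1 x : ℂ) ^ n := by
  induction n with
  | zero => simp
  | succ n ih =>
    push_cast
    rw [fourier_add, ih, pow_succ]

theorem fourier_sub_le (n : ℤ) (x y : Cir) :
    ‖(fourier n x : ℂ) - fourier n y‖ ≤ n.natAbs * ‖(fourier 1 x : ℂ) - fourier 1 y‖ := by
  have key : ∀ m : ℕ, ‖(fourier (m : ℤ) x : ℂ) - fourier (m : ℤ) y‖ ≤
      m * ‖(fourier 1 x : ℂ) - fourier 1 y‖ := by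
    intro m
    rw [fourier_pow, fourier_pow]
    exact pow_sub_le _ _ (fourier_norm_one _ _) (fourier_norm_one _ _) m
  rcases Int.natAbs_eq n with h | h
  · have h2 := key n.natAbs
    rw [← h] at h2
    exact h2
  · have h2 := key n.natAbs
    have h3 : (n.natAbs : ℤ) = -n := by omega
    rw [h3, fourier_neg, fourier_neg, ← map_sub] at h2
    rwa [RCLike.norm_conj] at h2

theorem prod_sub_le (S : Finset V) (a b : V → ℂ) (ha : ∀ j, ‖a j‖ = 1) (hb : ∀ j, ‖b j‖ = 1) :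
    ‖∏ j ∈ S, a j - ∏ j ∈ S, b j‖ ≤ ∑ j ∈ S, ‖a j - b j‖ := by
  classical
  induction S using Finset.induction_on with
  | empty => simp
  | insert i S hi ih =>
    rw [Finset.prod_insert hi, Finset.prod_insert hi, Finset.sum_insert hi]
    have : a i * ∏ j ∈ S, a j - b i * ∏ j ∈ S, b j =
        (a i - b i) * ∏ j ∈ S, a j + b i * (∏ j ∈ S, a j - ∏ j ∈ S, b j) := by ring
    rw [this]
    refine (norm_add_le _ _).trans ?_
    rw [norm_mul, norm_mul, norm_prod, Finset.prod_eq_one (fun j _ => ha j), hb, mul_one, one_mul]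
    exact add_le_add le_rfl ih

theorem chi_sub_le (k : V →₀ ℤ) (θ θ' : V → Cir) (δ : ℝ)
    (h : ∀ j, ‖(fourier 1 (θ j) : ℂ) - fourier 1 (θ' j)‖ ≤ δ) :
    ‖chi k θ - chi k θ'‖ ≤ kab k * δ := by
  unfold chi Finsupp.prod kab Finsupp.sum
  refine (prod_sub_le _ (fun j => (fourier (k j) (θ j) : ℂ)) (fun j => (fourier (k j) (θ' j) : ℂ))
    (fun j => fourier_norm_one _ _) (fun j => fourier_norm_one _ _)).trans ?_
  push_cast
  rw [Finset.sum_mul]
  refine Finset.sum_le_sum fun j _ => ?_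
  refine (fourier_sub_le _ _ _).trans ?_
  exact mul_le_mul_of_nonneg_left (h j) (by positivity)

end KX
end

section

/-!
# Evaluation of the limit: the torus functions
-/

set_option autoImplicit false

namespace KX

open scoped ENNReal

variable {V : Type}

private theorem torc_summable (s : ℝ) (hs : 0 ≤ s) (g : (V →₀ ℤ) → ℂ) (hg : nf s g ≠ ∞) :
    Summable fun k => ‖g k‖ := by
  have h1 : ∑' k, ‖g k‖ₑ ≠ ∞ := by
    refine ne_top_of_le_ne_top hg ?_
    unfold nf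
    refine ENNReal.tsum_le_tsum fun k => ?_
    refine le_mul_of_one_le_right zero_le ?_
    rw [ENNReal.one_le_ofReal]
    exact Real.one_le_exp (by positivity)
  have h2 := ENNReal.summable_toReal h1
  simpa only [toReal_enorm] using h2

private theorem torc_push {ι M : Type} (T : ι → M) (u : ι → ℂ) (φ : M → ℂ) (C : ℝ)
    (hφ : ∀ m, ‖φ m‖ ≤ C) (hu : Summable fun i => ‖u i‖) :
    ∑' m, push T u m * φ m = ∑' i, u i * φ (T i) := by
  classical
  have hC : Summable fun i => u i * φ (T i) := by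
    refine Summable.of_norm_bounded (g := fun i => ‖u i‖ * C) (hu.mul_right C) fun i => ?_
    rw [norm_mul]
    exact mul_le_mul_of_nonneg_left (hφ _) (norm_nonneg _)
  let F : M × ι → ℂ := fun p => if T p.2 = p.1 then u p.2 * φ p.1 else 0
  have hinj : Function.Injective (fun i => (T i, i) : ι → M × ι) := fun i j h =>
    (Prod.ext_iff.1 h).2
  have hsupp : ∀ x, x ∉ Set.range (fun i => (T i, i) : ι → M × ι) → F x = 0 := by
    rintro ⟨m, i⟩ hx
    have : T i ≠ m := by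
      rintro rfl
      exact hx ⟨i, rfl⟩
    simp [F, this]
  have hF : Summable F := by
    rw [← hinj.summable_iff hsupp]
    convert hC using 1
    funext i
    simp [F]
  have h1 : ∀ m, push T u m * φ m = ∑' i, F (m, i) := by
    intro m
    unfold push
    rw [← tsum_mul_right]
    refine tsum_congr fun i => ?_
    simp only [F]
    split_ifs
    · rfl
    · rw [zero_mul]
  rw [tsum_congr h1, ← hF.tsum_prod]
  have h2 : ∑' i, F (T i, i) = ∑' p, F p :=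
    hinj.tsum_eq (f := F) (fun x hx => by
      by_contra h
      exact hx (hsupp x h))
  rw [← h2]
  refine tsum_congr fun i => ?_
  simp [F]

theorem evc_mulf (s : ℝ) (hs : 0 ≤ s) (g h : (V →₀ ℤ) → ℂ) (hg : nf s g ≠ ∞) (hh : nf s h ≠ ∞)
    (θ : V → Cir) : evc (mulf g h) θ = evc g θ * evc h θ := by
  have hg' := torc_summable s hs g hg
  have hh' := torc_summable s hs h hh
  have hu : Summable fun x : (V →₀ ℤ) × (V →₀ ℤ) => ‖g x.1 * h x.2‖ := by
    simp only [norm_mul]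
    exact hg'.mul_of_nonneg hh' (fun _ => norm_nonneg _) (fun _ => norm_nonneg _)
  unfold evc mulf
  rw [torc_push _ _ (fun k => chi k θ) 1 (fun k => (norm_chi k θ).le) hu]
  have h1 : Summable fun k => ‖g k * chi k θ‖ := by
    simpa only [norm_mul, norm_chi, mul_one] using hg'
  have h2 : Summable fun k => ‖h k * chi k θ‖ := by
    simpa only [norm_mul, norm_chi, mul_one] using hh'
  rw [tsum_mul_tsum_of_summable_norm h1 h2]
  refine tsum_congr fun x => ?_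
  rw [chi_add]
  ring

theorem evc_deriv (s : ℝ) (hs : 0 ≤ s) (w : V → ℝ) (g h : (V →₀ ℤ) → ℂ) (hg : nf s g ≠ ∞)
    (hh : nf s h ≠ ∞) (hgh : ∀ k, Complex.I * (dotm k w : ℂ) * g k = h k) (θ : V → Cir) (t : ℝ) :
    HasDerivAt (fun t => evc g (flow w θ t)) (evc h (flow w θ t)) t := by
  have hg' := torc_summable s hs g hg
  have hh' := torc_summable s hs h hh
  unfold evc
  refine hasDerivAt_tsum (u := fun k => ‖h k‖) (g := fun k t => g k * chi k (flow w θ t))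
    (g' := fun k t => h k * chi k (flow w θ t)) (y₀ := t) hh' ?_ ?_ ?_ t
  · intro k y
    have h1 : HasDerivAt (fun y : ℝ => Complex.exp (Complex.I * ((y * dotm k w : ℝ) : ℂ)))
        (Complex.exp (Complex.I * ((y * dotm k w : ℝ) : ℂ)) *
          (Complex.I * (dotm k w : ℂ))) y := by
      apply HasDerivAt.cexp
      have h2 : HasDerivAt (fun y : ℝ => ((y * dotm k w : ℝ) : ℂ)) (dotm k w : ℂ) y := by
        have := ((hasDerivAt_id y).mul_const (dotm k w)).ofReal_comp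
        simpa using this
      exact h2.const_mul Complex.I
    have h3 : ∀ y : ℝ, chi k (flow w θ y) =
        Complex.exp (Complex.I * ((y * dotm k w : ℝ) : ℂ)) * chi k θ := fun y => by
      rw [chi_flow]
      rfl
    have h4 := (h1.mul_const (chi k θ)).const_mul (g k)
    have h5 : (fun t => g k * chi k (flow w θ t)) = fun y : ℝ =>
        g k * (Complex.exp (Complex.I * ((y * dotm k w : ℝ) : ℂ)) * chi k θ) := by
      funext y
      rw [h3]
    have h6 : h k * chi k (flow w θ y) = g k * (Complex.exp (Complex.I * ((y * dotm k w : ℝ) : ℂ)) *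
          (Complex.I * (dotm k w : ℂ)) * chi k θ) := by
      rw [h3, ← hgh]
      ring
    rw [h5, h6]
    exact h4
  · intro k y
    rw [norm_mul, norm_chi, mul_one]
  · apply Summable.of_norm
    simpa only [norm_mul, norm_chi, mul_one] using hg'

end KX
end

section

/-!
# Evaluation of the limit: the torus functions
-/

set_option autoImplicit false

namespace KX

open scoped ENNReal

variable {V : Type}

/-- value of a monomial -/
noncomputable def Mv (X E : V → ℂ) (m : Mon V) : ℂ :=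
  (m.1.prod fun j n => X j ^ n) * m.2.prod fun j n => E j ^ n

variable [DecidableEq V]

/-- the torus functions -/
noncomputable def TX (Φ : ℕ → (Mon V → ℂ) → Mon V → ℂ) (θ : V → Cir) (j : V) : ℂ :=
  evc (Th Φ (em (Finsupp.single j 1, 0))) θ

noncomputable def TE (Φ : ℕ → (Mon V → ℂ) → Mon V → ℂ) (θ : V → Cir) (j : V) : ℂ :=
  evc (Th Φ (em (0, Finsupp.single j 1))) θ

theorem nf_Th_le {G : Geo V} {rho s0 : ℝ} {s ep : ℕ → ℝ} {w : ℕ → V → ℝ} {p : ℕ → Mon V → ℂ}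
    {Φ : ℕ → (Mon V → ℂ) → Mon V → ℂ} {w' : V → ℝ} (h : Chain G rho s0 s ep w p Φ w')
    (g : Mon V → ℂ) (hg : nr (wm G rho (s 0)) g ≠ ∞) :
    nf s0 (Th Φ g) ≤ 2 * nr (wm G rho (s 0)) g ∧ nf s0 (Th Φ g) ≠ ∞ := by
  have h1 : nf s0 (fun k => Th Φ g k - at0 g k) ≤ nr (wm G rho (s 0)) g := by
    refine ((limit_main h).1 g hg).trans ?_
    have h2 : ENNReal.ofReal (2 * ∑' t, ep t) ≤ 1 := by
      rw [ENNReal.ofReal_le_one]
      have := h.ep4
      linarith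
    calc _ ≤ 1 * nr (wm G rho (s 0)) g := mul_le_mul_left h2 _
      _ = _ := one_mul _
  have h3 : nf s0 (at0 g) ≤ nr (wm G rho (s 0)) g :=
    (nf_at0_le G rho s0 g).trans (nr_mono (fun m => wm_mono G rho h.rho0 (h.s0s 0) m) g)
  have h4 : nf s0 (Th Φ g) ≤ 2 * nr (wm G rho (s 0)) g := by
    have h5 : nf s0 (fun k => (Th Φ g k - at0 g k) + at0 g k) ≤
        nf s0 (fun k => Th Φ g k - at0 g k) + nf s0 (at0 g) :=
      nr_add_le (fun k => ENNReal.ofReal (Real.exp (s0 * kab k))) _ _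
    have h6 : (fun k => (Th Φ g k - at0 g k) + at0 g k) = Th Φ g := by
      funext k
      ring
    rw [h6] at h5
    refine h5.trans ?_
    rw [two_mul]
    exact add_le_add h1 h3
  exact ⟨h4, ne_top_of_le_ne_top (ENNReal.mul_ne_top (by norm_num) hg) h4⟩

omit [DecidableEq V] in
theorem tord_nat (f : (V →₀ ℕ) → ℂ) (h0 : f 0 = 1) (ha : ∀ a b, f (a + b) = f a * f b)
    (n : V →₀ ℕ) : f n = n.prod fun j x => f (Finsupp.single j 1) ^ x := by
  classical
  induction n using Finsupp.induction_linear with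
  | zero => simp [h0]
  | add a b iha ihb =>
    rw [ha, iha, ihb, Finsupp.prod_add_index' (fun _ => pow_zero _) fun _ _ _ => pow_add _ _ _]
  | single j x =>
    rw [Finsupp.prod_single_index (h := fun j x => f (Finsupp.single j 1) ^ x) (pow_zero _)]
    induction x with
    | zero => simp [h0]
    | succ x ih => rw [Finsupp.single_add, ha, ih, pow_succ]

omit [DecidableEq V] in
theorem tord_int (f : (V →₀ ℤ) → ℂ) (h0 : f 0 = 1) (ha : ∀ a b, f (a + b) = f a * f b)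
    (n : V →₀ ℤ) : f n = n.prod fun j x => f (Finsupp.single j 1) ^ x := by
  classical
  have hne : ∀ j, f (Finsupp.single j 1) ≠ 0 := by
    intro j hj
    have h1 : f (Finsupp.single j 1 + Finsupp.single j (-1)) = 1 := by
      rw [← Finsupp.single_add]
      simp [h0]
    rw [ha, hj, zero_mul] at h1
    exact zero_ne_one h1
  induction n using Finsupp.induction_linear with
  | zero => simp [h0]
  | add a b iha ihb =>
    rw [ha, iha, ihb,
      Finsupp.prod_add_index' (fun _ => zpow_zero _) fun j _ _ => zpow_add₀ (hne j) _ _]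
  | single j x =>
    rw [Finsupp.prod_single_index (h := fun j x => f (Finsupp.single j 1) ^ x) (zpow_zero _)]
    induction x using Int.induction_on with
    | zero => simp [h0]
    | succ i ih => rw [Finsupp.single_add, ha, ih, zpow_add_one₀ (hne j)]
    | pred i ih =>
      have h1 : f (Finsupp.single j (-(i : ℤ) - 1)) * f (Finsupp.single j 1) =
          f (Finsupp.single j (-(i : ℤ))) := by
        rw [← ha, ← Finsupp.single_add]
        congr 2
        ring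
      rw [ih] at h1
      rw [zpow_sub_one₀ (hne j), ← h1, mul_assoc, mul_inv_cancel₀ (hne j), mul_one]

theorem tord_nr_em (G : Geo V) (rho s : ℝ) (m : Mon V) : nr (wm G rho s) (em m) ≠ ∞ := by
  classical
  have h1 : nr (wm G rho s) (em m) = wm G rho s m := by
    unfold nr em
    rw [tsum_eq_single m]
    · simp
    · intro m' hm'
      simp [Pi.single_eq_of_ne hm']
  rw [h1]
  exact ENNReal.ofReal_ne_top

omit [DecidableEq V] in
theorem tord_em_add [DecidableEq V] (m m' : Mon V) : em (m + m') = mulm (em m) (em m') := by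
  classical
  funext μ
  unfold mulm push
  rw [tsum_eq_single (m, m')]
  · by_cases h : m + m' = μ
    · subst h
      simp [em]
    · rw [if_neg h]
      simp [em, eq_comm (a := μ), h]
  · rintro ⟨a, b⟩ hab
    by_cases ha : a = m
    · by_cases hb : b = m'
      · exact absurd (by rw [ha, hb]) hab
      · simp [em, Pi.single_apply, hb]
    · simp [em, Pi.single_apply, ha]

theorem Th_em {G : Geo V} {rho s0 : ℝ} {s ep : ℕ → ℝ} {w : ℕ → V → ℝ} {p : ℕ → Mon V → ℂ}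
    {Φ : ℕ → (Mon V → ℂ) → Mon V → ℂ} {w' : V → ℝ} (h : Chain G rho s0 s ep w p Φ w')
    (θ : V → Cir) (m : Mon V) : evc (Th Φ (em m)) θ = Mv (TX Φ θ) (TE Φ θ) m := by
  classical
  have h0 : evc (Th Φ (em 0)) θ = 1 := by
    rw [(limit_main h).2.2.2.2.1]
    unfold evc
    rw [tsum_eq_single 0]
    · simp [chi_zero]
    · intro k hk
      simp [hk]
  have ha : ∀ m m' : Mon V, evc (Th Φ (em (m + m'))) θ =
      evc (Th Φ (em m)) θ * evc (Th Φ (em m')) θ := by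
    intro m m'
    rw [tord_em_add, (limit_main h).2.2.2.1 _ _ (tord_nr_em G rho (s 0) m)
      (tord_nr_em G rho (s 0) m')]
    exact evc_mulf s0 h.s00.le _ _ (nf_Th_le h _ (tord_nr_em G rho (s 0) m)).2
      (nf_Th_le h _ (tord_nr_em G rho (s 0) m')).2 θ
  have h1 : m = (m.1, 0) + (0, m.2) := by simp
  have h2 := tord_nat (fun n => evc (Th Φ (em (n, 0))) θ) h0 (fun a b => by
    have := ha (a, 0) (b, 0)
    simpa using this) m.1
  have h3 := tord_int (fun k => evc (Th Φ (em (0, k))) θ) h0 (fun a b => by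
    have := ha (0, a) (0, b)
    simpa using this) m.2
  rw [h1, ha]
  unfold Mv TX TE
  rw [h2, h3]
  simp

end KX
end

section

/-!
# Parameters for `ℤ^d`: growth scale and constants of the blocks
-/

set_option autoImplicit false

namespace KX

open Filter

/-- growth scale -/
noncomputable def Sg (a : ℕ) : ℝ := ((a : ℝ) + 1) ^ 3 * √((a : ℝ) + 1)

theorem one_le_sqrt_add (a : ℕ) : 1 ≤ √((a : ℝ) + 1) := by
  rw [Real.one_le_sqrt]
  have : (0 : ℝ) ≤ a := Nat.cast_nonneg _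
  linarith

theorem one_le_Sg (a : ℕ) : 1 ≤ Sg a := by
  have h1 := one_le_sqrt_add a
  have h2 : (1 : ℝ) ≤ ((a : ℝ) + 1) ^ 3 := one_le_pow₀ (by
    have : (0 : ℝ) ≤ a := Nat.cast_nonneg _
    linarith)
  unfold Sg
  nlinarith

theorem add_one_le_Sg (a : ℕ) : (a : ℝ) + 1 ≤ Sg a := by
  have h1 := one_le_sqrt_add a
  have h0 : (0 : ℝ) ≤ a := Nat.cast_nonneg _
  have h2 : (a : ℝ) + 1 ≤ ((a : ℝ) + 1) ^ 3 := by
    nlinarith [mul_nonneg h0 h0, mul_nonneg h0 (mul_nonneg h0 h0)]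
  unfold Sg
  nlinarith

/-- functions of subexponential growth on the scale of the mass units -/
def Sub (f : ℕ → ℝ) : Prop := ∃ C : ℝ, 0 ≤ C ∧ ∀ a, |f a| ≤ Real.exp (C * Sg a)

theorem Sub.mono {f g : ℕ → ℝ} (hg : Sub g) (h : ∀ a, |f a| ≤ |g a|) : Sub f := by
  obtain ⟨C, hC, h1⟩ := hg
  exact ⟨C, hC, fun a => (h a).trans (h1 a)⟩

theorem Sub.expS (C : ℝ) (hC : 0 ≤ C) {f : ℕ → ℝ} (h : ∀ a, f a ≤ C * Sg a) :
    Sub fun a => Real.exp (f a) :=
  ⟨C, hC, fun a => by rw [abs_of_pos (Real.exp_pos _)]; exact Real.exp_le_exp.2 (h a)⟩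

theorem Sub.of_le (C : ℝ) (hC : 0 ≤ C) {f : ℕ → ℝ} (h : ∀ a, |f a| ≤ C * Sg a) : Sub f :=
  ⟨C, hC, fun a => (h a).trans (by
    have := Real.add_one_le_exp (C * Sg a)
    linarith)⟩

theorem Sub.const (c : ℝ) : Sub fun _ => c :=
  Sub.of_le |c| (abs_nonneg c) fun a => by
    have := one_le_Sg a
    have := abs_nonneg c
    nlinarith

theorem Sub.nat : Sub fun a => (a : ℝ) :=
  Sub.of_le 1 zero_le_one fun a => by
    have h0 : (0 : ℝ) ≤ a := Nat.cast_nonneg _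
    rw [abs_of_nonneg h0]
    have := add_one_le_Sg a
    linarith

theorem Sub.add {f g : ℕ → ℝ} (hf : Sub f) (hg : Sub g) : Sub fun a => f a + g a := by
  obtain ⟨C, hC, h1⟩ := hf
  obtain ⟨D, hD, h2⟩ := hg
  refine ⟨C + D + 1, by linarith, fun a => ?_⟩
  have hS := one_le_Sg a
  have e1 : Real.exp (C * Sg a) ≤ Real.exp ((C + D) * Sg a) :=
    Real.exp_le_exp.2 (by nlinarith)
  have e2 : Real.exp (D * Sg a) ≤ Real.exp ((C + D) * Sg a) :=
    Real.exp_le_exp.2 (by nlinarith)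
  have e3 : 2 * Real.exp ((C + D) * Sg a) ≤ Real.exp ((C + D + 1) * Sg a) := by
    have : (C + D + 1) * Sg a = (C + D) * Sg a + Sg a := by ring
    rw [this, Real.exp_add, mul_comm]
    have h3 : (2 : ℝ) ≤ Real.exp (Sg a) := by
      have := Real.add_one_le_exp (Sg a)
      linarith
    exact mul_le_mul_of_nonneg_left h3 (Real.exp_pos _).le
  calc |f a + g a| ≤ |f a| + |g a| := abs_add_le _ _
    _ ≤ _ := by linarith [h1 a, h2 a]

theorem Sub.mul {f g : ℕ → ℝ} (hf : Sub f) (hg : Sub g) : Sub fun a => f a * g a := by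
  obtain ⟨C, hC, h1⟩ := hf
  obtain ⟨D, hD, h2⟩ := hg
  refine ⟨C + D, by linarith, fun a => ?_⟩
  rw [abs_mul, add_mul, Real.exp_add]
  exact mul_le_mul (h1 a) (h2 a) (abs_nonneg _) (Real.exp_pos _).le

theorem Sub.pow {f : ℕ → ℝ} (hf : Sub f) (n : ℕ) : Sub fun a => f a ^ n := by
  induction n with
  | zero => simpa using Sub.const 1
  | succ n ih => simpa [pow_succ] using ih.mul hf

theorem Sub.cmul {f : ℕ → ℝ} (hf : Sub f) (c : ℝ) : Sub fun a => c * f a :=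
  (Sub.const c).mul hf

theorem Sub.nat1 : Sub fun a => (a : ℝ) + 1 := Sub.nat.add (Sub.const 1)

/-- the mass units -/
noncomputable def muZ (a : ℕ) : ℝ := (3 / 2 : ℝ) ^ (a ^ 4)

theorem muZ_pos (a : ℕ) : 0 < muZ a := by unfold muZ; positivity

theorem exp_third : Real.exp (1 / 3) ≤ 3 / 2 := by
  have h1 : Real.exp 1 ≤ 2.7182818286 := Real.exp_one_lt_d9.le
  have h2 : Real.exp (1 / 3) ^ 3 = Real.exp 1 := by
    rw [← Real.exp_nat_mul]; norm_num
  by_contra h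
  push Not at h
  have h3 : (3 / 2 : ℝ) ^ 3 < Real.exp (1 / 3) ^ 3 := pow_lt_pow_left₀ h (by norm_num) (by norm_num)
  rw [h2] at h3
  norm_num at h3
  linarith

theorem exp_le_muZ (a : ℕ) : Real.exp ((a : ℝ) ^ 4 / 3) ≤ muZ a := by
  have : (a : ℝ) ^ 4 / 3 = ((a ^ 4 : ℕ) : ℝ) * (1 / 3) := by push_cast; ring
  rw [this, Real.exp_nat_mul]
  exact pow_le_pow_left₀ (Real.exp_pos _).le exp_third _

/-- everything subexponential is small compared with the mass units -/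
theorem Sub.le_mu {f : ℕ → ℝ} (hf : Sub f) {ε : ℝ} (hε : 0 < ε) :
    ∀ᶠ a in atTop, f a ≤ ε * muZ a := by
  obtain ⟨C, hC, h1⟩ := hf
  set D : ℝ := 48 * (C + |Real.log ε|) with hD
  filter_upwards [eventually_ge_atTop (⌈D ^ 2⌉₊ + 1)] with a ha
  have ha1 : 1 ≤ a := by omega
  have ha1' : (1 : ℝ) ≤ a := by exact_mod_cast ha1
  have ha2 : D ^ 2 ≤ a := by
    have := Nat.le_ceil (D ^ 2)
    have h2 : ((⌈D ^ 2⌉₊ + 1 : ℕ) : ℝ) ≤ a := by exact_mod_cast ha
    push_cast at h2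
    linarith
  set x := √((a : ℝ) + 1) with hx
  have hx1 : 1 ≤ x := one_le_sqrt_add a
  have hxx : x ^ 2 = (a : ℝ) + 1 := Real.sq_sqrt (by linarith)
  have hD0 : 0 ≤ D := by have := abs_nonneg (Real.log ε); positivity
  have hDx : D ≤ x := by
    rw [hx]
    refine Real.le_sqrt_of_sq_le ?_
    linarith
  have hS : Sg a = x ^ 7 := by
    unfold Sg
    rw [← hx, ← hxx]
    ring
  have h2 : (a : ℝ) ^ 4 / 3 ≥ x ^ 8 / 48 := by
    have h3 : x ^ 8 = ((a : ℝ) + 1) ^ 4 := by rw [← hxx]; ring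
    rw [h3]
    have h4 : ((a : ℝ) + 1) ^ 4 ≤ (2 * a) ^ 4 := pow_le_pow_left₀ (by linarith) (by linarith) 4
    have h5 : (2 * (a : ℝ)) ^ 4 = 16 * (a : ℝ) ^ 4 := by ring
    rw [h5] at h4
    linarith
  have hx7 : (1 : ℝ) ≤ x ^ 7 := one_le_pow₀ hx1
  have h3 : C * Sg a ≤ Real.log ε + (a : ℝ) ^ 4 / 3 := by
    rw [hS]
    have h4 := neg_abs_le (Real.log ε)
    have h5 : (C + |Real.log ε|) * x ^ 7 ≤ x ^ 8 / 48 := by
      have : x ^ 8 / 48 = (x / 48) * x ^ 7 := by ring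
      rw [this]
      refine mul_le_mul_of_nonneg_right ?_ (by positivity)
      rw [hD] at hDx
      linarith
    have h6 : |Real.log ε| ≤ |Real.log ε| * x ^ 7 := by
      have := abs_nonneg (Real.log ε)
      nlinarith
    nlinarith
  calc f a ≤ |f a| := le_abs_self _
    _ ≤ Real.exp (C * Sg a) := h1 a
    _ ≤ Real.exp (Real.log ε + (a : ℝ) ^ 4 / 3) := Real.exp_le_exp.2 h3
    _ = ε * Real.exp ((a : ℝ) ^ 4 / 3) := by rw [Real.exp_add, Real.exp_log hε]
    _ ≤ ε * muZ a := mul_le_mul_of_nonneg_left (exp_le_muZ a) hε.le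

theorem Sub.le_exp_mu {f : ℕ → ℝ} (hf : Sub f) {ε : ℝ} (hε : 0 < ε) :
    ∀ᶠ a in atTop, f a ≤ Real.exp (ε * muZ a) := by
  filter_upwards [hf.le_mu hε] with a ha
  have := Real.add_one_le_exp (ε * muZ a)
  linarith

/-- number of windows of the block `a` -/
def LZ (a : ℕ) : ℕ := 4 * a ^ 3 + 6 * a ^ 2 + 4 * a + 5

theorem LZ_eq (a : ℕ) : a ^ 4 + LZ a = (a + 1) ^ 4 + 4 := by unfold LZ; ring

theorem LZ_le (a : ℕ) : ((2 * LZ a : ℕ) : ℝ) ≤ 10 * ((a : ℝ) + 1) ^ 3 := by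
  unfold LZ
  push_cast
  have h0 : (0 : ℝ) ≤ a := Nat.cast_nonneg _
  nlinarith [mul_nonneg h0 h0, mul_nonneg h0 (mul_nonneg h0 h0)]

theorem LZ_ge (a : ℕ) : ((a : ℝ) + 1) ^ 3 ≤ ((2 * LZ a : ℕ) : ℝ) := by
  unfold LZ
  push_cast
  have h0 : (0 : ℝ) ≤ a := Nat.cast_nonneg _
  nlinarith [mul_nonneg h0 h0, mul_nonneg h0 (mul_nonneg h0 h0)]

theorem one_le_LZ (a : ℕ) : 1 ≤ LZ a := by unfold LZ; omega

theorem Sub.T : Sub fun a => ((2 * LZ a : ℕ) : ℝ) :=
  ((Sub.nat1.pow 3).cmul 10).mono fun a => by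
    have h0 : (0 : ℝ) ≤ a := Nat.cast_nonneg _
    rw [abs_of_nonneg (by positivity), abs_of_nonneg (by positivity)]
    exact LZ_le a

/-- cost of a site in the small divisor conditions -/
noncomputable def ellZ (a : ℕ) : ℝ := √((a : ℝ) + 1)

theorem one_le_ellZ (a : ℕ) : 1 ≤ ellZ a := one_le_sqrt_add a

theorem Sub.ell : Sub ellZ := Sub.of_le 1 zero_le_one fun a => by
  have h1 := one_le_ellZ a
  rw [abs_of_nonneg (by linarith)]
  have h2 : ellZ a ≤ (a : ℝ) + 1 := by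
    unfold ellZ
    have h0 : (0 : ℝ) ≤ a := Nat.cast_nonneg _
    rw [Real.sqrt_le_left (by linarith)]
    nlinarith
  have := add_one_le_Sg a
  linarith

/-- logarithm of the radius of the set of inner sites -/
noncomputable def lR (δ : ℝ) (a : ℕ) : ℝ := 4 * (2 * LZ a : ℕ) * ellZ a / δ

theorem lR_nonneg (δ : ℝ) (hδ : 0 < δ) (a : ℕ) : 0 ≤ lR δ a := by
  have := one_le_ellZ a
  unfold lR
  positivity

theorem lR_le (δ : ℝ) (hδ : 0 < δ) (a : ℕ) : lR δ a ≤ 40 / δ * Sg a := by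
  have h1 := LZ_le a
  have h2 := one_le_ellZ a
  unfold lR Sg
  rw [div_mul_eq_mul_div]
  have h3 : √((a : ℝ) + 1) = ellZ a := rfl
  rw [h3]
  have : 4 * ((2 * LZ a : ℕ) : ℝ) * ellZ a ≤ 40 * (((a : ℝ) + 1) ^ 3 * ellZ a) := by
    nlinarith
  gcongr

/-- the inner sites -/
noncomputable def BZ (d : ℕ) (δ : ℝ) (a : ℕ) : Finset (Fin d → ℤ) :=
  Fintype.piFinset fun _ =>
    Finset.Icc (-((⌊Real.exp (lR δ a)⌋₊ : ℕ) : ℤ)) ((⌊Real.exp (lR δ a)⌋₊ : ℕ) : ℤ)

theorem card_BZ_le (d : ℕ) (δ : ℝ) (hδ : 0 < δ) (a : ℕ) :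
    ((BZ d δ a).card : ℝ) ≤ Real.exp (2 * d + d * lR δ a) := by
  unfold BZ
  rw [Fintype.card_piFinset]
  simp only [Int.card_Icc, Finset.prod_const, Finset.card_univ, Fintype.card_fin]
  set n := ⌊Real.exp (lR δ a)⌋₊ with hn
  have h1 : ((n : ℤ) + 1 - -(n : ℤ)).toNat = 2 * n + 1 := by omega
  rw [h1]
  push_cast
  have h2 : (n : ℝ) ≤ Real.exp (lR δ a) := Nat.floor_le (Real.exp_pos _).le
  have h3 : 1 ≤ Real.exp (lR δ a) := Real.one_le_exp (lR_nonneg δ hδ a)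
  have h4 : (2 * (n : ℝ) + 1) ≤ Real.exp (2 + lR δ a) := by
    rw [Real.exp_add]
    have h5 : (3 : ℝ) ≤ Real.exp 2 := by
      have := Real.add_one_le_exp (2 : ℝ)
      linarith
    nlinarith
  calc (2 * (n : ℝ) + 1) ^ d ≤ Real.exp (2 + lR δ a) ^ d := pow_le_pow_left₀ (by positivity) h4 d
    _ = _ := by
      rw [← Real.exp_nat_mul]
      congr 1
      ring

theorem Sub.B (d : ℕ) (δ : ℝ) (hδ : 0 < δ) : Sub fun a => ((BZ d δ a).card : ℝ) := by
  have h : Sub fun a => Real.exp (2 * d + d * lR δ a) := by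
    refine Sub.expS (2 * d + d * (40 / δ)) (by positivity) fun a => ?_
    have h1 := lR_le δ hδ a
    have h2 := one_le_Sg a
    have h3 : (0 : ℝ) ≤ d := Nat.cast_nonneg _
    have h4 : (d : ℝ) * lR δ a ≤ d * (40 / δ * Sg a) := mul_le_mul_of_nonneg_left h1 h3
    nlinarith
  exact h.mono fun a => by
    rw [abs_of_nonneg (by positivity), abs_of_nonneg (Real.exp_pos _).le]
    exact card_BZ_le d δ hδ a

theorem notMem_BZ (d : ℕ) (δ : ℝ) (a : ℕ) (j : Fin d → ℤ) (hj : j ∉ BZ d δ a) :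
    Real.exp (lR δ a) < brz j := by
  unfold BZ at hj
  rw [Fintype.mem_piFinset] at hj
  push Not at hj
  obtain ⟨b, hb⟩ := hj
  set n := ⌊Real.exp (lR δ a)⌋₊ with hn
  have h1 : n + 1 ≤ (j b).natAbs := by
    rw [Finset.mem_Icc] at hb
    omega
  have h2 : (j b).natAbs ≤ nd j 0 := by
    unfold nd
    have := Finset.le_sup (f := fun a => (j a - (0 : Fin d → ℤ) a).natAbs) (Finset.mem_univ b)
    simpa using this
  have h3 : Real.exp (lR δ a) < n + 1 := Nat.lt_floor_add_one _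
  have h4 : ((n : ℝ) + 1) ≤ nd j 0 := by exact_mod_cast h1.trans h2
  unfold brz
  linarith

theorem lR_lt_log (d : ℕ) (δ : ℝ) (a : ℕ) (j : Fin d → ℤ) (hj : j ∉ BZ d δ a) :
    lR δ a < Real.log (brz j) := by
  rw [Real.lt_log_iff_exp_lt (brz_pos j)]
  exact notMem_BZ d δ a j hj

end KX
end

section

/-!
# Parameters for `ℤ^d`: the constants of one block satisfy all conditions, for large index
-/

set_option autoImplicit false

namespace KX

open Filter

/-- multiplicity constant -/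
noncomputable def QZ (d : ℕ) (δ : ℝ) : ℕ := ⌈8 * ((d : ℝ) + δ) / δ⌉₊

theorem QZ_ge (d : ℕ) (δ : ℝ) (hδ : 0 < δ) : 8 * ((d : ℝ) + δ) ≤ δ * QZ d δ := by
  have h := Nat.le_ceil (8 * ((d : ℝ) + δ) / δ)
  unfold QZ
  rw [div_le_iff₀ hδ] at h
  linarith

/-- mass of an outer site, without the growth -/
noncomputable def AZ (d : ℕ) (δ : ℝ) : ℝ := 72 * (8 + QZ d δ)

theorem AZ_pos (d : ℕ) (δ : ℝ) : 0 < AZ d δ := by unfold AZ; positivity

/-- mass of an outer site -/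
noncomputable def laZ (d : ℕ) (δ : ℝ) (a : ℕ) : ℝ := AZ d δ * ((a : ℝ) + 1) * ellZ a

theorem laZ_ge (d : ℕ) (δ : ℝ) (a : ℕ) : 1 ≤ laZ d δ a := by
  unfold laZ AZ
  have h1 := one_le_ellZ a
  have h0 : (0 : ℝ) ≤ a := Nat.cast_nonneg _
  have h2 : (0 : ℝ) ≤ QZ d δ := Nat.cast_nonneg _
  have h3 : (1 : ℝ) ≤ 72 * (8 + QZ d δ) * ((a : ℝ) + 1) := by nlinarith [mul_nonneg h2 h0]
  nlinarith

/-- mass of a harmonic -/
noncomputable def deZ (a : ℕ) : ℝ := 1 / ((a : ℝ) + 1) ^ 2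

theorem deZ_pos (a : ℕ) : 0 < deZ a := by unfold deZ; positivity

noncomputable def dpZ (a : ℕ) : ℝ := 1 / ((a : ℝ) + 1) ^ 6

theorem dpZ_pos (a : ℕ) : 0 < dpZ a := by unfold dpZ; positivity

theorem dpZ_le_one (a : ℕ) : dpZ a ≤ 1 := by
  unfold dpZ
  have h0 : (0 : ℝ) ≤ a := Nat.cast_nonneg _
  rw [div_le_one (by positivity)]
  exact one_le_pow₀ (by linarith)

noncomputable def lgZ (a : ℕ) : ℝ := Real.log (((2 * LZ a : ℕ) : ℝ) * ((a : ℝ) + 1) ^ 2)

noncomputable def cZ (d : ℕ) (δ : ℝ) (a : ℕ) : ℝ :=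
  7 + 2 * d + d * lR δ a + LZ a + (((a + 1) ^ 4 + 4 : ℕ) : ℝ)

/-- mass parameters -/
noncomputable def PZ (d : ℕ) (δ : ℝ) (a : ℕ) : BP (Fin d → ℤ) where
  mu := muZ a
  la := laZ d δ a
  de := deZ a
  B := BZ d δ a
  mu_pos := muZ_pos a
  la_pos := lt_of_lt_of_le one_pos (laZ_ge d δ a)
  de_pos := deZ_pos a

/-- constants of the small divisor conditions -/
noncomputable def CZ (d : ℕ) (δ : ℝ) (a : ℕ) : CC where
  lg := lgZ a
  bD := d + δ
  ell := ellZ a
  dp := dpZ a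
  dpp := dpZ a
  c := cZ d δ a
  th := 1 / 72
  eta := 16 * (2 / 3 : ℝ) ^ a
  e1 := dpZ a
  bb := δ
  bq := δ
  qs := QZ d δ * (a + 1)
  g := a + 1

theorem Sub.B' (d : ℕ) (δ : ℝ) (hδ : 0 < δ) : Sub fun a => ellZ a * ((BZ d δ a).card : ℝ) :=
  Sub.ell.mul (Sub.B d δ hδ)

theorem lgZ_nonneg (a : ℕ) : 0 ≤ lgZ a := by
  unfold lgZ
  refine Real.log_nonneg ?_
  have h1 := LZ_ge a
  have h0 : (0 : ℝ) ≤ a := Nat.cast_nonneg _
  have h2 : (1 : ℝ) ≤ ((a : ℝ) + 1) ^ 3 := one_le_pow₀ (by linarith)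
  have h3 : (1 : ℝ) ≤ ((a : ℝ) + 1) ^ 2 := one_le_pow₀ (by linarith)
  nlinarith

theorem Sub.lg : Sub lgZ := by
  refine (Sub.T.mul (Sub.nat1.pow 2)).mono fun a => ?_
  rw [abs_of_nonneg (lgZ_nonneg a), abs_of_nonneg (by positivity)]
  unfold lgZ
  have h1 := LZ_ge a
  have h0 : (0 : ℝ) ≤ a := Nat.cast_nonneg _
  have h2 : (1 : ℝ) ≤ ((a : ℝ) + 1) ^ 3 := one_le_pow₀ (by linarith)
  have h3 : (1 : ℝ) ≤ ((a : ℝ) + 1) ^ 2 := one_le_pow₀ (by linarith)
  have h4 : 0 < ((2 * LZ a : ℕ) : ℝ) * ((a : ℝ) + 1) ^ 2 := by nlinarith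
  have := Real.log_le_sub_one_of_pos h4
  linarith

theorem cZ_nonneg (d : ℕ) (δ : ℝ) (hδ : 0 < δ) (a : ℕ) : 0 ≤ cZ d δ a := by
  have := lR_nonneg δ hδ a
  unfold cZ
  positivity

theorem Sub.c (d : ℕ) (δ : ℝ) (hδ : 0 < δ) : Sub (cZ d δ) := by
  have h1 : Sub (lR δ) := by
    have : Sub fun a => 4 / δ * (((2 * LZ a : ℕ) : ℝ) * ellZ a) := (Sub.T.mul Sub.ell).cmul _
    refine this.mono fun a => le_of_eq ?_
    congr 1
    unfold lR
    ring
  have h2 : Sub fun a => ((2 * LZ a : ℕ) : ℝ) := Sub.T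
  have h3 : Sub fun a => (((a : ℝ) + 1) ^ 4 + 4) := (Sub.nat1.pow 4).add (Sub.const 4)
  have h4 : Sub fun a => (7 + 2 * (d : ℝ)) + (d * lR δ a + (((2 * LZ a : ℕ) : ℝ) +
      (((a : ℝ) + 1) ^ 4 + 4))) :=
    (Sub.const _).add ((h1.cmul _).add (h2.add h3))
  refine h4.mono fun a => ?_
  have := lR_nonneg δ hδ a
  rw [abs_of_nonneg (cZ_nonneg d δ hδ a), abs_of_nonneg (by positivity)]
  unfold cZ
  push_cast
  have : (0 : ℝ) ≤ LZ a := Nat.cast_nonneg _
  nlinarith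

theorem eventually_nat_ge (c : ℝ) : ∀ᶠ a : ℕ in atTop, c ≤ (a : ℝ) + 1 := by
  filter_upwards [eventually_ge_atTop ⌈c⌉₊] with a ha
  have h1 := Nat.le_ceil c
  have h2 : ((⌈c⌉₊ : ℕ) : ℝ) ≤ a := by exact_mod_cast ha
  linarith

theorem C4_ev : ∀ᶠ a : ℕ in atTop, 20 * ((a : ℝ) + 1) ^ 2 * (2 / 3 : ℝ) ^ a ≤ 1 := by
  have h1 := tendsto_pow_const_mul_const_pow_of_abs_lt_one 2
    (show |(2 / 3 : ℝ)| < 1 by rw [abs_of_pos] <;> norm_num)
  have h2 := (h1.comp (tendsto_add_atTop_nat 1)).eventually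
    (gt_mem_nhds (show (0 : ℝ) < 1 / 30 by norm_num))
  filter_upwards [h2] with a ha
  simp only [Function.comp] at ha
  push_cast at ha
  rw [pow_succ (2 / 3 : ℝ) a] at ha
  have : 20 * ((a : ℝ) + 1) ^ 2 * (2 / 3 : ℝ) ^ a =
    30 * (((a : ℝ) + 1) ^ 2 * ((2 / 3 : ℝ) ^ a * (2 / 3))) := by ring
  rw [this]
  linarith

/-- the constants are compatible -/
theorem CZ_OK (d : ℕ) (δ : ℝ) (hδ : 0 < δ) : ∀ᶠ a in atTop,
    ∀ (ac : (Fin d → ℤ) → ℝ) (hac0 : ∀ j, 0 < ac j) (hac1 : ∀ j, ac j ≤ 1),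
    (CZ d δ a).OK (geoZ d ac hac0 hac1) (PZ d δ a) (2 * LZ a) := by
  have E1 : ∀ᶠ a in atTop, lgZ a + (6 * ((d : ℝ) + δ) * ((a : ℝ) + 1) +
      ellZ a * ((BZ d δ a).card : ℝ)) ≤ 1 / 72 * muZ a :=
    (Sub.lg.add ((Sub.nat1.cmul _).add (Sub.B' d δ hδ))).le_mu (by norm_num)
  have E2 : ∀ᶠ a : ℕ in atTop, 8 * ((a : ℝ) + 1) * (ellZ a * ((BZ d δ a).card : ℝ) + cZ d δ a +
      lgZ a) ≤ 1 / 72 * muZ a :=
    ((Sub.nat1.cmul 8).mul (((Sub.B' d δ hδ).add (Sub.c d δ hδ)).add Sub.lg)).le_mu (by norm_num)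
  have E3 : ∀ᶠ a : ℕ in atTop, 72 * Real.log 2 ≤ 1 * muZ a := (Sub.const _).le_mu one_pos
  filter_upwards [E1, E2, E3, C4_ev, eventually_nat_ge (720 * ((d : ℝ) + δ + 1)),
    eventually_nat_ge 576] with a h1 h2 h3 h4 h5 h6 ac hac0 hac1
  have ha0 : (0 : ℝ) ≤ a := Nat.cast_nonneg _
  have hell := one_le_ellZ a
  have hd0 : (0 : ℝ) ≤ d := Nat.cast_nonneg _
  have hQ0 : (0 : ℝ) ≤ QZ d δ := Nat.cast_nonneg _
  have hcard : (0 : ℝ) ≤ ((BZ d δ a).card : ℝ) := Nat.cast_nonneg _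
  refine
    { lg0 := lgZ_nonneg a
      bD0 := ?_
      ell0 := ?_
      dp0 := (dpZ_pos a).le
      dpp0 := (dpZ_pos a).le
      c0 := cZ_nonneg d δ hδ a
      th0 := ?_
      eta0 := ?_
      e0 := dpZ_pos a
      e1 := dpZ_le_one a
      bb0 := hδ.le
      bq0 := hδ.le
      g1 := ?_
      C1 := ?_
      C2 := ?_
      C3 := ?_
      C4 := ?_
      C5 := ?_
      C6 := ?_
      C7 := ?_
      C8 := ?_
      C9 := ?_
      Cg := ?_
      C10 := ?_ }
  · show (0 : ℝ) ≤ d + δ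
    positivity
  · show (0 : ℝ) ≤ ellZ a
    linarith
  · show (0 : ℝ) ≤ 1 / 72
    norm_num
  · show (0 : ℝ) < 16 * (2 / 3 : ℝ) ^ a
    positivity
  · show 1 ≤ a + 1
    omega
  · show lgZ a + ((d : ℝ) + δ) * Real.log (1 / dpZ a) + ellZ a * ((BZ d δ a).card : ℝ) ≤
      1 / 72 * muZ a
    have hl : Real.log (1 / dpZ a) ≤ 6 * ((a : ℝ) + 1) := by
      unfold dpZ
      rw [one_div_one_div, Real.log_pow]
      have := Real.log_le_sub_one_of_pos (show (0 : ℝ) < (a : ℝ) + 1 by linarith)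
      push_cast
      linarith
    have : ((d : ℝ) + δ) * Real.log (1 / dpZ a) ≤ ((d : ℝ) + δ) * (6 * ((a : ℝ) + 1)) :=
      mul_le_mul_of_nonneg_left hl (by positivity)
    linarith
  · show ellZ a * ((QZ d δ * (a + 1) : ℕ) : ℝ) ≤ 1 / 72 * laZ d δ a
    unfold laZ AZ
    push_cast
    have : 1 / 72 * (72 * (8 + (QZ d δ : ℝ)) * ((a : ℝ) + 1) * ellZ a) -
      ellZ a * ((QZ d δ : ℝ) * ((a : ℝ) + 1)) = 8 * ((a : ℝ) + 1) * ellZ a := by ring
    have h7 : 0 ≤ 8 * ((a : ℝ) + 1) * ellZ a := by positivity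
    linarith
  · show ((2 * LZ a : ℕ) : ℝ) * (((d : ℝ) + δ) * dpZ a + dpZ a) ≤ 1 / 72 * deZ a
    have hT := LZ_le a
    unfold dpZ deZ
    have h7 : ((d : ℝ) + δ) * (1 / ((a : ℝ) + 1) ^ 6) + 1 / ((a : ℝ) + 1) ^ 6 =
      ((d : ℝ) + δ + 1) / ((a : ℝ) + 1) ^ 6 := by ring
    rw [h7]
    calc ((2 * LZ a : ℕ) : ℝ) * (((d : ℝ) + δ + 1) / ((a : ℝ) + 1) ^ 6)
        ≤ (10 * ((a : ℝ) + 1) ^ 3) * (((d : ℝ) + δ + 1) / ((a : ℝ) + 1) ^ 6) := by gcongr
      _ = (720 * ((d : ℝ) + δ + 1)) / (72 * ((a : ℝ) + 1) ^ 3) := by field_simp; ring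
      _ ≤ ((a : ℝ) + 1) / (72 * ((a : ℝ) + 1) ^ 3) := by gcongr
      _ = 1 / 72 * (1 / ((a : ℝ) + 1) ^ 2) := by field_simp
  · show ((2 * LZ a : ℕ) : ℝ) * ellZ a * (16 * (2 / 3 : ℝ) ^ a) ≤ 1 / 72 * laZ d δ a
    have hT := LZ_le a
    unfold laZ AZ
    have h7 : 1 / 72 * (72 * (8 + (QZ d δ : ℝ)) * ((a : ℝ) + 1) * ellZ a) =
      (8 + (QZ d δ : ℝ)) * ((a : ℝ) + 1) * ellZ a := by ring
    rw [h7]
    calc ((2 * LZ a : ℕ) : ℝ) * ellZ a * (16 * (2 / 3 : ℝ) ^ a)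
        ≤ (10 * ((a : ℝ) + 1) ^ 3) * ellZ a * (16 * (2 / 3 : ℝ) ^ a) := by gcongr
      _ = 8 * ((a : ℝ) + 1) * ellZ a * (20 * ((a : ℝ) + 1) ^ 2 * (2 / 3 : ℝ) ^ a) := by ring
      _ ≤ 8 * ((a : ℝ) + 1) * ellZ a * 1 := by gcongr
      _ ≤ (8 + (QZ d δ : ℝ)) * ((a : ℝ) + 1) * ellZ a := by
          have : 0 ≤ (QZ d δ : ℝ) * ((a : ℝ) + 1) * ellZ a := by positivity
          nlinarith
  · intro j hj
    show 4 * ((2 * LZ a : ℕ) : ℝ) * ellZ a ≤ δ * Real.log (brz j)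
    have h7 := lR_lt_log d δ a j hj
    unfold lR at h7
    rw [div_lt_iff₀ hδ] at h7
    linarith
  · show 8 * ((a + 1 : ℕ) : ℝ) * ellZ a ≤ 1 / 72 * laZ d δ a
    unfold laZ AZ
    push_cast
    have h7 : 1 / 72 * (72 * (8 + (QZ d δ : ℝ)) * ((a : ℝ) + 1) * ellZ a) =
      8 * ((a : ℝ) + 1) * ellZ a + (QZ d δ : ℝ) * ((a : ℝ) + 1) * ellZ a := by ring
    rw [h7]
    have : 0 ≤ (QZ d δ : ℝ) * ((a : ℝ) + 1) * ellZ a := by positivity
    linarith
  · show 8 * ((a + 1 : ℕ) : ℝ) * (ellZ a * ((BZ d δ a).card : ℝ) + cZ d δ a + lgZ a) ≤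
      1 / 72 * muZ a
    push_cast
    exact h2
  · show 8 * ((a + 1 : ℕ) : ℝ) * dpZ a ≤ 1 / 72 * deZ a
    push_cast
    unfold dpZ deZ
    calc 8 * ((a : ℝ) + 1) * (1 / ((a : ℝ) + 1) ^ 6)
        = 576 / (72 * ((a : ℝ) + 1) ^ 5) := by field_simp; ring
      _ ≤ ((a : ℝ) + 1) ^ 3 / (72 * ((a : ℝ) + 1) ^ 5) := by
          gcongr
          have : (1 : ℝ) ≤ ((a : ℝ) + 1) ^ 2 := one_le_pow₀ (by linarith)
          nlinarith
      _ = 1 / 72 * (1 / ((a : ℝ) + 1) ^ 2) := by field_simp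
  · show 8 * ((a + 1 : ℕ) : ℝ) * ((d : ℝ) + δ) ≤ δ * ((QZ d δ * (a + 1) : ℕ) : ℝ)
    push_cast
    have := QZ_ge d δ hδ
    nlinarith
  · show 16 / (16 * (2 / 3 : ℝ) ^ a) ≤ (3 / 2 : ℝ) ^ (a + 1 - 1)
    rw [Nat.add_sub_cancel]
    refine le_of_eq ?_
    have : (3 / 2 : ℝ) ^ a * (2 / 3 : ℝ) ^ a = 1 := by
      rw [← mul_pow]; norm_num
    rw [div_eq_iff (by positivity)]
    calc (16 : ℝ) = 16 * ((3 / 2 : ℝ) ^ a * (2 / 3 : ℝ) ^ a) := by rw [this]; ring
      _ = _ := by ring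
  · show Real.log 2 ≤ 1 / 72 * muZ a
    linarith

end KX
end

section

/-!
# Evaluation of the limit: the torus functions
-/

set_option autoImplicit false

namespace KX

open scoped ENNReal

variable {V : Type}

private theorem torb_enorm_le (s : ℝ) (hs : 0 ≤ s) (g : (V →₀ ℤ) → ℂ) (k : V →₀ ℤ) :
    ‖g k‖ₑ ≤ ‖g k‖ₑ * ENNReal.ofReal (Real.exp (s * kab k)) := by
  conv_lhs => rw [← mul_one (‖g k‖ₑ)]
  gcongr
  rw [← ENNReal.ofReal_one]
  exact ENNReal.ofReal_le_ofReal (Real.one_le_exp (by positivity))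

private theorem torb_enorm_mul (g : (V →₀ ℤ) → ℂ) (θ : V → Cir) (k : V →₀ ℤ) :
    ‖g k * chi k θ‖ₑ = ‖g k‖ₑ := by
  rw [enorm_mul]
  have : ‖chi k θ‖ₑ = 1 := by
    rw [← ofReal_norm, norm_chi, ENNReal.ofReal_one]
  rw [this, mul_one]

private theorem torb_norm_mul (g : (V →₀ ℤ) → ℂ) (θ : V → Cir) (k : V →₀ ℤ) :
    ‖g k * chi k θ‖ = ‖g k‖ := by
  rw [norm_mul, norm_chi, mul_one]

private theorem torb_summable (s : ℝ) (hs : 0 ≤ s) (g : (V →₀ ℤ) → ℂ) (hg : nf s g ≠ ∞) :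
    Summable fun k => ‖g k‖ := by
  have h1 : ∑' k, ‖g k‖ₑ ≠ ∞ :=
    ne_top_of_le_ne_top hg (ENNReal.tsum_le_tsum fun k => torb_enorm_le s hs g k)
  have h2 := ENNReal.summable_toReal h1
  simpa using h2

private theorem torb_summable_mul (s : ℝ) (hs : 0 ≤ s) (g : (V →₀ ℤ) → ℂ) (hg : nf s g ≠ ∞)
    (θ : V → Cir) : Summable fun k => g k * chi k θ := by
  refine Summable.of_norm ?_
  simp only [torb_norm_mul]
  exact torb_summable s hs g hg

theorem norm_evc_le (s : ℝ) (hs : 0 ≤ s) (g : (V →₀ ℤ) → ℂ) (θ : V → Cir) :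
    ‖evc g θ‖ₑ ≤ nf s g := by
  by_cases hg : nf s g = ∞
  · rw [hg]; exact le_top
  · unfold evc
    have hsum := torb_summable s hs g hg
    have h1 : ‖∑' k, g k * chi k θ‖ ≤ ∑' k, ‖g k‖ := by
      have h2 := norm_tsum_le_tsum_norm (f := fun k => g k * chi k θ)
        (by simp only [torb_norm_mul]; exact hsum)
      simpa only [torb_norm_mul] using h2
    calc ‖∑' k, g k * chi k θ‖ₑ = ENNReal.ofReal ‖∑' k, g k * chi k θ‖ :=
          (ofReal_norm _).symm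
      _ ≤ ENNReal.ofReal (∑' k, ‖g k‖) := ENNReal.ofReal_le_ofReal h1
      _ = ∑' k, ENNReal.ofReal ‖g k‖ := ENNReal.ofReal_tsum_of_nonneg (fun _ => norm_nonneg _) hsum
      _ ≤ nf s g := by
          refine ENNReal.tsum_le_tsum fun k => ?_
          rw [ofReal_norm]
          exact torb_enorm_le s hs g k

theorem evc_continuous (s : ℝ) (hs : 0 ≤ s) (g : (V →₀ ℤ) → ℂ) (hg : nf s g ≠ ∞) :
    Continuous (evc g : (V → Cir) → ℂ) := by
  unfold evc
  refine continuous_tsum (fun k => continuous_const.mul (chi_continuous k))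
    (torb_summable s hs g hg) fun k θ => ?_
  rw [torb_norm_mul]

theorem evc_add (s : ℝ) (hs : 0 ≤ s) (g h : (V →₀ ℤ) → ℂ) (hg : nf s g ≠ ∞) (hh : nf s h ≠ ∞)
    (θ : V → Cir) : evc (fun k => g k + h k) θ = evc g θ + evc h θ := by
  unfold evc
  rw [← (torb_summable_mul s hs g hg θ).tsum_add (torb_summable_mul s hs h hh θ)]
  simp only [add_mul]

theorem evc_smul (c : ℂ) (g : (V →₀ ℤ) → ℂ) (θ : V → Cir) :
    evc (fun k => c * g k) θ = c * evc g θ := by
  unfold evc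
  rw [← tsum_mul_left]
  simp only [mul_assoc]

theorem evc_lip (s : ℝ) (hs : 0 < s) (g : (V →₀ ℤ) → ℂ) (hg : nf s g ≠ ∞) (θ θ' : V → Cir) (δ : ℝ)
    (hδ : 0 ≤ δ) (h : ∀ j, ‖(fourier 1 (θ j) : ℂ) - fourier 1 (θ' j)‖ ≤ δ) :
    ‖evc g θ - evc g θ'‖ ≤ (nf s g).toReal / s * δ := by
  have hw : Summable fun k : V →₀ ℤ => ‖g k‖ * Real.exp (s * kab k) := by
    have h2 := ENNReal.summable_toReal hg
    refine h2.congr fun k => ?_
    rw [ENNReal.toReal_mul, toReal_enorm, ENNReal.toReal_ofReal (Real.exp_nonneg _)]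
  have hnf : (nf s g).toReal = ∑' k, ‖g k‖ * Real.exp (s * kab k) := by
    unfold nf
    rw [ENNReal.tsum_toReal_eq]
    · refine tsum_congr fun k => ?_
      rw [ENNReal.toReal_mul, toReal_enorm, ENNReal.toReal_ofReal (Real.exp_nonneg _)]
    · intro k
      exact ENNReal.mul_ne_top enorm_ne_top ENNReal.ofReal_ne_top
  have hb : ∀ k, ‖g k * chi k θ - g k * chi k θ'‖ ≤
      ‖g k‖ * Real.exp (s * kab k) * (δ / s) := by
    intro k
    rw [← mul_sub, norm_mul]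
    have h1 := chi_sub_le k θ θ' δ h
    have h2 : (kab k : ℝ) ≤ Real.exp (s * kab k) / s := by
      rw [le_div_iff₀ hs]
      have := Real.add_one_le_exp (s * kab k)
      nlinarith
    calc ‖g k‖ * ‖chi k θ - chi k θ'‖ ≤ ‖g k‖ * (kab k * δ) := by gcongr
      _ ≤ ‖g k‖ * (Real.exp (s * kab k) / s * δ) := by gcongr
      _ = ‖g k‖ * Real.exp (s * kab k) * (δ / s) := by ring
  have hsumr : Summable fun k : V →₀ ℤ => ‖g k‖ * Real.exp (s * kab k) * (δ / s) :=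
    hw.mul_right _
  unfold evc
  rw [← (torb_summable_mul s hs.le g hg θ).tsum_sub (torb_summable_mul s hs.le g hg θ')]
  calc ‖∑' k, (g k * chi k θ - g k * chi k θ')‖
      ≤ ∑' k, ‖g k‖ * Real.exp (s * kab k) * (δ / s) := tsum_of_norm_bounded hsumr.hasSum hb
    _ = (nf s g).toReal / s * δ := by rw [tsum_mul_right, ← hnf]; ring

theorem evc_conj (g : (V →₀ ℤ) → ℂ) (θ : V → Cir) :
    evc (fun k => (starRingEnd ℂ) (g (-k))) θ = (starRingEnd ℂ) (evc g θ) := by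
  unfold evc
  rw [Complex.conj_tsum, ← (Equiv.neg (V →₀ ℤ)).tsum_eq]
  refine tsum_congr fun k => ?_
  simp only [Equiv.neg_apply, map_mul, neg_neg]
  rw [chi_neg]

end KX
end

section

/-!
# Evaluation of the limit: the torus functions
-/

set_option autoImplicit false

namespace KX

open scoped ENNReal

variable {V : Type}

variable [DecidableEq V]

private theorem wm_X (G : Geo V) (rho s : ℝ) (j : V) :
    wm G rho s (Finsupp.single j 1, 0) = ENNReal.ofReal (rho * G.a j * Real.exp s) := by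
  unfold wm NM amn dgr kab
  simp

private theorem wm_E (G : Geo V) (rho s : ℝ) (j : V) :
    wm G rho s (0, Finsupp.single j 1) = ENNReal.ofReal (Real.exp s) := by
  unfold wm NM amn dgr kab
  simp

private theorem wm_E' (G : Geo V) (rho s : ℝ) (j : V) :
    wm G rho s (0, -Finsupp.single j 1) = ENNReal.ofReal (Real.exp s) := by
  have h1 : (-(Finsupp.single j (1 : ℤ)) : V →₀ ℤ).sum (fun _ x => x.natAbs) = 1 := by
    rw [← Finsupp.single_neg, Finsupp.sum_single_index]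
    · rfl
    · rfl
  unfold wm NM amn dgr kab
  simp only
  rw [h1]
  simp

private theorem nr_X_ne (G : Geo V) (rho s : ℝ) (j : V) :
    nr (wm G rho s) (em (Finsupp.single j 1, 0)) ≠ ∞ := by
  rw [nr_em, wm_X]; exact ENNReal.ofReal_ne_top

private theorem nr_E_ne (G : Geo V) (rho s : ℝ) (j : V) :
    nr (wm G rho s) (em (0, Finsupp.single j 1)) ≠ ∞ := by
  rw [nr_em, wm_E]; exact ENNReal.ofReal_ne_top

private theorem nr_E'_ne (G : Geo V) (rho s : ℝ) (j : V) :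
    nr (wm G rho s) (em (0, -Finsupp.single j 1)) ≠ ∞ := by
  rw [nr_em, wm_E']; exact ENNReal.ofReal_ne_top

private theorem at0_X (j : V) : at0 (em (V := V) (Finsupp.single j 1, 0)) = fun _ => 0 := by
  funext k
  unfold at0 em
  rw [Pi.single_eq_of_ne]
  intro h
  have h1 := congrArg Prod.fst h
  simp only at h1
  exact (Finsupp.single_ne_zero.2 one_ne_zero) h1.symm

private theorem at0_E (j : V) : at0 (em (V := V) (0, Finsupp.single j 1)) =
    fun k => if k = Finsupp.single j 1 then 1 else 0 := by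
  classical
  funext k
  unfold at0 em
  by_cases hk : k = Finsupp.single j 1
  · rw [if_pos hk, hk, Pi.single_eq_same]
  · rw [if_neg hk, Pi.single_eq_of_ne]
    intro h
    exact hk (congrArg Prod.snd h)

private theorem cj_em (m : Mon V) : cj (em m) = em (m.1, -m.2) := by
  classical
  funext k
  unfold cj em
  by_cases hk : k = (m.1, -m.2)
  · subst hk
    simp
  · rw [Pi.single_eq_of_ne hk, Pi.single_eq_of_ne, map_zero]
    intro h
    apply hk
    have h0 : (k.1, -k.2) = m := h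
    have h1 : k.1 = m.1 := by rw [← h0]
    have h2 : -k.2 = m.2 := by rw [← h0]
    exact Prod.ext h1 (by rw [← h2, neg_neg])

private theorem evc_conj_em {G : Geo V} {rho s0 : ℝ} {s ep : ℕ → ℝ} {w : ℕ → V → ℝ}
    {p : ℕ → Mon V → ℂ}
    {Φ : ℕ → (Mon V → ℂ) → Mon V → ℂ} {w' : V → ℝ} (h : Chain G rho s0 s ep w p Φ w')
    (θ : V → Cir) (m : Mon V) (hm : nr (wm G rho (s 0)) (em m) ≠ ∞) :
    (starRingEnd ℂ) (evc (Th Φ (em m)) θ) = evc (Th Φ (em (m.1, -m.2))) θ := by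
  obtain ⟨-, -, -, -, -, hreal, -⟩ := limit_main h
  rw [← evc_conj, ← cj_em]
  congr 1
  funext k
  exact (hreal (em m) hm k).symm

private theorem ep_nonneg {G : Geo V} {rho s0 : ℝ} {s ep : ℕ → ℝ} {w : ℕ → V → ℝ}
    {p : ℕ → Mon V → ℂ}
    {Φ : ℕ → (Mon V → ℂ) → Mon V → ℂ} {w' : V → ℝ} (h : Chain G rho s0 s ep w p Φ w') :
    0 ≤ 2 * ∑' t, ep t := mul_nonneg zero_le_two (tsum_nonneg h.ep0)

private theorem nf_diff_E {G : Geo V} {rho s0 : ℝ} {s ep : ℕ → ℝ} {w : ℕ → V → ℝ}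
    {p : ℕ → Mon V → ℂ}
    {Φ : ℕ → (Mon V → ℂ) → Mon V → ℂ} {w' : V → ℝ} (h : Chain G rho s0 s ep w p Φ w') (j : V) :
    nf s0 (fun k => Th Φ (em (0, Finsupp.single j 1)) k - at0 (em (0, Finsupp.single j 1)) k) ≤
      ENNReal.ofReal (2 * (∑' t, ep t) * Real.exp (s 0)) := by
  obtain ⟨hnear, -⟩ := limit_main h
  refine (hnear _ (nr_E_ne G rho (s 0) j)).trans ?_
  rw [nr_em, wm_E, ← ENNReal.ofReal_mul (ep_nonneg h)]

private theorem evc_diff_E {G : Geo V} {rho s0 : ℝ} {s ep : ℕ → ℝ} {w : ℕ → V → ℝ}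
    {p : ℕ → Mon V → ℂ}
    {Φ : ℕ → (Mon V → ℂ) → Mon V → ℂ} {w' : V → ℝ} (h : Chain G rho s0 s ep w p Φ w') (j : V)
    (θ : V → Cir) :
    evc (fun k => Th Φ (em (0, Finsupp.single j 1)) k - at0 (em (0, Finsupp.single j 1)) k) θ =
      TE Φ θ j - fourier 1 (θ j) := by
  have h1 : evc (at0 (em (V := V) (0, Finsupp.single j 1))) θ = fourier 1 (θ j) := by
    rw [at0_E]
    unfold evc
    rw [tsum_eq_single (Finsupp.single j 1)]
    · simp [chi]
    · intro k hk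
      simp [hk]
  have h2 : nf s0 (at0 (em (V := V) (0, Finsupp.single j 1))) ≠ ∞ :=
    ne_top_of_le_ne_top (nr_E_ne G rho s0 j) (nf_at0_le G rho s0 _)
  have h3 := evc_add s0 h.s00.le
    (fun k => Th Φ (em (0, Finsupp.single j 1)) k - at0 (em (0, Finsupp.single j 1)) k)
    (at0 (em (0, Finsupp.single j 1)))
    (ne_top_of_le_ne_top ENNReal.ofReal_ne_top (nf_diff_E h j)) h2 θ
  have h4 : (fun k => Th Φ (em (0, Finsupp.single j 1)) k - at0 (em (0, Finsupp.single j 1)) k +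
      at0 (em (0, Finsupp.single j 1)) k) = Th Φ (em (0, Finsupp.single j 1)) := by
    funext k; ring
  rw [h4, h1] at h3
  unfold TE
  rw [h3]
  ring

private theorem norm_le_of_enorm {x : ℂ} {r : ℝ} (hr : 0 ≤ r) (h : ‖x‖ₑ ≤ ENNReal.ofReal r) :
    ‖x‖ ≤ r := by
  rw [← ofReal_norm] at h
  exact (ENNReal.ofReal_le_ofReal_iff hr).1 h

/-- size of the torus functions; `|TE| = 1` and `TX` is real -/
theorem TX_TE {G : Geo V} {rho s0 : ℝ} {s ep : ℕ → ℝ} {w : ℕ → V → ℝ} {p : ℕ → Mon V → ℂ}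
    {Φ : ℕ → (Mon V → ℂ) → Mon V → ℂ} {w' : V → ℝ} (h : Chain G rho s0 s ep w p Φ w')
    (θ : V → Cir) (j : V) :
    ‖TX Φ θ j‖ ≤ 2 * (∑' t, ep t) * (rho * G.a j * Real.exp (s 0)) ∧ (TX Φ θ j).im = 0 ∧
    ‖TE Φ θ j‖ = 1 ∧ ‖TE Φ θ j - fourier 1 (θ j)‖ ≤ 2 * (∑' t, ep t) * Real.exp (s 0) := by
  obtain ⟨hnear, -, -, hmul, hone, -, -⟩ := limit_main h
  have hep := ep_nonneg h
  refine ⟨?_, ?_, ?_, ?_⟩
  · have h1 : nf s0 (Th Φ (em (Finsupp.single j 1, 0))) ≤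
        ENNReal.ofReal (2 * (∑' t, ep t) * (rho * G.a j * Real.exp (s 0))) := by
      have h2 := hnear _ (nr_X_ne G rho (s 0) j)
      rw [nr_em, wm_X, ← ENNReal.ofReal_mul hep] at h2
      refine le_trans (le_of_eq ?_) h2
      congr 1
      funext k
      rw [at0_X]
      ring
    have ha := G.a_pos j
    have hr := h.rho0
    exact norm_le_of_enorm (by positivity) ((norm_evc_le s0 h.s00.le _ θ).trans h1)
  · have h1 := evc_conj_em h θ (Finsupp.single j 1, 0) (nr_X_ne G rho (s 0) j)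
    simp only [neg_zero] at h1
    exact Complex.conj_eq_iff_im.1 h1
  · have h1 : (starRingEnd ℂ) (TE Φ θ j) = evc (Th Φ (em (0, -Finsupp.single j 1))) θ :=
      evc_conj_em h θ (0, Finsupp.single j 1) (nr_E_ne G rho (s 0) j)
    have h2 := hmul _ _ (nr_E_ne G rho (s 0) j) (nr_E'_ne G rho (s 0) j)
    rw [mulm_em] at h2
    have h3 : ((0, Finsupp.single j 1) + (0, -Finsupp.single j 1) : Mon V) = 0 := by
      refine Prod.ext ?_ ?_
      · simp
      · simp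
    rw [h3, hone] at h2
    have h4 := evc_mulf s0 h.s00.le _ _ (nf_Th_le h _ (nr_E_ne G rho (s 0) j)).2
      (nf_Th_le h _ (nr_E'_ne G rho (s 0) j)).2 θ
    rw [← h2, ← h1] at h4
    have h5 : evc (fun k : V →₀ ℤ => if k = 0 then 1 else 0) θ = 1 := by
      unfold evc
      rw [tsum_eq_single 0]
      · simp [chi_zero]
      · intro k hk
        simp [hk]
    rw [h5] at h4
    have h6 : (TE Φ θ j) * (starRingEnd ℂ) (TE Φ θ j) = 1 := h4.symm
    rw [Complex.mul_conj'] at h6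
    have h7 : ‖TE Φ θ j‖ ^ 2 = 1 := by exact_mod_cast h6
    nlinarith [norm_nonneg (TE Φ θ j)]
  · rw [← evc_diff_E h j θ]
    exact norm_le_of_enorm (by positivity) ((norm_evc_le s0 h.s00.le _ θ).trans (nf_diff_E h j))

/-- Lipschitz bound of the angle correction -/
theorem TE_lip {G : Geo V} {rho s0 : ℝ} {s ep : ℕ → ℝ} {w : ℕ → V → ℝ} {p : ℕ → Mon V → ℂ}
    {Φ : ℕ → (Mon V → ℂ) → Mon V → ℂ} {w' : V → ℝ} (h : Chain G rho s0 s ep w p Φ w')
    (θ θ' : V → Cir) (j : V) (δ : ℝ) (hδ : 0 ≤ δ)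
    (hd : ∀ j, ‖(fourier 1 (θ j) : ℂ) - fourier 1 (θ' j)‖ ≤ δ) :
    ‖(TE Φ θ j - fourier 1 (θ j)) - (TE Φ θ' j - fourier 1 (θ' j))‖ ≤
      2 * (∑' t, ep t) * Real.exp (s 0) / s0 * δ := by
  have hep := ep_nonneg h
  rw [← evc_diff_E h j θ, ← evc_diff_E h j θ']
  refine (evc_lip s0 h.s00 _ (ne_top_of_le_ne_top ENNReal.ofReal_ne_top (nf_diff_E h j)) θ θ' δ hδ
    hd).trans ?_
  have h1 : (nf s0 (fun k => Th Φ (em (0, Finsupp.single j 1)) k -
      at0 (em (0, Finsupp.single j 1)) k)).toReal ≤ 2 * (∑' t, ep t) * Real.exp (s 0) :=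
    ENNReal.toReal_le_of_le_ofReal (by positivity) (nf_diff_E h j)
  have h2 := h.s00
  gcongr

theorem TX_TE_continuous {G : Geo V} {rho s0 : ℝ} {s ep : ℕ → ℝ} {w : ℕ → V → ℝ}
    {p : ℕ → Mon V → ℂ} {Φ : ℕ → (Mon V → ℂ) → Mon V → ℂ} {w' : V → ℝ}
    (h : Chain G rho s0 s ep w p Φ w') (j : V) :
    (Continuous fun θ => TX Φ θ j) ∧ Continuous fun θ => TE Φ θ j :=
  ⟨evc_continuous s0 h.s00.le _ (nf_Th_le h _ (nr_X_ne G rho (s 0) j)).2,
    evc_continuous s0 h.s00.le _ (nf_Th_le h _ (nr_E_ne G rho (s 0) j)).2⟩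

end KX
end

section

/-!
# Evaluation of the limit: the torus functions
-/

set_option autoImplicit false

namespace KX

open scoped ENNReal

variable {V : Type}

variable [DecidableEq V]

/-- the part of a series with monomials in a finite set -/
private noncomputable def cutS (g : Mon V → ℂ) (S : Finset (Mon V)) : Mon V → ℂ :=
  fun m => if m ∈ S then g m else 0

/-- the remaining part -/
private noncomputable def cutT (g : Mon V → ℂ) (S : Finset (Mon V)) : Mon V → ℂ :=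
  fun m => if m ∈ S then 0 else g m

private theorem nr_cutS_ne_top {W : Mon V → ℝ≥0∞} {g : Mon V → ℂ} (hg : nr W g ≠ ∞)
    (S : Finset (Mon V)) : nr W (cutS g S) ≠ ∞ := by
  refine ne_top_of_le_ne_top hg ?_
  unfold nr cutS
  refine ENNReal.tsum_le_tsum fun m => ?_
  split_ifs
  · exact le_rfl
  · simp

private theorem nr_cutT_le {W : Mon V → ℝ≥0∞} (g : Mon V → ℂ) (S : Finset (Mon V)) :
    nr W (cutT g S) ≤ nr W g := by
  unfold nr cutT
  refine ENNReal.tsum_le_tsum fun m => ?_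
  split_ifs
  · simp
  · exact le_rfl

private theorem nr_cutT_eq {W : Mon V → ℝ≥0∞} (g : Mon V → ℂ) (S : Finset (Mon V)) :
    nr W (cutT g S) = ∑' b : {x // x ∉ S}, ‖g b‖ₑ * W b := by
  unfold nr cutT
  have h := tsum_subtype (fun m : Mon V => m ∉ S) (fun m => ‖g m‖ₑ * W m)
  have h2 : (∑' b : {x // x ∉ S}, ‖g b‖ₑ * W b) =
      ∑' m, Set.indicator {m : Mon V | m ∉ S} (fun m => ‖g m‖ₑ * W m) m := h
  rw [h2]
  refine tsum_congr fun m => ?_
  by_cases hm : m ∈ S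
  · rw [if_pos hm, Set.indicator_of_notMem (by simpa using hm)]
    simp
  · rw [if_neg hm, Set.indicator_of_mem (by simpa using hm)]

/-- evaluation of a general series -/
theorem Th_eval {G : Geo V} {rho s0 : ℝ} {s ep : ℕ → ℝ} {w : ℕ → V → ℝ} {p : ℕ → Mon V → ℂ}
    {Φ : ℕ → (Mon V → ℂ) → Mon V → ℂ} {w' : V → ℝ} (h : Chain G rho s0 s ep w p Φ w')
    (θ : V → Cir) (g : Mon V → ℂ) (hg : nr (wm G rho (s 0)) g ≠ ∞) :
    evc (Th Φ g) θ = ∑' m, g m * Mv (TX Φ θ) (TE Φ θ) m := by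
  obtain ⟨-, hadd, hsmul, -, -, -, -⟩ := limit_main h
  have hs0 : 0 ≤ s0 := h.s00.le
  have hnf : ∀ u : Mon V → ℂ, nr (wm G rho (s 0)) u ≠ ∞ → nf s0 (Th Φ u) ≠ ∞ := fun u hu =>
    (nf_Th_le h u hu).2
  have hLadd : ∀ u v : Mon V → ℂ, nr (wm G rho (s 0)) u ≠ ∞ → nr (wm G rho (s 0)) v ≠ ∞ →
      evc (Th Φ (fun m => u m + v m)) θ = evc (Th Φ u) θ + evc (Th Φ v) θ := by
    intro u v hu hv
    rw [hadd u v hu hv]
    exact evc_add s0 hs0 _ _ (hnf u hu) (hnf v hv) θ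
  have hLsmul : ∀ (c : ℂ) (u : Mon V → ℂ), nr (wm G rho (s 0)) u ≠ ∞ →
      evc (Th Φ (fun m => c * u m)) θ = c * evc (Th Φ u) θ := by
    intro c u hu
    rw [hsmul c u hu]
    exact evc_smul c _ θ
  have hWtop : ∀ m, wm G rho (s 0) m ≠ ∞ := fun m => ENNReal.ofReal_ne_top
  have hem : ∀ m : Mon V, nr (wm G rho (s 0)) (em m) ≠ ∞ := by
    intro m
    have h1 : nr (wm G rho (s 0)) (em m) = wm G rho (s 0) m := by
      unfold nr em
      rw [tsum_eq_single m]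
      · simp
      · intro b hb
        simp [hb]
    rw [h1]
    exact hWtop m
  have hcem : ∀ (c : ℂ) (m : Mon V), nr (wm G rho (s 0)) (fun m' => c * em m m') ≠ ∞ := by
    intro c m
    have h1 : nr (wm G rho (s 0)) (fun m' => c * em m m') = ‖c‖ₑ * nr (wm G rho (s 0)) (em m) := by
      unfold nr
      rw [← ENNReal.tsum_mul_left]
      refine tsum_congr fun m' => ?_
      rw [enorm_mul, mul_assoc]
    rw [h1]
    exact ENNReal.mul_ne_top enorm_ne_top (hem m)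
  -- finite sums
  have hfin : ∀ S : Finset (Mon V), evc (Th Φ (cutS g S)) θ =
      ∑ m ∈ S, g m * Mv (TX Φ θ) (TE Φ θ) m := by
    intro S
    induction S using Finset.induction_on with
    | empty =>
      have h0 : cutS g ∅ = fun m => (0 : ℂ) * em (0 : Mon V) m := by
        funext m
        simp [cutS]
      rw [h0, hLsmul 0 _ (hem 0)]
      simp
    | insert m S hm ih =>
      have h1 : cutS g (insert m S) = fun m' => g m * em m m' + cutS g S m' := by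
        funext m'
        by_cases hmm : m' = m
        · subst hmm
          simp [cutS, em, hm]
        · simp [cutS, em, hmm]
      rw [h1, hLadd _ _ (hcem (g m) m) (nr_cutS_ne_top hg S), hLsmul _ _ (hem m), Th_em h θ m, ih,
        Finset.sum_insert hm]
  have hsplit : ∀ S : Finset (Mon V), evc (Th Φ g) θ =
      evc (Th Φ (cutS g S)) θ + evc (Th Φ (cutT g S)) θ := by
    intro S
    have h1 : g = fun m => cutS g S m + cutT g S m := by
      funext m
      by_cases hm : m ∈ S <;> simp [cutS, cutT, hm]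
    have h2 := hLadd (cutS g S) (cutT g S) (nr_cutS_ne_top hg S)
      (ne_top_of_le_ne_top hg (nr_cutT_le g S))
    rw [← h1] at h2
    exact h2
  have htail : ∀ S : Finset (Mon V), ‖evc (Th Φ (cutT g S)) θ‖ₑ ≤
      2 * nr (wm G rho (s 0)) (cutT g S) := fun S =>
    (norm_evc_le s0 hs0 _ θ).trans
      (nf_Th_le h (cutT g S) (ne_top_of_le_ne_top hg (nr_cutT_le g S))).1
  have hlim : Filter.Tendsto (fun S : Finset (Mon V) => 2 * nr (wm G rho (s 0)) (cutT g S))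
      Filter.atTop (nhds 0) := by
    have h1 := ENNReal.tendsto_tsum_compl_atTop_zero
      (f := fun m : Mon V => ‖g m‖ₑ * wm G rho (s 0) m) hg
    have h2 : (fun S : Finset (Mon V) => nr (wm G rho (s 0)) (cutT g S)) =
        fun S : Finset (Mon V) => ∑' b : {x // x ∉ S}, ‖g b‖ₑ * wm G rho (s 0) b := by
      funext S
      exact nr_cutT_eq g S
    rw [← h2] at h1
    have h3 := ENNReal.Tendsto.const_mul (a := 2) h1 (Or.inr (by norm_num))
    simpa using h3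
  have hsum : HasSum (fun m => g m * Mv (TX Φ θ) (TE Φ θ) m) (evc (Th Φ g) θ) := by
    unfold HasSum
    simp only [SummationFilter.unconditional_filter]
    rw [tendsto_iff_edist_tendsto_0]
    refine tendsto_of_tendsto_of_tendsto_of_le_of_le tendsto_const_nhds hlim (fun S => bot_le)
      (fun S => ?_)
    have h1 : edist (∑ m ∈ S, g m * Mv (TX Φ θ) (TE Φ θ) m) (evc (Th Φ g) θ) =
        ‖evc (Th Φ (cutT g S)) θ‖ₑ := by
      rw [← hfin S, hsplit S, edist_comm, edist_eq_enorm_sub, add_sub_cancel_left]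
    change edist (∑ m ∈ S, g m * Mv (TX Φ θ) (TE Φ θ) m) (evc (Th Φ g) θ) ≤ _
    rw [h1]
    exact htail S
  exact hsum.tsum_eq.symm

end KX
end
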