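import Mathlib
import Pool.Agent.Lib.MP_73c19a_an.Mg.G001

section

/-!
# Fourier coefficients of a periodic analytic function: shift of the contour, standalone

`fourier_shift`: `Complex.integral_boundary_rect_eq_zero_of_differentiableOn` for the function
`g z * exp (-I k z)` on the rectangle with corners `0` and `2π + σ i`; the two vertical integrals
cancel by periodicity (`exp (-I k (z + 2π)) = exp (-I k z)`).
`fourier_one`: Fourier series of a continuous periodic function with summable coefficients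
(`has_pointwise_sum_fourier_series_of_summable`, `fourierCoeff_eq_intervalIntegral`,
`AddCircle.liftIco`/`Function.Periodic.lift`).
-/

set_option autoImplicit false

namespace KamLattice

theorem fourier_shift (g : ℂ → ℂ) (s : ℝ) (hg : DifferentiableOn ℂ g {z | |z.im| < s})
    (hp : ∀ z : ℂ, |z.im| < s → g (z + 2 * Real.pi) = g z) (σ : ℝ) (hσ : |σ| < s) (k : ℤ) :
    ∫ x in (0 : ℝ)..(2 * Real.pi), g x * Complex.exp (-(Complex.I * (k * x))) =
      ∫ x in (0 : ℝ)..(2 * Real.pi), g (x + σ * Complex.I) *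
        Complex.exp (-(Complex.I * (k * (x + σ * Complex.I)))) := by
  have hmem : ∀ y : ℝ, y ∈ Set.uIcc 0 σ → |y| < s := by
    intro y hy
    have h1 := Set.abs_sub_left_of_mem_uIcc hy
    rw [sub_zero, sub_zero] at h1
    exact h1.trans_lt hσ
  have H : DifferentiableOn ℂ (fun z : ℂ => g z * Complex.exp (-(Complex.I * (k * z))))
      (Set.uIcc (0 : ℂ).re (2 * Real.pi + σ * Complex.I : ℂ).re ×ℂ
        Set.uIcc (0 : ℂ).im (2 * Real.pi + σ * Complex.I : ℂ).im) := by
    refine DifferentiableOn.mul (hg.mono ?_) (by fun_prop)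
    intro z hz
    rw [Complex.mem_reProdIm] at hz
    have h2 := hz.2
    have h3 : (2 * Real.pi + σ * Complex.I : ℂ).im = σ := by simp
    rw [h3, Complex.zero_im] at h2
    exact hmem _ h2
  have h := Complex.integral_boundary_rect_eq_zero_of_differentiableOn _ _ _ H
  have hre : (2 * Real.pi + σ * Complex.I : ℂ).re = 2 * Real.pi := by simp
  have him : (2 * Real.pi + σ * Complex.I : ℂ).im = σ := by simp
  rw [hre, him, Complex.zero_re, Complex.zero_im] at h
  have hper : ∀ z : ℂ, Complex.exp (-(Complex.I * (k * (z + 2 * Real.pi)))) =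
      Complex.exp (-(Complex.I * (k * z))) := by
    intro z
    have h4 : -(Complex.I * (k * (z + 2 * Real.pi))) =
        -(Complex.I * (k * z)) + ((-k : ℤ) : ℂ) * (2 * Real.pi * Complex.I) := by
      push_cast
      ring
    rw [h4, Complex.exp_add, Complex.exp_int_mul_two_pi_mul_I, mul_one]
  have hv : ∫ y : ℝ in (0 : ℝ)..σ, g (((2 * Real.pi : ℝ) : ℂ) + y * Complex.I) *
        Complex.exp (-(Complex.I * (k * (((2 * Real.pi : ℝ) : ℂ) + y * Complex.I)))) =
      ∫ y : ℝ in (0 : ℝ)..σ, g (((0 : ℝ) : ℂ) + y * Complex.I) *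
        Complex.exp (-(Complex.I * (k * (((0 : ℝ) : ℂ) + y * Complex.I)))) := by
    refine intervalIntegral.integral_congr fun y hy => ?_
    have h5 : (((2 * Real.pi : ℝ) : ℂ) + y * Complex.I) =
        (((0 : ℝ) : ℂ) + y * Complex.I) + 2 * Real.pi := by
      push_cast
      ring
    rw [h5, hper, hp]
    have h6 := hmem y hy
    simpa using h6
  rw [hv, add_sub_cancel_right, sub_eq_zero] at h
  simpa using h

/-- Fourier coefficient of a `2π`-periodic function on the real line -/
noncomputable def fc (g : ℝ → ℂ) (k : ℤ) : ℂ :=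
  (1 / (2 * Real.pi) : ℂ) * ∫ x in (0 : ℝ)..(2 * Real.pi), g x * Complex.exp (-(Complex.I * (k * x)))

theorem fourier_one (g : ℝ → ℂ) (hc : Continuous g) (hp : ∀ x, g (x + 2 * Real.pi) = g x)
    (hs : Summable (fc g)) (x : ℝ) :
    HasSum (fun k : ℤ => fc g k * Complex.exp (Complex.I * (k * x))) (g x) := by
  have hT : Fact (0 < 2 * Real.pi) := ⟨Real.two_pi_pos⟩
  have hper : Function.Periodic g (2 * Real.pi) := hp
  have hcont : Continuous (hper.lift : AddCircle (2 * Real.pi) → ℂ) :=
    continuous_coinduced_dom.2 hc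
  let f : C(AddCircle (2 * Real.pi), ℂ) := ⟨hper.lift, hcont⟩
  have hfou : ∀ (n : ℤ) (y : ℝ), (fourier n (y : AddCircle (2 * Real.pi)) : ℂ) =
      Complex.exp (Complex.I * (n * y)) := by
    intro n y
    rw [fourier_coe_apply]
    congr 1
    have h0 : ((2 * Real.pi : ℝ) : ℂ) ≠ 0 := by
      exact_mod_cast Real.two_pi_pos.ne'
    rw [div_eq_iff h0]
    push_cast
    ring
  have hcoef : ∀ n : ℤ, fourierCoeff f n = fc g n := by
    intro n
    rw [fourierCoeff_eq_intervalIntegral f n 0, fc, zero_add, Complex.real_smul]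
    congr 1
    · push_cast
      rfl
    · refine intervalIntegral.integral_congr fun y _ => ?_
      rw [hfou, smul_eq_mul]
      have h1 : f (y : AddCircle (2 * Real.pi)) = g y := rfl
      rw [h1, mul_comm]
      congr 2
      push_cast
      ring
  have hsum : Summable (fourierCoeff f) := by
    have : (fourierCoeff f : ℤ → ℂ) = fc g := funext hcoef
    rw [this]
    exact hs
  have h := has_pointwise_sum_fourier_series_of_summable hsum (x : AddCircle (2 * Real.pi))
  have h2 : f (x : AddCircle (2 * Real.pi)) = g x := rfl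
  rw [h2] at h
  refine h.congr_fun ?_
  intro k
  rw [hcoef, hfou, smul_eq_mul]

end KamLattice
end

section

/-!
# Fourier series of a periodic analytic function of two angles, standalone

Coefficients `c (k, l) = (2π)^(-2) ∫∫ G φ ψ e^{-i(kφ + lψ)}`. Bound: shift the `φ` contour to
`Im φ = -s' sign k` for every real `ψ` (`fourier_shift`), exchange the integrals (continuity,
`intervalIntegral_integral_interval_swap` or `MeasureTheory.integral_integral_swap`), shift the `ψ`
contour to `Im ψ = -s' sign l` for every `φ` on the shifted line. Convergence: `fourier_one` in `ψ`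
for fixed real `φ`, its coefficients `D_l φ` are continuous periodic functions of `φ` bounded by
`B e^{-s'|l|}` with Fourier coefficients `c (·, l)`, again `fourier_one`; join with the bound.
-/

set_option autoImplicit false

namespace KamLattice

open Set MeasureTheory

theorem expd_swap (F : ℝ → ℝ → ℂ) (hF : Continuous F.uncurry) (a b c d : ℝ) :
    ∫ x in a..b, ∫ y in c..d, F x y = ∫ y in c..d, ∫ x in a..b, F x y := by
  apply MeasureTheory.intervalIntegral_intervalIntegral_swap
  exact (hF.continuousOn.integrableOn_compact (isCompact_uIcc.prod isCompact_uIcc)).mono_set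
    (Set.prod_mono uIoc_subset_uIcc uIoc_subset_uIcc)

/-- The shift for which the exponential is small. -/
noncomputable def expd_sh (s' : ℝ) (k : ℤ) : ℝ := if 0 ≤ k then -s' else s'

theorem expd_sh_abs {s' : ℝ} (hs' : 0 < s') (k : ℤ) : |expd_sh s' k| = s' := by
  unfold expd_sh
  split_ifs
  · rw [abs_neg, abs_of_pos hs']
  · exact abs_of_pos hs'

theorem expd_sh_mul (s' : ℝ) (k : ℤ) : (k : ℝ) * expd_sh s' k = -s' * |(k : ℝ)| := by
  unfold expd_sh
  split_ifs with h
  · have : (0 : ℝ) ≤ k := by exact_mod_cast h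
    rw [abs_of_nonneg this]
    ring
  · have : (k : ℝ) < 0 := by
      push Not at h
      exact_mod_cast h
    rw [abs_of_neg this]
    ring

theorem expd_norm_exp (k : ℤ) (x σ : ℝ) :
    ‖Complex.exp (-(Complex.I * (k * (x + σ * Complex.I))))‖ = Real.exp (k * σ) := by
  rw [Complex.norm_exp]
  congr 1
  simp

/-- Bound for an integral over the shifted line. -/
theorem expd_line (g : ℂ → ℂ) (s' B : ℝ) (hs' : 0 < s') (hB : ∀ z : ℂ, |z.im| ≤ s' → ‖g z‖ ≤ B)
    (k : ℤ) : ‖(1 / (2 * Real.pi) : ℂ) * ∫ x in (0 : ℝ)..(2 * Real.pi),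
      g (x + expd_sh s' k * Complex.I) *
        Complex.exp (-(Complex.I * (k * (x + expd_sh s' k * Complex.I))))‖ ≤
      B * Real.exp (-s' * |(k : ℝ)|) := by
  have hpi : 0 < 2 * Real.pi := by positivity
  have h1 : ‖∫ x in (0 : ℝ)..(2 * Real.pi), g (x + expd_sh s' k * Complex.I) *
        Complex.exp (-(Complex.I * (k * (x + expd_sh s' k * Complex.I))))‖ ≤
      B * Real.exp (-s' * |(k : ℝ)|) * |2 * Real.pi - 0| := by
    apply intervalIntegral.norm_integral_le_of_norm_le_const
    intro x _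
    rw [norm_mul, expd_norm_exp, expd_sh_mul]
    refine mul_le_mul_of_nonneg_right (hB _ ?_) (Real.exp_pos _).le
    simp only [Complex.add_im, Complex.ofReal_im, Complex.mul_im, Complex.ofReal_re, Complex.I_im,
      mul_one, Complex.I_re, mul_zero, add_zero, zero_add]
    exact (expd_sh_abs hs' k).le
  have h2 : ‖(1 / (2 * Real.pi) : ℂ)‖ = (2 * Real.pi)⁻¹ := by
    rw [one_div, norm_inv, norm_mul, Complex.norm_real, Real.norm_of_nonneg Real.pi_pos.le]
    norm_num
  rw [sub_zero, abs_of_pos hpi] at h1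
  rw [norm_mul, h2, inv_mul_le_iff₀ hpi]
  linarith

theorem expd_bound (g : ℂ → ℂ) (s s' B : ℝ) (hs' : 0 < s') (hss : s' < s)
    (hg : DifferentiableOn ℂ g {z | |z.im| < s})
    (hp : ∀ z : ℂ, |z.im| < s → g (z + 2 * Real.pi) = g z)
    (hB : ∀ z : ℂ, |z.im| ≤ s' → ‖g z‖ ≤ B) (k : ℤ) :
    ‖fc (fun x : ℝ => g x) k‖ ≤ B * Real.exp (-s' * |(k : ℝ)|) := by
  unfold fc
  rw [fourier_shift g s hg hp (expd_sh s' k) (by rw [expd_sh_abs hs']; exact hss) k]
  exact expd_line g s' B hs' hB k

theorem expd_summable {s' : ℝ} (hs' : 0 < s') :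
    Summable fun k : ℤ => Real.exp (-s' * |(k : ℝ)|) := by
  have h1 : Summable fun n : ℕ => Real.exp (-s' * n) := by
    have h2 : Summable fun n : ℕ => (Real.exp (-s')) ^ n :=
      summable_geometric_of_lt_one (Real.exp_pos _).le (by rw [Real.exp_lt_one_iff]; linarith)
    refine h2.congr fun n => ?_
    rw [← Real.exp_nat_mul]
    congr 1
    ring
  refine Summable.of_nat_of_neg ?_ ?_
  · refine h1.congr fun n => ?_
    simp
  · refine h1.congr fun n => ?_
    simp

theorem expd_int_periodic (k : ℤ) (x : ℂ) :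
    Complex.exp (-(Complex.I * (k * (x + 2 * Real.pi)))) = Complex.exp (-(Complex.I * (k * x))) := by
  have h1 : -(Complex.I * (k * (x + 2 * Real.pi))) =
      -(Complex.I * (k * x)) + (-k : ℤ) * (2 * Real.pi * Complex.I) := by
    push_cast
    ring
  rw [h1, Complex.exp_add, Complex.exp_int_mul_two_pi_mul_I, mul_one]

section Two

variable {G : ℂ → ℂ → ℂ} {s s' B : ℝ}

theorem expd_left (hG : AnalyticOnNhd ℂ (fun z : ℂ × ℂ => G z.1 z.2)
      {z | |z.1.im| < s ∧ |z.2.im| < s}) {ψ : ℂ} (hψ : |ψ.im| < s) :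
    DifferentiableOn ℂ (fun φ => G φ ψ) {z | |z.im| < s} := by
  intro φ hφ
  have h1 : DifferentiableAt ℂ (fun z : ℂ × ℂ => G z.1 z.2) (φ, ψ) :=
    (hG (φ, ψ) ⟨hφ, hψ⟩).differentiableAt
  have h2 : DifferentiableAt ℂ (fun z : ℂ => (z, ψ)) φ :=
    differentiableAt_id.prodMk (differentiableAt_const _)
  exact (DifferentiableAt.comp φ (g := fun z : ℂ × ℂ => G z.1 z.2) h1 h2).differentiableWithinAt

theorem expd_right (hG : AnalyticOnNhd ℂ (fun z : ℂ × ℂ => G z.1 z.2)
      {z | |z.1.im| < s ∧ |z.2.im| < s}) {φ : ℂ} (hφ : |φ.im| < s) :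
    DifferentiableOn ℂ (fun ψ => G φ ψ) {z | |z.im| < s} := by
  intro ψ hψ
  have h1 : DifferentiableAt ℂ (fun z : ℂ × ℂ => G z.1 z.2) (φ, ψ) :=
    (hG (φ, ψ) ⟨hφ, hψ⟩).differentiableAt
  have h2 : DifferentiableAt ℂ (fun z : ℂ => (φ, z)) ψ :=
    (differentiableAt_const _).prodMk differentiableAt_id
  exact (DifferentiableAt.comp ψ (g := fun z : ℂ × ℂ => G z.1 z.2) h1 h2).differentiableWithinAt

theorem expd_cont (hs : 0 < s) (hG : AnalyticOnNhd ℂ (fun z : ℂ × ℂ => G z.1 z.2)
      {z | |z.1.im| < s ∧ |z.2.im| < s}) {σ : ℝ} (hσ : |σ| < s) :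
    Continuous (fun p : ℝ × ℝ => G (p.1 + σ * Complex.I) p.2) := by
  have h1 : Continuous (fun p : ℝ × ℝ => (((p.1 : ℂ) + σ * Complex.I, (p.2 : ℂ)) : ℂ × ℂ)) := by
    fun_prop
  refine hG.continuousOn.comp_continuous h1 ?_
  intro p
  simp [hσ, hs]

end Two

end KamLattice

namespace KamLattice

open Set MeasureTheory

theorem fourier_two (G : ℂ → ℂ → ℂ) (s s' B : ℝ) (hs'0 : 0 < s') (hs' : s' < s)
    (hG : AnalyticOnNhd ℂ (fun z : ℂ × ℂ => G z.1 z.2) {z | |z.1.im| < s ∧ |z.2.im| < s})
    (h1 : ∀ φ ψ : ℂ, |φ.im| < s → |ψ.im| < s → G (φ + 2 * Real.pi) ψ = G φ ψ)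
    (h2 : ∀ φ ψ : ℂ, |φ.im| < s → |ψ.im| < s → G φ (ψ + 2 * Real.pi) = G φ ψ)
    (hB : ∀ φ ψ : ℂ, |φ.im| ≤ s' → |ψ.im| ≤ s' → ‖G φ ψ‖ ≤ B) :
    ∃ c : ℤ × ℤ → ℂ, (∀ k l : ℤ, ‖c (k, l)‖ ≤ B * Real.exp (-s' * (|(k : ℝ)| + |(l : ℝ)|))) ∧
      ∀ φ ψ : ℝ, HasSum (fun a : ℤ × ℤ => c a * Complex.exp (Complex.I * (a.1 * φ + a.2 * ψ)))
        (G φ ψ) := by
  have hs : 0 < s := hs'0.trans hs'
  have h0s : |(0 : ℝ)| < s := by simpa using hs
  -- the coefficients in the second variable
  set D : ℤ → ℂ → ℂ := fun l φ => fc (fun ψ : ℝ => G φ ψ) l with hD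
  have hDb : ∀ (l : ℤ) (φ : ℂ), |φ.im| ≤ s' → ‖D l φ‖ ≤ B * Real.exp (-s' * |(l : ℝ)|) := by
    intro l φ hφ
    exact expd_bound (fun ψ => G φ ψ) s s' B hs'0 hs' (expd_right hG (hφ.trans_lt hs'))
      (fun ψ hψ => h2 φ ψ (hφ.trans_lt hs') hψ) (fun ψ hψ => hB φ ψ hφ hψ) l
  -- shift of the contour in the first variable
  have hshift : ∀ (k l : ℤ) (σ : ℝ), |σ| < s → ∫ x in (0 : ℝ)..(2 * Real.pi),
      D l x * Complex.exp (-(Complex.I * (k * x))) = ∫ x in (0 : ℝ)..(2 * Real.pi),
        D l (x + σ * Complex.I) * Complex.exp (-(Complex.I * (k * (x + σ * Complex.I)))) := by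
    intro k l σ hσ
    have hsw : ∀ σ : ℝ, |σ| < s → ∫ x in (0 : ℝ)..(2 * Real.pi),
        D l (x + σ * Complex.I) * Complex.exp (-(Complex.I * (k * (x + σ * Complex.I)))) =
        (1 / (2 * Real.pi) : ℂ) * ∫ y in (0 : ℝ)..(2 * Real.pi), (∫ x in (0 : ℝ)..(2 * Real.pi),
          G (x + σ * Complex.I) y * Complex.exp (-(Complex.I * (k * (x + σ * Complex.I))))) *
            Complex.exp (-(Complex.I * (l * y))) := by
      intro σ hσ
      have e1 : ∀ x : ℝ, D l (x + σ * Complex.I) *
          Complex.exp (-(Complex.I * (k * (x + σ * Complex.I)))) =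
          (1 / (2 * Real.pi) : ℂ) * ∫ y in (0 : ℝ)..(2 * Real.pi),
            G (x + σ * Complex.I) y * Complex.exp (-(Complex.I * (k * (x + σ * Complex.I)))) *
            Complex.exp (-(Complex.I * (l * y))) := by
        intro x
        rw [hD]
        simp only [fc]
        rw [mul_assoc, ← intervalIntegral.integral_mul_const]
        congr 1
        refine intervalIntegral.integral_congr fun y _ => ?_
        ring
      simp only [e1]
      rw [intervalIntegral.integral_const_mul]
      congr 1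
      have hc1 := expd_cont hs hG hσ
      rw [expd_swap (fun x y => G (x + σ * Complex.I) y *
        Complex.exp (-(Complex.I * (k * (x + σ * Complex.I)))) *
            Complex.exp (-(Complex.I * (l * y))))]
      · refine intervalIntegral.integral_congr fun y _ => ?_
        exact intervalIntegral.integral_mul_const _ _
      · have hc2 : Continuous fun p : ℝ × ℝ =>
            Complex.exp (-(Complex.I * (k * ((p.1 : ℂ) + σ * Complex.I)))) *
            Complex.exp (-(Complex.I * (l * (p.2 : ℂ)))) := by fun_prop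
        have := hc1.mul hc2
        refine this.congr fun p => ?_
        simp only [Function.uncurry, Pi.mul_apply]
        ring
    have e2 := hsw σ hσ
    have e3 := hsw 0 h0s
    simp only [Complex.ofReal_zero, zero_mul, add_zero] at e3
    rw [e2, e3]
    congr 1
    refine intervalIntegral.integral_congr fun y _ => ?_
    refine congrArg (fun t => t * Complex.exp (-(Complex.I * (l * (y : ℂ))))) ?_
    exact fourier_shift (fun φ => G φ y) s (expd_left hG (by simpa using hs))
      (fun φ hφ => h1 φ y hφ (by simpa using hs)) σ hσ k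
  have hcb : ∀ k l : ℤ, ‖fc (fun x : ℝ => D l x) k‖ ≤
      B * Real.exp (-s' * (|(k : ℝ)| + |(l : ℝ)|)) := by
    intro k l
    have h3 : fc (fun x : ℝ => D l x) k = (1 / (2 * Real.pi) : ℂ) * ∫ x in (0 : ℝ)..(2 * Real.pi),
        D l (x + expd_sh s' k * Complex.I) *
          Complex.exp (-(Complex.I * (k * (x + expd_sh s' k * Complex.I)))) := by
      unfold fc
      rw [← hshift k l _ (by rw [expd_sh_abs hs'0]; exact hs')]
    rw [h3]
    refine (expd_line (D l) s' _ hs'0 (hDb l) k).trans (le_of_eq ?_)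
    rw [mul_assoc, ← Real.exp_add]
    congr 2
    ring
  have hB0 : 0 ≤ B := by
    have := hB 0 0 (by simpa using hs'0.le) (by simpa using hs'0.le)
    exact (norm_nonneg _).trans this
  refine ⟨fun a => fc (fun x : ℝ => D a.2 x) a.1, fun k l => hcb k l, fun φ ψ => ?_⟩
  -- absolute convergence
  have hsumE : Summable fun a : ℤ × ℤ => Real.exp (-s' * |(a.1 : ℝ)|) *
      Real.exp (-s' * |(a.2 : ℝ)|) :=
    (expd_summable hs'0).mul_of_nonneg (expd_summable hs'0) (fun _ => (Real.exp_pos _).le)
      (fun _ => (Real.exp_pos _).le)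
  have hnorm : ∀ a : ℤ × ℤ, ‖fc (fun x : ℝ => D a.2 x) a.1 *
      Complex.exp (Complex.I * (a.1 * φ + a.2 * ψ))‖ ≤
      B * (Real.exp (-s' * |(a.1 : ℝ)|) * Real.exp (-s' * |(a.2 : ℝ)|)) := by
    intro a
    have h3 : ‖Complex.exp (Complex.I * (a.1 * φ + a.2 * ψ))‖ = 1 := by
      rw [Complex.norm_exp]
      simp
    rw [norm_mul, h3, mul_one]
    refine (hcb a.1 a.2).trans (le_of_eq ?_)
    rw [← Real.exp_add]
    congr 2
    ring
  have hsum : Summable fun a : ℤ × ℤ => fc (fun x : ℝ => D a.2 x) a.1 *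
      Complex.exp (Complex.I * (a.1 * φ + a.2 * ψ)) :=
    Summable.of_norm_bounded (hsumE.mul_left B) hnorm
  -- the sum over the first index
  have hcontD : ∀ l, Continuous fun x : ℝ => D l x := by
    intro l
    have hc1 := expd_cont hs hG h0s
    simp only [Complex.ofReal_zero, zero_mul, add_zero] at hc1
    have hc2 : Continuous (Function.uncurry fun x y : ℝ =>
        G x y * Complex.exp (-(Complex.I * (l * y)))) := by
      have hc3 : Continuous fun p : ℝ × ℝ => Complex.exp (-(Complex.I * (l * (p.2 : ℂ)))) := by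
        fun_prop
      exact hc1.mul hc3
    have := intervalIntegral.continuous_parametric_intervalIntegral_of_continuous' (μ := volume)
      hc2 0 (2 * Real.pi)
    rw [hD]
    simp only [fc]
    exact continuous_const.mul this
  have hperD : ∀ l, ∀ x : ℝ, D l ((x + 2 * Real.pi : ℝ) : ℂ) = D l x := by
    intro l x
    rw [hD]
    simp only [fc]
    congr 1
    refine intervalIntegral.integral_congr fun y _ => ?_
    refine congrArg (fun t => t * Complex.exp (-(Complex.I * (l * (y : ℂ))))) ?_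
    have := h1 (x : ℂ) (y : ℂ) (by simpa using hs) (by simpa using hs)
    rw [← this]
    push_cast
    rfl
  have hone : ∀ l : ℤ, HasSum (fun k : ℤ => fc (fun x : ℝ => D l x) k *
      Complex.exp (Complex.I * (k * φ))) (D l φ) := by
    intro l
    refine fourier_one (fun x : ℝ => D l x) (hcontD l) (hperD l) ?_ φ
    refine Summable.of_norm_bounded (g := fun k : ℤ => B * Real.exp (-s' * |(l : ℝ)|) *
      Real.exp (-s' * |(k : ℝ)|)) ((expd_summable hs'0).mul_left _) ?_
    intro k
    refine (hcb k l).trans (le_of_eq ?_)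
    rw [mul_assoc, ← Real.exp_add]
    congr 2
    ring
  have hcontG : Continuous fun y : ℝ => G φ y := by
    have hc1 := expd_cont hs hG h0s
    simp only [Complex.ofReal_zero, zero_mul, add_zero] at hc1
    exact hc1.comp (continuous_const.prodMk continuous_id)
  have htwo : HasSum (fun l : ℤ => D l φ * Complex.exp (Complex.I * (l * ψ))) (G φ ψ) := by
    refine fourier_one (fun y : ℝ => G φ y) hcontG (fun y => ?_) ?_ ψ
    · have := h2 (φ : ℂ) (y : ℂ) (by simpa using hs) (by simpa using hs)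
      rw [← this]
      push_cast
      rfl
    · refine Summable.of_norm_bounded (g := fun l : ℤ => B * Real.exp (-s' * |(l : ℝ)|))
        ((expd_summable hs'0).mul_left _) ?_
      intro l
      exact hDb l φ (by simpa using hs'0.le)
  -- the double sum
  have hsum' := (Equiv.prodComm ℤ ℤ).summable_iff.2 hsum
  have hS := hsum'.hasSum
  have hfib := hS.prod_fiberwise (g := fun l : ℤ => D l φ * Complex.exp (Complex.I * (l * ψ)))
    (fun l => by
      have h3 := (hone l).mul_right (Complex.exp (Complex.I * (l * ψ)))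
      have h5 : (fun k : ℤ => fc (fun x : ℝ => D l x) k * Complex.exp (Complex.I * (k * φ)) *
          Complex.exp (Complex.I * (l * ψ))) = fun k : ℤ =>
          ((fun a : ℤ × ℤ => fc (fun x : ℝ => D a.2 x) a.1 *
            Complex.exp (Complex.I * (a.1 * φ + a.2 * ψ))) ∘ (Equiv.prodComm ℤ ℤ)) (l, k) := by
        funext k
        simp only [Function.comp_apply, Equiv.prodComm_apply, Prod.swap_prod_mk]
        rw [mul_assoc, ← Complex.exp_add]
        congr 2
        ring
      rw [h5] at h3
      exact h3)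
  have hEq := hfib.unique htwo
  rw [← hEq]
  have h4 := ((Equiv.prodComm ℤ ℤ).hasSum_iff).1 hS
  exact h4

end KamLattice
end

section

/-!
# Push-forwards
-/

set_option autoImplicit false

namespace KX

open scoped ENNReal

section gen

variable {ι κ M M' : Type}

/-- composition: a push-forward of a family built linearly on the coefficients of another
push-forward is a push-forward over the product index set -/
theorem push_push (w : M' → ℝ≥0∞) (hw : ∀ m, w m ≠ 0) (T : ι → M) (u : ι → ℂ) (T' : κ × M → M')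
    (c : κ × M → ℂ)
    (h : ∑' x : κ × ι, ‖c (x.1, T x.2)‖ₑ * ‖u x.2‖ₑ * w (T' (x.1, T x.2)) ≠ ∞) :
    push T' (fun x : κ × M => c x * push T u x.2) =
      push (fun x : κ × ι => T' (x.1, T x.2)) fun x => c (x.1, T x.2) * u x.2 := by
  classical
  funext m'
  let F : κ → M → ι → ℂ := fun a m i =>
    if T i = m then (if T' (a, m) = m' then c (a, m) * u i else 0) else 0
  have hF : ∀ a m i, ‖F a m i‖ₑ =
      if T i = m then (if T' (a, m) = m' then ‖c (a, m)‖ₑ * ‖u i‖ₑ else 0) else 0 := by
    intro a m i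
    simp only [F]
    split_ifs <;> simp [enorm_mul]
  -- absolute summability
  have hsum : ∑' a, ∑' i, (if T' (a, T i) = m' then ‖c (a, T i)‖ₑ * ‖u i‖ₑ else 0) ≠ ∞ := by
    have h1 := tsum_fibre_ne_top_a1 w (fun x : κ × ι => T' (x.1, T x.2))
      (fun x => ‖c (x.1, T x.2)‖ₑ * ‖u x.2‖ₑ) h m' (hw m')
    rwa [ENNReal.tsum_prod'] at h1
  have habs : ∑' a, ∑' i, ∑' m, ‖F a m i‖ₑ ≠ ∞ := by
    convert hsum using 5 with a i
    rw [tsum_eq_single (T i)]
    · rw [hF, if_pos rfl]
    · intro m hm
      rw [hF, if_neg (fun h => hm h.symm)]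
  have hS1 : Summable fun x : (κ × ι) × M => F x.1.1 x.2 x.1.2 := by
    refine Summable.of_enorm ?_
    rw [ENNReal.tsum_prod', ENNReal.tsum_prod']
    exact habs
  have hS2 : Summable fun x : (κ × M) × ι => F x.1.1 x.1.2 x.2 := by
    refine Summable.of_enorm ?_
    rw [ENNReal.tsum_prod', ENNReal.tsum_prod']
    have : ∑' a, ∑' m, ∑' i, ‖F a m i‖ₑ = ∑' a, ∑' i, ∑' m, ‖F a m i‖ₑ :=
      tsum_congr fun a => ENNReal.tsum_comm
    rw [this]
    exact habs
  have hL : push T' (fun x : κ × M => c x * push T u x.2) m' =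
      ∑' x : κ × M, ∑' i, F x.1 x.2 i := by
    unfold push
    refine tsum_congr fun x => ?_
    by_cases hx : T' x = m'
    · rw [if_pos hx]
      show c x * (∑' (i : ι), if T i = x.2 then u i else 0) = _
      rw [← tsum_mul_left]
      refine tsum_congr fun i => ?_
      simp only [F, Prod.mk.eta, if_pos hx]
      split_ifs <;> simp
    · rw [if_neg hx]
      symm
      have : ∀ i, F x.1 x.2 i = 0 := fun i => by simp [F, hx]
      simp [this]
  have hR : push (fun x : κ × ι => T' (x.1, T x.2)) (fun x => c (x.1, T x.2) * u x.2) m' =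
      ∑' x : κ × ι, ∑' m, F x.1 m x.2 := by
    unfold push
    refine tsum_congr fun x => ?_
    rw [tsum_eq_single (T x.2)]
    · simp [F]
    · intro m hm
      simp only [F]
      rw [if_neg (fun h => hm h.symm)]
  rw [hL, hR]
  have e1 : ∑' x : κ × M, ∑' i, F x.1 x.2 i = ∑' x : (κ × M) × ι, F x.1.1 x.1.2 x.2 :=
    (hS2.tsum_prod).symm
  have e2 : ∑' x : κ × ι, ∑' m, F x.1 m x.2 = ∑' x : (κ × ι) × M, F x.1.1 x.2 x.1.2 :=
    (hS1.tsum_prod).symm
  rw [e1, e2]
  let e : (κ × M) × ι ≃ (κ × ι) × M :=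
    { toFun := fun x => ((x.1.1, x.2), x.1.2)
      invFun := fun x => ((x.1.1, x.2), x.1.2)
      left_inv := fun x => rfl
      right_inv := fun x => rfl }
  exact e.tsum_eq fun x : (κ × ι) × M => F x.1.1 x.2 x.1.2

end gen

end KX
end

section

/-!
# Push-forwards
-/

set_option autoImplicit false

namespace KX

open scoped ENNReal

section gen

variable {ι κ M M' : Type}

/-- countable additivity in the coefficients -/
theorem push_tsum (w : M → ℝ≥0∞) (hw : ∀ m, w m ≠ 0) (T : ι → M) (u : κ → ι → ℂ)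
    (h : ∑' x : κ × ι, ‖u x.1 x.2‖ₑ * w (T x.2) ≠ ∞) (m : M) :
    push T (fun i => ∑' a, u a i) m = ∑' a, push T (u a) m := by
  classical
  have h1 := summable_fibre_a1 w (fun x : κ × ι => T x.2) (fun x => u x.1 x.2) h m (hw m)
  have h2 : Summable (Function.uncurry fun (a : κ) (i : ι) => (if T i = m then u a i else 0 : ℂ)) := h1
  have h3 := h2.tsum_comm
  unfold push
  rw [← h3]
  refine tsum_congr fun i => ?_
  split_ifs <;> simp

/-- additivity of the norm under countable sums -/
theorem nr_tsum_le (w : M → ℝ≥0∞) (g : κ → M → ℂ) :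
    nr w (fun m => ∑' a, g a m) ≤ ∑' a, nr w (g a) := by
  unfold nr
  rw [ENNReal.tsum_comm]
  refine ENNReal.tsum_le_tsum fun m => ?_
  rw [ENNReal.tsum_mul_right]
  exact mul_le_mul_left enorm_tsum_le_tsum_enorm _

theorem nr_add_le (w : M → ℝ≥0∞) (g h : M → ℂ) : nr w (fun m => g m + h m) ≤ nr w g + nr w h := by
  unfold nr
  rw [← ENNReal.tsum_add]
  refine ENNReal.tsum_le_tsum fun m => ?_
  rw [← add_mul]
  exact mul_le_mul_left (enorm_add_le _ _) _

theorem nr_smul (w : M → ℝ≥0∞) (c : ℂ) (g : M → ℂ) : nr w (fun m => c * g m) = ‖c‖ₑ * nr w g := by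
  unfold nr
  rw [← ENNReal.tsum_mul_left]
  refine tsum_congr fun m => ?_
  rw [enorm_mul, mul_assoc]

theorem nr_mono {w w' : M → ℝ≥0∞} (h : ∀ m, w m ≤ w' m) (g : M → ℂ) : nr w g ≤ nr w' g :=
  ENNReal.tsum_le_tsum fun m => mul_le_mul_right (h m) _

end gen

end KX
end

section

/-!
# Combinatorial core: many independent vectors in a laminar family

`Q` is the finite set of leaves, `D` the finite set of divided nodes, `Ls n` the leaf set of the node
`n`, `kq q` the integer vector of the leaf `q`, `kn n = ∑_{q ∈ Ls n} kq q`, `Aq q` the cluster.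
-/

set_option autoImplicit false

namespace KX

open Finset

private theorem greedy_basis_aux {D E : Type} [DecidableEq D] [AddCommGroup E] [Module ℝ E]
    (v : D → E) (K : ℝ) (N : ℕ) : ∀ (S : Finset D) (x : D → ℝ), S.card = N → (∀ n ∈ S, 0 ≤ x n) →
    (∀ S' ⊆ S, ∃ R ⊆ S', LinearIndependent ℝ (fun n : R => v n) ∧
      (S'.card : ℝ) ≤ K * R.card) →
    ∃ B ⊆ S, LinearIndepOn ℝ v (B : Set D) ∧
      (∀ n ∈ S, v n ∈ Submodule.span ℝ (v '' (B : Set D))) ∧
      ∑ n ∈ S, x n ≤ K * ∑ n ∈ B, x n := by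
  induction N with
  | zero =>
    intro S x hS hx h
    have hS0 : S = ∅ := Finset.card_eq_zero.1 hS
    subst hS0
    refine ⟨∅, Finset.Subset.refl _, ?_, ?_, ?_⟩
    · simp
    · simp
    · simp
  | succ N ih =>
    intro S x hS hx h
    have hne : S.Nonempty := by
      rw [← Finset.card_pos, hS]; exact Nat.succ_pos _
    obtain ⟨n0, hn0, hmin⟩ := Finset.exists_min_image S x hne
    obtain ⟨B1, hB1S, hB1i, hB1s, hB1x⟩ := ih (S.erase n0) (fun n => x n - x n0)
      (by rw [Finset.card_erase_of_mem hn0, hS]; rfl)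
      (fun n hn => sub_nonneg.2 (hmin n (Finset.mem_of_mem_erase hn)))
      (fun S' hS' => h S' (hS'.trans (Finset.erase_subset _ _)))
    -- the choice of `B`
    obtain ⟨B, hB1B, hBS, hBi, hBn0, hBx⟩ : ∃ B : Finset D, B1 ⊆ B ∧ B ⊆ S ∧
        LinearIndepOn ℝ v (B : Set D) ∧ v n0 ∈ Submodule.span ℝ (v '' (B : Set D)) ∧
        ∑ n ∈ B1, (x n - x n0) = ∑ n ∈ B, (x n - x n0) := by
      by_cases hin : v n0 ∈ Submodule.span ℝ (v '' (B1 : Set D))
      · exact ⟨B1, Finset.Subset.refl _, hB1S.trans (Finset.erase_subset _ _), hB1i, hin, rfl⟩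
      · refine ⟨insert n0 B1, Finset.subset_insert _ _, ?_, ?_, ?_, ?_⟩
        · exact Finset.insert_subset hn0 (hB1S.trans (Finset.erase_subset _ _))
        · rw [Finset.coe_insert]
          exact hB1i.insert hin
        · apply Submodule.subset_span
          exact ⟨n0, by simp, rfl⟩
        · rw [Finset.sum_insert]
          · simp
          · intro hmem
            exact absurd (hB1S hmem) (Finset.notMem_erase _ _)
    have hspan : ∀ n ∈ S, v n ∈ Submodule.span ℝ (v '' (B : Set D)) := by
      intro n hn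
      by_cases hnn : n = n0
      · rw [hnn]; exact hBn0
      · have h1 := hB1s n (Finset.mem_erase.2 ⟨hnn, hn⟩)
        exact Submodule.span_mono (Set.image_mono (by exact_mod_cast hB1B)) h1
    refine ⟨B, hBS, hBi, hspan, ?_⟩
    -- the rank bound for the whole of `S`
    obtain ⟨R, hRS, hRi, hRc⟩ := h S (Finset.Subset.refl _)
    have hrk : R.card ≤ B.card := by
      have hfin : FiniteDimensional ℝ (Submodule.span ℝ (v '' (B : Set D))) :=
        FiniteDimensional.span_of_finite ℝ (B.finite_toSet.image v)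
      have h1 : Module.finrank ℝ (Submodule.span ℝ (Set.range (fun n : R => v n))) = R.card := by
        rw [finrank_span_eq_card hRi]; simp
      have h2 : Submodule.span ℝ (Set.range (fun n : R => v n)) ≤
          Submodule.span ℝ (v '' (B : Set D)) := by
        rw [Submodule.span_le]
        rintro _ ⟨n, rfl⟩
        exact hspan n (hRS n.2)
      have h3 : Module.finrank ℝ (Submodule.span ℝ (v '' (B : Set D))) ≤ B.card := by
        have h4 : (v '' (B : Set D)) = Set.range (fun n : B => v n) := by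
          ext y; simp
        rw [h4]
        have h5 := finrank_range_le_card (R := ℝ) (b := fun n : B => v n)
        rw [Fintype.card_coe] at h5
        exact h5
      calc R.card = _ := h1.symm
        _ ≤ _ := Submodule.finrank_mono h2
        _ ≤ _ := h3
    have hK : 0 ≤ K := by
      by_contra hK
      push Not at hK
      have h1 : (1 : ℝ) ≤ S.card := by rw [hS]; push_cast; linarith [Nat.cast_nonneg (α := ℝ) N]
      have h2 : K * (R.card : ℝ) ≤ 0 := mul_nonpos_of_nonpos_of_nonneg hK.le (Nat.cast_nonneg _)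
      linarith
    have hcard : (S.card : ℝ) ≤ K * B.card :=
      hRc.trans (mul_le_mul_of_nonneg_left (by exact_mod_cast hrk) hK)
    have hx0 : 0 ≤ x n0 := hx n0 hn0
    have e1 : ∑ n ∈ S, x n = ∑ n ∈ S.erase n0, (x n - x n0) + S.card * x n0 := by
      have h1 : ∑ n ∈ S, (x n - x n0) = ∑ n ∈ S.erase n0, (x n - x n0) := by
        rw [← Finset.add_sum_erase S _ hn0]; simp
      rw [← h1, Finset.sum_sub_distrib]
      simp
    have e2 : ∑ n ∈ B, x n = ∑ n ∈ B, (x n - x n0) + B.card * x n0 := by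
      rw [Finset.sum_sub_distrib]; simp
    rw [e1, e2, ← hBx]
    have h6 := mul_le_mul_of_nonneg_right hcard hx0
    nlinarith [hB1x]

/-- Greedy basis: if every subset `S'` of `S` satisfies `|S'| ≤ K * rank`, where the rank statement is
given in the form `S'` contains an independent subset `R` with `|S'| ≤ K |R|`, then some
independent subset `B` of `S` satisfies `∑_S x ≤ K ∑_B x`.
Proof: order `S` by decreasing `x`, let `B` be the set of elements whose vector is not in the span of
the preceding ones; for every initial segment `S'` of the order, `B ∩ S'` is a maximal independent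
subset of `S'`, so `|S'| ≤ K |B ∩ S'|`; Abel summation. -/
theorem greedy_basis {D E : Type} [DecidableEq D] [AddCommGroup E] [Module ℝ E] (v : D → E)
    (x : D → ℝ) (K : ℝ) (S : Finset D) (hx : ∀ n ∈ S, 0 ≤ x n)
    (h : ∀ S' ⊆ S, ∃ R ⊆ S', LinearIndependent ℝ (fun n : R => v n) ∧ (S'.card : ℝ) ≤ K * R.card) :
    ∃ B ⊆ S, LinearIndependent ℝ (fun n : B => v n) ∧ ∑ n ∈ S, x n ≤ K * ∑ n ∈ B, x n := by
  obtain ⟨B, h1, h2, -, h3⟩ := greedy_basis_aux v K S.card S x rfl hx h
  exact ⟨B, h1, h2, h3⟩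

end KX
end
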