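import Pool.Agent.Lib.MP_73c19a_an.Mg.G006
import Pool.Agent.Lib.MP_73c19a_an.Mg.G007
import Pool.Agent.Lib.MP_73c19a_an.Mg.G001
import Pool.Agent.Lib.MP_73c19a_an.Mg.G003

section

/-!
# Taylor-Fourier expansion of an interaction: the coefficients

`coef_exists`: for every `(n1, n2)` apply `fourier_two` to the Taylor coefficient `tc f p1 p2 n1 n2`
(`tc_bound`, `tc_analytic`), choose the coefficients, join the sums (absolute convergence from the
bound: geometric series in `n1, n2, k1, k2`). `coef_real`: replace `c` by the average of `c (n, k)`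
and the conjugate of `c (n, -k)`; the sum is real.
-/

set_option autoImplicit false

namespace KamLattice

/-- one term of the series -/
noncomputable def term4 (c : ℕ × ℕ × ℤ × ℤ → ℂ) (x y φ ψ : ℝ) (a : ℕ × ℕ × ℤ × ℤ) : ℂ :=
  c a * (x : ℂ) ^ a.1 * (y : ℂ) ^ a.2.1 * Complex.exp (Complex.I * (a.2.2.1 * φ + a.2.2.2 * ψ))

/-- the Cauchy bounds -/
def CB (c : ℕ × ℕ × ℤ × ℤ → ℂ) (K R1 R2 s' : ℝ) : Prop :=
  ∀ n1 n2 k1 k2, ‖c (n1, n2, k1, k2)‖ ≤
    K / (R1 ^ n1 * R2 ^ n2) * Real.exp (-s' * (|(k1 : ℝ)| + |(k2 : ℝ)|))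

theorem sum_pow_e (q : ℝ) (hq0 : 0 ≤ q) (hq : q < 1) (e : ℕ) :
    Summable fun n : ℕ => q ^ n * (1 + (n : ℝ)) ^ e := by
  have h := summable_pow_mul_geometric_of_norm_lt_one e (r := q) (by
    rw [Real.norm_eq_abs, abs_of_nonneg hq0]; exact hq)
  by_cases hq00 : q = 0
  · subst hq00
    refine summable_of_ne_finset_zero (s := {0}) fun n hn => ?_
    have : n ≠ 0 := by simpa using hn
    simp [this]
  · have h2 := (summable_nat_add_iff 1).2 h
    refine (h2.mul_left q⁻¹).congr fun n => ?_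
    push_cast
    field_simp
    ring

theorem sum_exp_int_e (s : ℝ) (hs : 0 < s) (e : ℕ) :
    Summable fun k : ℤ => Real.exp (-s * |(k : ℝ)|) * (1 + |(k : ℝ)|) ^ e := by
  have h := sum_pow_e (Real.exp (-s)) (Real.exp_pos _).le (by rw [Real.exp_lt_one_iff]; linarith) e
  have h' : Summable fun n : ℕ => Real.exp (-s * |((n : ℤ) : ℝ)|) * (1 + |((n : ℤ) : ℝ)|) ^ e := by
    refine h.congr fun n => ?_
    rw [← Real.exp_nat_mul]
    simp [abs_of_nonneg, mul_comm]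
  refine Summable.of_nat_of_neg h' ?_
  refine h'.congr fun n => ?_
  push_cast
  simp

/-- the majorant with polynomial factors is summable -/
theorem majorant_summable (K R1 R2 s' x y : ℝ) (hR1 : 0 < R1) (hR2 : 0 < R2) (hs' : 0 < s')
    (hx0 : 0 ≤ x) (hx : x < R1) (hy0 : 0 ≤ y) (hy : y < R2) (e : ℕ) :
    Summable fun a : ℕ × ℕ × ℤ × ℤ => K / (R1 ^ a.1 * R2 ^ a.2.1) *
      Real.exp (-s' * (|(a.2.2.1 : ℝ)| + |(a.2.2.2 : ℝ)|)) * x ^ a.1 * y ^ a.2.1 *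
      (1 + a.1 + a.2.1 + |(a.2.2.1 : ℝ)| + |(a.2.2.2 : ℝ)|) ^ e := by
  have q1 : x / R1 < 1 := by rw [div_lt_one hR1]; exact hx
  have q2 : y / R2 < 1 := by rw [div_lt_one hR2]; exact hy
  have s1 := sum_pow_e (x / R1) (by positivity) q1 e
  have s2 := sum_pow_e (y / R2) (by positivity) q2 e
  have s3 := sum_exp_int_e s' hs' e
  have n1 : ∀ n : ℕ, 0 ≤ (x / R1) ^ n * (1 + (n : ℝ)) ^ e := fun n => by positivity
  have n2 : ∀ n : ℕ, 0 ≤ (y / R2) ^ n * (1 + (n : ℝ)) ^ e := fun n => by positivity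
  have n3 : ∀ k : ℤ, 0 ≤ Real.exp (-s' * |(k : ℝ)|) * (1 + |(k : ℝ)|) ^ e := fun k => by positivity
  have p34 := s3.mul_of_nonneg s3 n3 n3
  have p234 := s2.mul_of_nonneg p34 n2 (fun b => mul_nonneg (n3 _) (n3 _))
  have p := s1.mul_of_nonneg p234 n1 (fun b => mul_nonneg (n2 _) (mul_nonneg (n3 _) (n3 _)))
  refine Summable.of_norm_bounded (p.mul_left |K|) ?_
  rintro ⟨a, b, k, l⟩
  simp only
  have hb : (1 + (a : ℝ) + b + |(k : ℝ)| + |(l : ℝ)|) ≤
      (1 + (a : ℝ)) * ((1 + b) * ((1 + |(k : ℝ)|) * (1 + |(l : ℝ)|))) := by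
    have ha0 : (0 : ℝ) ≤ a := Nat.cast_nonneg a
    have hb0 : (0 : ℝ) ≤ b := Nat.cast_nonneg b
    have hk0 := abs_nonneg (k : ℝ)
    have hl0 := abs_nonneg (l : ℝ)
    nlinarith [mul_nonneg ha0 hb0, mul_nonneg hk0 hl0, mul_nonneg ha0 (mul_nonneg hk0 hl0),
      mul_nonneg hb0 (mul_nonneg hk0 hl0), mul_nonneg (mul_nonneg ha0 hb0) (mul_nonneg hk0 hl0),
      mul_nonneg ha0 hk0, mul_nonneg ha0 hl0, mul_nonneg hb0 hk0, mul_nonneg hb0 hl0,
      mul_nonneg (mul_nonneg ha0 hb0) hk0, mul_nonneg (mul_nonneg ha0 hb0) hl0]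
  have hb' := pow_le_pow_left₀ (by positivity) hb e
  rw [Real.norm_eq_abs, abs_mul, abs_mul, abs_mul, abs_mul, abs_div,
    abs_of_nonneg (by positivity : (0 : ℝ) ≤ (1 + a + b + |(k : ℝ)| + |(l : ℝ)|) ^ e),
    abs_of_nonneg (Real.exp_pos _).le, abs_of_nonneg (pow_nonneg hx0 _),
    abs_of_nonneg (pow_nonneg hy0 _),
    abs_of_pos (by positivity : (0 : ℝ) < R1 ^ a * R2 ^ b)]
  have hE : Real.exp (-s' * (|(k : ℝ)| + |(l : ℝ)|)) =
      Real.exp (-s' * |(k : ℝ)|) * Real.exp (-s' * |(l : ℝ)|) := by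
    rw [← Real.exp_add]; congr 1; ring
  rw [hE]
  calc _ ≤ |K| / (R1 ^ a * R2 ^ b) * (Real.exp (-s' * |(k : ℝ)|) * Real.exp (-s' * |(l : ℝ)|)) *
        x ^ a * y ^ b * ((1 + (a : ℝ)) * ((1 + b) * ((1 + |(k : ℝ)|) * (1 + |(l : ℝ)|)))) ^ e :=
        mul_le_mul_of_nonneg_left hb' (by positivity)
    _ = _ := by
        rw [div_pow, div_pow, mul_pow, mul_pow, mul_pow]
        field_simp

theorem norm_exp_I_mul (k l : ℤ) (φ ψ : ℝ) :
    ‖Complex.exp (Complex.I * (k * φ + l * ψ))‖ = 1 := by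
  rw [Complex.norm_exp]
  simp [Complex.mul_re, Complex.add_re, Complex.add_im, Complex.mul_im]

theorem term4_summable (K R1 R2 s' : ℝ) (hR1 : 0 < R1) (hR2 : 0 < R2) (hs' : 0 < s')
    (c : ℕ × ℕ × ℤ × ℤ → ℂ) (hc : CB c K R1 R2 s') (x y φ ψ : ℝ) (hx : |x| < R1) (hy : |y| < R2) :
    Summable (term4 c x y φ ψ) := by
  refine Summable.of_norm_bounded (majorant_summable K R1 R2 s' |x| |y| hR1 hR2 hs' (abs_nonneg _)
    hx (abs_nonneg _) hy 0) ?_
  rintro ⟨n1, n2, k1, k2⟩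
  unfold term4
  simp only [pow_zero, mul_one]
  rw [norm_mul, norm_mul, norm_mul, norm_exp_I_mul, mul_one, norm_pow, norm_pow,
    Complex.norm_real, Complex.norm_real, Real.norm_eq_abs, Real.norm_eq_abs]
  have := hc n1 n2 k1 k2
  gcongr

theorem coef_exists (f : ℂ × ℂ × ℂ × ℂ → ℂ) (r s : ℝ) (hf : AP r s f)
    (p1 p2 R1 R2 s' K : ℝ) (hp10 : 0 ≤ p1) (hp20 : 0 ≤ p2) (hR1 : 0 < R1) (hR2 : 0 < R2)
    (hs' : 0 < s') (hs : s' < s) (h1 : p1 + R1 < r) (h2 : p2 + R2 < r)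
    (hK : ∀ x y φ ψ : ℂ, ‖x‖ ≤ R1 → ‖y‖ ≤ R2 → |φ.im| ≤ s' → |ψ.im| ≤ s' →
      ‖f (p1 + x, p2 + y, φ, ψ)‖ ≤ K) :
    ∃ c : ℕ × ℕ × ℤ × ℤ → ℂ, CB c K R1 R2 s' ∧
      ∀ x y φ ψ : ℝ, |x| < R1 → |y| < R2 →
        HasSum (term4 c x y φ ψ) (f ((p1 + x : ℝ), (p2 + y : ℝ), φ, ψ)) := by
  have key : ∀ n1 n2 : ℕ, ∃ c : ℤ × ℤ → ℂ,
      (∀ k l : ℤ, ‖c (k, l)‖ ≤ K / (R1 ^ n1 * R2 ^ n2) *
        Real.exp (-s' * (|(k : ℝ)| + |(l : ℝ)|))) ∧
      ∀ φ ψ : ℝ, HasSum (fun a : ℤ × ℤ => c a * Complex.exp (Complex.I * (a.1 * φ + a.2 * ψ)))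
        (tc f p1 p2 n1 n2 φ ψ) := by
    intro n1 n2
    obtain ⟨t1, t2, t3⟩ := tc_analytic f r s hf p1 p2 hp10 hp20 (by linarith) (by linarith) n1 n2
    exact fourier_two (fun φ ψ => tc f p1 p2 n1 n2 φ ψ) s s' (K / (R1 ^ n1 * R2 ^ n2)) hs' hs t1 t2
      t3 fun φ ψ hφ hψ => tc_bound f r s hf p1 p2 R1 R2 K hp10 hp20 hR1 hR2 h1 h2 φ ψ
        (hφ.trans_lt hs) (hψ.trans_lt hs) (fun x y hx hy => hK x y φ ψ hx hy hφ hψ) n1 n2
  choose c hc1 hc2 using key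
  refine ⟨fun a => c a.1 a.2.1 a.2.2, fun n1 n2 k1 k2 => hc1 n1 n2 k1 k2, ?_⟩
  intro x y φ ψ hx hy
  set cc : ℕ × ℕ × ℤ × ℤ → ℂ := fun a => c a.1 a.2.1 a.2.2 with hcc
  have hS : Summable (term4 cc x y φ ψ) :=
    term4_summable K R1 R2 s' hR1 hR2 hs' cc (fun n1 n2 k1 k2 => hc1 n1 n2 k1 k2) x y φ ψ hx hy
  let e := Equiv.prodAssoc ℕ ℕ (ℤ × ℤ)
  have hS' : HasSum (term4 cc x y φ ψ ∘ e) (∑' a, term4 cc x y φ ψ a) :=
    (e.hasSum_iff).2 hS.hasSum
  have h3 := hS'.prod_fiberwise (g := fun b : ℕ × ℕ => tc f p1 p2 b.1 b.2 φ ψ * (x : ℂ) ^ b.1 *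
    (y : ℂ) ^ b.2) (fun b => by
      have h4 := ((hc2 b.1 b.2 φ ψ).mul_right ((x : ℂ) ^ b.1)).mul_right ((y : ℂ) ^ b.2)
      have h5 : (fun i : ℤ × ℤ => (term4 cc x y φ ψ ∘ e) (b, i)) = fun i : ℤ × ℤ =>
          c b.1 b.2 i * Complex.exp (Complex.I * (i.1 * φ + i.2 * ψ)) * (x : ℂ) ^ b.1 *
            (y : ℂ) ^ b.2 := by
        funext i
        show c b.1 b.2 i * (x : ℂ) ^ b.1 * (y : ℂ) ^ b.2 *
          Complex.exp (Complex.I * (i.1 * φ + i.2 * ψ)) = _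
        ring
      rw [h5]
      exact h4)
  have i1 : ∀ t : ℝ, |((t : ℝ) : ℂ).im| < s := fun t => by
    rw [Complex.ofReal_im, abs_zero]
    exact hs'.trans hs
  have i2 : ∀ t : ℝ, |((t : ℝ) : ℂ).im| ≤ s' := fun t => by
    rw [Complex.ofReal_im, abs_zero]
    exact hs'.le
  have h6 := tc_hasSum f r s hf p1 p2 R1 R2 K hp10 hp20 hR1 hR2 h1 h2 φ ψ (i1 φ) (i1 ψ)
    (fun x y hx hy => hK x y φ ψ hx hy (i2 φ) (i2 ψ)) x y (by
      rw [Complex.norm_real, Real.norm_eq_abs]; exact hx) (by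
      rw [Complex.norm_real, Real.norm_eq_abs]; exact hy)
  have h7 := h3.unique h6
  have h8 := hS.hasSum
  rw [h7] at h8
  push_cast
  exact h8

theorem coef_real_aux (c : ℕ × ℕ × ℤ × ℤ → ℂ) (x y φ ψ : ℝ) (a : ℕ × ℕ × ℤ × ℤ) :
    term4 (fun a => (c a + (starRingEnd ℂ) (c (a.1, a.2.1, -a.2.2.1, -a.2.2.2))) / 2) x y φ ψ a =
      (term4 c x y φ ψ a + (starRingEnd ℂ) (term4 c x y φ ψ (a.1, a.2.1, -a.2.2.1, -a.2.2.2))) / 2 := by
  obtain ⟨n1, n2, k1, k2⟩ := a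
  show (c (n1, n2, k1, k2) + (starRingEnd ℂ) (c (n1, n2, -k1, -k2))) / 2 * (x : ℂ) ^ n1 *
    (y : ℂ) ^ n2 * Complex.exp (Complex.I * (k1 * φ + k2 * ψ)) =
    (c (n1, n2, k1, k2) * (x : ℂ) ^ n1 * (y : ℂ) ^ n2 *
      Complex.exp (Complex.I * (k1 * φ + k2 * ψ)) +
    (starRingEnd ℂ) (c (n1, n2, -k1, -k2) * (x : ℂ) ^ n1 * (y : ℂ) ^ n2 *
      Complex.exp (Complex.I * (((-k1 : ℤ) : ℂ) * φ + ((-k2 : ℤ) : ℂ) * ψ)))) / 2
  have hE : (starRingEnd ℂ) (Complex.exp (Complex.I * (((-k1 : ℤ) : ℂ) * φ +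
      ((-k2 : ℤ) : ℂ) * ψ))) = Complex.exp (Complex.I * (k1 * φ + k2 * ψ)) := by
    rw [← Complex.exp_conj]
    congr 1
    simp only [map_mul, map_add, Complex.conj_I, Complex.conj_ofReal, map_intCast]
    push_cast
    ring
  rw [map_mul, map_mul, map_mul, hE, map_pow, map_pow, Complex.conj_ofReal, Complex.conj_ofReal]
  ring


theorem coef_real (f : ℂ × ℂ × ℂ × ℂ → ℂ) (r s : ℝ)
    (hre : ∀ x y φ ψ : ℝ, ((x : ℂ), (y : ℂ), (φ : ℂ), (ψ : ℂ)) ∈ Dom r s →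
      (f ((x : ℂ), (y : ℂ), (φ : ℂ), (ψ : ℂ))).im = 0)
    (p1 p2 R1 R2 s' K : ℝ) (hp10 : 0 ≤ p1) (hp20 : 0 ≤ p2) (hR1 : 0 < R1) (hR2 : 0 < R2)
    (hs' : 0 < s') (hs : s' < s) (h1 : p1 + R1 < r) (h2 : p2 + R2 < r)
    (c : ℕ × ℕ × ℤ × ℤ → ℂ) (hc : CB c K R1 R2 s')
    (hsum : ∀ x y φ ψ : ℝ, |x| < R1 → |y| < R2 →
      HasSum (term4 c x y φ ψ) (f ((p1 + x : ℝ), (p2 + y : ℝ), φ, ψ))) :
    ∃ c' : ℕ × ℕ × ℤ × ℤ → ℂ, CB c' K R1 R2 s' ∧
      (∀ n1 n2 k1 k2, c' (n1, n2, -k1, -k2) = (starRingEnd ℂ) (c' (n1, n2, k1, k2))) ∧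
      ∀ x y φ ψ : ℝ, |x| < R1 → |y| < R2 →
        HasSum (term4 c' x y φ ψ) (f ((p1 + x : ℝ), (p2 + y : ℝ), φ, ψ)) := by
  refine ⟨fun a => (c a + (starRingEnd ℂ) (c (a.1, a.2.1, -a.2.2.1, -a.2.2.2))) / 2, ?_, ?_, ?_⟩
  · intro n1 n2 k1 k2
    have e1 := hc n1 n2 k1 k2
    have e2 := hc n1 n2 (-k1) (-k2)
    push_cast at e2
    rw [abs_neg, abs_neg] at e2
    show ‖(c (n1, n2, k1, k2) + (starRingEnd ℂ) (c (n1, n2, -k1, -k2))) / 2‖ ≤ _
    rw [norm_div, RCLike.norm_ofNat, div_le_iff₀ (by norm_num)]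
    refine (norm_add_le _ _).trans ?_
    rw [RCLike.norm_conj]
    linarith
  · intro n1 n2 k1 k2
    show (c (n1, n2, -k1, -k2) + (starRingEnd ℂ) (c (n1, n2, - -k1, - -k2))) / 2 =
      (starRingEnd ℂ) ((c (n1, n2, k1, k2) + (starRingEnd ℂ) (c (n1, n2, -k1, -k2))) / 2)
    rw [neg_neg, neg_neg, map_div₀, map_add, Complex.conj_conj, Complex.conj_ofNat, add_comm]
  · intro x y φ ψ hx hy
    have g1 := hsum x y φ ψ hx hy
    let e : ℕ × ℕ × ℤ × ℤ ≃ ℕ × ℕ × ℤ × ℤ :=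
      (Equiv.refl ℕ).prodCongr ((Equiv.refl ℕ).prodCongr ((Equiv.neg ℤ).prodCongr (Equiv.neg ℤ)))
    have g2 := (e.hasSum_iff).2 (Complex.hasSum_conj'.2 g1)
    have g3 := (g1.add g2).div_const 2
    have hz : (((p1 + x : ℝ) : ℂ), ((p2 + y : ℝ) : ℂ), (φ : ℂ), (ψ : ℂ)) ∈ Dom r s := by
      have a1 := abs_lt.1 hx
      have a2 := abs_lt.1 hy
      refine ⟨?_, ?_, ?_, ?_⟩
      · show ‖((p1 + x : ℝ) : ℂ)‖ < r
        rw [Complex.norm_real, Real.norm_eq_abs, abs_lt]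
        constructor <;> linarith
      · show ‖((p2 + y : ℝ) : ℂ)‖ < r
        rw [Complex.norm_real, Real.norm_eq_abs, abs_lt]
        constructor <;> linarith
      · show |((φ : ℝ) : ℂ).im| < s
        rw [Complex.ofReal_im, abs_zero]
        exact hs'.trans hs
      · show |((ψ : ℝ) : ℂ).im| < s
        rw [Complex.ofReal_im, abs_zero]
        exact hs'.trans hs
    have hv : (starRingEnd ℂ) (f ((p1 + x : ℝ), (p2 + y : ℝ), φ, ψ)) =
        f ((p1 + x : ℝ), (p2 + y : ℝ), φ, ψ) :=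
      Complex.conj_eq_iff_im.2 (hre (p1 + x) (p2 + y) φ ψ hz)
    rw [hv, add_self_div_two] at g3
    have hfun : (fun i => (term4 c x y φ ψ i +
        ((fun x_1 => (starRingEnd ℂ) (term4 c x y φ ψ x_1)) ∘ ⇑e) i) / 2) =
        term4 (fun a => (c a + (starRingEnd ℂ) (c (a.1, a.2.1, -a.2.2.1, -a.2.2.2))) / 2)
          x y φ ψ := by
      funext a
      exact (coef_real_aux c x y φ ψ a).symm
    exact hfun ▸ g3

end KamLattice
end

section

/-!
# Push-forwards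
-/

set_option autoImplicit false

namespace KX

open scoped ENNReal

variable {V : Type} [DecidableEq V]

omit [DecidableEq V] in
theorem tsum_kab_a1 (k : V →₀ ℤ) : ∑' j, (((k j).natAbs : ℕ) : ℝ≥0∞) = (kab k : ℝ≥0∞) := by
  rw [tsum_eq_sum (s := k.support)]
  · unfold kab Finsupp.sum
    push_cast
    rfl
  · intro j hj
    rw [Finsupp.notMem_support_iff.1 hj]
    simp

omit [DecidableEq V] in
theorem tsum_dgr_a1 (n : V →₀ ℕ) : ∑' j, ((n j : ℕ) : ℝ≥0∞) = (dgr n : ℝ≥0∞) := by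
  rw [tsum_eq_sum (s := n.support)]
  · unfold dgr Finsupp.sum
    push_cast
    rfl
  · intro j hj
    rw [Finsupp.notMem_support_iff.1 hj]
    simp

omit [DecidableEq V] in
theorem le_dgr_a1 (n : V →₀ ℕ) (j : V) : n j ≤ dgr n := by
  by_cases hj : j ∈ n.support
  · exact Finset.single_le_sum (f := fun j => n j) (fun _ _ => Nat.zero_le _) hj
  · rw [Finsupp.notMem_support_iff.1 hj]
    exact Nat.zero_le _

omit [DecidableEq V] in
theorem le_kab_a1 (k : V →₀ ℤ) (j : V) : (k j).natAbs ≤ kab k := by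
  by_cases hj : j ∈ k.support
  · exact Finset.single_le_sum (f := fun j => (k j).natAbs) (fun _ _ => Nat.zero_le _) hj
  · rw [Finsupp.notMem_support_iff.1 hj]
    exact Nat.zero_le _

/-- `|kap|` summed over the sites -/
theorem sum_kapm_le (m1 m2 : Mon V) :
    ∑' j, (((kapm j m1 m2).natAbs : ℕ) : ℝ≥0∞) ≤ (NM m1 : ℝ≥0∞) * NM m2 := by
  have h1 : ∀ j, (((kapm j m1 m2).natAbs : ℕ) : ℝ≥0∞) ≤
      (((m1.2 j).natAbs : ℕ) : ℝ≥0∞) * (dgr m2.1 : ℝ≥0∞) +
        ((m1.1 j : ℕ) : ℝ≥0∞) * (kab m2.2 : ℝ≥0∞) := by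
    intro j
    have h2 : (kapm j m1 m2).natAbs ≤ (m1.2 j).natAbs * dgr m2.1 + m1.1 j * kab m2.2 := by
      unfold kapm
      refine (Int.natAbs_sub_le _ _).trans ?_
      rw [Int.natAbs_mul, Int.natAbs_mul, Int.natAbs_natCast, Int.natAbs_natCast]
      exact Nat.add_le_add (Nat.mul_le_mul_left _ (le_dgr_a1 _ _))
        (Nat.mul_le_mul_left _ (le_kab_a1 _ _))
    exact_mod_cast h2
  refine (ENNReal.tsum_le_tsum h1).trans ?_
  rw [ENNReal.tsum_add, ENNReal.tsum_mul_right, ENNReal.tsum_mul_right, tsum_kab_a1, tsum_dgr_a1]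
  have h3 : kab m1.2 * dgr m2.1 + dgr m1.1 * kab m2.2 ≤ NM m1 * NM m2 := by
    unfold NM
    nlinarith [Nat.zero_le (dgr m1.1 * dgr m2.1), Nat.zero_le (kab m1.2 * kab m2.2)]
  exact_mod_cast h3

theorem kapm_ne_a1 {j : V} {m1 m2 : Mon V} (h : kapm j m1 m2 ≠ 0) :
    1 ≤ m1.1 j + m2.1 j ∧ j ∈ spm m1 ∧ j ∈ spm m2 := by
  unfold kapm at h
  have h1 : ¬ (m1.1 j = 0 ∧ m2.1 j = 0) := by
    rintro ⟨h1, h2⟩
    exact h (by simp [h1, h2])
  refine ⟨by omega, ?_, ?_⟩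
  · unfold spm
    rw [Finset.mem_union, Finsupp.mem_support_iff, Finsupp.mem_support_iff]
    by_contra h2
    push Not at h2
    exact h (by simp [h2.1, h2.2])
  · unfold spm
    rw [Finset.mem_union, Finsupp.mem_support_iff, Finsupp.mem_support_iff]
    by_contra h2
    push Not at h2
    exact h (by simp [h2.1, h2.2])

theorem tgt_add_a1 {j : V} {m1 m2 : Mon V} (h : 1 ≤ m1.1 j + m2.1 j) :
    (tgt j m1 m2).1 + Finsupp.single j 1 = m1.1 + m2.1 := by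
  unfold tgt
  ext i
  by_cases hi : i = j
  · subst hi
    simp only [Finsupp.add_apply, Finsupp.tsub_apply, Finsupp.single_eq_same]
    omega
  · simp [Ne.symm hi]

theorem NM_tgt_le_a1 {j : V} {m1 m2 : Mon V} (h : 1 ≤ m1.1 j + m2.1 j) :
    NM (tgt j m1 m2) ≤ NM m1 + NM m2 := by
  have h1 := congrArg dgr (tgt_add_a1 h)
  rw [dgr_add_a1, dgr_add_a1] at h1
  have h2 : kab (tgt j m1 m2).2 ≤ kab m1.2 + kab m2.2 := kab_add_a1 _ _
  unfold NM
  omega

/-- the real weight of the target monomial -/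
theorem wm_tgt_real_a1 (G : Geo V) (rho s : ℝ) (hr : 0 < rho) (hs : 0 ≤ s) (j : V) (m1 m2 : Mon V)
    (h : 1 ≤ m1.1 j + m2.1 j) :
    rho ^ dgr (tgt j m1 m2).1 * amn G.a (tgt j m1 m2).1 * Real.exp (s * NM (tgt j m1 m2)) ≤
      (1 / rho) * (rho ^ dgr m1.1 * amn G.a m1.1 * Real.exp (s * NM m1)) *
        (rho ^ dgr m2.1 * amn G.a m2.1 * Real.exp (s * NM m2)) * (G.a j)⁻¹ := by
  have ht := tgt_add_a1 h
  have h1 := congrArg dgr ht
  have hd1 : dgr (Finsupp.single j 1) = 1 := by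
    unfold dgr
    rw [Finsupp.sum_single_index rfl]
  rw [dgr_add_a1, dgr_add_a1, hd1] at h1
  have h2 := congrArg (amn G.a) ht
  have hd2 : amn G.a (Finsupp.single j 1) = G.a j := by
    unfold amn
    rw [Finsupp.prod_single_index (h := fun j x => G.a j ^ x) (pow_zero _), pow_one]
  rw [amn_add_a1, amn_add_a1, hd2] at h2
  have haj := G.a_pos j
  have h3 : amn G.a (tgt j m1 m2).1 = amn G.a m1.1 * amn G.a m2.1 * (G.a j)⁻¹ := by
    rw [← h2, mul_assoc, mul_inv_cancel₀ haj.ne', mul_one]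
  have h4 : rho ^ dgr (tgt j m1 m2).1 = (1 / rho) * (rho ^ dgr m1.1 * rho ^ dgr m2.1) := by
    rw [← pow_add, ← h1, pow_succ]
    field_simp
  have h5 : Real.exp (s * NM (tgt j m1 m2)) ≤ Real.exp (s * NM m1) * Real.exp (s * NM m2) := by
    rw [← Real.exp_add, ← mul_add]
    refine Real.exp_le_exp.2 (mul_le_mul_of_nonneg_left ?_ hs)
    exact_mod_cast NM_tgt_le_a1 h
  rw [h3, h4]
  have hp1 := amn_pos_a1 G m1.1
  have hp2 := amn_pos_a1 G m2.1
  have hi := inv_pos.2 haj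
  calc (1 / rho) * (rho ^ dgr m1.1 * rho ^ dgr m2.1) *
        (amn G.a m1.1 * amn G.a m2.1 * (G.a j)⁻¹) * Real.exp (s * NM (tgt j m1 m2))
      ≤ (1 / rho) * (rho ^ dgr m1.1 * rho ^ dgr m2.1) *
        (amn G.a m1.1 * amn G.a m2.1 * (G.a j)⁻¹) * (Real.exp (s * NM m1) * Real.exp (s * NM m2)) :=
        mul_le_mul_of_nonneg_left h5 (by positivity)
    _ = _ := by ring

/-- weight of the target monomial, observable with generator -/
theorem wm_tgt_le (G : Geo V) (rho s : ℝ) (hr : 0 < rho) (hs : 0 ≤ s) (j : V) (m1 m2 : Mon V)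
    (h : kapm j m1 m2 ≠ 0) :
    wm G rho s (tgt j m1 m2) ≤ ENNReal.ofReal (1 / rho) * wm G rho s m1 * wg G rho s m2 := by
  obtain ⟨h1, _, h3⟩ := kapm_ne_a1 h
  have hp1 := wm_real_pos_a1 G rho s hr m1
  have hp2 := wm_real_pos_a1 G rho s hr m2
  have hrr : 0 < 1 / rho := by positivity
  unfold wg wm
  rw [← ENNReal.ofReal_mul hrr.le, ← ENNReal.ofReal_mul hp2.le,
    ← ENNReal.ofReal_mul (mul_pos hrr hp1).le]
  refine ENNReal.ofReal_le_ofReal ((wm_tgt_real_a1 G rho s hr hs j m1 m2 h1).trans ?_)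
  have h4 := G.inv_le_ainv h3
  calc _ ≤ (1 / rho) * (rho ^ dgr m1.1 * amn G.a m1.1 * Real.exp (s * NM m1)) *
        (rho ^ dgr m2.1 * amn G.a m2.1 * Real.exp (s * NM m2)) * G.ainv (spm m2) :=
        mul_le_mul_of_nonneg_left h4 (mul_pos (mul_pos hrr hp1) hp2).le
    _ = _ := by ring

theorem spm_tgt_a1 (j : V) (m1 m2 : Mon V) : spm (tgt j m1 m2) ⊆ spm m1 ∪ spm m2 := by
  intro i hi
  unfold spm tgt at *
  simp only [Finset.mem_union, Finsupp.mem_support_iff] at *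
  rcases hi with hi | hi
  · have : m1.1 i ≠ 0 ∨ m2.1 i ≠ 0 := by
      by_contra hc
      push Not at hc
      exact hi (by simp [hc.1, hc.2])
    tauto
  · have : m1.2 i ≠ 0 ∨ m2.2 i ≠ 0 := by
      by_contra hc
      push Not at hc
      exact hi (by simp [hc.1, hc.2])
    tauto

/-- weight of the target monomial, two generators -/
theorem wg_tgt_le (G : Geo V) (rho s : ℝ) (hr : 0 < rho) (hs : 0 ≤ s) (j : V) (m1 m2 : Mon V)
    (h : kapm j m1 m2 ≠ 0) :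
    wg G rho s (tgt j m1 m2) ≤ ENNReal.ofReal (1 / rho) * wg G rho s m1 * wg G rho s m2 := by
  obtain ⟨h1, h2, h3⟩ := kapm_ne_a1 h
  have hp0 := wm_real_pos_a1 G rho s hr (tgt j m1 m2)
  have hp1 := wm_real_pos_a1 G rho s hr m1
  have hp2 := wm_real_pos_a1 G rho s hr m2
  have hrr : 0 < 1 / rho := by positivity
  have ha1 : 0 < G.ainv (spm m1) := lt_of_lt_of_le one_pos (G.one_le_ainv _)
  unfold wg wm
  rw [← ENNReal.ofReal_mul hp2.le, ← ENNReal.ofReal_mul hp1.le, ← ENNReal.ofReal_mul hrr.le,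
    ← ENNReal.ofReal_mul (mul_pos hrr (mul_pos hp1 ha1)).le, ← ENNReal.ofReal_mul hp0.le]
  refine ENNReal.ofReal_le_ofReal ?_
  have hj : (G.a j)⁻¹ * G.ainv (spm (tgt j m1 m2)) ≤ G.ainv (spm m1) * G.ainv (spm m2) :=
    (mul_le_mul_of_nonneg_left (G.ainv_mono (spm_tgt_a1 j m1 m2)) (inv_pos.2 (G.a_pos j)).le).trans
      (G.ainv_union h2 h3)
  have ha0 : 0 ≤ G.ainv (spm (tgt j m1 m2)) := (lt_of_lt_of_le one_pos (G.one_le_ainv _)).le
  calc rho ^ dgr (tgt j m1 m2).1 * amn G.a (tgt j m1 m2).1 * Real.exp (s * NM (tgt j m1 m2)) *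
        G.ainv (spm (tgt j m1 m2))
      ≤ ((1 / rho) * (rho ^ dgr m1.1 * amn G.a m1.1 * Real.exp (s * NM m1)) *
        (rho ^ dgr m2.1 * amn G.a m2.1 * Real.exp (s * NM m2)) * (G.a j)⁻¹) *
          G.ainv (spm (tgt j m1 m2)) :=
        mul_le_mul_of_nonneg_right (wm_tgt_real_a1 G rho s hr hs j m1 m2 h1) ha0
    _ = ((1 / rho) * (rho ^ dgr m1.1 * amn G.a m1.1 * Real.exp (s * NM m1)) *
        (rho ^ dgr m2.1 * amn G.a m2.1 * Real.exp (s * NM m2))) *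
          ((G.a j)⁻¹ * G.ainv (spm (tgt j m1 m2))) := by ring
    _ ≤ ((1 / rho) * (rho ^ dgr m1.1 * amn G.a m1.1 * Real.exp (s * NM m1)) *
        (rho ^ dgr m2.1 * amn G.a m2.1 * Real.exp (s * NM m2))) *
          (G.ainv (spm m1) * G.ainv (spm m2)) :=
        mul_le_mul_of_nonneg_left hj (mul_pos (mul_pos hrr hp1) hp2).le
    _ = _ := by ring

/-- `N ≤ e^{yN} / y` -/
theorem NM_mul_wm_le (G : Geo V) (rho s y : ℝ) (hr : 0 < rho) (hy : 0 < y) (m : Mon V) :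
    (NM m : ℝ≥0∞) * wm G rho s m ≤ ENNReal.ofReal (1 / y) * wm G rho (s + y) m := by
  unfold wm
  rw [← ENNReal.ofReal_natCast, ← ENNReal.ofReal_mul (Nat.cast_nonneg _),
    ← ENNReal.ofReal_mul (by positivity)]
  refine ENNReal.ofReal_le_ofReal ?_
  have h1 : (NM m : ℝ) ≤ (1 / y) * Real.exp (y * NM m) := by
    have h2 := Real.add_one_le_exp (y * NM m)
    rw [one_div, ← div_eq_inv_mul, le_div_iff₀ hy]
    linarith
  have h3 : Real.exp ((s + y) * NM m) = Real.exp (s * NM m) * Real.exp (y * NM m) := by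
    rw [← Real.exp_add, add_mul]
  rw [h3]
  have hp := amn_pos_a1 G m.1
  calc (NM m : ℝ) * (rho ^ dgr m.1 * amn G.a m.1 * Real.exp (s * NM m))
      ≤ ((1 / y) * Real.exp (y * NM m)) * (rho ^ dgr m.1 * amn G.a m.1 * Real.exp (s * NM m)) :=
        mul_le_mul_of_nonneg_right h1 (by positivity)
    _ = _ := by ring

theorem NM_mul_wg_le (G : Geo V) (rho s y : ℝ) (hr : 0 < rho) (hy : 0 < y) (m : Mon V) :
    (NM m : ℝ≥0∞) * wg G rho s m ≤ ENNReal.ofReal (1 / y) * wg G rho (s + y) m := by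
  unfold wg
  rw [← mul_assoc, ← mul_assoc]
  exact mul_le_mul_left (NM_mul_wm_le G rho s y hr hy m) _

end KX
end

section

/-!
# Push-forwards
-/

set_option autoImplicit false

namespace KX

open scoped ENNReal

variable {V : Type} [DecidableEq V]

theorem enorm_term_a1 (j : V) (m1 m2 : Mon V) (x y : ℂ) :
    ‖Complex.I * (kapm j m1 m2 : ℂ) * x * y‖ₑ =
      (((kapm j m1 m2).natAbs : ℕ) : ℝ≥0∞) * (‖x‖ₑ * ‖y‖ₑ) := by
  have h1 : ‖((kapm j m1 m2 : ℤ) : ℂ)‖ₑ = (((kapm j m1 m2).natAbs : ℕ) : ℝ≥0∞) := by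
    rw [← ofReal_norm_eq_enorm, Complex.norm_intCast, ← ENNReal.ofReal_natCast]
    congr 1
    rw [Nat.cast_natAbs, Int.cast_abs]
  have h2 : ‖Complex.I‖ₑ = 1 := by
    rw [← ofReal_norm_eq_enorm, Complex.norm_I, ENNReal.ofReal_one]
  rw [enorm_mul, enorm_mul, enorm_mul, h1, h2, one_mul, mul_assoc]

/-- general form of the two absolute bounds -/
theorem XX_abs_gen_a1 (G : Geo V) (rho s y y' : ℝ) (hr : 0 < rho) (hy : 0 < y) (hy' : 0 < y')
    (w0 w1 w1' : Mon V → ℝ≥0∞)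
    (hw : ∀ (j : V) (m1 m2 : Mon V), kapm j m1 m2 ≠ 0 →
      w0 (tgt j m1 m2) ≤ ENNReal.ofReal (1 / rho) * w1 m1 * wg G rho s m2)
    (hw1 : ∀ m, (NM m : ℝ≥0∞) * w1 m ≤ ENNReal.ofReal (1 / y) * w1' m) (F g : Mon V → ℂ) :
    ∑' x : V × Mon V × Mon V, ‖Complex.I * (kapm x.1 x.2.1 x.2.2 : ℂ) * g x.2.1 * F x.2.2‖ₑ *
      w0 (tgt x.1 x.2.1 x.2.2) ≤
    ENNReal.ofReal (1 / (rho * y * y')) * nr w1' g * nr (wg G rho (s + y')) F := by
  have hc : ENNReal.ofReal (1 / (rho * y * y')) =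
      ENNReal.ofReal (1 / rho) * ENNReal.ofReal (1 / y) * ENNReal.ofReal (1 / y') := by
    rw [← ENNReal.ofReal_mul (by positivity), ← ENNReal.ofReal_mul (by positivity)]
    congr 1
    field_simp
  have h1 : ∀ x : V × Mon V × Mon V,
      ‖Complex.I * (kapm x.1 x.2.1 x.2.2 : ℂ) * g x.2.1 * F x.2.2‖ₑ * w0 (tgt x.1 x.2.1 x.2.2) ≤
      (((kapm x.1 x.2.1 x.2.2).natAbs : ℕ) : ℝ≥0∞) *
        (ENNReal.ofReal (1 / rho) * (‖g x.2.1‖ₑ * w1 x.2.1) * (‖F x.2.2‖ₑ * wg G rho s x.2.2)) := by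
    rintro ⟨j, m1, m2⟩
    simp only
    rw [enorm_term_a1]
    by_cases h : kapm j m1 m2 = 0
    · simp [h]
    · calc _ ≤ (((kapm j m1 m2).natAbs : ℕ) : ℝ≥0∞) * (‖g m1‖ₑ * ‖F m2‖ₑ) *
            (ENNReal.ofReal (1 / rho) * w1 m1 * wg G rho s m2) :=
            mul_le_mul_right (hw j m1 m2 h) _
        _ = _ := by ring
  refine (ENNReal.tsum_le_tsum h1).trans ?_
  rw [ENNReal.tsum_prod', ENNReal.tsum_comm]
  simp only [ENNReal.tsum_mul_right]
  have h2 : ∀ p : Mon V × Mon V,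
      (∑' j, (((kapm j p.1 p.2).natAbs : ℕ) : ℝ≥0∞)) *
        (ENNReal.ofReal (1 / rho) * (‖g p.1‖ₑ * w1 p.1) * (‖F p.2‖ₑ * wg G rho s p.2)) ≤
      (ENNReal.ofReal (1 / rho) * ENNReal.ofReal (1 / y) * ENNReal.ofReal (1 / y')) *
        ((‖g p.1‖ₑ * w1' p.1) * (‖F p.2‖ₑ * wg G rho (s + y') p.2)) := by
    intro p
    calc _ ≤ ((NM p.1 : ℝ≥0∞) * NM p.2) *
          (ENNReal.ofReal (1 / rho) * (‖g p.1‖ₑ * w1 p.1) * (‖F p.2‖ₑ * wg G rho s p.2)) :=
          mul_le_mul_left (sum_kapm_le p.1 p.2) _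
      _ = (ENNReal.ofReal (1 / rho) * ‖g p.1‖ₑ * ‖F p.2‖ₑ) *
          (((NM p.1 : ℝ≥0∞) * w1 p.1) * ((NM p.2 : ℝ≥0∞) * wg G rho s p.2)) := by ring
      _ ≤ (ENNReal.ofReal (1 / rho) * ‖g p.1‖ₑ * ‖F p.2‖ₑ) *
          ((ENNReal.ofReal (1 / y) * w1' p.1) *
            (ENNReal.ofReal (1 / y') * wg G rho (s + y') p.2)) :=
          mul_le_mul_right (mul_le_mul' (hw1 p.1) (NM_mul_wg_le G rho s y' hr hy' p.2)) _
      _ = _ := by ring
  refine (ENNReal.tsum_le_tsum h2).trans ?_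
  rw [ENNReal.tsum_mul_left, hc]
  refine le_of_eq ?_
  rw [mul_assoc (ENNReal.ofReal (1 / rho) * ENNReal.ofReal (1 / y) * ENNReal.ofReal (1 / y'))]
  congr 1
  rw [ENNReal.tsum_prod']
  simp only [ENNReal.tsum_mul_left, ENNReal.tsum_mul_right]
  rfl

/-- the absolute sum defining the bracket (observable) -/
theorem XX_abs_le (G : Geo V) (rho s y y' : ℝ) (hr : 0 < rho) (hs : 0 ≤ s) (hy : 0 < y)
    (hy' : 0 < y') (F g : Mon V → ℂ) :
    ∑' x : V × Mon V × Mon V, ‖Complex.I * (kapm x.1 x.2.1 x.2.2 : ℂ) * g x.2.1 * F x.2.2‖ₑ *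
      wm G rho s (tgt x.1 x.2.1 x.2.2) ≤
    ENNReal.ofReal (1 / (rho * y * y')) * nr (wm G rho (s + y)) g * nr (wg G rho (s + y')) F :=
  XX_abs_gen_a1 G rho s y y' hr hy hy' (wm G rho s) (wm G rho s) (wm G rho (s + y))
    (fun j m1 m2 h => wm_tgt_le G rho s hr hs j m1 m2 h)
    (fun m => NM_mul_wm_le G rho s y hr hy m) F g

/-- the absolute sum defining the bracket (generator) -/
theorem XX_abs_le' (G : Geo V) (rho s y y' : ℝ) (hr : 0 < rho) (hs : 0 ≤ s) (hy : 0 < y)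
    (hy' : 0 < y') (F g : Mon V → ℂ) :
    ∑' x : V × Mon V × Mon V, ‖Complex.I * (kapm x.1 x.2.1 x.2.2 : ℂ) * g x.2.1 * F x.2.2‖ₑ *
      wg G rho s (tgt x.1 x.2.1 x.2.2) ≤
    ENNReal.ofReal (1 / (rho * y * y')) * nr (wg G rho (s + y)) g * nr (wg G rho (s + y')) F :=
  XX_abs_gen_a1 G rho s y y' hr hy hy' (wg G rho s) (wg G rho s) (wg G rho (s + y))
    (fun j m1 m2 h => wg_tgt_le G rho s hr hs j m1 m2 h)
    (fun m => NM_mul_wg_le G rho s y hr hy m) F g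

theorem nr_XX_le (G : Geo V) (rho s y y' : ℝ) (hr : 0 < rho) (hs : 0 ≤ s) (hy : 0 < y)
    (hy' : 0 < y') (F g : Mon V → ℂ) :
    nr (wm G rho s) (XX F g) ≤
      ENNReal.ofReal (1 / (rho * y * y')) * nr (wm G rho (s + y)) g * nr (wg G rho (s + y')) F :=
  (nr_push_le _ _ _).trans (XX_abs_le G rho s y y' hr hs hy hy' F g)

theorem nr_XX_le' (G : Geo V) (rho s y y' : ℝ) (hr : 0 < rho) (hs : 0 ≤ s) (hy : 0 < y)
    (hy' : 0 < y') (F g : Mon V → ℂ) :
    nr (wg G rho s) (XX F g) ≤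
      ENNReal.ofReal (1 / (rho * y * y')) * nr (wg G rho (s + y)) g * nr (wg G rho (s + y')) F :=
  (nr_push_le _ _ _).trans (XX_abs_le' G rho s y y' hr hs hy hy' F g)

theorem nr_mulm_le (G : Geo V) (rho s : ℝ) (hr : 0 < rho) (hs : 0 ≤ s) (g h : Mon V → ℂ) :
    nr (wm G rho s) (mulm g h) ≤ nr (wm G rho s) g * nr (wm G rho s) h := by
  refine (nr_push_le _ _ _).trans ?_
  have h1 : ∀ x : Mon V × Mon V, ‖g x.1 * h x.2‖ₑ * wm G rho s (x.1 + x.2) ≤
      (‖g x.1‖ₑ * wm G rho s x.1) * (‖h x.2‖ₑ * wm G rho s x.2) := by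
    intro x
    rw [enorm_mul]
    calc _ ≤ ‖g x.1‖ₑ * ‖h x.2‖ₑ * (wm G rho s x.1 * wm G rho s x.2) :=
          mul_le_mul_right (wm_add_le G rho s hr hs x.1 x.2) _
      _ = _ := by ring
  refine (ENNReal.tsum_le_tsum h1).trans (le_of_eq ?_)
  rw [ENNReal.tsum_prod']
  simp only [ENNReal.tsum_mul_left, ENNReal.tsum_mul_right]
  rfl

end KX
end

section

/-!
# Algebraic identities for formal series

All identities are equalities of push-forwards over a common index set (`push_push`, `push_congr`,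
`push_add`, `push_equiv`).
-/

set_option autoImplicit false

namespace KX

open scoped ENNReal

variable {V : Type} [DecidableEq V]

/-! ### Sums with one fixed monomial -/

/-- absolute sum of the bracket of a fixed observable monomial with a generator -/
private theorem tsum_obs_le (G : Geo V) (rho s y y' : ℝ) (hr : 0 < rho) (hs : 0 ≤ s) (hy : 0 < y)
    (hy' : 0 < y') (F : Mon V → ℂ) (m : Mon V) :
    ∑' x : V × Mon V, ‖Complex.I * (kapm x.1 m x.2 : ℂ) * F x.2‖ₑ * wm G rho s (tgt x.1 m x.2) ≤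
      ENNReal.ofReal (1 / (rho * y * y')) * wm G rho (s + y) m * nr (wg G rho (s + y')) F := by
  have h1 := XX_abs_le G rho s y y' hr hs hy hy' F (em m)
  rw [nr_em] at h1
  refine le_trans ?_ h1
  have hinj : Function.Injective (fun x : V × Mon V => ((x.1, m, x.2) : V × Mon V × Mon V)) := by
    intro x x' h
    simp only [Prod.mk.injEq, true_and] at h
    exact Prod.ext h.1 h.2
  refine le_trans (le_of_eq ?_) (ENNReal.tsum_comp_le_tsum_of_injective hinj _)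
  refine tsum_congr fun x => ?_
  simp [em]

/-- absolute sum of the bracket of an observable with a fixed generator monomial -/
private theorem tsum_gen_le (G : Geo V) (rho s y y' : ℝ) (hr : 0 < rho) (hs : 0 ≤ s) (hy : 0 < y)
    (hy' : 0 < y') (g : Mon V → ℂ) (m : Mon V) :
    ∑' x : V × Mon V, ‖Complex.I * (kapm x.1 x.2 m : ℂ) * g x.2‖ₑ * wm G rho s (tgt x.1 x.2 m) ≤
      ENNReal.ofReal (1 / (rho * y * y')) * nr (wm G rho (s + y)) g * wg G rho (s + y') m := by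
  have h1 := XX_abs_le G rho s y y' hr hs hy hy' (em m) g
  rw [nr_em] at h1
  refine le_trans ?_ h1
  have hinj : Function.Injective (fun x : V × Mon V => ((x.1, x.2, m) : V × Mon V × Mon V)) := by
    intro x x' h
    simp only [Prod.mk.injEq, and_true] at h
    exact Prod.ext h.1 h.2
  refine le_trans (le_of_eq ?_) (ENNReal.tsum_comp_le_tsum_of_injective hinj _)
  refine tsum_congr fun x => ?_
  simp [em]

/-! ### The bracket at two sites -/

/-- the common target -/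
private noncomputable def tc (x : V × V × Mon V × Mon V × Mon V) : Mon V :=
  (x.2.2.1.1 + x.2.2.2.1.1 + x.2.2.2.2.1 - Finsupp.single x.2.1 1 - Finsupp.single x.1 1,
    x.2.2.1.2 + x.2.2.2.1.2 + x.2.2.2.2.2)

private theorem single_le_of_kapm {j : V} {a b : Mon V} (h : kapm j a b ≠ 0) :
    Finsupp.single j 1 ≤ a.1 + b.1 := by
  rw [Finsupp.single_le_iff]
  rw [Finsupp.add_apply]
  by_contra hcon
  apply h
  have h1 : a.1 j = 0 := by omega
  have h2 : b.1 j = 0 := by omega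
  simp [kapm, h1, h2]

private theorem kapm_tgt_left {i j : V} {a b : Mon V} (c : Mon V) (h : kapm j a b ≠ 0) :
    kapm i (tgt j a b) c = kapm i a c + kapm i b c + if i = j then c.2 i else 0 := by
  have h1 := Finsupp.single_le_iff.mp (single_le_of_kapm h)
  unfold kapm tgt
  by_cases hij : i = j
  · subst hij
    simp only [Finsupp.add_apply, Finsupp.tsub_apply, Finsupp.single_eq_same, if_true] at h1 ⊢
    rw [Nat.cast_sub h1]
    push_cast
    ring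
  · simp only [Finsupp.add_apply, Finsupp.tsub_apply, if_neg hij]
    rw [Finsupp.single_eq_of_ne hij, tsub_zero]
    push_cast
    ring

private theorem kapm_tgt_right {i j : V} {a b : Mon V} (c : Mon V) (h : kapm j a b ≠ 0) :
    kapm i c (tgt j a b) = kapm i c a + kapm i c b - if i = j then c.2 i else 0 := by
  have h1 := Finsupp.single_le_iff.mp (single_le_of_kapm h)
  unfold kapm tgt
  by_cases hij : i = j
  · subst hij
    simp only [Finsupp.add_apply, Finsupp.tsub_apply, Finsupp.single_eq_same, if_true] at h1 ⊢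
    rw [Nat.cast_sub h1]
    push_cast
    ring
  · simp only [Finsupp.add_apply, Finsupp.tsub_apply, if_neg hij]
    rw [Finsupp.single_eq_of_ne hij, tsub_zero]
    push_cast
    ring

/-- coefficient of an iterated bracket, `{{g, K}, F}` -/
private noncomputable def cl (g K F : Mon V → ℂ) (x : V × V × Mon V × Mon V × Mon V) : ℂ :=
  Complex.I * Complex.I * (kapm x.2.1 x.2.2.1 x.2.2.2.1 : ℂ) *
    ((kapm x.1 x.2.2.1 x.2.2.2.2 + kapm x.1 x.2.2.2.1 x.2.2.2.2 +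
      (if x.1 = x.2.1 then x.2.2.2.2.2 x.1 else 0) : ℤ) : ℂ) *
    g x.2.2.1 * K x.2.2.2.1 * F x.2.2.2.2

/-- coefficient of an iterated bracket, `{g, {K, F}}` -/
private noncomputable def cr (g K F : Mon V → ℂ) (x : V × V × Mon V × Mon V × Mon V) : ℂ :=
  Complex.I * Complex.I * (kapm x.2.1 x.2.2.2.1 x.2.2.2.2 : ℂ) *
    ((kapm x.1 x.2.2.1 x.2.2.2.1 + kapm x.1 x.2.2.1 x.2.2.2.2 -
      (if x.1 = x.2.1 then x.2.2.1.2 x.1 else 0) : ℤ) : ℂ) *
    g x.2.2.1 * K x.2.2.2.1 * F x.2.2.2.2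

/-- the index set of `{{g, K}, F}` -/
private def eql : ((V × Mon V) × (V × Mon V × Mon V)) ≃ V × V × Mon V × Mon V × Mon V where
  toFun x := (x.1.1, x.2.1, x.2.2.1, x.2.2.2, x.1.2)
  invFun x := ((x.1, x.2.2.2.2), (x.2.1, x.2.2.1, x.2.2.2.1))
  left_inv _ := rfl
  right_inv _ := rfl

/-- the index set of `{g, {K, F}}` -/
private def eqr : ((V × Mon V) × (V × Mon V × Mon V)) ≃ V × V × Mon V × Mon V × Mon V where
  toFun x := (x.1.1, x.2.1, x.1.2, x.2.2.1, x.2.2.2)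
  invFun x := ((x.1, x.2.2.1), (x.2.1, x.2.2.2.1, x.2.2.2.2))
  left_inv _ := rfl
  right_inv _ := rfl

/-- reindexing for the composition of two brackets -/
private def eqa : ((V × Mon V) × Mon V) ≃ V × Mon V × Mon V where
  toFun x := (x.1.1, x.2, x.1.2)
  invFun x := ((x.1, x.2.2), x.2.1)
  left_inv _ := rfl
  right_inv _ := rfl

/-- reindexing for the composition of two brackets -/
private def eqb : ((V × Mon V) × Mon V) ≃ V × Mon V × Mon V where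
  toFun x := (x.1.1, x.1.2, x.2)
  invFun x := ((x.1, x.2.1), x.2.2)
  left_inv _ := rfl
  right_inv _ := rfl

private theorem rep_left (G : Geo V) (rho s : ℝ) (hr : 0 < rho) (hs : 0 < s) (F K g : Mon V → ℂ)
    (hF : nr (wg G rho s) F ≠ ∞) (hK : nr (wg G rho s) K ≠ ∞) (hg : nr (wm G rho s) g ≠ ∞) :
    XX F (XX K g) = push tc (cl g K F) ∧ ∑' x, ‖cl g K F x‖ₑ * wm G rho 0 (tc x) ≠ ∞ := by
  have hs2 : 0 < s / 2 := by linarith
  set T' : (V × Mon V) × Mon V → Mon V := fun x => tgt x.1.1 x.2 x.1.2 with hT'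
  set c : (V × Mon V) × Mon V → ℂ := fun x =>
    Complex.I * (kapm x.1.1 x.2 x.1.2 : ℂ) * F x.1.2 with hc
  set T : V × Mon V × Mon V → Mon V := fun y => tgt y.1 y.2.1 y.2.2 with hT
  set u : V × Mon V × Mon V → ℂ := fun y =>
    Complex.I * (kapm y.1 y.2.1 y.2.2 : ℂ) * g y.2.1 * K y.2.2 with hu
  have e1 : XX F (XX K g) = push T' (fun x => c x * push T u x.2) := by
    change push _ _ = _
    rw [← push_equiv eqa]
    congr 1
    funext x
    simp only [Function.comp_apply, eqa, Equiv.coe_fn_mk, hc]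
    change _ = Complex.I * _ * F x.1.2 * XX K g x.2
    ring
  have hfin : ∑' x : (V × Mon V) × (V × Mon V × Mon V),
      ‖c (x.1, T x.2)‖ₑ * ‖u x.2‖ₑ * wm G rho 0 (T' (x.1, T x.2)) ≠ ∞ := by
    have h1 : ∑' x : (V × Mon V) × (V × Mon V × Mon V),
        ‖c (x.1, T x.2)‖ₑ * ‖u x.2‖ₑ * wm G rho 0 (T' (x.1, T x.2)) =
        ∑' y : V × Mon V × Mon V, ‖u y‖ₑ *
          ∑' a : V × Mon V, ‖c (a, T y)‖ₑ * wm G rho 0 (T' (a, T y)) := by
      rw [ENNReal.tsum_prod', ENNReal.tsum_comm]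
      refine tsum_congr fun y => ?_
      rw [← ENNReal.tsum_mul_left]
      refine tsum_congr fun a => ?_
      ring
    rw [h1]
    have h2 : ∀ y : V × Mon V × Mon V,
        ∑' a : V × Mon V, ‖c (a, T y)‖ₑ * wm G rho 0 (T' (a, T y)) ≤
          ENNReal.ofReal (1 / (rho * (s / 2) * (s / 2))) * wm G rho (s / 2) (T y) *
            nr (wg G rho (s / 2)) F := by
      intro y
      have := tsum_obs_le G rho 0 (s / 2) (s / 2) hr le_rfl hs2 hs2 F (T y)
      rwa [zero_add] at this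
    have h3 : ∑' y : V × Mon V × Mon V, ‖u y‖ₑ * wm G rho (s / 2) (T y) ≤
        ENNReal.ofReal (1 / (rho * (s / 2) * (s / 2))) * nr (wm G rho s) g *
          nr (wg G rho s) K := by
      have := XX_abs_le G rho (s / 2) (s / 2) (s / 2) hr hs2.le hs2 hs2 K g
      rwa [add_halves] at this
    have h4 : nr (wg G rho (s / 2)) F ≤ nr (wg G rho s) F :=
      nr_mono (fun m => wg_mono G rho hr (by linarith) m) F
    refine ne_of_lt (lt_of_le_of_lt (ENNReal.tsum_le_tsum fun y => mul_le_mul_right (h2 y) _) ?_)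
    have h5 : ∀ y : V × Mon V × Mon V, ‖u y‖ₑ *
        (ENNReal.ofReal (1 / (rho * (s / 2) * (s / 2))) * wm G rho (s / 2) (T y) *
            nr (wg G rho (s / 2)) F) =
        (ENNReal.ofReal (1 / (rho * (s / 2) * (s / 2))) * nr (wg G rho (s / 2)) F) *
          (‖u y‖ₑ * wm G rho (s / 2) (T y)) := fun y => by ring
    simp only [h5]
    rw [ENNReal.tsum_mul_left]
    refine ENNReal.mul_lt_top (ENNReal.mul_lt_top ENNReal.ofReal_lt_top
      (h4.trans_lt (lt_top_iff_ne_top.mpr hF))) (h3.trans_lt ?_)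
    exact ENNReal.mul_lt_top (ENNReal.mul_lt_top ENNReal.ofReal_lt_top
      (lt_top_iff_ne_top.mpr hg)) (lt_top_iff_ne_top.mpr hK)
  have e2 := push_push (wm G rho 0) (wm_ne_zero G rho 0 hr) T u T' c hfin
  have e3 : (fun x : (V × Mon V) × (V × Mon V × Mon V) => c (x.1, T x.2) * u x.2) =
      cl g K F ∘ eql := by
    funext x
    simp only [Function.comp_apply, eql, Equiv.coe_fn_mk, cl, hc, hu, hT]
    by_cases hk : kapm x.2.1 x.2.2.1 x.2.2.2 = 0
    · simp [hk]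
    · rw [kapm_tgt_left _ hk]
      ring
  have e4 : ∀ x : (V × Mon V) × (V × Mon V × Mon V), (cl g K F ∘ eql) x ≠ 0 →
      T' (x.1, T x.2) = (tc ∘ eql) x := by
    intro x hx
    have hk : kapm x.2.1 x.2.2.1 x.2.2.2 ≠ 0 := by
      intro h0
      apply hx
      simp only [Function.comp_apply, eql, Equiv.coe_fn_mk, cl]
      rw [h0]
      simp
    have h1 := single_le_of_kapm hk
    simp only [hT', hT, tgt, tc, Function.comp_apply, eql, Equiv.coe_fn_mk]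
    rw [tsub_add_eq_add_tsub h1]
  constructor
  · rw [e1, e2, e3, ← push_equiv eql]
    exact push_congr _ _ _ e4
  · rw [← eql.tsum_eq]
    have h6 : ∑' x : (V × Mon V) × (V × Mon V × Mon V),
        ‖cl g K F (eql x)‖ₑ * wm G rho 0 (tc (eql x)) =
        ∑' x : (V × Mon V) × (V × Mon V × Mon V),
          ‖c (x.1, T x.2)‖ₑ * ‖u x.2‖ₑ * wm G rho 0 (T' (x.1, T x.2)) := by
      refine tsum_congr fun x => ?_
      have h7 : ‖c (x.1, T x.2)‖ₑ * ‖u x.2‖ₑ = ‖cl g K F (eql x)‖ₑ := by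
        rw [← enorm_mul]
        exact congrArg _ (congrFun e3 x)
      rw [h7]
      by_cases h0 : cl g K F (eql x) = 0
      · simp [h0]
      · rw [e4 x h0]
        rfl
    rw [h6]
    exact hfin

private theorem rep_right (G : Geo V) (rho s : ℝ) (hr : 0 < rho) (hs : 0 < s) (F K g : Mon V → ℂ)
    (hF : nr (wg G rho s) F ≠ ∞) (hK : nr (wg G rho s) K ≠ ∞) (hg : nr (wm G rho s) g ≠ ∞) :
    XX (XX F K) g = push tc (cr g K F) ∧ ∑' x, ‖cr g K F x‖ₑ * wm G rho 0 (tc x) ≠ ∞ := by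
  have hs2 : 0 < s / 2 := by linarith
  set T' : (V × Mon V) × Mon V → Mon V := fun x => tgt x.1.1 x.1.2 x.2 with hT'
  set c : (V × Mon V) × Mon V → ℂ := fun x =>
    Complex.I * (kapm x.1.1 x.1.2 x.2 : ℂ) * g x.1.2 with hc
  set T : V × Mon V × Mon V → Mon V := fun y => tgt y.1 y.2.1 y.2.2 with hT
  set u : V × Mon V × Mon V → ℂ := fun y =>
    Complex.I * (kapm y.1 y.2.1 y.2.2 : ℂ) * K y.2.1 * F y.2.2 with hu
  have e1 : XX (XX F K) g = push T' (fun x => c x * push T u x.2) := by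
    change push _ _ = _
    rw [← push_equiv eqb]
    congr 1
  have hfin : ∑' x : (V × Mon V) × (V × Mon V × Mon V),
      ‖c (x.1, T x.2)‖ₑ * ‖u x.2‖ₑ * wm G rho 0 (T' (x.1, T x.2)) ≠ ∞ := by
    have h1 : ∑' x : (V × Mon V) × (V × Mon V × Mon V),
        ‖c (x.1, T x.2)‖ₑ * ‖u x.2‖ₑ * wm G rho 0 (T' (x.1, T x.2)) =
        ∑' y : V × Mon V × Mon V, ‖u y‖ₑ *
          ∑' a : V × Mon V, ‖c (a, T y)‖ₑ * wm G rho 0 (T' (a, T y)) := by
      rw [ENNReal.tsum_prod', ENNReal.tsum_comm]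
      refine tsum_congr fun y => ?_
      rw [← ENNReal.tsum_mul_left]
      refine tsum_congr fun a => ?_
      ring
    rw [h1]
    have h2 : ∀ y : V × Mon V × Mon V,
        ∑' a : V × Mon V, ‖c (a, T y)‖ₑ * wm G rho 0 (T' (a, T y)) ≤
          ENNReal.ofReal (1 / (rho * (s / 2) * (s / 2))) * nr (wm G rho (s / 2)) g *
            wg G rho (s / 2) (T y) := by
      intro y
      have := tsum_gen_le G rho 0 (s / 2) (s / 2) hr le_rfl hs2 hs2 g (T y)
      rwa [zero_add] at this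
    have h3 : ∑' y : V × Mon V × Mon V, ‖u y‖ₑ * wg G rho (s / 2) (T y) ≤
        ENNReal.ofReal (1 / (rho * (s / 2) * (s / 2))) * nr (wg G rho s) K *
          nr (wg G rho s) F := by
      have := XX_abs_le' G rho (s / 2) (s / 2) (s / 2) hr hs2.le hs2 hs2 F K
      rwa [add_halves] at this
    have h4 : nr (wm G rho (s / 2)) g ≤ nr (wm G rho s) g :=
      nr_mono (fun m => wm_mono G rho hr (by linarith) m) g
    refine ne_of_lt (lt_of_le_of_lt (ENNReal.tsum_le_tsum fun y => mul_le_mul_right (h2 y) _) ?_)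
    have h5 : ∀ y : V × Mon V × Mon V, ‖u y‖ₑ *
        (ENNReal.ofReal (1 / (rho * (s / 2) * (s / 2))) * nr (wm G rho (s / 2)) g *
            wg G rho (s / 2) (T y)) =
        (ENNReal.ofReal (1 / (rho * (s / 2) * (s / 2))) * nr (wm G rho (s / 2)) g) *
          (‖u y‖ₑ * wg G rho (s / 2) (T y)) := fun y => by ring
    simp only [h5]
    rw [ENNReal.tsum_mul_left]
    refine ENNReal.mul_lt_top (ENNReal.mul_lt_top ENNReal.ofReal_lt_top
      (h4.trans_lt (lt_top_iff_ne_top.mpr hg))) (h3.trans_lt ?_)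
    exact ENNReal.mul_lt_top (ENNReal.mul_lt_top ENNReal.ofReal_lt_top
      (lt_top_iff_ne_top.mpr hK)) (lt_top_iff_ne_top.mpr hF)
  have e2 := push_push (wm G rho 0) (wm_ne_zero G rho 0 hr) T u T' c hfin
  have e3 : (fun x : (V × Mon V) × (V × Mon V × Mon V) => c (x.1, T x.2) * u x.2) =
      cr g K F ∘ eqr := by
    funext x
    simp only [Function.comp_apply, eqr, Equiv.coe_fn_mk, cr, hc, hu, hT]
    by_cases hk : kapm x.2.1 x.2.2.1 x.2.2.2 = 0
    · simp [hk]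
    · rw [kapm_tgt_right _ hk]
      ring
  have e4 : ∀ x : (V × Mon V) × (V × Mon V × Mon V), (cr g K F ∘ eqr) x ≠ 0 →
      T' (x.1, T x.2) = (tc ∘ eqr) x := by
    intro x hx
    have hk : kapm x.2.1 x.2.2.1 x.2.2.2 ≠ 0 := by
      intro h0
      apply hx
      simp only [Function.comp_apply, eqr, Equiv.coe_fn_mk, cr]
      rw [h0]
      simp
    have h1 := single_le_of_kapm hk
    simp only [hT', hT, tgt, tc, Function.comp_apply, eqr, Equiv.coe_fn_mk]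
    rw [← add_tsub_assoc_of_le h1, add_assoc, add_assoc]
  constructor
  · rw [e1, e2, e3, ← push_equiv eqr]
    exact push_congr _ _ _ e4
  · rw [← eqr.tsum_eq]
    have h6 : ∑' x : (V × Mon V) × (V × Mon V × Mon V),
        ‖cr g K F (eqr x)‖ₑ * wm G rho 0 (tc (eqr x)) =
        ∑' x : (V × Mon V) × (V × Mon V × Mon V),
          ‖c (x.1, T x.2)‖ₑ * ‖u x.2‖ₑ * wm G rho 0 (T' (x.1, T x.2)) := by
      refine tsum_congr fun x => ?_
      have h7 : ‖c (x.1, T x.2)‖ₑ * ‖u x.2‖ₑ = ‖cr g K F (eqr x)‖ₑ := by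
        rw [← enorm_mul]
        exact congrArg _ (congrFun e3 x)
      rw [h7]
      by_cases h0 : cr g K F (eqr x) = 0
      · simp [h0]
      · rw [e4 x h0]
        rfl
    rw [h6]
    exact hfin

/-! ### Exchanging sites and monomials -/

/-- exchange of the two sites -/
private def eqs : (V × V × Mon V × Mon V × Mon V) ≃ V × V × Mon V × Mon V × Mon V where
  toFun x := (x.2.1, x.1, x.2.2)
  invFun x := (x.2.1, x.1, x.2.2)
  left_inv _ := rfl
  right_inv _ := rfl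

/-- exchange of the last two monomials -/
private def eqt : (V × V × Mon V × Mon V × Mon V) ≃ V × V × Mon V × Mon V × Mon V where
  toFun x := (x.1, x.2.1, x.2.2.1, x.2.2.2.2, x.2.2.2.1)
  invFun x := (x.1, x.2.1, x.2.2.1, x.2.2.2.2, x.2.2.2.1)
  left_inv _ := rfl
  right_inv _ := rfl

private theorem tc_eqs : (tc ∘ eqs : V × V × Mon V × Mon V × Mon V → Mon V) = tc := by
  funext x
  simp only [Function.comp_apply, eqs, Equiv.coe_fn_mk, tc]
  rw [tsub_right_comm]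

private theorem tc_eqt : (tc ∘ eqt : V × V × Mon V × Mon V × Mon V → Mon V) = tc := by
  funext x
  simp only [Function.comp_apply, eqt, Equiv.coe_fn_mk, tc]
  rw [add_right_comm x.2.2.1.1, add_right_comm x.2.2.1.2]

/-- a formal series represented over the common index set -/
private def Rp (G : Geo V) (rho : ℝ) (p : Mon V → ℂ) (C : V × V × Mon V × Mon V × Mon V → ℂ) :
    Prop :=
  p = push tc C ∧ ∑' x, ‖C x‖ₑ * wm G rho 0 (tc x) ≠ ∞

private theorem Rp.equiv {G : Geo V} {rho : ℝ} {p : Mon V → ℂ}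
    {C : V × V × Mon V × Mon V × Mon V → ℂ} (h : Rp G rho p C)
    (e : (V × V × Mon V × Mon V × Mon V) ≃ V × V × Mon V × Mon V × Mon V)
    (he : (tc ∘ e : V × V × Mon V × Mon V × Mon V → Mon V) = tc) : Rp G rho p (C ∘ e) := by
  refine ⟨?_, ?_⟩
  · rw [h.1, ← push_equiv e, he]
  · have h1 := h.2
    rw [← e.tsum_eq] at h1
    refine fun h2 => h1 (Eq.trans (tsum_congr fun x => ?_) h2)
    have h3 := congrFun he x
    rw [Function.comp_apply] at h3
    rw [h3]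
    rfl

private theorem Rp.add {G : Geo V} {rho : ℝ} (hr : 0 < rho) {p p' : Mon V → ℂ}
    {C C' : V × V × Mon V × Mon V × Mon V → ℂ} (h : Rp G rho p C) (h' : Rp G rho p' C') :
    Rp G rho (fun m => p m + p' m) (fun x => C x + C' x) := by
  refine ⟨?_, ?_⟩
  · rw [push_add (wm G rho 0) (wm_ne_zero G rho 0 hr) _ _ _ h.2 h'.2, h.1, h'.1]
  · refine ne_of_lt (lt_of_le_of_lt (ENNReal.tsum_le_tsum fun x =>
      mul_le_mul_left (enorm_add_le (C x) (C' x)) _) ?_)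
    simp only [add_mul]
    rw [ENNReal.tsum_add]
    exact ENNReal.add_lt_top.mpr ⟨lt_top_iff_ne_top.mpr h.2, lt_top_iff_ne_top.mpr h'.2⟩

private theorem Rp.smul {G : Geo V} {rho : ℝ} {p : Mon V → ℂ}
    {C : V × V × Mon V × Mon V × Mon V → ℂ} (h : Rp G rho p C) (z : ℂ) :
    Rp G rho (fun m => z * p m) (fun x => z * C x) := by
  refine ⟨?_, ?_⟩
  · rw [push_smul, h.1]
  · have h1 : ∀ x, ‖z * C x‖ₑ * wm G rho 0 (tc x) = ‖z‖ₑ * (‖C x‖ₑ * wm G rho 0 (tc x)) := by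
      intro x
      rw [enorm_mul, mul_assoc]
    simp only [h1]
    rw [ENNReal.tsum_mul_left]
    exact (ENNReal.mul_lt_top enorm_lt_top (lt_top_iff_ne_top.mpr h.2)).ne

/-- Jacobi identity. Over the index set `(i, j, m1, m2, m3)` (with `m1 ↦ g`, `m2 ↦ K`, `m3 ↦ F`) and
the common target `m1 + m2 + m3 - e_i - e_j`, the coefficients of the three terms are (up to
`I * I * g m1 * K m2 * F m3`)
`κ_j(1,2) (κ_i(1,3) + κ_i(2,3) + δ_ij k3_i)`,
`κ_i(1,3) (κ_j(1,2) + κ_j(3,2) + δ_ij k2_j)`,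
`κ_i(2,3) (κ_j(1,2) + κ_j(1,3) - δ_ij k1_j)`,
and the difference of the first two equals the third after exchanging `i` and `j` in
`κ_i(1,3) κ_j(3,2)`. Here `κ_i(a,b) = ka_i nb_i - na_i kb_i`. -/
theorem XX_jacobi (G : Geo V) (rho s : ℝ) (hr : 0 < rho) (hs : 0 < s) (F K g : Mon V → ℂ)
    (hF : nr (wg G rho s) F ≠ ∞) (hK : nr (wg G rho s) K ≠ ∞) (hg : nr (wm G rho s) g ≠ ∞) :
    (fun m => XX F (XX K g) m - XX K (XX F g) m) = XX (XX F K) g := by
  have h1 : Rp G rho (XX F (XX K g)) (cl g K F) := rep_left G rho s hr hs F K g hF hK hg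
  have h2 : Rp G rho (XX K (XX F g)) (cl g F K ∘ eqt) :=
    Rp.equiv (rep_left G rho s hr hs K F g hK hF hg) eqt tc_eqt
  have h3 : Rp G rho (XX (XX F K) g) (cr g K F) := rep_right G rho s hr hs F K g hF hK hg
  have h1' := h1.equiv eqs tc_eqs
  have h2' := h2.equiv eqs tc_eqs
  have h3' := h3.equiv eqs tc_eqs
  have h4 := ((h1.add hr h1').add hr ((h2.add hr h2').smul (-1))).add hr
    ((h3.add hr h3').smul (-1))
  have h5 : (fun x => cl g K F x + (cl g K F ∘ eqs) x +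
      -1 * ((cl g F K ∘ eqt) x + ((cl g F K ∘ eqt) ∘ eqs) x) +
      -1 * (cr g K F x + (cr g K F ∘ eqs) x)) =
      fun x : V × V × Mon V × Mon V × Mon V => (0 : ℂ) * 0 := by
    funext x
    obtain ⟨i, j, m1, m2, m3⟩ := x
    simp only [Function.comp_apply, eqs, eqt, Equiv.coe_fn_mk, cl, cr, kapm]
    by_cases hij : i = j
    · subst hij
      simp only [if_true]
      push_cast
      ring
    · simp only [if_neg hij, if_neg (Ne.symm hij)]
      push_cast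
      ring
  have h6 := h4.1
  rw [h5, push_smul] at h6
  funext m
  have h7 := congrFun h6 m
  simp only [zero_mul] at h7
  linear_combination h7 / 2

end KX
end
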