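import Pool.Agent.Lib.MP_73c19a_an.Mg.G001
import Pool.Agent.Lib.MP_73c19a_an.Dioa
import Pool.Agent.Lib.MP_73c19a_an.Mg.G007
import Pool.Agent.Lib.MP_73c19a_an.Mg.G008

section

/-!
# From trees to monomials
-/

set_option autoImplicit false
set_option linter.unusedSectionVars false

namespace KX

open scoped ENNReal

variable {V : Type} [DecidableEq V]

/-- monomial of a tree -/
noncomputable def mon (h : Tr V) : Mon V := (Tr.n h, Tr.k h)

/-- formal series of a family on trees -/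
noncomputable def pt (u : Tr V → ℂ) : Mon V → ℂ := push mon u

theorem dotm_eq (k : V →₀ ℤ) (w : V → ℝ) : dotm k w = dot k w := rfl

/-- plain weight of a tree for the finiteness of all sums -/
noncomputable def wT (G : Geo V) (rho s : ℝ) (h : Tr V) : ℝ≥0∞ :=
  ENNReal.ofReal (rho ^ Tr.deg h * amn G.a (Tr.n h) * Real.exp (s * Tr.N h) * G.ainv (Tr.A h))

theorem amn_pos_TMa (G : Geo V) (n : V →₀ ℕ) : 0 < amn G.a n := by
  unfold amn Finsupp.prod
  exact Finset.prod_pos fun i _ => pow_pos (G.a_pos i) _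

theorem amn_add_TMa (G : Geo V) (n n' : V →₀ ℕ) : amn G.a (n + n') = amn G.a n * amn G.a n' := by
  unfold amn
  exact Finsupp.prod_add_index' (fun _ => pow_zero _) (fun _ _ _ => pow_add _ _ _)

theorem amn_single_TMa (G : Geo V) (j : V) : amn G.a (Finsupp.single j 1) = G.a j := by
  unfold amn
  exact (Finsupp.prod_single_index (h := fun j x => G.a j ^ x) (pow_zero _)).trans (pow_one _)

theorem n_node_TMa (j : V) (f p : Tr V) (hk : Tr.kap j f p ≠ 0) :
    Tr.n (Tr.node j f p) + Finsupp.single j 1 = Tr.n f + Tr.n p := by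
  have h1 : Finsupp.single j 1 ≤ Tr.n f + Tr.n p := by
    rw [Finsupp.single_le_iff]
    by_contra hlt
    have h2 : Tr.n f j = 0 ∧ Tr.n p j = 0 := by
      rw [Finsupp.add_apply] at hlt
      omega
    apply hk
    unfold Tr.kap
    rw [h2.1, h2.2]
    simp
  exact tsub_add_cancel_of_le h1

theorem wT_node_le (G : Geo V) (rho s : ℝ) (hr : 0 < rho) (j : V) (f p : Tr V)
    (hk : Tr.kap j f p ≠ 0) :
    wT G rho s (Tr.node j f p) ≤ ENNReal.ofReal (1 / rho) * wT G rho s f * wT G rho s p := by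
  obtain ⟨hjf, hjp⟩ := Tr.kap_mem j f p hk
  have hdeg := Tr.deg_node j f p hk
  have hn := n_node_TMa j f p hk
  have ha := G.a_pos j
  have e1 : amn G.a (Tr.n f) * amn G.a (Tr.n p) = amn G.a (Tr.n (Tr.node j f p)) * G.a j := by
    rw [← amn_add_TMa, ← hn, amn_add_TMa, amn_single_TMa]
  have e2 : rho ^ Tr.deg f * rho ^ Tr.deg p = rho ^ Tr.deg (Tr.node j f p) * rho := by
    rw [← pow_add, ← hdeg, pow_succ]
  have e3 : Real.exp (s * Tr.N (Tr.node j f p)) = Real.exp (s * Tr.N f) * Real.exp (s * Tr.N p) := by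
    rw [← Real.exp_add]
    congr 1
    have : Tr.N (Tr.node j f p) = Tr.N f + Tr.N p := rfl
    rw [this]
    push_cast
    ring
  have e4 := G.ainv_union hjf hjp
  have p1 := amn_pos_TMa G (Tr.n f)
  have p2 := amn_pos_TMa G (Tr.n p)
  have p3 := amn_pos_TMa G (Tr.n (Tr.node j f p))
  have q1 : 0 ≤ G.ainv (Tr.A f) := zero_le_one.trans (G.one_le_ainv _)
  have q2 : 0 ≤ G.ainv (Tr.A p) := zero_le_one.trans (G.one_le_ainv _)
  unfold wT
  rw [← ENNReal.ofReal_mul (by positivity), ← ENNReal.ofReal_mul (by positivity)]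
  apply ENNReal.ofReal_le_ofReal
  have hA : Tr.A (Tr.node j f p) = Tr.A f ∪ Tr.A p := rfl
  rw [e3, hA]
  have e5 : amn G.a (Tr.n (Tr.node j f p)) = amn G.a (Tr.n f) * amn G.a (Tr.n p) * (G.a j)⁻¹ := by
    rw [e1]; field_simp
  have e6 : rho ^ Tr.deg (Tr.node j f p) = rho ^ Tr.deg f * rho ^ Tr.deg p * (1 / rho) := by
    rw [e2]; field_simp
  rw [e5, e6]
  calc rho ^ Tr.deg f * rho ^ Tr.deg p * (1 / rho) *
        (amn G.a (Tr.n f) * amn G.a (Tr.n p) * (G.a j)⁻¹) *
        (Real.exp (s * Tr.N f) * Real.exp (s * Tr.N p)) * G.ainv (Tr.A f ∪ Tr.A p)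
      = rho ^ Tr.deg f * rho ^ Tr.deg p * (1 / rho) *
        (amn G.a (Tr.n f) * amn G.a (Tr.n p)) *
        (Real.exp (s * Tr.N f) * Real.exp (s * Tr.N p)) *
          ((G.a j)⁻¹ * G.ainv (Tr.A f ∪ Tr.A p)) := by ring
    _ ≤ rho ^ Tr.deg f * rho ^ Tr.deg p * (1 / rho) *
        (amn G.a (Tr.n f) * amn G.a (Tr.n p)) *
        (Real.exp (s * Tr.N f) * Real.exp (s * Tr.N p)) *
          (G.ainv (Tr.A f) * G.ainv (Tr.A p)) :=
        mul_le_mul_of_nonneg_left e4 (by positivity)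
    _ = _ := by ring

theorem wg_mon_le_TMa (G : Geo V) (rho s : ℝ) (hr : 0 < rho) (hs : 0 ≤ s) (h : Tr V) :
    wg G rho s (mon h) ≤ wT G rho s h := by
  unfold wg wm wT
  have p1 := amn_pos_TMa G (Tr.n h)
  rw [← ENNReal.ofReal_mul (by unfold mon; positivity)]
  apply ENNReal.ofReal_le_ofReal
  have h1 : NM (mon h) ≤ Tr.N h := Tr.nk_le_N h
  have h2 : G.ainv (spm (mon h)) ≤ G.ainv (Tr.A h) :=
    G.ainv_mono (Finset.union_subset (Tr.n_supp h) (Tr.k_supp h))
  have h3 : Real.exp (s * NM (mon h)) ≤ Real.exp (s * Tr.N h) :=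
    Real.exp_le_exp.2 (mul_le_mul_of_nonneg_left (by exact_mod_cast h1) hs)
  have h4 : 0 ≤ G.ainv (spm (mon h)) := zero_le_one.trans (G.one_le_ainv _)
  have h5 : dgr (mon h).1 = Tr.deg h := rfl
  have h6 : (mon h).1 = Tr.n h := rfl
  rw [h5, h6]
  gcongr

theorem nr_pt_le (G : Geo V) (rho s : ℝ) (hr : 0 < rho) (hs : 0 ≤ s) (u : Tr V → ℂ) :
    nr (wg G rho s) (pt u) ≤ ∑' h, ‖u h‖ₑ * wT G rho s h := by
  refine (nr_push_le (wg G rho s) mon u).trans ?_
  exact ENNReal.tsum_le_tsum fun h => mul_le_mul_right (wg_mon_le_TMa G rho s hr hs h) _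

end KX
end

section

/-!
# The exponential of a derivation
-/

set_option autoImplicit false

namespace KX

open scoped ENNReal

variable {V : Type} [DecidableEq V]

/-- iterated brackets for a general family of weights -/
theorem nr_iter_gen {W : ℝ → Mon V → ℝ≥0∞} (G : Geo V) (rho : ℝ) (F : Mon V → ℂ)
    (hW : ∀ {s s' : ℝ}, s ≤ s' → ∀ m, W s m ≤ W s' m)
    (hstep : ∀ (s y y' : ℝ), 0 ≤ s → 0 < y → 0 < y' → ∀ h : Mon V → ℂ,
      nr (W s) (XX F h) ≤
        ENNReal.ofReal (1 / (rho * y * y')) * nr (W (s + y)) h * nr (wg G rho (s + y')) F)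
    (s y s1 : ℝ) (hr : 0 < rho) (hs : 0 ≤ s) (hy : 0 < y)
    (hs1 : 0 < s1) (h2 : s + y ≤ s1 / 2) (g : Mon V → ℂ) (n : ℕ) :
    nr (W s) ((XX F)^[n] g) ≤
      (ENNReal.ofReal (2 * n / (rho * y * s1)) * nr (wg G rho s1) F) ^ n *
        nr (W (s + y)) g := by
  rcases Nat.eq_zero_or_pos n with hn | hn
  · subst hn
    simp only [Function.iterate_zero, id_eq, pow_zero, one_mul]
    exact nr_mono (hW (by linarith)) g
  have hn' : (0 : ℝ) < n := by exact_mod_cast hn
  have hyn : 0 < y / n := div_pos hy hn'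
  have key : ∀ k : ℕ, k ≤ n → nr (W (s + (n - k : ℕ) * (y / n))) ((XX F)^[k] g) ≤
      (ENNReal.ofReal (2 * n / (rho * y * s1)) * nr (wg G rho s1) F) ^ k *
        nr (W (s + y)) g := by
    intro k
    induction k with
    | zero =>
      intro _
      simp only [Function.iterate_zero, id_eq, pow_zero, one_mul, Nat.sub_zero]
      have h3 : (n : ℝ) * (y / n) = y := by field_simp
      rw [h3]
    | succ k ih =>
      intro hk
      have h3 := ih (by omega)
      set σ : ℝ := s + (n - (k + 1) : ℕ) * (y / n) with hσ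
      have hσ0 : 0 ≤ σ := by positivity
      have hσ1 : σ + y / n = s + (n - k : ℕ) * (y / n) := by
        have h4 : (n - k : ℕ) = (n - (k + 1) : ℕ) + 1 := by omega
        rw [h4, hσ]
        push_cast
        ring
      have hσ2 : σ ≤ s1 / 2 := by
        have h5 : ((n - (k + 1) : ℕ) : ℝ) ≤ n := by exact_mod_cast Nat.sub_le _ _
        have h6 : ((n - (k + 1) : ℕ) : ℝ) * (y / n) ≤ n * (y / n) :=
          mul_le_mul_of_nonneg_right h5 hyn.le
        have h7 : (n : ℝ) * (y / n) = y := by field_simp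
        rw [h7] at h6
        linarith
      have h8 := hstep σ (y / n) (s1 - σ) hσ0 hyn (by linarith) ((XX F)^[k] g)
      rw [hσ1] at h8
      have h9 : σ + (s1 - σ) = s1 := by ring
      rw [h9] at h8
      rw [Function.iterate_succ_apply']
      refine h8.trans ?_
      have h10 : 1 / (rho * (y / n) * (s1 - σ)) ≤ 2 * n / (rho * y * s1) := by
        rw [div_le_div_iff₀ (by
          have : 0 < s1 - σ := by linarith
          positivity) (by positivity)]
        have h11 : 2 * (n : ℝ) * (rho * (y / n) * (s1 - σ)) = rho * y * (2 * (s1 - σ)) := by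
          field_simp
        rw [h11, one_mul]
        exact mul_le_mul_of_nonneg_left (by linarith) (by positivity)
      calc ENNReal.ofReal (1 / (rho * (y / n) * (s1 - σ))) *
            nr (W (s + (n - k : ℕ) * (y / n))) ((XX F)^[k] g) * nr (wg G rho s1) F
          ≤ ENNReal.ofReal (2 * n / (rho * y * s1)) *
            ((ENNReal.ofReal (2 * n / (rho * y * s1)) * nr (wg G rho s1) F) ^ k *
              nr (W (s + y)) g) * nr (wg G rho s1) F := by
            gcongr
        _ = _ := by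
            rw [pow_succ]
            ring
  have h4 := key n le_rfl
  rw [Nat.sub_self, Nat.cast_zero, zero_mul, add_zero] at h4
  exact h4

/-- iterated brackets on observables at levels `s ≤ s + y`, generator at level `s1` -/
theorem nr_XX_iter (G : Geo V) (rho s y s1 : ℝ) (hr : 0 < rho) (hs : 0 ≤ s) (hy : 0 < y)
    (hs1 : 0 < s1) (h2 : s + y ≤ s1 / 2) (F g : Mon V → ℂ) (n : ℕ) :
    nr (wm G rho s) ((XX F)^[n] g) ≤
      (ENNReal.ofReal (2 * n / (rho * y * s1)) * nr (wg G rho s1) F) ^ n *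
        nr (wm G rho (s + y)) g :=
  nr_iter_gen G rho F (fun h m => wm_mono G rho hr h m)
    (fun s y y' h1 h2 h3 h => nr_XX_le G rho s y y' hr h1 h2 h3 F h) s y s1 hr hs hy hs1 h2 g n

/-- iterated brackets on generators -/
theorem nr_XX_iter' (G : Geo V) (rho s y s1 : ℝ) (hr : 0 < rho) (hs : 0 ≤ s) (hy : 0 < y)
    (hs1 : 0 < s1) (h2 : s + y ≤ s1 / 2) (F g : Mon V → ℂ) (n : ℕ) :
    nr (wg G rho s) ((XX F)^[n] g) ≤
      (ENNReal.ofReal (2 * n / (rho * y * s1)) * nr (wg G rho s1) F) ^ n *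
        nr (wg G rho (s + y)) g :=
  nr_iter_gen G rho F (fun h m => wg_mono G rho hr h m)
    (fun s y y' h1 h2 h3 h => nr_XX_le' G rho s y y' hr h1 h2 h3 F h) s y s1 hr hs hy hs1 h2 g n

end KX
end

section

/-!
# The exponential of a derivation
-/

set_option autoImplicit false

namespace KX

open scoped ENNReal

variable {V : Type} [DecidableEq V]

theorem pow_self_le (n : ℕ) : (n : ℝ) ^ n ≤ 3 ^ n * n.factorial := by
  have h1 := Real.pow_div_factorial_le_exp (n : ℝ) (Nat.cast_nonneg n) n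
  have h2 : Real.exp n ≤ 3 ^ n := by
    rw [← Real.exp_one_pow]
    refine pow_le_pow_left₀ (Real.exp_pos 1).le ?_ n
    have := Real.exp_one_lt_d9
    linarith
  have h3 : (0 : ℝ) < n.factorial := by exact_mod_cast n.factorial_pos
  rw [div_le_iff₀ h3] at h1
  exact h1.trans (mul_le_mul_of_nonneg_right h2 h3.le)

theorem fac_gen {w w' : Mon V → ℝ≥0∞} (rho y s1 z : ℝ) (hr : 0 < rho) (hy : 0 < y)
    (hs1 : 0 < s1) (hz : 0 ≤ z) (N : ℝ≥0∞) (F g : Mon V → ℂ)
    (hF : ENNReal.ofReal (6 / (rho * y * s1)) * N ≤ ENNReal.ofReal z) (n : ℕ)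
    (h : nr w ((XX F)^[n] g) ≤ (ENNReal.ofReal (2 * n / (rho * y * s1)) * N) ^ n * nr w' g) :
    nr w (fun m => (1 / (n.factorial : ℂ)) * ((XX F)^[n] g) m) ≤
      ENNReal.ofReal (z ^ n) * nr w' g := by
  have h3 : (0 : ℝ) < n.factorial := by exact_mod_cast n.factorial_pos
  have hq : 0 < rho * y * s1 := by positivity
  rw [nr_smul]
  have h4 : ‖(1 / (n.factorial : ℂ))‖ₑ = ENNReal.ofReal (1 / n.factorial) := by
    rw [← ofReal_norm, norm_div, norm_one, Complex.norm_natCast]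
  have h5 : ENNReal.ofReal (1 / n.factorial) * (ENNReal.ofReal (2 * n / (rho * y * s1)) * N) ^ n ≤
      ENNReal.ofReal (z ^ n) := by
    rw [mul_pow, ← mul_assoc, ← ENNReal.ofReal_pow (by positivity),
      ← ENNReal.ofReal_mul (by positivity)]
    have h6 : 1 / (n.factorial : ℝ) * (2 * n / (rho * y * s1)) ^ n ≤ (6 / (rho * y * s1)) ^ n := by
      rw [div_pow, div_pow, mul_pow, one_div, ← mul_div_assoc]
      refine div_le_div_of_nonneg_right ?_ (by positivity)
      rw [inv_mul_le_iff₀ h3]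
      calc (2 : ℝ) ^ n * (n : ℝ) ^ n ≤ 2 ^ n * (3 ^ n * n.factorial) :=
            mul_le_mul_of_nonneg_left (pow_self_le n) (by positivity)
        _ = n.factorial * 6 ^ n := by
            have : (6 : ℝ) = 2 * 3 := by norm_num
            rw [this, mul_pow]
            ring
    calc ENNReal.ofReal (1 / (n.factorial : ℝ) * (2 * n / (rho * y * s1)) ^ n) * N ^ n
        ≤ ENNReal.ofReal ((6 / (rho * y * s1)) ^ n) * N ^ n := by
          gcongr
      _ = (ENNReal.ofReal (6 / (rho * y * s1)) * N) ^ n := by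
          rw [ENNReal.ofReal_pow (by positivity), mul_pow]
      _ ≤ (ENNReal.ofReal z) ^ n := by gcongr
      _ = _ := (ENNReal.ofReal_pow hz n).symm
  rw [h4]
  calc ENNReal.ofReal (1 / n.factorial) * nr w ((XX F)^[n] g)
      ≤ ENNReal.ofReal (1 / n.factorial) *
        ((ENNReal.ofReal (2 * n / (rho * y * s1)) * N) ^ n * nr w' g) := by gcongr
    _ = ENNReal.ofReal (1 / n.factorial) *
        (ENNReal.ofReal (2 * n / (rho * y * s1)) * N) ^ n * nr w' g := by ring
    _ ≤ _ := by gcongr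

/-- `m^m / m! ≤ 3^m` -/
theorem nr_XX_iter_fac (G : Geo V) (rho s y s1 z : ℝ) (hr : 0 < rho) (hs : 0 ≤ s) (hy : 0 < y)
    (hs1 : 0 < s1) (h2 : s + y ≤ s1 / 2) (hz : 0 ≤ z) (F g : Mon V → ℂ)
    (hF : ENNReal.ofReal (6 / (rho * y * s1)) * nr (wg G rho s1) F ≤ ENNReal.ofReal z) (n : ℕ) :
    nr (wm G rho s) (fun m => (1 / (n.factorial : ℂ)) * ((XX F)^[n] g) m) ≤
      ENNReal.ofReal (z ^ n) * nr (wm G rho (s + y)) g :=
  fac_gen rho y s1 z hr hy hs1 hz _ F g hF n (nr_XX_iter G rho s y s1 hr hs hy hs1 h2 F g n)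

theorem nr_XX_iter_fac' (G : Geo V) (rho s y s1 z : ℝ) (hr : 0 < rho) (hs : 0 ≤ s) (hy : 0 < y)
    (hs1 : 0 < s1) (h2 : s + y ≤ s1 / 2) (hz : 0 ≤ z) (F g : Mon V → ℂ)
    (hF : ENNReal.ofReal (6 / (rho * y * s1)) * nr (wg G rho s1) F ≤ ENNReal.ofReal z) (n : ℕ) :
    nr (wg G rho s) (fun m => (1 / (n.factorial : ℂ)) * ((XX F)^[n] g) m) ≤
      ENNReal.ofReal (z ^ n) * nr (wg G rho (s + y)) g :=
  fac_gen rho y s1 z hr hy hs1 hz _ F g hF n (nr_XX_iter' G rho s y s1 hr hs hy hs1 h2 F g n)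

/-- closeness to the identity -/
theorem nr_expX_sub (G : Geo V) (rho s y s1 z : ℝ) (hr : 0 < rho) (hs : 0 ≤ s) (hy : 0 < y)
    (hs1 : 0 < s1) (h2 : s + y ≤ s1 / 2) (hz : 0 ≤ z) (hz1 : z ≤ 1 / 2) (F g : Mon V → ℂ)
    (hF : ENNReal.ofReal (6 / (rho * y * s1)) * nr (wg G rho s1) F ≤ ENNReal.ofReal z) :
    nr (wm G rho s) (fun m => expX F g m - g m) ≤
      ENNReal.ofReal (2 * z) * nr (wm G rho (s + y)) g := by
  set N := nr (wm G rho (s + y)) g with hN
  by_cases htriv : N = ∞ ∧ z ≠ 0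
  · have hz' : ENNReal.ofReal (2 * z) ≠ 0 := by
      rw [Ne, ENNReal.ofReal_eq_zero, not_le]
      have := lt_of_le_of_ne hz (Ne.symm htriv.2)
      linarith
    rw [htriv.1, ENNReal.mul_top hz']
    exact le_top
  have hfac := nr_XX_iter_fac G rho s y s1 z hr hs hy hs1 h2 hz F g hF
  set a : ℕ → Mon V → ℂ := fun n m => (1 / (n.factorial : ℂ)) * ((XX F)^[n] g) m with ha
  have hsum : ∑' n : ℕ, nr (wm G rho s) (a (n + 1)) ≤ ENNReal.ofReal (2 * z) * N := by
    have h3 : ∀ n : ℕ, nr (wm G rho s) (a (n + 1)) ≤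
        ENNReal.ofReal (z * (1 / 2) ^ n) * N := by
      intro n
      refine (hfac (n + 1)).trans ?_
      gcongr
      rw [pow_succ, mul_comm]
      exact mul_le_mul_of_nonneg_left (pow_le_pow_left₀ hz hz1 n) hz
    refine (ENNReal.tsum_le_tsum h3).trans ?_
    rw [ENNReal.tsum_mul_right]
    gcongr
    rw [← ENNReal.ofReal_tsum_of_nonneg (fun n => by positivity)
      ((summable_geometric_two).mul_left z), tsum_mul_left, tsum_geometric_two]
    exact ENNReal.ofReal_le_ofReal (le_of_eq (mul_comm _ _))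
  have hfin : ∑' n : ℕ, nr (wm G rho s) (a (n + 1)) ≠ ∞ := by
    refine ne_top_of_le_ne_top ?_ hsum
    rw [not_and_or, not_not] at htriv
    rcases htriv with h | h
    · exact ENNReal.mul_ne_top ENNReal.ofReal_ne_top h
    · rw [h, mul_zero, ENNReal.ofReal_zero, zero_mul]
      exact ENNReal.zero_ne_top
  have hsm : ∀ m, Summable fun n => a n m := by
    intro m
    rw [← summable_nat_add_iff 1]
    have h4 : (∑' n : ℕ, ‖a (n + 1) m‖ₑ) * wm G rho s m ≠ ∞ := by
      rw [← ENNReal.tsum_mul_right]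
      refine ne_top_of_le_ne_top hfin (ENNReal.tsum_le_tsum fun n => ?_)
      exact ENNReal.le_tsum m
    have h5 : ∑' n : ℕ, ‖a (n + 1) m‖ₑ ≠ ∞ := by
      intro h6
      rw [h6, ENNReal.top_mul (wm_ne_zero G rho s hr m)] at h4
      exact h4 rfl
    have h6 : Summable fun n : ℕ => ‖a (n + 1) m‖ :=
      ENNReal.tsum_coe_ne_top_iff_summable_coe.1 h5
    exact h6.of_norm
  have hexp : (fun m => expX F g m - g m) = fun m => ∑' n : ℕ, a (n + 1) m := by
    funext m
    have h7 : expX F g m = ∑' n, a n m := rfl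
    rw [h7, (hsm m).tsum_eq_zero_add]
    have h8 : a 0 m = g m := by simp [ha]
    rw [h8]
    ring
  rw [hexp]
  exact (nr_tsum_le _ _).trans hsum

end KX
end
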