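import Pool.Agent.Lib.MP_73c19a_an.Mg.G007
import Pool.Agent.Lib.MP_73c19a_an.Mg.G003
import Pool.Agent.Lib.MP_73c19a_an.Model
import Pool.Agent.Lib.MP_73c19a_an.Mg.G004
import Pool.Agent.Lib.MP_73c19a_an.Schemea
import Pool.Agent.Lib.MP_73c19a_an.Mg.G009
import Pool.Agent.Lib.MP_73c19a_an.Mg.G012

section

/-!
# From the torus functions to an invariant torus of the model
-/

set_option autoImplicit false

namespace KX

open scoped ENNReal

open KamLattice

variable {d : ℕ}

/-- the torus -/
noncomputable def Psi (a : Site d → ℝ) (cs : ℝ) (Φ : ℕ → (Mon (Site d) → ℂ) → Mon (Site d) → ℂ)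
    (θ : Site d → Cir) : Phase d :=
  (fun j => cs * a j + (TX Φ θ j).re,
    fun j => θ j + ((Complex.arg (TE Φ θ j * (starRingEnd ℂ) (fourier 1 (θ j)))) : ℝ))

private lemma dync_norm_f (x : Cir) : ‖(fourier 1 x : ℂ)‖ = 1 := by
  rw [_root_.fourier_one]; exact Circle.norm_coe _

private lemma dync_conj_f (x : Cir) : (fourier 1 x : ℂ) * (starRingEnd ℂ) (fourier 1 x : ℂ) = 1 := by
  rw [Complex.mul_conj, Complex.normSq_eq_norm_sq, dync_norm_f]; simp

private lemma dync_f_add (x : Cir) (α : ℝ) :
    (fourier 1 (x + (α : Cir)) : ℂ) = fourier 1 x * Complex.exp (Complex.I * α) := by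
  rw [_root_.fourier_one, AddCircle.toCircle_add, Circle.coe_mul, _root_.fourier_one]
  congr 1
  rw [← _root_.fourier_one, fourier_coe_apply]
  congr 1
  push_cast
  field_simp

private lemma dync_arg (z : ℂ) (hz : ‖z‖ = 1) : Complex.exp (Complex.I * Complex.arg z) = z := by
  have := Complex.norm_mul_exp_arg_mul_I z
  rw [hz] at this
  rw [mul_comm Complex.I]
  simpa using this

private lemma dync_f_inj {x y : Cir} (h : (fourier 1 x : ℂ) = fourier 1 y) : x = y := by
  rw [_root_.fourier_one, _root_.fourier_one] at h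
  exact AddCircle.injective_toCircle (by positivity) (Circle.ext h)

private lemma dync_z (T : ℂ) (x : Cir) :
    ‖T * (starRingEnd ℂ) (fourier 1 x : ℂ) - 1‖ = ‖T - fourier 1 x‖ := by
  have h1 : T * (starRingEnd ℂ) (fourier 1 x : ℂ) - 1 =
      (T - fourier 1 x) * (starRingEnd ℂ) (fourier 1 x : ℂ) := by
    rw [sub_mul, dync_conj_f]
  rw [h1, norm_mul, RCLike.norm_conj, dync_norm_f, mul_one]

/-- continuity and injectivity: for `Psi θ = Psi θ'` we get `TE θ = TE θ'`; `TE_lip` with
`δ = sup_j |e^{iθ_j} - e^{iθ'_j}|` gives `δ ≤ C δ` with `C < 1` -/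
theorem Psi_cont_inj (a : Site d → ℝ) (ha0 : ∀ j, 0 < a j)
    (ha1 : ∀ j, a j ≤ 1) {rho s0 : ℝ} {s ep : ℕ → ℝ} {w : ℕ → Site d → ℝ}
    {p : ℕ → Mon (Site d) → ℂ} {Φ : ℕ → (Mon (Site d) → ℂ) → Mon (Site d) → ℂ} {w' : Site d → ℝ}
    (h : Chain (geoZ d a ha0 ha1) rho s0 s ep w p Φ w') (cs : ℝ)
    (hsm : 2 * (∑' t, ep t) * Real.exp (s 0) ≤ 1 / 4)
    (hsm' : 2 * (∑' t, ep t) * Real.exp (s 0) / s0 ≤ 1 / 4) :
    Continuous (Psi a cs Φ) ∧ Function.Injective (Psi a cs Φ) := by
  have hz : ∀ θ j, ‖TE Φ θ j * (starRingEnd ℂ) (fourier 1 (θ j) : ℂ) - 1‖ ≤ 1 / 4 := by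
    intro θ j
    rw [dync_z]
    exact ((TX_TE h θ j).2.2.2).trans hsm
  constructor
  · refine Continuous.prodMk (continuous_pi fun j => ?_) (continuous_pi fun j => ?_)
    · exact continuous_const.add (Complex.continuous_re.comp (TX_TE_continuous h j).1)
    · have hc : Continuous fun θ : Site d → Cir =>
          TE Φ θ j * (starRingEnd ℂ) (fourier 1 (θ j) : ℂ) := by
        refine (TX_TE_continuous h j).2.mul ?_
        refine Complex.continuous_conj.comp ?_
        exact (fourier 1).continuous.comp (continuous_apply j)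
      have hcarg : Continuous fun θ : Site d → Cir =>
          Complex.arg (TE Φ θ j * (starRingEnd ℂ) (fourier 1 (θ j) : ℂ)) := by
        rw [continuous_iff_continuousAt]
        intro θ
        refine ContinuousAt.comp (f := fun θ : Site d → Cir =>
          TE Φ θ j * (starRingEnd ℂ) (fourier 1 (θ j) : ℂ)) (g := Complex.arg) ?_ hc.continuousAt
        refine Complex.continuousAt_arg (Or.inl ?_)
        have h1 := hz θ j
        have h2 := (Complex.abs_re_le_norm _).trans h1
        rw [Complex.sub_re, Complex.one_re, abs_le] at h2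
        linarith [h2.1]
      exact (continuous_apply j).add ((AddCircle.continuous_mk' _).comp hcarg)
  · intro θ θ' hθ
    have hE : ∀ j, TE Φ θ j = TE Φ θ' j := by
      intro j
      have h1 : θ j + ((Complex.arg (TE Φ θ j * (starRingEnd ℂ) (fourier 1 (θ j) : ℂ)) : ℝ) : Cir)
          = θ' j + ((Complex.arg (TE Φ θ' j * (starRingEnd ℂ) (fourier 1 (θ' j) : ℂ)) : ℝ) : Cir) :=
        congrFun (congrArg Prod.snd hθ) j
      have h2 := congrArg (fun x : Cir => (fourier 1 x : ℂ)) h1
      beta_reduce at h2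
      have hn : ∀ θ : Site d → Cir, ‖TE Φ θ j * (starRingEnd ℂ) (fourier 1 (θ j) : ℂ)‖ = 1 := by
        intro θ
        rw [norm_mul, RCLike.norm_conj, dync_norm_f, mul_one]
        exact (TX_TE h θ j).2.2.1
      rw [dync_f_add, dync_f_add, dync_arg _ (hn θ), dync_arg _ (hn θ')] at h2
      have h3 : ∀ θ : Site d → Cir, (fourier 1 (θ j) : ℂ) *
          (TE Φ θ j * (starRingEnd ℂ) (fourier 1 (θ j) : ℂ)) = TE Φ θ j := by
        intro θ
        rw [mul_left_comm, dync_conj_f, mul_one]
      rwa [h3, h3] at h2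
    -- the supremum
    have hbdd : BddAbove (Set.range fun j => ‖(fourier 1 (θ j) : ℂ) - fourier 1 (θ' j)‖) := by
      refine ⟨2, ?_⟩
      rintro _ ⟨j, rfl⟩
      refine (norm_sub_le _ _).trans ?_
      rw [dync_norm_f, dync_norm_f]
      norm_num
    set δ := ⨆ j, ‖(fourier 1 (θ j) : ℂ) - fourier 1 (θ' j)‖ with hδ
    have hle : ∀ j, ‖(fourier 1 (θ j) : ℂ) - fourier 1 (θ' j)‖ ≤ δ := fun j => le_ciSup hbdd j
    have hδ0 : 0 ≤ δ := (norm_nonneg _).trans (hle 0)
    have hstep : ∀ j, ‖(fourier 1 (θ j) : ℂ) - fourier 1 (θ' j)‖ ≤ 1 / 4 * δ := by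
      intro j
      have h1 := TE_lip h θ θ' j δ hδ0 hle
      rw [hE j] at h1
      have h2 : (TE Φ θ' j - (fourier 1 (θ j) : ℂ)) - (TE Φ θ' j - (fourier 1 (θ' j) : ℂ))
          = -((fourier 1 (θ j) : ℂ) - fourier 1 (θ' j)) := by ring
      rw [h2, norm_neg] at h1
      exact h1.trans (mul_le_mul_of_nonneg_right hsm' hδ0)
    have hδle : δ ≤ 1 / 4 * δ := ciSup_le hstep
    have hδz : δ = 0 := by linarith
    funext j
    refine dync_f_inj ?_
    have h1 := hle j
    rw [hδz] at h1
    exact sub_eq_zero.1 (norm_le_zero_iff.1 h1)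

end KX
end

section

/-!
# Evaluation of the limit: the torus functions
-/

set_option autoImplicit false

namespace KX

open scoped ENNReal

variable {V : Type}

variable [DecidableEq V]

theorem XX_x (p : Mon V → ℂ) (j : V) :
    XX p (em (Finsupp.single j 1, 0)) = fun m => -(Complex.I * (m.2 j : ℂ) * p m) := by
  classical
  funext m
  unfold XX push
  rw [tsum_eq_single (j, (Finsupp.single j 1, 0), m)]
  · have h1 : tgt j (Finsupp.single j 1, 0) m = m := by
      unfold tgt
      ext1
      · ext i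
        simp
      · simp
    rw [if_pos h1]
    simp only [kapm, em, Pi.single_eq_same]
    simp
  · rintro ⟨i, m1, m2⟩ hx
    split_ifs with h3
    swap
    · rfl
    replace h3 : tgt i m1 m2 = m := h3
    show Complex.I * (kapm i m1 m2 : ℂ) * em (Finsupp.single j 1, 0) m1 * p m2 = 0
    by_cases h1 : m1 = (Finsupp.single j 1, 0)
    · subst h1
      by_cases h2 : i = j
      · subst h2
        exfalso
        apply hx
        have h4 : tgt i (Finsupp.single i 1, 0) m2 = m2 := by
          unfold tgt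
          ext1
          · ext i
            simp
          · simp
        rw [← h3, h4]
      · have h3 : kapm i (Finsupp.single j 1, 0) m2 = 0 := by
          simp [kapm, Ne.symm h2]
        rw [h3]
        simp
    · have h3 : em (Finsupp.single j 1, (0 : V →₀ ℤ)) m1 = 0 := by
        unfold em
        exact Pi.single_eq_of_ne h1 1
      rw [h3]
      simp

private theorem torg_XX_e (p : Mon V → ℂ) (j : V) :
    XX p (em (0, Finsupp.single j 1)) = fun m => Complex.I * ((m.1 j : ℂ) + 1) *
      p (m.1 + Finsupp.single j 1, m.2 - Finsupp.single j 1) := by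
  classical
  funext m
  unfold XX push
  rw [tsum_eq_single (j, (0, Finsupp.single j 1), (m.1 + Finsupp.single j 1, m.2 - Finsupp.single j 1))]
  · have h1 : tgt j (0, Finsupp.single j 1) (m.1 + Finsupp.single j 1, m.2 - Finsupp.single j 1) = m := by
      unfold tgt
      ext1
      · ext i
        simp
      · ext i
        simp
    rw [if_pos h1]
    simp only [kapm, em, Pi.single_eq_same]
    simp
  · rintro ⟨i, m1, m2⟩ hx
    split_ifs with h3
    swap
    · rfl
    replace h3 : tgt i m1 m2 = m := h3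
    show Complex.I * (kapm i m1 m2 : ℂ) * em (0, Finsupp.single j 1) m1 * p m2 = 0
    by_cases h1 : m1 = (0, Finsupp.single j 1)
    · subst h1
      by_cases h2 : i = j
      · subst h2
        by_cases h5 : m2.1 i = 0
        · have h3 : kapm i (0, Finsupp.single i 1) m2 = 0 := by
            simp [kapm, h5]
          rw [h3]
          simp
        · exfalso
          apply hx
          have h4 : m2 = (m.1 + Finsupp.single i 1, m.2 - Finsupp.single i 1) := by
            rw [← h3]
            unfold tgt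
            ext1
            · ext k
              simp only [zero_add, Finsupp.coe_add, Finsupp.coe_tsub, Pi.add_apply, Pi.sub_apply,
                Finsupp.single_apply]
              by_cases h6 : i = k
              · subst h6
                rw [if_pos rfl]
                omega
              · rw [if_neg h6]
                omega
            · ext k
              simp
          rw [h4]
      · have h3 : kapm i (0, Finsupp.single j 1) m2 = 0 := by
          simp [kapm, Ne.symm h2]
        rw [h3]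
        simp
    · have h3 : em ((0 : V →₀ ℕ), Finsupp.single j 1) m1 = 0 := by
        unfold em
        exact Pi.single_eq_of_ne h1 1
      rw [h3]
      simp

private theorem torg_fin {G : Geo V} {rho s : ℝ} (hr : 0 < rho) (hs : 0 < s) {p : Mon V → ℂ}
    (hp : nr (wg G rho (2 * s)) p ≠ ∞) (m : Mon V) : nr (wm G rho s) (XX p (em m)) ≠ ∞ := by
  have h1 := nr_XX_le G rho s 1 s hr hs.le one_pos hs p (em m)
  refine ne_top_of_le_ne_top ?_ h1
  rw [← two_mul]
  refine ENNReal.mul_ne_top (ENNReal.mul_ne_top ENNReal.ofReal_ne_top ?_) hp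
  rw [nr_em]
  unfold wm
  exact ENNReal.ofReal_ne_top

private theorem torg_Mv (X E : V → ℂ) (j : V) (hE : E j ≠ 0) (n : V →₀ ℕ) (k : V →₀ ℤ) :
    Mv X E (n, k) = Mv X E (n, k - Finsupp.single j 1) * E j := by
  classical
  unfold Mv
  simp only
  rw [mul_assoc]
  congr 1
  -- zpow product
  have key : ∀ k' : V →₀ ℤ, (k'.prod fun i n => E i ^ n) =
      (∏ i ∈ (k.support ∪ k'.support ∪ {j}), E i ^ (k' i)) := by
    intro k'
    rw [Finsupp.prod]
    refine Finset.prod_subset ?_ ?_
    · intro i hi
      simp only [Finset.mem_union]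
      exact Or.inl (Or.inr hi)
    · intro i _ hi
      rw [Finsupp.notMem_support_iff.1 hi, zpow_zero]
  have key2 : ∀ (S : Finset V) (k' : V →₀ ℤ), k'.support ⊆ S → (k'.prod fun i n => E i ^ n) =
      (∏ i ∈ S, E i ^ (k' i)) := by
    intro S k' hS
    rw [Finsupp.prod]
    refine Finset.prod_subset hS ?_
    intro i _ hi
    rw [Finsupp.notMem_support_iff.1 hi, zpow_zero]
  set S : Finset V := k.support ∪ (k - Finsupp.single j 1).support ∪ {j} with hS
  rw [key2 S k (by intro i hi; simp only [hS, Finset.mem_union]; exact Or.inl (Or.inl hi)),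
    key2 S (k - Finsupp.single j 1)
      (by intro i hi; simp only [hS, Finset.mem_union]; exact Or.inl (Or.inr hi))]
  have hj : j ∈ S := by simp [hS]
  rw [← Finset.mul_prod_erase S _ hj, ← Finset.mul_prod_erase S _ hj]
  have h1 : ∏ x ∈ S.erase j, E x ^ k x = ∏ x ∈ S.erase j, E x ^ ((k - Finsupp.single j 1 : V →₀ ℤ) x) := by
    refine Finset.prod_congr rfl fun i hi => ?_
    have : i ≠ j := Finset.ne_of_mem_erase hi
    simp [this.symm]
  rw [h1]
  have h2 : E j ^ (k j) = E j ^ ((k - Finsupp.single j 1 : V →₀ ℤ) j) * E j := by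
    rw [← zpow_add_one₀ hE]
    simp
  rw [h2]
  ring

/-- equations of motion on the torus -/
theorem TX_TE_deriv {G : Geo V} {rho s0 : ℝ} {s ep : ℕ → ℝ} {w : ℕ → V → ℝ}
    {p : ℕ → Mon V → ℂ} {Φ : ℕ → (Mon V → ℂ) → Mon V → ℂ} {w' : V → ℝ}
    (h : Chain G rho s0 s ep w p Φ w') (hp : nr (wg G rho (2 * s 0)) (p 0) ≠ ∞) (θ : V → Cir)
    (t : ℝ) (j : V) :
    HasDerivAt (fun t => TX Φ (flow w' θ t) j)
      (-∑' m, Complex.I * (m.2 j : ℂ) * p 0 m *
        Mv (TX Φ (flow w' θ t)) (TE Φ (flow w' θ t)) m) t ∧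
    HasDerivAt (fun t => TE Φ (flow w' θ t) j)
      (Complex.I * TE Φ (flow w' θ t) j * (w 0 j + ∑' m, (m.1 j : ℂ) * p 0 m *
        Mv (TX Φ (flow w' θ t)) (TE Φ (flow w' θ t)) (m.1 - Finsupp.single j 1, m.2))) t ∧
    (Continuous fun t => ∑' m, Complex.I * (m.2 j : ℂ) * p 0 m *
        Mv (TX Φ (flow w' θ t)) (TE Φ (flow w' θ t)) m) ∧
    (Continuous fun t => ∑' m, (m.1 j : ℂ) * p 0 m *
        Mv (TX Φ (flow w' θ t)) (TE Φ (flow w' θ t)) (m.1 - Finsupp.single j 1, m.2)) := by
  classical
  obtain ⟨-, -, -, -, -, -, hdl⟩ := limit_main h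
  have hs0 : 0 < s 0 := lt_of_lt_of_le h.s00 (h.s0s 0)
  have hem : ∀ m : Mon V, nr (wm G rho (s 0)) (em m) ≠ ∞ := by
    intro m
    rw [nr_em]
    unfold wm
    exact ENNReal.ofReal_ne_top
  have hflow : Continuous fun t => flow w' θ t := by
    refine continuous_pi fun i => ?_
    unfold flow
    refine continuous_const.add ?_
    exact (AddCircle.continuous_mk' (2 * Real.pi)).comp (continuous_id.mul continuous_const)
  have hE : ∀ (θ : V → Cir) (j : V), TE Φ θ j ≠ 0 := by
    intro θ j h0
    have h1 := (TX_TE h θ j).2.2.1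
    rw [h0, norm_zero] at h1
    exact zero_ne_one h1
  -- the derivation of `x_j`
  have d1 : dl (w 0) (p 0) (em (Finsupp.single j 1, 0)) =
      fun m => -(Complex.I * (m.2 j : ℂ) * p 0 m) := by
    funext m
    unfold dl
    rw [Pi.add_apply, XX_x]
    have h1 : Dw (w 0) (em (Finsupp.single j 1, 0)) m = 0 := by
      unfold Dw em
      by_cases hm : m = (Finsupp.single j 1, 0)
      · subst hm
        simp [dotm]
      · rw [Pi.single_eq_of_ne hm]
        simp
    rw [h1, zero_add]
  have d1' : dl (w 0) (p 0) (em (Finsupp.single j 1, 0)) = XX (p 0) (em (Finsupp.single j 1, 0)) := by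
    rw [d1, XX_x]
  have f1 : nr (wm G rho (s 0)) (dl (w 0) (p 0) (em (Finsupp.single j 1, 0))) ≠ ∞ := by
    rw [d1']
    exact torg_fin h.rho0 hs0 hp _
  -- the derivation of `e^{i φ_j}`
  have d2 : dl (w 0) (p 0) (em (0, Finsupp.single j 1)) =
      fun m => Complex.I * (w 0 j : ℂ) * em (0, Finsupp.single j 1) m +
        XX (p 0) (em (0, Finsupp.single j 1)) m := by
    funext m
    unfold dl
    rw [Pi.add_apply]
    congr 1
    unfold Dw em
    by_cases hm : m = (0, Finsupp.single j 1)
    · subst hm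
      simp [dotm]
    · rw [Pi.single_eq_of_ne hm]
      simp
  have f2 : nr (wm G rho (s 0)) (dl (w 0) (p 0) (em (0, Finsupp.single j 1))) ≠ ∞ := by
    rw [d2]
    refine ne_top_of_le_ne_top ?_ (nr_add_le _ _ _)
    refine ENNReal.add_ne_top.2 ⟨?_, torg_fin h.rho0 hs0 hp _⟩
    rw [nr_smul]
    exact ENNReal.mul_ne_top enorm_ne_top (hem _)
  have e1 : ∀ θ : V → Cir, evc (Th Φ (dl (w 0) (p 0) (em (Finsupp.single j 1, 0)))) θ =
      -∑' m, Complex.I * (m.2 j : ℂ) * p 0 m * Mv (TX Φ θ) (TE Φ θ) m := by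
    intro θ
    rw [Th_eval h θ _ f1, d1, ← tsum_neg]
    refine tsum_congr fun m => ?_
    ring
  have e2 : ∀ θ : V → Cir, evc (Th Φ (dl (w 0) (p 0) (em (0, Finsupp.single j 1)))) θ =
      Complex.I * TE Φ θ j * (w 0 j + ∑' m, (m.1 j : ℂ) * p 0 m *
        Mv (TX Φ θ) (TE Φ θ) (m.1 - Finsupp.single j 1, m.2)) := by
    intro θ
    obtain ⟨-, hadd, hsmul, -, -, -, -⟩ := limit_main h
    have g1 : nr (wm G rho (s 0)) (fun m => Complex.I * (w 0 j : ℂ) * em (0, Finsupp.single j 1) m) ≠ ∞ := by
      rw [nr_smul]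
      exact ENNReal.mul_ne_top enorm_ne_top (hem _)
    have g2 := torg_fin h.rho0 hs0 hp (0, Finsupp.single j 1)
    rw [d2, hadd _ _ g1 g2, evc_add s0 h.s00.le _ _ (nf_Th_le h _ g1).2 (nf_Th_le h _ g2).2,
      hsmul _ _ (hem _), evc_smul, Th_eval h θ _ g2]
    have g3 : evc (Th Φ (em (0, Finsupp.single j 1))) θ = TE Φ θ j := rfl
    rw [g3, mul_add]
    have g4 : ∑' m, XX (p 0) (em (0, Finsupp.single j 1)) m * Mv (TX Φ θ) (TE Φ θ) m =
        ∑' m : Mon V, Complex.I * TE Φ θ j * ((m.1 j : ℂ) * p 0 m *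
          Mv (TX Φ θ) (TE Φ θ) (m.1 - Finsupp.single j 1, m.2)) := by
      rw [torg_XX_e]
      have hinj : Function.Injective (fun m : Mon V => ((m.1 + Finsupp.single j 1,
          m.2 - Finsupp.single j 1) : Mon V)) := by
        rintro ⟨a, b⟩ ⟨a', b'⟩ hab
        simp only [Prod.mk.injEq, add_left_inj, sub_left_inj] at hab
        exact Prod.ext hab.1 hab.2
      rw [← hinj.tsum_eq (f := fun m : Mon V => Complex.I * TE Φ θ j * ((m.1 j : ℂ) * p 0 m *
          Mv (TX Φ θ) (TE Φ θ) (m.1 - Finsupp.single j 1, m.2)))]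
      · refine tsum_congr fun m => ?_
        obtain ⟨n, k⟩ := m
        simp only
        have q1 : n + Finsupp.single j 1 - Finsupp.single j 1 = n := by
          ext i
          simp
        rw [q1, torg_Mv (TX Φ θ) (TE Φ θ) j (hE θ j) n k]
        have q2 : (((n + Finsupp.single j 1 : V →₀ ℕ) j : ℕ) : ℂ) = (n j : ℂ) + 1 := by simp
        rw [q2]
        ring
      · intro m hm
        rw [Set.mem_range]
        refine ⟨(m.1 - Finsupp.single j 1, m.2 + Finsupp.single j 1), ?_⟩
        have hmj : m.1 j ≠ 0 := by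
          intro h0
          apply hm
          simp [h0]
        ext1
        · ext i
          simp only [Finsupp.coe_add, Finsupp.coe_tsub, Pi.add_apply, Pi.sub_apply,
            Finsupp.single_apply]
          by_cases h6 : j = i
          · subst h6
            rw [if_pos rfl]
            omega
          · rw [if_neg h6]
            omega
        · ext i
          simp
    rw [g4, tsum_mul_left]
    ring
  have c1 : Continuous fun t => evc (Th Φ (dl (w 0) (p 0) (em (Finsupp.single j 1, 0)))) (flow w' θ t) :=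
    (evc_continuous s0 h.s00.le _ (nf_Th_le h _ f1).2).comp hflow
  have c2 : Continuous fun t => evc (Th Φ (dl (w 0) (p 0) (em (0, Finsupp.single j 1)))) (flow w' θ t) :=
    (evc_continuous s0 h.s00.le _ (nf_Th_le h _ f2).2).comp hflow
  have c3 : Continuous fun t => TE Φ (flow w' θ t) j :=
    (evc_continuous s0 h.s00.le _ (nf_Th_le h _ (hem _)).2).comp hflow
  refine ⟨?_, ?_, ?_, ?_⟩
  · have h1 := evc_deriv s0 h.s00.le w' _ _ (nf_Th_le h _ (hem (Finsupp.single j 1, 0))).2
      (nf_Th_le h _ f1).2 (hdl _ (hem _) f1) θ t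
    rw [e1] at h1
    exact h1
  · have h1 := evc_deriv s0 h.s00.le w' _ _ (nf_Th_le h _ (hem (0, Finsupp.single j 1))).2
      (nf_Th_le h _ f2).2 (hdl _ (hem _) f2) θ t
    rw [e2] at h1
    exact h1
  · have h1 := c1.neg
    refine h1.congr fun t => ?_
    rw [Pi.neg_apply, e1, neg_neg]
  · have h1 : Continuous fun t => evc (Th Φ (dl (w 0) (p 0) (em (0, Finsupp.single j 1))))
        (flow w' θ t) / (Complex.I * TE Φ (flow w' θ t) j) - (w 0 j : ℂ) :=
      (c2.div (continuous_const.mul c3)
        (fun t => mul_ne_zero Complex.I_ne_zero (hE _ _))).sub continuous_const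
    refine h1.congr fun t => ?_
    rw [e2, mul_div_cancel_left₀ _ (mul_ne_zero Complex.I_ne_zero (hE _ _))]
    ring

end KX
end

section

/-!
# The Lie series on trees

`opX ka e u` is the tree form of the bracket with the generator `e`; `stp` one elimination step;
`cc` the universal coefficients, `cP` the product of the leaf coefficients and of the bracket
coefficients, `QQ` the majorants.
-/

set_option autoImplicit false

namespace KX

open scoped ENNReal

variable {V : Type} [DecidableEq V]

private theorem ofReal_abs_kap (j : V) (f p : Tr V) :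
    ENNReal.ofReal |((Tr.kap j f p : ℤ) : ℝ)| = kae j f p := by
  unfold kae
  rw [← ENNReal.ofReal_natCast, Nat.cast_natAbs]
  push_cast
  rfl

private theorem chr_nonneg_sb (b : Lbl V → ℝ) (hb : ∀ l, 0 ≤ b l) (h : Tr V) : 0 ≤ chr b h := by
  induction h with
  | leaf l => exact hb l
  | node j f p ihf ihp =>
    rw [chr_node_sa]
    positivity

private theorem opX_iter_le (b : Lbl V → ℝ) (hb : ∀ l, 0 ≤ b l) (e v : Tr V → ℝ)
    (E' Q : Tr V → ℝ≥0∞)
    (he : ∀ h, ENNReal.ofReal (|e h| * chr b h) ≤ E' h)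
    (hv : ∀ h, ENNReal.ofReal (|v h| * chr b h) ≤ Q h) (m : ℕ) :
    ∀ h, ENNReal.ofReal (|((opX (fun _ _ _ => (1 : ℝ)) e)^[m] v) h| * chr b h) ≤
      ((opX kae E')^[m] Q) h := by
  induction m with
  | zero => exact hv
  | succ m ih =>
    intro h
    rw [Function.iterate_succ_apply', Function.iterate_succ_apply']
    cases h with
    | leaf l =>
      show ENNReal.ofReal (|(0 : ℝ)| * chr b (Tr.leaf l)) ≤ 0
      simp
    | node j f p =>
      show ENNReal.ofReal (|1 * e f * ((opX (fun _ _ _ => (1 : ℝ)) e)^[m] v) p| *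
        chr b (Tr.node j f p)) ≤ kae j f p * E' f * ((opX kae E')^[m] Q) p
      have hf0 : 0 ≤ |e f| * chr b f := mul_nonneg (abs_nonneg _) (chr_nonneg_sb b hb f)
      have hp0 : 0 ≤ |((opX (fun _ _ _ => (1 : ℝ)) e)^[m] v) p| * chr b p :=
        mul_nonneg (abs_nonneg _) (chr_nonneg_sb b hb p)
      have h1 : |1 * e f * ((opX (fun _ _ _ => (1 : ℝ)) e)^[m] v) p| *
          chr b (Tr.node j f p) = |((Tr.kap j f p : ℤ) : ℝ)| * (|e f| * chr b f) *
            (|((opX (fun _ _ _ => (1 : ℝ)) e)^[m] v) p| * chr b p) := by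
        rw [chr_node_sa, abs_mul, abs_mul, abs_one]
        ring
      rw [h1, ENNReal.ofReal_mul (by positivity), ENNReal.ofReal_mul (abs_nonneg _),
        ofReal_abs_kap]
      exact mul_le_mul' (mul_le_mul' (le_refl _) (he f)) (ih p)

/-- majorant property -/
theorem cc_le_QQ (G : Geo V) (P : BP V) (b : Lbl V → ℝ) (hb : ∀ l, 0 ≤ b l) (t : ℕ) (h : Tr V) :
    ENNReal.ofReal (|cc G P t h| * chr b h) ≤ QQ G P b t h := by
  induction t generalizing h with
  | zero =>
    cases h with
    | leaf l =>
      show ENNReal.ofReal (|(1 : ℝ)| * b l) ≤ ENNReal.ofReal (b l)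
      rw [abs_one, one_mul]
    | node j f p =>
      show ENNReal.ofReal (|(0 : ℝ)| * chr b (Tr.node j f p)) ≤ 0
      simp
  | succ t ih =>
    set u := cc G P t with hudef
    set e := rst (Tr.EE G P t) u with hedef
    set c := chr b h with hcdef
    have hc0 : 0 ≤ c := chr_nonneg_sb b hb h
    have hstp : cc G P (t + 1) h = (∑ m ∈ Finset.range (Tr.spine h + 1),
        (1 / (m.factorial : ℝ)) * ((opX (fun _ _ _ => (1 : ℝ)) e)^[m]
          (fun h' => u h' - rst (Tr.EE G P t) u h' / (m + 1))) h) - rst (Tr.SS G P t) u h := rfl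
    have hQ : QQ G P b (t + 1) h = ∑ m ∈ Finset.range (Tr.spine h + 1),
        (1 / (m.factorial : ℝ≥0∞)) *
          ((opX kae (rst (Tr.EE G P t) (QQ G P b t)))^[m] (QQ G P b t)) h := rfl
    have he : ∀ h, ENNReal.ofReal (|e h| * chr b h) ≤ rst (Tr.EE G P t) (QQ G P b t) h := by
      intro h
      rw [hedef]
      unfold rst
      by_cases hE : Tr.EE G P t h
      · rw [if_pos hE, if_pos hE]; exact ih h
      · rw [if_neg hE, if_neg hE]; simp
    have hv : ∀ (m : ℕ) (h : Tr V), ENNReal.ofReal
        (|u h - rst (Tr.EE G P t) u h / ((m : ℝ) + 1)| * chr b h) ≤ QQ G P b t h := by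
      intro m h
      refine le_trans (ENNReal.ofReal_le_ofReal ?_) (ih h)
      apply mul_le_mul_of_nonneg_right _ (chr_nonneg_sb b hb h)
      unfold rst
      by_cases hE : Tr.EE G P t h
      · rw [if_pos hE]
        have h1 : u h - u h / ((m : ℝ) + 1) = (m / ((m : ℝ) + 1)) * u h := by
          have : (m : ℝ) + 1 ≠ 0 := by positivity
          field_simp
          ring
        rw [h1, abs_mul]
        have h2 : |(m : ℝ) / ((m : ℝ) + 1)| ≤ 1 := by
          rw [abs_of_nonneg (by positivity), div_le_one (by positivity)]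
          linarith
        calc |(m : ℝ) / ((m : ℝ) + 1)| * |u h| ≤ 1 * |u h| :=
              mul_le_mul_of_nonneg_right h2 (abs_nonneg _)
          _ = |u h| := one_mul _
      · rw [if_neg hE]; simp
    -- the terms
    have hterm : ∀ m : ℕ, ENNReal.ofReal (|((opX (fun _ _ _ => (1 : ℝ)) e)^[m]
          (fun h' => u h' - rst (Tr.EE G P t) u h' / ((m : ℝ) + 1))) h| * c) ≤
        ((opX kae (rst (Tr.EE G P t) (QQ G P b t)))^[m] (QQ G P b t)) h := fun m =>
      opX_iter_le b hb e _ _ _ he (hv m) m h
    have hterm0 : ENNReal.ofReal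
        (|u h - rst (Tr.EE G P t) u h - rst (Tr.SS G P t) u h| * c) ≤ QQ G P b t h := by
      refine le_trans (ENNReal.ofReal_le_ofReal ?_) (ih h)
      apply mul_le_mul_of_nonneg_right _ hc0
      unfold rst
      by_cases hE : Tr.EE G P t h
      · have hS : ¬ Tr.SS G P t h := fun hS => hE.2.1 hS.2.1
        rw [if_pos hE, if_neg hS]; simp
      · by_cases hS : Tr.SS G P t h
        · rw [if_neg hE, if_pos hS]; simp
        · rw [if_neg hE, if_neg hS]; simp
    rw [hstp, hQ, Finset.sum_range_succ', Finset.sum_range_succ']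
    set S := ∑ k ∈ Finset.range (Tr.spine h), (1 / (((k + 1).factorial : ℕ) : ℝ)) *
            ((opX (fun _ _ _ => (1 : ℝ)) e)^[k + 1]
              (fun h' => u h' - rst (Tr.EE G P t) u h' / (((k + 1 : ℕ) : ℝ) + 1))) h with hS
    have h1 : S + (1 / ((Nat.factorial 0 : ℕ) : ℝ)) * ((opX (fun _ _ _ => (1 : ℝ)) e)^[0]
          (fun h' => u h' - rst (Tr.EE G P t) u h' / (((0 : ℕ) : ℝ) + 1))) h -
          rst (Tr.SS G P t) u h = S +
          (u h - rst (Tr.EE G P t) u h - rst (Tr.SS G P t) u h) := by
      simp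
      ring
    rw [h1]
    calc ENNReal.ofReal (|S + (u h - rst (Tr.EE G P t) u h - rst (Tr.SS G P t) u h)| * c)
        ≤ ENNReal.ofReal (|S| * c +
            |u h - rst (Tr.EE G P t) u h - rst (Tr.SS G P t) u h| * c) := by
          apply ENNReal.ofReal_le_ofReal
          rw [← add_mul]
          exact mul_le_mul_of_nonneg_right (abs_add_le _ _) hc0
      _ = ENNReal.ofReal (|S| * c) + ENNReal.ofReal
            (|u h - rst (Tr.EE G P t) u h - rst (Tr.SS G P t) u h| * c) :=
          ENNReal.ofReal_add (by positivity) (by positivity)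
      _ ≤ _ := by
          apply add_le_add
          · calc ENNReal.ofReal (|S| * c) ≤ ENNReal.ofReal (∑ k ∈ Finset.range (Tr.spine h),
                  (1 / (((k + 1).factorial : ℕ) : ℝ)) *
                  (|((opX (fun _ _ _ => (1 : ℝ)) e)^[k + 1]
                  (fun h' => u h' - rst (Tr.EE G P t) u h' / (((k + 1 : ℕ) : ℝ) + 1))) h| * c)) := by
                  apply ENNReal.ofReal_le_ofReal
                  calc |S| * c ≤ (∑ k ∈ Finset.range (Tr.spine h),
                        |(1 / (((k + 1).factorial : ℕ) : ℝ)) *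
                        ((opX (fun _ _ _ => (1 : ℝ)) e)^[k + 1]
                        (fun h' => u h' - rst (Tr.EE G P t) u h' /
                          (((k + 1 : ℕ) : ℝ) + 1))) h|) * c :=
                        mul_le_mul_of_nonneg_right (Finset.abs_sum_le_sum_abs _ _) hc0
                    _ = _ := by
                        rw [Finset.sum_mul]
                        apply Finset.sum_congr rfl
                        intro k _
                        rw [abs_mul, abs_of_nonneg (by positivity : (0 : ℝ) ≤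
                          1 / (((k + 1).factorial : ℕ) : ℝ))]
                        ring
              _ = ∑ k ∈ Finset.range (Tr.spine h), ENNReal.ofReal
                  ((1 / (((k + 1).factorial : ℕ) : ℝ)) *
                  (|((opX (fun _ _ _ => (1 : ℝ)) e)^[k + 1]
                  (fun h' => u h' - rst (Tr.EE G P t) u h' / (((k + 1 : ℕ) : ℝ) + 1))) h| * c)) := by
                  apply ENNReal.ofReal_sum_of_nonneg
                  intro k _
                  positivity
              _ ≤ _ := by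
                  apply Finset.sum_le_sum
                  intro k _
                  rw [ENNReal.ofReal_mul (by positivity)]
                  apply mul_le_mul'
                  · rw [ENNReal.ofReal_div_of_pos (by positivity), ENNReal.ofReal_one,
                      ENNReal.ofReal_natCast]
                  · exact hterm (k + 1)
          · simpa using hterm0

end KX
end

section

/-!
# The transformation of one block on formal series
-/

set_option autoImplicit false
set_option linter.unusedSectionVars false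

namespace KX

open scoped ENNReal

variable {V : Type} [DecidableEq V]

/-- families of degree at most one at a larger scale -/
theorem nr_deg_le (G : Geo V) (rho rho0 s : ℝ) (hr : 0 < rho) (hr0 : rho ≤ rho0) (hs : 0 ≤ s)
    (u : Tr V → ℂ) (hu : ∀ h, u h ≠ 0 → Tr.deg h ≤ 1) :
    nr (wg G rho0 s) (pt u) ≤ ENNReal.ofReal (rho0 / rho) * ∑' h, ‖u h‖ₑ * wT G rho s h := by
  have hr00 : 0 < rho0 := lt_of_lt_of_le hr hr0
  refine (nr_pt_le G rho0 s hr00 hs u).trans ?_
  rw [← ENNReal.tsum_mul_left]
  refine ENNReal.tsum_le_tsum fun h => ?_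
  by_cases h0 : u h = 0
  · simp [h0]
  have h1 := hu h h0
  have key : wT G rho0 s h ≤ ENNReal.ofReal (rho0 / rho) * wT G rho s h := by
    unfold wT
    rw [← ENNReal.ofReal_mul (by positivity)]
    apply ENNReal.ofReal_le_ofReal
    have p1 := amn_pos_TMa G (Tr.n h)
    have h4 : 0 ≤ G.ainv (Tr.A h) := zero_le_one.trans (G.one_le_ainv _)
    have h5 : rho0 ^ Tr.deg h ≤ rho0 / rho * rho ^ Tr.deg h := by
      interval_cases hd : Tr.deg h
      · rw [pow_zero, pow_zero, mul_one, le_div_iff₀ hr]
        linarith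
      · rw [pow_one, pow_one, div_mul_cancel₀ _ hr.ne']
    calc rho0 ^ Tr.deg h * amn G.a (Tr.n h) * Real.exp (s * Tr.N h) * G.ainv (Tr.A h)
        ≤ (rho0 / rho * rho ^ Tr.deg h) * amn G.a (Tr.n h) * Real.exp (s * Tr.N h) *
          G.ainv (Tr.A h) := by gcongr
      _ = _ := by ring
  calc ‖u h‖ₑ * wT G rho0 s h ≤ ‖u h‖ₑ * (ENNReal.ofReal (rho0 / rho) * wT G rho s h) :=
        mul_le_mul_right key _
    _ = _ := by ring

theorem nr_le1_le (G : Geo V) (rho rho0 s : ℝ) (hr : 0 < rho) (hr0 : rho ≤ rho0) (hs : 0 ≤ s)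
    (u : Tr V → ℂ) :
    nr (wg G rho0 s) (le1 (pt u)) ≤ ENNReal.ofReal (rho0 / rho) * ∑' h, ‖u h‖ₑ * wT G rho s h := by
  classical
  have h1 : le1 (pt u) = pt (fun h => if Tr.deg h ≤ 1 then u h else 0) := by
    funext m
    unfold le1 pt push
    have h2 : ∀ h : Tr V, mon h = m → Tr.deg h = dgr m.1 := by
      intro h hm
      rw [← hm]
      rfl
    by_cases h3 : dgr m.1 ≤ 1
    · rw [if_pos h3]
      refine tsum_congr fun h => ?_
      by_cases h4 : mon h = m
      · have h5 : Tr.deg h ≤ 1 := (h2 h h4).le.trans h3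
        simp only [if_pos h4, if_pos h5]
      · simp only [if_neg h4]
    · rw [if_neg h3]
      symm
      refine (tsum_congr fun h => ?_).trans (tsum_zero (α := ℂ) (β := Tr V))
      by_cases h4 : mon h = m
      · have h5 : ¬ Tr.deg h ≤ 1 := fun h5 => h3 ((h2 h h4).ge.trans h5)
        simp only [if_pos h4, if_neg h5]
      · simp only [if_neg h4]
  rw [h1]
  refine (nr_deg_le G rho rho0 s hr hr0 hs _ fun h hne => ?_).trans ?_
  · by_contra h3
    exact hne (if_neg h3)
  · refine mul_le_mul_right (ENNReal.tsum_le_tsum fun h => ?_) _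
    refine mul_le_mul_left ?_ _
    split_ifs with h3
    · exact le_rfl
    · simp

end KX
end
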