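import Pool.Agent.Lib.MP_73c19a_an.Mg.G001
import Pool.Agent.Lib.MP_73c19a_an.Run2b
import Pool.Agent.Lib.MP_73c19a_an.Mg.G003
import Pool.Agent.Lib.MP_73c19a_an.Mg.G006
import Pool.Agent.Lib.MP_73c19a_an.Mg.G008
import Pool.Agent.Lib.MP_73c19a_an.Mg.G004
import Pool.Agent.Lib.MP_73c19a_an.Mg.G010
import Pool.Agent.Lib.MP_73c19a_an.Mg.G011

section

/-!
# The initial perturbation

`cf ((i, j), (n1, n2, k1, k2))` are the Taylor-Fourier coefficients of the interaction of the ordered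
pair `(i, j)`; `cf = 0` for `i = j`.
-/

set_option autoImplicit false

namespace KX

open scoped ENNReal

variable {V : Type} [DecidableEq V]

/-- label of a coefficient -/
noncomputable def lblOf (x : (V × V) × ℕ × ℕ × ℤ × ℤ) : Lbl V where
  A := {x.1.1, x.1.2}
  n := Finsupp.single x.1.1 x.2.1 + Finsupp.single x.1.2 x.2.2.1
  k := Finsupp.single x.1.1 x.2.2.2.1 + Finsupp.single x.1.2 x.2.2.2.2
  hn := by
    refine Finsupp.support_add.trans (Finset.union_subset ?_ ?_)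
    · exact Finsupp.support_single_subset.trans (by simp)
    · exact Finsupp.support_single_subset.trans (by simp)
  hk := by
    refine Finsupp.support_add.trans (Finset.union_subset ?_ ?_)
    · exact Finsupp.support_single_subset.trans (by simp)
    · exact Finsupp.support_single_subset.trans (by simp)

/-- monomial of a coefficient -/
noncomputable def monOf (x : (V × V) × ℕ × ℕ × ℤ × ℤ) : Mon V := ((lblOf x).n, (lblOf x).k)

/-- initial leaf coefficients -/
noncomputable def P0of (ep : ℝ) (cf : (V × V) × ℕ × ℕ × ℤ × ℤ → ℂ) (l : Lbl V) : ℂ :=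
  ep * push lblOf cf l

/-- the change of sign of the harmonics, on coefficients -/
def negK : ((V × V) × ℕ × ℕ × ℤ × ℤ) ≃ ((V × V) × ℕ × ℕ × ℤ × ℤ) where
  toFun x := (x.1, x.2.1, x.2.2.1, -x.2.2.2.1, -x.2.2.2.2)
  invFun x := (x.1, x.2.1, x.2.2.1, -x.2.2.2.1, -x.2.2.2.2)
  left_inv x := by simp
  right_inv x := by simp

theorem lblOf_negK (x : (V × V) × ℕ × ℕ × ℤ × ℤ) : lblOf (negK x) = (lblOf x).conj := by
  apply Lbl.ext
  · rfl
  · rfl
  · show Finsupp.single x.1.1 (-x.2.2.2.1) + Finsupp.single x.1.2 (-x.2.2.2.2) =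
      -(Finsupp.single x.1.1 x.2.2.2.1 + Finsupp.single x.1.2 x.2.2.2.2)
    rw [Finsupp.single_neg, Finsupp.single_neg, neg_add]

theorem Lbl_conj_inj {l l' : Lbl V} : l.conj = l'.conj ↔ l = l' := by
  constructor
  · intro h
    apply Lbl.ext
    · have h1 : l.conj.A = l'.conj.A := by rw [h]
      exact h1
    · have h1 : l.conj.n = l'.conj.n := by rw [h]
      exact h1
    · have h1 : -l.k = -l'.k := congrArg Lbl.k h
      exact neg_injective h1
  · rintro rfl
    rfl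

theorem P0of_real (ep : ℝ) (cf : (V × V) × ℕ × ℕ × ℤ × ℤ → ℂ)
    (h : ∀ p n1 n2 k1 k2, cf (p, n1, n2, -k1, -k2) = (starRingEnd ℂ) (cf (p, n1, n2, k1, k2)))
    (l : Lbl V) : P0of ep cf l.conj = (starRingEnd ℂ) (P0of ep cf l) := by
  classical
  unfold P0of push
  rw [map_mul, Complex.conj_ofReal, Complex.conj_tsum]
  congr 1
  rw [← (negK (V := V)).tsum_eq]
  refine tsum_congr fun x => ?_
  rw [lblOf_negK]
  by_cases hx : lblOf x = l
  · rw [if_pos (by rw [hx]), if_pos hx]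
    exact h x.1 x.2.1 x.2.2.1 x.2.2.2.1 x.2.2.2.2
  · rw [if_neg (fun h' => hx (Lbl_conj_inj.1 h')), if_neg hx, map_zero]

theorem P0of_norm (G : Geo V) (rho sg kp : ℝ) (v : V → ℝ) (ep : ℝ) (hep : 0 ≤ ep)
    (cf : (V × V) × ℕ × ℕ × ℤ × ℤ → ℂ) (Kc : ℝ) (hK : 0 ≤ Kc) (hrho : 0 < rho)
    (hv : ∀ j, 0 ≤ v j)
    (h : ∑' x, ‖cf x‖ₑ * ENNReal.ofReal (Wl G rho sg kp v (lblOf x)) ≤ ENNReal.ofReal Kc) :
    ∑' l, ENNReal.ofReal (‖P0of ep cf l‖ * Wl G rho sg kp v l) ≤ ENNReal.ofReal (ep * Kc) := by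
  have h1 : ∀ l, ENNReal.ofReal (‖P0of ep cf l‖ * Wl G rho sg kp v l) =
      ENNReal.ofReal ep * (‖push lblOf cf l‖ₑ * ENNReal.ofReal (Wl G rho sg kp v l)) := by
    intro l
    unfold P0of
    rw [norm_mul, ENNReal.ofReal_mul (by positivity), ENNReal.ofReal_mul (by positivity),
      Complex.norm_real, Real.norm_of_nonneg hep, ofReal_norm, mul_assoc]
  simp only [h1]
  rw [ENNReal.tsum_mul_left, ENNReal.ofReal_mul hep]
  gcongr
  exact (nr_push_le (fun l => ENNReal.ofReal (Wl G rho sg kp v l)) lblOf cf).trans h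

end KX
end

section

/-!
# Weighted norm of the initial perturbation

For `i ≠ j` and `x = nd i j`: by symmetry let `a j ≤ a i` (the other case is the same):
`ainv {i,j} ≤ 1 / a j` (as `a ≤ 1`), `(a i + a j)^2 / a j ≤ 4 a i (a i / a j) ≤ 4 a i (K1 (1+x))^M`,
`v i v j ≤ (br i)^(2b) (1+x)^b` and `a j (br j)^(2b)` is summable; the sums over `n1, n2, k1, k2`
are geometric (factor `2` each for `n`; for `k` from `sg ≤ s'/2`), `Lam {i,j} = 2 x` (`tour_pair`),
`e^{kp 2x - m' x} ≤ e^{-3m'x/4}` kills the powers of `1+x`, and `∑_j e^{-c nd i j} < ∞` uniformly in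
`i` (`Sd_le` after translation).
-/

set_option autoImplicit false

namespace KX

open scoped ENNReal

/-- powers are dominated by exponentials -/
private theorem ec_pow_le (p c : ℝ) (hc : 0 < c) :
    ∃ B : ℝ, 0 ≤ B ∧ ∀ x : ℝ, 0 ≤ x → (1 + x) ^ p ≤ B * Real.exp (c * x) := by
  obtain ⟨n, hn⟩ := exists_nat_ge p
  refine ⟨n.factorial * (c ^ n)⁻¹ * Real.exp c, by positivity, fun x hx => ?_⟩
  have h1 : (1 + x) ^ p ≤ (1 + x) ^ (n : ℝ) :=
    Real.rpow_le_rpow_of_exponent_le (by linarith) hn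
  rw [Real.rpow_natCast] at h1
  refine h1.trans ?_
  have h2 := Real.pow_div_factorial_le_exp (x := c * (1 + x)) (by positivity) n
  rw [div_le_iff₀ (by positivity), mul_pow] at h2
  have h3 : (1 + x) ^ n = (c ^ n)⁻¹ * (c ^ n * (1 + x) ^ n) := by
    rw [inv_mul_cancel_left₀ (by positivity)]
  rw [h3]
  calc (c ^ n)⁻¹ * (c ^ n * (1 + x) ^ n) ≤
      (c ^ n)⁻¹ * (Real.exp (c * (1 + x)) * n.factorial) :=
        mul_le_mul_of_nonneg_left h2 (by positivity)
    _ = n.factorial * (c ^ n)⁻¹ * Real.exp c * Real.exp (c * x) := by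
        rw [mul_add, mul_one, Real.exp_add]
        ring

private theorem ec_kap (c : ℝ) (hc : 0 < c) :
    ∑' k : ℤ, ENNReal.ofReal (Real.exp (-(c * |(k : ℝ)|))) ≠ ∞ := by
  have hg : Summable fun n : ℕ => Real.exp (-(c * (n : ℝ))) := by
    have h1 : (fun n : ℕ => Real.exp (-(c * (n : ℝ)))) = fun n : ℕ => Real.exp (-c) ^ n := by
      funext n
      rw [← Real.exp_nat_mul]
      congr 1
      ring
    rw [h1]
    exact summable_geometric_of_lt_one (Real.exp_pos _).le (by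
      rw [← Real.exp_zero]
      exact Real.exp_lt_exp.2 (by linarith))
  have hs : Summable fun k : ℤ => Real.exp (-(c * |(k : ℝ)|)) := by
    rw [summable_int_iff_summable_nat_and_neg]
    constructor
    · refine hg.congr fun n => ?_
      simp
    · refine hg.congr fun n => ?_
      simp
  rw [← ENNReal.ofReal_tsum_of_nonneg (fun k => (Real.exp_pos _).le) hs]
  exact ENNReal.ofReal_ne_top

private theorem ec_half : ∑' n : ℕ, ENNReal.ofReal ((1 / 2 : ℝ) ^ n) ≠ ∞ := by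
  rw [← ENNReal.ofReal_tsum_of_nonneg (fun n => by positivity)
    (summable_geometric_of_lt_one (by norm_num) (by norm_num))]
  exact ENNReal.ofReal_ne_top

private theorem ec_Sd {d : ℕ} (i : Fin d → ℤ) (δ : ℝ) :
    ∑' j : Fin d → ℤ, ENNReal.ofReal (Real.exp (-δ * nd i j)) = Sd d δ := by
  rw [Sd, ← (Equiv.addRight i).tsum_eq (fun j => ENNReal.ofReal (Real.exp (-δ * nd i j)))]
  refine tsum_congr fun x => ?_
  have h1 : nd i ((Equiv.addRight i) x) = nd x 0 := by
    rw [nd_comm]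
    simp [nd]
  rw [h1]

/-- the real inequality for the weights of sites -/
private theorem ec_site (ai aj Q : ℝ) (hi : 0 < ai) (hj : 0 < aj) (hQ : 1 ≤ Q)
    (h1 : ai ≤ aj * Q) (h2 : aj ≤ ai * Q) :
    (ai + aj) ^ 2 * (ai⁻¹ + aj⁻¹) ≤ 8 * Q ^ 3 * ai := by
  have h3 : (ai + aj) ^ 2 * (ai⁻¹ + aj⁻¹) = (ai + aj) ^ 3 / (ai * aj) := by
    field_simp
    ring
  rw [h3, div_le_iff₀ (by positivity)]
  have h4 : ai + aj ≤ 2 * Q * ai := by nlinarith
  have h5 : ai + aj ≤ 2 * Q * aj := by nlinarith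
  have h6 : 0 ≤ ai + aj := by positivity
  calc (ai + aj) ^ 3 = (ai + aj) * (ai + aj) * (ai + aj) := by ring
    _ ≤ (2 * Q * ai) * (2 * Q * aj) * (2 * Q * ai) := by gcongr
    _ = 8 * Q ^ 3 * ai * (ai * aj) := by ring

private theorem ec_ainv {d : ℕ} (a : (Fin d → ℤ) → ℝ) (ha0 : ∀ j, 0 < a j)
    (ha1 : ∀ j, a j ≤ 1) (i j : Fin d → ℤ) (hij : i ≠ j) :
    (geoZ d a ha0 ha1).ainv {i, j} ≤ (a i)⁻¹ + (a j)⁻¹ := by
  have h1 : (geoZ d a ha0 ha1).ainv {i, j} = max (a i)⁻¹ (max (a j)⁻¹ 1) := by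
    rw [Geo.ainv, Finset.fold_insert (by simpa using hij), Finset.fold_singleton]
    rfl
  rw [h1]
  have h2 : 0 < (a i)⁻¹ := inv_pos.2 (ha0 i)
  have h3 : 0 < (a j)⁻¹ := inv_pos.2 (ha0 j)
  have h4 : 1 ≤ (a j)⁻¹ := (one_le_inv₀ (ha0 j)).2 (ha1 j)
  exact max_le (by linarith) (max_le (by linarith) (by linarith))

private theorem ec_sum {V : Type} (A : V → ℝ≥0∞) (Bf : V → V → ℝ≥0∞) (h : ℕ → ℝ≥0∞) (kf : ℤ → ℝ≥0∞)
    (S2 : ℝ≥0∞) (hB : ∀ i, ∑' j, Bf i j ≤ S2) :
    ∑' x : (V × V) × ℕ × ℕ × ℤ × ℤ, (A x.1.1 * Bf x.1.1 x.1.2) * (h x.2.1 * (h x.2.2.1 *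
      (kf x.2.2.2.1 * kf x.2.2.2.2))) ≤
    (∑' i, A i) * S2 * ((∑' n, h n) * ((∑' n, h n) * ((∑' k, kf k) * (∑' k, kf k)))) := by
  rw [ENNReal.tsum_prod', ENNReal.tsum_prod']
  have e1 : ∀ i j : V, ∑' y : ℕ × ℕ × ℤ × ℤ, (A i * Bf i j) * (h y.1 * (h y.2.1 *
      (kf y.2.2.1 * kf y.2.2.2))) = (A i * Bf i j) * ((∑' n, h n) * ((∑' n, h n) *
        ((∑' k, kf k) * (∑' k, kf k)))) := by
    intro i j
    rw [ENNReal.tsum_mul_left, ENNReal.tsum_prod']
    congr 1
    simp only [ENNReal.tsum_mul_left, ENNReal.tsum_prod', ENNReal.tsum_mul_right]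
  simp only [e1, ENNReal.tsum_mul_right, ENNReal.tsum_mul_left]
  refine mul_le_mul_left ?_ _
  rw [← ENNReal.tsum_mul_right]
  exact ENNReal.tsum_le_tsum fun i => mul_le_mul_right (hB i) _

private theorem ec_alg (C em A2 R ai aj rho w1 w2 es u1 u2 ek AI VV : ℝ) (n1 n2 : ℕ)
    (hi : ai ≠ 0) (hj : aj ≠ 0) :
    C * em * A2 / ((R * ai) ^ n1 * (R * aj) ^ n2) * (w1 * w2) *
      (rho ^ (n1 + n2) * (ai ^ n1 * aj ^ n2) * (es ^ n1 * es ^ n2 * u1 * u2 * ek) * AI * VV) =
    C * ((A2 * AI * VV * (em * ek)) * ((rho * es / R) ^ n1 * ((rho * es / R) ^ n2 *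
      ((w1 * u1) * (w2 * u2))))) := by
  rw [pow_add, mul_pow, mul_pow, div_pow, div_pow, mul_pow, mul_pow]
  have e3 : ai ^ n1 * (ai ^ n1)⁻¹ = 1 := mul_inv_cancel₀ (pow_ne_zero _ hi)
  have e4 : aj ^ n2 * (aj ^ n2)⁻¹ = 1 := mul_inv_cancel₀ (pow_ne_zero _ hj)
  rw [div_eq_mul_inv, div_eq_mul_inv, div_eq_mul_inv, mul_inv, mul_inv, mul_inv]
  generalize (R ^ n1)⁻¹ = R1 at *
  generalize (R ^ n2)⁻¹ = R2 at *
  generalize (ai ^ n1)⁻¹ = A1' at *
  generalize (aj ^ n2)⁻¹ = B2' at *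
  generalize ai ^ n1 = A1 at *
  generalize aj ^ n2 = B2 at *
  generalize rho ^ n1 = r1 at *
  generalize rho ^ n2 = r2 at *
  generalize es ^ n1 = s1 at *
  generalize es ^ n2 = s2 at *
  calc _ = (C * em * A2 * R1 * R2 * w1 * w2 * r1 * r2 * s1 * s2 * u1 * u2 * ek * AI * VV) *
        (A1 * A1') * (B2 * B2') := by ring
    _ = _ := by rw [e3, e4]; ring

private theorem ec_Wl {d : ℕ} (a : (Fin d → ℤ) → ℝ) (ha0 : ∀ j, 0 < a j)
    (ha1 : ∀ j, a j ≤ 1) (rho sg kp : ℝ) (v : (Fin d → ℤ) → ℝ) (i j : Fin d → ℤ) (hij : i ≠ j)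
    (n1 n2 : ℕ) (k1 k2 : ℤ) :
    Wl (geoZ d a ha0 ha1) rho sg kp v (lblOf ((i, j), n1, n2, k1, k2)) =
      rho ^ (n1 + n2) * (a i ^ n1 * a j ^ n2) *
        Real.exp (sg * ((n1 + n2 : ℝ) + (|(k1 : ℝ)| + |(k2 : ℝ)|)) + kp * (2 * nd i j)) *
        (geoZ d a ha0 ha1).ainv {i, j} * (v i * v j) := by
  have e1 : dgr (lblOf ((i, j), n1, n2, k1, k2)).n = n1 + n2 := by
    change (Finsupp.single i n1 + Finsupp.single j n2).sum (fun _ x => x) = _
    rw [Finsupp.sum_add_index' (fun _ => rfl) (fun _ _ _ => rfl), Finsupp.sum_single_index rfl,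
      Finsupp.sum_single_index rfl]
  have e2 : amon (geoZ d a ha0 ha1) (lblOf ((i, j), n1, n2, k1, k2)).n = a i ^ n1 * a j ^ n2 := by
    change (Finsupp.single i n1 + Finsupp.single j n2).prod (fun j x => a j ^ x) = _
    rw [Finsupp.prod_add_index' (fun _ => pow_zero _) (fun _ _ _ => pow_add _ _ _),
      Finsupp.prod_single_index (h := fun j x => a j ^ x) (pow_zero _),
      Finsupp.prod_single_index (h := fun j x => a j ^ x) (pow_zero _)]
  have e3 : kab (lblOf ((i, j), n1, n2, k1, k2)).k = k1.natAbs + k2.natAbs := by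
    change (Finsupp.single i k1 + Finsupp.single j k2).sum (fun _ x => x.natAbs) = _
    rw [Finsupp.sum_add_index_of_disjoint, Finsupp.sum_single_index rfl,
      Finsupp.sum_single_index rfl]
    refine Finset.disjoint_of_subset_left Finsupp.support_single_subset
      (Finset.disjoint_of_subset_right Finsupp.support_single_subset ?_)
    simpa using hij
  have e4 : (((lblOf ((i, j), n1, n2, k1, k2)).N : ℕ) : ℝ) =
      (n1 + n2 : ℝ) + (|(k1 : ℝ)| + |(k2 : ℝ)|) := by
    rw [Lbl.N, e1, e3]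
    push_cast
    rw [Nat.cast_natAbs, Nat.cast_natAbs, Int.cast_abs, Int.cast_abs]
  have e5 : (((geoZ d a ha0 ha1).Lam (lblOf ((i, j), n1, n2, k1, k2)).A : ℕ) : ℝ) =
      2 * nd i j := by
    change ((tour {i, j} : ℕ) : ℝ) = _
    rw [tour_pair]
    push_cast
    rfl
  have e6 : ∏ l ∈ (lblOf ((i, j), n1, n2, k1, k2)).A, v l = v i * v j :=
    Finset.prod_pair hij
  rw [Wl, e1, e2, e4, e5, e6]
  rfl

theorem embed_norm (d : ℕ) (hd : 1 ≤ d) (a : (Fin d → ℤ) → ℝ) (ha0 : ∀ j, 0 < a j)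
    (ha1 : ∀ j, a j ≤ 1) (M b K1 m' R rho sg kp s' : ℝ) (hM : 0 ≤ M) (hb : 0 ≤ b) (hK1 : 1 ≤ K1)
    (hm : 0 < m') (hR : 0 < R) (hrho : 0 < rho) (hs' : 0 < s') (hsg : 0 ≤ sg) (hkp : 0 ≤ kp)
    (ha : ∀ i j, a i ≤ a j * (K1 * (1 + nd i j)) ^ M)
    (hsum : Summable fun j => a j * (brz j) ^ (2 * b))
    (h1 : rho * Real.exp sg ≤ R / 2) (h2 : sg ≤ s' / 2) (h3 : kp ≤ m' / 8)
    (v : (Fin d → ℤ) → ℝ) (hv0 : ∀ j, 0 ≤ v j) (hv : ∀ j, v j ≤ brz j ^ b) :
    ∃ Kc : ℝ, 0 ≤ Kc ∧ ∀ (C : ℝ) (cf : ((Fin d → ℤ) × (Fin d → ℤ)) × ℕ × ℕ × ℤ × ℤ → ℂ), 0 ≤ C →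
      (∀ i y, cf ((i, i), y) = 0) →
      (∀ i j n1 n2 k1 k2, ‖cf ((i, j), n1, n2, k1, k2)‖ ≤ C * Real.exp (-m' * nd i j) *
        (a i + a j) ^ 2 / ((R * a i) ^ n1 * (R * a j) ^ n2) *
        Real.exp (-s' * (|(k1 : ℝ)| + |(k2 : ℝ)|))) →
      ∑' x, ‖cf x‖ₑ * ENNReal.ofReal (Wl (geoZ d a ha0 ha1) rho sg kp v (lblOf x)) ≤
        ENNReal.ofReal (C * Kc) := by
  obtain ⟨B, hB0, hB⟩ := ec_pow_le (3 * M + b) (m' / 4) (by positivity)
  set δ : ℝ := min (m' / 2) 1 with hδ
  have hδ0 : 0 < δ := lt_min (by positivity) one_pos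
  have hbr0 : ∀ j : Fin d → ℤ, 1 ≤ brz j := fun j => by
    unfold brz; linarith [Nat.cast_nonneg (α := ℝ) (nd j 0)]
  -- the constant
  set K2 : ℝ := 8 * K1 ^ (3 * M) * B with hK2
  have hK20 : 0 ≤ K2 := by
    have : 0 ≤ K1 ^ (3 * M) := Real.rpow_nonneg (by linarith) _
    positivity
  set S1 : ℝ≥0∞ := ∑' i : Fin d → ℤ, ENNReal.ofReal (K2 * (a i * brz i ^ (2 * b))) with hS1
  set S2 : ℝ≥0∞ := Sd d δ with hS2
  set S3 : ℝ≥0∞ := ∑' n : ℕ, ENNReal.ofReal ((1 / 2 : ℝ) ^ n) with hS3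
  set S4 : ℝ≥0∞ := ∑' k : ℤ, ENNReal.ofReal (Real.exp (-(s' / 2 * |(k : ℝ)|))) with hS4
  have hS1f : S1 ≠ ∞ := by
    rw [hS1, ← ENNReal.ofReal_tsum_of_nonneg (fun i => ?_) (hsum.mul_left K2)]
    · exact ENNReal.ofReal_ne_top
    · have := ha0 i
      have h5 : 0 ≤ brz i ^ (2 * b) := Real.rpow_nonneg (by linarith [hbr0 i]) _
      positivity
  have hS2f : S2 ≠ ∞ := ne_top_of_le_ne_top ENNReal.ofReal_ne_top
    (Sd_le hd δ hδ0 (min_le_right _ _))
  have hS3f : S3 ≠ ∞ := ec_half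
  have hS4f : S4 ≠ ∞ := ec_kap _ (by positivity)
  set T : ℝ≥0∞ := S1 * S2 * (S3 * (S3 * (S4 * S4))) with hT
  have hTf : T ≠ ∞ := ENNReal.mul_ne_top (ENNReal.mul_ne_top hS1f hS2f)
    (ENNReal.mul_ne_top hS3f (ENNReal.mul_ne_top hS3f (ENNReal.mul_ne_top hS4f hS4f)))
  refine ⟨T.toReal, ENNReal.toReal_nonneg, ?_⟩
  intro C cf hC hcf0 hcf
  rw [ENNReal.ofReal_mul hC, ENNReal.ofReal_toReal hTf]
  -- pointwise bound
  have hpt : ∀ x : ((Fin d → ℤ) × (Fin d → ℤ)) × ℕ × ℕ × ℤ × ℤ,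
      ‖cf x‖ₑ * ENNReal.ofReal (Wl (geoZ d a ha0 ha1) rho sg kp v (lblOf x)) ≤
      ENNReal.ofReal C * ((ENNReal.ofReal (K2 * (a x.1.1 * brz x.1.1 ^ (2 * b))) *
        ENNReal.ofReal (Real.exp (-δ * nd x.1.1 x.1.2))) *
        (ENNReal.ofReal ((1 / 2 : ℝ) ^ x.2.1) * (ENNReal.ofReal ((1 / 2 : ℝ) ^ x.2.2.1) *
          (ENNReal.ofReal (Real.exp (-(s' / 2 * |(x.2.2.2.1 : ℝ)|))) *
            ENNReal.ofReal (Real.exp (-(s' / 2 * |(x.2.2.2.2 : ℝ)|))))))) := by
    rintro ⟨⟨i, j⟩, n1, n2, k1, k2⟩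
    by_cases hij : i = j
    · subst hij
      rw [hcf0, enorm_zero, zero_mul]
      exact bot_le
    have hai := ha0 i
    have haj := ha0 j
    have hbi := hbr0 i
    have hbj := hbr0 j
    have hbi0 : 0 ≤ brz i ^ (2 * b) := Real.rpow_nonneg (by linarith) _
    have hx0 : (0 : ℝ) ≤ (nd i j : ℝ) := Nat.cast_nonneg _
    have hY : 0 ≤ a i * brz i ^ (2 * b) := by positivity
    rw [← ofReal_norm, ← ENNReal.ofReal_mul (norm_nonneg _),
      ← ENNReal.ofReal_mul (by positivity), ← ENNReal.ofReal_mul (by positivity),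
      ← ENNReal.ofReal_mul (by positivity), ← ENNReal.ofReal_mul (by positivity),
      ← ENNReal.ofReal_mul (by positivity), ← ENNReal.ofReal_mul hC]
    apply ENNReal.ofReal_le_ofReal
    simp only
    rw [ec_Wl a ha0 ha1 rho sg kp v i j hij n1 n2 k1 k2]
    have hainv := ec_ainv a ha0 ha1 i j hij
    have hainv0 : 0 ≤ (geoZ d a ha0 ha1).ainv {i, j} :=
      zero_le_one.trans (by
        have h7 : (geoZ d a ha0 ha1).ainv {i, j} = max (a i)⁻¹ (max (a j)⁻¹ 1) := by
          rw [Geo.ainv, Finset.fold_insert (by simpa using hij), Finset.fold_singleton]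
          rfl
        rw [h7]
        exact (le_max_right _ _).trans (le_max_right _ _))
    -- the site factor
    set X : ℝ := (nd i j : ℝ) with hX
    set Q : ℝ := (K1 * (1 + X)) ^ M with hQ
    have hQ1 : 1 ≤ Q := Real.one_le_rpow (by nlinarith) hM
    have hji : a j ≤ a i * Q := by
      have := ha j i
      rwa [nd_comm j i] at this
    have hsite := ec_site (a i) (a j) Q hai haj hQ1 (ha i j) hji
    have hQ3 : Q ^ 3 = K1 ^ (3 * M) * (1 + X) ^ (3 * M) := by
      rw [hQ, ← Real.rpow_natCast, ← Real.rpow_mul (by positivity),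
        Real.mul_rpow (by linarith) (by positivity)]
      norm_num
      rw [mul_comm M 3]
    have hvj : v j ≤ brz i ^ b * (1 + X) ^ b := by
      refine (hv j).trans ?_
      rw [← Real.mul_rpow (by linarith) (by positivity)]
      refine Real.rpow_le_rpow (by linarith) ?_ hb
      have h7 : (nd j 0 : ℝ) ≤ nd j i + nd i 0 := by exact_mod_cast nd_triangle j i 0
      have h8 : (nd j i : ℝ) = X := by rw [nd_comm j i]
      unfold brz
      have h9 : (0 : ℝ) ≤ (nd i 0 : ℝ) := Nat.cast_nonneg _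
      nlinarith
    have hvv : v i * v j ≤ brz i ^ (2 * b) * (1 + X) ^ b := by
      calc v i * v j ≤ brz i ^ b * (brz i ^ b * (1 + X) ^ b) :=
            mul_le_mul (hv i) hvj (hv0 j) (Real.rpow_nonneg (by linarith) _)
        _ = _ := by
            rw [two_mul, Real.rpow_add (by linarith), mul_assoc]
    have hfac : (a i + a j) ^ 2 * (geoZ d a ha0 ha1).ainv {i, j} * (v i * v j) *
        Real.exp (-m' * X + 2 * kp * X) ≤ K2 * (a i * brz i ^ (2 * b)) * Real.exp (-δ * X) := by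
      have h7 : (a i + a j) ^ 2 * (geoZ d a ha0 ha1).ainv {i, j} ≤ 8 * Q ^ 3 * a i :=
        (mul_le_mul_of_nonneg_left hainv (by positivity)).trans hsite
      have h8 : (a i + a j) ^ 2 * (geoZ d a ha0 ha1).ainv {i, j} * (v i * v j) ≤
          (8 * Q ^ 3 * a i) * (brz i ^ (2 * b) * (1 + X) ^ b) :=
        mul_le_mul h7 hvv (mul_nonneg (hv0 i) (hv0 j)) (by positivity)
      have h9 : Real.exp (-m' * X + 2 * kp * X) ≤
          Real.exp (-(m' / 4 * X)) * Real.exp (-δ * X) := by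
        rw [← Real.exp_add]
        apply Real.exp_le_exp.2
        have h10 : δ ≤ m' / 2 := min_le_left _ _
        nlinarith
      have h10 : (1 + X) ^ (3 * M) * (1 + X) ^ b ≤ B * Real.exp (m' / 4 * X) := by
        rw [← Real.rpow_add (by positivity)]
        exact hB X hx0
      have h11 : 0 ≤ K1 ^ (3 * M) := Real.rpow_nonneg (by linarith) _
      calc (a i + a j) ^ 2 * (geoZ d a ha0 ha1).ainv {i, j} * (v i * v j) *
            Real.exp (-m' * X + 2 * kp * X)
          ≤ ((8 * Q ^ 3 * a i) * (brz i ^ (2 * b) * (1 + X) ^ b)) *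
            (Real.exp (-(m' / 4 * X)) * Real.exp (-δ * X)) :=
            mul_le_mul h8 h9 (Real.exp_pos _).le (by positivity)
        _ = (8 * K1 ^ (3 * M) * (a i * brz i ^ (2 * b)) * Real.exp (-δ * X)) *
            (((1 + X) ^ (3 * M) * (1 + X) ^ b) * Real.exp (-(m' / 4 * X))) := by
            rw [hQ3]; ring
        _ ≤ (8 * K1 ^ (3 * M) * (a i * brz i ^ (2 * b)) * Real.exp (-δ * X)) *
            ((B * Real.exp (m' / 4 * X)) * Real.exp (-(m' / 4 * X))) := by
            gcongr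
        _ = K2 * (a i * brz i ^ (2 * b)) * Real.exp (-δ * X) := by
            rw [mul_assoc B, ← Real.exp_add, add_neg_cancel, Real.exp_zero, mul_one, hK2]
            ring
    -- geometric factors
    set q : ℝ := rho * Real.exp sg / R with hq
    have hq0 : 0 ≤ q := by positivity
    have hq1 : q ≤ 1 / 2 := by
      rw [hq, div_le_iff₀ hR]
      linarith
    have hqn : ∀ n : ℕ, q ^ n ≤ (1 / 2 : ℝ) ^ n := fun n => pow_le_pow_left₀ hq0 hq1 n
    have hkk : ∀ k : ℤ, Real.exp (-(s' - sg) * |(k : ℝ)|) ≤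
        Real.exp (-(s' / 2 * |(k : ℝ)|)) := by
      intro k
      apply Real.exp_le_exp.2
      nlinarith [abs_nonneg (k : ℝ)]
    have hcfx := hcf i j n1 n2 k1 k2
    have hWn : 0 ≤ rho ^ (n1 + n2) * (a i ^ n1 * a j ^ n2) *
        Real.exp (sg * ((n1 + n2 : ℝ) + (|(k1 : ℝ)| + |(k2 : ℝ)|)) + kp * (2 * X)) *
        (geoZ d a ha0 ha1).ainv {i, j} * (v i * v j) := by
      have := hv0 i
      have := hv0 j
      positivity
    refine (mul_le_mul_of_nonneg_right hcfx hWn).trans ?_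
    have hexp : Real.exp (sg * ((n1 + n2 : ℝ) + (|(k1 : ℝ)| + |(k2 : ℝ)|)) + kp * (2 * X)) =
        Real.exp sg ^ n1 * Real.exp sg ^ n2 * Real.exp (sg * |(k1 : ℝ)|) *
          Real.exp (sg * |(k2 : ℝ)|) * Real.exp (2 * kp * X) := by
      rw [← Real.exp_nat_mul, ← Real.exp_nat_mul, ← Real.exp_add, ← Real.exp_add,
        ← Real.exp_add, ← Real.exp_add]
      congr 1
      ring
    have hexp2 : Real.exp (-s' * (|(k1 : ℝ)| + |(k2 : ℝ)|)) =
        Real.exp (-s' * |(k1 : ℝ)|) * Real.exp (-s' * |(k2 : ℝ)|) := by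
      rw [← Real.exp_add]
      congr 1
      ring
    have hk1 : ∀ k : ℤ, Real.exp (-s' * |(k : ℝ)|) * Real.exp (sg * |(k : ℝ)|) =
        Real.exp (-(s' - sg) * |(k : ℝ)|) := by
      intro k
      rw [← Real.exp_add]
      congr 1
      ring
    have hmm : Real.exp (-m' * X) * Real.exp (2 * kp * X) =
        Real.exp (-m' * X + 2 * kp * X) := by
      rw [← Real.exp_add]
    have hmain : C * Real.exp (-m' * X) * (a i + a j) ^ 2 /
          ((R * a i) ^ n1 * (R * a j) ^ n2) * Real.exp (-s' * (|(k1 : ℝ)| + |(k2 : ℝ)|)) *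
        (rho ^ (n1 + n2) * (a i ^ n1 * a j ^ n2) *
        Real.exp (sg * ((n1 + n2 : ℝ) + (|(k1 : ℝ)| + |(k2 : ℝ)|)) + kp * (2 * X)) *
        (geoZ d a ha0 ha1).ainv {i, j} * (v i * v j)) =
        C * (((a i + a j) ^ 2 * (geoZ d a ha0 ha1).ainv {i, j} * (v i * v j) *
          Real.exp (-m' * X + 2 * kp * X)) *
          (q ^ n1 * (q ^ n2 * (Real.exp (-(s' - sg) * |(k1 : ℝ)|) *
            Real.exp (-(s' - sg) * |(k2 : ℝ)|))))) := by
      rw [hexp, hexp2, ← hk1 k1, ← hk1 k2, ← hmm, hq]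
      exact ec_alg C _ _ R (a i) (a j) rho _ _ _ _ _ _ _ _ n1 n2 hai.ne' haj.ne'
    rw [hmain]
    have hv0i := hv0 i
    have hv0j := hv0 j
    refine mul_le_mul_of_nonneg_left ?_ hC
    refine mul_le_mul hfac ?_ (by positivity) (by positivity)
    refine mul_le_mul (hqn n1) ?_ (by positivity) (by positivity)
    refine mul_le_mul (hqn n2) ?_ (by positivity) (by positivity)
    exact mul_le_mul (hkk k1) (hkk k2) (by positivity) (by positivity)
  refine (ENNReal.tsum_le_tsum hpt).trans ?_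
  rw [ENNReal.tsum_mul_left]
  refine mul_le_mul_right ?_ _
  exact ec_sum (fun i => ENNReal.ofReal (K2 * (a i * brz i ^ (2 * b))))
    (fun i j => ENNReal.ofReal (Real.exp (-δ * nd i j)))
    (fun n => ENNReal.ofReal ((1 / 2 : ℝ) ^ n))
    (fun k => ENNReal.ofReal (Real.exp (-(s' / 2 * |(k : ℝ)|)))) S2
    (fun i => (ec_Sd i δ).le)

end KX
end

section

/-!
# From the torus functions to an invariant torus of the model
-/

set_option autoImplicit false

namespace KX

open scoped ENNReal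

open KamLattice

variable {d : ℕ}

/-- the expansion data of the interactions at the actions `cs * a j` (output of `expand_main`) -/
structure Exd (f : Site d → Site d → ℂ × ℂ × ℂ × ℂ → ℂ) (a : Site d → ℝ) (cs R : ℝ)
    (cf : (Site d × Site d) × ℕ × ℕ × ℤ × ℤ → ℂ) : Prop where
  diag : ∀ i y, cf ((i, i), y) = 0
  act1 : ∀ i j, i ≠ j → ∀ x y φ ψ : ℝ, |x| < R * a i → |y| < R * a j →
    HasSum (fun b : ℕ × ℕ × ℤ × ℤ => (b.1 : ℂ) * cf ((i, j), b) * (x : ℂ) ^ (b.1 - 1) *
      (y : ℂ) ^ b.2.1 * Complex.exp (Complex.I * (b.2.2.1 * φ + b.2.2.2 * ψ)))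
      (deriv (fun z : ℂ => f i j (z, (cs * a j + y : ℝ), φ, ψ)) (cs * a i + x : ℝ))
  act2 : ∀ i j, i ≠ j → ∀ x y φ ψ : ℝ, |x| < R * a i → |y| < R * a j →
    HasSum (fun b : ℕ × ℕ × ℤ × ℤ => (b.2.1 : ℂ) * cf ((i, j), b) * (x : ℂ) ^ b.1 *
      (y : ℂ) ^ (b.2.1 - 1) * Complex.exp (Complex.I * (b.2.2.1 * φ + b.2.2.2 * ψ)))
      (deriv (fun z : ℂ => f i j ((cs * a i + x : ℝ), z, φ, ψ)) (cs * a j + y : ℝ))
  ang1 : ∀ i j, i ≠ j → ∀ x y φ ψ : ℝ, |x| < R * a i → |y| < R * a j →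
    HasSum (fun b : ℕ × ℕ × ℤ × ℤ => Complex.I * (b.2.2.1 : ℂ) *
      term4 (fun b => cf ((i, j), b)) x y φ ψ b)
      (deriv (fun z : ℂ => f i j ((cs * a i + x : ℝ), (cs * a j + y : ℝ), z, ψ)) φ)
  ang2 : ∀ i j, i ≠ j → ∀ x y φ ψ : ℝ, |x| < R * a i → |y| < R * a j →
    HasSum (fun b : ℕ × ℕ × ℤ × ℤ => Complex.I * (b.2.2.2 : ℂ) *
      term4 (fun b => cf ((i, j), b)) x y φ ψ b)
      (deriv (fun z : ℂ => f i j ((cs * a i + x : ℝ), (cs * a j + y : ℝ), φ, z)) ψ)

/-- Fubini for a push-forward -/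
theorem tsum_push_dyna {ι M : Type} (T : ι → M) (u : ι → ℂ) (c : M → ℂ)
    (h : Summable fun i => c (T i) * u i) :
    Summable (fun m => c m * push T u m) ∧
    ∑' m, c m * push T u m = ∑' i, c (T i) * u i := by
  classical
  let F : M × ι → ℂ := fun p => if T p.2 = p.1 then c p.1 * u p.2 else 0
  have hinj : Function.Injective (fun i : ι => (T i, i)) := fun a b hab => (Prod.ext_iff.1 hab).2
  have hF0 : ∀ p, p ∉ Set.range (fun i : ι => (T i, i)) → F p = 0 := by
    rintro ⟨m, i⟩ hp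
    have : T i ≠ m := fun hh => hp ⟨i, by simp [hh]⟩
    simp [F, this]
  have hcomp : (F ∘ fun i : ι => (T i, i)) = fun i => c (T i) * u i := by
    funext i; simp [F]
  have hFs : Summable F := by
    rw [← hinj.summable_iff hF0, hcomp]; exact h
  have hin : ∀ m, ∑' i, F (m, i) = c m * push T u m := by
    intro m
    unfold push
    rw [← tsum_mul_left]
    refine tsum_congr fun i => ?_
    by_cases hh : T i = m <;> simp [F, hh]
  have h1 : Summable (fun m => ∑' i, F (m, i)) := hFs.prod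
  refine ⟨?_, ?_⟩
  · simpa only [hin] using h1
  · have h2 := hFs.tsum_prod
    have h3 : ∑' p, F p = ∑' i, c (T i) * u i := by
      rw [← hinj.tsum_eq (f := F)]
      · exact tsum_congr fun i => by simp [F]
      · intro p hp
        by_contra hc
        exact hp (hF0 p hc)
    rw [← h3, h2]
    exact (tsum_congr hin).symm

/-- grouping of a sum over the pairs containing `j` -/
theorem pair_sum_dyna {V B : Type} (g : (V × V) × B → ℂ) (hg : Summable g) (j : V)
    (D1 D2 : V → ℂ) [DecidableEq V]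
    (h0 : ∀ i l b, i ≠ j → l ≠ j → g ((i, l), b) = 0)
    (hd : ∀ b, g ((j, j), b) = 0)
    (h1 : ∀ l, l ≠ j → HasSum (fun b => g ((j, l), b)) (D1 l))
    (h2 : ∀ i, i ≠ j → HasSum (fun b => g ((i, j), b)) (D2 i)) :
    HasSum (fun i => if i = j then 0 else D1 i + D2 i) (∑' x, g x) := by
  let D : V × V → ℂ := fun p => ∑' b, g (p, b)
  have hDs : Summable D := hg.prod
  have hDt : ∑' x, g x = ∑' p, D p := hg.tsum_prod
  have hD1 : ∀ l, D (j, l) = if l = j then 0 else D1 l := by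
    intro l
    by_cases hl : l = j
    · subst hl; simp [D, hd]
    · simp only [hl, if_false]; exact (h1 l hl).tsum_eq
  have hD2 : ∀ i, D (i, j) = if i = j then 0 else D2 i := by
    intro i
    by_cases hi : i = j
    · subst hi; simp [D, hd]
    · simp only [hi, if_false]; exact (h2 i hi).tsum_eq
  have hD0 : ∀ i l, i ≠ j → l ≠ j → D (i, l) = 0 := by
    intro i l hi hl
    simp [D, h0 i l _ hi hl]
  let A : V × V → ℂ := ({p : V × V | p.1 = j}).indicator D
  let C : V × V → ℂ := ({p : V × V | p.1 = j}ᶜ).indicator D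
  have hA : Summable A := hDs.indicator _
  have hC : Summable C := hDs.indicator _
  have hAC : ∑' p, D p = ∑' p, A p + ∑' p, C p := by
    rw [← hA.tsum_add hC]
    exact tsum_congr fun p => by
      simp only [A, C]
      rw [Set.indicator_self_add_compl_apply]
  have i1 : Function.Injective (fun l : V => (j, l)) := fun a b hab => (Prod.ext_iff.1 hab).2
  have i2 : Function.Injective (fun i : V => (i, j)) := fun a b hab => (Prod.ext_iff.1 hab).1
  have hA1 : ∑' p, A p = ∑' l, D (j, l) := by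
    rw [← i1.tsum_eq (f := A)]
    · exact tsum_congr fun l => by simp [A]
    · rintro ⟨i, l⟩ hp
      have : i = j := by
        by_contra hc
        apply hp
        simp [A, hc]
      exact ⟨l, by simp [this]⟩
  have hC1 : ∑' p, C p = ∑' i, D (i, j) := by
    rw [← i2.tsum_eq (f := C)]
    · refine tsum_congr fun i => ?_
      by_cases hi : i = j
      · subst hi
        rw [hD1]; simp [C]
      · simp [C, hi]
    · rintro ⟨i, l⟩ hp
      have hi : i ≠ j := by
        intro hc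
        apply hp
        simp [C, hc]
      have : l = j := by
        by_contra hc
        apply hp
        simp [C, hi, hD0 i l hi hc]
      exact ⟨i, by simp [this]⟩
  have s1 : Summable fun l => D (j, l) := hDs.comp_injective i1
  have s2 : Summable fun i => D (i, j) := hDs.comp_injective i2
  have key := s1.hasSum.add s2.hasSum
  rw [hDt, hAC, hA1, hC1]
  convert key using 1
  funext i
  rw [hD1, hD2]
  by_cases hi : i = j <;> simp [hi]

/-- bound of the value of a monomial -/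
theorem norm_Mv_dyna {V : Type} (X E : V → ℂ) (a : V → ℝ) (rho : ℝ)
    (hX : ∀ j, ‖X j‖ ≤ rho * a j) (hE : ∀ j, ‖E j‖ = 1) (m : Mon V) :
    ‖Mv X E m‖ ≤ rho ^ dgr m.1 * amn a m.1 := by
  unfold Mv
  rw [norm_mul]
  have h1 : ‖m.2.prod fun j n => E j ^ n‖ = 1 := by
    unfold Finsupp.prod
    rw [norm_prod]
    exact Finset.prod_eq_one fun j _ => by rw [norm_zpow, hE, one_zpow]
  rw [h1, mul_one]
  unfold Finsupp.prod dgr amn Finsupp.sum Finsupp.prod
  rw [norm_prod, ← Finset.prod_pow_eq_pow_sum, ← Finset.prod_mul_distrib]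
  refine Finset.prod_le_prod (fun j _ => norm_nonneg _) fun j _ => ?_
  rw [norm_pow, ← mul_pow]
  exact pow_le_pow_left₀ (norm_nonneg _) (hX j) _

theorem natAbs_le_kab_dyna {V : Type} (k : V →₀ ℤ) (j : V) : (k j).natAbs ≤ kab k := by
  unfold kab Finsupp.sum
  by_cases hj : j ∈ k.support
  · exact Finset.single_le_sum (f := fun j => (k j).natAbs) (fun _ _ => Nat.zero_le _) hj
  · rw [Finsupp.notMem_support_iff.1 hj]; simp

theorem le_dgr_dyna {V : Type} (n : V →₀ ℕ) (j : V) : n j ≤ dgr n := by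
  unfold dgr Finsupp.sum
  by_cases hj : j ∈ n.support
  · exact Finset.single_le_sum (f := fun j => n j) (fun _ _ => Nat.zero_le _) hj
  · rw [Finsupp.notMem_support_iff.1 hj]; simp

/-- summability of a family bounded by the weights -/
theorem summable_wg_dyna {V : Type} [DecidableEq V] (G : Geo V) (rho s K : ℝ)
    {ι : Type} (T : ι → Mon V) (u : ι → ℂ)
    (hsum : ∑' x, ‖u x‖ₑ * wg G rho s (T x) ≠ ∞) (c : Mon V → ℂ)
    (hc : ∀ m, ‖c m‖ₑ ≤ ENNReal.ofReal K * wg G rho s m) :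
    Summable fun i => c (T i) * u i := by
  have h1 : ∑' i, ‖c (T i) * u i‖ₑ ≠ ∞ := by
    have h2 : ∑' i, ‖c (T i) * u i‖ₑ ≤ ENNReal.ofReal K * ∑' x, ‖u x‖ₑ * wg G rho s (T x) := by
      rw [← ENNReal.tsum_mul_left]
      refine ENNReal.tsum_le_tsum fun i => ?_
      rw [enorm_mul]
      calc ‖c (T i)‖ₑ * ‖u i‖ₑ ≤ (ENNReal.ofReal K * wg G rho s (T i)) * ‖u i‖ₑ := by
            gcongr; exact hc _
        _ = _ := by ring
    exact ne_top_of_le_ne_top (ENNReal.mul_ne_top ENNReal.ofReal_ne_top hsum) h2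
  have h3 : Summable fun i => ‖c (T i) * u i‖ := by
    have := ENNReal.summable_toReal h1
    simpa [toReal_enorm] using this
  exact h3.of_norm


theorem enorm_le_wg_dyna {V : Type} [DecidableEq V] (G : Geo V) (rho s K : ℝ) (hr : 0 < rho)
    (hs : 0 < s) (hK : 0 ≤ K) (m : Mon V) (z : ℂ)
    (hz : ‖z‖ ≤ K * NM m * (rho ^ dgr m.1 * amn G.a m.1) * G.ainv (spm m)) :
    ‖z‖ₑ ≤ ENNReal.ofReal (K / s) * wg G rho s m := by
  have ha : 0 ≤ amn G.a m.1 := by
    unfold amn Finsupp.prod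
    exact Finset.prod_nonneg fun j _ => pow_nonneg (G.a_pos j).le _
  have h1 : (1 : ℝ) ≤ G.ainv (spm m) := G.one_le_ainv _
  have h2 : (NM m : ℝ) ≤ 1 / s * Real.exp (s * NM m) := by
    have := Real.add_one_le_exp (s * (NM m : ℝ))
    rw [div_mul_eq_mul_div, one_mul, le_div_iff₀ hs]
    linarith
  unfold wg wm
  rw [← ENNReal.ofReal_mul (by positivity), ← ENNReal.ofReal_mul (by positivity),
    ← ofReal_norm]
  refine ENNReal.ofReal_le_ofReal (hz.trans ?_)
  calc K * NM m * (rho ^ dgr m.1 * amn G.a m.1) * G.ainv (spm m)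
      ≤ K * (1 / s * Real.exp (s * NM m)) * (rho ^ dgr m.1 * amn G.a m.1) * G.ainv (spm m) := by
        gcongr
    _ = _ := by ring

theorem Mv_monOf_dyna {V : Type} [DecidableEq V] (X φ : V → ℝ) (i l : V) (n1 n2 : ℕ) (k1 k2 : ℤ) :
    Mv (fun i => (X i : ℂ)) (fun i => Complex.exp (Complex.I * φ i))
      (monOf ((i, l), n1, n2, k1, k2)) =
    (X i : ℂ) ^ n1 * (X l : ℂ) ^ n2 * Complex.exp (Complex.I * (k1 * φ i + k2 * φ l)) := by
  unfold Mv monOf lblOf
  simp only
  rw [Finsupp.prod_add_index' (fun _ => pow_zero _) (fun _ _ _ => pow_add _ _ _),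
    Finsupp.prod_add_index' (fun _ => zpow_zero _)
      (fun _ _ _ => zpow_add₀ (Complex.exp_ne_zero _) _ _),
    Finsupp.prod_single_index (by simp), Finsupp.prod_single_index (by simp),
    Finsupp.prod_single_index (by simp), Finsupp.prod_single_index (by simp),
    ← Complex.exp_int_mul, ← Complex.exp_int_mul, ← Complex.exp_add]
  congr 2
  ring

/-- sum over all monomials = sum over the sites (angles). `hs` gives absolute convergence:
`|Mv| ≤ rho^|n| amn`, `|k_j| ≤ e^{s |k|} / s`. -/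
theorem sum_ang (f : Site d → Site d → ℂ × ℂ × ℂ × ℂ → ℂ) (a : Site d → ℝ) (ha0 : ∀ j, 0 < a j)
    (ha1 : ∀ j, a j ≤ 1) (cs R rho s : ℝ) (hr : 0 < rho) (hrR : rho < R) (hs : 0 < s)
    (cf : (Site d × Site d) × ℕ × ℕ × ℤ × ℤ → ℂ) (hx : Exd f a cs R cf)
    (hsum : ∑' x, ‖cf x‖ₑ * wg (geoZ d a ha0 ha1) rho s (monOf x) ≠ ∞)
    (X φ : Site d → ℝ) (hX : ∀ j, |X j| ≤ rho * a j) (j : Site d) :
    Summable (dAng f (fun i => cs * a i + X i) φ j) ∧
    ∑' m : Mon (Site d), Complex.I * (m.2 j : ℂ) * push monOf cf m *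
      Mv (fun i => (X i : ℂ)) (fun i => Complex.exp (Complex.I * φ i)) m =
      ∑' i, dAng f (fun i => cs * a i + X i) φ j i := by
  have hXR : ∀ i, |X i| < R * a i := fun i =>
    lt_of_le_of_lt (hX i) (mul_lt_mul_of_pos_right hrR (ha0 i))
  let c : Mon (Site d) → ℂ := fun m => Complex.I * (m.2 j : ℂ) *
    Mv (fun i => (X i : ℂ)) (fun i => Complex.exp (Complex.I * φ i)) m
  have hcb : ∀ m, ‖c m‖ₑ ≤ ENNReal.ofReal (1 / s) * wg (geoZ d a ha0 ha1) rho s m := by
    intro m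
    refine enorm_le_wg_dyna (geoZ d a ha0 ha1) rho s 1 hr hs zero_le_one m _ ?_
    have h1 := norm_Mv_dyna (fun i => (X i : ℂ)) (fun i => Complex.exp (Complex.I * φ i)) a rho
      (fun i => by simpa using hX i)
      (fun i => by rw [Complex.norm_exp]; simp) m
    have h2 : (1 : ℝ) ≤ (geoZ d a ha0 ha1).ainv (spm m) := Geo.one_le_ainv _ _
    have h3 : ‖(m.2 j : ℂ)‖ ≤ (NM m : ℝ) := by
      rw [Complex.norm_intCast]
      have : ((m.2 j).natAbs : ℝ) = |(m.2 j : ℝ)| := by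
        rw [Nat.cast_natAbs]; simp
      rw [← this]
      exact_mod_cast (natAbs_le_kab_dyna m.2 j).trans (Nat.le_add_left _ _)
    have h4 : 0 ≤ rho ^ dgr m.1 * amn a m.1 := (norm_nonneg _).trans h1
    calc ‖c m‖ = ‖(m.2 j : ℂ)‖ * ‖Mv (fun i => (X i : ℂ))
          (fun i => Complex.exp (Complex.I * φ i)) m‖ := by
          simp only [c, norm_mul, Complex.norm_I, one_mul]
      _ ≤ NM m * (rho ^ dgr m.1 * amn a m.1) := by gcongr
      _ ≤ NM m * (rho ^ dgr m.1 * amn a m.1) * (geoZ d a ha0 ha1).ainv (spm m) :=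
          le_mul_of_one_le_right (by positivity) h2
      _ = _ := by rw [one_mul]; rfl
  have hg := summable_wg_dyna (geoZ d a ha0 ha1) rho s (1 / s) monOf cf hsum c hcb
  obtain ⟨-, ht⟩ := tsum_push_dyna monOf cf c hg
  have hval : ∀ i l b, c (monOf ((i, l), b)) * cf ((i, l), b) =
      Complex.I * (((monOf ((i, l), b)).2 j : ℤ) : ℂ) *
        term4 (fun b => cf ((i, l), b)) (X i) (X l) (φ i) (φ l) b := by
    rintro i l ⟨n1, n2, k1, k2⟩
    simp only [c, Mv_monOf_dyna, term4]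
    ring
  have hcoef : ∀ (i l : Site d) (b : ℕ × ℕ × ℤ × ℤ), (monOf ((i, l), b)).2 j =
      (if i = j then b.2.2.1 else 0) + (if l = j then b.2.2.2 else 0) := by
    intro i l b
    simp only [monOf, lblOf, Finsupp.add_apply, Finsupp.single_apply]
  have key := pair_sum_dyna (fun x => c (monOf x) * cf x) hg j
    (fun l => deriv (fun x : ℂ => f j l (((cs * a j + X j : ℝ) : ℂ), ((cs * a l + X l : ℝ) : ℂ),
      x, (φ l : ℂ))) (φ j : ℂ))
    (fun i => deriv (fun x : ℂ => f i j (((cs * a i + X i : ℝ) : ℂ), ((cs * a j + X j : ℝ) : ℂ),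
      (φ i : ℂ), x)) (φ j : ℂ))
    (by
      intro i l b hi hl
      show c (monOf ((i, l), b)) * cf ((i, l), b) = 0
      rw [hval, hcoef, if_neg hi, if_neg hl]; simp)
    (by
      intro b
      show c (monOf ((j, j), b)) * cf ((j, j), b) = 0
      rw [hx.diag]; simp)
    (by
      intro l hl
      have := hx.ang1 j l (Ne.symm hl) (X j) (X l) (φ j) (φ l) (hXR j) (hXR l)
      convert this using 2 with b
      show c (monOf ((j, l), b)) * cf ((j, l), b) = _
      rw [hval, hcoef, if_pos rfl, if_neg hl, add_zero])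
    (by
      intro i hi
      have := hx.ang2 i j hi (X i) (X j) (φ i) (φ j) (hXR i) (hXR j)
      convert this using 2 with b
      show c (monOf ((i, j), b)) * cf ((i, j), b) = _
      rw [hval, hcoef, if_neg hi, if_pos rfl, zero_add])
  have heq : (fun i => if i = j then 0 else
      (fun l => deriv (fun x : ℂ => f j l (((cs * a j + X j : ℝ) : ℂ), ((cs * a l + X l : ℝ) : ℂ),
      x, (φ l : ℂ))) (φ j : ℂ)) i +
      (fun i => deriv (fun x : ℂ => f i j (((cs * a i + X i : ℝ) : ℂ), ((cs * a j + X j : ℝ) : ℂ),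
      (φ i : ℂ), x)) (φ j : ℂ)) i) = dAng f (fun i => cs * a i + X i) φ j := by
    funext i
    simp only [dAng]
  rw [heq] at key
  refine ⟨key.summable, ?_⟩
  rw [key.tsum_eq, ← ht]
  exact tsum_congr fun m => by simp only [c]; ring

end KX
end

section

/-!
# Assembly: coefficients of the interactions
-/

set_option autoImplicit false

namespace KX

open MeasureTheory KamLattice

open scoped ENNReal

variable {d : ℕ}

theorem iv_sub_eq (i j : Site d) : (fun a => (((i - j) a : ℤ) : ℝ)) = iv (i - j) := rfl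

/-- the expansion coefficients of all pairs -/
theorem exists_cf (N : (Fin d → ℝ) → ℝ) (r s C m : ℝ) (hs : 0 < s) (hC : 0 ≤ C)
    (f : Site d → Site d → ℂ × ℂ × ℂ × ℂ → ℂ) (hf : IsInteraction N r s C m f)
    (a : Site d → ℝ) (ha0 : ∀ j, 0 < a j) (ha1 : ∀ j, a j ≤ 1) (cs R : ℝ) (hcs : 0 < cs)
    (hR : 0 < R) (hr : cs + R < r) :
    ∃ cf : (Site d × Site d) × ℕ × ℕ × ℤ × ℤ → ℂ,
      (∀ p n1 n2 k1 k2, cf (p, n1, n2, -k1, -k2) = (starRingEnd ℂ) (cf (p, n1, n2, k1, k2))) ∧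
      Exd f a cs R cf ∧
      (∀ i j n1 n2 k1 k2, ‖cf ((i, j), n1, n2, k1, k2)‖ ≤
        C * (cs + R) ^ 2 * Real.exp (-m * N (iv (i - j))) *
        (a i + a j) ^ 2 / ((R * a i) ^ n1 * (R * a j) ^ n2) *
        Real.exp (-(s / 2) * (|(k1 : ℝ)| + |(k2 : ℝ)|))) := by
  classical
  have key : ∀ p : Site d × Site d, ∃ c : ℕ × ℕ × ℤ × ℤ → ℂ,
      (p.1 = p.2 → c = 0) ∧
      (∀ n1 n2 k1 k2, ‖c (n1, n2, k1, k2)‖ ≤
        C * (cs + R) ^ 2 * Real.exp (-m * N (iv (p.1 - p.2))) *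
        (a p.1 + a p.2) ^ 2 / ((R * a p.1) ^ n1 * (R * a p.2) ^ n2) *
        Real.exp (-(s / 2) * (|(k1 : ℝ)| + |(k2 : ℝ)|))) ∧
      (∀ n1 n2 k1 k2, c (n1, n2, -k1, -k2) = (starRingEnd ℂ) (c (n1, n2, k1, k2))) ∧
      (p.1 ≠ p.2 → ∀ x y φ ψ : ℝ, |x| < R * a p.1 → |y| < R * a p.2 →
        HasSum (fun b : ℕ × ℕ × ℤ × ℤ => (b.1 : ℂ) * c b * (x : ℂ) ^ (b.1 - 1) *
          (y : ℂ) ^ b.2.1 * Complex.exp (Complex.I * (b.2.2.1 * φ + b.2.2.2 * ψ)))
          (deriv (fun z : ℂ => f p.1 p.2 (z, (cs * a p.2 + y : ℝ), φ, ψ)) (cs * a p.1 + x : ℝ)) ∧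
        HasSum (fun b : ℕ × ℕ × ℤ × ℤ => (b.2.1 : ℂ) * c b * (x : ℂ) ^ b.1 *
          (y : ℂ) ^ (b.2.1 - 1) * Complex.exp (Complex.I * (b.2.2.1 * φ + b.2.2.2 * ψ)))
          (deriv (fun z : ℂ => f p.1 p.2 ((cs * a p.1 + x : ℝ), z, φ, ψ)) (cs * a p.2 + y : ℝ)) ∧
        HasSum (fun b : ℕ × ℕ × ℤ × ℤ => Complex.I * (b.2.2.1 : ℂ) * term4 c x y φ ψ b)
          (deriv (fun z : ℂ => f p.1 p.2 ((cs * a p.1 + x : ℝ), (cs * a p.2 + y : ℝ), z, ψ)) φ) ∧
        HasSum (fun b : ℕ × ℕ × ℤ × ℤ => Complex.I * (b.2.2.2 : ℂ) * term4 c x y φ ψ b)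
          (deriv (fun z : ℂ => f p.1 p.2 ((cs * a p.1 + x : ℝ), (cs * a p.2 + y : ℝ), φ, z)) ψ)) := by
    rintro ⟨i, j⟩
    by_cases hij : i = j
    · refine ⟨0, fun _ => rfl, ?_, ?_, fun h => absurd hij h⟩
      · intro n1 n2 k1 k2
        simp only [Pi.zero_apply, norm_zero]
        have h1 := ha0 i
        have h2 := ha0 j
        positivity
      · intro n1 n2 k1 k2
        simp
    · have h1 : cs * a i + R * a i < r := by
        have := mul_le_mul_of_nonneg_left (ha1 i) (by linarith : 0 ≤ cs + R)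
        nlinarith
      have h2 : cs * a j + R * a j < r := by
        have := mul_le_mul_of_nonneg_left (ha1 j) (by linarith : 0 ≤ cs + R)
        nlinarith
      have hK : ∀ x y φ ψ : ℂ, ‖x‖ ≤ R * a i → ‖y‖ ≤ R * a j → |φ.im| ≤ s / 2 → |ψ.im| ≤ s / 2 →
          ‖f i j (((cs * a i : ℝ) : ℂ) + x, ((cs * a j : ℝ) : ℂ) + y, φ, ψ)‖ ≤
            C * (cs + R) ^ 2 * Real.exp (-m * N (iv (i - j))) * (a i + a j) ^ 2 := by
        intro x y φ ψ hx hy hφ hψ
        have n1 : ‖((cs * a i : ℝ) : ℂ) + x‖ ≤ (cs + R) * a i := by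
          refine (norm_add_le _ _).trans ?_
          rw [Complex.norm_real, Real.norm_eq_abs, abs_of_pos (mul_pos hcs (ha0 i))]
          linarith
        have n2 : ‖((cs * a j : ℝ) : ℂ) + y‖ ≤ (cs + R) * a j := by
          refine (norm_add_le _ _).trans ?_
          rw [Complex.norm_real, Real.norm_eq_abs, abs_of_pos (mul_pos hcs (ha0 j))]
          linarith
        have hD : ((((cs * a i : ℝ) : ℂ) + x, ((cs * a j : ℝ) : ℂ) + y, φ, ψ) : ℂ × ℂ × ℂ × ℂ) ∈
            Dom r s := by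
          refine ⟨?_, ?_, ?_, ?_⟩
          · show ‖((cs * a i : ℝ) : ℂ) + x‖ < r
            linarith
          · show ‖((cs * a j : ℝ) : ℂ) + y‖ < r
            linarith
          · show |φ.im| < s
            linarith
          · show |ψ.im| < s
            linarith
        refine (hf.bound i j hij _ hD).trans ?_
        have h3 : (‖((cs * a i : ℝ) : ℂ) + x‖ + ‖((cs * a j : ℝ) : ℂ) + y‖) ^ 2 ≤
            (cs + R) ^ 2 * (a i + a j) ^ 2 := by
          rw [← mul_pow]
          refine pow_le_pow_left₀ (by positivity) ?_ 2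
          linarith
        calc C * Real.exp (-m * N (iv (i - j))) *
              (‖((cs * a i : ℝ) : ℂ) + x‖ + ‖((cs * a j : ℝ) : ℂ) + y‖) ^ 2
            ≤ C * Real.exp (-m * N (iv (i - j))) * ((cs + R) ^ 2 * (a i + a j) ^ 2) :=
              mul_le_mul_of_nonneg_left h3 (by positivity)
          _ = _ := by ring
      obtain ⟨c, c1, c2, c3⟩ := expand_main (f i j) r s (hf.analytic i j hij) (hf.per1 i j hij)
        (hf.per2 i j hij) (hf.real i j hij) (cs * a i) (cs * a j) (R * a i) (R * a j) (s / 2)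
        (C * (cs + R) ^ 2 * Real.exp (-m * N (iv (i - j))) * (a i + a j) ^ 2)
        (mul_pos hcs (ha0 i)).le (mul_pos hcs (ha0 j)).le (mul_pos hR (ha0 i))
        (mul_pos hR (ha0 j)) (by linarith) (by linarith) h1 h2 hK
      refine ⟨c, fun h => absurd h hij, ?_, c2, fun _ x y φ ψ hx hy => ?_⟩
      · intro n1 n2 k1 k2
        exact c1 n1 n2 k1 k2
      · exact (c3 x y φ ψ hx hy).2
  choose c hc0 hc1 hc2 hc3 using key
  refine ⟨fun x => c x.1 x.2, fun p n1 n2 k1 k2 => hc2 p n1 n2 k1 k2, ?_,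
    fun i j n1 n2 k1 k2 => hc1 (i, j) n1 n2 k1 k2⟩
  refine ⟨?_, ?_, ?_, ?_, ?_⟩
  · intro i y
    show c (i, i) y = 0
    rw [hc0 (i, i) rfl]
    rfl
  · intro i j hij x y φ ψ hx hy
    exact (hc3 (i, j) hij x y φ ψ hx hy).1
  · intro i j hij x y φ ψ hx hy
    exact (hc3 (i, j) hij x y φ ψ hx hy).2.1
  · intro i j hij x y φ ψ hx hy
    exact (hc3 (i, j) hij x y φ ψ hx hy).2.2.1
  · intro i j hij x y φ ψ hx hy
    exact (hc3 (i, j) hij x y φ ψ hx hy).2.2.2

/-- the law of the frequencies is the law of the scheme -/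
theorem law_eq (d : ℕ) : law d = PP (Site d) := rfl

/-- a set with small outer complement contains a measurable set of large probability -/
theorem exists_measurable_large {Ω : Type} [MeasurableSpace Ω] (μ : Measure Ω)
    [IsProbabilityMeasure μ] (G : Set Ω) (η : ℝ) (hη : 0 ≤ η) (h : μ Gᶜ ≤ ENNReal.ofReal η) :
    ∃ E : Set Ω, MeasurableSet E ∧ ENNReal.ofReal (1 - η) ≤ μ E ∧ E ⊆ G := by
  refine ⟨(toMeasurable μ Gᶜ)ᶜ, (measurableSet_toMeasurable μ Gᶜ).compl, ?_, ?_⟩
  · rw [prob_compl_eq_one_sub (measurableSet_toMeasurable μ Gᶜ), measure_toMeasurable,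
      ENNReal.ofReal_sub _ hη, ENNReal.ofReal_one]
    exact tsub_le_tsub_left h 1
  · intro x hx
    by_contra hxG
    exact hx (subset_toMeasurable μ Gᶜ hxG)

end KX
end

section

/-!
# From the torus functions to an invariant torus of the model
-/

set_option autoImplicit false

namespace KX

open scoped ENNReal

open KamLattice

variable {d : ℕ}

theorem dgr_add_single_dynb {V : Type} [DecidableEq V] (n : V →₀ ℕ) (j : V) :
    dgr (n + Finsupp.single j 1) = dgr n + 1 := by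
  unfold dgr
  rw [Finsupp.sum_add_index' (fun _ => rfl) (fun _ _ _ => rfl), Finsupp.sum_single_index rfl]

theorem amn_add_single_dynb {V : Type} [DecidableEq V] (a : V → ℝ) (n : V →₀ ℕ) (j : V) :
    amn a (n + Finsupp.single j 1) = amn a n * a j := by
  unfold amn
  rw [Finsupp.prod_add_index' (fun _ => pow_zero _) (fun _ _ _ => pow_add _ _ _),
    Finsupp.prod_single_index (by simp), pow_one]

/-- bound of one term of the derivative with respect to an action -/
theorem norm_dMv_dynb {V : Type} [DecidableEq V] (G : Geo V) (rho : ℝ) (hr : 0 < rho)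
    (X E : V → ℂ) (hX : ∀ j, ‖X j‖ ≤ rho * G.a j) (hE : ∀ j, ‖E j‖ = 1) (m : Mon V) (j : V) :
    ‖(m.1 j : ℂ) * Mv X E (m.1 - Finsupp.single j 1, m.2)‖ ≤
      1 / rho * NM m * (rho ^ dgr m.1 * amn G.a m.1) * G.ainv (spm m) := by
  have ha : ∀ n : V →₀ ℕ, 0 ≤ amn G.a n := fun n => by
    unfold amn Finsupp.prod
    exact Finset.prod_nonneg fun j _ => pow_nonneg (G.a_pos j).le _
  have h1 : (1 : ℝ) ≤ G.ainv (spm m) := G.one_le_ainv _
  by_cases hm : m.1 j = 0
  · rw [hm]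
    simp only [Nat.cast_zero, zero_mul, norm_zero]
    have := ha m.1
    positivity
  obtain ⟨n', hn'⟩ : ∃ n', m.1 = n' + Finsupp.single j 1 := by
    refine ⟨m.1 - Finsupp.single j 1, ?_⟩
    ext i
    by_cases hi : j = i
    · subst hi
      simp only [Finsupp.add_apply, Finsupp.tsub_apply, Finsupp.single_eq_same]
      omega
    · simp [hi]
  have h2 : m.1 - Finsupp.single j 1 = n' := by rw [hn']; simp
  have h3 := norm_Mv_dyna X E G.a rho hX hE (n', m.2)
  have h4 : (G.a j)⁻¹ ≤ G.ainv (spm m) := G.inv_le_ainv (by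
    unfold spm
    exact Finset.mem_union_left _ (Finsupp.mem_support_iff.2 hm))
  have h5 : (m.1 j : ℝ) ≤ NM m := by
    exact_mod_cast (le_dgr_dyna m.1 j).trans (Nat.le_add_right _ _)
  have h6 : rho ^ dgr m.1 * amn G.a m.1 = (rho ^ dgr n' * amn G.a n') * (rho * G.a j) := by
    rw [hn', dgr_add_single_dynb, amn_add_single_dynb, pow_succ]; ring
  have h7 : 0 ≤ rho ^ dgr n' * amn G.a n' := mul_nonneg (by positivity) (ha _)
  have haj := G.a_pos j
  rw [norm_mul, Complex.norm_natCast, h2]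
  calc (m.1 j : ℝ) * ‖Mv X E (n', m.2)‖ ≤ NM m * (rho ^ dgr n' * amn G.a n') := by
        gcongr
    _ = 1 / rho * NM m * (rho ^ dgr m.1 * amn G.a m.1) * (G.a j)⁻¹ := by
        rw [h6]; field_simp
    _ ≤ _ := by
        refine mul_le_mul_of_nonneg_left h4 ?_
        have := ha m.1
        positivity

/-- sum over all monomials = sum over the sites (actions) -/
theorem sum_act (f : Site d → Site d → ℂ × ℂ × ℂ × ℂ → ℂ) (a : Site d → ℝ) (ha0 : ∀ j, 0 < a j)
    (ha1 : ∀ j, a j ≤ 1) (cs R rho s : ℝ) (hr : 0 < rho) (hrR : rho < R) (hs : 0 < s)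
    (cf : (Site d × Site d) × ℕ × ℕ × ℤ × ℤ → ℂ) (hx : Exd f a cs R cf)
    (hsum : ∑' x, ‖cf x‖ₑ * wg (geoZ d a ha0 ha1) rho s (monOf x) ≠ ∞)
    (X φ : Site d → ℝ) (hX : ∀ j, |X j| ≤ rho * a j) (j : Site d) :
    Summable (dAct f (fun i => cs * a i + X i) φ j) ∧
    ∑' m : Mon (Site d), (m.1 j : ℂ) * push monOf cf m *
      Mv (fun i => (X i : ℂ)) (fun i => Complex.exp (Complex.I * φ i))
        (m.1 - Finsupp.single j 1, m.2) =
      ∑' i, dAct f (fun i => cs * a i + X i) φ j i := by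
  have hXR : ∀ i, |X i| < R * a i := fun i =>
    lt_of_le_of_lt (hX i) (mul_lt_mul_of_pos_right hrR (ha0 i))
  let c : Mon (Site d) → ℂ := fun m => (m.1 j : ℂ) *
    Mv (fun i => (X i : ℂ)) (fun i => Complex.exp (Complex.I * φ i))
      (m.1 - Finsupp.single j 1, m.2)
  have hcb : ∀ m, ‖c m‖ₑ ≤ ENNReal.ofReal (1 / rho / s) * wg (geoZ d a ha0 ha1) rho s m := by
    intro m
    refine enorm_le_wg_dyna (geoZ d a ha0 ha1) rho s (1 / rho) hr hs (by positivity) m _ ?_
    exact norm_dMv_dynb (geoZ d a ha0 ha1) rho hr (fun i => (X i : ℂ))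
      (fun i => Complex.exp (Complex.I * φ i))
      (fun i => by rw [Complex.norm_real]; exact hX i)
      (fun i => by rw [Complex.norm_exp]; simp) m j
  have hg := summable_wg_dyna (geoZ d a ha0 ha1) rho s (1 / rho / s) monOf cf hsum c hcb
  obtain ⟨-, ht⟩ := tsum_push_dyna monOf cf c hg
  have key := pair_sum_dyna (fun x => c (monOf x) * cf x) hg j
    (fun l => deriv (fun x : ℂ => f j l (x, ((cs * a l + X l : ℝ) : ℂ),
      (φ j : ℂ), (φ l : ℂ))) ((cs * a j + X j : ℝ) : ℂ))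
    (fun i => deriv (fun x : ℂ => f i j (((cs * a i + X i : ℝ) : ℂ), x,
      (φ i : ℂ), (φ j : ℂ))) ((cs * a j + X j : ℝ) : ℂ))
    (by
      intro i l b hi hl
      show c (monOf ((i, l), b)) * cf ((i, l), b) = 0
      have : (monOf ((i, l), b)).1 j = 0 := by
        simp only [monOf, lblOf, Finsupp.add_apply, Finsupp.single_apply, if_neg hi, if_neg hl, add_zero]
      simp only [c]
      rw [this]; simp)
    (by
      intro b
      show c (monOf ((j, j), b)) * cf ((j, j), b) = 0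
      rw [hx.diag]; simp)
    (by
      intro l hl
      have := hx.act1 j l (Ne.symm hl) (X j) (X l) (φ j) (φ l) (hXR j) (hXR l)
      convert this using 2 with b
      obtain ⟨n1, n2, k1, k2⟩ := b
      show c (monOf ((j, l), n1, n2, k1, k2)) * cf ((j, l), n1, n2, k1, k2) = _
      have e1 : (monOf ((j, l), n1, n2, k1, k2)).1 j = n1 := by
        simp only [monOf, lblOf, Finsupp.add_apply, Finsupp.single_apply, if_true, if_neg hl,
          add_zero]
      by_cases hn : n1 = 0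
      · simp only [c]; rw [e1, hn]; simp
      have e2 : ((monOf ((j, l), n1, n2, k1, k2)).1 - Finsupp.single j 1,
          (monOf ((j, l), n1, n2, k1, k2)).2) = monOf ((j, l), n1 - 1, n2, k1, k2) := by
        refine Prod.ext ?_ rfl
        simp only [monOf, lblOf]
        ext i
        by_cases hi : j = i
        · subst hi
          simp only [Finsupp.add_apply, Finsupp.tsub_apply, Finsupp.single_apply, if_true,
            if_neg hl, add_zero]
        · simp [Finsupp.single_apply, hi]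
      simp only [c]
      rw [e1, e2, Mv_monOf_dyna]
      ring)
    (by
      intro i hi
      have := hx.act2 i j hi (X i) (X j) (φ i) (φ j) (hXR i) (hXR j)
      convert this using 2 with b
      obtain ⟨n1, n2, k1, k2⟩ := b
      show c (monOf ((i, j), n1, n2, k1, k2)) * cf ((i, j), n1, n2, k1, k2) = _
      have e1 : (monOf ((i, j), n1, n2, k1, k2)).1 j = n2 := by
        simp only [monOf, lblOf, Finsupp.add_apply, Finsupp.single_apply, if_true, if_neg hi,
          zero_add]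
      by_cases hn : n2 = 0
      · simp only [c]; rw [e1, hn]; simp
      have e2 : ((monOf ((i, j), n1, n2, k1, k2)).1 - Finsupp.single j 1,
          (monOf ((i, j), n1, n2, k1, k2)).2) = monOf ((i, j), n1, n2 - 1, k1, k2) := by
        refine Prod.ext ?_ rfl
        simp only [monOf, lblOf]
        ext l
        by_cases hl : j = l
        · subst hl
          simp only [Finsupp.add_apply, Finsupp.tsub_apply, Finsupp.single_apply, if_true,
            if_neg hi, zero_add]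
        · simp [Finsupp.single_apply, hl]
      simp only [c]
      rw [e1, e2, Mv_monOf_dyna]
      ring)
  have heq : (fun i => if i = j then 0 else
      (fun l => deriv (fun x : ℂ => f j l (x, ((cs * a l + X l : ℝ) : ℂ),
      (φ j : ℂ), (φ l : ℂ))) ((cs * a j + X j : ℝ) : ℂ)) i +
      (fun i => deriv (fun x : ℂ => f i j (((cs * a i + X i : ℝ) : ℂ), x,
      (φ i : ℂ), (φ j : ℂ))) ((cs * a j + X j : ℝ) : ℂ)) i) =
      dAct f (fun i => cs * a i + X i) φ j := by
    funext i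
    simp only [dAct]
  rw [heq] at key
  refine ⟨key.summable, ?_⟩
  rw [key.tsum_eq, ← ht]
  exact tsum_congr fun m => by simp only [c]; ring

end KX
end

section

/-!
# From the torus functions to an invariant torus of the model
-/

set_option autoImplicit false

namespace KX

open scoped ENNReal

open KamLattice

variable {d : ℕ}

/-- a real valued function into the complex numbers has real derivative -/
theorem real_deriv_dynd (g : ℝ → ℂ) (D : ℂ) (t : ℝ) (h : HasDerivAt g D t)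
    (hr : ∀ t, (g t).im = 0) : HasDerivAt (fun t => (g t).re) D.re t ∧ ((D.re : ℝ) : ℂ) = D := by
  have h1 : HasDerivAt (fun t => (g t).re) D.re t := by
    simpa only [Complex.reCLM_apply, Function.comp_def] using
      Complex.reCLM.hasFDerivAt.comp_hasDerivAt t h
  have h2 : HasDerivAt (fun t => (g t).im) D.im t := by
    simpa only [Complex.imCLM_apply, Function.comp_def] using
      Complex.imCLM.hasFDerivAt.comp_hasDerivAt t h
  have h3 : (fun t => (g t).im) = fun _ => (0 : ℝ) := funext hr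
  rw [h3] at h2
  have h4 : D.im = 0 := h2.unique (hasDerivAt_const t 0)
  exact ⟨h1, Complex.ext (by simp) (by simp [h4])⟩

/-- derivative of the angle part -/
theorem arg_deriv_dynd (E : ℝ → ℂ) (w0 w' b : ℝ) (S : ℂ) (t : ℝ)
    (hE : HasDerivAt E (Complex.I * E t * (w0 + S)) t) (hn : ∀ t, ‖E t‖ = 1)
    (hc : ∀ t, ‖E t - Complex.exp (Complex.I * ((b + t * w' : ℝ) : ℂ))‖ ≤ 1 / 4) :
    HasDerivAt (fun t => Complex.arg
      (E t * (starRingEnd ℂ) (Complex.exp (Complex.I * ((b + t * w' : ℝ) : ℂ)))))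
      (w0 + S.re - w') t ∧ ((S.re : ℝ) : ℂ) = S := by
  let ψ : ℝ → ℂ := fun t => Complex.exp (-(Complex.I * ((b + t * w' : ℝ) : ℂ)))
  have hψ : ∀ t, (starRingEnd ℂ) (Complex.exp (Complex.I * ((b + t * w' : ℝ) : ℂ))) = ψ t := by
    intro t
    rw [← Complex.exp_conj]
    simp only [ψ, map_mul, Complex.conj_I, Complex.conj_ofReal, neg_mul]
  simp only [hψ]
  have hψ1 : ∀ t, ‖ψ t‖ = 1 := by
    intro t
    rw [← hψ, RCLike.norm_conj, Complex.norm_exp]; simp
  have hψd : HasDerivAt ψ (-(Complex.I * w') * ψ t) t := by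
    have h1 : HasDerivAt (fun t : ℝ => -(Complex.I * ((b + t * w' : ℝ) : ℂ)))
        (-(Complex.I * w')) t := by
      have h2 : HasDerivAt (fun t : ℝ => b + t * w') w' t := by
        simpa using ((hasDerivAt_id t).mul_const w').const_add b
      exact (h2.ofReal_comp.const_mul Complex.I).neg
    have h3 := h1.cexp
    convert h3 using 1
    ring
  have hu' : HasDerivAt (fun t => E t * ψ t) (Complex.I * (w0 + S - w') * (E t * ψ t)) t :=
    (hE.mul hψd).congr_deriv (by ring)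
  have hmul : ∀ t, Complex.exp (Complex.I * ((b + t * w' : ℝ) : ℂ)) * ψ t = 1 := by
    intro t
    simp only [ψ]
    rw [← Complex.exp_add]; simp
  have hsl : ∀ t, E t * ψ t ∈ Complex.slitPlane := by
    intro t
    have h1 : E t * ψ t = 1 + (E t - Complex.exp (Complex.I * ((b + t * w' : ℝ) : ℂ))) * ψ t := by
      rw [sub_mul, hmul]; ring
    rw [h1]
    apply Complex.mem_slitPlane_of_norm_lt_one
    rw [norm_mul, hψ1, mul_one]
    exact lt_of_le_of_lt (hc t) (by norm_num)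
  have hne : E t * ψ t ≠ 0 := Complex.slitPlane_ne_zero (hsl t)
  have hl := hu'.clog_real (hsl t)
  rw [mul_div_assoc, div_self hne, mul_one] at hl
  have h1 : HasDerivAt (fun t => (Complex.log (E t * ψ t)).im)
      (Complex.I * (w0 + S - w')).im t := by
    simpa only [Complex.imCLM_apply, Function.comp_def] using
      Complex.imCLM.hasFDerivAt.comp_hasDerivAt t hl
  have h2 : HasDerivAt (fun t => (Complex.log (E t * ψ t)).re)
      (Complex.I * (w0 + S - w')).re t := by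
    simpa only [Complex.reCLM_apply, Function.comp_def] using
      Complex.reCLM.hasFDerivAt.comp_hasDerivAt t hl
  have h3 : (fun t => (Complex.log (E t * ψ t)).re) = fun _ => (0 : ℝ) := by
    funext t
    rw [Complex.log_re, norm_mul, hn, hψ1]; simp
  rw [h3] at h2
  have h4 : (Complex.I * (w0 + S - w')).re = 0 := h2.unique (hasDerivAt_const t 0)
  have h5 : S.im = 0 := by
    simpa using h4
  refine ⟨?_, Complex.ext (by simp) (by simp [h5])⟩
  simp only [Complex.log_im] at h1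
  exact h1.congr_deriv (by simp)

/-- the motion on the torus is a trajectory. Lift: `φ_j(t) = θ_j + t w'_j + arg (TE conj χ)`; with
`u = TE * conj (fourier 1)`, `|u| = 1`, `|u - 1| ≤ 1/4`: `(log u)' = u'/u = i (w_j + S_j - w'_j)`. -/
theorem Psi_traj (f : Site d → Site d → ℂ × ℂ × ℂ × ℂ → ℂ) (a : Site d → ℝ) (ha0 : ∀ j, 0 < a j)
    (ha1 : ∀ j, a j ≤ 1) {rho s0 : ℝ} {s ep : ℕ → ℝ} {w : ℕ → Site d → ℝ}
    {p : ℕ → Mon (Site d) → ℂ} {Φ : ℕ → (Mon (Site d) → ℂ) → Mon (Site d) → ℂ} {w' : Site d → ℝ}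
    (h : Chain (geoZ d a ha0 ha1) rho s0 s ep w p Φ w') (cs R r e s1 : ℝ) (hcs : 0 < cs)
    (hrR : rho < R) (hRr : cs + R < r) (hs1 : 0 < s1)
    (hsm : 2 * (∑' t, ep t) * Real.exp (s 0) ≤ 1 / 4)
    (cf : (Site d × Site d) × ℕ × ℕ × ℤ × ℤ → ℂ) (hx : Exd f a cs R cf)
    (hsum : ∑' x, ‖cf x‖ₑ * wg (geoZ d a ha0 ha1) rho s1 (monOf x) ≠ ∞)
    (hp0 : p 0 = fun m => (e : ℂ) * push monOf cf m)
    (hp : nr (wg (geoZ d a ha0 ha1) rho (2 * s 0)) (p 0) ≠ ∞) (θ : Site d → Cir) :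
    IsTrajectory f r e (w 0) fun t => Psi a cs Φ (flow w' θ t) := by
  obtain ⟨θr, hθr⟩ : ∃ θr : Site d → ℝ, ∀ j, ((θr j : ℝ) : Cir) = θ j := by
    choose g hg using fun j => QuotientAddGroup.mk_surjective (θ j)
    exact ⟨g, hg⟩
  have hflow : ∀ t j, flow w' θ t j = ((θr j + t * w' j : ℝ) : Cir) := by
    intro t j
    simp only [flow, ← hθr j]
    rfl
  have hχ : ∀ t j, (fourier 1 (flow w' θ t j) : ℂ) =
      Complex.exp (Complex.I * ((θr j + t * w' j : ℝ) : ℂ)) := by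
    intro t j
    rw [hflow, fourier_coe_apply]
    congr 1
    have : (Real.pi : ℂ) ≠ 0 := by exact_mod_cast Real.pi_ne_zero
    push_cast
    field_simp
  let X : ℝ → Site d → ℝ := fun t j => (TX Φ (flow w' θ t) j).re
  let φ : ℝ → Site d → ℝ := fun t j => θr j + t * w' j + Complex.arg
    (TE Φ (flow w' θ t) j * (starRingEnd ℂ)
      (Complex.exp (Complex.I * ((θr j + t * w' j : ℝ) : ℂ))))
  have hTX : ∀ t j, TX Φ (flow w' θ t) j = (X t j : ℂ) := by
    intro t j
    exact Complex.ext (by simp [X]) (by simp [(TX_TE h (flow w' θ t) j).2.1])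
  have hX : ∀ t j, |X t j| ≤ rho * a j := by
    intro t j
    have h1 := (TX_TE h (flow w' θ t) j).1
    rw [hTX, Complex.norm_real, Real.norm_eq_abs] at h1
    have h0 := h.rho0
    have h2 : (geoZ d a ha0 ha1).a j = a j := rfl
    rw [h2] at h1
    have h3 := ha0 j
    calc |X t j| ≤ _ := h1
      _ = (2 * (∑' t, ep t) * Real.exp (s 0)) * (rho * a j) := by ring
      _ ≤ 1 / 4 * (rho * a j) := by gcongr
      _ ≤ rho * a j := by nlinarith [mul_pos h0 h3]
  have hTE : ∀ t j, TE Φ (flow w' θ t) j = Complex.exp (Complex.I * (φ t j : ℂ)) := by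
    intro t j
    have h1 : ‖TE Φ (flow w' θ t) j * (starRingEnd ℂ)
      (Complex.exp (Complex.I * ((θr j + t * w' j : ℝ) : ℂ)))‖ = 1 := by
      rw [norm_mul, (TX_TE h (flow w' θ t) j).2.2.1, RCLike.norm_conj, Complex.norm_exp]
      simp
    have h2 := Complex.norm_mul_exp_arg_mul_I (TE Φ (flow w' θ t) j * (starRingEnd ℂ)
      (Complex.exp (Complex.I * ((θr j + t * w' j : ℝ) : ℂ))))
    rw [h1, Complex.ofReal_one, one_mul] at h2
    have h3 : Complex.exp (Complex.I * (φ t j : ℂ)) =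
        Complex.exp (Complex.I * ((θr j + t * w' j : ℝ) : ℂ)) *
        Complex.exp (Complex.arg (TE Φ (flow w' θ t) j * (starRingEnd ℂ)
          (Complex.exp (Complex.I * ((θr j + t * w' j : ℝ) : ℂ)))) * Complex.I) := by
      rw [← Complex.exp_add]
      congr 1
      simp only [φ]
      push_cast
      ring
    rw [h3, h2]
    have h4 : Complex.exp (Complex.I * ((θr j + t * w' j : ℝ) : ℂ)) * (starRingEnd ℂ)
      (Complex.exp (Complex.I * ((θr j + t * w' j : ℝ) : ℂ))) = 1 := by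
      rw [Complex.mul_conj, Complex.normSq_eq_norm_sq, Complex.norm_exp]; simp
    rw [mul_left_comm, h4, mul_one]
  have hang := fun t j => sum_ang f a ha0 ha1 cs R rho s1 h.rho0 hrR hs1 cf hx hsum (X t) (φ t)
    (hX t) j
  have hact := fun t j => sum_act f a ha0 ha1 cs R rho s1 h.rho0 hrR hs1 cf hx hsum (X t) (φ t)
    (hX t) j
  have hXf : ∀ t, TX Φ (flow w' θ t) = fun i => (X t i : ℂ) := fun t => funext (hTX t)
  have hEf : ∀ t, TE Φ (flow w' θ t) = fun i => Complex.exp (Complex.I * (φ t i : ℂ)) :=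
    fun t => funext (hTE t)
  have e1 : ∀ t j, ∑' m, Complex.I * (m.2 j : ℂ) * p 0 m *
        Mv (TX Φ (flow w' θ t)) (TE Φ (flow w' θ t)) m =
      e * ∑' i, dAng f (fun i => cs * a i + X t i) (φ t) j i := by
    intro t j
    rw [← (hang t j).2, ← tsum_mul_left, hXf, hEf, hp0]
    exact tsum_congr fun m => by ring
  have e2 : ∀ t j, ∑' m, (m.1 j : ℂ) * p 0 m *
        Mv (TX Φ (flow w' θ t)) (TE Φ (flow w' θ t)) (m.1 - Finsupp.single j 1, m.2) =
      e * ∑' i, dAct f (fun i => cs * a i + X t i) (φ t) j i := by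
    intro t j
    rw [← (hact t j).2, ← tsum_mul_left, hXf, hEf, hp0]
    exact tsum_congr fun m => by ring
  have hd := fun t j => TX_TE_deriv h hp θ t j
  simp only [e1, e2] at hd
  have hXd : ∀ t j, HasDerivAt (fun t => X t j)
      (-(e * ∑' i, dAng f (fun i => cs * a i + X t i) (φ t) j i)).re t ∧
      (((-(e * ∑' i, dAng f (fun i => cs * a i + X t i) (φ t) j i)).re : ℝ) : ℂ) =
        -(e * ∑' i, dAng f (fun i => cs * a i + X t i) (φ t) j i) := by
    intro t j
    exact real_deriv_dynd (fun t => TX Φ (flow w' θ t) j) _ t (hd t j).1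
      (fun t => (TX_TE h (flow w' θ t) j).2.1)
  have hAd : ∀ t j, HasDerivAt (fun t => Complex.arg
      (TE Φ (flow w' θ t) j * (starRingEnd ℂ)
        (Complex.exp (Complex.I * ((θr j + t * w' j : ℝ) : ℂ)))))
      (w 0 j + (e * ∑' i, dAct f (fun i => cs * a i + X t i) (φ t) j i).re - w' j) t ∧
      (((e * ∑' i, dAct f (fun i => cs * a i + X t i) (φ t) j i).re : ℝ) : ℂ) =
        e * ∑' i, dAct f (fun i => cs * a i + X t i) (φ t) j i := by
    intro t j
    refine arg_deriv_dynd (fun t => TE Φ (flow w' θ t) j) (w 0 j) (w' j) (θr j) _ t (hd t j).2.1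
      (fun t => (TX_TE h (flow w' θ t) j).2.2.1) (fun t => ?_)
    have h1 := (TX_TE h (flow w' θ t) j).2.2.2
    rw [hχ] at h1
    exact h1.trans hsm
  have hφd : ∀ t j, HasDerivAt (fun t => φ t j)
      (w 0 j + (e * ∑' i, dAct f (fun i => cs * a i + X t i) (φ t) j i).re) t := by
    intro t j
    have h1 : HasDerivAt (fun t : ℝ => θr j + t * w' j) (w' j) t := by
      simpa using ((hasDerivAt_id t).mul_const (w' j)).const_add (θr j)
    exact (h1.add (hAd t j).1).congr_deriv (by ring)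
  have hId : ∀ t j, HasDerivAt (fun t => cs * a j + X t j)
      (-(e * ∑' i, dAng f (fun i => cs * a i + X t i) (φ t) j i)).re t := by
    intro t j
    exact (hXd t j).1.const_add _
  refine ⟨φ, ?_, ?_, ?_, ?_⟩
  · intro t j
    show ((φ t j : ℝ) : Cir) = flow w' θ t j + ((Complex.arg (TE Φ (flow w' θ t) j *
      (starRingEnd ℂ) (fourier 1 (flow w' θ t j)))) : ℝ)
    rw [hχ, hflow]
    rfl
  · intro j
    show ContDiff ℝ 1 fun t => cs * a j + X t j
    rw [contDiff_one_iff_deriv]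
    refine ⟨fun t => (hId t j).differentiableAt, ?_⟩
    have h1 : deriv (fun t => cs * a j + X t j) = fun t =>
        (-(e * ∑' i, dAng f (fun i => cs * a i + X t i) (φ t) j i)).re :=
      funext fun t => (hId t j).deriv
    rw [h1]
    exact Complex.continuous_re.comp ((hd 0 j).2.2.1.neg)
  · intro j
    rw [contDiff_one_iff_deriv]
    refine ⟨fun t => (hφd t j).differentiableAt, ?_⟩
    have h1 : deriv (fun t => φ t j) = fun t =>
        (w 0 j + (e * ∑' i, dAct f (fun i => cs * a i + X t i) (φ t) j i).re) :=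
      funext fun t => (hφd t j).deriv
    rw [h1]
    exact continuous_const.add (Complex.continuous_re.comp (hd 0 j).2.2.2)
  · intro t j
    refine ⟨?_, (hact t j).1, (hang t j).1, ?_, ?_⟩
    · show |cs * a j + X t j| < r
      have h1 := hX t j
      have h2 := ha1 j
      have h3 := ha0 j
      have h0 := h.rho0
      calc |cs * a j + X t j| ≤ |cs * a j| + |X t j| := abs_add_le _ _
        _ ≤ cs * a j + rho * a j := by
            rw [abs_of_pos (mul_pos hcs h3)]; linarith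
        _ ≤ cs * 1 + rho * 1 := by gcongr
        _ < r := by linarith
    · show ((deriv (fun t => cs * a j + X t j) t : ℝ) : ℂ) =
        -e * ∑' i, dAng f (fun i => cs * a i + X t i) (φ t) j i
      rw [(hId t j).deriv, (hXd t j).2]
      ring
    · show ((deriv (fun t => φ t j) t : ℝ) : ℂ) =
        w 0 j + e * ∑' i, dAct f (fun i => cs * a i + X t i) (φ t) j i
      rw [(hφd t j).deriv, Complex.ofReal_add, (hAd t j).2]

end KX
end
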