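import Pool.Agent.Lib.MP_73c19a_an.Dioa
import Pool.Agent.Lib.MP_73c19a_an.RBa
import Pool.Agent.Lib.MP_73c19a_an.RBc
import Pool.Agent.Lib.MP_73c19a_an.Schemea
import Pool.Agent.Lib.MP_73c19a_an.Mg.G009
import Pool.Agent.Lib.MP_73c19a_an.Mg.G012
import Pool.Agent.Lib.MP_73c19a_an.Mg.G001

section

/-!
# Lipschitz dependence of the products of divisors
-/

set_option autoImplicit false

namespace KX

variable {V : Type} [DecidableEq V]

namespace Tr

/-- sum over the divided positions of twice the truncated variation of the divisor -/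
noncomputable def dY (G : Geo V) (P : BP V) (om om' : ℕ → V → ℝ) : Tr V → ℝ
  | leaf _ => 0
  | node _ f p => dY G P om om' f + dY G P om om' p +
      2 * min 1 |dot (k f) (om (tau G P f)) - dot (k f) (om' (tau G P f))|

theorem norm_inv_le_mx_lipa (d : ℝ) : ‖(Complex.I * (d : ℂ))⁻¹‖ ≤ mx d := by
  rw [norm_inv, norm_mul, Complex.norm_I, one_mul, Complex.norm_real, Real.norm_eq_abs]
  exact le_max_right _ _

theorem abs_inv_sub_inv_le_lipa {a b : ℝ} (ha : a ≠ 0) (hb : b ≠ 0) :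
    |a⁻¹ - b⁻¹| ≤ 2 * min 1 |a - b| * (mx a * mx b) := by
  have h1 : |a|⁻¹ ≤ mx a := le_max_right _ _
  have h2 : |b|⁻¹ ≤ mx b := le_max_right _ _
  have h3 : 1 ≤ mx a := one_le_mx a
  have h4 : 1 ≤ mx b := one_le_mx b
  have ha' : 0 ≤ |a|⁻¹ := inv_nonneg.2 (abs_nonneg a)
  have hb' : 0 ≤ |b|⁻¹ := inv_nonneg.2 (abs_nonneg b)
  have h5 : |a⁻¹ - b⁻¹| = |a - b| * (|a|⁻¹ * |b|⁻¹) := by
    rw [inv_sub_inv ha hb, abs_div, abs_mul, abs_sub_comm b a, div_eq_mul_inv, mul_inv]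
  rcases le_total 1 |a - b| with h | h
  · rw [min_eq_left h]
    have h6 : |a⁻¹ - b⁻¹| ≤ |a|⁻¹ + |b|⁻¹ := by
      rw [← abs_inv a, ← abs_inv b]
      exact abs_sub _ _
    nlinarith [mul_nonneg (sub_nonneg.2 h3) (sub_nonneg.2 h4)]
  · rw [min_eq_right h, h5]
    have h6 : |a|⁻¹ * |b|⁻¹ ≤ mx a * mx b := mul_le_mul h1 h2 hb' (by linarith)
    have h7 : 0 ≤ mx a * mx b := by positivity
    have h8 := mul_le_mul_of_nonneg_left h6 (abs_nonneg (a - b))
    nlinarith [mul_nonneg (abs_nonneg (a - b)) h7]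

theorem norm_inv_sub_inv_le_lipa {a b : ℝ} (ha : a ≠ 0) (hb : b ≠ 0) :
    ‖(Complex.I * (a : ℂ))⁻¹ - (Complex.I * (b : ℂ))⁻¹‖ ≤ 2 * min 1 |a - b| * (mx a * mx b) := by
  have h1 : (Complex.I * (a : ℂ))⁻¹ - (Complex.I * (b : ℂ))⁻¹ =
      Complex.I⁻¹ * ((a⁻¹ - b⁻¹ : ℝ) : ℂ) := by
    push_cast
    rw [mul_inv, mul_inv]
    ring
  rw [h1, norm_mul, norm_inv, Complex.norm_I, inv_one, one_mul, Complex.norm_real,
    Real.norm_eq_abs]
  exact abs_inv_sub_inv_le_lipa ha hb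

theorem dY_nonneg_lipa (G : Geo V) (P : BP V) (om om' : ℕ → V → ℝ) (h : Tr V) :
    0 ≤ dY G P om om' h := by
  induction h with
  | leaf l => exact le_refl _
  | node j f p ihf ihp =>
    have h1 : (0 : ℝ) ≤ min 1 |dot (k f) (om (tau G P f)) - dot (k f) (om' (tau G P f))| :=
      le_min zero_le_one (abs_nonneg _)
    have h2 : dY G P om om' (node j f p) = dY G P om om' f + dY G P om om' p +
      2 * min 1 |dot (k f) (om (tau G P f)) - dot (k f) (om' (tau G P f))| := rfl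
    rw [h2]
    linarith

/-- the arithmetic of one step of the telescoping -/
theorem tele_lipa {y1 d1 z1 y2 d2 z2 : ℂ} {hy1 m1 hz1 hy2 m2 hz2 vy vd vz : ℝ}
    (e1 : ‖y2‖ ≤ hy2) (e2 : ‖d1‖ ≤ m1) (e3 : ‖d2‖ ≤ m2) (e4 : ‖z1‖ ≤ hz1)
    (o1 : 1 ≤ hy1) (o2 : 1 ≤ m1) (o3 : 1 ≤ hz1) (o4 : 1 ≤ hy2) (o5 : 1 ≤ m2) (o6 : 1 ≤ hz2)
    (vy0 : 0 ≤ vy) (vd0 : 0 ≤ vd) (vz0 : 0 ≤ vz)
    (dy : ‖y1 - y2‖ ≤ hy1 * hy2 * vy) (dd : ‖d1 - d2‖ ≤ vd * (m1 * m2))
    (dz : ‖z1 - z2‖ ≤ hz1 * hz2 * vz) :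
    ‖y1 * d1 * z1 - y2 * d2 * z2‖ ≤ (hy1 * m1 * hz1) * (hy2 * m2 * hz2) * (vy + vz + vd) := by
  have h0 : y1 * d1 * z1 - y2 * d2 * z2 =
      (y1 - y2) * d1 * z1 + y2 * (d1 - d2) * z1 + y2 * d2 * (z1 - z2) := by ring
  have n1 : ‖(y1 - y2) * d1 * z1‖ ≤ (hy1 * hy2 * vy) * m1 * hz1 := by
    rw [norm_mul, norm_mul]
    gcongr
  have n2 : ‖y2 * (d1 - d2) * z1‖ ≤ hy2 * (vd * (m1 * m2)) * hz1 := by
    rw [norm_mul, norm_mul]
    gcongr
  have n3 : ‖y2 * d2 * (z1 - z2)‖ ≤ hy2 * m2 * (hz1 * hz2 * vz) := by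
    rw [norm_mul, norm_mul]
    gcongr
  have a1 : (hy1 * hy2 * vy) * m1 * hz1 ≤ (hy1 * m1 * hz1) * (hy2 * m2 * hz2) * vy := by
    have : (hy1 * hy2 * vy) * m1 * hz1 * 1 ≤ (hy1 * hy2 * vy) * m1 * hz1 * (m2 * hz2) := by
      apply mul_le_mul_of_nonneg_left
      · nlinarith
      · positivity
    nlinarith
  have a2 : hy2 * (vd * (m1 * m2)) * hz1 ≤ (hy1 * m1 * hz1) * (hy2 * m2 * hz2) * vd := by
    have : hy2 * (vd * (m1 * m2)) * hz1 * 1 ≤ hy2 * (vd * (m1 * m2)) * hz1 * (hy1 * hz2) := by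
      apply mul_le_mul_of_nonneg_left
      · nlinarith
      · positivity
    nlinarith
  have a3 : hy2 * m2 * (hz1 * hz2 * vz) ≤ (hy1 * m1 * hz1) * (hy2 * m2 * hz2) * vz := by
    have : hy2 * m2 * (hz1 * hz2 * vz) * 1 ≤ hy2 * m2 * (hz1 * hz2 * vz) * (hy1 * m1) := by
      apply mul_le_mul_of_nonneg_left
      · nlinarith
      · positivity
    nlinarith
  rw [h0]
  calc ‖(y1 - y2) * d1 * z1 + y2 * (d1 - d2) * z1 + y2 * d2 * (z1 - z2)‖
      ≤ ‖(y1 - y2) * d1 * z1‖ + ‖y2 * (d1 - d2) * z1‖ + ‖y2 * d2 * (z1 - z2)‖ :=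
        norm_add₃_le
    _ ≤ (hy1 * m1 * hz1) * (hy2 * m2 * hz2) * vy + (hy1 * m1 * hz1) * (hy2 * m2 * hz2) * vd +
        (hy1 * m1 * hz1) * (hy2 * m2 * hz2) * vz :=
        add_le_add_three (n1.trans a1) (n2.trans a2) (n3.trans a3)
    _ = _ := by ring

theorem norm_YY_le (G : Geo V) (P : BP V) (om : ℕ → V → ℝ) (h : Tr V) :
    ‖YY G P om h‖ ≤ hatY G P om h := by
  induction h with
  | leaf l =>
    have h1 : YY G P om (leaf l) = 1 := rfl
    rw [h1, norm_one]
    exact one_le_hatY G P om _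
  | node j f p ihf ihp =>
    have h1 : YY G P om (node j f p) =
      YY G P om f * (Complex.I * (dot (k f) (om (tau G P f)) : ℂ))⁻¹ * YY G P om p := rfl
    have h2 : hatY G P om (node j f p) =
      hatY G P om f * mx (dot (k f) (om (tau G P f))) * hatY G P om p := rfl
    have hf := one_le_hatY G P om f
    have hm := one_le_mx (dot (k f) (om (tau G P f)))
    rw [h1, h2, norm_mul, norm_mul]
    have h3 := norm_inv_le_mx_lipa (dot (k f) (om (tau G P f)))
    gcongr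

/-- `|1/a - 1/b| ≤ 2 min (1, |a - b|) max (1, 1/|a|) max (1, 1/|b|)` for `a, b ≠ 0`, and telescoping.
The divisors must not vanish (`h0`). -/
theorem YY_sub_le (G : Geo V) (P : BP V) (om om' : ℕ → V → ℝ) (h : Tr V)
    (h0 : ∀ y : Dv h, dot (k (sub h y)) (om (tau G P (sub h y))) ≠ 0)
    (h0' : ∀ y : Dv h, dot (k (sub h y)) (om' (tau G P (sub h y))) ≠ 0) :
    ‖YY G P om h - YY G P om' h‖ ≤ hatY G P om h * hatY G P om' h * dY G P om om' h := by
  induction h with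
  | leaf l =>
    have h1 : YY G P om (leaf l) = 1 := rfl
    have h2 : YY G P om' (leaf l) = 1 := rfl
    have h3 : dY G P om om' (leaf l) = 0 := rfl
    rw [h1, h2, h3, sub_self, norm_zero, mul_zero]
  | node j f p ihf ihp =>
    have hf := ihf (fun y => h0 (Sum.inl (some y))) (fun y => h0' (Sum.inl (some y)))
    have hp := ihp (fun y => h0 (Sum.inr y)) (fun y => h0' (Sum.inr y))
    have hd : dot (k f) (om (tau G P f)) ≠ 0 := h0 (Sum.inl none)
    have hd' : dot (k f) (om' (tau G P f)) ≠ 0 := h0' (Sum.inl none)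
    have h1 : YY G P om (node j f p) =
      YY G P om f * (Complex.I * (dot (k f) (om (tau G P f)) : ℂ))⁻¹ * YY G P om p := rfl
    have h1' : YY G P om' (node j f p) =
      YY G P om' f * (Complex.I * (dot (k f) (om' (tau G P f)) : ℂ))⁻¹ * YY G P om' p := rfl
    have h2 : hatY G P om (node j f p) =
      hatY G P om f * mx (dot (k f) (om (tau G P f))) * hatY G P om p := rfl
    have h2' : hatY G P om' (node j f p) =
      hatY G P om' f * mx (dot (k f) (om' (tau G P f))) * hatY G P om' p := rfl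
    have h3 : dY G P om om' (node j f p) = dY G P om om' f + dY G P om om' p +
      2 * min 1 |dot (k f) (om (tau G P f)) - dot (k f) (om' (tau G P f))| := rfl
    rw [h1, h1', h2, h2', h3]
    exact tele_lipa (norm_YY_le G P om' f) (norm_inv_le_mx_lipa _) (norm_inv_le_mx_lipa _)
      (norm_YY_le G P om p) (one_le_hatY G P om f) (one_le_mx _) (one_le_hatY G P om p)
      (one_le_hatY G P om' f) (one_le_mx _) (one_le_hatY G P om' p)
      (dY_nonneg_lipa G P om om' f)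
      (mul_nonneg zero_le_two (le_min zero_le_one (abs_nonneg _)))
      (dY_nonneg_lipa G P om om' p) hf (norm_inv_sub_inv_le_lipa hd hd') hp

end Tr

end KX
end

section

/-!
# Lipschitz dependence of the products of divisors
-/

set_option autoImplicit false

namespace KX

variable {V : Type} [DecidableEq V]

namespace Tr

theorem min_one_add_le_lipb {u v : ℝ} (hv : 0 ≤ v) : min 1 (u + v) ≤ min 1 u + v := by
  rcases le_total 1 u with h | h
  · rw [min_eq_left h]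
    exact (min_le_left _ _).trans (by linarith)
  · rw [min_eq_right h]
    exact min_le_right _ _

theorem min_one_sum_le_lipb {ι : Type} (s : Finset ι) (c x : ι → ℝ) (hc : ∀ i ∈ s, 1 ≤ c i)
    (hx : ∀ i ∈ s, 0 ≤ x i) : min 1 (∑ i ∈ s, c i * x i) ≤ ∑ i ∈ s, c i * min 1 (x i) := by
  classical
  have h0 : ∀ i ∈ s, 0 ≤ c i * min 1 (x i) := fun i hi =>
    mul_nonneg (by linarith [hc i hi]) (le_min zero_le_one (hx i hi))
  by_cases h : ∃ i ∈ s, 1 ≤ x i
  · obtain ⟨i, hi, h1⟩ := h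
    refine (min_le_left _ _).trans ?_
    refine le_trans ?_ (Finset.single_le_sum h0 hi)
    rw [min_eq_left h1, mul_one]
    exact hc i hi
  · push Not at h
    refine (min_le_right _ _).trans (le_of_eq ?_)
    apply Finset.sum_congr rfl
    intro i hi
    rw [min_eq_right (h i hi).le]

omit [DecidableEq V] in
/-- variation of one divisor, with a constant -/
theorem dot_sub_le_aux_lipb (be : V → ℝ) (hbe : ∀ j, 0 < be j) (hs : Summable be) (K : ℝ)
    (S : Finset V) (hK : ∀ j ∈ S, (be j)⁻¹ ≤ K) (w w' o o' : V → ℝ)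
    (hom : ∀ j, |o j - o' j| ≤ |w j - w' j| + (be j)⁻¹ * DD be w w')
    (kk : V →₀ ℤ) (hkk : kk.support ⊆ S) :
    min 1 |dot kk o - dot kk o'| ≤ 2 * kab kk * K * DD be w w' := by
  have hD : 0 ≤ DD be w w' := DD_nonneg be (fun j => (hbe j).le) w w'
  have h1 : |dot kk o - dot kk o'| ≤ ∑ j ∈ kk.support, |((kk j : ℤ) : ℝ)| * |o j - o' j| := by
    unfold dot Finsupp.sum
    rw [← Finset.sum_sub_distrib]
    refine (Finset.abs_sum_le_sum_abs _ _).trans (le_of_eq ?_)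
    apply Finset.sum_congr rfl
    intro j _
    rw [← mul_sub, abs_mul]
  have h2 : ∀ j ∈ kk.support, (1 : ℝ) ≤ |((kk j : ℤ) : ℝ)| := by
    intro j hj
    rw [Finsupp.mem_support_iff] at hj
    rw [← Int.cast_abs]
    exact_mod_cast Int.one_le_abs hj
  have h3 : ∀ j ∈ kk.support, min 1 |o j - o' j| ≤ 2 * (K * DD be w w') := by
    intro j hj
    have hj' := hK j (hkk hj)
    have hbj : 0 < be j := hbe j
    have e1 : (be j)⁻¹ * DD be w w' ≤ K * DD be w w' := mul_le_mul_of_nonneg_right hj' hD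
    have e2 : min 1 |w j - w' j| ≤ (be j)⁻¹ * DD be w w' := by
      have := le_DD be (fun j => (hbe j).le) hs w w' j
      rw [inv_mul_eq_div, le_div_iff₀ hbj, mul_comm]
      exact this
    have e3 : min 1 |o j - o' j| ≤ min 1 (|w j - w' j| + (be j)⁻¹ * DD be w w') :=
      min_le_min (le_refl _) (hom j)
    have e4 : min 1 (|w j - w' j| + (be j)⁻¹ * DD be w w') ≤
        min 1 |w j - w' j| + (be j)⁻¹ * DD be w w' :=
      min_one_add_le_lipb (mul_nonneg (inv_nonneg.2 hbj.le) hD)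
    linarith
  have h4 : ((kab kk : ℕ) : ℝ) = ∑ j ∈ kk.support, |((kk j : ℤ) : ℝ)| := by
    unfold kab Finsupp.sum
    push_cast
    apply Finset.sum_congr rfl
    intro j _
    rw [← Int.cast_abs, Int.abs_eq_natAbs, Int.cast_natCast]
  calc min 1 |dot kk o - dot kk o'|
      ≤ min 1 (∑ j ∈ kk.support, |((kk j : ℤ) : ℝ)| * |o j - o' j|) :=
        min_le_min (le_refl _) h1
    _ ≤ ∑ j ∈ kk.support, |((kk j : ℤ) : ℝ)| * min 1 |o j - o' j| :=
        min_one_sum_le_lipb _ _ _ h2 (fun j _ => abs_nonneg _)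
    _ ≤ ∑ j ∈ kk.support, |((kk j : ℤ) : ℝ)| * (2 * (K * DD be w w')) :=
        Finset.sum_le_sum fun j hj => mul_le_mul_of_nonneg_left (h3 j hj) (abs_nonneg _)
    _ = 2 * kab kk * K * DD be w w' := by
        rw [← Finset.sum_mul, h4]
        ring

theorem inv_be_le_lipb (G : Geo V) (be : V → ℝ) (bB : ℝ)
    (hbB : 0 ≤ bB) (hbr : ∀ j, (be j)⁻¹ ≤ (G.br j) ^ bB) (h : Tr V) (hc : conn h)
    (i : V) (hi : i ∈ A h) (j : V) (hj : j ∈ A h) :
    (be j)⁻¹ ≤ (G.br i * (1 + L G h)) ^ bB := by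
  refine (hbr j).trans ?_
  exact Real.rpow_le_rpow (zero_le_one.trans (G.one_le_br j)) (br_le_of_mem G h hc hj hi) hbB

/-- variation of one divisor; `hom` is the Lipschitz property of the frequency map -/
theorem dot_sub_le (G : Geo V) (be : V → ℝ) (hbe : ∀ j, 0 < be j) (hs : Summable be) (bB : ℝ)
    (hbB : 0 ≤ bB) (hbr : ∀ j, (be j)⁻¹ ≤ (G.br j) ^ bB) (w w' o o' : V → ℝ)
    (hom : ∀ j, |o j - o' j| ≤ |w j - w' j| + (be j)⁻¹ * DD be w w') (h : Tr V) (hc : conn h)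
    (i : V) (hi : i ∈ A h) (kk : V →₀ ℤ) (hkk : kk.support ⊆ A h) :
    min 1 |dot kk o - dot kk o'| ≤
      2 * kab kk * (G.br i * (1 + L G h)) ^ bB * DD be w w' := by
  exact dot_sub_le_aux_lipb be hbe hs _ (A h) (inv_be_le_lipb G be bB hbB hbr h hc i hi)
    w w' o o' hom kk hkk

theorem dY_le_aux_lipb (G : Geo V) (P : BP V) (be : V → ℝ) (hbe : ∀ j, 0 < be j)
    (hs : Summable be) (K : ℝ) (hK0 : 0 ≤ K) (S : Finset V) (hK : ∀ j ∈ S, (be j)⁻¹ ≤ K)
    (w w' : V → ℝ) (om om' : ℕ → V → ℝ) (T : ℕ)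
    (hom : ∀ s, s < T → ∀ j, |om s j - om' s j| ≤ |w j - w' j| + (be j)⁻¹ * DD be w w') (h : Tr V)
    (hg : Good G P h) (hb : birth G P h ≤ T) (hA : A h ⊆ S) :
    dY G P om om' h ≤ 4 * q h * N h * K * DD be w w' := by
  have hD : 0 ≤ DD be w w' := DD_nonneg be (fun j => (hbe j).le) w w'
  induction h with
  | leaf l =>
    have h1 : dY G P om om' (leaf l) = 0 := rfl
    rw [h1]
    positivity
  | node j f p ihf ihp =>
    obtain ⟨gf, gp, df, kf, -, bp, -⟩ := hg
    have hb' : tau G P f + 1 ≤ T := hb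
    have hAf : A f ⊆ S := fun x hx => hA (Finset.mem_union_left _ hx)
    have hAp : A p ⊆ S := fun x hx => hA (Finset.mem_union_right _ hx)
    have h1 := ihf gf ((good_tau G P f gf df).trans (by omega)) hAf
    have h2 := ihp gp (by omega) hAp
    have h3 := dot_sub_le_aux_lipb be hbe hs K S hK w w' (om (tau G P f)) (om' (tau G P f))
      (hom _ (by omega)) (k f) ((k_supp f).trans hAf)
    have h4 : dY G P om om' (node j f p) = dY G P om om' f + dY G P om om' p +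
      2 * min 1 |dot (k f) (om (tau G P f)) - dot (k f) (om' (tau G P f))| := rfl
    have h5 : q (node j f p) = q f + q p := rfl
    have h6 : N (node j f p) = N f + N p := rfl
    have h7 : (1 : ℝ) ≤ q p := by exact_mod_cast one_le_q p
    have h8 : (kab (k f) : ℝ) ≤ N f := by
      have := nk_le_N f
      exact_mod_cast (Nat.le_add_left _ _).trans this
    have h9 : (1 : ℝ) ≤ q f := by exact_mod_cast one_le_q f
    rw [h4, h5, h6]
    push_cast
    set Kd := K * DD be w w' with hKd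
    have hKd0 : 0 ≤ Kd := mul_nonneg hK0 hD
    have hNf : (0 : ℝ) ≤ N f := Nat.cast_nonneg _
    have hNp : (0 : ℝ) ≤ N p := Nat.cast_nonneg _
    have e1 : 4 * (q f : ℝ) * N f * K * DD be w w' = 4 * (q f * N f * Kd) := by rw [hKd]; ring
    have e2 : 4 * (q p : ℝ) * N p * K * DD be w w' = 4 * (q p * N p * Kd) := by rw [hKd]; ring
    have e3 : 2 * (kab (k f) : ℝ) * K * DD be w w' = 2 * (kab (k f) * Kd) := by rw [hKd]; ring
    have e4 : 4 * ((q f : ℝ) + q p) * (N f + N p) * K * DD be w w' =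
        4 * (q f * N f * Kd) + 4 * (q p * N p * Kd) + 4 * (q f * N p * Kd) +
          4 * (q p * N f * Kd) := by rw [hKd]; ring
    rw [e1] at h1
    rw [e2] at h2
    rw [e3] at h3
    rw [e4]
    have h10 : (kab (k f) : ℝ) * Kd ≤ N f * Kd := mul_le_mul_of_nonneg_right h8 hKd0
    have h11 : (N f : ℝ) * Kd ≤ q p * N f * Kd := by
      have := mul_le_mul_of_nonneg_right h7 (mul_nonneg hNf hKd0)
      linarith
    have h12 : 0 ≤ (q f : ℝ) * N p * Kd := by positivity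
    linarith

theorem dY_le (G : Geo V) (P : BP V) (be : V → ℝ) (hbe : ∀ j, 0 < be j) (hs : Summable be) (bB : ℝ)
    (hbB : 0 ≤ bB) (hbr : ∀ j, (be j)⁻¹ ≤ (G.br j) ^ bB) (w w' : V → ℝ) (om om' : ℕ → V → ℝ)
    (T : ℕ)
    (hom : ∀ s, s < T → ∀ j, |om s j - om' s j| ≤ |w j - w' j| + (be j)⁻¹ * DD be w w') (h : Tr V)
    (hg : Good G P h) (hb : birth G P h ≤ T) (i : V) (hi : i ∈ A h) :
    dY G P om om' h ≤ 4 * q h * N h * (G.br i * (1 + L G h)) ^ bB * DD be w w' := by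
  have hc := good_conn G P h hg
  have hb0 : 0 ≤ G.br i := zero_le_one.trans (G.one_le_br i)
  have hL : (0 : ℝ) ≤ 1 + L G h := by positivity
  exact dY_le_aux_lipb G P be hbe hs _ (Real.rpow_nonneg (mul_nonneg hb0 hL) _) (A h)
    (inv_be_le_lipb G be bB hbB hbr h hc i hi) w w' om om' T hom h hg hb (le_refl _)

end Tr

end KX
end

section

/-!
# Lipschitz dependence of the products of divisors
-/

set_option autoImplicit false

namespace KX

variable {V : Type} [DecidableEq V]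

namespace Tr

theorem q_le_lipc (G : Geo V) (P : BP V) (h : Tr V) : (q h : ℝ) ≤ mass G P h / P.mu := by
  rw [le_div_iff₀ P.mu_pos, mul_comm]
  exact mu_q_le_mass G P h

theorem N_add_L_le_lipc (G : Geo V) (P : BP V) (h : Tr V) :
    (N h : ℝ) + L G h ≤ mass G P h / P.de := by
  rw [le_div_iff₀ P.de_pos]
  have h1 : 0 ≤ P.mu * q h := mul_nonneg P.mu_pos.le (Nat.cast_nonneg _)
  have h2 : 0 ≤ P.la * o P.B h := mul_nonneg P.la_pos.le (Nat.cast_nonneg _)
  have h3 : mass G P h = P.mu * q h + P.la * o P.B h + P.de * (N h + L G h) := rfl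
  rw [h3]
  linarith

theorem mg_smul_lipc (c : ℝ) (w : V → ℝ) (h : Tr V) : mg (fun i => c * w i) h = c * mg w h := by
  induction h with
  | leaf l =>
    have h1 : mg (fun i => c * w i) (leaf l) = 0 := rfl
    have h2 : mg w (leaf l) = 0 := rfl
    rw [h1, h2, mul_zero]
  | node j f p ihf ihp =>
    have h1 : mg (fun i => c * w i) (node j f p) = (∑ i ∈ A f ∩ A p, c * w i) +
      mg (fun i => c * w i) f + mg (fun i => c * w i) p := rfl
    have h2 : mg w (node j f p) = (∑ i ∈ A f ∩ A p, w i) + mg w f + mg w p := rfl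
    rw [h1, h2, ihf, ihp, ← Finset.mul_sum]
    ring

theorem log_br_nonneg_lipc (G : Geo V) (i : V) : 0 ≤ Real.log (G.br i) :=
  Real.log_nonneg (G.one_le_br i)

/-- the Lipschitz bound for a node: its site is charged by `mg` -/
theorem lip_node_lipc (G : Geo V) (P : BP V) (c : ℝ) (th bB : ℝ) (hbB : 0 ≤ bB)
    (hc : 0 ≤ c) (hth : 0 ≤ th)
    (C12 : ∀ m : ℝ, P.mu ≤ m → 1 + 4 * (m / P.mu) * (m / P.de) * (1 + m / P.de) ^ bB ≤
      Real.exp (th * m)) (h : Tr V) (i : V)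
    (hi : Real.log (G.br i) ≤ mg (fun j => Real.log (G.br j)) h) :
    Real.exp (4 * th * mass G P h + mg (fun j => c * Real.log (G.br j)) h) +
      Real.exp (4 * th * mass G P h + mg (fun j => c * Real.log (G.br j)) h) *
      Real.exp (4 * th * mass G P h + mg (fun j => c * Real.log (G.br j)) h) *
        (4 * q h * N h * (G.br i * (1 + L G h)) ^ bB) ≤
      Real.exp (9 * th * mass G P h + mg (fun j => (2 * c + bB) * Real.log (G.br j)) h) := by
  set m := mass G P h with hm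
  set M := mg (fun j => Real.log (G.br j)) h with hM
  have hM0 : 0 ≤ M := mg_nonneg _ (log_br_nonneg_lipc G) h
  have hm0 : 0 ≤ m := P.mu_pos.le.trans (mu_le_mass G P h)
  rw [mg_smul_lipc c, mg_smul_lipc (2 * c + bB), ← hM]
  have hq := q_le_lipc G P h
  have hNL := N_add_L_le_lipc G P h
  rw [← hm] at hq hNL
  have hq0 : (0 : ℝ) ≤ q h := Nat.cast_nonneg _
  have hN0 : (0 : ℝ) ≤ N h := Nat.cast_nonneg _
  have hL0 : (0 : ℝ) ≤ L G h := Nat.cast_nonneg _
  have hN : (N h : ℝ) ≤ m / P.de := by linarith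
  have hL : (L G h : ℝ) ≤ m / P.de := by linarith
  have hmd : 0 ≤ m / P.de := div_nonneg hm0 P.de_pos.le
  have hmm : 0 ≤ m / P.mu := div_nonneg hm0 P.mu_pos.le
  have hb1 : 1 ≤ G.br i := G.one_le_br i
  have hb0 : 0 < G.br i := by linarith
  have e1 : (G.br i * (1 + (L G h : ℝ))) ^ bB ≤ Real.exp (bB * M) * (1 + m / P.de) ^ bB := by
    rw [Real.mul_rpow hb0.le (by linarith)]
    refine mul_le_mul ?_ (Real.rpow_le_rpow (by linarith) (by linarith) hbB)
      (Real.rpow_nonneg (by linarith) _) (Real.exp_pos _).le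
    rw [Real.rpow_def_of_pos hb0]
    apply Real.exp_le_exp.2
    rw [mul_comm]
    exact mul_le_mul_of_nonneg_left hi hbB
  have hr0 : 0 ≤ (1 + m / P.de) ^ bB := Real.rpow_nonneg (by linarith) _
  have e2 : 4 * (q h : ℝ) * N h * (G.br i * (1 + (L G h : ℝ))) ^ bB ≤
      Real.exp (bB * M) * (4 * (m / P.mu) * (m / P.de) * (1 + m / P.de) ^ bB) := by
    calc 4 * (q h : ℝ) * N h * (G.br i * (1 + (L G h : ℝ))) ^ bB
        ≤ 4 * (m / P.mu) * (m / P.de) * (Real.exp (bB * M) * (1 + m / P.de) ^ bB) := by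
          have := Real.rpow_nonneg (mul_nonneg hb0.le (by linarith : (0 : ℝ) ≤ 1 + L G h)) bB
          gcongr
      _ = _ := by ring
  have e3 : Real.exp (4 * th * m + c * M) ≤ Real.exp (8 * th * m + (2 * c + bB) * M) := by
    apply Real.exp_le_exp.2
    have h1 : 0 ≤ th * m := mul_nonneg hth hm0
    have h2 : 0 ≤ c * M := mul_nonneg hc hM0
    have h3 : 0 ≤ bB * M := mul_nonneg hbB hM0
    linarith
  have e4 : Real.exp (4 * th * m + c * M) * Real.exp (4 * th * m + c * M) *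
      Real.exp (bB * M) = Real.exp (8 * th * m + (2 * c + bB) * M) := by
    rw [← Real.exp_add, ← Real.exp_add]
    congr 1
    ring
  have e5 : Real.exp (8 * th * m + (2 * c + bB) * M) * Real.exp (th * m) =
      Real.exp (9 * th * m + (2 * c + bB) * M) := by
    rw [← Real.exp_add]
    congr 1
    ring
  rw [← e5]
  have e6 := C12 m (mu_le_mass G P h)
  have e7 := mul_le_mul_of_nonneg_left e2
    (mul_nonneg (Real.exp_pos (4 * th * m + c * M)).le (Real.exp_pos (4 * th * m + c * M)).le)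
  have e9 : Real.exp (4 * th * m + c * M) * Real.exp (4 * th * m + c * M) *
      (Real.exp (bB * M) * (4 * (m / P.mu) * (m / P.de) * (1 + m / P.de) ^ bB)) =
      Real.exp (8 * th * m + (2 * c + bB) * M) *
        (4 * (m / P.mu) * (m / P.de) * (1 + m / P.de) ^ bB) := by
    rw [← e4]
    ring
  rw [e9] at e7
  have e8 := mul_le_mul_of_nonneg_left e6 (Real.exp_pos (8 * th * m + (2 * c + bB) * M)).le
  rw [mul_add, mul_one] at e8
  linarith

/-- the `RB` bound of the product of the inverse divisors. `C12` absorbs the polynomial factors. -/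
theorem RB_YY (G : Geo V) (P : BP V) (C : CC) (T : ℕ) (hC : C.OK G P T) (be : V → ℝ)
    (hbe : ∀ j, 0 < be j) (hs : Summable be) (bB : ℝ) (hbB : 0 ≤ bB)
    (hbr : ∀ j, (be j)⁻¹ ≤ (G.br j) ^ bB)
    (C12 : ∀ m : ℝ, P.mu ≤ m → 1 + 4 * (m / P.mu) * (m / P.de) * (1 + m / P.de) ^ bB ≤
      Real.exp (C.th * m))
    (Gd : Set (V → ℝ)) (om : ℕ → (V → ℝ) → V → ℝ) (t : ℕ) (ht : t ≤ T)
    (hhat : ∀ h : Tr V, Good G P h → birth G P h ≤ t → ∀ w ∈ Gd,
      hatY G P (fun s => om s w) h ≤ Real.exp (4 * C.th * mass G P h +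
        mg (fun j => (C.bD + C.bb + C.bq) * Real.log (G.br j)) h))
    (hne : ∀ s, s < t → ∀ w ∈ Gd, ∀ k : V →₀ ℤ, k ≠ 0 → dot k (om s w) ≠ 0)
    (hom : ∀ s, s < t → ∀ w ∈ Gd, ∀ w' ∈ Gd, ∀ j,
      |om s w j - om s w' j| ≤ |w j - w' j| + (be j)⁻¹ * DD be w w')
    (h : Tr V) (hg : Good G P h) (hb : birth G P h ≤ t) :
    RB be Gd (fun w => YY G P (fun s => om s w) h) (Real.exp (9 * C.th * mass G P h +
      mg (fun j => (2 * (C.bD + C.bb + C.bq) + bB) * Real.log (G.br j)) h)) := by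
  have hc0 : 0 ≤ C.bD + C.bb + C.bq := by linarith [hC.bD0, hC.bb0, hC.bq0]
  have hm0 : 0 ≤ mass G P h := P.mu_pos.le.trans (mu_le_mass G P h)
  have hE : ∀ w ∈ Gd, ‖YY G P (fun s => om s w) h‖ ≤ Real.exp (4 * C.th * mass G P h +
      mg (fun j => (C.bD + C.bb + C.bq) * Real.log (G.br j)) h) := fun w hw =>
    (norm_YY_le G P _ h).trans (hhat h hg hb w hw)
  match h, hg, hb, hm0, hE with
  | leaf l, _, _, hm0, _ =>
    refine ⟨1, 0, zero_le_one, le_refl _, ?_, ?_, ?_⟩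
    · rw [add_zero]
      apply Real.one_le_exp
      have h1 : mg (fun j => (2 * (C.bD + C.bb + C.bq) + bB) * Real.log (G.br j)) (leaf l) = 0 :=
        rfl
      rw [h1, add_zero]
      have := mul_nonneg hC.th0 hm0
      linarith
    · intro w _
      have h1 : YY G P (fun s => om s w) (leaf l) = 1 := rfl
      simp only [h1, norm_one, le_refl]
    · intro w _ w' _
      have h1 : YY G P (fun s => om s w) (leaf l) = 1 := rfl
      have h2 : YY G P (fun s => om s w') (leaf l) = 1 := rfl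
      simp only [h1, h2, sub_self, norm_zero, zero_mul, le_refl]
  | node j f p, hg, hb, hm0, hE =>
    have hj := kap_mem j f p hg.2.2.2.2.1
    have hjA : j ∈ A (node j f p) := Finset.mem_union_left _ hj.1
    have hjm : Real.log (G.br j) ≤ mg (fun j => Real.log (G.br j)) (node j f p) := by
      have h1 : mg (fun j => Real.log (G.br j)) (node j f p) =
        (∑ i ∈ A f ∩ A p, Real.log (G.br i)) + mg (fun j => Real.log (G.br j)) f +
          mg (fun j => Real.log (G.br j)) p := rfl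
      rw [h1]
      have h2 := mg_nonneg _ (log_br_nonneg_lipc G) f
      have h3 := mg_nonneg _ (log_br_nonneg_lipc G) p
      have h4 : Real.log (G.br j) ≤ ∑ i ∈ A f ∩ A p, Real.log (G.br i) :=
        Finset.single_le_sum (f := fun i => Real.log (G.br i))
          (fun i _ => log_br_nonneg_lipc G i) (Finset.mem_inter.2 hj)
      linarith
    have key := lip_node_lipc G P (C.bD + C.bb + C.bq) C.th bB hbB hc0 hC.th0 C12 (node j f p) j
      hjm
    set h := node j f p with hh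
    have hb0 : 0 ≤ G.br j * (1 + (L G h : ℝ)) := mul_nonneg
      (zero_le_one.trans (G.one_le_br j)) (by positivity)
    refine ⟨_, _, (Real.exp_pos (4 * C.th * mass G P h +
      mg (fun j => (C.bD + C.bb + C.bq) * Real.log (G.br j)) h)).le, ?_, key, hE, ?_⟩
    · have := Real.rpow_nonneg hb0 bB
      positivity
    · intro w hw w' hw'
      have hne1 : ∀ v ∈ Gd, ∀ y : Dv h,
          dot (k (sub h y)) (om (tau G P (sub h y)) v) ≠ 0 := by
        intro v hv y
        obtain ⟨-, -, hk, ht'⟩ := good_sub G P h hg y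
        exact hne _ (lt_of_lt_of_le ht' hb) v hv _ hk
      have h1 := YY_sub_le G P (fun s => om s w) (fun s => om s w') h (hne1 w hw) (hne1 w' hw')
      have h2 := dY_le G P be hbe hs bB hbB hbr w w' (fun s => om s w) (fun s => om s w') t
        (fun s hs' j => hom s hs' w hw w' hw' j) h hg hb j hjA
      have h3 := hhat h hg hb w hw
      have h4 := hhat h hg hb w' hw'
      have h5 : 0 ≤ hatY G P (fun s => om s w) h :=
        zero_le_one.trans (one_le_hatY G P _ h)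
      have h6 : 0 ≤ hatY G P (fun s => om s w') h :=
        zero_le_one.trans (one_le_hatY G P _ h)
      have h7 := dY_nonneg_lipa G P (fun s => om s w) (fun s => om s w') h
      refine h1.trans ?_
      rw [mul_assoc (Real.exp _ * Real.exp _)]
      refine mul_le_mul (mul_le_mul h3 h4 h6 (Real.exp_pos _).le) ?_ h7
        (mul_nonneg (Real.exp_pos _).le (Real.exp_pos _).le)
      exact h2

end Tr

end KX
end

section

/-!
# Lipschitz dependence of the products of divisors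
-/

set_option autoImplicit false

namespace KX

variable {V : Type} [DecidableEq V]

/-- the `RB` bound of the product of the leaf coefficients -/
theorem RB_cP (be : V → ℝ) (hbe : ∀ j, 0 ≤ be j) (Gd : Set (V → ℝ)) (P0 : Lbl V → (V → ℝ) → ℂ)
    (b : Lbl V → ℝ) (hP : ∀ l, RB be Gd (P0 l) (b l)) (h : Tr V) :
    RB be Gd (fun w => cP (fun l => P0 l w) h) (chr b h) := by
  induction h with
  | leaf l => exact hP l
  | node j f p ihf ihp =>
    have h1 : chr b (Tr.node j f p) = |(Tr.kap j f p : ℝ)| * chr b f * chr b p := rfl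
    have h2 : (fun w => cP (fun l => P0 l w) (Tr.node j f p)) = fun w =>
      Complex.I * (Tr.kap j f p : ℂ) * cP (fun l => P0 l w) f * cP (fun l => P0 l w) p := rfl
    have h3 : ‖Complex.I * (Tr.kap j f p : ℂ)‖ = |(Tr.kap j f p : ℝ)| := by
      rw [norm_mul, Complex.norm_I, one_mul, Complex.norm_intCast]
    have h4 : RB be Gd (fun _ => Complex.I * (Tr.kap j f p : ℂ)) |(Tr.kap j f p : ℝ)| := by
      rw [← h3]
      exact RB.const _
    rw [h1, h2]
    exact RB.mul hbe (RB.mul hbe h4 ihf) ihp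

end KX
end

section

/-!
# Norms on trees

`nrQ wt x u = ∑_h u h * wt h * exp (x * N h)`. The weight is submultiplicative up to the factor `R`
(`hw`), and `∑_j |kap j f p| ≤ N f * N p`.
-/

set_option autoImplicit false

namespace KX

open scoped ENNReal

variable {V : Type} [DecidableEq V]

/-- weighted sum over all trees -/
noncomputable def nrQ (wt : Tr V → ℝ≥0∞) (x : ℝ) (u : Tr V → ℝ≥0∞) : ℝ≥0∞ :=
  ∑' h, u h * wt h * ENNReal.ofReal (Real.exp (x * Tr.N h))

/-- sum over trees = sum over leaves + sum over nodes -/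
theorem tsum_tr (g : Tr V → ℝ≥0∞) :
    ∑' h, g h = ∑' l, g (Tr.leaf l) + ∑' x : V × Tr V × Tr V, g (Tr.node x.1 x.2.1 x.2.2) := by
  have hs : (Set.range (Tr.leaf : Lbl V → Tr V))ᶜ =
      Set.range (fun x : V × Tr V × Tr V => Tr.node x.1 x.2.1 x.2.2) := by
    ext h
    cases h with
    | leaf l => simp
    | node j f p => simp
  have h1 := ENNReal.summable.tsum_add_tsum_compl (f := g)
    (s := Set.range (Tr.leaf : Lbl V → Tr V)) ENNReal.summable
  rw [← h1, hs]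
  congr 1
  · exact tsum_range g (fun a b hab => by injection hab)
  · refine tsum_range g ?_
    rintro ⟨a, b, c⟩ ⟨a', b', c'⟩ hab
    simp only [Tr.node.injEq] at hab
    obtain ⟨rfl, rfl, rfl⟩ := hab
    rfl

theorem nrQ_mono (wt : Tr V → ℝ≥0∞) {x x' : ℝ} (hx : x ≤ x') (u : Tr V → ℝ≥0∞) :
    nrQ wt x u ≤ nrQ wt x' u := by
  unfold nrQ
  refine ENNReal.tsum_le_tsum fun h => ?_
  refine mul_le_mul_right (ENNReal.ofReal_le_ofReal (Real.exp_le_exp.2 ?_)) _
  exact mul_le_mul_of_nonneg_right hx (Nat.cast_nonneg _)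

private theorem tna_kap_sum (f p : Tr V) :
    ∑' j, kae j f p ≤ ((Tr.N f : ℕ) : ℝ≥0∞) * ((Tr.N p : ℕ) : ℝ≥0∞) := by
  have h1 : ∑' j, kae j f p = ∑ j ∈ Tr.A f ∩ Tr.A p, kae j f p := by
    apply tsum_eq_sum
    intro j hj
    unfold kae
    by_contra hne
    apply hj
    have hk : Tr.kap j f p ≠ 0 := by
      intro h0
      apply hne
      simp [h0]
    obtain ⟨h2, h3⟩ := Tr.kap_mem j f p hk
    exact Finset.mem_inter.2 ⟨h2, h3⟩
  rw [h1]
  unfold kae
  have h2 := Tr.sum_kap_le f p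
  calc ∑ j ∈ Tr.A f ∩ Tr.A p, (((Tr.kap j f p).natAbs : ℕ) : ℝ≥0∞)
      = ((∑ j ∈ Tr.A f ∩ Tr.A p, (Tr.kap j f p).natAbs : ℕ) : ℝ≥0∞) := by push_cast; rfl
    _ ≤ ((Tr.N f * Tr.N p : ℕ) : ℝ≥0∞) := by exact_mod_cast h2
    _ = _ := by push_cast; rfl

private theorem tna_N_exp (x y : ℝ) (hy : 0 < y) (n : ℕ) :
    (n : ℝ≥0∞) * ENNReal.ofReal (Real.exp (x * n)) ≤
      ENNReal.ofReal (1 / y) * ENNReal.ofReal (Real.exp ((x + y) * n)) := by
  have h1 : ((n : ℕ) : ℝ≥0∞) = ENNReal.ofReal (n : ℝ) := (ENNReal.ofReal_natCast n).symm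
  rw [h1, ← ENNReal.ofReal_mul (Nat.cast_nonneg n), ← ENNReal.ofReal_mul (by positivity)]
  apply ENNReal.ofReal_le_ofReal
  have h2 : y * n ≤ Real.exp (y * n) := by
    have := Real.add_one_le_exp (y * n)
    linarith
  have h3 : (n : ℝ) ≤ 1 / y * Real.exp (y * n) := by
    rw [one_div, ← div_eq_inv_mul, le_div_iff₀ hy]
    linarith
  have h4 : Real.exp ((x + y) * n) = Real.exp (x * n) * Real.exp (y * n) := by
    rw [← Real.exp_add]
    congr 1
    ring
  rw [h4]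
  calc (n : ℝ) * Real.exp (x * n) ≤ (1 / y * Real.exp (y * n)) * Real.exp (x * n) :=
        mul_le_mul_of_nonneg_right h3 (Real.exp_pos _).le
    _ = 1 / y * (Real.exp (x * n) * Real.exp (y * n)) := by ring

/-- one bracket -/
theorem nrQ_opX (wt : Tr V → ℝ≥0∞) (R : ℝ≥0∞)
    (hw : ∀ j f p, Tr.kap j f p ≠ 0 → wt (Tr.node j f p) ≤ R * wt f * wt p)
    (x y y' : ℝ) (hy : 0 < y) (hy' : 0 < y') (e u : Tr V → ℝ≥0∞) :
    nrQ wt x (opX kae e u) ≤ R * ENNReal.ofReal (1 / (y * y')) * nrQ wt (x + y) e *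
      nrQ wt (x + y') u := by
  set E : Tr V → ℝ≥0∞ := fun f => e f * wt f * ENNReal.ofReal (Real.exp (x * Tr.N f)) with hE
  set U : Tr V → ℝ≥0∞ := fun p => u p * wt p * ENNReal.ofReal (Real.exp (x * Tr.N p)) with hU
  set E' : Tr V → ℝ≥0∞ := fun f => e f * wt f * ENNReal.ofReal (Real.exp ((x + y) * Tr.N f))
    with hE'
  set U' : Tr V → ℝ≥0∞ := fun p => u p * wt p * ENNReal.ofReal (Real.exp ((x + y') * Tr.N p))
    with hU'
  have hEE' : ∀ f, ((Tr.N f : ℕ) : ℝ≥0∞) * E f ≤ ENNReal.ofReal (1 / y) * E' f := by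
    intro f
    have h1 := mul_le_mul_right (tna_N_exp x y hy (Tr.N f)) (e f * wt f)
    calc ((Tr.N f : ℕ) : ℝ≥0∞) * E f = e f * wt f *
          (((Tr.N f : ℕ) : ℝ≥0∞) * ENNReal.ofReal (Real.exp (x * Tr.N f))) := by
          simp only [hE]; ring
      _ ≤ e f * wt f * (ENNReal.ofReal (1 / y) *
          ENNReal.ofReal (Real.exp ((x + y) * Tr.N f))) := h1
      _ = ENNReal.ofReal (1 / y) * E' f := by simp only [hE']; ring
  have hUU' : ∀ p, ((Tr.N p : ℕ) : ℝ≥0∞) * U p ≤ ENNReal.ofReal (1 / y') * U' p := by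
    intro p
    have h1 := mul_le_mul_right (tna_N_exp x y' hy' (Tr.N p)) (u p * wt p)
    calc ((Tr.N p : ℕ) : ℝ≥0∞) * U p = u p * wt p *
          (((Tr.N p : ℕ) : ℝ≥0∞) * ENNReal.ofReal (Real.exp (x * Tr.N p))) := by
          simp only [hU]; ring
      _ ≤ u p * wt p * (ENNReal.ofReal (1 / y') *
          ENNReal.ofReal (Real.exp ((x + y') * Tr.N p))) := h1
      _ = ENNReal.ofReal (1 / y') * U' p := by simp only [hU']; ring
  have hA : ∀ (j : V) (f p : Tr V), opX kae e u (Tr.node j f p) * wt (Tr.node j f p) *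
      ENNReal.ofReal (Real.exp (x * Tr.N (Tr.node j f p))) ≤ kae j f p * (R * (E f * U p)) := by
    intro j f p
    by_cases hk : Tr.kap j f p = 0
    · have h0 : opX kae e u (Tr.node j f p) = 0 := by
        simp [opX, kae, hk]
      rw [h0, zero_mul, zero_mul]
      exact zero_le
    · have h1 := hw j f p hk
      have h2 : ENNReal.ofReal (Real.exp (x * Tr.N (Tr.node j f p))) =
          ENNReal.ofReal (Real.exp (x * Tr.N f)) * ENNReal.ofReal (Real.exp (x * Tr.N p)) := by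
        rw [← ENNReal.ofReal_mul (Real.exp_pos _).le, ← Real.exp_add]
        congr 2
        simp only [Tr.N]
        push_cast
        ring
      rw [h2]
      have h3 : opX kae e u (Tr.node j f p) = kae j f p * e f * u p := rfl
      rw [h3]
      calc kae j f p * e f * u p * wt (Tr.node j f p) *
            (ENNReal.ofReal (Real.exp (x * Tr.N f)) * ENNReal.ofReal (Real.exp (x * Tr.N p)))
          ≤ kae j f p * e f * u p * (R * wt f * wt p) *
            (ENNReal.ofReal (Real.exp (x * Tr.N f)) * ENNReal.ofReal (Real.exp (x * Tr.N p))) := by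
            gcongr
        _ = kae j f p * (R * (E f * U p)) := by simp only [hE, hU]; ring
  have h1 : nrQ wt x (opX kae e u) ≤ ∑' x' : V × Tr V × Tr V,
      kae x'.1 x'.2.1 x'.2.2 * (R * (E x'.2.1 * U x'.2.2)) := by
    unfold nrQ
    rw [tsum_tr]
    have h0 : ∑' l : Lbl V, opX kae e u (Tr.leaf l) * wt (Tr.leaf l) *
        ENNReal.ofReal (Real.exp (x * Tr.N (Tr.leaf l))) = 0 := by
      simp [opX]
    rw [h0, zero_add]
    exact ENNReal.tsum_le_tsum fun x' => hA _ _ _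
  refine h1.trans ?_
  rw [ENNReal.tsum_prod (f := fun (j : V) (q : Tr V × Tr V) =>
    kae j q.1 q.2 * (R * (E q.1 * U q.2))), ENNReal.tsum_comm]
  have h2 : ∀ q : Tr V × Tr V, ∑' j, kae j q.1 q.2 * (R * (E q.1 * U q.2)) ≤
      R * ((ENNReal.ofReal (1 / y) * E' q.1) * (ENNReal.ofReal (1 / y') * U' q.2)) := by
    intro q
    rw [ENNReal.tsum_mul_right]
    calc (∑' j, kae j q.1 q.2) * (R * (E q.1 * U q.2))
        ≤ (((Tr.N q.1 : ℕ) : ℝ≥0∞) * ((Tr.N q.2 : ℕ) : ℝ≥0∞)) * (R * (E q.1 * U q.2)) := by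
          gcongr
          exact tna_kap_sum _ _
      _ = R * ((((Tr.N q.1 : ℕ) : ℝ≥0∞) * E q.1) * (((Tr.N q.2 : ℕ) : ℝ≥0∞) * U q.2)) := by ring
      _ ≤ R * ((ENNReal.ofReal (1 / y) * E' q.1) * (ENNReal.ofReal (1 / y') * U' q.2)) :=
          mul_le_mul' le_rfl (mul_le_mul' (hEE' _) (hUU' _))
  refine (ENNReal.tsum_le_tsum h2).trans (le_of_eq ?_)
  rw [ENNReal.tsum_prod (f := fun (f p : Tr V) =>
    R * ((ENNReal.ofReal (1 / y) * E' f) * (ENNReal.ofReal (1 / y') * U' p)))]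
  have h3 : ∀ f : Tr V, ∑' p : Tr V, R * ((ENNReal.ofReal (1 / y) * E' f) *
      (ENNReal.ofReal (1 / y') * U' p)) =
      E' f * (R * ENNReal.ofReal (1 / y) * ENNReal.ofReal (1 / y') * nrQ wt (x + y') u) := by
    intro f
    have h4 : ∀ p, R * ((ENNReal.ofReal (1 / y) * E' f) * (ENNReal.ofReal (1 / y') * U' p)) =
        (E' f * (R * ENNReal.ofReal (1 / y) * ENNReal.ofReal (1 / y'))) * U' p := by
      intro p
      ring
    simp only [h4]
    rw [ENNReal.tsum_mul_left]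
    unfold nrQ
    ring
  simp only [h3]
  rw [ENNReal.tsum_mul_right]
  have h5 : ENNReal.ofReal (1 / (y * y')) = ENNReal.ofReal (1 / y) * ENNReal.ofReal (1 / y') := by
    rw [← ENNReal.ofReal_mul (by positivity)]
    congr 1
    field_simp
  rw [h5]
  unfold nrQ
  ring

end KX
end

section

/-!
# Norms on trees

`nrQ wt x u = ∑_h u h * wt h * exp (x * N h)`. The weight is submultiplicative up to the factor `R`
(`hw`), and `∑_j |kap j f p| ≤ N f * N p`.
-/

set_option autoImplicit false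

namespace KX

open scoped ENNReal

variable {V : Type} [DecidableEq V]

/-- iterated brackets: use `nrQ_opX` with `y' = y / m` -/
theorem nrQ_iter (wt : Tr V → ℝ≥0∞) (R : ℝ≥0∞)
    (hw : ∀ j f p, Tr.kap j f p ≠ 0 → wt (Tr.node j f p) ≤ R * wt f * wt p)
    (x y : ℝ) (hy : 0 < y) (e u : Tr V → ℝ≥0∞) (m : ℕ) :
    nrQ wt x ((opX kae e)^[m] u) ≤
      (R * ENNReal.ofReal (m / y ^ 2) * nrQ wt (x + 2 * y) e) ^ m * nrQ wt (x + y) u := by
  rcases Nat.eq_zero_or_pos m with hm | hm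
  · subst hm
    simp only [Function.iterate_zero, id_eq, pow_zero, one_mul]
    exact nrQ_mono wt (by linarith) u
  · have hmR : (0 : ℝ) < m := by exact_mod_cast hm
    set δ : ℝ := y / m with hδ
    have hδ0 : 0 < δ := by positivity
    have hmδ : (m : ℝ) * δ = y := by
      rw [hδ]
      field_simp
    set c := R * ENNReal.ofReal (m / y ^ 2) * nrQ wt (x + 2 * y) e with hc
    have key : ∀ k : ℕ, ∀ x' : ℝ, x' + k * δ ≤ x + y →
        nrQ wt x' ((opX kae e)^[k] u) ≤ c ^ k * nrQ wt (x' + k * δ) u := by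
      intro k
      induction k with
      | zero =>
        intro x' _
        simp
      | succ k ih =>
        intro x' hx'
        push_cast at hx'
        have h1 : 0 ≤ (k : ℝ) * δ := by positivity
        rw [Function.iterate_succ_apply']
        refine (nrQ_opX wt R hw x' y δ hy hδ0 e _).trans ?_
        have h2 := ih (x' + δ) (by linarith)
        have h3 : (1 / (y * δ)) = m / y ^ 2 := by
          rw [hδ]
          field_simp
        rw [h3]
        have h4 : nrQ wt (x' + y) e ≤ nrQ wt (x + 2 * y) e := nrQ_mono wt (by linarith) e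
        have h5 : x' + δ + k * δ = x' + ((k + 1 : ℕ) : ℝ) * δ := by
          push_cast
          ring
        rw [h5] at h2
        calc R * ENNReal.ofReal (m / y ^ 2) * nrQ wt (x' + y) e *
              nrQ wt (x' + δ) ((opX kae e)^[k] u)
            ≤ R * ENNReal.ofReal (m / y ^ 2) * nrQ wt (x + 2 * y) e *
              (c ^ k * nrQ wt (x' + ((k + 1 : ℕ) : ℝ) * δ) u) := by
              gcongr
          _ = c ^ (k + 1) * nrQ wt (x' + ((k + 1 : ℕ) : ℝ) * δ) u := by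
              rw [pow_succ', hc]
              ring
    have h := key m x (by rw [hmδ])
    rwa [hmδ] at h

end KX
end

section

/-!
# Norms on trees

`nrQ wt x u = ∑_h u h * wt h * exp (x * N h)`. The weight is submultiplicative up to the factor `R`
(`hw`), and `∑_j |kap j f p| ≤ N f * N p`.
-/

set_option autoImplicit false

namespace KX

open scoped ENNReal

variable {V : Type} [DecidableEq V]

private theorem tnc_fac (m : ℕ) : ((m : ℝ) / 3) ^ m / m.factorial ≤ 1 := by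
  have h1 := Real.pow_div_factorial_le_exp (x := (m : ℝ)) (Nat.cast_nonneg m) m
  have h2 : Real.exp (m : ℝ) ≤ 3 ^ m := by
    have h3 : Real.exp (m : ℝ) = Real.exp 1 ^ m := by
      rw [← Real.exp_nat_mul, mul_one]
    rw [h3]
    have := Real.exp_one_lt_d9
    exact pow_le_pow_left₀ (Real.exp_pos _).le (by linarith) m
  rw [div_pow, div_div, mul_comm, ← div_div]
  rw [div_le_one (by positivity)]
  exact h1.trans h2

private theorem tnc_term (m : ℕ) (c c' : ℝ≥0∞) (y : ℝ) (z : ℝ) (hz : 0 ≤ z)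
    (he : c * ENNReal.ofReal (3 / y ^ 2) * c' ≤ ENNReal.ofReal z) :
    (1 / (m.factorial : ℝ≥0∞)) * (c * ENNReal.ofReal (m / y ^ 2) * c') ^ m ≤
      ENNReal.ofReal (z ^ m) := by
  have h1 : ENNReal.ofReal (m / y ^ 2) =
      ENNReal.ofReal (m / 3) * ENNReal.ofReal (3 / y ^ 2) := by
    rw [← ENNReal.ofReal_mul (by positivity)]
    congr 1
    ring
  have h2 : c * ENNReal.ofReal (m / y ^ 2) * c' =
      ENNReal.ofReal (m / 3) * (c * ENNReal.ofReal (3 / y ^ 2) * c') := by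
    rw [h1]
    ring
  have h3 : (1 / (m.factorial : ℝ≥0∞)) = ENNReal.ofReal (1 / (m.factorial : ℝ)) := by
    rw [ENNReal.ofReal_div_of_pos (by positivity), ENNReal.ofReal_one, ENNReal.ofReal_natCast]
  rw [h2, h3, mul_pow, ← mul_assoc]
  have h4 : ENNReal.ofReal (1 / (m.factorial : ℝ)) * ENNReal.ofReal ((m : ℝ) / 3) ^ m ≤ 1 := by
    rw [← ENNReal.ofReal_pow (by positivity), ← ENNReal.ofReal_mul (by positivity)]
    rw [← ENNReal.ofReal_one]
    apply ENNReal.ofReal_le_ofReal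
    have := tnc_fac m
    rw [one_div, inv_mul_eq_div]
    exact this
  calc ENNReal.ofReal (1 / (m.factorial : ℝ)) * ENNReal.ofReal ((m : ℝ) / 3) ^ m *
        (c * ENNReal.ofReal (3 / y ^ 2) * c') ^ m
      ≤ 1 * (ENNReal.ofReal z) ^ m := by gcongr
    _ = ENNReal.ofReal (z ^ m) := by rw [one_mul, ENNReal.ofReal_pow hz]

private theorem tnc_geom (z : ℝ) (hz : 0 ≤ z) (hz1 : z ≤ 1 / 2) :
    ∑' m : ℕ, ENNReal.ofReal (z ^ m) ≤ ENNReal.ofReal (1 + 2 * z) := by
  have hz2 : z < 1 := by linarith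
  rw [← ENNReal.ofReal_tsum_of_nonneg (fun m => by positivity)
    (summable_geometric_of_lt_one hz hz2), tsum_geometric_of_lt_one hz hz2]
  apply ENNReal.ofReal_le_ofReal
  rw [inv_le_iff_one_le_mul₀ (by linarith)]
  nlinarith

/-- exponential series: `m ^ m / m! ≤ e ^ m` -/
theorem nrQ_exp (wt : Tr V → ℝ≥0∞) (R : ℝ≥0∞)
    (hw : ∀ j f p, Tr.kap j f p ≠ 0 → wt (Tr.node j f p) ≤ R * wt f * wt p)
    (x y : ℝ) (hy : 0 < y) (e u : Tr V → ℝ≥0∞) (z : ℝ) (hz : 0 ≤ z) (hz1 : z ≤ 1 / 2)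
    (he : R * ENNReal.ofReal (3 / y ^ 2) * nrQ wt (x + 2 * y) e ≤ ENNReal.ofReal z) :
    nrQ wt x (fun h => ∑ m ∈ Finset.range (Tr.spine h + 1), (1 / (m.factorial : ℝ≥0∞)) *
      ((opX kae e)^[m] u) h) ≤ ENNReal.ofReal (1 + 2 * z) * nrQ wt (x + y) u := by
  have h1 : nrQ wt x (fun h => ∑ m ∈ Finset.range (Tr.spine h + 1),
      (1 / (m.factorial : ℝ≥0∞)) * ((opX kae e)^[m] u) h) ≤
      ∑' m : ℕ, (1 / (m.factorial : ℝ≥0∞)) * nrQ wt x ((opX kae e)^[m] u) := by
    unfold nrQ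
    have h2 : ∀ m : ℕ, (1 / (m.factorial : ℝ≥0∞)) * ∑' h : Tr V, ((opX kae e)^[m] u) h * wt h *
        ENNReal.ofReal (Real.exp (x * Tr.N h)) = ∑' h : Tr V, (1 / (m.factorial : ℝ≥0∞)) *
        (((opX kae e)^[m] u) h * wt h * ENNReal.ofReal (Real.exp (x * Tr.N h))) := by
      intro m
      rw [ENNReal.tsum_mul_left]
    simp only [h2]
    rw [ENNReal.tsum_comm]
    refine ENNReal.tsum_le_tsum fun h => ?_
    have h3 : (∑ m ∈ Finset.range (Tr.spine h + 1), (1 / (m.factorial : ℝ≥0∞)) *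
        ((opX kae e)^[m] u) h) ≤ ∑' m : ℕ, (1 / (m.factorial : ℝ≥0∞)) *
          ((opX kae e)^[m] u) h := ENNReal.sum_le_tsum _
    calc (∑ m ∈ Finset.range (Tr.spine h + 1), (1 / (m.factorial : ℝ≥0∞)) *
          ((opX kae e)^[m] u) h) * wt h * ENNReal.ofReal (Real.exp (x * Tr.N h))
        ≤ (∑' m : ℕ, (1 / (m.factorial : ℝ≥0∞)) * ((opX kae e)^[m] u) h) * wt h *
          ENNReal.ofReal (Real.exp (x * Tr.N h)) := by gcongr
      _ = ∑' m : ℕ, (1 / (m.factorial : ℝ≥0∞)) *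
        (((opX kae e)^[m] u) h * wt h * ENNReal.ofReal (Real.exp (x * Tr.N h))) := by
          rw [mul_assoc, ← ENNReal.tsum_mul_right]
          congr 1
          funext m
          ring
  refine h1.trans ?_
  have h4 : ∀ m : ℕ, (1 / (m.factorial : ℝ≥0∞)) * nrQ wt x ((opX kae e)^[m] u) ≤
      ENNReal.ofReal (z ^ m) * nrQ wt (x + y) u := by
    intro m
    calc (1 / (m.factorial : ℝ≥0∞)) * nrQ wt x ((opX kae e)^[m] u)
        ≤ (1 / (m.factorial : ℝ≥0∞)) * ((R * ENNReal.ofReal (m / y ^ 2) *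
          nrQ wt (x + 2 * y) e) ^ m * nrQ wt (x + y) u) := by
          gcongr
          exact nrQ_iter wt R hw x y hy e u m
      _ = ((1 / (m.factorial : ℝ≥0∞)) * (R * ENNReal.ofReal (m / y ^ 2) *
          nrQ wt (x + 2 * y) e) ^ m) * nrQ wt (x + y) u := (mul_assoc _ _ _).symm
      _ ≤ ENNReal.ofReal (z ^ m) * nrQ wt (x + y) u := by
          gcongr
          exact tnc_term m R _ y z hz he
  refine (ENNReal.tsum_le_tsum h4).trans ?_
  rw [ENNReal.tsum_mul_right]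
  gcongr
  exact tnc_geom z hz hz1

end KX
end

section

/-!
# From trees to monomials
-/

set_option autoImplicit false

namespace KX

open scoped ENNReal

section gen

variable {κ ι₁ ι₂ M₁ M₂ M' : Type}

/-- two push-forwards at once -/
theorem tmb_push2 (w : M' → ℝ≥0∞) (hw : ∀ m, w m ≠ 0) (T₁ : ι₁ → M₁) (T₂ : ι₂ → M₂)
    (u₁ : ι₁ → ℂ) (u₂ : ι₂ → ℂ) (T' : κ × M₁ × M₂ → M') (c : κ × M₁ × M₂ → ℂ)
    (h : ∑' x : κ × ι₁ × ι₂, ‖c (x.1, T₁ x.2.1, T₂ x.2.2)‖ₑ * ‖u₁ x.2.1‖ₑ * ‖u₂ x.2.2‖ₑ *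
      w (T' (x.1, T₁ x.2.1, T₂ x.2.2)) ≠ ∞) :
    push T' (fun x => c x * push T₁ u₁ x.2.1 * push T₂ u₂ x.2.2) =
      push (fun x : κ × ι₁ × ι₂ => T' (x.1, T₁ x.2.1, T₂ x.2.2))
        (fun x => c (x.1, T₁ x.2.1, T₂ x.2.2) * u₁ x.2.1 * u₂ x.2.2) := by
  have hB : ∑' x : (κ × ι₂) × ι₁, ‖c (x.1.1, T₁ x.2, T₂ x.1.2) * u₂ x.1.2‖ₑ * ‖u₁ x.2‖ₑ *
      w (T' (x.1.1, T₁ x.2, T₂ x.1.2)) ≠ ∞ := by
    let e : (κ × ι₂) × ι₁ ≃ κ × ι₁ × ι₂ :=
      ⟨fun x => (x.1.1, x.2, x.1.2), fun x => ((x.1, x.2.2), x.2.1), fun _ => rfl, fun _ => rfl⟩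
    rw [← Equiv.tsum_eq e] at h
    refine ne_of_eq_of_ne (tsum_congr fun x => ?_) h
    show _ = ‖c (x.1.1, T₁ x.2, T₂ x.1.2)‖ₑ * ‖u₁ x.2‖ₑ * ‖u₂ x.1.2‖ₑ *
      w (T' (x.1.1, T₁ x.2, T₂ x.1.2))
    rw [enorm_mul]
    ring
  have hA : ∑' x : (κ × M₁) × ι₂, ‖c (x.1.1, x.1.2, T₂ x.2) * push T₁ u₁ x.1.2‖ₑ *
      ‖u₂ x.2‖ₑ * w (T' (x.1.1, x.1.2, T₂ x.2)) ≠ ∞ := by
    refine ne_top_of_le_ne_top hB ?_
    let e : (κ × ι₂) × M₁ ≃ (κ × M₁) × ι₂ :=
      ⟨fun x => ((x.1.1, x.2), x.1.2), fun x => ((x.1.1, x.2), x.1.2), fun _ => rfl,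
        fun _ => rfl⟩
    rw [← Equiv.tsum_eq e]
    refine le_trans (le_of_eq ENNReal.tsum_prod') (le_trans ?_ (le_of_eq ENNReal.tsum_prod'.symm))
    refine ENNReal.tsum_le_tsum fun a => ?_
    have h1 := nr_push_le (fun m₁ => ‖c (a.1, m₁, T₂ a.2)‖ₑ * ‖u₂ a.2‖ₑ *
      w (T' (a.1, m₁, T₂ a.2))) T₁ u₁
    refine le_trans (le_of_eq ?_) (h1.trans (le_of_eq ?_))
    · unfold nr
      refine tsum_congr fun m₁ => ?_
      show ‖c (a.1, m₁, T₂ a.2) * push T₁ u₁ m₁‖ₑ * ‖u₂ a.2‖ₑ * w (T' (a.1, m₁, T₂ a.2)) = _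
      rw [enorm_mul]
      ring
    · refine tsum_congr fun i₁ => ?_
      rw [enorm_mul]
      ring
  calc push T' (fun x => c x * push T₁ u₁ x.2.1 * push T₂ u₂ x.2.2)
      = push (fun x : (κ × M₁) × M₂ => T' (x.1.1, x.1.2, x.2))
        (fun x => (c (x.1.1, x.1.2, x.2) * push T₁ u₁ x.1.2) * push T₂ u₂ x.2) :=
        (push_equiv (Equiv.prodAssoc κ M₁ M₂) T' _).symm
    _ = push (fun x : (κ × M₁) × ι₂ => T' (x.1.1, x.1.2, T₂ x.2))
        (fun x => (c (x.1.1, x.1.2, T₂ x.2) * push T₁ u₁ x.1.2) * u₂ x.2) :=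
        push_push w hw T₂ u₂ (fun x : (κ × M₁) × M₂ => T' (x.1.1, x.1.2, x.2))
          (fun x => c (x.1.1, x.1.2, x.2) * push T₁ u₁ x.1.2) hA
    _ = push (fun x : (κ × ι₂) × M₁ => T' (x.1.1, x.2, T₂ x.1.2))
        (fun x => (c (x.1.1, x.2, T₂ x.1.2) * u₂ x.1.2) * push T₁ u₁ x.2) := by
        let e : (κ × ι₂) × M₁ ≃ (κ × M₁) × ι₂ :=
          ⟨fun x => ((x.1.1, x.2), x.1.2), fun x => ((x.1.1, x.2), x.1.2), fun _ => rfl,
            fun _ => rfl⟩
        rw [← push_equiv e]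
        congr 1
        funext x
        show (c (x.1.1, x.2, T₂ x.1.2) * push T₁ u₁ x.2) * u₂ x.1.2 = _
        ring
    _ = push (fun x : (κ × ι₂) × ι₁ => T' (x.1.1, T₁ x.2, T₂ x.1.2))
        (fun x => (c (x.1.1, T₁ x.2, T₂ x.1.2) * u₂ x.1.2) * u₁ x.2) :=
        push_push w hw T₁ u₁ (fun x : (κ × ι₂) × M₁ => T' (x.1.1, x.2, T₂ x.1.2))
          (fun x => c (x.1.1, x.2, T₂ x.1.2) * u₂ x.1.2) hB
    _ = push (fun x : κ × ι₁ × ι₂ => T' (x.1, T₁ x.2.1, T₂ x.2.2))
        (fun x => c (x.1, T₁ x.2.1, T₂ x.2.2) * u₁ x.2.1 * u₂ x.2.2) := by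
        let e : (κ × ι₂) × ι₁ ≃ κ × ι₁ × ι₂ :=
          ⟨fun x => (x.1.1, x.2, x.1.2), fun x => ((x.1, x.2.2), x.2.1), fun _ => rfl,
            fun _ => rfl⟩
        rw [← push_equiv e (fun x : κ × ι₁ × ι₂ => T' (x.1, T₁ x.2.1, T₂ x.2.2))]
        congr 1
        funext x
        show _ = c (x.1.1, T₁ x.2, T₂ x.1.2) * u₁ x.2 * u₂ x.1.2
        ring

end gen

variable {V : Type} [DecidableEq V]

theorem tmb_amn_pos (G : Geo V) (n : V →₀ ℕ) : 0 < amn G.a n :=
  Finset.prod_pos fun j _ => pow_pos (G.a_pos j) _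

theorem tmb_ainv_pos (G : Geo V) (A : Finset V) : 0 < G.ainv A :=
  lt_of_lt_of_le one_pos (G.one_le_ainv A)

theorem tmb_wT (G : Geo V) (rho s : ℝ) (hr : 0 < rho) (h : Tr V) :
    wT G rho s h = wT G rho 0 h * ENNReal.ofReal (Real.exp (s * Tr.N h)) := by
  have h1 := tmb_amn_pos G (Tr.n h)
  have h2 := tmb_ainv_pos G (Tr.A h)
  unfold wT
  rw [← ENNReal.ofReal_mul (by positivity)]
  congr 1
  rw [zero_mul, Real.exp_zero]
  ring

theorem tmb_wm_le (G : Geo V) (rho s : ℝ) (hr : 0 < rho) (hs : 0 ≤ s) (h : Tr V) :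
    wm G rho s (mon h) ≤ wT G rho s h := by
  have h1 := tmb_amn_pos G (Tr.n h)
  have h2 := G.one_le_ainv (Tr.A h)
  have h3 := Tr.nk_le_N h
  unfold wm wT
  apply ENNReal.ofReal_le_ofReal
  show rho ^ dgr (Tr.n h) * amn G.a (Tr.n h) * Real.exp (s * NM (mon h)) ≤
    rho ^ dgr (Tr.n h) * amn G.a (Tr.n h) * Real.exp (s * Tr.N h) * G.ainv (Tr.A h)
  have h4 : Real.exp (s * NM (mon h)) ≤ Real.exp (s * Tr.N h) := by
    apply Real.exp_le_exp.2
    apply mul_le_mul_of_nonneg_left _ hs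
    exact_mod_cast h3
  calc rho ^ dgr (Tr.n h) * amn G.a (Tr.n h) * Real.exp (s * NM (mon h))
      ≤ rho ^ dgr (Tr.n h) * amn G.a (Tr.n h) * Real.exp (s * Tr.N h) :=
        mul_le_mul_of_nonneg_left h4 (by positivity)
    _ ≤ rho ^ dgr (Tr.n h) * amn G.a (Tr.n h) * Real.exp (s * Tr.N h) * G.ainv (Tr.A h) :=
        le_mul_of_one_le_right (by positivity) h2

theorem tmb_enorm_opX (e u : Tr V → ℂ) (h : Tr V) :
    ‖opX ika e u h‖ₑ = opX kae (fun h => ‖e h‖ₑ) (fun h => ‖u h‖ₑ) h := by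
  cases h with
  | leaf l => simp [opX]
  | node j f p =>
    show ‖ika j f p * e f * u p‖ₑ = kae j f p * ‖e f‖ₑ * ‖u p‖ₑ
    rw [enorm_mul, enorm_mul]
    congr 2
    unfold ika kae
    rw [enorm_mul]
    have h1 : ‖Complex.I‖ₑ = 1 := by
      rw [← ofReal_norm]
      simp
    rw [h1, one_mul, ← ofReal_norm, Complex.norm_intCast, ← Int.cast_abs,
      Int.abs_eq_natAbs, Int.cast_natCast, ENNReal.ofReal_natCast]

/-- finiteness for the tree bracket -/
theorem tmb_sum (G : Geo V) (rho s y y' : ℝ) (hr : 0 < rho) (hy : 0 < y)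
    (hy' : 0 < y') (e u : Tr V → ℂ) :
    ∑' h, ‖opX ika e u h‖ₑ * wT G rho s h ≤ ENNReal.ofReal (1 / (rho * y * y')) *
      (∑' h, ‖e h‖ₑ * wT G rho (s + y) h) * ∑' h, ‖u h‖ₑ * wT G rho (s + y') h := by
  have hn : ∀ (x : ℝ) (v : Tr V → ℂ), ∑' h, ‖v h‖ₑ * wT G rho x h =
      nrQ (wT G rho 0) x (fun h => ‖v h‖ₑ) := by
    intro x v
    unfold nrQ
    refine tsum_congr fun h => ?_
    rw [tmb_wT G rho x hr h, mul_assoc]
  have h1 := nrQ_opX (wT G rho 0) (ENNReal.ofReal (1 / rho))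
    (fun j f p hk => wT_node_le G rho 0 hr j f p hk) s y y' hy hy' (fun h => ‖e h‖ₑ)
    (fun h => ‖u h‖ₑ)
  rw [hn, hn, hn]
  have h2 : (fun h => ‖opX ika e u h‖ₑ) = opX kae (fun h => ‖e h‖ₑ) (fun h => ‖u h‖ₑ) := by
    funext h
    exact tmb_enorm_opX e u h
  rw [h2]
  refine h1.trans (le_of_eq ?_)
  congr 2
  rw [← ENNReal.ofReal_mul (by positivity)]
  congr 1
  field_simp

theorem tmb_inj : Function.Injective fun x : V × Tr V × Tr V => Tr.node x.1 x.2.1 x.2.2 := by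
  rintro ⟨j, f, p⟩ ⟨j', f', p'⟩ h
  simp only [Tr.node.injEq] at h
  obtain ⟨rfl, rfl, rfl⟩ := h
  rfl

theorem tmb_pt (e u : Tr V → ℂ) : pt (opX ika e u) =
    push (fun x : V × Tr V × Tr V => mon (Tr.node x.1 x.2.1 x.2.2))
      (fun x => ika x.1 x.2.1 x.2.2 * e x.2.1 * u x.2.2) := by
  classical
  funext m
  unfold pt push
  rw [← Function.Injective.tsum_eq tmb_inj]
  · rfl
  · intro h hh
    cases h with
    | leaf l =>
      exfalso
      apply hh
      simp [opX]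
    | node j f p => exact ⟨(j, f, p), rfl⟩

theorem tmb_mon (j : V) (f p : Tr V) : mon (Tr.node j f p) = tgt j (mon p) (mon f) := by
  unfold mon tgt
  simp only [Tr.n, Tr.k]
  rw [add_comm (Tr.n f), add_comm (Tr.k f)]

theorem tmb_kap (j : V) (f p : Tr V) : kapm j (mon p) (mon f) = Tr.kap j f p := rfl

/-- the tree bracket is mapped to the bracket -/
theorem pt_opX (G : Geo V) (rho s y : ℝ) (hr : 0 < rho) (hs : 0 ≤ s) (hy : 0 < y)
    (e u : Tr V → ℂ) (he : ∑' h, ‖e h‖ₑ * wT G rho (s + y) h ≠ ∞)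
    (hu : ∑' h, ‖u h‖ₑ * wT G rho (s + y) h ≠ ∞) :
    pt (opX ika e u) = XX (pt e) (pt u) := by
  have hfin : ∑' h, ‖opX ika e u h‖ₑ * wT G rho s h ≠ ∞ :=
    ne_top_of_le_ne_top (ENNReal.mul_ne_top (ENNReal.mul_ne_top ENNReal.ofReal_ne_top he) hu)
      (tmb_sum G rho s y y hr hy hy e u)
  let sw : V × Tr V × Tr V ≃ V × Tr V × Tr V :=
    ⟨fun x => (x.1, x.2.2, x.2.1), fun x => (x.1, x.2.2, x.2.1), fun _ => rfl, fun _ => rfl⟩
  have hfin2 : ∑' x : V × Tr V × Tr V,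
      ‖Complex.I * (kapm x.1 (mon x.2.1) (mon x.2.2) : ℂ)‖ₑ * ‖u x.2.1‖ₑ * ‖e x.2.2‖ₑ *
        wm G rho s (tgt x.1 (mon x.2.1) (mon x.2.2)) ≠ ∞ := by
    refine ne_top_of_le_ne_top hfin ?_
    rw [← Equiv.tsum_eq sw]
    refine le_trans ?_ (ENNReal.tsum_comp_le_tsum_of_injective tmb_inj _)
    refine ENNReal.tsum_le_tsum fun x => ?_
    obtain ⟨j, f, p⟩ := x
    show ‖Complex.I * (kapm j (mon p) (mon f) : ℂ)‖ₑ * ‖u p‖ₑ * ‖e f‖ₑ *
        wm G rho s (tgt j (mon p) (mon f)) ≤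
      ‖ika j f p * e f * u p‖ₑ * wT G rho s (Tr.node j f p)
    rw [← tmb_mon, tmb_kap, enorm_mul (ika j f p * e f), enorm_mul (ika j f p)]
    have h1 : ‖Complex.I * (Tr.kap j f p : ℂ)‖ₑ * ‖u p‖ₑ * ‖e f‖ₑ =
        ‖ika j f p‖ₑ * ‖e f‖ₑ * ‖u p‖ₑ := by
      unfold ika
      ring
    rw [h1]
    exact mul_le_mul_right (tmb_wm_le G rho s hr hs _) _
  have h2 := tmb_push2 (wm G rho s) (wm_ne_zero G rho s hr) (mon (V := V)) (mon (V := V)) u e
    (fun x : V × Mon V × Mon V => tgt x.1 x.2.1 x.2.2)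
    (fun x => Complex.I * (kapm x.1 x.2.1 x.2.2 : ℂ)) hfin2
  have h3 : XX (pt e) (pt u) = push (fun x : V × Mon V × Mon V => tgt x.1 x.2.1 x.2.2)
      (fun x => Complex.I * (kapm x.1 x.2.1 x.2.2 : ℂ) * push mon u x.2.1 * push mon e x.2.2) :=
    rfl
  rw [h3, h2, tmb_pt, ← push_equiv sw (fun x : V × Tr V × Tr V =>
    tgt x.1 (mon x.2.1) (mon x.2.2))]
  congr 1
  · funext x
    exact tmb_mon x.1 x.2.1 x.2.2
  · funext x
    show ika x.1 x.2.1 x.2.2 * e x.2.1 * u x.2.2 =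
      Complex.I * (kapm x.1 (mon x.2.2) (mon x.2.1) : ℂ) * u x.2.2 * e x.2.1
    rw [tmb_kap]
    unfold ika
    ring

/-- finiteness for the tree bracket -/
theorem sum_opX_le (G : Geo V) (rho s y y' : ℝ) (hr : 0 < rho) (hs : 0 ≤ s) (hy : 0 < y)
    (hy' : 0 < y') (e u : Tr V → ℂ) :
    ∑' h, ‖opX ika e u h‖ₑ * wT G rho s h ≤ ENNReal.ofReal (1 / (rho * y * y')) *
      (∑' h, ‖e h‖ₑ * wT G rho (s + y) h) * ∑' h, ‖u h‖ₑ * wT G rho (s + y') h :=
  tmb_sum G rho s y y' hr hy hy' e u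

end KX
end

section

/-!
# From trees to monomials
-/

set_option autoImplicit false
set_option linter.unusedSectionVars false

namespace KX

open scoped ENNReal

variable {V : Type} [DecidableEq V]

theorem wT_mono_TMc (G : Geo V) (rho : ℝ) (hr : 0 < rho) {s s' : ℝ} (hs : s ≤ s') (h : Tr V) :
    wT G rho s h ≤ wT G rho s' h := by
  unfold wT
  apply ENNReal.ofReal_le_ofReal
  have p1 := amn_pos_TMa G (Tr.n h)
  have h3 : Real.exp (s * Tr.N h) ≤ Real.exp (s' * Tr.N h) :=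
    Real.exp_le_exp.2 (mul_le_mul_of_nonneg_right hs (Nat.cast_nonneg _))
  have h4 : 0 ≤ G.ainv (Tr.A h) := zero_le_one.trans (G.one_le_ainv _)
  gcongr

theorem sum_wT_ne_top_TMc (G : Geo V) (rho : ℝ) (hr : 0 < rho) {s s' : ℝ} (hs : s ≤ s')
    (u : Tr V → ℂ) (hu : ∑' h, ‖u h‖ₑ * wT G rho s' h ≠ ∞) :
    ∑' h, ‖u h‖ₑ * wT G rho s h ≠ ∞ :=
  ne_top_of_le_ne_top hu
    (ENNReal.tsum_le_tsum fun h => mul_le_mul_right (wT_mono_TMc G rho hr hs h) _)

theorem pt_iter (G : Geo V) (rho s y : ℝ) (hr : 0 < rho) (hs : 0 ≤ s) (hy : 0 < y)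
    (e u : Tr V → ℂ) (he : ∑' h, ‖e h‖ₑ * wT G rho (s + y) h ≠ ∞)
    (hu : ∑' h, ‖u h‖ₑ * wT G rho (s + y) h ≠ ∞) (n : ℕ) :
    pt ((opX ika e)^[n] u) = (XX (pt e))^[n] (pt u) := by
  induction n generalizing y u with
  | zero => rfl
  | succ n ih =>
    rw [Function.iterate_succ_apply, Function.iterate_succ_apply]
    have hy2 : 0 < y / 2 := by positivity
    have hs2 : 0 ≤ s + y / 2 := by positivity
    have e1 : s + y / 2 + y / 2 = s + y := by ring
    have he2 : ∑' h, ‖e h‖ₑ * wT G rho (s + y / 2) h ≠ ∞ :=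
      sum_wT_ne_top_TMc G rho hr (by linarith) e he
    have h1 := sum_opX_le G rho (s + y / 2) (y / 2) (y / 2) hr hs2 hy2 hy2 e u
    rw [e1] at h1
    have h2 : ∑' h, ‖opX ika e u h‖ₑ * wT G rho (s + y / 2) h ≠ ∞ :=
      ne_top_of_le_ne_top (ENNReal.mul_ne_top (ENNReal.mul_ne_top ENNReal.ofReal_ne_top he) hu) h1
    rw [ih (y / 2) hy2 (opX ika e u) he2 h2, pt_opX G rho s y hr hs hy e u he hu]

end KX
end

section

/-!
# Union bounds for the small divisor conditions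
-/

set_option autoImplicit false

namespace KX

open MeasureTheory

open scoped ENNReal

variable {V : Type} [DecidableEq V]

/-- height of a tree -/
def ht_PTb : Tr V → ℕ
  | Tr.leaf _ => 0
  | Tr.node _ f p => max (ht_PTb f) (ht_PTb p) + 1

/-- the weight of a tree in `tree_sum` -/
noncomputable def W_PTb (G : Geo V) (C : CC) (h : Tr V) : ℝ≥0∞ :=
  ENNReal.ofReal (35 ^ Tr.q h * Real.exp (-(C.ell * Tr.ca h +
    C.dpp * (Tr.N h + Tr.L G h) + C.c * Tr.q h)))

theorem W_node_PTb (G : Geo V) (C : CC) (j : V) (f p : Tr V) :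
    W_PTb G C (Tr.node j f p) = W_PTb G C f * W_PTb G C p := by
  unfold W_PTb
  rw [← ENNReal.ofReal_mul (by positivity)]
  congr 1
  simp only [Tr.q, Tr.ca, Tr.N, Tr.L, Nat.cast_add]
  rw [mul_mul_mul_comm, ← pow_add, ← Real.exp_add]
  congr 2
  ring

open Classical in
/-- the truncated summand -/
noncomputable def T_PTb (G : Geo V) (C : CC) (Am : ℝ) (D : ℕ) (i : V) (h : Tr V) : ℝ≥0∞ :=
  if ht_PTb h ≤ D ∧ i ∈ Tr.A h ∧ Tr.conn h ∧ ((Tr.A h).card : ℝ) ≤ Am then W_PTb G C h else 0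

open Classical in
theorem T_node_PTb (G : Geo V) (C : CC) (Am : ℝ) (D : ℕ) (i j : V) (f p : Tr V) :
    T_PTb G C Am (D + 1) i (Tr.node j f p) ≤
      T_PTb G C Am D i f * (if j ∈ Tr.A f then T_PTb G C Am D j p else 0) +
      T_PTb G C Am D i p * (if j ∈ Tr.A p then T_PTb G C Am D j f else 0) := by
  by_cases hc : ht_PTb (Tr.node j f p) ≤ D + 1 ∧ i ∈ Tr.A (Tr.node j f p) ∧
      Tr.conn (Tr.node j f p) ∧ ((Tr.A (Tr.node j f p)).card : ℝ) ≤ Am
  · have e1 : T_PTb G C Am (D + 1) i (Tr.node j f p) = W_PTb G C f * W_PTb G C p := by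
      unfold T_PTb
      rw [if_pos hc, W_node_PTb]
    rw [e1]
    obtain ⟨h1, h2, ⟨h3, h4, h5, h6⟩, h7⟩ := hc
    have hf : ht_PTb f ≤ D := by simp only [ht_PTb] at h1; omega
    have hp : ht_PTb p ≤ D := by simp only [ht_PTb] at h1; omega
    have hAf : ((Tr.A f).card : ℝ) ≤ Am := by
      refine le_trans ?_ h7
      exact_mod_cast Finset.card_le_card Finset.subset_union_left
    have hAp : ((Tr.A p).card : ℝ) ≤ Am := by
      refine le_trans ?_ h7
      exact_mod_cast Finset.card_le_card Finset.subset_union_right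
    simp only [Tr.A, Finset.mem_union] at h2
    rcases h2 with h2 | h2
    · refine le_trans (le_of_eq ?_) le_self_add
      unfold T_PTb
      rw [if_pos ⟨hf, h2, h5, hAf⟩, if_pos h3, if_pos ⟨hp, h4, h6, hAp⟩]
    · refine le_trans (le_of_eq ?_) le_add_self
      unfold T_PTb
      rw [if_pos ⟨hp, h2, h6, hAp⟩, if_pos h4, if_pos ⟨hf, h3, h5, hAf⟩, mul_comm]
  · have e1 : T_PTb G C Am (D + 1) i (Tr.node j f p) = 0 := by
      unfold T_PTb
      rw [if_neg hc]
    rw [e1]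
    exact zero_le

open Classical in
theorem pair_sum_PTb (G : Geo V) (C : CC) (Am : ℝ) (D : ℕ) (i : V) (s : ℝ≥0∞)
    (hs : ∀ i, ∑' h, T_PTb G C Am D i h ≤ s) :
    ∑' (j : V), ∑' (f : Tr V), ∑' (p : Tr V), T_PTb G C Am D i f *
      (if j ∈ Tr.A f then T_PTb G C Am D j p else 0) ≤ s * (ENNReal.ofReal Am * s) := by
  rw [ENNReal.tsum_comm]
  calc ∑' (f : Tr V), ∑' (j : V), ∑' (p : Tr V), T_PTb G C Am D i f *
        (if j ∈ Tr.A f then T_PTb G C Am D j p else 0)
      ≤ ∑' (f : Tr V), T_PTb G C Am D i f * (ENNReal.ofReal Am * s) := by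
        apply ENNReal.tsum_le_tsum
        intro f
        simp only [ENNReal.tsum_mul_left]
        by_cases hz : ((Tr.A f).card : ℝ) ≤ Am
        · apply mul_le_mul_right
          calc ∑' (j : V), ∑' (p : Tr V), (if j ∈ Tr.A f then T_PTb G C Am D j p else 0)
              ≤ ∑' (j : V), (if j ∈ Tr.A f then s else 0) := by
                apply ENNReal.tsum_le_tsum
                intro j
                split_ifs with hj
                · exact hs j
                · simp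
            _ = ∑ j ∈ Tr.A f, s := by
                rw [tsum_eq_sum (s := Tr.A f)]
                · exact Finset.sum_congr rfl fun j hj => if_pos hj
                · intro j hj
                  exact if_neg hj
            _ = (Tr.A f).card * s := by
                rw [Finset.sum_const, nsmul_eq_mul]
            _ ≤ ENNReal.ofReal Am * s := by
                apply mul_le_mul_left
                rw [← ENNReal.ofReal_natCast]
                exact ENNReal.ofReal_le_ofReal hz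
        · have e : T_PTb G C Am D i f = 0 := by
            unfold T_PTb
            rw [if_neg fun h => hz h.2.2.2]
          rw [e, zero_mul, zero_mul]
    _ = (∑' (f : Tr V), T_PTb G C Am D i f) * (ENNReal.ofReal Am * s) := ENNReal.tsum_mul_right
    _ ≤ _ := mul_le_mul_left (hs i) _

theorem leaf_sum_PTb (G : Geo V) (C : CC) (Am : ℝ) (hLS : LS G C.ell C.dpp) (D : ℕ) (i : V) :
    ∑' l, T_PTb G C Am D i (Tr.leaf l) ≤ ENNReal.ofReal (35 * Real.exp (-C.c)) := by
  classical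
  calc ∑' l, T_PTb G C Am D i (Tr.leaf l)
      ≤ ∑' l : Lbl V, ENNReal.ofReal (35 * Real.exp (-C.c)) * (if i ∈ l.A then
        ENNReal.ofReal (Real.exp (-(C.ell * l.A.card + C.dpp * (l.N + G.Lam l.A)))) else 0) := by
        apply ENNReal.tsum_le_tsum
        intro l
        unfold T_PTb
        split_ifs with h1 h2 h2
        · unfold W_PTb
          rw [← ENNReal.ofReal_mul (by positivity)]
          apply ENNReal.ofReal_le_ofReal
          simp only [Tr.q, Tr.ca, Tr.N, Tr.L, Nat.cast_one, pow_one, mul_one]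
          rw [mul_assoc, ← Real.exp_add]
          apply le_of_eq
          congr 2
          ring
        · exact absurd h1.2.1 h2
        · exact zero_le
        · exact zero_le
    _ = ENNReal.ofReal (35 * Real.exp (-C.c)) * ∑' l : Lbl V, (if i ∈ l.A then
        ENNReal.ofReal (Real.exp (-(C.ell * l.A.card + C.dpp * (l.N + G.Lam l.A)))) else 0) :=
        ENNReal.tsum_mul_left
    _ ≤ ENNReal.ofReal (35 * Real.exp (-C.c)) * 1 := by
        apply mul_le_mul_right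
        exact hLS i
    _ = _ := mul_one _

theorem trunc_sum_PTb (G : Geo V) (C : CC) (Am : ℝ) (hAm : 1 ≤ Am) (hLS : LS G C.ell C.dpp)
    (hc : 280 * Am * Real.exp (-C.c) ≤ 1) (D : ℕ) :
    ∀ i, ∑' h, T_PTb G C Am D i h ≤ ENNReal.ofReal (70 * Real.exp (-C.c)) := by
  classical
  induction D with
  | zero =>
    intro i
    rw [tsum_tr]
    have e : ∑' x : V × Tr V × Tr V, T_PTb G C Am 0 i (Tr.node x.1 x.2.1 x.2.2) = 0 := by
      rw [ENNReal.tsum_eq_zero]
      intro x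
      unfold T_PTb
      rw [if_neg]
      rintro ⟨h, _⟩
      simp only [ht_PTb] at h
      omega
    rw [e, add_zero]
    refine (leaf_sum_PTb G C Am hLS 0 i).trans (ENNReal.ofReal_le_ofReal ?_)
    have := Real.exp_pos (-C.c)
    linarith
  | succ D ih =>
    intro i
    rw [tsum_tr]
    set s : ℝ≥0∞ := ENNReal.ofReal (70 * Real.exp (-C.c)) with hs
    have hnode : ∑' x : V × Tr V × Tr V, T_PTb G C Am (D + 1) i (Tr.node x.1 x.2.1 x.2.2) ≤
        s * (ENNReal.ofReal Am * s) + s * (ENNReal.ofReal Am * s) := by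
      calc ∑' x : V × Tr V × Tr V, T_PTb G C Am (D + 1) i (Tr.node x.1 x.2.1 x.2.2)
          ≤ ∑' x : V × Tr V × Tr V, (T_PTb G C Am D i x.2.1 *
              (if x.1 ∈ Tr.A x.2.1 then T_PTb G C Am D x.1 x.2.2 else 0) +
            T_PTb G C Am D i x.2.2 *
              (if x.1 ∈ Tr.A x.2.2 then T_PTb G C Am D x.1 x.2.1 else 0)) :=
            ENNReal.tsum_le_tsum fun x => T_node_PTb G C Am D i x.1 x.2.1 x.2.2
        _ = ∑' x : V × Tr V × Tr V, (T_PTb G C Am D i x.2.1 *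
              (if x.1 ∈ Tr.A x.2.1 then T_PTb G C Am D x.1 x.2.2 else 0)) +
            ∑' x : V × Tr V × Tr V, T_PTb G C Am D i x.2.2 *
              (if x.1 ∈ Tr.A x.2.2 then T_PTb G C Am D x.1 x.2.1 else 0) := ENNReal.tsum_add
        _ = ∑' (j : V), ∑' (f : Tr V), ∑' (p : Tr V), T_PTb G C Am D i f *
              (if j ∈ Tr.A f then T_PTb G C Am D j p else 0) +
            ∑' (j : V), ∑' (p : Tr V), ∑' (f : Tr V), T_PTb G C Am D i p *
              (if j ∈ Tr.A p then T_PTb G C Am D j f else 0) := by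
            congr 1
            · rw [ENNReal.tsum_prod']
              refine tsum_congr fun j => ?_
              rw [ENNReal.tsum_prod']
            · rw [ENNReal.tsum_prod']
              refine tsum_congr fun j => ?_
              rw [ENNReal.tsum_prod', ENNReal.tsum_comm]
        _ ≤ _ := add_le_add (pair_sum_PTb G C Am D i s ih) (pair_sum_PTb G C Am D i s ih)
    refine (add_le_add (leaf_sum_PTb G C Am hLS (D + 1) i) hnode).trans ?_
    have hAm0 : 0 ≤ Am := by linarith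
    have he := Real.exp_pos (-C.c)
    rw [hs, ← ENNReal.ofReal_mul hAm0, ← ENNReal.ofReal_mul (by positivity),
      ← ENNReal.ofReal_add (by positivity) (by positivity),
      ← ENNReal.ofReal_add (by positivity) (by positivity)]
    apply ENNReal.ofReal_le_ofReal
    nlinarith [mul_le_mul_of_nonneg_right hc he.le]

open Classical in
/-- sum over connected trees through a site; induction on the height of the trees:
`s ≤ 35 e^{-c} + 2 Am s^2` is solved by `s = 70 e^{-c}` -/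
theorem tree_sum (G : Geo V) (C : CC) (Am : ℝ) (hAm : 1 ≤ Am) (hLS : LS G C.ell C.dpp)
    (hc : 280 * Am * Real.exp (-C.c) ≤ 1) (i : V) :
    ∑' h : Tr V, (if i ∈ Tr.A h ∧ Tr.conn h ∧ ((Tr.A h).card : ℝ) ≤ Am then
      ENNReal.ofReal (35 ^ Tr.q h * Real.exp (-(C.ell * Tr.ca h +
        C.dpp * (Tr.N h + Tr.L G h) + C.c * Tr.q h))) else 0) ≤
      ENNReal.ofReal (70 * Real.exp (-C.c)) := by
  rw [ENNReal.tsum_eq_iSup_sum]
  apply iSup_le
  intro F
  refine le_trans ?_ (trunc_sum_PTb G C Am hAm hLS hc (F.sup ht_PTb) i)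
  refine le_trans ?_ (ENNReal.sum_le_tsum F)
  apply Finset.sum_le_sum
  intro h hh
  split_ifs with h1
  · unfold T_PTb
    rw [if_pos ⟨Finset.le_sup hh, h1⟩]
    exact le_rfl
  · exact zero_le

end KX
end
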