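import Pool.Agent.Lib.MP_73c19a_an.Mg.G007
import Pool.Agent.Lib.MP_73c19a_an.Mg.G001
import Pool.Agent.Lib.MP_73c19a_an.Mg.G005
import Pool.Agent.Lib.MP_73c19a_an.Mg.G012
import Pool.Agent.Lib.MP_73c19a_an.Mg.G018
import Pool.Agent.Lib.MP_73c19a_an.Run1a
import Pool.Agent.Lib.MP_73c19a_an.Mg.G011

section

/-!
# The initial perturbation as a formal series

`pt (lf0 P) = push (fun l => (l.n, l.k)) P` (only leaves contribute), composition of push-forwards
`push_push` / `push_congr`, and `Wl ≥ wg` for the monomial (`v ≥ 1`, `kp ≥ 0`, `N` of the label equals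
`NM` of the monomial, `ainv` of the support is at most `ainv` of the cluster).
-/

set_option autoImplicit false

namespace KX

open scoped ENNReal

variable {V : Type} [DecidableEq V]

/-- the weight of a label dominates the weight of its monomial -/
theorem wg_le_Wl (G : Geo V) (rho sg kp : ℝ) (v : V → ℝ) (hr : 0 < rho) (hkp : 0 ≤ kp)
    (hv : ∀ j, 1 ≤ v j) (l : Lbl V) :
    wg G rho sg ((l.n, l.k) : Mon V) ≤ ENNReal.ofReal (Wl G rho sg kp v l) := by
  have hprod : 1 ≤ ∏ j ∈ l.A, v j :=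
    Finset.prod_induction v (fun x => 1 ≤ x)
      (fun a b ha hb => one_le_mul_of_one_le_of_one_le ha hb) le_rfl (fun j _ => hv j)
  have hamn : 0 < amn G.a l.n := by
    unfold amn
    exact Finset.prod_pos fun j _ => pow_pos (G.a_pos j) _
  have ha : G.ainv (spm ((l.n, l.k) : Mon V)) ≤ G.ainv l.A :=
    Geo.ainv_mono G (Finset.union_subset l.hn l.hk)
  have ha0 : 0 < G.ainv (spm ((l.n, l.k) : Mon V)) := lt_of_lt_of_le one_pos (Geo.one_le_ainv G _)
  have haA : 0 < G.ainv l.A := lt_of_lt_of_le one_pos (Geo.one_le_ainv G _)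
  have hN : (NM ((l.n, l.k) : Mon V) : ℝ) = (l.N : ℝ) := rfl
  have hbase : 0 < rho ^ dgr l.n * amn G.a l.n := mul_pos (pow_pos hr _) hamn
  unfold wg wm
  rw [← ENNReal.ofReal_mul (by positivity)]
  apply ENNReal.ofReal_le_ofReal
  rw [hN]
  show rho ^ dgr l.n * amn G.a l.n * Real.exp (sg * l.N) * G.ainv (spm ((l.n, l.k) : Mon V)) ≤
    rho ^ dgr l.n * amn G.a l.n * Real.exp (sg * l.N + kp * G.Lam l.A) * G.ainv l.A *
      ∏ j ∈ l.A, v j
  have hexp : Real.exp (sg * l.N) ≤ Real.exp (sg * l.N + kp * G.Lam l.A) := by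
    apply Real.exp_le_exp.mpr
    have : 0 ≤ kp * (G.Lam l.A : ℝ) := by positivity
    linarith
  have h1 : rho ^ dgr l.n * amn G.a l.n * Real.exp (sg * l.N) * G.ainv (spm ((l.n, l.k) : Mon V)) ≤
      rho ^ dgr l.n * amn G.a l.n * Real.exp (sg * l.N + kp * G.Lam l.A) * G.ainv l.A := by
    gcongr
  refine h1.trans (le_mul_of_one_le_right ?_ hprod)
  positivity

/-- the initial formal perturbation -/
theorem P0of_pt (G : Geo V) (rho sg kp : ℝ) (v : V → ℝ) (hr : 0 < rho) (hsg : 0 ≤ sg)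
    (hkp : 0 ≤ kp) (hv : ∀ j, 1 ≤ v j) (ep : ℝ) (hep : 0 ≤ ep)
    (cf : (V × V) × ℕ × ℕ × ℤ × ℤ → ℂ)
    (h : ∑' x, ‖cf x‖ₑ * ENNReal.ofReal (Wl G rho sg kp v (lblOf x)) ≠ ∞) :
    (pt (lf0 (P0of ep cf)) = fun m => (ep : ℂ) * push monOf cf m) ∧
    ∑' x, ‖cf x‖ₑ * wg G rho sg (monOf x) ≠ ∞ ∧
    nr (wg G rho sg) (pt (lf0 (P0of ep cf))) ≠ ∞ := by
  classical
  have hWl : ∀ x, wg G rho sg (monOf x) ≤ ENNReal.ofReal (Wl G rho sg kp v (lblOf x)) :=
    fun x => wg_le_Wl G rho sg kp v hr hkp hv (lblOf x)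
  have hA : ∑' x, ‖cf x‖ₑ * wg G rho sg (monOf x) ≠ ∞ :=
    ne_top_of_le_ne_top h (ENNReal.tsum_le_tsum fun x => mul_le_mul_right (hWl x) _)
  have h1 : pt (lf0 (P0of ep cf)) = fun m => (ep : ℂ) * push monOf cf m := by
    have e1 : pt (lf0 (P0of ep cf)) =
        push (fun l : Lbl V => ((l.n, l.k) : Mon V)) (P0of ep cf) := by
      funext m
      have hinj : Function.Injective (Tr.leaf : Lbl V → Tr V) := by
        intro a b hab
        injection hab
      have := hinj.tsum_eq (f := fun h : Tr V =>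
          @ite _ (mon h = m) (Classical.propDecidable _) (lf0 (P0of ep cf) h) 0) (by
        intro h hh
        rw [Function.mem_support] at hh
        cases h with
        | leaf l => exact ⟨l, rfl⟩
        | node j f p => exact absurd (by simp [lf0]) hh)
      exact this.symm
    have e2 : P0of ep cf = fun l => (ep : ℂ) * push lblOf cf l := rfl
    rw [e1, e2, push_smul]
    have e3 : push (fun l : Lbl V => ((l.n, l.k) : Mon V)) (push lblOf cf) = push monOf cf := by
      have e4 := push_push (κ := PUnit) (wg G rho sg) (wg_ne_zero G rho sg hr) lblOf cf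
        (fun x : PUnit × Lbl V => ((x.2.n, x.2.k) : Mon V)) (fun _ => 1) (by
          have : ∑' x : PUnit × ((V × V) × ℕ × ℕ × ℤ × ℤ), ‖(1 : ℂ)‖ₑ * ‖cf x.2‖ₑ *
              wg G rho sg (((lblOf x.2).n, (lblOf x.2).k) : Mon V) =
              ∑' x, ‖cf x‖ₑ * wg G rho sg (monOf x) := by
            rw [← (Equiv.punitProd ((V × V) × ℕ × ℕ × ℤ × ℤ)).tsum_eq]
            refine tsum_congr fun x => ?_
            simp only [enorm_one, one_mul]
            rfl
          rw [this]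
          exact hA)
      simp only [one_mul] at e4
      have e5 := push_equiv (Equiv.punitProd (Lbl V)) (fun l : Lbl V => ((l.n, l.k) : Mon V))
        (push lblOf cf)
      have e6 := push_equiv (Equiv.punitProd ((V × V) × ℕ × ℕ × ℤ × ℤ)) monOf cf
      rw [← e5, ← e6]
      exact e4
    rw [e3]
  refine ⟨h1, hA, ?_⟩
  rw [h1, nr_smul]
  exact ENNReal.mul_ne_top (by simp) (ne_top_of_le_ne_top hA (nr_push_le _ _ _))

end KX
end

section

/-!
# Norms on trees

`nrQ wt x u = ∑_h u h * wt h * exp (x * N h)`. The weight is submultiplicative up to the factor `R`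
(`hw`), and `∑_j |kap j f p| ≤ N f * N p`.
-/

set_option autoImplicit false

namespace KX

open scoped ENNReal

variable {V : Type} [DecidableEq V]

/-- all steps of a block -/
theorem nrQ_QQ (G : Geo V) (P : BP V) (b : Lbl V → ℝ) (wt : Tr V → ℝ≥0∞) (R : ℝ≥0∞)
    (hw : ∀ j f p, Tr.kap j f p ≠ 0 → wt (Tr.node j f p) ≤ R * wt f * wt p)
    (y : ℝ) (hy : 0 < y) (T : ℕ) (M : ℝ) (hM : 0 ≤ M)
    (h0 : nrQ wt (2 * y * T) (QQ G P b 0) ≤ ENNReal.ofReal M) (z : ℝ) (hz : 0 ≤ z)
    (hz1 : z * T ≤ 1 / 4)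
    (hR : R * ENNReal.ofReal (3 / y ^ 2 * (2 * M)) ≤ ENNReal.ofReal z) (t : ℕ) (ht : t ≤ T) :
    nrQ wt (2 * y * (T - t)) (QQ G P b t) ≤ ENNReal.ofReal ((1 + 2 * z) ^ t * M) := by
  induction t with
  | zero =>
    simp only [Nat.cast_zero, sub_zero, pow_zero, one_mul]
    exact h0
  | succ t ih =>
    have ih' := ih (by omega)
    have hT : (t : ℝ) + 1 ≤ T := by exact_mod_cast ht
    have hT1 : (1 : ℝ) ≤ T := by
      have : (0 : ℝ) ≤ t := Nat.cast_nonneg t
      linarith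
    have hz2 : z ≤ 1 / 2 := by nlinarith
    have hpow : (1 + 2 * z) ^ t ≤ 2 := by
      have h1 : (1 + 2 * z) ^ t ≤ Real.exp (2 * z * t) := by
        have h2 : 1 + 2 * z ≤ Real.exp (2 * z) := by
          have := Real.add_one_le_exp (2 * z)
          linarith
        calc (1 + 2 * z) ^ t ≤ (Real.exp (2 * z)) ^ t := pow_le_pow_left₀ (by linarith) h2 t
          _ = Real.exp (2 * z * t) := by
            rw [← Real.exp_nat_mul]
            congr 1
            ring
      have h3 : 2 * z * t ≤ 1 / 2 := by nlinarith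
      have h4 : Real.exp (1 / 2) ≤ 2 := by
        have h5 : Real.exp (1 / 2) ^ 2 = Real.exp 1 := by
          rw [← Real.exp_nat_mul]
          norm_num
        have h6 := Real.exp_one_lt_d9
        have h7 := Real.exp_pos (1 / 2)
        nlinarith
      exact (h1.trans (Real.exp_le_exp.2 h3)).trans h4
    have e1 : 2 * y * ((T : ℝ) - ((t + 1 : ℕ) : ℝ)) + 2 * y = 2 * y * (T - t) := by
      push_cast
      ring
    have hrst : nrQ wt (2 * y * (T - t)) (rst (Tr.EE G P t) (QQ G P b t)) ≤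
        ENNReal.ofReal (2 * M) := by
      have h1 : nrQ wt (2 * y * (T - t)) (rst (Tr.EE G P t) (QQ G P b t)) ≤
          nrQ wt (2 * y * (T - t)) (QQ G P b t) := by
        unfold nrQ
        refine ENNReal.tsum_le_tsum fun h => ?_
        gcongr
        unfold rst
        split_ifs
        · exact le_rfl
        · exact zero_le
      refine (h1.trans ih').trans (ENNReal.ofReal_le_ofReal ?_)
      exact mul_le_mul_of_nonneg_right hpow hM
    have he : R * ENNReal.ofReal (3 / y ^ 2) * nrQ wt (2 * y * ((T : ℝ) - ((t + 1 : ℕ) : ℝ)) +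
        2 * y) (rst (Tr.EE G P t) (QQ G P b t)) ≤ ENNReal.ofReal z := by
      rw [e1]
      calc R * ENNReal.ofReal (3 / y ^ 2) * nrQ wt (2 * y * (T - t))
            (rst (Tr.EE G P t) (QQ G P b t))
          ≤ R * ENNReal.ofReal (3 / y ^ 2) * ENNReal.ofReal (2 * M) := by gcongr
        _ = R * ENNReal.ofReal (3 / y ^ 2 * (2 * M)) := by
            rw [mul_assoc, ← ENNReal.ofReal_mul (by positivity)]
        _ ≤ ENNReal.ofReal z := hR
    have h1 := nrQ_exp wt R hw (2 * y * ((T : ℝ) - ((t + 1 : ℕ) : ℝ))) y hy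
      (rst (Tr.EE G P t) (QQ G P b t)) (QQ G P b t) z hz hz2 he
    have h2 : nrQ wt (2 * y * ((T : ℝ) - ((t + 1 : ℕ) : ℝ)) + y) (QQ G P b t) ≤
        ENNReal.ofReal ((1 + 2 * z) ^ t * M) := by
      refine (nrQ_mono wt ?_ _).trans ih'
      rw [← e1]
      linarith
    calc nrQ wt (2 * y * ((T : ℝ) - ((t + 1 : ℕ) : ℝ))) (QQ G P b (t + 1))
        ≤ ENNReal.ofReal (1 + 2 * z) *
          nrQ wt (2 * y * ((T : ℝ) - ((t + 1 : ℕ) : ℝ)) + y) (QQ G P b t) := h1
      _ ≤ ENNReal.ofReal (1 + 2 * z) * ENNReal.ofReal ((1 + 2 * z) ^ t * M) := by gcongr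
      _ = ENNReal.ofReal ((1 + 2 * z) ^ (t + 1) * M) := by
          rw [← ENNReal.ofReal_mul (by linarith)]
          congr 1
          ring

end KX
end

section

/-!
# One block of the scheme: norms
-/

set_option autoImplicit false

namespace KX

open scoped ENNReal

variable {V : Type} [DecidableEq V]

theorem nrQ_start (G : Geo V) (be : V → ℝ) (bB : ℝ) (K : Blk V) (hK : K.OK G be bB) (b : Lbl V → ℝ)
    (hb : ∀ l, 0 ≤ b l)
    (hn : ∑' l, ENNReal.ofReal (b l * Wl G K.rho K.sg0 K.kp0 K.v0 l) ≤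
      ENNReal.ofReal (K.rho * Real.exp (-K.P.mu))) :
    nrQ (fun h => ENNReal.ofReal (K.wq G bB h)) (2 * K.y * (2 * K.L : ℕ)) (QQ G K.P b 0) ≤
      ENNReal.ofReal (K.rho * Real.exp (-(3 / 8) * K.P.mu)) := by
  unfold nrQ
  rw [tsum_tr]
  have h0 : ∑' x : V × Tr V × Tr V, (QQ G K.P b 0 (Tr.node x.1 x.2.1 x.2.2) *
      ENNReal.ofReal (K.wq G bB (Tr.node x.1 x.2.1 x.2.2)) *
      ENNReal.ofReal (Real.exp (2 * K.y * (2 * K.L : ℕ) * Tr.N (Tr.node x.1 x.2.1 x.2.2)))) = 0 := by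
    refine ENNReal.tsum_eq_zero.2 fun x => ?_
    simp only [QQ, lf0, zero_mul]
  rw [h0, add_zero]
  have h1 : ∀ l : Lbl V, QQ G K.P b 0 (Tr.leaf l) * ENNReal.ofReal (K.wq G bB (Tr.leaf l)) *
      ENNReal.ofReal (Real.exp (2 * K.y * (2 * K.L : ℕ) * Tr.N (Tr.leaf l))) ≤
      ENNReal.ofReal (Real.exp (K.ch * K.P.mu)) *
        ENNReal.ofReal (b l * Wl G K.rho K.sg0 K.kp0 K.v0 l) := by
    intro l
    have h2 := wq_leaf_le G be bB K hK l
    have h3 : 0 ≤ K.wq G bB (Tr.leaf l) := by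
      rw [wq_eq]
      exact mul_nonneg (mul_nonneg (base_pos G be bB K hK _).le (Real.exp_pos _).le)
        (Real.exp_pos _).le
    simp only [QQ, lf0, Tr.N]
    rw [mul_assoc, ← ENNReal.ofReal_mul h3, ← ENNReal.ofReal_mul (hb l),
      ← ENNReal.ofReal_mul (Real.exp_pos _).le]
    apply ENNReal.ofReal_le_ofReal
    calc b l * (K.wq G bB (Tr.leaf l) * Real.exp (2 * K.y * (2 * K.L : ℕ) * l.N))
        ≤ b l * (Wl G K.rho K.sg0 K.kp0 K.v0 l * Real.exp (K.ch * K.P.mu)) :=
          mul_le_mul_of_nonneg_left h2 (hb l)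
      _ = Real.exp (K.ch * K.P.mu) * (b l * Wl G K.rho K.sg0 K.kp0 K.v0 l) := by ring
  refine (ENNReal.tsum_le_tsum h1).trans ?_
  rw [ENNReal.tsum_mul_left]
  refine (mul_le_mul_right hn _).trans ?_
  rw [← ENNReal.ofReal_mul (Real.exp_pos _).le]
  apply ENNReal.ofReal_le_ofReal
  have h4 : K.ch ≤ 5 / 8 := by
    unfold Blk.ch
    linarith [hK.th1]
  calc Real.exp (K.ch * K.P.mu) * (K.rho * Real.exp (-K.P.mu))
      = K.rho * Real.exp (K.ch * K.P.mu + -K.P.mu) := by rw [Real.exp_add]; ring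
    _ ≤ K.rho * Real.exp (-(3 / 8) * K.P.mu) := by
        refine mul_le_mul_of_nonneg_left (Real.exp_le_exp.2 ?_) hK.rho0.le
        nlinarith [K.P.mu_pos]

/-- from `nrQ_start`, `nrQ_QQ`, `wt_node_le` -/
theorem nrQ_run (G : Geo V) (be : V → ℝ) (bB : ℝ) (K : Blk V) (hK : K.OK G be bB) (b : Lbl V → ℝ)
    (hb : ∀ l, 0 ≤ b l)
    (hn : ∑' l, ENNReal.ofReal (b l * Wl G K.rho K.sg0 K.kp0 K.v0 l) ≤
      ENNReal.ofReal (K.rho * Real.exp (-K.P.mu))) (t : ℕ) (ht : t ≤ 2 * K.L) :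
    nrQ (fun h => ENNReal.ofReal (K.wq G bB h)) 0 (QQ G K.P b t) ≤
      ENNReal.ofReal (2 * K.rho * Real.exp (-(3 / 8) * K.P.mu)) := by
  have hw : ∀ j f p, Tr.kap j f p ≠ 0 → ENNReal.ofReal (K.wq G bB (Tr.node j f p)) ≤
      ENNReal.ofReal (1 / K.rho) * ENNReal.ofReal (K.wq G bB f) *
        ENNReal.ofReal (K.wq G bB p) := by
    intro j f p hk
    have h1 := wt_node_le G K.P K.rho K.sg K.kp K.ch K.v (K.w2 G bB) hK.rho0 hK.v1 j f p hk
    have h3 : 0 ≤ K.wq G bB f := by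
      rw [wq_eq]
      exact mul_nonneg (mul_nonneg (base_pos G be bB K hK _).le (Real.exp_pos _).le)
        (Real.exp_pos _).le
    have h2 : 0 ≤ 1 / K.rho := by
      have := hK.rho0
      positivity
    rw [← ENNReal.ofReal_mul h2, ← ENNReal.ofReal_mul (mul_nonneg h2 h3)]
    exact ENNReal.ofReal_le_ofReal h1
  have hy := hK.y0
  have hr := hK.rho0
  set M : ℝ := K.rho * Real.exp (-(3 / 8) * K.P.mu) with hM
  have hM0 : 0 ≤ M := by positivity
  set z : ℝ := 6 * Real.exp (-(3 / 8) * K.P.mu) / K.y ^ 2 with hz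
  have hz0 : 0 ≤ z := by positivity
  have hC := hK.C13
  have hT0 : (0 : ℝ) ≤ ((2 * K.L : ℕ) : ℝ) := Nat.cast_nonneg _
  have hz1 : z * ((2 * K.L : ℕ) : ℝ) ≤ 1 / 4 := by
    rw [hz, div_mul_eq_mul_div, div_le_iff₀ (by positivity)]
    nlinarith
  have hR : ENNReal.ofReal (1 / K.rho) * ENNReal.ofReal (3 / K.y ^ 2 * (2 * M)) ≤
      ENNReal.ofReal z := by
    rw [← ENNReal.ofReal_mul (by positivity)]
    apply ENNReal.ofReal_le_ofReal
    refine le_of_eq ?_
    rw [hz, hM]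
    field_simp
    ring
  have h0 := nrQ_start G be bB K hK b hb hn
  have h5 := nrQ_QQ G K.P b (fun h => ENNReal.ofReal (K.wq G bB h)) (ENNReal.ofReal (1 / K.rho))
    hw K.y hy (2 * K.L) M hM0 h0 z hz0 hz1 hR t ht
  have ht' : (t : ℝ) ≤ ((2 * K.L : ℕ) : ℝ) := by exact_mod_cast ht
  have h6 : (0 : ℝ) ≤ 2 * K.y * (((2 * K.L : ℕ) : ℝ) - t) := by
    have : 0 ≤ ((2 * K.L : ℕ) : ℝ) - t := by linarith
    positivity
  refine ((nrQ_mono _ h6 _).trans h5).trans ?_
  apply ENNReal.ofReal_le_ofReal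
  have h7 : (1 + 2 * z) ^ t ≤ 2 := by
    have h8 : (1 + 2 * z) ^ t ≤ (Real.exp (2 * z)) ^ t := by
      refine pow_le_pow_left₀ (by positivity) ?_ t
      linarith [Real.add_one_le_exp (2 * z)]
    have h9 : (Real.exp (2 * z)) ^ t ≤ Real.exp (1 / 2) := by
      rw [← Real.exp_nat_mul]
      apply Real.exp_le_exp.2
      nlinarith
    have h10 : Real.exp (1 / 2) ≤ 2 := by
      have h11 : Real.exp (1 / 2) * Real.exp (1 / 2) = Real.exp 1 := by
        rw [← Real.exp_add]
        norm_num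
      have h12 := Real.exp_one_lt_d9
      nlinarith [Real.exp_pos (1 / 2)]
    exact h8.trans (h9.trans h10)
  calc (1 + 2 * z) ^ t * M ≤ 2 * M := mul_le_mul_of_nonneg_right h7 hM0
    _ = 2 * K.rho * Real.exp (-(3 / 8) * K.P.mu) := by rw [hM]; ring

end KX
end

section

/-!
# One block of the scheme: norms
-/

set_option autoImplicit false

namespace KX

open scoped ENNReal

variable {V : Type} [DecidableEq V]

/-- the coefficient bound of the tree `h` at time `t` -/
noncomputable def bt (G : Geo V) (bB : ℝ) (K : Blk V) (b : Lbl V → ℝ) (t : ℕ) (h : Tr V) : ℝ :=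
  |cc G K.P t h| * chr b h * K.Z G bB h

private theorem chr_nonneg_run1c (b : Lbl V → ℝ) (hb : ∀ l, 0 ≤ b l) (h : Tr V) :
    0 ≤ chr b h := by
  induction h with
  | leaf l => exact hb l
  | node j f p ihf ihp => exact mul_nonneg (mul_nonneg (abs_nonneg _) ihf) ihp

theorem bt_nonneg (G : Geo V) (bB : ℝ) (K : Blk V) (b : Lbl V → ℝ) (hb : ∀ l, 0 ≤ b l) (t : ℕ)
    (h : Tr V) : 0 ≤ bt G bB K b t h :=
  mul_nonneg (mul_nonneg (abs_nonneg _) (chr_nonneg_run1c b hb h)) (Real.exp_pos _).le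

/-- the main summation bound -/
theorem sum_bt (G : Geo V) (be : V → ℝ) (bB : ℝ) (K : Blk V) (hK : K.OK G be bB) (b : Lbl V → ℝ)
    (hb : ∀ l, 0 ≤ b l)
    (hn : ∑' l, ENNReal.ofReal (b l * Wl G K.rho K.sg0 K.kp0 K.v0 l) ≤
      ENNReal.ofReal (K.rho * Real.exp (-K.P.mu))) (t : ℕ) (ht : t ≤ 2 * K.L) :
    ∑' h, ENNReal.ofReal (bt G bB K b t h * K.base G h * Real.exp ((1 / 2) * Tr.mass G K.P h)) ≤
      ENNReal.ofReal (2 * K.rho * Real.exp (-(3 / 8) * K.P.mu)) := by
  refine le_trans (ENNReal.tsum_le_tsum fun h => ?_) (nrQ_run G be bB K hK b hb hn t ht)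
  rw [zero_mul, Real.exp_zero, ENNReal.ofReal_one, mul_one]
  have h1 := cc_le_QQ G K.P b hb t h
  have h2 : bt G bB K b t h * K.base G h * Real.exp ((1 / 2) * Tr.mass G K.P h) =
      |cc G K.P t h| * chr b h * K.wq G bB h := by
    rw [wq_eq]
    unfold bt
    ring
  rw [h2, ENNReal.ofReal_mul (mul_nonneg (abs_nonneg _) (chr_nonneg_run1c b hb h))]
  exact mul_le_mul_left h1 _

private theorem chr_ne_run1c (b : Lbl V → ℝ) (h : Tr V) (hne : chr b h ≠ 0) :
    chr (fun _ => 1) h ≠ 0 := by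
  induction h with
  | leaf l => exact one_ne_zero
  | node j f p ihf ihp =>
    simp only [chr] at hne ⊢
    have h1 := left_ne_zero_of_mul hne
    have h2 := right_ne_zero_of_mul hne
    exact mul_ne_zero (mul_ne_zero (left_ne_zero_of_mul h1) (ihf (right_ne_zero_of_mul h1)))
      (ihp h2)

/-- every tree occurring at time `t` is good (`bt ≠ 0` implies the support property) -/
theorem bt_support (G : Geo V) (bB : ℝ) (K : Blk V) (b : Lbl V → ℝ) (t : ℕ) (h : Tr V)
    (hne : bt G bB K b t h ≠ 0) :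
    Tr.Good G K.P h ∧ Tr.birth G K.P h ≤ t ∧ (Tr.deg h ≤ 1 → t ≤ Tr.tau G K.P h) := by
  unfold bt at hne
  have h1 := left_ne_zero_of_mul hne
  have h2 : |cc G K.P t h| ≠ 0 := left_ne_zero_of_mul h1
  have h3 : chr b h ≠ 0 := right_ne_zero_of_mul h1
  exact cc_support G K.P t h (mul_ne_zero (abs_ne_zero.1 h2) (chr_ne_run1c b h h3))

end KX
end

section

/-!
# One block of the scheme: norms
-/

set_option autoImplicit false

namespace KX

open scoped ENNReal

variable {V : Type} [DecidableEq V]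

theorem mg_zero_R1d (h : Tr V) : Tr.mg (fun _ => (0 : ℝ)) h = 0 := by
  induction h with
  | leaf l => rfl
  | node j f p ihf ihp => simp [Tr.mg, ihf, ihp]

theorem w2_nonneg_R1d (G : Geo V) (be : V → ℝ) (bB : ℝ) (K : Blk V) (hK : K.OK G be bB) (j : V) :
    0 ≤ K.w2 G bB j := by
  unfold Blk.w2
  have h1 := hK.C.bD0
  have h2 := hK.C.bb0
  have h3 := hK.C.bq0
  have h4 := hK.bB0
  exact mul_nonneg (by linarith) (Real.log_nonneg (G.one_le_br j))

theorem one_le_v_R1d (G : Geo V) (be : V → ℝ) (bB : ℝ) (K : Blk V) (hK : K.OK G be bB) (j : V) :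
    1 ≤ K.v j :=
  le_trans (Real.one_le_exp (w2_nonneg_R1d G be bB K hK j)) (hK.v1 j)

theorem base_ge_R1d (G : Geo V) (be : V → ℝ) (bB : ℝ) (K : Blk V) (hK : K.OK G be bB) (j : V)
    (h : Tr V) (hn : Tr.n h = Finsupp.single j 1) : K.rho * K.v j ≤ K.base G h := by
  have hdeg : Tr.deg h = 1 := by
    unfold Tr.deg dgr
    rw [hn]
    simp
  have hjA : j ∈ Tr.A h := by
    apply Tr.n_supp h
    rw [hn]
    simp
  have hv : ∀ i, 1 ≤ K.v i := one_le_v_R1d G be bB K hK
  have ham : amon G (Tr.n h) = G.a j := by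
    unfold amon
    rw [hn]
    simp
  have hai := Geo.inv_le_ainv G hjA
  have haj := G.a_pos j
  have hprod : K.v j ≤ ∏ i ∈ Tr.A h, K.v i := by
    rw [← Finset.mul_prod_erase _ _ hjA]
    have h1 : 1 ≤ ∏ i ∈ (Tr.A h).erase j, K.v i := by
      calc (1 : ℝ) = ∏ i ∈ (Tr.A h).erase j, (1 : ℝ) := by simp
        _ ≤ _ := Finset.prod_le_prod (fun _ _ => zero_le_one) fun i _ => hv i
    nlinarith [hv j]
  have hexp : 1 ≤ Real.exp (K.sg * Tr.N h + K.kp * Tr.L G h) := by
    apply Real.one_le_exp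
    have := hK.sg0
    have := hK.kp0
    positivity
  have hone : 1 ≤ G.a j * G.ainv (Tr.A h) := by
    calc (1 : ℝ) = G.a j * (G.a j)⁻¹ := (mul_inv_cancel₀ haj.ne').symm
      _ ≤ _ := mul_le_mul_of_nonneg_left hai haj.le
  have hrho := hK.rho0
  unfold Blk.base wt
  rw [hdeg, ham, mg_zero_R1d]
  simp only [pow_one, zero_mul, add_zero, Real.exp_zero, mul_one]
  have h0 : 0 ≤ K.v j := zero_le_one.trans (hv j)
  calc K.rho * K.v j = K.rho * (1 * 1) * K.v j := by ring
    _ ≤ K.rho * ((G.a j * G.ainv (Tr.A h)) * Real.exp (K.sg * Tr.N h + K.kp * Tr.L G h)) *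
        ∏ i ∈ Tr.A h, K.v i := by
        apply mul_le_mul _ hprod h0
        · have : 0 ≤ (G.a j * G.ainv (Tr.A h)) := zero_le_one.trans hone
          positivity
        · apply mul_le_mul_of_nonneg_left _ hrho.le
          exact mul_le_mul hone hexp zero_le_one (zero_le_one.trans hone)
    _ = _ := by ring

/-- sum of the bounds of the terms shifting the frequency `j` at time `t`. For such a tree
`deg = 1`, `win = t / 2`, `mass ≥ mu (3/2)^(t/2)` and `base ≥ rho * v j`. -/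
theorem sum_shift (G : Geo V) (be : V → ℝ) (bB : ℝ) (K : Blk V) (hK : K.OK G be bB) (b : Lbl V → ℝ)
    (hb : ∀ l, 0 ≤ b l)
    (hn : ∑' l, ENNReal.ofReal (b l * Wl G K.rho K.sg0 K.kp0 K.v0 l) ≤
      ENNReal.ofReal (K.rho * Real.exp (-K.P.mu))) (t : ℕ) (ht : t ≤ 2 * K.L) (j : V) :
    (Summable fun h => rst (fun h => Tr.SS G K.P t h ∧ Tr.n h = Finsupp.single j 1)
      (bt G bB K b t) h) ∧
    ∑' h, rst (fun h => Tr.SS G K.P t h ∧ Tr.n h = Finsupp.single j 1) (bt G bB K b t) h ≤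
      K.lb t j := by
  classical
  set g : Tr V → ℝ := rst (fun h => Tr.SS G K.P t h ∧ Tr.n h = Finsupp.single j 1)
    (bt G bB K b t) with hg
  have hb0 : ∀ h, 0 ≤ bt G bB K b t h := bt_nonneg G bB K b hb t
  have hg0 : ∀ h, 0 ≤ g h := by
    intro h
    simp only [hg, rst]
    split_ifs
    · exact hb0 h
    · exact le_refl _
  have hrho := hK.rho0
  have hvj : 0 < K.v j := zero_lt_one.trans_le (one_le_v_R1d G be bB K hK j)
  set X : ℝ := (1 / 2) * (K.P.mu * (3 / 2 : ℝ) ^ (t / 2)) with hX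
  set c : ℝ := (K.rho * K.v j * Real.exp X)⁻¹ with hc
  have hc0 : 0 < c := by rw [hc]; positivity
  have hle : ∀ h, g h ≤ c * (bt G bB K b t h * K.base G h *
      Real.exp ((1 / 2) * Tr.mass G K.P h)) := by
    intro h
    have hbase := base_pos G be bB K hK h
    simp only [hg, rst]
    split_ifs with hE
    · obtain ⟨⟨_, _, hS3⟩, hn1⟩ := hE
      have hdeg : Tr.deg h = 1 := by
        unfold Tr.deg dgr
        rw [hn1]
        simp
      have hwin : Tr.win G K.P h = t / 2 := by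
        unfold Tr.tau at hS3
        omega
      have hm := Tr.le_win G K.P h
      rw [hwin] at hm
      have h1 : Real.exp X ≤ Real.exp ((1 / 2) * Tr.mass G K.P h) := by
        apply Real.exp_le_exp.2
        rw [hX]
        linarith
      have h2 := base_ge_R1d G be bB K hK j h hn1
      have h3 : K.rho * K.v j * Real.exp X ≤ K.base G h *
          Real.exp ((1 / 2) * Tr.mass G K.P h) :=
        mul_le_mul h2 h1 (Real.exp_pos _).le hbase.le
      have h4 : bt G bB K b t h = c * (bt G bB K b t h * (K.rho * K.v j * Real.exp X)) := by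
        rw [hc]
        field_simp
      rw [h4]
      apply mul_le_mul_of_nonneg_left _ hc0.le
      rw [← h4, mul_assoc (bt G bB K b t h)]
      exact mul_le_mul_of_nonneg_left h3 (hb0 h)
    · have := hb0 h
      positivity
  have hsum := sum_bt G be bB K hK b hb hn t ht
  have htot : ∑' h, ENNReal.ofReal (g h) ≤ ENNReal.ofReal (K.lb t j) := by
    calc ∑' h, ENNReal.ofReal (g h) ≤ ∑' h, ENNReal.ofReal c * ENNReal.ofReal
          (bt G bB K b t h * K.base G h * Real.exp ((1 / 2) * Tr.mass G K.P h)) := by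
          apply ENNReal.tsum_le_tsum
          intro h
          rw [← ENNReal.ofReal_mul hc0.le]
          exact ENNReal.ofReal_le_ofReal (hle h)
      _ = ENNReal.ofReal c * ∑' h, ENNReal.ofReal
          (bt G bB K b t h * K.base G h * Real.exp ((1 / 2) * Tr.mass G K.P h)) :=
          ENNReal.tsum_mul_left
      _ ≤ ENNReal.ofReal c * ENNReal.ofReal (2 * K.rho * Real.exp (-(3 / 8) * K.P.mu)) :=
          mul_le_mul_right hsum _
      _ = ENNReal.ofReal (K.lb t j) := by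
          rw [← ENNReal.ofReal_mul hc0.le]
          congr 1
          rw [hc, Blk.lb]
          have e1 : -(1 / 2) * (K.P.mu * (3 / 2 : ℝ) ^ (t / 2)) - (3 / 8) * K.P.mu =
              -X + -(3 / 8) * K.P.mu := by rw [hX]; ring
          rw [e1, Real.exp_add, Real.exp_neg]
          field_simp
  have hlb : 0 ≤ K.lb t j := by
    unfold Blk.lb
    positivity
  have hsm : Summable g := by
    have h1 : ∑' h, ENNReal.ofReal (g h) ≠ ∞ := ne_top_of_le_ne_top ENNReal.ofReal_ne_top htot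
    have h2 := ENNReal.summable_toReal h1
    refine h2.congr fun h => ?_
    rw [ENNReal.toReal_ofReal (hg0 h)]
  refine ⟨hsm, ?_⟩
  rw [← ENNReal.ofReal_tsum_of_nonneg hg0 hsm] at htot
  exact (ENNReal.ofReal_le_ofReal_iff hlb).1 htot

end KX
end
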