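import Pool.Agent.Lib.MP_73c19a_an.Mg.G001
import Pool.Agent.Lib.MP_73c19a_an.RBc

section

/-!
# Algebraic identities for formal series

All identities are equalities of push-forwards over a common index set (`push_push`, `push_congr`,
`push_add`, `push_equiv`).
-/

set_option autoImplicit false

namespace KX

open scoped ENNReal

variable {V : Type} [DecidableEq V]

/-- the involution `(n, k) ↦ (n, -k)` -/
noncomputable def ng_alg2h : Mon V ≃ Mon V where
  toFun m := (m.1, -m.2)
  invFun m := (m.1, -m.2)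
  left_inv m := by simp
  right_inv m := by simp

theorem ng_iff_alg2h (a b : Mon V) : ng_alg2h a = b ↔ a = ng_alg2h b := by
  constructor
  · rintro rfl
    exact (ng_alg2h.left_inv a).symm
  · rintro rfl
    exact ng_alg2h.right_inv b

theorem cj_push_alg2h {ι : Type} (T : ι → Mon V) (u : ι → ℂ) :
    cj (push T u) = push (fun i => ng_alg2h (T i)) fun i => (starRingEnd ℂ) (u i) := by
  classical
  funext m
  unfold cj push
  rw [Complex.conj_tsum]
  refine tsum_congr fun i => ?_
  have h : T i = (m.1, -m.2) ↔ ng_alg2h (T i) = m := by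
    rw [ng_iff_alg2h]
    rfl
  by_cases h1 : T i = (m.1, -m.2)
  · rw [if_pos h1, if_pos (h.1 h1)]
  · rw [if_neg h1, if_neg (fun h2 => h1 (h.2 h2)), map_zero]

theorem cj_XX (F g : Mon V → ℂ) (hF : cj F = F) : XX F (cj g) = cj (XX F g) := by
  unfold XX
  rw [cj_push_alg2h]
  rw [← push_equiv (Equiv.prodCongr (Equiv.refl V) (Equiv.prodCongr ng_alg2h ng_alg2h))
    (fun x : V × Mon V × Mon V => tgt x.1 x.2.1 x.2.2)
    (fun x => Complex.I * (kapm x.1 x.2.1 x.2.2 : ℂ) * cj g x.2.1 * F x.2.2)]
  congr 1
  · funext x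
    obtain ⟨j, m1, m2⟩ := x
    simp only [Function.comp_apply, Equiv.prodCongr_apply, Prod.map_apply, Equiv.refl_apply,
      ng_alg2h, Equiv.coe_fn_mk, tgt]
    refine Prod.ext rfl ?_
    simp only
    abel
  · funext x
    obtain ⟨j, m1, m2⟩ := x
    simp only [Function.comp_apply, Equiv.prodCongr_apply, Prod.map_apply, Equiv.refl_apply,
      ng_alg2h, Equiv.coe_fn_mk, map_mul, Complex.conj_I]
    have h1 : cj g (m1.1, -m1.2) = (starRingEnd ℂ) (g m1) := by
      unfold cj
      simp
    have h2 : (starRingEnd ℂ) (F m2) = F (m2.1, -m2.2) := by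
      conv_rhs => rw [← hF]
      unfold cj
      simp
    have h3 : kapm j (m1.1, -m1.2) (m2.1, -m2.2) = - kapm j m1 m2 := by
      unfold kapm
      simp only [Finsupp.coe_neg, Pi.neg_apply]
      ring
    rw [h1, h2, h3]
    have h4 : (starRingEnd ℂ) ((kapm j m1 m2 : ℤ) : ℂ) = ((kapm j m1 m2 : ℤ) : ℂ) :=
      map_intCast _ _
    rw [h4]
    push_cast
    ring

theorem cj_mulm (g h : Mon V → ℂ) : mulm (cj g) (cj h) = cj (mulm g h) := by
  unfold mulm
  rw [cj_push_alg2h]
  rw [← push_equiv (Equiv.prodCongr ng_alg2h ng_alg2h)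
    (fun x : Mon V × Mon V => x.1 + x.2) (fun x => cj g x.1 * cj h x.2)]
  congr 1
  · funext x
    obtain ⟨m1, m2⟩ := x
    simp only [Function.comp_apply, Equiv.prodCongr_apply, Prod.map_apply,
      ng_alg2h, Equiv.coe_fn_mk]
    refine Prod.ext rfl ?_
    simp only [Prod.snd_add]
    abel
  · funext x
    obtain ⟨m1, m2⟩ := x
    simp only [Function.comp_apply, Equiv.prodCongr_apply, Prod.map_apply,
      ng_alg2h, Equiv.coe_fn_mk, map_mul]
    unfold cj
    simp

/-- the part `c · x` of the perturbation acts as a derivative of the angles -/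
theorem XX_linear (g : Mon V → ℂ) (c : V → ℝ) (c0 : ℂ) (p : Mon V → ℂ)
    (hp : ∀ j, p (Finsupp.single j 1, 0) = c j) (hp0 : p 0 = c0)
    (hp1 : ∀ m : Mon V, (∀ j, m ≠ (Finsupp.single j 1, 0)) → m ≠ 0 → p m = 0) :
    XX p g = Dw c g := by
  funext m
  unfold XX Dw push
  have hinj : Function.Injective (fun j : V => ((j, m, (Finsupp.single j 1, 0)) :
      V × Mon V × Mon V)) := fun a b hab => (Prod.ext_iff.1 hab).1
  have htgt : ∀ (j : V) (m1 : Mon V), tgt j m1 (Finsupp.single j 1, 0) = m1 := by
    intro j m1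
    unfold tgt
    refine Prod.ext ?_ ?_
    · simp
    · simp
  rw [← hinj.tsum_eq]
  · have h1 : ∀ j : V, (if tgt j m (Finsupp.single j 1, 0) = m then
        Complex.I * (kapm j m (Finsupp.single j 1, 0) : ℂ) * g m *
          p (Finsupp.single j 1, 0) else 0) = Complex.I * (((m.2 j : ℤ) : ℂ) * (c j : ℂ)) * g m := by
      intro j
      rw [if_pos (htgt j m), hp]
      have h2 : kapm j m (Finsupp.single j 1, 0) = m.2 j := by
        unfold kapm
        simp
      rw [h2]
      ring
    simp only [h1]
    rw [tsum_eq_sum (s := m.2.support)]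
    · unfold dotm Finsupp.sum
      push_cast
      rw [Finset.mul_sum, Finset.sum_mul]
    · intro j hj
      rw [Finsupp.notMem_support_iff.1 hj]
      simp
  · intro x hx
    obtain ⟨j, m1, m2⟩ := x
    simp only [Function.mem_support, ne_eq, ite_eq_right_iff, Classical.not_imp] at hx
    obtain ⟨hx1, hx2⟩ := hx
    by_cases h0 : m2 = 0
    · exfalso
      apply hx2
      have h2 : kapm j m1 m2 = 0 := by
        rw [h0]
        unfold kapm
        simp
      rw [h2]
      simp
    · by_cases h1 : ∀ i, m2 ≠ (Finsupp.single i 1, 0)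
      · exfalso
        apply hx2
        rw [hp1 m2 h1 h0, mul_zero]
      · push Not at h1
        obtain ⟨i, hi⟩ := h1
        subst hi
        by_cases hij : i = j
        · subst hij
          refine ⟨i, ?_⟩
          rw [htgt] at hx1
          rw [hx1]
        · exfalso
          apply hx2
          have h2 : kapm j m1 (Finsupp.single i 1, 0) = 0 := by
            unfold kapm
            simp [hij]
          rw [h2]
          simp

end KX
end

section

/-!
# Joint small ball estimate for independent integer vectors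
-/

set_option autoImplicit false

namespace KX

open MeasureTheory

open scoped ENNReal

/-- Linearly independent rows: some maximal minor does not vanish. -/
private theorem exists_minor_ne_zero {U : Type} [Fintype U] {r : ℕ} (K : Fin r → U → ℝ)
    (hK : LinearIndependent ℝ K) :
    ∃ S : Fin r → U, (Matrix.of fun i j : Fin r => K i (S j)).det ≠ 0 := by
  classical
  -- the columns span
  have hspan : Submodule.span ℝ (Set.range fun u : U => fun i : Fin r => K i u) = ⊤ := by
    by_contra hne
    obtain ⟨f, hf0, hf⟩ := Submodule.exists_le_ker_of_lt_top _ (lt_top_iff_ne_top.mpr hne)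
    rw [Fintype.linearIndependent_iff] at hK
    have hfe : ∀ x : Fin r → ℝ, f x = ∑ i, f (Pi.single i 1) * x i := by
      intro x
      conv_lhs => rw [pi_eq_sum_univ' x]
      rw [map_sum]
      apply Finset.sum_congr rfl
      intro i _
      rw [map_smul, smul_eq_mul, mul_comm]
    have h1 : ∑ i, f (Pi.single i 1) • K i = 0 := by
      ext u
      have h2 : f (fun i => K i u) = 0 := hf (Submodule.subset_span ⟨u, rfl⟩)
      rw [hfe] at h2
      simpa using h2
    have h3 := hK _ h1
    apply hf0
    ext x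
    simp [h3]
  obtain ⟨b, hb1, hb2, hb3⟩ := exists_linearIndependent ℝ
    (Set.range fun u : U => fun i : Fin r => K i u)
  have hbt : Submodule.span ℝ b = ⊤ := hb2.trans hspan
  let B : Module.Basis b ℝ (Fin r → ℝ) := Module.Basis.mk hb3 (by simp [hbt])
  let _ : Fintype b := (hb3.setFinite).fintype
  have hcard : Fintype.card b = r := by
    have := Module.finrank_eq_card_basis B
    simpa using this.symm
  let e : Fin r ≃ b := (Fintype.equivFinOfCardEq hcard).symm
  have hS : ∀ j : Fin r, ∃ u : U, (fun i : Fin r => K i u) = (e j : Fin r → ℝ) := fun j =>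
    hb1 (e j).2
  choose S hS using hS
  refine ⟨S, ?_⟩
  have hli : LinearIndependent ℝ fun j : Fin r => fun i : Fin r => K i (S j) := by
    have h1 : (fun j : Fin r => fun i : Fin r => K i (S j)) = (fun x : b => (x : Fin r → ℝ)) ∘ e := by
      ext j i
      rw [Function.comp_apply, ← hS j]
    rw [h1]
    exact hb3.comp _ e.injective
  have h2 : IsUnit (Matrix.of fun i j : Fin r => K i (S j)).transpose := by
    rw [← Matrix.linearIndependent_rows_iff_isUnit]
    exact hli
  have h3 := (Matrix.isUnit_iff_isUnit_det _).mp h2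
  rw [Matrix.det_transpose] at h3
  exact h3.ne_zero

/-- Columns: for real vectors `k i : V → ℝ`, `i : Fin r`, with integer entries and finite support,
linearly independent, there are `r` sites `S i` such that the matrix `k i (S j)` has determinant of
absolute value at least one and every other column is a combination `∑ al s * (column S s)` with
`|al s| ≤ 1` (choose the minor of largest absolute value; Cramer). -/
theorem exists_columns {V : Type} [DecidableEq V] {r : ℕ} (k : Fin r → V →₀ ℤ)
    (hk : LinearIndependent ℝ fun i : Fin r => fun v : V => ((k i v : ℤ) : ℝ)) :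
    ∃ S : Fin r → V, Function.Injective S ∧
      1 ≤ |(Matrix.of fun i j : Fin r => ((k i (S j) : ℤ) : ℝ)).det| ∧
      ∀ v : V, ∃ al : Fin r → ℝ, (∀ s, |al s| ≤ 1) ∧
        ∀ i, ((k i v : ℤ) : ℝ) = ∑ s, al s * ((k i (S s) : ℤ) : ℝ) := by
  classical
  set U : Finset V := Finset.univ.biUnion fun i => (k i).support with hU
  have hUz : ∀ v, v ∉ U → ∀ i, k i v = 0 := by
    intro v hv i
    by_contra h
    apply hv
    rw [hU, Finset.mem_biUnion]
    exact ⟨i, Finset.mem_univ _, Finsupp.mem_support_iff.mpr h⟩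
  have hK : LinearIndependent ℝ fun i : Fin r => fun v : U => ((k i v : ℤ) : ℝ) := by
    rw [Fintype.linearIndependent_iff] at hk ⊢
    intro c hc
    apply hk c
    ext v
    by_cases hv : v ∈ U
    · have := congrFun hc ⟨v, hv⟩
      simpa using this
    · simp [hUz v hv]
  obtain ⟨S₀, hS₀⟩ := exists_minor_ne_zero _ hK
  have : Nonempty (Fin r → U) := ⟨S₀⟩
  obtain ⟨S, hS⟩ := Finite.exists_max fun S : Fin r → U =>
    |(Matrix.of fun i j : Fin r => ((k i (S j : V) : ℤ) : ℝ)).det|
  set A : Matrix (Fin r) (Fin r) ℝ := Matrix.of fun i j : Fin r => ((k i (S j : V) : ℤ) : ℝ)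
    with hA
  have hdet : A.det ≠ 0 := by
    have h1 := hS S₀
    have h2 := abs_pos.mpr hS₀
    exact abs_pos.mp (h2.trans_le h1)
  refine ⟨fun j => (S j : V), ?_, ?_, ?_⟩
  · intro j j' hjj
    by_contra hne
    apply hdet
    apply Matrix.det_zero_of_column_eq hne
    intro i
    have : (S j : V) = S j' := hjj
    simp [hA, this]
  · have h1 : A = (Matrix.of fun i j : Fin r => k i (S j : V)).map (Int.castRingHom ℝ) := by
      ext i j
      simp [hA]
    have h2 : A.det = (((Matrix.of fun i j : Fin r => k i (S j : V)).det : ℤ) : ℝ) := by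
      rw [h1]
      exact ((Int.castRingHom ℝ).map_det _).symm
    change 1 ≤ |A.det|
    rw [h2, ← Int.cast_abs]
    have h3 : (Matrix.of fun i j : Fin r => k i (S j : V)).det ≠ 0 := by
      intro h0
      rw [h0] at h2
      exact hdet (by simpa using h2)
    exact_mod_cast Int.one_le_abs h3
  · intro v
    by_cases hv : v ∈ U
    · set b : Fin r → ℝ := fun i => ((k i v : ℤ) : ℝ) with hb
      refine ⟨fun s => A.cramer b s / A.det, ?_, ?_⟩
      · intro s
        rw [abs_div, div_le_one (abs_pos.mpr hdet), Matrix.cramer_apply]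
        have h1 := hS (Function.update S s ⟨v, hv⟩)
        have h2 : A.updateCol s b = Matrix.of fun i j : Fin r =>
            ((k i (Function.update S s ⟨v, hv⟩ j : V) : ℤ) : ℝ) := by
          ext i j
          simp only [Matrix.updateCol_apply, Matrix.of_apply, Function.update_apply, hA, hb]
          split_ifs <;> rfl
        rw [h2]
        exact h1
      · intro i
        have h1 := congrFun (Matrix.mulVec_cramer A b) i
        simp only [Matrix.mulVec, dotProduct, Pi.smul_apply, smul_eq_mul] at h1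
        have h2 : b i = (∑ j, A i j * A.cramer b j) / A.det := by
          rw [h1]
          field_simp
        change b i = _
        rw [h2, Finset.sum_div]
        apply Finset.sum_congr rfl
        intro j _
        simp only [hA, Matrix.of_apply]
        ring
    · refine ⟨0, by simp, ?_⟩
      intro i
      simp [hUz v hv i]

end KX
end

section

/-!
# Joint small ball estimate for independent integer vectors
-/

set_option autoImplicit false

namespace KX

open MeasureTheory

open scoped ENNReal

/-- Lebesgue measure of the preimage of a box-like set under a small Lipschitz perturbation of the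
identity (sup norm): `AntilipschitzWith.hausdorffMeasure_preimage_le`,
`MeasureTheory.hausdorffMeasure_pi_real`, and `|det| ≥ 1`. -/
theorem volume_box_le {r : ℕ} (A : Matrix (Fin r) (Fin r) ℝ) (hA : 1 ≤ |A.det|)
    (e : (Fin r → ℝ) → Fin r → ℝ) (he : ∀ x y, dist (e x) (e y) ≤ (1 / 2) * dist x y)
    (t : Fin r → ℝ) (ht : ∀ i, 0 ≤ t i) :
    volume {x : Fin r → ℝ | ∀ i, |A.mulVec (fun j => x j + e x j) i| ≤ t i} ≤
      ENNReal.ofReal (∏ i, (4 * t i)) := by
  have hanti : AntilipschitzWith 2 (fun x : Fin r → ℝ => x + e x) := by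
    apply AntilipschitzWith.of_le_mul_dist
    intro x y
    have h1 : dist x y ≤ dist (x + e x) (y + e y) + dist (e x) (e y) := by
      have h2 : x - y = ((x + e x) - (y + e y)) - (e x - e y) := by abel
      rw [dist_eq_norm, dist_eq_norm, dist_eq_norm, h2]
      exact norm_sub_le _ _
    have h3 := he x y
    have h4 : ((2 : NNReal) : ℝ) = 2 := rfl
    rw [h4]
    linarith
  have hpre : {x : Fin r → ℝ | ∀ i, |A.mulVec (fun j => x j + e x j) i| ≤ t i} =
      (fun x : Fin r → ℝ => x + e x) ⁻¹' {y | ∀ i, |A.mulVec y i| ≤ t i} := rfl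
  have hdet : LinearMap.det (Matrix.toLin' A) ≠ 0 := by
    rw [LinearMap.det_toLin']
    intro h0
    rw [h0, abs_zero] at hA
    linarith
  have hbox : volume {y : Fin r → ℝ | ∀ i, |A.mulVec y i| ≤ t i} ≤
      ENNReal.ofReal (∏ i, (2 * t i)) := by
    have h1 : {y : Fin r → ℝ | ∀ i, |A.mulVec y i| ≤ t i} =
        (Matrix.toLin' A) ⁻¹' (Set.Icc (fun i => -t i) t) := by
      ext y
      simp only [Set.mem_ofPred_eq, Set.mem_preimage, Set.mem_Icc, Pi.le_def, Matrix.toLin'_apply,
        abs_le]
      exact forall_and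
    rw [h1, Measure.addHaar_preimage_linearMap _ hdet, Real.volume_Icc_pi, LinearMap.det_toLin',
      ENNReal.ofReal_prod_of_nonneg (fun i _ => mul_nonneg zero_le_two (ht i))]
    have h2 : ENNReal.ofReal |A.det⁻¹| ≤ 1 := by
      rw [abs_inv, ← ENNReal.ofReal_one]
      exact ENNReal.ofReal_le_ofReal (inv_le_one_of_one_le₀ hA)
    have h3 : ∀ i : Fin r, t i - -t i = 2 * t i := fun i => by ring
    simp only [h3]
    calc ENNReal.ofReal |A.det⁻¹| * ∏ i, ENNReal.ofReal (2 * t i) ≤
        1 * ∏ i, ENNReal.ofReal (2 * t i) := mul_le_mul_left h2 _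
      _ = _ := one_mul _
  rw [hpre, ← hausdorffMeasure_pi_real]
  refine (hanti.hausdorffMeasure_preimage_le (by positivity) _).trans ?_
  rw [hausdorffMeasure_pi_real]
  refine (mul_le_mul_right hbox _).trans ?_
  rw [Fintype.card_fin, ENNReal.rpow_natCast]
  have h5 : ((2 : NNReal) : ℝ≥0∞) = ENNReal.ofReal 2 := by
    simp
  rw [h5, ← ENNReal.ofReal_pow zero_le_two, ← ENNReal.ofReal_mul (by positivity)]
  refine ENNReal.ofReal_le_ofReal (le_of_eq ?_)
  rw [Finset.prod_mul_distrib, Finset.prod_mul_distrib, Finset.prod_const, Finset.prod_const,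
    Finset.card_univ, Fintype.card_fin, ← mul_assoc, ← mul_pow]
  norm_num

end KX
end

section

/-!
# Joint small ball estimate for independent integer vectors
-/

set_option autoImplicit false

namespace KX

open MeasureTheory

open scoped ENNReal

theorem small_ball_cont {V : Type} [Countable V] (be : V → ℝ) (hb : ∀ j, 0 ≤ be j)
    (hs : Summable be) (c : V → (V → ℝ) → ℝ) (lip : V → ℝ)
    (hc : ∀ j w w', |c j w - c j w'| ≤ lip j * DD be w w') (k : V →₀ ℤ) :
    Continuous fun w : V → ℝ => k.sum fun v x => (x : ℝ) * (w v + c v w) := by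
  unfold Finsupp.sum
  refine continuous_finsetSum _ fun v _ => ?_
  exact continuous_const.mul ((continuous_apply v).add
    (continuous_of_lip be hb hs (c v) (lip v) (hc v)))

theorem small_ball_meas {V : Type} [Countable V] (be : V → ℝ) (hb : ∀ j, 0 ≤ be j)
    (hs : Summable be) (c : V → (V → ℝ) → ℝ) (lip : V → ℝ)
    (hc : ∀ j w w', |c j w - c j w'| ≤ lip j * DD be w w') {r : ℕ} (k : Fin r → V →₀ ℤ)
    (t : Fin r → ℝ) :
    MeasurableSet {w : V → ℝ | ∀ i, |(k i).sum fun v x => (x : ℝ) * (w v + c v w)| ≤ t i} := by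
  have h : {w : V → ℝ | ∀ i, |(k i).sum fun v x => (x : ℝ) * (w v + c v w)| ≤ t i} =
      ⋂ i, {w : V → ℝ | |(k i).sum fun v x => (x : ℝ) * (w v + c v w)| ≤ t i} := by
    ext w
    simp
  rw [h]
  refine MeasurableSet.iInter fun i => IsClosed.measurableSet ?_
  exact isClosed_le (small_ball_cont be hb hs c lip hc (k i)).abs continuous_const

/-- the joint small ball estimate. Restrict to the sites `S` of `exists_columns` (`PP_fubini`); for
fixed other coordinates the vector `(k i · (w + c w))_i` is `A (x + e x)` with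
`e x s = c_{S s} w + ∑_{v ∉ S} al_{v,s} (w v + c v w)`, whose Lipschitz constant is at most
`(∑_v lip v) * (∑ be) ≤ 1/2`. -/
theorem small_ball {V : Type} [DecidableEq V] [Countable V] (be : V → ℝ) (hb : ∀ j, 0 ≤ be j)
    (hs : Summable be) (c : V → (V → ℝ) → ℝ) (lip : V → ℝ) (hl : ∀ j, 0 ≤ lip j)
    (hls : Summable lip) (hsm : (∑' j, lip j) * (∑' j, be j) ≤ 1 / 2)
    (hc : ∀ j w w', |c j w - c j w'| ≤ lip j * DD be w w') {r : ℕ} (k : Fin r → V →₀ ℤ)
    (hk : LinearIndependent ℝ fun i : Fin r => fun v : V => ((k i v : ℤ) : ℝ))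
    (t : Fin r → ℝ) (ht : ∀ i, 0 ≤ t i) :
    PP V {w | ∀ i, |(k i).sum fun v x => (x : ℝ) * (w v + c v w)| ≤ t i} ≤
      ENNReal.ofReal (∏ i, (8 * t i)) := by
  classical
  obtain ⟨S, hSi, hdet, hal⟩ := exists_columns k hk
  choose al hal1 hal2 using hal
  set E := {w : V → ℝ | ∀ i, |(k i).sum fun v x => (x : ℝ) * (w v + c v w)| ≤ t i} with hE
  have hEm : MeasurableSet E := small_ball_meas be hb hs c lip hc k t
  set Sf : Finset V := Finset.univ.image S with hSf
  have hmem : ∀ i, S i ∈ Sf := fun i => Finset.mem_image_of_mem _ (Finset.mem_univ _)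
  let eqv : Fin r ≃ Sf := Equiv.ofBijective (fun i => ⟨S i, hmem i⟩) (by
    constructor
    · intro i j h
      exact hSi (congrArg Subtype.val h)
    · rintro ⟨v, hv⟩
      obtain ⟨i, -, rfl⟩ := Finset.mem_image.1 hv
      exact ⟨i, rfl⟩)
  let Φ := MeasurableEquiv.piCongrLeft (fun _ : Sf => ℝ) eqv
  have hΦ : ∀ (x : Fin r → ℝ) (i : Fin r), Φ x ⟨S i, hmem i⟩ = x i := fun x i =>
    Equiv.piCongrLeft_apply_apply (fun _ : Sf => ℝ) eqv x i
  rw [PP_fubini Sf E hEm]
  have hcard : Fintype.card Sf = r := by
    rw [← Fintype.card_congr eqv, Fintype.card_fin]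
  set U : Finset V := Finset.univ.biUnion (fun i => (k i).support) ∪ Sf with hU
  have key : ∀ w : V → ℝ, Measure.pi (fun _ : Sf => nu) {x | mrg Sf x w ∈ E} ≤
      ENNReal.ofReal (∏ i, (8 * t i)) := by
    intro w
    refine (pi_nu_le _).trans ?_
    have hvol : volume {x | mrg Sf x w ∈ E} = volume (Φ ⁻¹' {x | mrg Sf x w ∈ E}) :=
      ((volume_measurePreserving_piCongrLeft (fun _ : Sf => ℝ) eqv).measure_preimage_equiv _).symm
    set y : (Fin r → ℝ) → V → ℝ := fun x => mrg Sf (Φ x) w with hy
    have hyS : ∀ x s, y x (S s) = x s := by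
      intro x s
      show mrg Sf (Φ x) w (S s) = x s
      unfold mrg
      rw [dif_pos (hmem s)]
      exact hΦ x s
    have hyn : ∀ x v, v ∉ Sf → y x v = w v := by
      intro x v hv
      show mrg Sf (Φ x) w v = w v
      unfold mrg
      rw [dif_neg hv]
    set e : (Fin r → ℝ) → Fin r → ℝ := fun x s =>
      c (S s) (y x) + ∑ v ∈ U \ Sf, al v s * (w v + c v (y x)) with he
    set A : Matrix (Fin r) (Fin r) ℝ := Matrix.of fun i j : Fin r => ((k i (S j) : ℤ) : ℝ) with hA
    have hsum : ∀ x i, (k i).sum (fun v z => (z : ℝ) * (y x v + c v (y x))) =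
        A.mulVec (fun j => x j + e x j) i := by
      intro x i
      have h1 : (k i).sum (fun v z => (z : ℝ) * (y x v + c v (y x))) =
          ∑ v ∈ U, ((k i v : ℤ) : ℝ) * (y x v + c v (y x)) := by
        refine Finsupp.sum_of_support_subset _ ?_ _ (by simp)
        intro v hv
        rw [hU]
        exact Finset.mem_union_left _ (Finset.mem_biUnion.2 ⟨i, Finset.mem_univ _, hv⟩)
      rw [h1, ← Finset.sum_sdiff (s₁ := Sf) (s₂ := U) Finset.subset_union_right]
      have h2 : ∑ v ∈ Sf, ((k i v : ℤ) : ℝ) * (y x v + c v (y x)) =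
          ∑ s, ((k i (S s) : ℤ) : ℝ) * (x s + c (S s) (y x)) := by
        rw [hSf, Finset.sum_image fun a _ b _ h => hSi h]
        refine Finset.sum_congr rfl fun s _ => ?_
        rw [hyS]
      have h3 : ∑ v ∈ U \ Sf, ((k i v : ℤ) : ℝ) * (y x v + c v (y x)) =
          ∑ s, ((k i (S s) : ℤ) : ℝ) * ∑ v ∈ U \ Sf, al v s * (w v + c v (y x)) := by
        simp only [Finset.mul_sum]
        rw [Finset.sum_comm]
        refine Finset.sum_congr rfl fun v hv => ?_
        rw [hyn x v (Finset.mem_sdiff.1 hv).2, hal2 v i, Finset.sum_mul]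
        refine Finset.sum_congr rfl fun s _ => ?_
        ring
      rw [h2, h3, ← Finset.sum_add_distrib]
      show _ = ∑ s, A i s * (x s + e x s)
      refine Finset.sum_congr rfl fun s _ => ?_
      show _ = ((k i (S s) : ℤ) : ℝ) * (x s + (c (S s) (y x) + _))
      ring
    have hset : Φ ⁻¹' {x | mrg Sf x w ∈ E} =
        {x : Fin r → ℝ | ∀ i, |A.mulVec (fun j => x j + e x j) i| ≤ t i} := by
      ext x
      show (∀ i, |(k i).sum fun v z => (z : ℝ) * (y x v + c v (y x))| ≤ t i) ↔ _
      simp only [hsum]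
      rfl
    have hDD : ∀ x x', DD be (y x) (y x') ≤ (∑' j, be j) * dist x x' := by
      intro x x'
      refine (DD_le_sum be hb Sf (y x) (y x') ?_).trans ?_
      · intro j hj
        rw [hyn x j hj, hyn x' j hj]
      · have h4 : ∀ j ∈ Sf, be j * |y x j - y x' j| ≤ be j * dist x x' := by
          intro j hj
          obtain ⟨s, -, rfl⟩ := Finset.mem_image.1 hj
          rw [hyS, hyS]
          refine mul_le_mul_of_nonneg_left ?_ (hb _)
          rw [← Real.dist_eq]
          exact dist_le_pi_dist x x' s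
        refine (Finset.sum_le_sum h4).trans ?_
        rw [← Finset.sum_mul]
        exact mul_le_mul_of_nonneg_right (hs.sum_le_tsum Sf fun j _ => hb j) dist_nonneg
    have hlip : ∀ x x', dist (e x) (e x') ≤ (1 / 2) * dist x x' := by
      intro x x'
      have hd0 : 0 ≤ (1 / 2 : ℝ) * dist x x' := by positivity
      rw [dist_pi_le_iff hd0]
      intro s
      have hD0 : 0 ≤ DD be (y x) (y x') := DD_nonneg be hb _ _
      have h5 : e x s - e x' s = (c (S s) (y x) - c (S s) (y x')) +
          ∑ v ∈ U \ Sf, al v s * (c v (y x) - c v (y x')) := by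
        show (c (S s) (y x) + ∑ v ∈ U \ Sf, al v s * (w v + c v (y x))) -
          (c (S s) (y x') + ∑ v ∈ U \ Sf, al v s * (w v + c v (y x'))) = _
        have h6 : ∑ v ∈ U \ Sf, al v s * (c v (y x) - c v (y x')) =
            ∑ v ∈ U \ Sf, al v s * (w v + c v (y x)) -
              ∑ v ∈ U \ Sf, al v s * (w v + c v (y x')) := by
          rw [← Finset.sum_sub_distrib]
          refine Finset.sum_congr rfl fun v _ => ?_
          ring
        rw [h6]
        ring
      have h7 : |∑ v ∈ U \ Sf, al v s * (c v (y x) - c v (y x'))| ≤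
          (∑ v ∈ U \ Sf, lip v) * DD be (y x) (y x') := by
        refine (Finset.abs_sum_le_sum_abs _ _).trans ?_
        rw [Finset.sum_mul]
        refine Finset.sum_le_sum fun v _ => ?_
        rw [abs_mul]
        calc |al v s| * |c v (y x) - c v (y x')| ≤ 1 * |c v (y x) - c v (y x')| :=
              mul_le_mul_of_nonneg_right (hal1 v s) (abs_nonneg _)
          _ ≤ lip v * DD be (y x) (y x') := by rw [one_mul]; exact hc v _ _
      have h8 : lip (S s) + ∑ v ∈ U \ Sf, lip v ≤ ∑' j, lip j := by
        have h9 : S s ∉ U \ Sf := fun h => (Finset.mem_sdiff.1 h).2 (hmem s)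
        rw [← Finset.sum_insert h9]
        exact hls.sum_le_tsum _ fun j _ => hl j
      rw [Real.dist_eq, h5]
      calc |(c (S s) (y x) - c (S s) (y x')) +
            ∑ v ∈ U \ Sf, al v s * (c v (y x) - c v (y x'))|
          ≤ |c (S s) (y x) - c (S s) (y x')| +
            |∑ v ∈ U \ Sf, al v s * (c v (y x) - c v (y x'))| := abs_add_le _ _
        _ ≤ lip (S s) * DD be (y x) (y x') + (∑ v ∈ U \ Sf, lip v) * DD be (y x) (y x') :=
            add_le_add (hc _ _ _) h7
        _ = (lip (S s) + ∑ v ∈ U \ Sf, lip v) * DD be (y x) (y x') := by ring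
        _ ≤ (∑' j, lip j) * DD be (y x) (y x') := mul_le_mul_of_nonneg_right h8 hD0
        _ ≤ (∑' j, lip j) * ((∑' j, be j) * dist x x') :=
            mul_le_mul_of_nonneg_left (hDD x x') (tsum_nonneg hl)
        _ = ((∑' j, lip j) * (∑' j, be j)) * dist x x' := by ring
        _ ≤ (1 / 2) * dist x x' := mul_le_mul_of_nonneg_right hsm dist_nonneg
    rw [hvol, hset, hcard]
    refine (mul_le_mul_right (volume_box_le A hdet e hlip t ht) _).trans ?_
    have h10 : (2 : ℝ≥0∞) ^ r = ENNReal.ofReal (2 ^ r) := by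
      rw [ENNReal.ofReal_pow (by norm_num)]
      simp
    rw [h10, ← ENNReal.ofReal_mul (by positivity)]
    apply ENNReal.ofReal_le_ofReal
    apply le_of_eq
    have h11 : (2 : ℝ) ^ r = ∏ _i : Fin r, (2 : ℝ) := by simp
    rw [h11, ← Finset.prod_mul_distrib]
    refine Finset.prod_congr rfl fun i _ => ?_
    ring
  calc ∫⁻ w, Measure.pi (fun _ : Sf => nu) {x | mrg Sf x w ∈ E} ∂(PP V)
      ≤ ∫⁻ _w, ENNReal.ofReal (∏ i, (8 * t i)) ∂(PP V) := lintegral_mono key
    _ = ENNReal.ofReal (∏ i, (8 * t i)) := by simp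

end KX
end
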