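import Pool.Agent.Lib.MP_73c19a_an.Mg.G012
import Pool.Agent.Lib.MP_73c19a_an.Mg.G009
import Pool.Agent.Lib.MP_73c19a_an.Posa
import Pool.Agent.Lib.MP_73c19a_an.Costa
import Pool.Agent.Lib.MP_73c19a_an.Dioa
import Pool.Agent.Lib.MP_73c19a_an.Mg.G020
import Pool.Agent.Lib.MP_73c19a_an.Mg.G001

section

/-!
# The transformation of one block on formal series
-/

set_option autoImplicit false

namespace KX

open scoped ENNReal

variable {V : Type} [DecidableEq V]

theorem blockc_nr_tsum {M : Type} (w : M → ℝ≥0∞) (g : ℕ → M → ℂ) :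
    nr w (fun m => ∑' n, g n m) ≤ ∑' n, nr w (g n) := by
  unfold nr
  rw [ENNReal.tsum_comm]
  refine ENNReal.tsum_le_tsum fun m => ?_
  rw [ENNReal.tsum_mul_right]
  gcongr
  exact enorm_tsum_le_tsum_enorm

theorem blockc_nr_sub {M : Type} (w : M → ℝ≥0∞) (p r : M → ℂ) (n : ℕ) :
    nr w (fun m => p m - r m / ((n : ℂ) + 1)) ≤ nr w p + nr w r := by
  unfold nr
  rw [← ENNReal.tsum_add]
  refine ENNReal.tsum_le_tsum fun m => ?_
  rw [← add_mul]
  gcongr
  refine (enorm_sub_le).trans ?_
  gcongr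
  rw [← ofReal_norm, ← ofReal_norm, norm_div]
  refine ENNReal.ofReal_le_ofReal (div_le_self (norm_nonneg _) ?_)
  have : ((n : ℂ) + 1) = ((n + 1 : ℝ) : ℂ) := by push_cast; ring
  rw [this, Complex.norm_real, Real.norm_of_nonneg (by positivity)]
  have : (0 : ℝ) ≤ n := by positivity
  linarith

/-- finiteness of the new perturbation at a smaller level -/
theorem nr_tp_le (G : Geo V) (rho s y s1 z : ℝ) (hr : 0 < rho) (hs : 0 ≤ s) (hy : 0 < y)
    (hs1 : 0 < s1) (h2 : s + y ≤ s1 / 2) (hz : 0 ≤ z) (hz1 : z ≤ 1 / 2) (F p r : Mon V → ℂ)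
    (hF : ENNReal.ofReal (6 / (rho * y * s1)) * nr (wg G rho s1) F ≤ ENNReal.ofReal z) :
    nr (wg G rho s) (tp F p r) ≤ 2 * (nr (wg G rho (s + y)) p + nr (wg G rho (s + y)) r) := by
  unfold tp
  refine (blockc_nr_tsum _ _).trans ?_
  have hgeo : ∑' n : ℕ, ENNReal.ofReal (z ^ n) ≤ 2 := by
    rw [← ENNReal.ofReal_tsum_of_nonneg (fun n => by positivity)
      (summable_geometric_of_lt_one hz (by linarith)), tsum_geometric_of_lt_one hz (by linarith)]
    have h2' : (1 - z)⁻¹ ≤ 2 := by
      rw [inv_le_comm₀ (by linarith) (by norm_num)]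
      linarith
    calc ENNReal.ofReal (1 - z)⁻¹ ≤ ENNReal.ofReal 2 := ENNReal.ofReal_le_ofReal h2'
      _ = 2 := by norm_num
  calc ∑' n : ℕ, nr (wg G rho s) (fun m => (1 / (n.factorial : ℂ)) *
        ((XX F)^[n] (fun m' => p m' - r m' / ((n : ℂ) + 1))) m)
      ≤ ∑' n : ℕ, ENNReal.ofReal (z ^ n) *
        (nr (wg G rho (s + y)) p + nr (wg G rho (s + y)) r) := by
        refine ENNReal.tsum_le_tsum fun n => ?_
        refine (nr_XX_iter_fac' G rho s y s1 z hr hs hy hs1 h2 hz F
          (fun m' => p m' - r m' / ((n : ℂ) + 1)) hF n).trans ?_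
        gcongr
        exact blockc_nr_sub _ _ _ _
    _ = (∑' n : ℕ, ENNReal.ofReal (z ^ n)) *
        (nr (wg G rho (s + y)) p + nr (wg G rho (s + y)) r) := ENNReal.tsum_mul_right
    _ ≤ 2 * (nr (wg G rho (s + y)) p + nr (wg G rho (s + y)) r) := by gcongr

end KX
end

section

/-!
# The cost of the small divisors of a divided tree

`x y ≥ 0` is (the positive part of) `log (1 / |k_y · ω|)` for the divided positions `y` of `h`,
including the root. `hD` is the diophantine bound for every single divisor, `hJ` the joint bound for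
linearly independent families. Proof of `cost_main` in `/team-store/MP_73c19a_PROOF.md`, Part C.
-/

set_option autoImplicit false

namespace KX

variable {V : Type} [DecidableEq V]

namespace Tr

theorem mg_smul_Costb (c : ℝ) (w : V → ℝ) (h : Tr V) : mg (fun j => c * w j) h = c * mg w h := by
  induction h with
  | leaf l => simp [mg]
  | node j f p ihf ihp =>
    simp only [mg]
    rw [ihf, ihp, ← Finset.mul_sum]
    ring

theorem sg_le_o_Costb (B : Finset V) (h : Tr V) (y : Option (Dv h)) :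
    sg B h y ≤ o B (osub h y) :=
  (Finset.card_le_card (Finset.sdiff_subset_sdiff (k_supp (osub h y)) subset_rfl)).trans
    (card_sdiff_le_o B (osub h y))

/-- few leaves: all divisors are estimated by `hD` -/
theorem cost_small (G : Geo V) (P : BP V) (h : Tr V) (hg : Good G P h) (hd : deg h ≤ 1)
    (hk : k h ≠ 0) (T : ℕ) (hT : tau G P h < T) (x : Option (Dv h) → ℝ) (lg bD ell dp th e1 : ℝ)
    (qs : ℕ) (hlg : 0 ≤ lg) (hbD : 0 ≤ bD) (hell : 0 ≤ ell) (hdp : 0 ≤ dp) (hth : 0 ≤ th)
    (he : 0 < e1) (he1 : e1 ≤ 1)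
    (hD : ∀ y, x y ≤ lg + bD * Real.log (G.brm (ky h y).support) + ell * (ky h y).support.card +
      dp * (G.Lam (ky h y).support + kab (ky h y)))
    (C1 : lg + bD * Real.log (1 / e1) + ell * P.B.card ≤ th * P.mu)
    (C2 : ell * qs ≤ th * P.la) (C3 : T * (bD * e1 + dp) ≤ th * P.de) (hq : q h ≤ qs)
    (i : V) (hi : i ∈ A h) :
    ∑ y, x y ≤ th * mass G P h + mg (fun j => bD * Real.log (G.br j)) h +
      bD * Real.log (G.br i) := by
  have h1 : ∑ y, x y ≤ ∑ y, (lg + bD * Real.log (G.brm (ky h y).support) +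
      dp * (G.Lam (ky h y).support + kab (ky h y))) + ell * ∑ y, ((ky h y).support.card : ℝ) := by
    rw [Finset.mul_sum, ← Finset.sum_add_distrib]
    refine Finset.sum_le_sum fun y _ => ?_
    have := hD y
    linarith
  have h2 := sum_D G P h hg hd hk T hT lg bD dp e1 hlg hbD hdp he he1 Finset.univ i hi
  have h3 := sum_card_le P.B h Finset.univ
  have h4 : ∑ y, (sg P.B h y : ℝ) ≤ q h * (o P.B h : ℝ) := by
    refine le_trans (Finset.sum_le_sum fun y _ => ?_)
      (sum_osub_le_q h (fun t => (o P.B t : ℝ)) (fun l => ((l.A \ P.B).card : ℝ))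
        (fun l => Nat.cast_nonneg _) (fun l => rfl) (fun j f p => by
          show ((o P.B f + o P.B p : ℕ) : ℝ) = _
          push_cast
          rfl))
    exact_mod_cast sg_le_o_Costb P.B h y
  have hq' : (q h : ℝ) ≤ qs := by exact_mod_cast hq
  have ho : (0 : ℝ) ≤ (o P.B h : ℝ) := Nat.cast_nonneg _
  have hq0 : (0 : ℝ) ≤ (q h : ℝ) := Nat.cast_nonneg _
  have h5 : ell * (q h * (o P.B h : ℝ)) ≤ th * P.la * o P.B h := by
    have a1 : ell * q h ≤ ell * qs := mul_le_mul_of_nonneg_left hq' hell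
    have a2 : ell * q h ≤ th * P.la := a1.trans C2
    have := mul_le_mul_of_nonneg_right a2 ho
    linarith
  have h6 : (q h : ℝ) * (lg + bD * Real.log (1 / e1) + ell * P.B.card) ≤ q h * (th * P.mu) :=
    mul_le_mul_of_nonneg_left C1 hq0
  have h7 : T * (bD * e1 + dp) * ((N h : ℝ) + L G h) ≤ th * P.de * ((N h : ℝ) + L G h) :=
    mul_le_mul_of_nonneg_right C3 (by positivity)
  have h8 := mul_le_mul_of_nonneg_left h3 hell
  have h9 := mul_le_mul_of_nonneg_left h4 hell
  rw [mg_smul_Costb]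
  unfold mass
  nlinarith [h1, h2, h5, h6, h7, h8, h9]

end Tr

end KX
end

section

/-!
# Small divisor conditions and products of divisors

`DC`, `JC`: the single and the joint diophantine conditions for a frequency vector `w`.
`hatY h`: the product of `max 1 (1 / |k_y · ω_{τ(y)}|)` over the divided positions of `h`.
`YY h`: the product of the inverse divisors themselves.
-/

set_option autoImplicit false

namespace KX

variable {V : Type} [DecidableEq V]

namespace Tr

theorem dcost_le_Diod (G : Geo V) (P : BP V) (C : CC) (T : ℕ) (hC : C.OK G P T) (f : Tr V)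
    (hg : Good G P f) (hT : 1 ≤ T) :
    dcost G C (k f) ≤ C.bD * Real.log (G.brm (k f).support) + 3 * C.th * mass G P f := by
  have hth := hC.th0
  have hell := hC.ell0
  have hm : 0 ≤ mass G P f := (P.mu_pos.le).trans (mu_le_mass G P f)
  have h1 : ((k f).support.card : ℝ) ≤ P.B.card + o P.B f := by
    have a1 := Finset.card_sdiff_add_card_inter (k f).support P.B
    have a2 : ((k f).support ∩ P.B).card ≤ P.B.card :=
      Finset.card_le_card Finset.inter_subset_right
    have a3 : ((k f).support \ P.B).card ≤ o P.B f :=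
      (Finset.card_le_card (Finset.sdiff_subset_sdiff (k_supp f) subset_rfl)).trans
        (card_sdiff_le_o P.B f)
    have a4 : (k f).support.card ≤ P.B.card + o P.B f := by omega
    exact_mod_cast a4
  have h2 : C.lg + C.ell * P.B.card ≤ C.th * P.mu := by
    have a1 := hC.C1
    have a2 : 0 ≤ C.bD * Real.log (1 / C.e1) := by
      apply mul_nonneg hC.bD0
      apply Real.log_nonneg
      rw [le_div_iff₀ hC.e0]
      linarith [hC.e1]
    linarith
  have h3 : C.ell ≤ C.th * P.la := by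
    have a1 := hC.C6
    have a2 : (1 : ℝ) ≤ C.g := by exact_mod_cast hC.g1
    nlinarith [mul_le_mul_of_nonneg_right a2 hell]
  have h4 : C.dp ≤ C.th * P.de := by
    have a1 := hC.C3
    have a2 : (1 : ℝ) ≤ T := by exact_mod_cast hT
    have a3 : 0 ≤ C.bD * C.e1 := mul_nonneg hC.bD0 hC.e0.le
    nlinarith [mul_le_mul_of_nonneg_right a2 (add_nonneg a3 hC.dp0)]
  have h5 : (G.Lam (k f).support : ℝ) ≤ L G f := by
    have := (G.Lam_mono (k_supp f)).trans (Lam_le_L G f (good_conn G P f hg))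
    exact_mod_cast this
  have h6 : (kab (k f) : ℝ) ≤ N f := by
    have := (Nat.le_add_left _ _).trans (nk_le_N f)
    exact_mod_cast this
  have h7 : (1 : ℝ) ≤ q f := by exact_mod_cast one_le_q f
  have b1 : C.ell * ((k f).support.card : ℝ) ≤ C.ell * (P.B.card + o P.B f) :=
    mul_le_mul_of_nonneg_left h1 hell
  have b2 : C.ell * (o P.B f : ℝ) ≤ C.th * P.la * o P.B f :=
    mul_le_mul_of_nonneg_right h3 (Nat.cast_nonneg _)
  have b3 : C.dp * (G.Lam (k f).support + kab (k f)) ≤ C.dp * (L G f + N f) :=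
    mul_le_mul_of_nonneg_left (add_le_add h5 h6) hC.dp0
  have b4 : C.dp * ((L G f : ℝ) + N f) ≤ C.th * P.de * (L G f + N f) :=
    mul_le_mul_of_nonneg_right h4 (by positivity)
  have b5 : C.th * P.mu ≤ C.th * P.mu * q f := by
    have : 0 ≤ C.th * P.mu := mul_nonneg hth P.mu_pos.le
    nlinarith
  have b6 : 0 ≤ C.th * mass G P f := mul_nonneg hth hm
  have b7 : C.th * mass G P f = C.th * P.mu * q f + C.th * P.la * o P.B f +
      C.th * P.de * (L G f + N f) := by
    unfold mass
    ring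
  unfold dcost
  linarith

theorem dot_sub_Diod (k : V →₀ ℤ) (w w' : V → ℝ) (b : ℝ)
    (h : ∀ j ∈ k.support, |w j - w' j| ≤ b) : |dot k w - dot k w'| ≤ kab k * b := by
  have h1 : dot k w - dot k w' = ∑ j ∈ k.support, (k j : ℝ) * (w j - w' j) := by
    unfold dot Finsupp.sum
    rw [← Finset.sum_sub_distrib]
    refine Finset.sum_congr rfl fun j _ => by ring
  rw [h1]
  refine (Finset.abs_sum_le_sum_abs _ _).trans ?_
  unfold kab Finsupp.sum
  rw [Nat.cast_sum, Finset.sum_mul]
  refine Finset.sum_le_sum fun j hj => ?_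
  rw [abs_mul]
  have h2 : |((k j : ℤ) : ℝ)| = ((k j).natAbs : ℝ) := by
    rw [Nat.cast_natAbs, Int.cast_abs]
  rw [h2]
  exact mul_le_mul_of_nonneg_left (h j hj) (Nat.cast_nonneg _)

/-- drift: if the frequencies move at time `s` by at most
`(2 / br_j^bD) exp (-(1/2) mu (3/2)^(s/2) - (3/8) mu)` at the site `j`, the divisors of older trees
change by a factor at most two. Here `|k_f| ≤ N_f ≤ mass / de`, `mass < mu (3/2)^(win+1)`,
`dcost (k f) ≤ 2 th mass + bD log brm`, and `C11` absorbs the constants. -/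
theorem drift (G : Geo V) (P : BP V) (C : CC) (T : ℕ) (hC : C.OK G P T) (om : ℕ → V → ℝ) (t : ℕ)
    (ht : t ≤ T)
    (hmove : ∀ s, s + 1 ≤ t → ∀ j, |om (s + 1) j - om s j| ≤ 2 * (G.br j) ^ (-C.bD) *
      Real.exp (-(1 / 2) * (P.mu * (3 / 2 : ℝ) ^ (s / 2)) - (3 / 8) * P.mu))
    (C11 : ∀ m : ℝ, P.mu ≤ m → 4 * T * (m / P.de) ≤ Real.exp ((1 / 3 - 3 * C.th) * m))
    (hth : C.th ≤ 1 / 24)
    (s : ℕ) (hs : s ≤ t) (f : Tr V) (hg : Good G P f) (hd : deg f ≤ 1) (hk : k f ≠ 0)
    (hf : tau G P f ≤ s) (hfT : tau G P f < T) (hD : DC G C (om s)) :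
    |dot (k f) (om s)| ≤ 2 * |dot (k f) (om (tau G P f))| := by
  have hbD := hC.bD0
  have hT1 : 1 ≤ T := by omega
  set m := mass G P f with hmdef
  have hmu : P.mu ≤ m := mu_le_mass G P f
  have hm0 : 0 ≤ m := P.mu_pos.le.trans hmu
  set br0 := G.brm (k f).support with hbr0
  have hbr1 : 1 ≤ br0 := G.one_le_brm _
  have hbrpos : 0 < br0 := by linarith
  -- a single move
  have hE : ∀ s', tau G P f ≤ s' → Real.exp (-(1 / 2) * (P.mu * (3 / 2 : ℝ) ^ (s' / 2)) -
      (3 / 8) * P.mu) ≤ Real.exp (-(m / 3)) := by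
    intro s' hs'
    apply Real.exp_le_exp.2
    have a1 : win G P f ≤ s' / 2 := by
      unfold tau at hs'
      omega
    have a2 : (3 / 2 : ℝ) ^ win G P f ≤ (3 / 2 : ℝ) ^ (s' / 2) :=
      pow_le_pow_right₀ (by norm_num) a1
    have a3 := win_lt G P f
    rw [pow_succ, ← hmdef] at a3
    have a4 := mul_le_mul_of_nonneg_left a2 P.mu_pos.le
    have := P.mu_pos
    nlinarith
  have hmv : ∀ s', tau G P f ≤ s' → s' + 1 ≤ t → ∀ j ∈ (k f).support,
      |om (s' + 1) j - om s' j| ≤ 2 * br0 ^ (-C.bD) * Real.exp (-(m / 3)) := by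
    intro s' h1 h2 j hj
    refine (hmove s' h2 j).trans ?_
    have a1 : br0 ≤ G.br j := G.brm_le hj
    have a2 : (G.br j) ^ (-C.bD) ≤ br0 ^ (-C.bD) :=
      Real.rpow_le_rpow_of_nonpos hbrpos a1 (by linarith)
    exact mul_le_mul (mul_le_mul_of_nonneg_left a2 (by norm_num)) (hE s' h1) (Real.exp_pos _).le
      (by positivity)
  have hdist : ∀ j ∈ (k f).support, |om s j - om (tau G P f) j| ≤
      T * (2 * br0 ^ (-C.bD) * Real.exp (-(m / 3))) := by
    intro j hj
    have a1 := dist_le_Ico_sum_dist (fun s => om s j) hf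
    have a2 : ∑ i ∈ Finset.Ico (tau G P f) s, dist (om i j) (om (i + 1) j) ≤
        ∑ i ∈ Finset.Ico (tau G P f) s, (2 * br0 ^ (-C.bD) * Real.exp (-(m / 3))) := by
      refine Finset.sum_le_sum fun i hi => ?_
      rw [Finset.mem_Ico] at hi
      rw [dist_comm, Real.dist_eq]
      exact hmv i hi.1 (by omega) j hj
    rw [Finset.sum_const, Nat.card_Ico, nsmul_eq_mul] at a2
    have a3 : ((s - tau G P f : ℕ) : ℝ) ≤ T := by
      have : s - tau G P f ≤ T := by omega
      exact_mod_cast this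
    rw [abs_sub_comm, ← Real.dist_eq]
    refine a1.trans (a2.trans ?_)
    exact mul_le_mul_of_nonneg_right a3 (by positivity)
  have hdrift := dot_sub_Diod (k f) (om s) (om (tau G P f)) _ hdist
  -- the number of angles
  have hkab : (kab (k f) : ℝ) ≤ m / P.de := by
    have a1 : (kab (k f) : ℝ) ≤ N f := by
      have := (Nat.le_add_left _ _).trans (nk_le_N f)
      exact_mod_cast this
    have a2 : P.de * (N f : ℝ) ≤ m := by
      rw [hmdef]
      unfold mass
      have b1 : 0 ≤ P.mu * q f := mul_nonneg P.mu_pos.le (Nat.cast_nonneg _)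
      have b2 : 0 ≤ P.la * o P.B f := mul_nonneg P.la_pos.le (Nat.cast_nonneg _)
      have b3 : 0 ≤ P.de * (L G f : ℝ) := mul_nonneg P.de_pos.le (Nat.cast_nonneg _)
      linarith
    rw [le_div_iff₀ P.de_pos]
    have := mul_le_mul_of_nonneg_left a1 P.de_pos.le
    linarith
  -- the divisor
  have hdiv : br0 ^ (-C.bD) * Real.exp (-(3 * C.th * m)) ≤ |dot (k f) (om s)| := by
    refine le_trans (le_of_eq ?_) ((Real.exp_le_exp.2 (neg_le_neg
      (dcost_le_Diod G P C T hC f hg hT1))).trans (hD (k f) hk))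
    rw [neg_add, Real.exp_add, Real.rpow_def_of_pos hbrpos]
    congr 2
    ring
  have h11 := C11 m hmu
  have hkey : (kab (k f) : ℝ) * (T * (2 * br0 ^ (-C.bD) * Real.exp (-(m / 3)))) ≤
      (1 / 2) * |dot (k f) (om s)| := by
    have a0 : 0 ≤ (T : ℝ) * (2 * br0 ^ (-C.bD) * Real.exp (-(m / 3))) := by positivity
    have a1 := mul_le_mul_of_nonneg_right hkab a0
    have a2 : m / P.de * (T * (2 * br0 ^ (-C.bD) * Real.exp (-(m / 3)))) =
        (1 / 2) * (br0 ^ (-C.bD) * (Real.exp (-(m / 3)) * (4 * T * (m / P.de)))) := by ring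
    have a3 : Real.exp (-(m / 3)) * (4 * T * (m / P.de)) ≤ Real.exp (-(3 * C.th * m)) := by
      calc Real.exp (-(m / 3)) * (4 * T * (m / P.de)) ≤
          Real.exp (-(m / 3)) * Real.exp ((1 / 3 - 3 * C.th) * m) :=
            mul_le_mul_of_nonneg_left h11 (Real.exp_pos _).le
        _ = Real.exp (-(3 * C.th * m)) := by
            rw [← Real.exp_add]
            congr 1
            ring
    have a4 : 0 ≤ br0 ^ (-C.bD) := by positivity
    have a5 := mul_le_mul_of_nonneg_left a3 a4
    linarith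
  have hfin := hdrift.trans hkey
  have htri : |dot (k f) (om s)| ≤ |dot (k f) (om s) - dot (k f) (om (tau G P f))| +
      |dot (k f) (om (tau G P f))| := by
    have := abs_add_le (dot (k f) (om s) - dot (k f) (om (tau G P f)))
      (dot (k f) (om (tau G P f)))
    rwa [sub_add_cancel] at this
  linarith

end Tr

end KX
end

section

/-!
# Union bounds for the small divisor conditions
-/

set_option autoImplicit false

namespace KX

open MeasureTheory

open scoped ENNReal

variable {V : Type} [DecidableEq V]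

theorem dcost_sum (G : Geo V) (C : CC) (Cb : ℝ) (hLS : LS G C.ell C.dp) (hSB : SB G C.bD Cb) :
    ∑' k : V →₀ ℤ, (if k ≠ 0 then ENNReal.ofReal (Real.exp (-dcost G C k)) else 0) ≤
      ENNReal.ofReal (Cb * Real.exp (-C.lg)) := by
  classical
  let lb : (V →₀ ℤ) → Lbl V := fun k =>
    ⟨k.support, 0, k, by simp, Finset.Subset.refl _⟩
  have hlb : Function.Injective lb := by
    intro k k' h
    have := congrArg Lbl.k h
    exact this
  set W : V → Lbl V → ℝ≥0∞ := fun i l => (if i ∈ l.A then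
    ENNReal.ofReal (Real.exp (-(C.ell * l.A.card + C.dp * (l.N + G.Lam l.A)))) else 0) with hW
  have hstep : ∀ k : V →₀ ℤ, (if k ≠ 0 then ENNReal.ofReal (Real.exp (-dcost G C k)) else 0) ≤
      ∑' i : V, W i (lb k) * (ENNReal.ofReal ((G.br i) ^ (-C.bD)) *
        ENNReal.ofReal (Real.exp (-C.lg))) := by
    intro k
    split_ifs with hcond
    · have hne : k.support.Nonempty := Finsupp.support_nonempty_iff.mpr hcond
      obtain ⟨i, hi, hbi⟩ := Finset.exists_mem_eq_inf' hne G.br
      refine le_trans ?_ (ENNReal.le_tsum i)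
      simp only [hW]
      rw [if_pos (show i ∈ (lb k).A from hi)]
      have hbr : G.brm k.support = G.br i := by
        unfold Geo.brm
        rw [dif_pos hne, hbi]
      have hpos : 0 < G.br i := lt_of_lt_of_le zero_lt_one (G.one_le_br i)
      have hN : (lb k).N = kab k := by
        simp only [lb, Lbl.N, dgr]
        simp
      have hA : (lb k).A = k.support := rfl
      rw [← ENNReal.ofReal_mul (Real.rpow_nonneg hpos.le _), ← ENNReal.ofReal_mul (by positivity)]
      apply ENNReal.ofReal_le_ofReal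
      apply le_of_eq
      rw [Real.rpow_def_of_pos hpos, ← Real.exp_add, ← Real.exp_add, hN, hA]
      congr 1
      unfold dcost
      rw [hbr]
      ring
    · exact bot_le
  calc ∑' k : V →₀ ℤ, (if k ≠ 0 then ENNReal.ofReal (Real.exp (-dcost G C k)) else 0)
      ≤ ∑' k : V →₀ ℤ, ∑' i : V, W i (lb k) * (ENNReal.ofReal ((G.br i) ^ (-C.bD)) *
        ENNReal.ofReal (Real.exp (-C.lg))) := ENNReal.tsum_le_tsum hstep
    _ = ∑' i : V, ∑' k : V →₀ ℤ, W i (lb k) * (ENNReal.ofReal ((G.br i) ^ (-C.bD)) *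
        ENNReal.ofReal (Real.exp (-C.lg))) := ENNReal.tsum_comm
    _ = ∑' i : V, (∑' k : V →₀ ℤ, W i (lb k)) * (ENNReal.ofReal ((G.br i) ^ (-C.bD)) *
        ENNReal.ofReal (Real.exp (-C.lg))) := by
        refine tsum_congr fun i => ?_
        rw [ENNReal.tsum_mul_right]
    _ ≤ ∑' i : V, (1 : ℝ≥0∞) * (ENNReal.ofReal ((G.br i) ^ (-C.bD)) *
        ENNReal.ofReal (Real.exp (-C.lg))) := by
        refine ENNReal.tsum_le_tsum fun i => ?_
        gcongr
        exact (ENNReal.tsum_comp_le_tsum_of_injective hlb (W i)).trans (hLS i)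
    _ = (∑' i : V, ENNReal.ofReal ((G.br i) ^ (-C.bD))) * ENNReal.ofReal (Real.exp (-C.lg)) := by
        simp only [one_mul]
        rw [ENNReal.tsum_mul_right]
    _ ≤ ENNReal.ofReal Cb * ENNReal.ofReal (Real.exp (-C.lg)) := by
        gcongr
        exact hSB
    _ = ENNReal.ofReal (Cb * Real.exp (-C.lg)) := by
        rw [ENNReal.ofReal_mul' (Real.exp_pos _).le]

/-- probability that the single condition fails -/
theorem DC_prob [Countable V] (G : Geo V) (C : CC) (Cb : ℝ) (hLS : LS G C.ell C.dp)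
    (hSB : SB G C.bD Cb) (be : V → ℝ) (hb : ∀ j, 0 ≤ be j)
    (hs : Summable be) (c : V → (V → ℝ) → ℝ) (lip : V → ℝ) (hl : ∀ j, 0 ≤ lip j)
    (hls : Summable lip) (hsm : (∑' j, lip j) * (∑' j, be j) ≤ 1 / 2)
    (hc : ∀ j w w', |c j w - c j w'| ≤ lip j * DD be w w') :
    PP V {w | ¬ DC G C (fun j => w j + c j w)} ≤ ENNReal.ofReal (8 * Cb * Real.exp (-C.lg)) := by
  classical
  have hsub : {w : V → ℝ | ¬ DC G C (fun j => w j + c j w)} ⊆
      ⋃ k : V →₀ ℤ, {w : V → ℝ | k ≠ 0 ∧
        |dot k (fun j => w j + c j w)| ≤ Real.exp (-dcost G C k)} := by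
    intro w hw
    simp only [Set.mem_ofPred_eq, DC, not_forall] at hw
    obtain ⟨k, hk, hlt⟩ := hw
    rw [Set.mem_iUnion]
    exact ⟨k, hk, (not_le.mp hlt).le⟩
  have hk1 : ∀ k : V →₀ ℤ, PP V {w : V → ℝ | k ≠ 0 ∧
        |dot k (fun j => w j + c j w)| ≤ Real.exp (-dcost G C k)} ≤
      ENNReal.ofReal 8 * (if k ≠ 0 then ENNReal.ofReal (Real.exp (-dcost G C k)) else 0) := by
    intro k
    by_cases hk : k = 0
    · simp [hk]
    · rw [if_pos hk]
      have h1 := small_ball be hb hs c lip hl hls hsm hc (fun _ : Fin 1 => k) (by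
        rw [linearIndependent_unique_iff]
        intro h0
        apply hk
        ext v
        have := congrFun h0 v
        simpa using this) (fun _ => Real.exp (-dcost G C k)) (fun _ => (Real.exp_pos _).le)
      rw [← ENNReal.ofReal_mul (by norm_num)]
      refine le_trans (measure_mono ?_) (le_trans h1 (le_of_eq ?_))
      · intro w hw _
        exact hw.2
      · simp
  calc PP V {w | ¬ DC G C (fun j => w j + c j w)}
      ≤ PP V (⋃ k : V →₀ ℤ, {w : V → ℝ | k ≠ 0 ∧
        |dot k (fun j => w j + c j w)| ≤ Real.exp (-dcost G C k)}) := measure_mono hsub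
    _ ≤ ∑' k : V →₀ ℤ, PP V {w : V → ℝ | k ≠ 0 ∧
        |dot k (fun j => w j + c j w)| ≤ Real.exp (-dcost G C k)} := measure_iUnion_le _
    _ ≤ ∑' k : V →₀ ℤ, ENNReal.ofReal 8 *
        (if k ≠ 0 then ENNReal.ofReal (Real.exp (-dcost G C k)) else 0) :=
        ENNReal.tsum_le_tsum hk1
    _ = ENNReal.ofReal 8 * ∑' k : V →₀ ℤ,
        (if k ≠ 0 then ENNReal.ofReal (Real.exp (-dcost G C k)) else 0) := ENNReal.tsum_mul_left
    _ ≤ ENNReal.ofReal 8 * ENNReal.ofReal (Cb * Real.exp (-C.lg)) := by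
        gcongr
        exact dcost_sum G C Cb hLS hSB
    _ = ENNReal.ofReal (8 * Cb * Real.exp (-C.lg)) := by
        rw [← ENNReal.ofReal_mul (by norm_num)]
        congr 1
        ring

end KX
end
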