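import Mathlib
import Pool.Agent.Lib.MP_73c19a_an.Mg.G007
import Pool.Agent.Lib.MP_73c19a_an.RBa
import Pool.Agent.Lib.MP_73c19a_an.Model

section

/-!
# Combinatorial core: many independent vectors in a laminar family

`Q` is the finite set of leaves, `D` the finite set of divided nodes, `Ls n` the leaf set of the node
`n`, `kq q` the integer vector of the leaf `q`, `kn n = ∑_{q ∈ Ls n} kq q`, `Aq q` the cluster.
-/

set_option autoImplicit false

namespace KX

open Finset

/-- Triangularity with respect to a size function: every `n ∈ R` has a coordinate `p n` with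
`v n (p n) ≠ 0` and `v m (p n) = 0` for all `m ∈ R`, `m ≠ n`, except those of larger size. -/
theorem indep_of_pivot {D V : Type} [DecidableEq D] (R : Finset D) (v : D → V → ℝ) (sz : D → ℕ)
    (p : D → V) (h0 : ∀ n ∈ R, v n (p n) ≠ 0)
    (h1 : ∀ n ∈ R, ∀ m ∈ R, m ≠ n → sz m ≤ sz n → v m (p n) = 0) :
    LinearIndependent ℝ (fun n : R => v n) := by
  rw [Fintype.linearIndependent_iff]
  intro g hg
  by_contra hne
  push Not at hne
  obtain ⟨i0, hi0⟩ := hne
  obtain ⟨i, hi, hmax⟩ := Finset.exists_max_image (Finset.univ.filter fun i : R => g i ≠ 0)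
    (fun i => sz i) ⟨i0, by simpa using hi0⟩
  have hgi : g i ≠ 0 := (Finset.mem_filter.1 hi).2
  have hev := congrFun hg (p i)
  rw [Finset.sum_apply, Finset.sum_eq_single i] at hev
  · simp only [Pi.smul_apply, smul_eq_mul, Pi.zero_apply, mul_eq_zero] at hev
    rcases hev with h | h
    · exact hgi h
    · exact h0 i i.2 h
  · intro m _ hm
    by_cases hgm : g m = 0
    · simp [hgm]
    · have hsz := hmax m (Finset.mem_filter.2 ⟨Finset.mem_univ _, hgm⟩)
      have hne' : (m : D) ≠ (i : D) := fun h => hm (Subtype.ext h)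
      have := h1 i i.2 m m.2 hne' hsz
      simp [this]
  · intro h
    exact absurd (Finset.mem_univ i) h

/-- Laminar families: if every `n ∈ S'` whose maximal proper subnodes in `S'` have total weight at
least `(η/4) M n` has at least four of them (because each weighs at most `(η/16) M n`), then at least
half of the nodes of `S'` are sparse, i.e. the union of their proper subnodes in `S'` has weight
less than `(η/4) M n`. Here the weight of a set of leaves is `∑ m q`. -/
theorem sparse_half {Q D : Type} [Fintype Q] [DecidableEq Q] [DecidableEq D] (Ls : D → Finset Q)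
    (m : Q → ℝ) (hm : ∀ q, 0 < m q) (η : ℝ) (hη : 0 < η) (S' : Finset D)
    (hne : ∀ n ∈ S', (Ls n).Nonempty)
    (hlam : ∀ n ∈ S', ∀ n' ∈ S', n ≠ n' → Ls n ⊂ Ls n' ∨ Ls n' ⊂ Ls n ∨ Disjoint (Ls n) (Ls n'))
    (hsz : ∀ n ∈ S', ∀ n' ∈ S', Ls n ⊂ Ls n' →
      (16 / η) * ∑ q ∈ Ls n, m q ≤ ∑ q ∈ Ls n', m q) :
    (S'.card : ℝ) ≤ 2 * ((S'.filter fun n =>
      ∑ q ∈ (S'.filter fun n' => Ls n' ⊂ Ls n).biUnion Ls, m q < (η / 4) * ∑ q ∈ Ls n, m q).card) := by
  classical
  -- children
  set ch : D → Finset D := fun n => S'.filter fun n' => Ls n' ⊂ Ls n ∧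
    ∀ n'' ∈ S', Ls n' ⊂ Ls n'' → ¬ Ls n'' ⊂ Ls n with hch
  set U : D → Finset Q := fun n => (S'.filter fun n' => Ls n' ⊂ Ls n).biUnion Ls with hU
  -- every proper subnode is contained in a child
  have hmaxch : ∀ n ∈ S', ∀ n' ∈ S', Ls n' ⊂ Ls n → ∃ c ∈ ch n, Ls n' ⊆ Ls c := by
    intro n hn n' hn' hsub
    obtain ⟨c, hc, hmax⟩ := Finset.exists_max_image
      (S'.filter fun c => Ls n' ⊆ Ls c ∧ Ls c ⊂ Ls n) (fun c => (Ls c).card)
      ⟨n', Finset.mem_filter.2 ⟨hn', Finset.Subset.refl _, hsub⟩⟩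
    rw [Finset.mem_filter] at hc
    refine ⟨c, Finset.mem_filter.2 ⟨hc.1, hc.2.2, ?_⟩, hc.2.1⟩
    intro n'' hn'' h1 h2
    have := hmax n'' (Finset.mem_filter.2 ⟨hn'', hc.2.1.trans h1.subset, h2⟩)
    have h3 := Finset.card_lt_card h1
    omega
  have hUsub : ∀ n ∈ S', U n ⊆ (ch n).biUnion Ls := by
    intro n hn q hq
    rw [hU, Finset.mem_biUnion] at hq
    obtain ⟨n', hn', hq⟩ := hq
    rw [Finset.mem_filter] at hn'
    obtain ⟨c, hc, hsub⟩ := hmaxch n hn n' hn'.1 hn'.2
    exact Finset.mem_biUnion.2 ⟨c, hc, hsub hq⟩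
  have hMpos : ∀ n ∈ S', 0 < ∑ q ∈ Ls n, m q := fun n hn =>
    Finset.sum_pos (fun q _ => hm q) (hne n hn)
  -- dense nodes have at least two children
  have hdense : ∀ n ∈ S', ¬ (∑ q ∈ U n, m q < (η / 4) * ∑ q ∈ Ls n, m q) → 2 ≤ (ch n).card := by
    intro n hn hd
    push Not at hd
    by_contra hlt
    push Not at hlt
    have h1 : ∑ q ∈ U n, m q ≤ ∑ q ∈ (ch n).biUnion Ls, m q :=
      Finset.sum_le_sum_of_subset_of_nonneg (hUsub n hn) fun q _ _ => (hm q).le
    have h2 : ∑ q ∈ (ch n).biUnion Ls, m q ≤ ∑ c ∈ ch n, ∑ q ∈ Ls c, m q := by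
      generalize ch n = C
      induction C using Finset.induction_on with
      | empty => simp
      | insert c C hc ih =>
        rw [Finset.biUnion_insert, Finset.sum_insert hc]
        have := Finset.sum_union_inter (s₁ := Ls c) (s₂ := C.biUnion Ls) (f := m)
        have h0 : 0 ≤ ∑ q ∈ Ls c ∩ C.biUnion Ls, m q := Finset.sum_nonneg fun q _ => (hm q).le
        linarith
    have h3 : ∑ c ∈ ch n, ∑ q ∈ Ls c, m q ≤ ∑ c ∈ ch n, (η / 16) * ∑ q ∈ Ls n, m q := by
      refine Finset.sum_le_sum fun c hc => ?_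
      rw [hch, Finset.mem_filter] at hc
      have := hsz c hc.1 n hn hc.2.1
      have h5 : (16 / η) * ∑ q ∈ Ls c, m q ≤ ∑ q ∈ Ls n, m q := this
      calc ∑ q ∈ Ls c, m q = (η / 16) * ((16 / η) * ∑ q ∈ Ls c, m q) := by
            field_simp
        _ ≤ (η / 16) * ∑ q ∈ Ls n, m q := by
            exact mul_le_mul_of_nonneg_left h5 (by positivity)
    rw [Finset.sum_const, nsmul_eq_mul] at h3
    have h6 : ((ch n).card : ℝ) ≤ 1 := by
      have : (ch n).card ≤ 1 := by omega
      exact_mod_cast this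
    have h7 := hMpos n hn
    have h8 : ((ch n).card : ℝ) * ((η / 16) * ∑ q ∈ Ls n, m q) ≤
        1 * ((η / 16) * ∑ q ∈ Ls n, m q) :=
      mul_le_mul_of_nonneg_right h6 (by positivity)
    have h9 : 0 < η * ∑ q ∈ Ls n, m q := mul_pos hη h7
    nlinarith
  -- every node is a child of at most one node
  have hdisj : ∀ n ∈ S', ∀ n' ∈ S', n ≠ n' → Disjoint (ch n) (ch n') := by
    intro n hn n' hn' hnn'
    rw [Finset.disjoint_left]
    intro c hc hc'
    rw [hch, Finset.mem_filter] at hc hc'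
    rcases hlam n hn n' hn' hnn' with h | h | h
    · exact hc'.2.2 n hn hc.2.1 h
    · exact hc.2.2 n' hn' hc'.2.1 h
    · obtain ⟨q, hq⟩ := hne c hc.1
      exact Finset.disjoint_left.1 h (hc.2.1.subset hq) (hc'.2.1.subset hq)
  set Sp := S'.filter fun n => ∑ q ∈ U n, m q < (η / 4) * ∑ q ∈ Ls n, m q with hSp
  set De := S'.filter fun n => ¬ (∑ q ∈ U n, m q < (η / 4) * ∑ q ∈ Ls n, m q) with hDe
  have hcard : Sp.card + De.card = S'.card := Finset.card_filter_add_card_filter_not _
  have hDe2 : 2 * De.card ≤ S'.card := by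
    have h1 : (De.biUnion ch).card = ∑ n ∈ De, (ch n).card := by
      refine Finset.card_biUnion ?_
      intro n hn n' hn' hnn'
      exact hdisj n (Finset.mem_filter.1 hn).1 n' (Finset.mem_filter.1 hn').1 hnn'
    have h2 : ∑ n ∈ De, (ch n).card ≥ ∑ n ∈ De, 2 := by
      refine Finset.sum_le_sum fun n hn => ?_
      rw [hDe, Finset.mem_filter] at hn
      exact hdense n hn.1 hn.2
    have h3 : (De.biUnion ch).card ≤ S'.card := by
      refine Finset.card_le_card ?_
      intro c hc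
      rw [Finset.mem_biUnion] at hc
      obtain ⟨n, _, hc⟩ := hc
      exact (Finset.mem_filter.1 hc).1
    rw [Finset.sum_const, smul_eq_mul] at h2
    omega
  have : S'.card ≤ 2 * Sp.card := by omega
  exact_mod_cast this

end KX
end

section

/-!
# Combinatorial core: many independent vectors in a laminar family

`Q` is the finite set of leaves, `D` the finite set of divided nodes, `Ls n` the leaf set of the node
`n`, `kq q` the integer vector of the leaf `q`, `kn n = ∑_{q ∈ Ls n} kq q`, `Aq q` the cluster.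
-/

set_option autoImplicit false

namespace KX

open Finset

/-- the sum of the vectors of the leaves of a node -/
noncomputable def kn {Q D V : Type} (Ls : D → Finset Q) (kq : Q → V →₀ ℤ) (n : D) : V →₀ ℤ :=
  ∑ q ∈ Ls n, kq q

/-- If `kn n i ≠ 0`, some leaf of `n` covers `i`. -/
private theorem exists_leaf_of_kn_ne {Q D V : Type} (Ls : D → Finset Q) (kq : Q → V →₀ ℤ)
    (Aq : Q → Finset V) (hsupp : ∀ q, (kq q).support ⊆ Aq q) (n : D) (i : V)
    (h : kn Ls kq n i ≠ 0) : ∃ q ∈ Ls n, i ∈ Aq q := by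
  by_contra hcon
  push Not at hcon
  apply h
  unfold kn
  rw [Finsupp.finset_sum_apply]
  apply Finset.sum_eq_zero
  intro q hq
  by_contra h1
  exact hcon q hq (hsupp q (Finsupp.mem_support_iff.2 h1))

/-- the pivot of a sparse node -/
private theorem exists_pivot {Q D V : Type} [Fintype Q] [DecidableEq Q] [DecidableEq D]
    [DecidableEq V]
    (Ls : D → Finset Q) (kq : Q → V →₀ ℤ) (Aq : Q → Finset V) (B : Finset V) (m : Q → ℝ)
    (hm : ∀ q, 0 < m q) (hsupp : ∀ q, (kq q).support ⊆ Aq q)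
    (hA : ∀ q, ((Aq q \ B).card : ℝ) ≤ m q) (η : ℝ) (hη : 0 < η) (n : D)
    (hne : (Ls n).Nonempty) (W : Finset Q)
    (hsparse : ∑ q ∈ W, m q < (η / 4) * ∑ q ∈ Ls n, m q)
    (hfull : η * ∑ q ∈ Ls n, m q ≤ (((kn Ls kq n).support \ B).card : ℝ))
    (huniq : 2 * ((((kn Ls kq n).support \ B).filter fun i =>
      2 ≤ (univ.filter fun q => i ∈ Aq q).card).card) ≤ ((kn Ls kq n).support \ B).card) :
    ∃ i : V, kn Ls kq n i ≠ 0 ∧ ∃ q0 ∈ Ls n, q0 ∉ W ∧ ∀ q, i ∈ Aq q → q = q0 := by
  set X := (kn Ls kq n).support \ B with hX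
  set Y := X.filter fun i => 2 ≤ (univ.filter fun q => i ∈ Aq q).card with hY
  set U := X.filter fun i => ¬ 2 ≤ (univ.filter fun q => i ∈ Aq q).card with hU
  have hYU : Y.card + U.card = X.card := Finset.card_filter_add_card_filter_not _
  have hMpos : 0 < ∑ q ∈ Ls n, m q := Finset.sum_pos (fun q _ => hm q) hne
  by_contra hcon
  push Not at hcon
  have hsub : U ⊆ W.biUnion fun q => Aq q \ B := by
    intro i hi
    rw [hU, Finset.mem_filter, hX, Finset.mem_sdiff, Finsupp.mem_support_iff] at hi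
    obtain ⟨⟨hi1, hi2⟩, hi3⟩ := hi
    obtain ⟨q0, hq0, hiq⟩ := exists_leaf_of_kn_ne Ls kq Aq hsupp n i hi1
    have huq : ∀ q, i ∈ Aq q → q = q0 := by
      intro q hq
      by_contra hqq
      apply hi3
      have : ({q, q0} : Finset Q) ⊆ univ.filter fun q => i ∈ Aq q := by
        intro z hz
        rw [Finset.mem_insert, Finset.mem_singleton] at hz
        rcases hz with rfl | rfl
        · simp [hq]
        · simp [hiq]
      calc 2 = ({q, q0} : Finset Q).card := (Finset.card_pair hqq).symm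
        _ ≤ _ := Finset.card_le_card this
    by_cases hW : q0 ∈ W
    · exact Finset.mem_biUnion.2 ⟨q0, hW, Finset.mem_sdiff.2 ⟨hiq, hi2⟩⟩
    · obtain ⟨q, hq1, hq2⟩ := hcon i hi1 q0 hq0 hW
      exact absurd (huq q hq1) hq2
  have h1 : (U.card : ℝ) ≤ ∑ q ∈ W, m q := by
    calc (U.card : ℝ) ≤ ((W.biUnion fun q => Aq q \ B).card : ℝ) := by
          exact_mod_cast Finset.card_le_card hsub
      _ ≤ ((∑ q ∈ W, (Aq q \ B).card : ℕ) : ℝ) := by exact_mod_cast Finset.card_biUnion_le
      _ = ∑ q ∈ W, ((Aq q \ B).card : ℝ) := by push_cast; rfl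
      _ ≤ ∑ q ∈ W, m q := Finset.sum_le_sum fun q _ => hA q
  have h2 : (2 : ℝ) * Y.card ≤ X.card := by exact_mod_cast huniq
  have h3 : (Y.card : ℝ) + U.card = X.card := by exact_mod_cast hYU
  nlinarith

/-- Rank bound for the nodes of one residue class: the sparse nodes are independent. A node is
`η`-full with unique sites if `η * M n ≤ σ n` and at most half of the `σ n` sites of
`supp (kn n) \ B` are covered by two or more leaves. -/
theorem class_rank {Q D V : Type} [Fintype Q] [DecidableEq Q] [DecidableEq D] [DecidableEq V]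
    (Ls : D → Finset Q) (kq : Q → V →₀ ℤ) (Aq : Q → Finset V) (B : Finset V) (m : Q → ℝ)
    (hm : ∀ q, 0 < m q) (hsupp : ∀ q, (kq q).support ⊆ Aq q)
    (hA : ∀ q, ((Aq q \ B).card : ℝ) ≤ m q) (η : ℝ) (hη : 0 < η) (S' : Finset D)
    (hne : ∀ n ∈ S', (Ls n).Nonempty)
    (hlam : ∀ n ∈ S', ∀ n' ∈ S', n ≠ n' → Ls n ⊂ Ls n' ∨ Ls n' ⊂ Ls n ∨ Disjoint (Ls n) (Ls n'))
    (hsz : ∀ n ∈ S', ∀ n' ∈ S', Ls n ⊂ Ls n' →
      (16 / η) * ∑ q ∈ Ls n, m q ≤ ∑ q ∈ Ls n', m q)
    (hfull : ∀ n ∈ S', η * ∑ q ∈ Ls n, m q ≤ (((kn Ls kq n).support \ B).card : ℝ))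
    (huniq : ∀ n ∈ S', 2 * ((((kn Ls kq n).support \ B).filter fun i =>
      2 ≤ (univ.filter fun q => i ∈ Aq q).card).card) ≤ ((kn Ls kq n).support \ B).card) :
    ∃ R ⊆ S', LinearIndependent ℝ (fun n : R => fun i : V => ((kn Ls kq n i : ℤ) : ℝ)) ∧
      (S'.card : ℝ) ≤ 2 * R.card := by
  refine ⟨S'.filter fun n =>
      ∑ q ∈ (S'.filter fun n' => Ls n' ⊂ Ls n).biUnion Ls, m q < (η / 4) * ∑ q ∈ Ls n, m q,
    Finset.filter_subset _ _, ?_, sparse_half Ls m hm η hη S' hne hlam hsz⟩
  set R := S'.filter fun n =>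
      ∑ q ∈ (S'.filter fun n' => Ls n' ⊂ Ls n).biUnion Ls, m q < (η / 4) * ∑ q ∈ Ls n, m q with hR
  have hpiv : ∀ n ∈ R, ∃ i : V, kn Ls kq n i ≠ 0 ∧ ∃ q0 ∈ Ls n,
      q0 ∉ (S'.filter fun n' => Ls n' ⊂ Ls n).biUnion Ls ∧ ∀ q, i ∈ Aq q → q = q0 := by
    intro n hn
    rw [hR, Finset.mem_filter] at hn
    exact exists_pivot Ls kq Aq B m hm hsupp hA η hη n (hne n hn.1) _ hn.2 (hfull n hn.1)
      (huniq n hn.1)
  rcases R.eq_empty_or_nonempty with hemp | ⟨n1, hn1⟩
  · rw [hemp]
    exact linearIndependent_empty_type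
  obtain ⟨i1, -⟩ := hpiv n1 hn1
  haveI : Nonempty V := ⟨i1⟩
  choose! p hp using hpiv
  apply indep_of_pivot R (fun n i => ((kn Ls kq n i : ℤ) : ℝ)) (fun n => (Ls n).card) p
  · intro n hn
    exact_mod_cast (hp n hn).1
  · intro n hn n' hn' hne' hcard
    obtain ⟨-, q0, hq0, hq0W, huq⟩ := hp n hn
    have hnS : n ∈ S' := (Finset.mem_filter.1 hn).1
    have hnS' : n' ∈ S' := (Finset.mem_filter.1 hn').1
    have hq0n' : q0 ∉ Ls n' := by
      intro hmem
      rcases hlam n' hnS' n hnS hne' with h1 | h1 | h1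
      · exact hq0W (Finset.mem_biUnion.2 ⟨n', Finset.mem_filter.2 ⟨hnS', h1⟩, hmem⟩)
      · exact absurd hcard (not_le.2 (Finset.card_lt_card h1))
      · exact (Finset.disjoint_left.1 h1) hmem hq0
    have : kn Ls kq n' (p n) = 0 := by
      by_contra hcon
      obtain ⟨q, hq, hiq⟩ := exists_leaf_of_kn_ne Ls kq Aq hsupp n' (p n) hcon
      exact hq0n' (huq q hiq ▸ hq)
    exact_mod_cast this

end KX
end

section

/-!
# Combinatorial core: many independent vectors in a laminar family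

`Q` is the finite set of leaves, `D` the finite set of divided nodes, `Ls n` the leaf set of the node
`n`, `kq q` the integer vector of the leaf `q`, `kn n = ∑_{q ∈ Ls n} kq q`, `Aq q` the cluster.
-/

set_option autoImplicit false

namespace KX

open Finset

/-- two nodes of one residue class: the windows differ by at least `g` -/
private theorem add_le_of_mod_eq {a b g : ℕ} (h : a < b) (hm : a % g = b % g) : a + g ≤ b := by
  have h1 : g ∣ b - a := (Nat.modEq_iff_dvd' h.le).1 hm
  have h2 : g ≤ b - a := Nat.le_of_dvd (Nat.sub_pos_of_lt h) h1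
  omega

/-- The full statement: nodes with windows `wn n` (mass between `mu (3/2)^wn` and
`mu (3/2)^(wn+1)`) and degrees `dn n ∈ {0, 1}`, nested nodes have increasing `2 wn + dn`. -/
theorem core_basis {Q D V : Type} [Fintype Q] [DecidableEq Q] [DecidableEq D] [DecidableEq V]
    (Ls : D → Finset Q) (kq : Q → V →₀ ℤ) (Aq : Q → Finset V) (B : Finset V) (m : Q → ℝ)
    (hm : ∀ q, 0 < m q) (hsupp : ∀ q, (kq q).support ⊆ Aq q)
    (hA : ∀ q, ((Aq q \ B).card : ℝ) ≤ m q) (η : ℝ) (hη : 0 < η) (S : Finset D)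
    (hne : ∀ n ∈ S, (Ls n).Nonempty) (wn dn : D → ℕ) (hdn : ∀ n ∈ S, dn n ≤ 1) (mu : ℝ)
    (hmu : 0 < mu) (hw1 : ∀ n ∈ S, mu * (3 / 2 : ℝ) ^ wn n ≤ ∑ q ∈ Ls n, m q)
    (hw2 : ∀ n ∈ S, ∑ q ∈ Ls n, m q < mu * (3 / 2 : ℝ) ^ (wn n + 1))
    (hlam : ∀ n ∈ S, ∀ n' ∈ S, n ≠ n' →
      (Ls n ⊂ Ls n' ∧ 2 * wn n + dn n < 2 * wn n' + dn n') ∨
      (Ls n' ⊂ Ls n ∧ 2 * wn n' + dn n' < 2 * wn n + dn n) ∨ Disjoint (Ls n) (Ls n'))
    (hfull : ∀ n ∈ S, η * ∑ q ∈ Ls n, m q ≤ (((kn Ls kq n).support \ B).card : ℝ))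
    (huniq : ∀ n ∈ S, 2 * ((((kn Ls kq n).support \ B).filter fun i =>
      2 ≤ (univ.filter fun q => i ∈ Aq q).card).card) ≤ ((kn Ls kq n).support \ B).card)
    (g : ℕ) (hg : 1 ≤ g) (hgη : 16 / η ≤ (3 / 2 : ℝ) ^ (g - 1)) (x : D → ℝ)
    (hx : ∀ n ∈ S, 0 ≤ x n) :
    ∃ R ⊆ S, LinearIndependent ℝ (fun n : R => fun i : V => ((kn Ls kq n i : ℤ) : ℝ)) ∧
      ∑ n ∈ S, x n ≤ 4 * g * ∑ n ∈ R, x n := by
  refine greedy_basis (fun n => fun i : V => ((kn Ls kq n i : ℤ) : ℝ)) x (4 * g) S hx ?_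
  intro S' hS'
  -- the largest class
  set f : D → ℕ × ℕ := fun n => (wn n % g, dn n) with hf
  obtain ⟨c, -, hcmax⟩ := Finset.exists_max_image (Finset.range g ×ˢ Finset.range 2)
    (fun c => (S'.filter fun n => f n = c).card)
    ⟨(0, 0), by simp only [Finset.mem_product, Finset.mem_range]; omega⟩
  have hcard : S'.card ≤ (g * 2) * (S'.filter fun n => f n = c).card := by
    have hmaps : ∀ n ∈ S', f n ∈ Finset.range g ×ˢ Finset.range 2 := by
      intro n hn
      have h1 := hdn n (hS' hn)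
      simp only [hf, Finset.mem_product, Finset.mem_range]
      exact ⟨Nat.mod_lt _ (by omega), by omega⟩
    calc S'.card = ∑ b ∈ Finset.range g ×ˢ Finset.range 2, (S'.filter fun n => f n = b).card :=
          Finset.card_eq_sum_card_fiberwise hmaps
      _ ≤ (Finset.range g ×ˢ Finset.range 2).card • (S'.filter fun n => f n = c).card :=
          Finset.sum_le_card_nsmul _ _ _ hcmax
      _ = (g * 2) * (S'.filter fun n => f n = c).card := by
          rw [Finset.card_product, Finset.card_range, Finset.card_range, smul_eq_mul]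
  -- the rank bound in the class
  have hsub : (S'.filter fun n => f n = c) ⊆ S := (Finset.filter_subset _ _).trans hS'
  obtain ⟨R, hR1, hR2, hR3⟩ := class_rank Ls kq Aq B m hm hsupp hA η hη
    (S'.filter fun n => f n = c) (fun n hn => hne n (hsub hn))
    (by
      intro n hn n' hn' hnn
      rcases hlam n (hsub hn) n' (hsub hn') hnn with h | h | h
      · exact Or.inl h.1
      · exact Or.inr (Or.inl h.1)
      · exact Or.inr (Or.inr h))
    (by
      intro n hn n' hn' hss
      have hnn : n ≠ n' := by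
        rintro rfl
        exact (ssubset_irrefl _) hss
      have hwd : 2 * wn n + dn n < 2 * wn n' + dn n' := by
        rcases hlam n (hsub hn) n' (hsub hn') hnn with h | h | h
        · exact h.2
        · exact absurd (hss.trans h.1) (ssubset_irrefl _)
        · exfalso
          obtain ⟨q, hq⟩ := hne n (hsub hn)
          exact (Finset.disjoint_left.1 h) hq (hss.1 hq)
      have h1 : f n = c := (Finset.mem_filter.1 hn).2
      have h2 : f n' = c := (Finset.mem_filter.1 hn').2
      have h3 : f n = f n' := h1.trans h2.symm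
      simp only [hf, Prod.mk.injEq] at h3
      have h4 : wn n < wn n' := by omega
      have h5 : wn n + g ≤ wn n' := add_le_of_mod_eq h4 h3.1
      have h6 := hw2 n (hsub hn)
      have h7 := hw1 n' (hsub hn')
      have h8 : (3 / 2 : ℝ) ^ (wn n + g) ≤ (3 / 2 : ℝ) ^ wn n' :=
        pow_le_pow_right₀ (by norm_num) h5
      have h9 : (3 / 2 : ℝ) ^ (wn n + g) = (3 / 2 : ℝ) ^ (wn n + 1) * (3 / 2 : ℝ) ^ (g - 1) := by
        rw [← pow_add]; congr 1; omega
      have h10 : (0 : ℝ) < (3 / 2 : ℝ) ^ (wn n + 1) := by positivity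
      have h11 : (0 : ℝ) < 16 / η := by positivity
      calc (16 / η) * ∑ q ∈ Ls n, m q ≤ (16 / η) * (mu * (3 / 2 : ℝ) ^ (wn n + 1)) :=
            mul_le_mul_of_nonneg_left h6.le h11.le
        _ ≤ (3 / 2 : ℝ) ^ (g - 1) * (mu * (3 / 2 : ℝ) ^ (wn n + 1)) :=
            mul_le_mul_of_nonneg_right hgη (by positivity)
        _ = mu * (3 / 2 : ℝ) ^ (wn n + g) := by rw [h9]; ring
        _ ≤ mu * (3 / 2 : ℝ) ^ wn n' := mul_le_mul_of_nonneg_left h8 hmu.le
        _ ≤ _ := h7)
    (fun n hn => hfull n (hsub hn)) (fun n hn => huniq n (hsub hn))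
  refine ⟨R, hR1.trans (Finset.filter_subset _ _), hR2, ?_⟩
  have h1 : (S'.card : ℝ) ≤ (g * 2) * (S'.filter fun n => f n = c).card := by
    exact_mod_cast hcard
  have h2 : (0 : ℝ) ≤ g := Nat.cast_nonneg _
  calc (S'.card : ℝ) ≤ (g * 2) * (S'.filter fun n => f n = c).card := h1
    _ ≤ (g * 2) * (2 * R.card) := mul_le_mul_of_nonneg_left hR3 (by positivity)
    _ = 4 * g * R.card := by ring

end KX
end

section

/-!
# Bounded Lipschitz dependence on the frequencies

`DD be w w' = ∑_j be j * min 1 |w j - w' j|`. `RB be Gd f b`: on `Gd` the function `f` is bounded by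
`s` and Lipschitz with constant `l` for `DD be`, with `s + l ≤ b`.
-/

set_option autoImplicit false

namespace KX

variable {V : Type}

namespace RB

variable {be : V → ℝ} {Gd : Set (V → ℝ)}

/-- absolutely convergent sums -/
theorem tsum (hb : ∀ j, 0 ≤ be j) {ι : Type} {f : ι → (V → ℝ) → ℂ} {b : ι → ℝ}
    (hf : ∀ i, RB be Gd (f i) (b i)) (hs : Summable b) :
    RB be Gd (fun w => ∑' i, f i w) (∑' i, b i) := by
  choose s l hs0 hl0 hsl hsup hlip using hf
  have hsb : ∀ i, s i ≤ b i := fun i => (le_add_of_nonneg_right (hl0 i)).trans (hsl i)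
  have hlb : ∀ i, l i ≤ b i := fun i => (le_add_of_nonneg_left (hs0 i)).trans (hsl i)
  have hss : Summable s := Summable.of_nonneg_of_le hs0 hsb hs
  have hls : Summable l := Summable.of_nonneg_of_le hl0 hlb hs
  have hfs : ∀ w ∈ Gd, Summable fun i => f i w := fun w hw =>
    Summable.of_norm_bounded hss fun i => hsup i w hw
  refine ⟨∑' i, s i, ∑' i, l i, tsum_nonneg hs0, tsum_nonneg hl0, ?_, fun w hw => ?_,
    fun w hw w' hw' => ?_⟩
  · rw [← hss.tsum_add hls]
    exact (hss.add hls).tsum_le_tsum hsl hs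
  · exact tsum_of_norm_bounded hss.hasSum fun i => hsup i w hw
  · have h1 : (∑' i, f i w) - ∑' i, f i w' = ∑' i, (f i w - f i w') :=
      ((hfs w hw).tsum_sub (hfs w' hw')).symm
    change ‖(∑' i, f i w) - ∑' i, f i w'‖ ≤ (∑' i, l i) * DD be w w'
    rw [h1]
    exact tsum_of_norm_bounded (hls.hasSum.mul_right _) fun i => hlip i w hw w' hw'

end RB

end KX
end

section

/-!
# Uniqueness of trajectories

Two trajectories with the same initial point coincide if the actions of one of them stay in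
`[-r', r']` with `r' < r`. Proof: Cauchy estimates give `|dAng| ≤ C1 e^{-m N(i-j)}` for all actions
in `(-r, r)`, so the actions of the other trajectory move at a uniformly bounded speed and stay below
`(r + r') / 2` for a time `t1` independent of the initial time; there the vector field is Lipschitz in
the sup norm (second derivatives by Cauchy estimates, `∑_i e^{-m N(i-j)} < ∞`), and
`E(t) = sup_j max(|ΔI_j|, |Δφ_j|)` (finite, lifts chosen with equal initial values, periodicity)
satisfies `E(t) ≤ K |∫ E|`, so `E = 0`. Then continue in steps of length `t1` in both directions.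
-/

set_option autoImplicit false

namespace KamLattice

variable {d : ℕ}

/-- an upper bound of a norm by the sup norm -/
theorem norm_upper (N : (Fin d → ℝ) → ℝ) (hN : IsNorm N) :
    ∃ C : ℝ, 0 ≤ C ∧ ∀ x, N x ≤ C * ‖x‖ := by
  have h0 : N 0 = 0 := by
    have := hN.smul 0 0
    simpa using this
  have hnn : ∀ x, 0 ≤ N x := fun x => by
    by_cases hx : x = 0
    · rw [hx, h0]
    · exact (hN.pos x hx).le
  have hsum : ∀ (s : Finset (Fin d)) (g : Fin d → Fin d → ℝ),
      N (∑ a ∈ s, g a) ≤ ∑ a ∈ s, N (g a) := by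
    intro s g
    classical
    induction s using Finset.induction_on with
    | empty => simp [h0]
    | insert a s ha ih =>
      rw [Finset.sum_insert ha, Finset.sum_insert ha]
      exact (hN.add _ _).trans (add_le_add le_rfl ih)
  refine ⟨∑ a, N (Pi.single a 1), Finset.sum_nonneg fun a _ => hnn _, fun x => ?_⟩
  have hx : x = ∑ a, x a • (Pi.single a (1 : ℝ) : Fin d → ℝ) := by
    funext b
    simp [Finset.sum_apply, Pi.single_apply]
  calc N x = N (∑ a, x a • (Pi.single a (1 : ℝ) : Fin d → ℝ)) := by rw [← hx]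
    _ ≤ ∑ a, N (x a • (Pi.single a (1 : ℝ) : Fin d → ℝ)) := hsum _ _
    _ = ∑ a, |x a| * N (Pi.single a 1) := by
        refine Finset.sum_congr rfl fun a _ => ?_
        rw [hN.smul]
    _ ≤ ∑ a, ‖x‖ * N (Pi.single a 1) := by
        refine Finset.sum_le_sum fun a _ => ?_
        refine mul_le_mul_of_nonneg_right ?_ (hnn _)
        rw [← Real.norm_eq_abs]
        exact norm_le_pi_norm x a
    _ = (∑ a, N (Pi.single a 1)) * ‖x‖ := by rw [← Finset.mul_sum, mul_comm]

/-- a norm on `ℝ^d` is bounded below by a multiple of the sup norm (continuity of `N` from `smul`,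
`add` and the coordinates; minimum on the unit sphere; or `Module.finite` equivalence of norms) -/
theorem norm_lower (N : (Fin d → ℝ) → ℝ) (hN : IsNorm N) : ∃ c : ℝ, 0 < c ∧ ∀ x, c * ‖x‖ ≤ N x := by
  have h0 : N 0 = 0 := by
    have := hN.smul 0 0
    simpa using this
  obtain ⟨C, hC0, hC⟩ := norm_upper N hN
  have hneg : ∀ x, N (-x) = N x := fun x => by
    have := hN.smul (-1) x
    simpa using this
  have hdiff : ∀ x y, N x - N y ≤ C * ‖x - y‖ := fun x y => by
    have h1 := hN.add (x - y) y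
    rw [sub_add_cancel] at h1
    have h2 := hC (x - y)
    linarith
  have hcont : Continuous N := by
    have hl : LipschitzWith ⟨C, hC0⟩ N := by
      refine LipschitzWith.of_dist_le_mul fun x y => ?_
      rw [Real.dist_eq, dist_eq_norm]
      change |N x - N y| ≤ C * ‖x - y‖
      rw [abs_le]
      constructor
      · have := hdiff y x
        rw [norm_sub_rev] at this
        linarith
      · exact hdiff x y
    exact hl.continuous
  by_cases hne : (Metric.sphere (0 : Fin d → ℝ) 1).Nonempty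
  · obtain ⟨z, hz, hmin⟩ := (isCompact_sphere (0 : Fin d → ℝ) 1).exists_isMinOn hne
      hcont.continuousOn
    have hz1 : ‖z‖ = 1 := by simpa using hz
    have hz0 : z ≠ 0 := by
      intro h
      rw [h, norm_zero] at hz1
      exact zero_ne_one hz1
    refine ⟨N z, hN.pos z hz0, fun x => ?_⟩
    by_cases hx : x = 0
    · rw [hx, norm_zero, mul_zero, h0]
    · have hnx : 0 < ‖x‖ := norm_pos_iff.2 hx
      have h1 : (‖x‖⁻¹ • x) ∈ Metric.sphere (0 : Fin d → ℝ) 1 := by
        rw [mem_sphere_zero_iff_norm, norm_smul, norm_inv, norm_norm, inv_mul_cancel₀ hnx.ne']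
      have h2 : N z ≤ N (‖x‖⁻¹ • x) := hmin h1
      rw [hN.smul, abs_of_pos (inv_pos.2 hnx)] at h2
      calc N z * ‖x‖ ≤ (‖x‖⁻¹ * N x) * ‖x‖ := mul_le_mul_of_nonneg_right h2 hnx.le
        _ = N x := by field_simp
  · refine ⟨1, one_pos, fun x => ?_⟩
    by_cases hx : x = 0
    · rw [hx, norm_zero, mul_zero, h0]
    · exfalso
      apply hne
      have hnx : 0 < ‖x‖ := norm_pos_iff.2 hx
      refine ⟨‖x‖⁻¹ • x, ?_⟩
      rw [mem_sphere_zero_iff_norm, norm_smul, norm_inv, norm_norm, inv_mul_cancel₀ hnx.ne']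

/-- products of a nonnegative summable function of one integer are summable over `ℤ^d` -/
theorem summable_prod_pi (g : ℤ → ℝ) (hg0 : ∀ n, 0 ≤ g n) (hg : Summable g) (d : ℕ) :
    Summable fun j : Fin d → ℤ => ∏ a, g (j a) := by
  induction d with
  | zero => exact (hasSum_fintype _).summable
  | succ d ih =>
    rw [← (Fin.consEquiv fun _ : Fin (d + 1) => ℤ).summable_iff]
    have h1 : ((fun j : Fin (d + 1) → ℤ => ∏ a, g (j a)) ∘
        (Fin.consEquiv fun _ : Fin (d + 1) => ℤ)) =
        fun p : ℤ × (Fin d → ℤ) => g p.1 * ∏ a, g (p.2 a) := by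
      funext p
      simp only [Function.comp_apply, Fin.consEquiv_apply, Fin.prod_univ_succ, Fin.cons_zero,
        Fin.cons_succ]
    rw [h1]
    have h2 : ∀ j : Fin d → ℤ, 0 ≤ ∏ a, g (j a) := fun j =>
      Finset.prod_nonneg fun a _ => hg0 _
    exact Summable.mul_of_nonneg (f := g) (g := fun j : Fin d → ℤ => ∏ a, g (j a)) hg ih hg0 h2

/-- for a norm `N` on `ℝ^d` the function `e^{-m N(j)}` is summable over `ℤ^d` -/
theorem exp_norm_summable (N : (Fin d → ℝ) → ℝ) (hN : IsNorm N) (m : ℝ) (hm : 0 < m) :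
    Summable fun j : Site d => Real.exp (-m * N (iv j)) := by
  obtain ⟨c, hc, hcN⟩ := norm_lower N hN
  rcases Nat.eq_zero_or_pos d with hd | hd
  · subst hd
    exact (hasSum_fintype _).summable
  have hdp : (0 : ℝ) < d := by exact_mod_cast hd
  set b : ℝ := m * c / d with hb
  have hb0 : 0 < b := by positivity
  have hg : Summable fun n : ℤ => Real.exp (-b * |(n : ℝ)|) := by
    have hnat : Summable fun n : ℕ => Real.exp (-b * (n : ℝ)) := by
      have := Real.summable_exp_nat_mul_iff (a := -b)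
      have h2 := this.2 (by linarith)
      refine h2.congr fun n => ?_
      rw [mul_comm]
    refine Summable.of_nat_of_neg ?_ ?_
    · refine hnat.congr fun n => ?_
      simp
    · refine hnat.congr fun n => ?_
      simp
  refine Summable.of_nonneg_of_le (fun j => (Real.exp_pos _).le) (fun j => ?_)
    (summable_prod_pi (fun n : ℤ => Real.exp (-b * |(n : ℝ)|)) (fun n => (Real.exp_pos _).le) hg d)
  rw [← Real.exp_sum]
  refine Real.exp_le_exp.2 ?_
  rw [← Finset.mul_sum]
  have h1 : ∑ a : Fin d, |((j a : ℤ) : ℝ)| ≤ d * ‖iv j‖ := by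
    calc ∑ a : Fin d, |((j a : ℤ) : ℝ)| ≤ ∑ _a : Fin d, ‖iv j‖ := by
          refine Finset.sum_le_sum fun a _ => ?_
          have := norm_le_pi_norm (iv j) a
          rwa [Real.norm_eq_abs] at this
      _ = d * ‖iv j‖ := by simp
  have h2 := hcN (iv j)
  have h3 : b * ∑ a : Fin d, |((j a : ℤ) : ℝ)| ≤ m * N (iv j) := by
    calc b * ∑ a : Fin d, |((j a : ℤ) : ℝ)| ≤ b * (d * ‖iv j‖) :=
          mul_le_mul_of_nonneg_left h1 hb0.le
      _ = m * (c * ‖iv j‖) := by rw [hb]; field_simp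
      _ ≤ m * N (iv j) := mul_le_mul_of_nonneg_left h2 hm.le
  linarith

end KamLattice
end
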