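import Pool.Agent.Lib.MP_73c19a_an.Mg.G021
import Pool.Agent.Lib.MP_73c19a_an.Mg.G009
import Pool.Agent.Lib.MP_73c19a_an.Schemea
import Pool.Agent.Lib.MP_73c19a_an.Mg.G012
import Pool.Agent.Lib.MP_73c19a_an.Run
import Pool.Agent.Lib.MP_73c19a_an.Mg.G003
import Pool.Agent.Lib.MP_73c19a_an.Mg.G010
import Pool.Agent.Lib.MP_73c19a_an.Mg.G006

section

/-!
# Symplectic transformations of formal series and the limit theorem
-/

set_option autoImplicit false
set_option linter.unusedSectionVars false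

namespace KX

open scoped ENNReal

variable {V : Type} [DecidableEq V]

theorem dotm_add_Limb (k : V →₀ ℤ) (w c : V → ℝ) :
    dotm k (fun j => w j + c j) = dotm k w + dotm k c := by
  unfold dotm
  rw [← Finsupp.sum_add]
  refine Finsupp.sum_congr fun j _ => ?_
  ring

theorem hF_Limb (rho y s1 z : ℝ) (hr : 0 < rho) (hy : 0 < y) (hs1 : 0 < s1)
    (N : ℝ≥0∞) (hF : ENNReal.ofReal (6 / (rho * y * s1)) * N ≤ ENNReal.ofReal z) :
    ENNReal.ofReal (6 / (rho * (3 * y / 4) * s1)) * N ≤ ENNReal.ofReal (4 / 3 * z) := by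
  have h1 : 6 / (rho * (3 * y / 4) * s1) = 4 / 3 * (6 / (rho * y * s1)) := by
    field_simp
  rw [h1, ENNReal.ofReal_mul (by norm_num), ENNReal.ofReal_mul (by norm_num), mul_assoc]
  exact mul_le_mul_right hF _

theorem geom_ne_top_Limb (x : ℝ) (hx : 0 ≤ x) (hx1 : x < 1) (N : ℝ≥0∞) (hN : N ≠ ∞) :
    ∑' n : ℕ, ENNReal.ofReal (x ^ n) * N ≠ ∞ := by
  rw [ENNReal.tsum_mul_right]
  refine ENNReal.mul_ne_top ?_ hN
  exact (summable_geometric_of_lt_one hx hx1).tsum_ofReal_ne_top

/-- one step of the scheme: `Φ = exp (XX F)`; the new perturbation is `tp F p r - q`, where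
`q = c · x + c0` moves to the frequency -/
theorem Tsf.step (G : Geo V) (rho s y s1 z : ℝ) (hr : 0 < rho) (hs : 0 ≤ s) (hy : 0 < y)
    (hs1 : 0 < s1) (h2 : s + y ≤ s1 / 4) (hz : 0 ≤ z) (hz1 : z ≤ 1 / 2)
    (F p r q : Mon V → ℂ) (w w' c : V → ℝ) (hr' : Dw w F = r) (hFr : cj F = F)
    (hF : ENNReal.ofReal (6 / (rho * y * s1)) * nr (wg G rho s1) F ≤ ENNReal.ofReal z)
    (hp : nr (wg G rho s1) p ≠ ∞) (hrr : nr (wg G rho s1) r ≠ ∞)
    (hq : nr (wg G rho s1) q ≠ ∞) (hq1 : ∀ j, q (Finsupp.single j 1, 0) = c j)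
    (hq2 : ∀ m : Mon V, (∀ j, m ≠ (Finsupp.single j 1, 0)) → m ≠ 0 → q m = 0)
    (hw : ∀ j, w' j = w j + c j) :
    Tsf G rho (s + y) s (2 * z) w p w' (fun m => tp F p r m - q m) (expX F) := by
  have h2' : s + y ≤ s1 / 2 := by linarith
  refine
    { near := fun g => nr_expX_sub G rho s y s1 z hr hs hy hs1 h2' hz hz1 F g hF
      add := fun g h hg hh => expX_add G rho s y s1 z hr hs hy hs1 h2' hz hz1 F g h hF hg hh
      smul := fun c g => expX_smul F g c
      mul := fun g h hg hh => expX_mulm G rho s y s1 z hr hs hy hs1 h2' hz hz1 F g h hF hg hh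
      one := expX_one F
      real := fun g => expX_cj F g hFr
      inter := fun g hg hdg => ?_ }
  rw [← expX_dl G rho s y s1 z hr hs hy hs1 h2 hz hz1 F p r g w hr' hF hp hrr hg hdg]
  set g0 := expX F g with hg0
  -- the intermediate level
  have hs'' : 0 < s + y / 4 := by positivity
  have hy'' : 0 < 3 * y / 4 := by positivity
  have hlev : s + y / 4 + 3 * y / 4 = s + y := by ring
  have h2'' : s + y / 4 + 3 * y / 4 ≤ s1 / 2 := by rw [hlev]; exact h2'
  have hF'' := hF_Limb rho y s1 z hr hy hs1 _ hF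
  have hz'' : 0 ≤ 4 / 3 * z := by positivity
  have hz1'' : 4 / 3 * z < 1 := by linarith
  have fg0 : nr (wm G rho (s + y / 4)) g0 ≠ ∞ := by
    refine ne_top_of_le_ne_top (geom_ne_top_Limb (4 / 3 * z) hz'' hz1''
      (nr (wm G rho (s + y)) g) hg) ?_
    refine (nr_tsum_le _ _).trans (ENNReal.tsum_le_tsum fun n => ?_)
    have := nr_XX_iter_fac G rho (s + y / 4) (3 * y / 4) s1 (4 / 3 * z) hr hs''.le hy'' hs1 h2''
      hz'' F g hF'' n
    rwa [hlev] at this
  have ftp : nr (wg G rho (s + y / 4)) (tp F p r) ≠ ∞ := by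
    have hN : nr (wg G rho s1) p + nr (wg G rho s1) r ≠ ∞ := ENNReal.add_ne_top.2 ⟨hp, hrr⟩
    refine ne_top_of_le_ne_top (geom_ne_top_Limb (4 / 3 * z) hz'' hz1'' _ hN) ?_
    refine (nr_tsum_le _ _).trans (ENNReal.tsum_le_tsum fun n => ?_)
    have h3 := nr_XX_iter_fac' G rho (s + y / 4) (3 * y / 4) s1 (4 / 3 * z) hr hs''.le hy'' hs1
      h2'' hz'' F (fun m' => p m' - r m' / ((n : ℂ) + 1)) hF'' n
    refine h3.trans (mul_le_mul_right ?_ _)
    rw [hlev]
    have h4 : (fun m' => p m' - r m' / ((n : ℂ) + 1)) =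
        fun m' => p m' + (-(1 / ((n : ℂ) + 1))) * r m' := by
      funext m'
      ring
    rw [h4]
    refine (nr_add_le _ _ _).trans (add_le_add ?_ ?_)
    · exact nr_mono (fun m => wg_mono G rho hr (by linarith) m) p
    · rw [nr_smul]
      have h5 : ‖(-(1 / ((n : ℂ) + 1)))‖ₑ ≤ 1 := by
        rw [enorm_neg, ← ofReal_norm]
        refine ENNReal.ofReal_le_one.2 ?_
        rw [norm_div, norm_one]
        have h6 : ‖(n : ℂ) + 1‖ = (n : ℝ) + 1 := by
          rw [← Nat.cast_succ, Complex.norm_natCast, Nat.cast_succ]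
        rw [h6, div_le_one (by positivity)]
        linarith [(Nat.cast_nonneg n : (0 : ℝ) ≤ n)]
      calc ‖(-(1 / ((n : ℂ) + 1)))‖ₑ * nr (wg G rho (s + y)) r
          ≤ 1 * nr (wg G rho s1) r := mul_le_mul' h5
            (nr_mono (fun m => wg_mono G rho hr (by linarith) m) r)
        _ = _ := one_mul _
  have fq : nr (wg G rho (s + y / 4)) (fun m => (-1) * q m) ≠ ∞ := by
    rw [nr_smul]
    refine ENNReal.mul_ne_top (by simp) ?_
    exact ne_top_of_le_ne_top hq (nr_mono (fun m => wg_mono G rho hr (by linarith) m) q)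
  have e1 : (fun m => tp F p r m - q m) = fun m => tp F p r m + (-1) * q m := by
    funext m
    ring
  have e2 : XX (fun m => tp F p r m - q m) g0 =
      fun m => XX (tp F p r) g0 m + (-1) * Dw c g0 m := by
    rw [e1, XX_add_left G rho (s + y / 4) hr hs'' _ _ g0 ftp fq fg0, XX_smul_left,
      XX_linear g0 c (q 0) q hq1 rfl hq2]
  unfold dl
  rw [e2]
  funext m
  have hw' : w' = fun j => w j + c j := funext hw
  rw [Pi.add_apply, Pi.add_apply, hw']
  unfold Dw
  rw [dotm_add_Limb]
  push_cast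
  ring

end KX
end

section

/-!
# From trees to monomials
-/

set_option autoImplicit false
set_option linter.unusedSectionVars false

namespace KX

open scoped ENNReal

variable {V : Type} [DecidableEq V]

/-- the generator solves the homological equation -/
theorem Dw_gen (G : Geo V) (P : BP V) (t : ℕ) (w : V → ℝ) (u : Tr V → ℂ)
    (hw : ∀ k : V →₀ ℤ, k ≠ 0 → dot k w ≠ 0) :
    Dw w (pt (gen G P t w u)) = pt (rst (Tr.EE G P t) u) := by
  classical
  funext m
  unfold Dw pt push
  rw [← tsum_mul_left]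
  refine tsum_congr fun h => ?_
  split_ifs with h1
  · have h2 : dotm m.2 w = dot (Tr.k h) w := by
      rw [← h1]
      exact dotm_eq _ _
    unfold gen rst
    split_ifs with h3
    · have h4 : (dot (Tr.k h) w : ℂ) ≠ 0 := by
        exact_mod_cast hw _ h3.2.1
      rw [h2]
      field_simp
    · simp
  · simp

end KX
end

section

/-!
# From trees to monomials
-/

set_option autoImplicit false
set_option linter.unusedSectionVars false

namespace KX

open scoped ENNReal

variable {V : Type} [DecidableEq V]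

/-- reality of the formal series -/
theorem pt_cj (u : Tr V → ℂ) (c : Tr V ≃ Tr V) (hn : ∀ h, Tr.n (c h) = Tr.n h)
    (hk : ∀ h, Tr.k (c h) = -Tr.k h) (hu : ∀ h, u (c h) = (starRingEnd ℂ) (u h)) :
    cj (pt u) = pt u := by
  classical
  funext m
  have h1 : pt u m = pt (u ∘ c) (m.1, -m.2) := by
    unfold pt push
    rw [← c.tsum_eq]
    refine tsum_congr fun h => ?_
    have h2 : (mon (c h) = m) ↔ (mon h = (m.1, -m.2)) := by
      unfold mon
      rw [hn, hk, Prod.ext_iff, Prod.ext_iff]
      simp only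
      constructor
      · rintro ⟨h3, h4⟩
        exact ⟨h3, by rw [← h4, neg_neg]⟩
      · rintro ⟨h3, h4⟩
        exact ⟨h3, by rw [h4, neg_neg]⟩
    simp only [h2, Function.comp]
  rw [h1]
  unfold cj pt push
  rw [Complex.conj_tsum]
  refine tsum_congr fun h => ?_
  split_ifs with h3
  · exact (hu h).symm
  · exact map_zero _

end KX
end

section

/-!
# The transformation of one block on formal series
-/

set_option autoImplicit false

namespace KX

open scoped ENNReal

variable {V : Type} [DecidableEq V]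

theorem blockf_amn_pos (G : Geo V) (n : V →₀ ℕ) : 0 < amn G.a n := by
  unfold amn
  exact Finset.prod_pos fun j _ => pow_pos (G.a_pos j) _

/-- conditional value with the classical decision -/
noncomputable def bfi (p : Prop) (x : ℂ) : ℂ := @ite _ p (Classical.propDecidable p) x 0

theorem bfi_pos {p : Prop} (h : p) (x : ℂ) : bfi p x = x := if_pos h

theorem bfi_neg {p : Prop} (h : ¬ p) (x : ℂ) : bfi p x = 0 := if_neg h

omit [DecidableEq V] in
theorem blockf_push {M : Type} (T : Tr V → M) (u : Tr V → ℂ) (m : M) :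
    push T u m = ∑' h, bfi (T h = m) (u h) := rfl

theorem blockf_summable (G : Geo V) (rho s : ℝ) (hr : 0 < rho) (hs : 0 ≤ s)
    (u : Tr V → ℂ) (hu : ∑' h, ‖u h‖ₑ * wT G rho s h ≠ ∞) (m : Mon V) :
    Summable fun h : Tr V => bfi (mon h = m) (u h) := by
  set c : ℝ≥0∞ := ENNReal.ofReal (rho ^ dgr m.1 * amn G.a m.1) with hc
  have hc0 : c ≠ 0 := by
    have : 0 < rho ^ dgr m.1 * amn G.a m.1 := mul_pos (pow_pos hr _) (blockf_amn_pos G _)
    simpa [hc] using this
  have hct : c ≠ ∞ := ENNReal.ofReal_ne_top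
  refine Summable.of_enorm ?_
  have hle : ∀ h : Tr V, ‖bfi (mon h = m) (u h)‖ₑ ≤
      c⁻¹ * (‖u h‖ₑ * wT G rho s h) := by
    intro h
    by_cases hm : mon h = m
    · rw [bfi_pos hm]
      have h1 : c ≤ wT G rho s h := by
        unfold wT
        rw [hc]
        refine ENNReal.ofReal_le_ofReal ?_
        have e1 : Tr.deg h = dgr m.1 := by
          rw [← hm]; rfl
        have e2 : Tr.n h = m.1 := by
          rw [← hm]; rfl
        rw [e1, e2]
        have hp : 0 < rho ^ dgr m.1 * amn G.a m.1 := mul_pos (pow_pos hr _) (blockf_amn_pos G _)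
        have h2 : 1 ≤ Real.exp (s * Tr.N h) := Real.one_le_exp (by positivity)
        have h3 : 1 ≤ G.ainv (Tr.A h) := Geo.one_le_ainv G _
        calc rho ^ dgr m.1 * amn G.a m.1 = rho ^ dgr m.1 * amn G.a m.1 * 1 * 1 := by ring
          _ ≤ rho ^ dgr m.1 * amn G.a m.1 * Real.exp (s * Tr.N h) * G.ainv (Tr.A h) := by
              gcongr
      calc ‖u h‖ₑ = c⁻¹ * (‖u h‖ₑ * c) := by
            rw [mul_comm ‖u h‖ₑ c, ← mul_assoc, ENNReal.inv_mul_cancel hc0 hct, one_mul]
        _ ≤ c⁻¹ * (‖u h‖ₑ * wT G rho s h) := by gcongr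
    · rw [bfi_neg hm]
      simp
  refine ne_top_of_le_ne_top ?_ (ENNReal.tsum_le_tsum hle)
  rw [ENNReal.tsum_mul_left]
  exact ENNReal.mul_ne_top (ENNReal.inv_ne_top.2 hc0) hu

/-- relabelling does not change the formal series -/
theorem pt_pnext (G : Geo V) (rho s : ℝ) (hr : 0 < rho) (hs : 0 ≤ s)
    (u : Tr V → (V → ℝ) → ℂ) (w : V → ℝ) (hu : ∑' h, ‖u h w‖ₑ * wT G rho s h ≠ ∞) :
    pt (lf0 fun l => pnext u l w) = pt fun h => u h w := by
  funext m
  unfold pt
  rw [blockf_push, blockf_push]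
  have hinj : Function.Injective (Tr.leaf : Lbl V → Tr V) := fun a b h => by
    injection h
  have hA := hinj.tsum_eq (f := fun h : Tr V => bfi (mon h = m)
      ((lf0 fun l => pnext u l w) h)) (by
    intro h hh
    cases h with
    | leaf l => exact ⟨l, rfl⟩
    | node j f p =>
      exfalso
      apply hh
      simp only [lf0]
      by_cases hm : mon (Tr.node j f p) = m
      · rw [bfi_pos hm]
      · rw [bfi_neg hm])
  rw [← hA]
  have hF := blockf_summable G rho s hr hs (fun h => u h w) hu m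
  have hB := hF.hasSum.tsum_fiberwise lab
  rw [← hB.tsum_eq]
  refine tsum_congr fun l => ?_
  rw [tsum_subtype (lab ⁻¹' {l}) fun h : Tr V => bfi (mon h = m) (u h w)]
  by_cases hm : mon (Tr.leaf l) = m
  · rw [bfi_pos hm]
    simp only [lf0, pnext]
    refine tsum_congr fun h => ?_
    unfold rst
    by_cases hl : lab h = l
    · rw [if_pos hl, Set.indicator_of_mem (by simpa using hl)]
      have : mon h = m := by
        rw [← hm, ← hl]; rfl
      rw [bfi_pos this]
    · rw [if_neg hl, Set.indicator_of_notMem (by simpa using hl)]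
  · rw [bfi_neg hm]
    symm
    refine (tsum_congr fun h => ?_).trans tsum_zero
    by_cases hl : lab h = l
    · rw [Set.indicator_of_mem (by simpa using hl)]
      have : mon h ≠ m := by
        intro hh
        apply hm
        rw [← hh, ← hl]; rfl
      rw [bfi_neg this]
    · rw [Set.indicator_of_notMem (by simpa using hl)]

end KX
end

section

/-!
# Parameters for `ℤ^d`: label sums
-/

set_option autoImplicit false

namespace KX

open scoped ENNReal

theorem tsum_fintype_pi {ι α : Type} [Fintype ι] (f : α → ℝ≥0∞) :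
    ∑' x : ι → α, ∏ a, f (x a) = (∑' n, f n) ^ Fintype.card ι := by
  have e := Fintype.equivFin ι
  rw [← (Equiv.arrowCongr e.symm (Equiv.refl α)).tsum_eq (fun x : ι → α => ∏ a, f (x a))]
  have h1 : ∀ x : Fin (Fintype.card ι) → α,
      ∏ a, f ((Equiv.arrowCongr e.symm (Equiv.refl α)) x a) = ∏ b, f (x b) := by
    intro x
    rw [← e.prod_comp]
    simp [Equiv.arrowCongr]
  simp_rw [h1]
  rw [tsum_pi_prod _ fun _ => f]
  simp

theorem geo_nat_le (x : ℝ) (hx : 0 < x) (hx1 : x ≤ 1) :
    ∑' n : ℕ, ENNReal.ofReal (Real.exp (-x * n)) ≤ ENNReal.ofReal (2 / x) := by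
  have h0 : ∀ n : ℕ, Real.exp (-x * n) = (Real.exp (-x)) ^ n := fun n => by
    rw [← Real.exp_nat_mul]; ring_nf
  have hlt : Real.exp (-x) < 1 := by rw [Real.exp_lt_one_iff]; linarith
  have hs : Summable fun n : ℕ => (Real.exp (-x)) ^ n :=
    summable_geometric_of_lt_one (Real.exp_pos _).le hlt
  simp_rw [h0]
  rw [← ENNReal.ofReal_tsum_of_nonneg (fun n => by positivity) hs, tsum_geometric_of_lt_one
    (Real.exp_pos _).le hlt]
  refine ENNReal.ofReal_le_ofReal ?_
  have h1 : Real.exp (-x) ≤ 1 - x / 2 := by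
    have h2 := Real.add_one_le_exp (x)
    have h3 : Real.exp (-x) ≤ 1 / (1 + x) := by
      rw [Real.exp_neg, inv_eq_one_div]
      exact one_div_le_one_div_of_le (by linarith) (by linarith)
    have h4 : 1 / (1 + x) ≤ 1 - x / 2 := by
      rw [div_le_iff₀ (by linarith)]
      nlinarith
    linarith
  rw [inv_le_comm₀ (by linarith) (by positivity)]
  rw [inv_div]
  linarith

theorem geo_int_le (x : ℝ) (hx : 0 < x) (hx1 : x ≤ 1) :
    ∑' n : ℤ, ENNReal.ofReal (Real.exp (-x * n.natAbs)) ≤ ENNReal.ofReal (4 / x) := by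
  have h1 : ∑' n : ℤ, ENNReal.ofReal (Real.exp (-x * n.natAbs)) ≤
      ∑' n : ℕ, ENNReal.ofReal (Real.exp (-x * n)) +
      ∑' n : ℕ, ENNReal.ofReal (Real.exp (-x * n)) := by
    rw [← Equiv.intEquivNatSumNat.symm.tsum_eq, ENNReal.summable.tsum_sum ENNReal.summable]
    refine add_le_add (le_of_eq ?_) ?_
    · refine tsum_congr fun n => ?_
      simp [Equiv.intEquivNatSumNat]
    · refine ENNReal.tsum_le_tsum fun n => ?_
      refine ENNReal.ofReal_le_ofReal (Real.exp_le_exp.2 ?_)
      have : ((Equiv.intEquivNatSumNat.symm (Sum.inr n)).natAbs : ℝ) = n + 1 := by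
        have : (Equiv.intEquivNatSumNat.symm (Sum.inr n)) = Int.negSucc n := rfl
        rw [this]
        simp
      rw [this]
      nlinarith
  refine h1.trans ?_
  have h2 := geo_nat_le x hx hx1
  calc _ ≤ ENNReal.ofReal (2 / x) + ENNReal.ofReal (2 / x) := add_le_add h2 h2
    _ = ENNReal.ofReal (4 / x) := by
        rw [← ENNReal.ofReal_add (by positivity) (by positivity)]
        congr 1
        ring

/-- data of a label -/
noncomputable def lblInj {V : Type} (l : Lbl V) : (A : Finset V) × ((A → ℕ) × (A → ℤ)) :=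
  ⟨l.A, fun a => l.n a, fun a => l.k a⟩

theorem lblInj_injective {V : Type} : Function.Injective (lblInj (V := V)) := by
  rintro ⟨A, n, k, hn, hk⟩ ⟨A', n', k', hn', hk'⟩ h
  simp only [lblInj, Sigma.mk.injEq] at h
  obtain ⟨rfl, h⟩ := h
  have h := eq_of_heq h
  rw [Prod.mk.injEq] at h
  have h1 : n = n' := by
    ext v
    by_cases hv : v ∈ A
    · exact congrFun h.1 ⟨v, hv⟩
    · rw [Finsupp.notMem_support_iff.1 fun h' => hv (hn h'),
        Finsupp.notMem_support_iff.1 fun h' => hv (hn' h')]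
  have h2 : k = k' := by
    ext v
    by_cases hv : v ∈ A
    · exact congrFun h.2 ⟨v, hv⟩
    · rw [Finsupp.notMem_support_iff.1 fun h' => hv (hk h'),
        Finsupp.notMem_support_iff.1 fun h' => hv (hk' h')]
  subst h1 h2
  rfl

theorem dgr_eq {V : Type} (A : Finset V) (n : V →₀ ℕ) (h : n.support ⊆ A) :
    dgr n = ∑ a : A, n a := by
  unfold dgr
  rw [Finsupp.sum_of_support_subset n h _ (by simp), ← Finset.sum_coe_sort]

theorem kab_eq {V : Type} (A : Finset V) (k : V →₀ ℤ) (h : k.support ⊆ A) :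
    kab k = ∑ a : A, (k a).natAbs := by
  unfold kab
  rw [Finsupp.sum_of_support_subset k h _ (by simp), ← Finset.sum_coe_sort]

/-- sum over the labels with a given cluster -/
theorem lbl_sum_le {V : Type} [DecidableEq V] (G : Geo V) (ell de : ℝ) (hde : 0 < de)
    (hde1 : de ≤ 1) (i : V) :
    ∑' l : Lbl V, (if i ∈ l.A then
      ENNReal.ofReal (Real.exp (-(ell * l.A.card + de * (l.N + G.Lam l.A)))) else 0) ≤
    ∑' A : Finset V, (if i ∈ A then ENNReal.ofReal (Real.exp (-ell) * (8 / de ^ 2)) ^ A.card *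
      ENNReal.ofReal (Real.exp (-de * G.Lam A)) else 0) := by
  set F : ((A : Finset V) × ((A → ℕ) × (A → ℤ))) → ℝ≥0∞ := fun x => if i ∈ x.1 then
    (ENNReal.ofReal (Real.exp (-ell)) ^ x.1.card * ENNReal.ofReal (Real.exp (-de * G.Lam x.1))) *
      ((∏ a, ENNReal.ofReal (Real.exp (-de * x.2.1 a))) *
      ∏ a, ENNReal.ofReal (Real.exp (-de * (x.2.2 a).natAbs))) else 0 with hF
  have h1 : ∀ l : Lbl V, (if i ∈ l.A then
      ENNReal.ofReal (Real.exp (-(ell * l.A.card + de * (l.N + G.Lam l.A)))) else 0) =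
      F (lblInj l) := by
    intro l
    by_cases hi : i ∈ l.A
    · have hFl : F (lblInj l) = (ENNReal.ofReal (Real.exp (-ell)) ^ l.A.card *
          ENNReal.ofReal (Real.exp (-de * G.Lam l.A))) *
          ((∏ a : l.A, ENNReal.ofReal (Real.exp (-de * l.n a))) *
          ∏ a : l.A, ENNReal.ofReal (Real.exp (-de * (l.k a).natAbs))) := if_pos hi
      rw [if_pos hi, hFl]
      rw [← ENNReal.ofReal_prod_of_nonneg (fun _ _ => (Real.exp_pos _).le),
        ← ENNReal.ofReal_prod_of_nonneg (fun _ _ => (Real.exp_pos _).le),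
        ← ENNReal.ofReal_pow (Real.exp_pos _).le, ← ENNReal.ofReal_mul (by positivity),
        ← ENNReal.ofReal_mul (by positivity), ← ENNReal.ofReal_mul (by positivity)]
      congr 1
      rw [← Real.exp_nat_mul, ← Real.exp_sum, ← Real.exp_sum, ← Real.exp_add, ← Real.exp_add,
        ← Real.exp_add]
      congr 1
      have hN : (l.N : ℝ) = ∑ a : l.A, (l.n a : ℝ) + ∑ a : l.A, ((l.k a).natAbs : ℝ) := by
        unfold Lbl.N
        rw [dgr_eq l.A l.n l.hn, kab_eq l.A l.k l.hk]
        push_cast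
        rfl
      rw [hN, ← Finset.mul_sum, ← Finset.mul_sum]
      ring
    · have hFl : F (lblInj l) = 0 := if_neg hi
      rw [if_neg hi, hFl]
  calc _ = ∑' l : Lbl V, F (lblInj l) := tsum_congr h1
    _ ≤ ∑' x, F x := ENNReal.tsum_comp_le_tsum_of_injective lblInj_injective F
    _ = ∑' A : Finset V, ∑' y : (A → ℕ) × (A → ℤ), F ⟨A, y⟩ := ENNReal.tsum_sigma' _
    _ ≤ _ := by
        refine ENNReal.tsum_le_tsum fun A => ?_
        by_cases hi : i ∈ A
        · have hFA : ∀ y : (A → ℕ) × (A → ℤ), F ⟨A, y⟩ = (ENNReal.ofReal (Real.exp (-ell)) ^ A.card *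
              ENNReal.ofReal (Real.exp (-de * G.Lam A))) *
              ((∏ a, ENNReal.ofReal (Real.exp (-de * y.1 a))) *
              ∏ a, ENNReal.ofReal (Real.exp (-de * (y.2 a).natAbs))) := fun y => by
            simp only [hF, if_pos hi]
          simp_rw [hFA]
          rw [if_pos hi, ENNReal.tsum_mul_left, ENNReal.tsum_prod']
          simp_rw [ENNReal.tsum_mul_left]
          rw [ENNReal.tsum_mul_right, tsum_fintype_pi (fun n : ℕ => ENNReal.ofReal (Real.exp (-de * n))),
            tsum_fintype_pi (fun n : ℤ => ENNReal.ofReal (Real.exp (-de * n.natAbs)))]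
          have h2 := geo_nat_le de hde hde1
          have h3 := geo_int_le de hde hde1
          simp only [Fintype.card_coe]
          calc _ ≤ (ENNReal.ofReal (Real.exp (-ell)) ^ A.card *
                ENNReal.ofReal (Real.exp (-de * G.Lam A))) *
                (ENNReal.ofReal (2 / de) ^ A.card * ENNReal.ofReal (4 / de) ^ A.card) := by
                gcongr
            _ = (ENNReal.ofReal (Real.exp (-ell)) * ENNReal.ofReal (2 / de) *
                ENNReal.ofReal (4 / de)) ^ A.card * ENNReal.ofReal (Real.exp (-de * G.Lam A)) := by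
                rw [mul_pow, mul_pow]
                ring
            _ = _ := by
                rw [← ENNReal.ofReal_mul (by positivity), ← ENNReal.ofReal_mul (by positivity)]
                congr 3
                field_simp
                ring
        · simp only [hF, hi, if_false]
          simp

/-- the label sums for `ℤ^d` -/
theorem LS_geoZ (d : ℕ) (hd : 1 ≤ d) (ac : (Fin d → ℤ) → ℝ) (hac0 : ∀ j, 0 < ac j) (hac1 : ∀ j, ac j ≤ 1) (ell de : ℝ) (hde : 0 < de)
    (hde1 : de ≤ 1) (h : 16 * (4 * d / de) ^ d / de ^ 2 ≤ Real.exp ell) :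
    LS (geoZ d ac hac0 hac1) ell de := by
  intro i
  refine (lbl_sum_le (geoZ d ac hac0 hac1) ell de hde hde1 i).trans ?_
  set ρ : ℝ := Real.exp (-ell) * (8 / de ^ 2) with hρ
  have hρ0 : 0 ≤ ρ := by positivity
  have hd0 : (0 : ℝ) < d := by exact_mod_cast hd
  have hρS : ρ * (4 * d / de) ^ d ≤ 1 / 2 := by
    rw [hρ, Real.exp_neg]
    have he := Real.exp_pos ell
    have h2 : (8 / de ^ 2) * (4 * d / de) ^ d ≤ Real.exp ell / 2 := by
      have : (8 / de ^ 2) * (4 * d / de) ^ d = (16 * (4 * d / de) ^ d / de ^ 2) / 2 := by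
        field_simp
        ring
      rw [this]
      linarith
    calc (Real.exp ell)⁻¹ * (8 / de ^ 2) * (4 * d / de) ^ d
        = (Real.exp ell)⁻¹ * ((8 / de ^ 2) * (4 * d / de) ^ d) := by ring
      _ ≤ (Real.exp ell)⁻¹ * (Real.exp ell / 2) := by gcongr
      _ = 1 / 2 := by field_simp
  have hb1 : 1 ≤ (4 * d / de) ^ d := by
    refine one_le_pow₀ ?_
    rw [le_div_iff₀ hde]
    have : (1 : ℝ) ≤ d := by exact_mod_cast hd
    linarith
  have hρ1 : ρ ≤ 1 / 2 := by
    calc ρ = ρ * 1 := by ring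
      _ ≤ ρ * (4 * d / de) ^ d := by gcongr
      _ ≤ 1 / 2 := hρS
  calc ∑' A : Finset (Fin d → ℤ), (if i ∈ A then ENNReal.ofReal ρ ^ A.card *
      ENNReal.ofReal (Real.exp (-de * (geoZ d ac hac0 hac1).Lam A)) else 0)
      ≤ ∑' A : Finset (Fin d → ℤ), ∑' p : ℕ, ENNReal.ofReal ρ ^ (p + 1) *
        (if i ∈ A ∧ A.card = p + 1 then ENNReal.ofReal (Real.exp (-de * tour A)) else 0) := by
        refine ENNReal.tsum_le_tsum fun A => ?_
        split_ifs with hi
        · have hc : A.card = (A.card - 1) + 1 := by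
            have := Finset.card_pos.2 ⟨i, hi⟩
            omega
          refine le_trans (le_of_eq ?_) (ENNReal.le_tsum (A.card - 1))
          rw [if_pos ⟨hi, hc⟩, ← hc]
          rfl
        · exact bot_le
    _ = ∑' p : ℕ, ENNReal.ofReal ρ ^ (p + 1) * ∑' A : Finset (Fin d → ℤ),
        (if i ∈ A ∧ A.card = p + 1 then ENNReal.ofReal (Real.exp (-de * tour A)) else 0) := by
        rw [ENNReal.tsum_comm]
        simp_rw [ENNReal.tsum_mul_left]
    _ ≤ ∑' p : ℕ, ENNReal.ofReal ((1 / 2) ^ (p + 1)) := by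
        refine ENNReal.tsum_le_tsum fun p => ?_
        calc _ ≤ ENNReal.ofReal ρ ^ (p + 1) * ENNReal.ofReal ((4 * d / de) ^ d) ^ p := by
              gcongr
              refine (tour_sum de hde i p).trans ?_
              exact pow_le_pow_left' (Sd_le hd de hde hde1) p
          _ = ENNReal.ofReal (ρ * (ρ * (4 * d / de) ^ d) ^ p) := by
              rw [← ENNReal.ofReal_pow hρ0, ← ENNReal.ofReal_pow (by positivity),
                ← ENNReal.ofReal_mul (by positivity)]
              congr 1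
              rw [mul_pow]
              ring
          _ ≤ _ := by
              refine ENNReal.ofReal_le_ofReal ?_
              rw [pow_succ']
              gcongr
    _ = 1 := by
        rw [← ENNReal.ofReal_tsum_of_nonneg (fun p => by positivity)]
        · rw [show (1 : ℝ≥0∞) = ENNReal.ofReal 1 by simp]
          congr 1
          simp_rw [pow_succ]
          rw [tsum_mul_right, tsum_geometric_two]
          norm_num
        · exact (summable_nat_add_iff 1).2 summable_geometric_two

end KX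
end
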