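import Pool.Agent.Lib.MP_73c19a_an.Mg.G018
import Pool.Agent.Lib.MP_73c19a_an.Ballf

section

/-!
# From trees to monomials
-/

set_option autoImplicit false

namespace KX

open scoped ENNReal

variable {V : Type} [DecidableEq V]

theorem tme_nrQ (G : Geo V) (rho x : ℝ) (hr : 0 < rho) (v : Tr V → ℂ) :
    ∑' h, ‖v h‖ₑ * wT G rho x h = nrQ (wT G rho 0) x (fun h => ‖v h‖ₑ) := by
  unfold nrQ
  refine tsum_congr fun h => ?_
  rw [tmb_wT G rho x hr h, mul_assoc]

theorem tme_mono (G : Geo V) (rho x x' : ℝ) (hr : 0 < rho) (hx : x ≤ x') (v : Tr V → ℂ) :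
    ∑' h, ‖v h‖ₑ * wT G rho x h ≤ ∑' h, ‖v h‖ₑ * wT G rho x' h := by
  rw [tme_nrQ G rho x hr, tme_nrQ G rho x' hr]
  exact nrQ_mono _ hx _

theorem tme_iter (e u : Tr V → ℂ) (n : ℕ) : (fun h => ‖((opX ika e)^[n] u) h‖ₑ) =
    (opX kae (fun h => ‖e h‖ₑ))^[n] (fun h => ‖u h‖ₑ) := by
  induction n generalizing u with
  | zero => rfl
  | succ n ih =>
    rw [Function.iterate_succ_apply, Function.iterate_succ_apply, ih]
    congr 1
    funext h
    exact tmb_enorm_opX e u h

theorem tme_le (e : Tr V → ℝ≥0∞) (n : ℕ) (h : Tr V) (u v : Tr V → ℝ≥0∞)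
    (huv : ∀ h, u h ≤ v h) : ((opX kae e)^[n] u) h ≤ ((opX kae e)^[n] v) h := by
  induction n generalizing u v with
  | zero => exact huv h
  | succ n ih =>
    rw [Function.iterate_succ_apply, Function.iterate_succ_apply]
    apply ih
    intro h
    cases h with
    | leaf l => exact le_refl _
    | node j f p =>
      show kae j f p * e f * u p ≤ kae j f p * e f * v p
      gcongr
      exact huv p

theorem tme_cv (E : Tr V → Prop) (u : Tr V → ℂ) (m : ℕ) (h : Tr V) :
    ‖u h - rst E u h / ((m : ℂ) + 1)‖ₑ ≤ ‖u h‖ₑ := by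
  by_cases hE : E h
  · have h1 : rst E u h = u h := by
      unfold rst
      rw [if_pos hE]
    have h2 : (m : ℂ) + 1 ≠ 0 := by exact_mod_cast Nat.succ_ne_zero m
    have h3 : u h - u h / ((m : ℂ) + 1) = ((m : ℂ) / ((m : ℂ) + 1)) * u h := by
      field_simp
      ring
    rw [h1, h3, enorm_mul]
    refine mul_le_of_le_one_left (by positivity) ?_
    rw [← ofReal_norm]
    apply ENNReal.ofReal_le_one.2
    rw [norm_div]
    have h4 : ‖(m : ℂ) + 1‖ = (m : ℝ) + 1 := by
      have : (m : ℂ) + 1 = ((m + 1 : ℕ) : ℂ) := by push_cast; rfl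
      rw [this, Complex.norm_natCast]
      push_cast
      rfl
    rw [h4, Complex.norm_natCast]
    rw [div_le_one (by positivity)]
    linarith
  · have h1 : rst E u h = 0 := by
      unfold rst
      rw [if_neg hE]
    rw [h1, zero_div, sub_zero]

theorem tme_rst (E : Tr V → Prop) (u : Tr V → ℂ) (h : Tr V) : ‖rst E u h‖ₑ ≤ ‖u h‖ₑ := by
  by_cases hE : E h
  · unfold rst
    rw [if_pos hE]
  · unfold rst
    rw [if_neg hE]
    simp

/-- the new perturbation as a formal series. `z` as in `nrQ_exp`. -/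
theorem pt_nxt (G : Geo V) (P : BP V) (t : ℕ) (w : V → ℝ) (u : Tr V → ℂ) (rho s y z : ℝ)
    (hr : 0 < rho) (hs : 0 ≤ s) (hy : 0 < y) (hz : 0 ≤ z) (hz1 : z ≤ 1 / 2)
    (he : ENNReal.ofReal (3 / (rho * y ^ 2)) *
      (∑' h, ‖gen G P t w u h‖ₑ * wT G rho (s + 2 * y) h) ≤ ENNReal.ofReal z)
    (hu : ∑' h, ‖u h‖ₑ * wT G rho (s + 2 * y) h ≠ ∞) :
    pt (nxt G P t w u) = fun m => tp (pt (gen G P t w u)) (pt u) (pt (rst (Tr.EE G P t) u)) m -
      pt (rst (Tr.SS G P t) u) m := by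
  unfold nxt
  generalize gen G P t w u = e at he ⊢
  generalize Tr.EE G P t = E
  generalize Tr.SS G P t = S
  have hpos : 0 < 3 / (rho * y ^ 2) := by positivity
  have he2 : ∑' h, ‖e h‖ₑ * wT G rho (s + 2 * y) h ≠ ∞ := by
    intro h
    rw [h, ENNReal.mul_top (by simpa using hpos)] at he
    exact absurd he (by simp)
  have he1 : ∑' h, ‖e h‖ₑ * wT G rho (s + y) h ≠ ∞ :=
    ne_top_of_le_ne_top he2 (tme_mono G rho _ _ hr (by linarith) _)
  have hu1 : ∑' h, ‖u h‖ₑ * wT G rho (s + y) h ≠ ∞ :=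
    ne_top_of_le_ne_top hu (tme_mono G rho _ _ hr (by linarith) _)
  have hle : ∀ (v v' : Tr V → ℂ) (x : ℝ), (∀ h, ‖v h‖ₑ ≤ ‖v' h‖ₑ) →
      ∑' h, ‖v h‖ₑ * wT G rho x h ≤ ∑' h, ‖v' h‖ₑ * wT G rho x h := by
    intro v v' x hv
    refine ENNReal.tsum_le_tsum fun h => ?_
    gcongr
    exact hv h
  have hwm : ∀ (v : Tr V → ℂ) (x : ℝ), 0 ≤ x →
      ∑' h, ‖v h‖ₑ * wm G rho x (mon h) ≤ ∑' h, ‖v h‖ₑ * wT G rho x h := by
    intro v x hx
    refine ENNReal.tsum_le_tsum fun h => ?_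
    gcongr
    exact tmb_wm_le G rho x hr hx h
  have hu0 : ∑' h, ‖u h‖ₑ * wT G rho s h ≠ ∞ :=
    ne_top_of_le_ne_top hu (tme_mono G rho _ _ hr (by linarith) _)
  let v : ℕ → Tr V → ℂ := fun m h => u h - rst E u h / ((m : ℂ) + 1)
  have hv : ∀ m h, ‖v m h‖ₑ ≤ ‖u h‖ₑ := fun m h => tme_cv E u m h
  let f : ℕ → Tr V → ℂ := fun m h => (1 / (m.factorial : ℂ)) * ((opX ika e)^[m] (v m)) h
  have hf0 : ∀ (m : ℕ) (h : Tr V), Tr.spine h < m → f m h = 0 := by
    intro m h hm
    show (1 / (m.factorial : ℂ)) * ((opX ika e)^[m] (v m)) h = 0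
    rw [opX_iter_eq_zero ika e (v m) m h hm, mul_zero]
  -- the bound
  have hfin : ∑' x : ℕ × Tr V, ‖f x.1 x.2‖ₑ * wT G rho s x.2 ≠ ∞ := by
    rw [ENNReal.tsum_prod', ENNReal.tsum_comm]
    have h1 := nrQ_exp (wT G rho 0) (ENNReal.ofReal (1 / rho))
      (fun j f p hk => wT_node_le G rho 0 hr j f p hk) s y hy (fun h => ‖e h‖ₑ)
      (fun h => ‖u h‖ₑ) z hz hz1 (by
        rw [← tme_nrQ G rho (s + 2 * y) hr, ← ENNReal.ofReal_mul (by positivity)]
        refine le_trans (le_of_eq ?_) he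
        congr 2
        field_simp)
    refine ne_top_of_le_ne_top ?_ (le_trans ?_ h1)
    · refine ENNReal.mul_ne_top ENNReal.ofReal_ne_top ?_
      rw [← tme_nrQ G rho (s + y) hr]
      exact hu1
    · unfold nrQ
      refine ENNReal.tsum_le_tsum fun h => ?_
      show ∑' a, ‖f a h‖ₑ * wT G rho s h ≤ _
      rw [ENNReal.tsum_mul_right, tmb_wT G rho s hr h, ← mul_assoc]
      gcongr
      rw [tsum_eq_sum (s := Finset.range (Tr.spine h + 1))]
      · refine Finset.sum_le_sum fun m _ => ?_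
        show ‖(1 / (m.factorial : ℂ)) * ((opX ika e)^[m] (v m)) h‖ₑ ≤ _
        rw [enorm_mul]
        have h2 : ‖(1 / (m.factorial : ℂ))‖ₑ = 1 / (m.factorial : ℝ≥0∞) := by
          rw [← ofReal_norm, norm_div, norm_one, Complex.norm_natCast,
            ENNReal.ofReal_div_of_pos (by positivity), ENNReal.ofReal_one,
            ENNReal.ofReal_natCast]
        rw [h2]
        gcongr
        have h3 := congrFun (tme_iter e (v m) m) h
        exact le_trans (le_of_eq h3) (tme_le _ m h _ _ (hv m))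
      · intro m hm
        rw [hf0 m h (by simpa using hm)]
        simp
  have hfinm : ∀ m, ∑' h, ‖f m h‖ₑ * wT G rho s h ≠ ∞ := by
    intro m
    refine ne_top_of_le_ne_top hfin ?_
    rw [ENNReal.tsum_prod']
    exact ENNReal.le_tsum m
  have hfinwm : ∑' x : ℕ × Tr V, ‖f x.1 x.2‖ₑ * wm G rho s (mon x.2) ≠ ∞ := by
    refine ne_top_of_le_ne_top hfin ?_
    refine ENNReal.tsum_le_tsum fun x => ?_
    gcongr
    exact tmb_wm_le G rho s hr hs x.2
  have hw0 := wm_ne_zero G rho s hr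
  -- the sum
  have hstp : stp ika e u E S = fun h => (∑' m, f m h) + (-1) * rst S u h := by
    funext h
    unfold stp
    rw [tsum_eq_sum (s := Finset.range (Tr.spine h + 1))]
    · ring
    · intro m hm
      exact hf0 m h (by simpa using hm)
  have hsum : ∑' h, ‖∑' m, f m h‖ₑ * wm G rho s (mon h) ≠ ∞ := by
    refine ne_top_of_le_ne_top hfinwm ?_
    rw [ENNReal.tsum_prod', ENNReal.tsum_comm]
    refine ENNReal.tsum_le_tsum fun h => ?_
    show _ ≤ ∑' a, ‖f a h‖ₑ * wm G rho s (mon h)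
    rw [ENNReal.tsum_mul_right]
    gcongr
    rw [tsum_eq_sum (s := Finset.range (Tr.spine h + 1))
      (fun m hm => hf0 m h (by simpa using hm))]
    exact (enorm_sum_le _ _).trans (ENNReal.sum_le_tsum _)
  have hS : ∑' h, ‖(-1) * rst S u h‖ₑ * wm G rho s (mon h) ≠ ∞ := by
    refine ne_top_of_le_ne_top hu0 ?_
    refine le_trans (hwm _ s hs) (hle _ _ s fun h => ?_)
    rw [neg_one_mul, enorm_neg]
    exact tme_rst S u h
  unfold pt
  rw [hstp, push_add (wm G rho s) hw0 mon _ _ hsum hS, push_smul]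
  funext m'
  rw [push_tsum (wm G rho s) hw0 mon f hfinwm m']
  show ∑' a, push mon (f a) m' + (-1) * push mon (rst S u) m' = _
  rw [neg_one_mul, ← sub_eq_add_neg]
  congr 1
  unfold tp
  refine tsum_congr fun n => ?_
  have h1 : push mon (f n) = fun m => (1 / (n.factorial : ℂ)) *
      push mon ((opX ika e)^[n] (v n)) m := push_smul mon _ _
  rw [h1]
  show (1 / (n.factorial : ℂ)) * pt ((opX ika e)^[n] (v n)) m' = _
  rw [pt_iter G rho s y hr hs hy e (v n) he1 (ne_top_of_le_ne_top hu1 (hle _ _ _ (hv n))) n]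
  have h2 : pt (v n) = fun m => push mon u m - push mon (rst E u) m / ((n : ℂ) + 1) := by
    have h3 : v n = fun h => u h + (-(1 / ((n : ℂ) + 1))) * rst E u h := by
      funext h
      show u h - rst E u h / ((n : ℂ) + 1) = _
      ring
    unfold pt
    rw [h3, push_add (wm G rho s) hw0 mon _ _ (ne_top_of_le_ne_top hu0 (hwm _ s hs)) ?_,
      push_smul]
    · funext m
      ring
    · have h4 : ∑' h, ‖(-(1 / ((n : ℂ) + 1))) * rst E u h‖ₑ * wm G rho s (mon h) =
          ‖(-(1 / ((n : ℂ) + 1)) : ℂ)‖ₑ * ∑' h, ‖rst E u h‖ₑ * wm G rho s (mon h) := by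
        rw [← ENNReal.tsum_mul_left]
        refine tsum_congr fun h => ?_
        rw [enorm_mul, mul_assoc]
      rw [h4]
      refine ENNReal.mul_ne_top (by simp) ?_
      exact ne_top_of_le_ne_top hu0 (le_trans (hwm _ s hs) (hle _ _ s (tme_rst E u)))
  rw [h2]
  rfl

end KX
end

section

/-!
# Union bounds for the small divisor conditions
-/

set_option autoImplicit false

namespace KX

open MeasureTheory

open scoped ENNReal

variable {V : Type} [DecidableEq V]

open Classical in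
/-- sum over all connected trees, by the site where `brm (A h)` is attained -/
theorem tree_sum_all (G : Geo V) (C : CC) (Am Cb : ℝ) (hAm : 1 ≤ Am) (hLS : LS G C.ell C.dpp)
    (hSB : SB G C.bD Cb) (hc : 280 * Am * Real.exp (-C.c) ≤ 1) :
    ∑' h : Tr V, (if (Tr.A h).Nonempty ∧ Tr.conn h ∧ ((Tr.A h).card : ℝ) ≤ Am then
      ENNReal.ofReal (35 ^ Tr.q h * Real.exp (-(jcost G C h) / 2)) else 0) ≤
      ENNReal.ofReal (Cb * Real.exp (-C.lg)) := by
  set W : V → Tr V → ℝ≥0∞ := fun i h =>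
    (if i ∈ Tr.A h ∧ Tr.conn h ∧ ((Tr.A h).card : ℝ) ≤ Am then
      ENNReal.ofReal (35 ^ Tr.q h * Real.exp (-(C.ell * Tr.ca h +
        C.dpp * (Tr.N h + Tr.L G h) + C.c * Tr.q h))) else 0) with hW
  have hstep : ∀ h : Tr V, (if (Tr.A h).Nonempty ∧ Tr.conn h ∧ ((Tr.A h).card : ℝ) ≤ Am then
      ENNReal.ofReal (35 ^ Tr.q h * Real.exp (-(jcost G C h) / 2)) else 0) ≤
      ∑' i : V, W i h * (ENNReal.ofReal ((G.br i) ^ (-C.bD)) *
        ENNReal.ofReal (Real.exp (-C.lg))) := by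
    intro h
    split_ifs with hcond
    · obtain ⟨hne, hconn, hcard⟩ := hcond
      obtain ⟨i, hi, hbi⟩ := Finset.exists_mem_eq_inf' hne G.br
      refine le_trans ?_ (ENNReal.le_tsum i)
      simp only [hW]
      rw [if_pos ⟨hi, hconn, hcard⟩]
      have hbr : G.brm (Tr.A h) = G.br i := by
        unfold Geo.brm
        rw [dif_pos hne, hbi]
      have hpos : 0 < G.br i := lt_of_lt_of_le zero_lt_one (G.one_le_br i)
      rw [← ENNReal.ofReal_mul (Real.rpow_nonneg hpos.le _), ← ENNReal.ofReal_mul (by positivity)]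
      apply ENNReal.ofReal_le_ofReal
      apply le_of_eq
      rw [Real.rpow_def_of_pos hpos, ← Real.exp_add, mul_assoc, ← Real.exp_add]
      congr 2
      unfold jcost
      rw [hbr]
      ring
    · exact bot_le
  have hsmall : ENNReal.ofReal (70 * Real.exp (-C.c)) ≤ 1 := by
    rw [← ENNReal.ofReal_one]
    apply ENNReal.ofReal_le_ofReal
    have h0 : 0 < Real.exp (-C.c) := Real.exp_pos _
    nlinarith
  calc ∑' h : Tr V, (if (Tr.A h).Nonempty ∧ Tr.conn h ∧ ((Tr.A h).card : ℝ) ≤ Am then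
      ENNReal.ofReal (35 ^ Tr.q h * Real.exp (-(jcost G C h) / 2)) else 0)
      ≤ ∑' h : Tr V, ∑' i : V, W i h * (ENNReal.ofReal ((G.br i) ^ (-C.bD)) *
        ENNReal.ofReal (Real.exp (-C.lg))) := ENNReal.tsum_le_tsum hstep
    _ = ∑' i : V, ∑' h : Tr V, W i h * (ENNReal.ofReal ((G.br i) ^ (-C.bD)) *
        ENNReal.ofReal (Real.exp (-C.lg))) := ENNReal.tsum_comm
    _ = ∑' i : V, (∑' h : Tr V, W i h) * (ENNReal.ofReal ((G.br i) ^ (-C.bD)) *
        ENNReal.ofReal (Real.exp (-C.lg))) := by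
        refine tsum_congr fun i => ?_
        rw [ENNReal.tsum_mul_right]
    _ ≤ ∑' i : V, (1 : ℝ≥0∞) * (ENNReal.ofReal ((G.br i) ^ (-C.bD)) *
        ENNReal.ofReal (Real.exp (-C.lg))) := by
        refine ENNReal.tsum_le_tsum fun i => ?_
        gcongr
        exact (tree_sum G C Am hAm hLS hc i).trans hsmall
    _ = (∑' i : V, ENNReal.ofReal ((G.br i) ^ (-C.bD))) * ENNReal.ofReal (Real.exp (-C.lg)) := by
        simp only [one_mul]
        rw [ENNReal.tsum_mul_right]
    _ ≤ ENNReal.ofReal Cb * ENNReal.ofReal (Real.exp (-C.lg)) := by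
        gcongr
        exact hSB
    _ = ENNReal.ofReal (Cb * Real.exp (-C.lg)) := by
        rw [ENNReal.ofReal_mul' (Real.exp_pos _).le]

end KX
end

section

/-!
# Union bounds for the small divisor conditions
-/

set_option autoImplicit false

namespace KX

open MeasureTheory

open scoped ENNReal

variable {V : Type} [DecidableEq V]

/-- a connected tree with an empty cluster is a leaf -/
theorem ptreee_leaf (h : Tr V) (hc : Tr.conn h) (hA : ¬ (Tr.A h).Nonempty) :
    ∃ l : Lbl V, h = Tr.leaf l ∧ l.A = ∅ := by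
  cases h with
  | leaf l => exact ⟨l, rfl, Finset.not_nonempty_iff_eq_empty.1 hA⟩
  | node j f p =>
    exfalso
    apply hA
    exact ⟨j, by simp only [Tr.A, Finset.mem_union]; exact Or.inl hc.1⟩

/-- there are no failures of the joint condition for trees with an empty cluster -/
theorem ptreee_empty (G : Geo V) (C : CC) (hlg : 0 ≤ C.lg) (hdpp : 0 ≤ C.dpp) (hc0 : 0 ≤ C.c)
    (w : V → ℝ) (h : Tr V) (hc : Tr.conn h) (hA : ¬ (Tr.A h).Nonempty)
    (R : Finset (Option (Tr.Dv h)))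
    (hR : LinearIndependent ℝ (fun y : R => Tr.rv (Tr.ky h y))) :
    ∏ y ∈ R, mx (dot (Tr.ky h y) w) ≤ Real.exp (jcost G C h) := by
  obtain ⟨l, rfl, hl⟩ := ptreee_leaf h hc hA
  have hk0 : ∀ y : Option (Tr.Dv (Tr.leaf l)), Tr.ky (Tr.leaf l) y = 0 := by
    intro y
    cases y with
    | none =>
      have : Tr.ky (Tr.leaf l) none = l.k := rfl
      rw [this]
      have h2 := l.hk
      rw [hl] at h2
      exact Finsupp.support_eq_empty.1 (Finset.subset_empty.1 h2)
    | some y => exact Empty.elim y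
  have hRe : R = ∅ := by
    rw [Finset.eq_empty_iff_forall_notMem]
    intro y hy
    apply hR.ne_zero ⟨y, hy⟩
    funext i
    simp only [hk0, Tr.rv]
    simp
  subst hRe
  rw [Finset.prod_empty]
  apply Real.one_le_exp
  unfold jcost
  have e1 : Tr.A (Tr.leaf l) = ∅ := hl
  have e2 : Tr.ca (Tr.leaf l) = 0 := by
    simp only [Tr.ca, hl, Finset.card_empty]
  rw [e1, e2]
  have e3 : G.brm ∅ = 1 := by simp [Geo.brm]
  rw [e3, Real.log_one]
  have h1 : 0 ≤ C.dpp * ((Tr.N (Tr.leaf l) : ℝ) + Tr.L G (Tr.leaf l)) := by positivity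
  have h2 : 0 ≤ C.c * (Tr.q (Tr.leaf l) : ℝ) := by positivity
  have h3 : C.bD * 0 + C.ell * ((0 : ℕ) : ℝ) = 0 := by norm_num
  nlinarith

theorem ptreee_sum_pow (h : Tr V) :
    ∑ R : Finset (Option (Tr.Dv h)), (34 : ℝ) ^ R.card = 35 ^ Tr.q h := by
  have := Fintype.sum_pow_mul_eq_add_pow (Option (Tr.Dv h)) (34 : ℝ) 1
  simp only [one_pow, mul_one] at this
  rw [this, Fintype.card_option, Tr.card_Dv]
  norm_num

/-- probability that the joint condition fails (while the single one holds) -/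
theorem JC_prob [Countable V] (G : Geo V) (C : CC) (Am Cb : ℝ) (hAm : 1 ≤ Am)
    (hlg : 0 ≤ C.lg) (hdpp : 0 ≤ C.dpp)
    (hLS : LS G C.ell C.dpp) (hSB : SB G C.bD Cb) (hcc : 280 * Am * Real.exp (-C.c) ≤ 1)
    (be : V → ℝ) (hb : ∀ j, 0 ≤ be j)
    (hs : Summable be) (c : V → (V → ℝ) → ℝ) (lip : V → ℝ) (hl : ∀ j, 0 ≤ lip j)
    (hls : Summable lip) (hsm : (∑' j, lip j) * (∑' j, be j) ≤ 1 / 2)
    (hc : ∀ j w w', |c j w - c j w'| ≤ lip j * DD be w w') :
    PP V {w | DC G C (fun j => w j + c j w) ∧ ¬ JC G C Am (fun j => w j + c j w)} ≤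
      ENNReal.ofReal (Cb * Real.exp (-C.lg)) := by
  classical
  have hc0 : 0 ≤ C.c := by
    by_contra hneg
    push Not at hneg
    have : 1 < Real.exp (-C.c) := by
      rw [Real.one_lt_exp_iff]
      linarith
    nlinarith
  set bad : (h : Tr V) → Finset (Option (Tr.Dv h)) → Set (V → ℝ) := fun h R =>
    {w | ((∀ y ∈ R, ((Tr.ky h y).sum fun v x => (x : ℝ) * (w v + c v w)) ≠ 0) ∧
      Real.exp (jcost G C h) <
        ∏ y ∈ R, max 1 |(Tr.ky h y).sum fun v x => (x : ℝ) * (w v + c v w)|⁻¹)} with hbad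
  set Q : (h : Tr V) → Finset (Option (Tr.Dv h)) → Prop := fun h R =>
    ((Tr.A h).Nonempty ∧ Tr.conn h ∧ ((Tr.A h).card : ℝ) ≤ Am) ∧
      LinearIndependent ℝ (fun y : R => Tr.rv (Tr.ky h y)) with hQ
  have hsub : {w | DC G C (fun j => w j + c j w) ∧ ¬ JC G C Am (fun j => w j + c j w)} ⊆
      ⋃ h : Tr V, ⋃ R : Finset (Option (Tr.Dv h)), {w | Q h R ∧ w ∈ bad h R} := by
    rintro w ⟨hD, hJ⟩
    unfold JC at hJ
    push Not at hJ
    obtain ⟨h, hcn, hcard, R, hR, hlt⟩ := hJ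
    have hne : (Tr.A h).Nonempty := by
      by_contra hA
      exact absurd hlt (not_lt.2 (ptreee_empty G C hlg hdpp hc0 _ h hcn hA R hR))
    simp only [Set.mem_iUnion]
    refine ⟨h, R, ⟨⟨hne, hcn, hcard⟩, hR⟩, ?_, hlt⟩
    intro y hy h0
    have hk : Tr.ky h y ≠ 0 := by
      intro hk
      apply hR.ne_zero ⟨y, hy⟩
      funext i
      simp only [hk, Tr.rv]
      simp
    have h1 := hD (Tr.ky h y) hk
    have h2 : dot (Tr.ky h y) (fun j => w j + c j w) = 0 := h0
    rw [h2, abs_zero] at h1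
    exact absurd h1 (not_le.2 (Real.exp_pos _))
  refine (measure_mono hsub).trans ((measure_iUnion_le _).trans ?_)
  refine le_trans ?_ (tree_sum_all G C Am Cb hAm hLS hSB hcc)
  refine ENNReal.tsum_le_tsum fun h => ?_
  refine (measure_iUnion_le _).trans ?_
  split_ifs with hcond
  · have hR : ∀ R : Finset (Option (Tr.Dv h)), PP V {w | Q h R ∧ w ∈ bad h R} ≤
        ENNReal.ofReal (34 ^ R.card * Real.exp (-(jcost G C h) / 2)) := by
      intro R
      by_cases hli : LinearIndependent ℝ (fun y : R => Tr.rv (Tr.ky h y))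
      · refine (measure_mono fun w hw => hw.2).trans ?_
        exact tail be hb hs c lip hl hls hsm hc R (Tr.ky h) hli (jcost G C h)
      · have : {w | Q h R ∧ w ∈ bad h R} = ∅ := by
          rw [Set.eq_empty_iff_forall_notMem]
          rintro w ⟨hw, _⟩
          exact hli hw.2
        rw [this, measure_empty]
        exact bot_le
    refine (ENNReal.tsum_le_tsum hR).trans (le_of_eq ?_)
    rw [tsum_fintype, ← ENNReal.ofReal_sum_of_nonneg fun R _ => by positivity,
      ← Finset.sum_mul, ptreee_sum_pow]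
  · refine le_of_eq ?_
    refine (tsum_congr fun R => ?_).trans tsum_zero
    have : {w | Q h R ∧ w ∈ bad h R} = ∅ := by
      rw [Set.eq_empty_iff_forall_notMem]
      rintro w ⟨hw, _⟩
      exact hcond hw.1
    rw [this, measure_empty]

end KX
end
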