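import Pool.Agent.Lib.MP_73c19a_an.Mg.G017
import Pool.Agent.Lib.MP_73c19a_an.Mg.G014
import Pool.Agent.Lib.MP_73c19a_an.Mg.G018
import Pool.Agent.Lib.MP_73c19a_an.Mg.G015
import Pool.Agent.Lib.MP_73c19a_an.Mg.G013
import Pool.Agent.Lib.MP_73c19a_an.Run2b
import Pool.Agent.Lib.MP_73c19a_an.Mg.G012
import Pool.Agent.Lib.MP_73c19a_an.Mg.G011
import Pool.Agent.Lib.MP_73c19a_an.Mg.G022
import Pool.Agent.Lib.MP_73c19a_an.Mg.G023
import Pool.Agent.Lib.MP_73c19a_an.Mg.G001
import Pool.Agent.Lib.MP_73c19a_an.Mg.G026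

section

/-!
# One block of the scheme: the invariants
-/

set_option autoImplicit false

namespace KX

open scoped ENNReal

variable {V : Type} [DecidableEq V]

omit [DecidableEq V] in
theorem cP_eq_zero_run2c (P0 : Lbl V → ℂ) (h : Tr V) (h0 : chr (fun _ => (1 : ℝ)) h = 0) :
    cP P0 h = 0 := by
  induction h with
  | leaf l => simp [chr] at h0
  | node j f p ihf ihp =>
    simp only [chr, mul_eq_zero, abs_eq_zero, Int.cast_eq_zero] at h0
    rcases h0 with (h0 | h0) | h0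
    · simp [cP, h0]
    · simp [cP, ihf h0]
    · simp [cP, ihp h0]

theorem v_pos_run2c (G : Geo V) (be : V → ℝ) (bB : ℝ) (K : Blk V) (hK : K.OK G be bB) (j : V) :
    0 < K.v j := (Real.exp_pos _).trans_le (hK.v1 j)

theorem lb_nonneg_run2c (G : Geo V) (be : V → ℝ) (bB : ℝ) (K : Blk V) (hK : K.OK G be bB) (t : ℕ)
    (j : V) : 0 ≤ K.lb t j := by
  have := v_pos_run2c G be bB K hK j
  unfold Blk.lb
  positivity

/-- the shift at time `s`, given the bounds at time `s` -/
theorem shift_of_RB_run2c (G : Geo V) (be : V → ℝ) (bB : ℝ) (K : Blk V) (hK : K.OK G be bB)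
    (S : RS V) (P0 : Lbl V → (V → ℝ) → ℂ) (b : Lbl V → ℝ) (l0 : V → ℝ)
    (hS : Start G be bB K S P0 b l0) (s : ℕ) (hs : s ≤ 2 * K.L)
    (hA : ∀ h, RB be (run G be K S s).Gd ((run G be K S s).u h) (bt G bB K b s h)) :
    ∀ w ∈ (run G be K S (s + 1)).Gd, ∀ j,
      ((run G be K S (s + 1)).c j w - (run G be K S s).c j w : ℂ) =
        shc G K.P s (run G be K S s).u j w ∧
      |(run G be K S (s + 1)).c j w - (run G be K S s).c j w| ≤ K.lb s j := by
  intro w hw j
  have hbe0 : ∀ j, 0 ≤ be j := fun j => (hK.be0 j).le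
  obtain ⟨hsum, hle⟩ := sum_shift G be bB K hK b hS.b0 hS.nrm s hs j
  have hRB : RB be (run G be K S s).Gd (fun w => shc G K.P s (run G be K S s).u j w)
      (∑' h, rst (fun h => Tr.SS G K.P s h ∧ Tr.n h = Finsupp.single j 1)
        (bt G bB K b s) h) := by
    refine RB.tsum hbe0 (f := fun h w => rst (fun h => Tr.SS G K.P s h ∧
      Tr.n h = Finsupp.single j 1) (fun h => (run G be K S s).u h w) h) ?_ hsum
    intro h
    by_cases hc : Tr.SS G K.P s h ∧ Tr.n h = Finsupp.single j 1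
    · simp only [rst, if_pos hc]
      exact hA h
    · simp only [rst, if_neg hc]
      have := RB.const (be := be) (Gd := (run G be K S s).Gd) (0 : ℂ)
      rwa [norm_zero] at this
  have hRB' := (hRB.mono hle).subset (Gd' := (run G be K S (s + 1)).Gd)
    (run_Gd_anti G be K S (Nat.le_succ s))
  have hlb := lb_nonneg_run2c G be bB K hK s j
  have hre : extL be (run G be K S (s + 1)).Gd (K.lb s j)
      (fun w => (shc G K.P s (run G be K S s).u j w).re) w =
      (shc G K.P s (run G be K S s).u j w).re := by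
    refine extL_eq be hbe0 hK.bes _ _ hlb _ ?_ w hw
    intro w1 hw1 w2 hw2
    rw [← Complex.sub_re]
    exact (Complex.abs_re_le_norm _).trans (hRB'.lip_le hbe0 hw1 hw2)
  have hdiff : (run G be K S (s + 1)).c j w - (run G be K S s).c j w =
      (shc G K.P s (run G be K S s).u j w).re := by
    have h1 : (run G be K S (s + 1)).c j w = (run G be K S s).c j w +
      extL be (run G be K S (s + 1)).Gd (K.lb s j)
      (fun w => (shc G K.P s (run G be K S s).u j w).re) w := rfl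
    rw [h1, hre]; ring
  constructor
  · rw [← Complex.ofReal_sub, hdiff]
    exact shc_real G be bB K S P0 b l0 hS s j w
  · rw [hdiff]
    exact (Complex.abs_re_le_norm _).trans (hRB'.norm_le hw)

/-- the bounds at time `t`, given the moves before -/
theorem RB_of_shift_run2c (G : Geo V) (be : V → ℝ) (bB : ℝ) (K : Blk V) (hK : K.OK G be bB)
    (S : RS V) (P0 : Lbl V → (V → ℝ) → ℂ) (b : Lbl V → ℝ) (l0 : V → ℝ)
    (hS : Start G be bB K S P0 b l0) (t : ℕ) (ht : t ≤ 2 * K.L)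
    (hB : ∀ s, s < t → ∀ w ∈ (run G be K S (s + 1)).Gd, ∀ j,
      |(run G be K S (s + 1)).c j w - (run G be K S s).c j w| ≤ K.lb s j) (h : Tr V) :
    RB be (run G be K S t).Gd ((run G be K S t).u h) (bt G bB K b t h) := by
  have hbe0 : ∀ j, 0 ≤ be j := fun j => (hK.be0 j).le
  have hzero : (∀ w ∈ (run G be K S t).Gd, (run G be K S t).u h w = 0) →
      RB be (run G be K S t).Gd ((run G be K S t).u h) (bt G bB K b t h) := by
    intro h0
    have h1 := RB.const (be := be) (Gd := (run G be K S t).Gd) (0 : ℂ)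
    rw [norm_zero] at h1
    exact (h1.congr fun w hw => (h0 w hw).symm).mono (bt_nonneg G bB K b hS.b0 t h)
  have hu : ∀ w, (run G be K S t).u h w = (cc G K.P t h : ℂ) * cP (fun l => P0 l w) h *
      Tr.YY G K.P (fun s => frq (run G be K S s).c w) h :=
    fun w => run_u G be bB K S P0 b l0 hS t h w
  by_cases hcc : cc G K.P t h * chr (fun _ => (1 : ℝ)) h = 0
  · apply hzero
    intro w _
    rcases mul_eq_zero.1 hcc with h0 | h0
    · rw [hu, h0]; simp
    · rw [hu, cP_eq_zero_run2c _ h h0]; simp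
  obtain ⟨hgood, hbirth, -⟩ := cc_support G K.P t h hcc
  -- frequencies
  have hcond : ∀ s, s < t → ∀ w ∈ (run G be K S t).Gd,
      DC G K.C (frq (run G be K S s).c w) ∧ JC G K.C K.Am (frq (run G be K S s).c w) :=
    fun s hs w hw => run_cond G be K S s t hs w hw
  have hCA : ∀ h : Tr V, Tr.tau G K.P h < 2 * K.L → ((Tr.A h).card : ℝ) ≤ K.Am := by
    intro h hh
    have h1 := Tr.card_A_le G K.P h
    have h2 := Tr.win_lt G K.P h
    have h3 : Tr.win G K.P h + 1 ≤ K.L := by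
      unfold Tr.tau at hh
      omega
    have h4 : (3 / 2 : ℝ) ^ (Tr.win G K.P h + 1) ≤ (3 / 2 : ℝ) ^ K.L :=
      pow_le_pow_right₀ (by norm_num) h3
    have h5 : Tr.mass G K.P h ≤ K.P.mu * (3 / 2 : ℝ) ^ K.L :=
      h2.le.trans (mul_le_mul_of_nonneg_left h4 K.P.mu_pos.le)
    have h6 : 0 ≤ (K.P.B.card / K.P.mu + 1 / K.P.la : ℝ) := by
      have := K.P.mu_pos
      have := K.P.la_pos
      positivity
    exact (h1.trans (mul_le_mul_of_nonneg_left h5 h6)).trans hK.Am1
  have hmove : ∀ w ∈ (run G be K S t).Gd, ∀ s, s + 1 ≤ t → ∀ j,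
      |frq (run G be K S (s + 1)).c w j - frq (run G be K S s).c w j| ≤
        2 * (G.br j) ^ (-K.C.bD) *
        Real.exp (-(1 / 2) * (K.P.mu * (3 / 2 : ℝ) ^ (s / 2)) - (3 / 8) * K.P.mu) := by
    intro w hw s hs j
    have h1 := hB s hs w (run_Gd_anti G be K S hs hw) j
    have h2 : frq (run G be K S (s + 1)).c w j - frq (run G be K S s).c w j =
        (run G be K S (s + 1)).c j w - (run G be K S s).c j w := by
      unfold frq; ring
    rw [h2]
    refine h1.trans ?_
    unfold Blk.lb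
    refine mul_le_mul_of_nonneg_right ?_ (Real.exp_pos _).le
    refine mul_le_mul_of_nonneg_left ?_ (by norm_num)
    have h3 : 0 < G.br j := lt_of_lt_of_le one_pos (G.one_le_br j)
    rw [Real.rpow_neg h3.le]
    exact inv_anti₀ (Real.rpow_pos_of_pos h3 _) (hK.vD j)
  have hhat : ∀ h : Tr V, Tr.Good G K.P h → Tr.birth G K.P h ≤ t → ∀ w ∈ (run G be K S t).Gd,
      Tr.hatY G K.P (fun s => frq (run G be K S s).c w) h ≤
        Real.exp (4 * K.C.th * Tr.mass G K.P h +
        Tr.mg (fun j => (K.C.bD + K.C.bb + K.C.bq) * Real.log (G.br j)) h) := by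
    intro h hg hb w hw
    refine Tr.hatY_le G K.P K.C (2 * K.L) hK.C K.Am _ t ht
      (fun s hs => (hcond s hs w hw).1) (fun s hs => (hcond s hs w hw).2) hCA ?_ h hg hb
    intro s hs f hgf hdf hkf htf
    exact Tr.drift G K.P K.C (2 * K.L) hK.C (fun s => frq (run G be K S s).c w) t ht
      (hmove w hw) hK.C11 (by linarith [hK.th1]) s hs.le f hgf hdf hkf htf (by omega)
      (hcond s hs w hw).1
  have hne : ∀ s, s < t → ∀ w ∈ (run G be K S t).Gd, ∀ k : V →₀ ℤ, k ≠ 0 →
      dot k (frq (run G be K S s).c w) ≠ 0 := by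
    intro s hs w hw k hk h0
    have h1 := (hcond s hs w hw).1 k hk
    rw [h0, abs_zero] at h1
    exact absurd h1 (not_le.2 (Real.exp_pos _))
  have hom : ∀ s, s < t → ∀ w ∈ (run G be K S t).Gd, ∀ w' ∈ (run G be K S t).Gd, ∀ j,
      |frq (run G be K S s).c w j - frq (run G be K S s).c w' j| ≤
        |w j - w' j| + (be j)⁻¹ * DD be w w' := by
    intro s hs w _ w' _ j
    have h1 := run_lip G be bB K hK S P0 b l0 hS s j w w'
    have h2 : frq (run G be K S s).c w j - frq (run G be K S s).c w' j =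
        (w j - w' j) + ((run G be K S s).c j w - (run G be K S s).c j w') := by
      unfold frq; ring
    rw [h2]
    refine (abs_add_le _ _).trans ?_
    have h3 : l0 j + ∑ s ∈ Finset.range s, K.lb s j ≤ (be j)⁻¹ := by
      refine le_trans ?_ (hS.lsm j)
      have h4 : ∑ s ∈ Finset.range s, K.lb s j ≤ ∑ s ∈ Finset.range (2 * K.L), K.lb s j := by
        refine Finset.sum_le_sum_of_subset_of_nonneg ?_ fun i _ _ =>
          lb_nonneg_run2c G be bB K hK i j
        intro i hi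
        rw [Finset.mem_range] at hi ⊢
        omega
      linarith
    have h5 := mul_le_mul_of_nonneg_right h3 (DD_nonneg be hbe0 w w')
    linarith
  have hYY := Tr.RB_YY G K.P K.C (2 * K.L) hK.C be hK.be0 hK.bes bB hK.bB0 hK.br hK.C12
    (run G be K S t).Gd (fun s w => frq (run G be K S s).c w) t ht hhat hne hom h hgood hbirth
  have hcP := RB_cP be hbe0 (run G be K S t).Gd P0 b
    (fun l => (hS.rb l).subset (run_Gd_anti G be K S (Nat.zero_le t))) h
  have hmul := RB.mul hbe0 (RB.mul hbe0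
    (RB.const (be := be) (Gd := (run G be K S t).Gd) (cc G K.P t h : ℂ)) hcP) hYY
  rw [Complex.norm_real, Real.norm_eq_abs] at hmul
  exact hmul.congr fun w _ => (hu w).symm

/-- The main induction. `P(t)`: for all `h`, `RB` on `(run t).Gd` with the bound `bt`, and for all
`s < t` the shift at time `s` is the true sum on `(run (s+1)).Gd`. Strong induction on `t`: the
moves of the frequencies at times `s < t` are bounded by `K.lb s j` (`sum_shift`, `RB.tsum`), so
`drift`, `hatY_le`, `RB_YY` apply, and `run_u`, `RB_cP` give the bound at time `t`; then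
`sum_shift`, `RB.tsum`, `extL_eq` give the shift at time `t`. -/
theorem run_inv (G : Geo V) (be : V → ℝ) (bB : ℝ) (K : Blk V) (hK : K.OK G be bB) (S : RS V)
    (P0 : Lbl V → (V → ℝ) → ℂ) (b : Lbl V → ℝ) (l0 : V → ℝ) (hS : Start G be bB K S P0 b l0)
    (t : ℕ) (ht : t ≤ 2 * K.L) :
    (∀ h, RB be (run G be K S t).Gd ((run G be K S t).u h) (bt G bB K b t h)) ∧
    ∀ s, s < t → ∀ w ∈ (run G be K S (s + 1)).Gd, ∀ j,
      ((run G be K S (s + 1)).c j w - (run G be K S s).c j w : ℂ) =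
        shc G K.P s (run G be K S s).u j w ∧
      |(run G be K S (s + 1)).c j w - (run G be K S s).c j w| ≤ K.lb s j := by
  induction t using Nat.strong_induction_on with
  | _ t ih =>
    have hB : ∀ s, s < t → ∀ w ∈ (run G be K S (s + 1)).Gd, ∀ j,
        ((run G be K S (s + 1)).c j w - (run G be K S s).c j w : ℂ) =
          shc G K.P s (run G be K S s).u j w ∧
        |(run G be K S (s + 1)).c j w - (run G be K S s).c j w| ≤ K.lb s j :=
      fun s hs => shift_of_RB_run2c G be bB K hK S P0 b l0 hS s (by omega)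
        (ih s hs (by omega)).1
    exact ⟨RB_of_shift_run2c G be bB K hK S P0 b l0 hS t ht
      fun s hs w hw j => (hB s hs w hw j).2, hB⟩

end KX
end

section

/-!
# The transformation of one block on formal series
-/

set_option autoImplicit false

namespace KX

open scoped ENNReal

variable {V : Type} [DecidableEq V]

/-- formal perturbation at time `t` of the block, for the parameter `w` -/
noncomputable def runp (G : Geo V) (be : V → ℝ) (K : Blk V) (S : RS V) (w : V → ℝ) (t : ℕ) :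
    Mon V → ℂ := pt fun h => (run G be K S t).u h w

/-- frequency at time `t` -/
noncomputable def runw (G : Geo V) (be : V → ℝ) (K : Blk V) (S : RS V) (w : V → ℝ) (t : ℕ) : V → ℝ :=
  frq (run G be K S t).c w

/-- generator at time `t` on trees -/
noncomputable def rung (G : Geo V) (be : V → ℝ) (K : Blk V) (S : RS V) (w : V → ℝ) (t : ℕ) :
    Tr V → ℂ := gen G K.P t (runw G be K S w t) fun h => (run G be K S t).u h w

theorem mg_zero' (h : Tr V) : Tr.mg (fun _ => (0 : ℝ)) h = 0 := by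
  induction h with
  | leaf l => rfl
  | node j f p hf hp => simp [Tr.mg, hf, hp]

theorem one_le_v (G : Geo V) (be : V → ℝ) (bB : ℝ) (K : Blk V) (hK : K.OK G be bB) (j : V) :
    1 ≤ K.v j := by
  refine le_trans ?_ (hK.vD j)
  exact Real.one_le_rpow (G.one_le_br j) hK.C.bD0

theorem one_le_prodv {v : V → ℝ} (hv : ∀ j, 1 ≤ v j) (A : Finset V) : 1 ≤ ∏ j ∈ A, v j := by
  induction A using Finset.induction_on with
  | empty => simp
  | insert a s ha ih =>
    rw [Finset.prod_insert ha]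
    exact one_le_mul_of_one_le_of_one_le (hv a) ih

/-- the real number behind `wT` -/
noncomputable def wTr (G : Geo V) (rho s : ℝ) (h : Tr V) : ℝ :=
  rho ^ Tr.deg h * amn G.a (Tr.n h) * Real.exp (s * Tr.N h) * G.ainv (Tr.A h)

theorem wTr_nonneg (G : Geo V) (rho s : ℝ) (hr : 0 < rho) (h : Tr V) : 0 ≤ wTr G rho s h := by
  unfold wTr
  have h1 : 0 ≤ amn G.a (Tr.n h) := Finset.prod_nonneg fun j _ => pow_nonneg (G.a_pos j).le _
  have h2 : 0 ≤ G.ainv (Tr.A h) := zero_le_one.trans (G.one_le_ainv _)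
  positivity

/-- the weight `wT`, multiplied by the cost of the divisor, is bounded by the weight of the block -/
theorem wTr_le (G : Geo V) (be : V → ℝ) (bB : ℝ) (K : Blk V) (hK : K.OK G be bB) (h : Tr V)
    (x : ℝ) (hx : x ≤ ∏ j ∈ Tr.A h, K.v j) (hx0 : 0 ≤ x) :
    wTr G K.rho K.sg h * x ≤ K.base G h := by
  have h0 := wTr_nonneg G K.rho K.sg hK.rho0 h
  have h1 : K.base G h = wTr G K.rho K.sg h * (∏ j ∈ Tr.A h, K.v j) *
      Real.exp (K.kp * Tr.L G h) := by
    unfold Blk.base wt wTr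
    rw [mg_zero', Real.exp_add, zero_mul, zero_add, Real.exp_zero]
    change _ * amn G.a (Tr.n h) * _ * _ * _ * _ = _
    ring
  have h2 : 1 ≤ Real.exp (K.kp * Tr.L G h) :=
    Real.one_le_exp (mul_nonneg hK.kp0 (Nat.cast_nonneg _))
  rw [h1]
  calc wTr G K.rho K.sg h * x ≤ wTr G K.rho K.sg h * (∏ j ∈ Tr.A h, K.v j) :=
        mul_le_mul_of_nonneg_left hx h0
    _ ≤ _ := le_mul_of_one_le_right (mul_nonneg h0 (hx0.trans hx)) h2

/-- the cost of a divisor -/
theorem dcost_le (G : Geo V) (be : V → ℝ) (bB : ℝ) (K : Blk V) (hK : K.OK G be bB) (h : Tr V)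
    (hc : Tr.conn h) (hk : Tr.k h ≠ 0) :
    Real.exp (dcost G K.C (Tr.k h)) ≤
      (∏ j ∈ Tr.A h, K.v j) * Real.exp ((1 / 2) * Tr.mass G K.P h) := by
  have hC := hK.C
  have hv := one_le_v G be bB K hK
  have hne : (Tr.k h).support.Nonempty := by
    rw [Finset.nonempty_iff_ne_empty]
    intro h1
    exact hk (Finsupp.support_eq_empty.1 h1)
  obtain ⟨i, hi, hbr⟩ := G.exists_brm hne
  have hiA : i ∈ Tr.A h := Tr.k_supp h hi
  -- the location
  have e1 : Real.exp (K.C.bD * Real.log (G.brm (Tr.k h).support)) ≤ ∏ j ∈ Tr.A h, K.v j := by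
    rw [hbr]
    have h2 : Real.exp (K.C.bD * Real.log (G.br i)) = G.br i ^ K.C.bD := by
      rw [Real.rpow_def_of_pos (zero_lt_one.trans_le (G.one_le_br i)), mul_comm]
    rw [h2]
    refine (hK.vD i).trans ?_
    rw [← Finset.mul_prod_erase _ _ hiA]
    refine le_mul_of_one_le_right (zero_le_one.trans (hv i)) ?_
    exact one_le_prodv hv _
  -- the mass
  have hmass : 0 ≤ Tr.mass G K.P h := K.P.mu_pos.le.trans (Tr.mu_le_mass G K.P h)
  have hq : (1 : ℝ) ≤ Tr.q h := by exact_mod_cast Tr.one_le_q h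
  have hcard : ((Tr.k h).support.card : ℝ) ≤ K.P.B.card + Tr.o K.P.B h := by
    have h3 : (Tr.k h).support ⊆ K.P.B ∪ (Tr.A h \ K.P.B) := by
      intro j hj
      have := Tr.k_supp h hj
      by_cases hB : j ∈ K.P.B
      · exact Finset.mem_union_left _ hB
      · exact Finset.mem_union_right _ (Finset.mem_sdiff.2 ⟨this, hB⟩)
    have h4 := (Finset.card_le_card h3).trans (Finset.card_union_le _ _)
    have h5 := Tr.card_sdiff_le_o K.P.B h
    exact_mod_cast h4.trans (Nat.add_le_add_left h5 _)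
  have hLam : ((G.Lam (Tr.k h).support : ℕ) : ℝ) ≤ Tr.L G h := by
    exact_mod_cast (G.Lam_mono (Tr.k_supp h)).trans (Tr.Lam_le_L G h hc)
  have hkab : ((kab (Tr.k h) : ℕ) : ℝ) ≤ Tr.N h := by
    exact_mod_cast (Nat.le_add_left _ _).trans (Tr.nk_le_N h)
  have hell : K.C.ell ≤ K.C.th * K.P.la := by
    have h6 := hC.C6
    have hg : (1 : ℝ) ≤ K.C.g := by exact_mod_cast hC.g1
    have h7 : K.C.ell * 1 ≤ K.C.ell * (8 * K.C.g) :=
      mul_le_mul_of_nonneg_left (by linarith) hC.ell0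
    linarith
  have hdp : K.C.dp ≤ K.C.th * K.P.de := by
    have h6 := hC.C3
    have hT : (1 : ℝ) ≤ (2 * K.L : ℕ) := by
      have := hK.L1
      exact_mod_cast (by omega : 1 ≤ 2 * K.L)
    have h8 : 0 ≤ K.C.bD * K.C.e1 := mul_nonneg hC.bD0 hC.e0.le
    have h7 : 1 * (K.C.bD * K.C.e1 + K.C.dp) ≤ (2 * K.L : ℕ) * (K.C.bD * K.C.e1 + K.C.dp) :=
      mul_le_mul_of_nonneg_right hT (add_nonneg h8 hC.dp0)
    linarith
  have hlg : K.C.lg + K.C.ell * K.P.B.card ≤ K.C.th * K.P.mu := by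
    have h6 := hC.C1
    have h7 : 0 ≤ K.C.bD * Real.log (1 / K.C.e1) := by
      refine mul_nonneg hC.bD0 (Real.log_nonneg ?_)
      rw [le_div_iff₀ hC.e0]
      linarith [hC.e1]
    linarith
  have e2 : K.C.lg + K.C.ell * (Tr.k h).support.card +
      K.C.dp * (G.Lam (Tr.k h).support + kab (Tr.k h)) ≤ (1 / 2) * Tr.mass G K.P h := by
    have hm : K.C.th * Tr.mass G K.P h ≤ (1 / 2) * Tr.mass G K.P h :=
      mul_le_mul_of_nonneg_right (by linarith [hK.th1]) hmass
    refine le_trans ?_ hm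
    have m1 : K.C.ell * (Tr.k h).support.card ≤ K.C.ell * (K.P.B.card + Tr.o K.P.B h) :=
      mul_le_mul_of_nonneg_left hcard hC.ell0
    have m2 : K.C.ell * (Tr.o K.P.B h : ℝ) ≤ K.C.th * K.P.la * Tr.o K.P.B h :=
      mul_le_mul_of_nonneg_right hell (Nat.cast_nonneg _)
    have m3 : K.C.dp * ((G.Lam (Tr.k h).support : ℝ) + kab (Tr.k h)) ≤
        K.C.th * K.P.de * (Tr.N h + Tr.L G h) := by
      refine mul_le_mul hdp (by linarith) (by positivity) ?_
      exact mul_nonneg hC.th0 K.P.de_pos.le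
    have m4 : K.C.th * K.P.mu ≤ K.C.th * K.P.mu * Tr.q h :=
      le_mul_of_one_le_right (mul_nonneg hC.th0 K.P.mu_pos.le) hq
    unfold Tr.mass
    have m5 : K.C.th * (K.P.mu * Tr.q h + K.P.la * Tr.o K.P.B h +
        K.P.de * (Tr.N h + Tr.L G h)) = K.C.th * K.P.mu * Tr.q h +
        K.C.th * K.P.la * Tr.o K.P.B h + K.C.th * K.P.de * (Tr.N h + Tr.L G h) := by ring
    rw [m5]
    linarith
  have e3 : dcost G K.C (Tr.k h) = K.C.bD * Real.log (G.brm (Tr.k h).support) +
      (K.C.lg + K.C.ell * (Tr.k h).support.card +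
        K.C.dp * (G.Lam (Tr.k h).support + kab (Tr.k h))) := by
    unfold dcost
    ring
  rw [e3, Real.exp_add]
  exact mul_le_mul e1 (Real.exp_le_exp.2 e2) (Real.exp_pos _).le
    (Finset.prod_nonneg fun j _ => zero_le_one.trans (hv j))

/-- sums over trees of the perturbation at the scale of the block -/
theorem sum_u_le (G : Geo V) (be : V → ℝ) (bB : ℝ) (K : Blk V) (hK : K.OK G be bB) (S : RS V)
    (P0 : Lbl V → (V → ℝ) → ℂ) (b : Lbl V → ℝ) (l0 : V → ℝ) (hS : Start G be bB K S P0 b l0)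
    (t : ℕ) (ht : t ≤ 2 * K.L) (w : V → ℝ) (hw : w ∈ (run G be K S t).Gd) :
    ∑' h, ‖(run G be K S t).u h w‖ₑ * wT G K.rho K.sg h ≤
      ENNReal.ofReal (2 * K.rho * Real.exp (-(3 / 8) * K.P.mu)) := by
  have hinv := (run_inv G be bB K hK S P0 b l0 hS t ht).1
  refine le_trans (ENNReal.tsum_le_tsum fun h => ?_) (sum_bt G be bB K hK b hS.b0 hS.nrm t ht)
  have h1 : ‖(run G be K S t).u h w‖ ≤ bt G bB K b t h := (hinv h).norm_le hw
  have h0 := wTr_nonneg G K.rho K.sg hK.rho0 h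
  have hv := one_le_v G be bB K hK
  have h2 : wTr G K.rho K.sg h * 1 ≤ K.base G h :=
    wTr_le G be bB K hK h 1 (one_le_prodv hv _) zero_le_one
  have hmass : 0 ≤ Tr.mass G K.P h := K.P.mu_pos.le.trans (Tr.mu_le_mass G K.P h)
  have h3 : (1 : ℝ) ≤ Real.exp ((1 / 2) * Tr.mass G K.P h) :=
    Real.one_le_exp (by linarith)
  have hbt : 0 ≤ bt G bB K b t h := (norm_nonneg _).trans h1
  change ‖(run G be K S t).u h w‖ₑ * ENNReal.ofReal (wTr G K.rho K.sg h) ≤ _
  rw [← ofReal_norm, ← ENNReal.ofReal_mul (norm_nonneg _)]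
  refine ENNReal.ofReal_le_ofReal ?_
  calc ‖(run G be K S t).u h w‖ * wTr G K.rho K.sg h ≤
        bt G bB K b t h * (wTr G K.rho K.sg h * 1) := by
        rw [mul_one]
        exact mul_le_mul_of_nonneg_right h1 h0
    _ ≤ bt G bB K b t h * K.base G h := mul_le_mul_of_nonneg_left h2 hbt
    _ ≤ _ := le_mul_of_one_le_right (mul_nonneg hbt (base_pos G be bB K hK h).le) h3

/-- the same for the generator: the divisor of `h` costs at most
`exp (3 th mass + bD log brm)`, which is absorbed by `exp (mass / 2)` and by the site weights -/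
theorem sum_gen_le (G : Geo V) (be : V → ℝ) (bB : ℝ) (K : Blk V) (hK : K.OK G be bB) (S : RS V)
    (P0 : Lbl V → (V → ℝ) → ℂ) (b : Lbl V → ℝ) (l0 : V → ℝ) (hS : Start G be bB K S P0 b l0)
    (t : ℕ) (ht : t < 2 * K.L) (w : V → ℝ) (hw : w ∈ (run G be K S (t + 1)).Gd) :
    ∑' h, ‖rung G be K S w t h‖ₑ * wT G K.rho K.sg h ≤
      ENNReal.ofReal (2 * K.rho * Real.exp (-(3 / 8) * K.P.mu)) := by
  have hinv := (run_inv G be bB K hK S P0 b l0 hS t ht.le).1
  have hw' : w ∈ (run G be K S t).Gd := run_Gd_anti G be K S (Nat.le_succ t) hw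
  have hD : DC G K.C (frq (run G be K S t).c w) :=
    (run_cond G be K S t (t + 1) (Nat.lt_succ_self t) w hw).1
  refine le_trans (ENNReal.tsum_le_tsum fun h => ?_) (sum_bt G be bB K hK b hS.b0 hS.nrm t ht.le)
  by_cases hE : Tr.EE G K.P t h
  swap
  · have h1 : rung G be K S w t h = 0 := by
      unfold rung gen rst
      rw [if_neg hE]
    rw [h1]
    simp
  by_cases hb : bt G bB K b t h = 0
  · have h1 : ‖(run G be K S t).u h w‖ ≤ bt G bB K b t h := (hinv h).norm_le hw'
    have h2 : (run G be K S t).u h w = 0 := by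
      rw [hb] at h1
      exact norm_le_zero_iff.1 h1
    have h3 : rung G be K S w t h = 0 := by
      unfold rung gen rst
      rw [if_pos hE]
      beta_reduce
      rw [h2, zero_div]
    rw [h3]
    simp
  have h1 : ‖(run G be K S t).u h w‖ ≤ bt G bB K b t h := (hinv h).norm_le hw'
  have hg := (bt_support G bB K b t h hb).1
  have hc := Tr.good_conn G K.P h hg
  have h0 := wTr_nonneg G K.rho K.sg hK.rho0 h
  have hv := one_le_v G be bB K hK
  have hbt : 0 ≤ bt G bB K b t h := (norm_nonneg _).trans h1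
  have hdot := hD (Tr.k h) hE.2.1
  have hdot0 : 0 < |dot (Tr.k h) (runw G be K S w t)| := (Real.exp_pos _).trans_le hdot
  have h4 : ‖rung G be K S w t h‖ ≤ bt G bB K b t h * Real.exp (dcost G K.C (Tr.k h)) := by
    unfold rung gen rst
    rw [if_pos hE]
    beta_reduce
    rw [norm_div, norm_mul, Complex.norm_I, one_mul, Complex.norm_real,
      Real.norm_eq_abs, div_le_iff₀ hdot0]
    have h5 : 1 ≤ Real.exp (dcost G K.C (Tr.k h)) * |dot (Tr.k h) (runw G be K S w t)| := by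
      calc (1 : ℝ) = Real.exp (dcost G K.C (Tr.k h)) * Real.exp (-dcost G K.C (Tr.k h)) := by
            rw [← Real.exp_add, add_neg_cancel, Real.exp_zero]
        _ ≤ _ := mul_le_mul_of_nonneg_left hdot (Real.exp_pos _).le
    calc ‖(run G be K S t).u h w‖ ≤ bt G bB K b t h * 1 := by rw [mul_one]; exact h1
      _ ≤ bt G bB K b t h * (Real.exp (dcost G K.C (Tr.k h)) *
          |dot (Tr.k h) (runw G be K S w t)|) := mul_le_mul_of_nonneg_left h5 hbt
      _ = _ := by ring
  have h6 : wTr G K.rho K.sg h * Real.exp (dcost G K.C (Tr.k h)) ≤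
      K.base G h * Real.exp ((1 / 2) * Tr.mass G K.P h) := by
    calc wTr G K.rho K.sg h * Real.exp (dcost G K.C (Tr.k h)) ≤
          wTr G K.rho K.sg h * ((∏ j ∈ Tr.A h, K.v j) *
            Real.exp ((1 / 2) * Tr.mass G K.P h)) :=
          mul_le_mul_of_nonneg_left (dcost_le G be bB K hK h hc hE.2.1) h0
      _ = wTr G K.rho K.sg h * (∏ j ∈ Tr.A h, K.v j) *
            Real.exp ((1 / 2) * Tr.mass G K.P h) := by ring
      _ ≤ _ := mul_le_mul_of_nonneg_right
          (wTr_le G be bB K hK h _ le_rfl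
            (Finset.prod_nonneg fun j _ => zero_le_one.trans (hv j))) (Real.exp_pos _).le
  change ‖rung G be K S w t h‖ₑ * ENNReal.ofReal (wTr G K.rho K.sg h) ≤ _
  rw [← ofReal_norm, ← ENNReal.ofReal_mul (norm_nonneg _)]
  refine ENNReal.ofReal_le_ofReal ?_
  calc ‖rung G be K S w t h‖ * wTr G K.rho K.sg h ≤
        bt G bB K b t h * Real.exp (dcost G K.C (Tr.k h)) * wTr G K.rho K.sg h :=
        mul_le_mul_of_nonneg_right h4 h0
    _ = bt G bB K b t h * (wTr G K.rho K.sg h * Real.exp (dcost G K.C (Tr.k h))) := by ring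
    _ ≤ bt G bB K b t h * (K.base G h * Real.exp ((1 / 2) * Tr.mass G K.P h)) :=
        mul_le_mul_of_nonneg_left h6 hbt
    _ = _ := by ring

end KX
end

section

/-!
# The transformation of one block on formal series
-/

set_option autoImplicit false

namespace KX

open scoped ENNReal

variable {V : Type} [DecidableEq V]

section bd

theorem bd_lconj (l : Lbl V) : l.conj.conj = l := by
  cases l with
  | mk A n k hn hk => simp [Lbl.conj]

theorem bd_conj_conj (h : Tr V) : Tr.conj (Tr.conj h) = h := by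
  induction h with
  | leaf l => simp only [Tr.conj, bd_lconj]
  | node j f p ihf ihp => simp only [Tr.conj, ihf, ihp]

theorem bd_A (h : Tr V) : Tr.A (Tr.conj h) = Tr.A h := by
  induction h with
  | leaf l => rfl
  | node j f p ihf ihp => simp only [Tr.conj, Tr.A, ihf, ihp]

theorem bd_n (h : Tr V) : Tr.n (Tr.conj h) = Tr.n h := by
  induction h with
  | leaf l => rfl
  | node j f p ihf ihp => simp only [Tr.conj, Tr.n, ihf, ihp]

theorem bd_k (h : Tr V) : Tr.k (Tr.conj h) = -Tr.k h := by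
  induction h with
  | leaf l => rfl
  | node j f p ihf ihp => simp only [Tr.conj, Tr.k, ihf, ihp]; abel

theorem bd_q (h : Tr V) : Tr.q (Tr.conj h) = Tr.q h := by
  induction h with
  | leaf l => rfl
  | node j f p ihf ihp => simp only [Tr.conj, Tr.q, ihf, ihp]

theorem bd_kab (k : V →₀ ℤ) : kab (-k) = kab k := by
  unfold kab
  rw [Finsupp.sum_neg_index]
  · simp
  · intro i; rfl

theorem bd_N (h : Tr V) : Tr.N (Tr.conj h) = Tr.N h := by
  induction h with
  | leaf l => simp only [Tr.conj, Tr.N, Lbl.N, Lbl.conj, bd_kab]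
  | node j f p ihf ihp => simp only [Tr.conj, Tr.N, ihf, ihp]

theorem bd_L (G : Geo V) (h : Tr V) : Tr.L G (Tr.conj h) = Tr.L G h := by
  induction h with
  | leaf l => rfl
  | node j f p ihf ihp => simp only [Tr.conj, Tr.L, ihf, ihp]

theorem bd_o (B : Finset V) (h : Tr V) : Tr.o B (Tr.conj h) = Tr.o B h := by
  induction h with
  | leaf l => rfl
  | node j f p ihf ihp => simp only [Tr.conj, Tr.o, ihf, ihp]

theorem bd_deg (h : Tr V) : Tr.deg (Tr.conj h) = Tr.deg h := by
  unfold Tr.deg; rw [bd_n]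

theorem bd_mass (G : Geo V) (P : BP V) (h : Tr V) :
    Tr.mass G P (Tr.conj h) = Tr.mass G P h := by
  unfold Tr.mass; rw [bd_q, bd_o, bd_N, bd_L]

theorem bd_tau (G : Geo V) (P : BP V) (h : Tr V) :
    Tr.tau G P (Tr.conj h) = Tr.tau G P h := by
  unfold Tr.tau Tr.win; rw [bd_mass, bd_deg]

theorem bd_EE (G : Geo V) (P : BP V) (t : ℕ) (h : Tr V) :
    Tr.EE G P t (Tr.conj h) ↔ Tr.EE G P t h := by
  unfold Tr.EE
  rw [bd_deg, bd_k, bd_tau, neg_ne_zero]

theorem bd_dot_neg (k : V →₀ ℤ) (w : V → ℝ) : dot (-k) w = -dot k w := by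
  unfold dot
  rw [Finsupp.sum_neg_index]
  · simp only [Finsupp.sum, Int.cast_neg, neg_mul, Finset.sum_neg_distrib]
  · intro i; simp

/-- reality of the generator -/
theorem bd_gen_conj (G : Geo V) (P : BP V) (t : ℕ) (w : V → ℝ) (u : Tr V → ℂ)
    (hu : ∀ h, u (Tr.conj h) = (starRingEnd ℂ) (u h)) (h : Tr V) :
    gen G P t w u (Tr.conj h) = (starRingEnd ℂ) (gen G P t w u h) := by
  unfold gen rst
  by_cases hE : Tr.EE G P t h
  · rw [if_pos hE, if_pos ((bd_EE G P t h).2 hE)]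
    change u (Tr.conj h) / (Complex.I * (dot (Tr.k (Tr.conj h)) w : ℂ)) =
      (starRingEnd ℂ) (u h / (Complex.I * (dot (Tr.k h) w : ℂ)))
    rw [hu, bd_k, bd_dot_neg, map_div₀, map_mul, Complex.conj_I, Complex.conj_ofReal]
    congr 1
    push_cast
    ring
  · rw [if_neg hE, if_neg (fun h' => hE ((bd_EE G P t h).1 h')), map_zero]

theorem bd_cj_gen (G : Geo V) (P : BP V) (t : ℕ) (w : V → ℝ) (u : Tr V → ℂ)
    (hu : ∀ h, u (Tr.conj h) = (starRingEnd ℂ) (u h)) :
    cj (pt (gen G P t w u)) = pt (gen G P t w u) :=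
  pt_cj _ ⟨Tr.conj, Tr.conj, bd_conj_conj, bd_conj_conj⟩ bd_n bd_k
    (bd_gen_conj G P t w u hu)

theorem bd_wT_mono (G : Geo V) (rho : ℝ) (hr : 0 < rho) {s s' : ℝ} (h : s ≤ s') (x : Tr V) :
    wT G rho s x ≤ wT G rho s' x := by
  unfold wT
  apply ENNReal.ofReal_le_ofReal
  have h1 : 0 ≤ rho ^ Tr.deg x * amn G.a (Tr.n x) := by
    apply mul_nonneg (pow_nonneg hr.le _)
    unfold amn
    exact Finset.prod_nonneg fun j _ => pow_nonneg (G.a_pos j).le _
  have h2 : 0 ≤ G.ainv (Tr.A x) := zero_le_one.trans (G.one_le_ainv _)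
  have h3 : Real.exp (s * Tr.N x) ≤ Real.exp (s' * Tr.N x) :=
    Real.exp_le_exp.2 (mul_le_mul_of_nonneg_right h (Nat.cast_nonneg _))
  gcongr

theorem bd_sum_mono (G : Geo V) (rho : ℝ) (hr : 0 < rho) {s s' : ℝ} (h : s ≤ s') (u : Tr V → ℂ) :
    ∑' x, ‖u x‖ₑ * wT G rho s x ≤ ∑' x, ‖u x‖ₑ * wT G rho s' x :=
  ENNReal.tsum_le_tsum fun x => by gcongr; exact bd_wT_mono G rho hr h x

theorem bd_rst_le (G : Geo V) (rho s : ℝ) (E : Tr V → Prop) (u : Tr V → ℂ) :
    ∑' x, ‖rst E u x‖ₑ * wT G rho s x ≤ ∑' x, ‖u x‖ₑ * wT G rho s x := by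
  refine ENNReal.tsum_le_tsum fun x => ?_
  unfold rst
  by_cases hE : E x
  · rw [if_pos hE]
  · rw [if_neg hE]; simp

theorem bd_dgr_le_one (n : V →₀ ℕ) (h : dgr n ≤ 1) :
    n = 0 ∨ ∃ j, n = Finsupp.single j 1 := by
  by_cases h0 : n = 0
  · exact Or.inl h0
  · right
    obtain ⟨j, hj⟩ := Finsupp.ne_iff.1 h0
    have hj' : n j ≠ 0 := by simpa using hj
    refine ⟨j, ?_⟩
    have hsum : ∑ i ∈ n.support, n i ≤ 1 := h
    have hjm : j ∈ n.support := Finsupp.mem_support_iff.2 hj'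
    have h1 : n j ≤ 1 := (Finset.single_le_sum (f := fun i => n i) (fun _ _ => Nat.zero_le _) hjm).trans hsum
    ext i
    by_cases hij : i = j
    · subst hij
      rw [Finsupp.single_eq_same]
      omega
    · rw [Finsupp.single_eq_of_ne hij]
      by_contra hi
      have him : i ∈ n.support := Finsupp.mem_support_iff.2 hi
      have h2 : ∑ x ∈ ({i, j} : Finset V), n x ≤ ∑ x ∈ n.support, n x :=
        Finset.sum_le_sum_of_subset (by
          intro x hx
          rcases Finset.mem_insert.1 hx with rfl | hx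
          · exact him
          · rw [Finset.mem_singleton.1 hx]; exact hjm)
      rw [Finset.sum_pair hij] at h2
      omega

open Classical in
theorem bd_term (G : Geo V) (P : BP V) (t : ℕ) (j : V) (u : Tr V → ℂ) (h : Tr V) :
    (if mon h = ((Finsupp.single j 1, 0) : Mon V) then rst (Tr.SS G P t) u h else 0) =
      rst (fun h => Tr.SS G P t h ∧ Tr.n h = Finsupp.single j 1) u h := by
  by_cases hSS : Tr.SS G P t h
  · by_cases hn : Tr.n h = Finsupp.single j 1
    · have hk : Tr.k h = 0 := hSS.2.1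
      have hm : mon h = ((Finsupp.single j 1, 0) : Mon V) := Prod.ext hn hk
      rw [if_pos hm]
      simp [rst, hSS, hn]
    · have hm : mon h ≠ ((Finsupp.single j 1, 0) : Mon V) := fun h' => hn (congrArg Prod.fst h')
      rw [if_neg hm]
      simp [rst, hn]
  · simp [rst, hSS]

open Classical in
theorem bd_term0 (G : Geo V) (P : BP V) (t : ℕ) (u : Tr V → ℂ) (h : Tr V) (m : Mon V)
    (hm : ∀ j, m ≠ (Finsupp.single j 1, 0)) (hm0 : m ≠ 0) :
    (if mon h = m then rst (Tr.SS G P t) u h else 0) = 0 := by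
  by_cases hmh : mon h = m
  · rw [if_pos hmh]
    unfold rst
    by_cases hSS : Tr.SS G P t h
    · exfalso
      have hk : Tr.k h = 0 := hSS.2.1
      rcases bd_dgr_le_one (Tr.n h) hSS.1 with hn | ⟨j, hn⟩
      · exact hm0 (hmh.symm.trans (Prod.ext hn hk))
      · exact hm j (hmh.symm.trans (Prod.ext hn hk))
    · rw [if_neg hSS]
  · rw [if_neg hmh]

end bd

/-- One inner step as a transformation. The generator is measured at the level `K.sg` (at the large
scale `rho0`), the perturbation is only assumed finite at the level `s2`. -/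
theorem step_tsf (G : Geo V) (be : V → ℝ) (bB : ℝ) (K : Blk V) (hK : K.OK G be bB) (S : RS V)
    (P0 : Lbl V → (V → ℝ) → ℂ) (b : Lbl V → ℝ) (l0 : V → ℝ) (hS : Start G be bB K S P0 b l0)
    (t : ℕ) (ht : t < 2 * K.L) (w : V → ℝ) (hw : w ∈ (run G be K S (t + 1)).Gd)
    (rho0 s1 s y z : ℝ) (hr0 : K.rho ≤ rho0) (hs1 : 0 < s1) (hs1' : s1 ≤ K.sg) (hs : 0 ≤ s)
    (hy : 0 < y) (hsy : s + y ≤ s1 / 4) (hz1 : z ≤ 1 / 2)
    (hz : 12 * Real.exp (-(3 / 8) * K.P.mu) / (y * s1) ≤ z)
    (hp : nr (wg G rho0 s1) (runp G be K S w t) ≠ ∞) :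
    Tsf G rho0 (s + y) s (2 * z) (runw G be K S w t) (runp G be K S w t) (runw G be K S w (t + 1))
      (runp G be K S w (t + 1)) (expX (pt (rung G be K S w t))) := by
  have hrho : 0 < K.rho := hK.rho0
  have hrho0 : 0 < rho0 := hrho.trans_le hr0
  have hwt : w ∈ (run G be K S t).Gd := run_Gd_anti G be K S (Nat.le_succ t) hw
  have hcond := run_cond G be K S t (t + 1) (Nat.lt_succ_self t) w hw
  set u : Tr V → ℂ := fun h => (run G be K S t).u h w with hu
  have hdot : ∀ k : V →₀ ℤ, k ≠ 0 → dot k (runw G be K S w t) ≠ 0 := by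
    intro k hk h0
    have h1 := hcond.1 k hk
    have h2 : dot k (frq (run G be K S t).c w) = 0 := h0
    rw [h2, abs_zero] at h1
    exact absurd h1 (not_le.2 (Real.exp_pos _))
  have hE0 : 0 < Real.exp (-(3 / 8) * K.P.mu) := Real.exp_pos _
  have hz0 : 0 ≤ z := le_trans (by positivity) hz
  have hrung : rung G be K S w t = gen G K.P t (runw G be K S w t) u := rfl
  have hrunp : runp G be K S w t = pt u := rfl
  -- bounds of the sums
  have hgen : ∑' h, ‖rung G be K S w t h‖ₑ * wT G K.rho K.sg h ≤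
      ENNReal.ofReal (2 * K.rho * Real.exp (-(3 / 8) * K.P.mu)) :=
    sum_gen_le G be bB K hK S P0 b l0 hS t ht w hw
  have hgen1 : ∑' h, ‖rung G be K S w t h‖ₑ * wT G K.rho s1 h ≤
      ENNReal.ofReal (2 * K.rho * Real.exp (-(3 / 8) * K.P.mu)) :=
    (bd_sum_mono G K.rho hrho hs1' _).trans hgen
  have husum : ∑' h, ‖u h‖ₑ * wT G K.rho K.sg h ≤
      ENNReal.ofReal (2 * K.rho * Real.exp (-(3 / 8) * K.P.mu)) :=
    sum_u_le G be bB K hK S P0 b l0 hS t ht.le w hwt
  have husum1 : ∑' h, ‖u h‖ₑ * wT G K.rho s1 h ≤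
      ENNReal.ofReal (2 * K.rho * Real.exp (-(3 / 8) * K.P.mu)) :=
    (bd_sum_mono G K.rho hrho hs1' _).trans husum
  have hfin : ∀ E : Tr V → Prop, (∀ h, E h → Tr.deg h ≤ 1) →
      nr (wg G rho0 s1) (pt (rst E u)) ≠ ∞ := by
    intro E hE
    have h1 := nr_deg_le G K.rho rho0 s1 hrho hr0 hs1.le (rst E u) (by
      intro h hh
      unfold rst at hh
      by_cases hEh : E h
      · exact hE h hEh
      · rw [if_neg hEh] at hh; exact absurd rfl hh)
    refine ne_top_of_le_ne_top ?_ h1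
    refine ENNReal.mul_ne_top ENNReal.ofReal_ne_top ?_
    exact ne_top_of_le_ne_top ENNReal.ofReal_ne_top
      ((bd_rst_le G K.rho s1 E u).trans husum1)
  -- the generator at the large scale
  have hFn : nr (wg G rho0 s1) (pt (rung G be K S w t)) ≤
      ENNReal.ofReal (2 * rho0 * Real.exp (-(3 / 8) * K.P.mu)) := by
    have h1 := nr_deg_le G K.rho rho0 s1 hrho hr0 hs1.le (rung G be K S w t) (by
      intro h hh
      rw [hrung] at hh
      unfold gen rst at hh
      by_cases hEh : Tr.EE G K.P t h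
      · exact hEh.1
      · rw [if_neg hEh] at hh; exact absurd rfl hh)
    refine h1.trans ((mul_le_mul_right hgen1 _).trans ?_)
    rw [← ENNReal.ofReal_mul (by positivity)]
    apply ENNReal.ofReal_le_ofReal
    apply le_of_eq
    field_simp
  have hF : ENNReal.ofReal (6 / (rho0 * y * s1)) * nr (wg G rho0 s1) (pt (rung G be K S w t)) ≤
      ENNReal.ofReal z := by
    refine (mul_le_mul_right hFn _).trans ?_
    rw [← ENNReal.ofReal_mul (by positivity)]
    apply ENNReal.ofReal_le_ofReal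
    refine le_trans (le_of_eq ?_) hz
    field_simp
    norm_num
  -- homological equation and reality
  have hDw : Dw (runw G be K S w t) (pt (rung G be K S w t)) = pt (rst (Tr.EE G K.P t) u) := by
    rw [hrung]; exact Dw_gen G K.P t (runw G be K S w t) u hdot
  have hcj : cj (pt (rung G be K S w t)) = pt (rung G be K S w t) := by
    rw [hrung]
    exact bd_cj_gen G K.P t (runw G be K S w t) u
      (fun h => run_conj G be bB K S P0 b l0 hS t h w)
  -- the terms moved to the frequency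
  have hq1 : ∀ j, pt (rst (Tr.SS G K.P t) u) (Finsupp.single j 1, 0) =
      (((shc G K.P t (run G be K S t).u j w).re : ℝ) : ℂ) := by
    intro j
    rw [shc_real G be bB K S P0 b l0 hS t j w]
    unfold shc pt push
    apply tsum_congr
    intro h
    convert bd_term G K.P t j u h
  have hq2 : ∀ m : Mon V, (∀ j, m ≠ (Finsupp.single j 1, 0)) → m ≠ 0 →
      pt (rst (Tr.SS G K.P t) u) m = 0 := by
    intro m hm hm0
    unfold pt push
    refine (tsum_congr fun h => ?_).trans tsum_zero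
    convert bd_term0 G K.P t u h m hm hm0
  have hwn : ∀ j, runw G be K S w (t + 1) j = runw G be K S w t j +
      (shc G K.P t (run G be K S t).u j w).re := by
    intro j
    have h1 := ((run_inv G be bB K hK S P0 b l0 hS (t + 1) ht).2 t (Nat.lt_succ_self t) w hw j).1
    have h2 : (((run G be K S (t + 1)).c j w - (run G be K S t).c j w : ℝ) : ℂ) =
        (((shc G K.P t (run G be K S t).u j w).re : ℝ) : ℂ) := by
      rw [shc_real G be bB K S P0 b l0 hS t j w, ← h1]
      push_cast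
      ring
    have h3 := Complex.ofReal_injective h2
    unfold runw frq
    linarith
  -- the new perturbation
  have hpn : runp G be K S w (t + 1) = fun m =>
      tp (pt (rung G be K S w t)) (runp G be K S w t) (pt (rst (Tr.EE G K.P t) u)) m -
        pt (rst (Tr.SS G K.P t) u) m := by
    have h1 := pt_nxt G K.P t (runw G be K S w t) u K.rho 0 (s1 / 2) (1 / 2) hrho le_rfl
      (by positivity) (by norm_num) le_rfl (by
        have e1 : (0 : ℝ) + 2 * (s1 / 2) = s1 := by ring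
        rw [e1, ← hrung]
        refine (mul_le_mul_right hgen1 _).trans ?_
        rw [← ENNReal.ofReal_mul (by positivity)]
        apply ENNReal.ofReal_le_ofReal
        have h2 : y ≤ s1 / 4 := by linarith
        have h3 : 12 * Real.exp (-(3 / 8) * K.P.mu) / (s1 / 4 * s1) ≤ 1 / 2 := by
          refine le_trans ?_ (hz.trans hz1)
          gcongr
        have h4 : 3 / (K.rho * (s1 / 2) ^ 2) * (2 * K.rho * Real.exp (-(3 / 8) * K.P.mu)) =
            (1 / 2) * (12 * Real.exp (-(3 / 8) * K.P.mu) / (s1 / 4 * s1)) := by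
          field_simp
          ring
        rw [h4]
        nlinarith [h3, (by positivity : 0 ≤ 12 * Real.exp (-(3 / 8) * K.P.mu) / (s1 / 4 * s1))])
      (by
        have e1 : (0 : ℝ) + 2 * (s1 / 2) = s1 := by ring
        rw [e1]
        exact ne_top_of_le_ne_top ENNReal.ofReal_ne_top husum1)
    rw [hrung, hrunp, ← h1]
    rfl
  rw [hpn]
  exact Tsf.step G rho0 s y s1 z hrho0 hs hy hs1 hsy hz0 hz1 (pt (rung G be K S w t))
    (runp G be K S w t) (pt (rst (Tr.EE G K.P t) u)) (pt (rst (Tr.SS G K.P t) u))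
    (runw G be K S w t) (runw G be K S w (t + 1))
    (fun j => (shc G K.P t (run G be K S t).u j w).re) hDw hcj hF hp
    (hfin _ fun h hh => hh.1) (hfin _ fun h hh => hh.1) hq1 hq2 hwn

end KX
end

section

/-!
# One block of the scheme: norms
-/

set_option autoImplicit false

namespace KX

open scoped ENNReal

variable {V : Type} [DecidableEq V]

theorem Wl_scale_R1e (G : Geo V) (rho rho' sg kp : ℝ) (v : V → ℝ) (hr : 0 < rho) (h : Tr V) :
    Wl G rho' sg kp v (lab h) = (rho' / rho) ^ Tr.deg h * Wl G rho sg kp v (lab h) := by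
  unfold Wl
  have e : dgr (lab h).n = Tr.deg h := rfl
  rw [e, div_pow]
  have : rho ^ Tr.deg h ≠ 0 := pow_ne_zero _ hr.ne'
  field_simp

/-- end of the block. Degree at most one: `win h ≥ L`, factor `exp (-(1/2) mu (3/2)^L)`; degree at
least two: factor `(rho' / rho)^2`, `rho' = rho * exp (-mu') / 4`. -/
theorem sum_end (G : Geo V) (be : V → ℝ) (bB : ℝ) (K : Blk V) (hK : K.OK G be bB) (b : Lbl V → ℝ)
    (hb : ∀ l, 0 ≤ b l)
    (hn : ∑' l, ENNReal.ofReal (b l * Wl G K.rho K.sg0 K.kp0 K.v0 l) ≤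
      ENNReal.ofReal (K.rho * Real.exp (-K.P.mu))) (mu' rho' : ℝ) (hmu' : 0 ≤ mu')
    (hr : rho' = K.rho * Real.exp (-mu') / 4)
    (C14 : 16 * Real.exp (-(3 / 8) * K.P.mu - (1 / 2) * (K.P.mu * (3 / 2 : ℝ) ^ K.L)) ≤
      Real.exp (-2 * mu')) :
    ∑' h, ENNReal.ofReal (bt G bB K b (2 * K.L) h * Wl G rho' K.sg K.kp K.v (lab h)) ≤
      ENNReal.ofReal (rho' * Real.exp (-mu')) := by
  classical
  have hb0 : ∀ h, 0 ≤ bt G bB K b (2 * K.L) h := bt_nonneg G bB K b hb (2 * K.L)
  have hrho := hK.rho0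
  set X : ℝ := (1 / 2) * (K.P.mu * (3 / 2 : ℝ) ^ K.L) with hX
  set r : ℝ := Real.exp (-mu') / 4 with hrr
  have hr0 : 0 < r := by rw [hrr]; positivity
  have hr1 : r ≤ 1 := by
    rw [hrr]
    have : Real.exp (-mu') ≤ 1 := Real.exp_le_one_iff.2 (by linarith)
    linarith
  have hrq : rho' / K.rho = r := by
    rw [hr, hrr]
    field_simp
  set c : ℝ := Real.exp (-X) + r ^ 2 with hc
  have hc0 : 0 < c := by rw [hc]; positivity
  have hle : ∀ h, bt G bB K b (2 * K.L) h * Wl G rho' K.sg K.kp K.v (lab h) ≤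
      c * (bt G bB K b (2 * K.L) h * K.base G h * Real.exp ((1 / 2) * Tr.mass G K.P h)) := by
    intro h
    rcases (hb0 h).eq_or_lt with hz | hz
    · rw [← hz]; simp
    have hbase := base_pos G be bB K hK h
    obtain ⟨hgood, _, htau⟩ := bt_support G bB K b (2 * K.L) h hz.ne'
    have hWl := Wl_le_base G be bB K hK h (Tr.good_conn G K.P h hgood)
    rw [Wl_scale_R1e G K.rho rho' K.sg K.kp K.v hrho h, hrq]
    have hmass : 0 ≤ Tr.mass G K.P h := K.P.mu_pos.le.trans (Tr.mu_le_mass G K.P h)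
    have hfac : r ^ Tr.deg h ≤ c * Real.exp ((1 / 2) * Tr.mass G K.P h) := by
      by_cases hd : Tr.deg h ≤ 1
      · have h1 := htau hd
        unfold Tr.tau at h1
        have h2 : K.L ≤ Tr.win G K.P h := by omega
        rw [Tr.le_win_iff] at h2
        have h3 : r ^ Tr.deg h ≤ 1 := pow_le_one₀ hr0.le hr1
        have h4 : 1 ≤ Real.exp (-X) * Real.exp ((1 / 2) * Tr.mass G K.P h) := by
          rw [← Real.exp_add]
          apply Real.one_le_exp
          rw [hX]
          linarith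
        have h5 : Real.exp (-X) * Real.exp ((1 / 2) * Tr.mass G K.P h) ≤
            c * Real.exp ((1 / 2) * Tr.mass G K.P h) := by
          apply mul_le_mul_of_nonneg_right _ (Real.exp_pos _).le
          rw [hc]
          have : 0 ≤ r ^ 2 := by positivity
          linarith
        linarith
      · push Not at hd
        have h3 : r ^ Tr.deg h ≤ r ^ 2 := pow_le_pow_of_le_one hr0.le hr1 hd
        have h4 : r ^ 2 ≤ c := by
          rw [hc]
          have := Real.exp_pos (-X)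
          linarith
        have h5 : 1 ≤ Real.exp ((1 / 2) * Tr.mass G K.P h) := Real.one_le_exp (by linarith)
        calc r ^ Tr.deg h ≤ c := h3.trans h4
          _ = c * 1 := (mul_one c).symm
          _ ≤ _ := mul_le_mul_of_nonneg_left h5 hc0.le
    have hrp : 0 ≤ r ^ Tr.deg h := by positivity
    calc bt G bB K b (2 * K.L) h * (r ^ Tr.deg h * Wl G K.rho K.sg K.kp K.v (lab h))
        ≤ bt G bB K b (2 * K.L) h * (r ^ Tr.deg h * K.base G h) := by
          apply mul_le_mul_of_nonneg_left _ (hb0 h)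
          exact mul_le_mul_of_nonneg_left hWl hrp
      _ ≤ bt G bB K b (2 * K.L) h *
          ((c * Real.exp ((1 / 2) * Tr.mass G K.P h)) * K.base G h) := by
          apply mul_le_mul_of_nonneg_left _ (hb0 h)
          exact mul_le_mul_of_nonneg_right hfac hbase.le
      _ = _ := by ring
  have hsum := sum_bt G be bB K hK b hb hn (2 * K.L) le_rfl
  calc ∑' h, ENNReal.ofReal (bt G bB K b (2 * K.L) h * Wl G rho' K.sg K.kp K.v (lab h))
      ≤ ∑' h, ENNReal.ofReal c * ENNReal.ofReal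
          (bt G bB K b (2 * K.L) h * K.base G h * Real.exp ((1 / 2) * Tr.mass G K.P h)) := by
        apply ENNReal.tsum_le_tsum
        intro h
        rw [← ENNReal.ofReal_mul hc0.le]
        exact ENNReal.ofReal_le_ofReal (hle h)
    _ = ENNReal.ofReal c * ∑' h, ENNReal.ofReal
          (bt G bB K b (2 * K.L) h * K.base G h * Real.exp ((1 / 2) * Tr.mass G K.P h)) :=
        ENNReal.tsum_mul_left
    _ ≤ ENNReal.ofReal c * ENNReal.ofReal (2 * K.rho * Real.exp (-(3 / 8) * K.P.mu)) :=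
        mul_le_mul_right hsum _
    _ ≤ ENNReal.ofReal (rho' * Real.exp (-mu')) := by
        rw [← ENNReal.ofReal_mul hc0.le]
        apply ENNReal.ofReal_le_ofReal
        have e1 : -(3 / 8) * K.P.mu - (1 / 2) * (K.P.mu * (3 / 2 : ℝ) ^ K.L) =
            -X + -(3 / 8) * K.P.mu := by rw [hX]; ring
        rw [e1, Real.exp_add] at C14
        have e2 : Real.exp (-2 * mu') = Real.exp (-mu') * Real.exp (-mu') := by
          rw [← Real.exp_add]; ring_nf
        have h1 : Real.exp (-(3 / 8) * K.P.mu) ≤ 1 := by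
          apply Real.exp_le_one_iff.2
          have := K.P.mu_pos
          linarith
        have hpos : 0 < Real.exp (-mu') := Real.exp_pos _
        have h2 : c * (2 * K.rho * Real.exp (-(3 / 8) * K.P.mu)) =
            2 * K.rho * (Real.exp (-X) * Real.exp (-(3 / 8) * K.P.mu)) +
            2 * K.rho * r ^ 2 * Real.exp (-(3 / 8) * K.P.mu) := by
          rw [hc]; ring
        rw [h2, hr]
        have h3 : 2 * K.rho * (Real.exp (-X) * Real.exp (-(3 / 8) * K.P.mu)) ≤
            2 * K.rho * (Real.exp (-2 * mu') / 16) := by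
          apply mul_le_mul_of_nonneg_left _ (by positivity)
          linarith
        have h4 : 2 * K.rho * r ^ 2 * Real.exp (-(3 / 8) * K.P.mu) ≤ 2 * K.rho * r ^ 2 * 1 :=
          mul_le_mul_of_nonneg_left h1 (by positivity)
        have h5 : r ^ 2 = Real.exp (-2 * mu') / 16 := by
          rw [hrr, e2]; ring
        rw [h5] at h4 ⊢
        rw [e2] at h3 h4 ⊢
        nlinarith

end KX
end

section

/-!
# One block of the scheme: the invariants
-/

set_option autoImplicit false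

namespace KX

open scoped ENNReal

variable {V : Type} [DecidableEq V]

namespace R2d

omit [DecidableEq V] in
theorem conj_conj (h : Tr V) : Tr.conj (Tr.conj h) = h := by
  induction h with
  | leaf l =>
    simp only [Tr.conj, Lbl.conj, neg_neg]
  | node j f p hf hp => simp only [Tr.conj, hf, hp]

theorem A_conj (h : Tr V) : Tr.A (Tr.conj h) = Tr.A h := by
  induction h with
  | leaf l => rfl
  | node j f p hf hp => simp only [Tr.conj, Tr.A, hf, hp]

omit [DecidableEq V] in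
theorem n_conj (h : Tr V) : Tr.n (Tr.conj h) = Tr.n h := by
  induction h with
  | leaf l => rfl
  | node j f p hf hp => simp only [Tr.conj, Tr.n, hf, hp]

omit [DecidableEq V] in
theorem k_conj (h : Tr V) : Tr.k (Tr.conj h) = -Tr.k h := by
  induction h with
  | leaf l => rfl
  | node j f p hf hp => simp only [Tr.conj, Tr.k, hf, hp, neg_add_rev]; rw [add_comm]

theorem lab_conj (h : Tr V) : lab (Tr.conj h) = (lab h).conj := by
  ext1
  · exact A_conj h
  · exact n_conj h
  · exact k_conj h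

omit [DecidableEq V] in
theorem Lconj_conj (l : Lbl V) : l.conj.conj = l := by
  simp only [Lbl.conj, neg_neg]

/-- conjugation as an equivalence -/
noncomputable def cjE : Tr V ≃ Tr V where
  toFun := Tr.conj
  invFun := Tr.conj
  left_inv := conj_conj
  right_inv := conj_conj

theorem pnext_conj (u : Tr V → (V → ℝ) → ℂ)
    (hu : ∀ h w, u (Tr.conj h) w = (starRingEnd ℂ) (u h w)) (l : Lbl V) (w : V → ℝ) :
    pnext u l.conj w = (starRingEnd ℂ) (pnext u l w) := by
  unfold pnext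
  rw [Complex.conj_tsum, ← (cjE (V := V)).tsum_eq]
  refine tsum_congr fun h => ?_
  have h1 : (cjE (V := V)) h = Tr.conj h := rfl
  rw [h1]
  unfold rst
  by_cases hl : lab h = l
  · have h2 : lab (Tr.conj h) = l.conj := by rw [lab_conj, hl]
    rw [if_pos h2, if_pos hl]
    exact hu h w
  · have h2 : lab (Tr.conj h) ≠ l.conj := by
      intro h3
      apply hl
      rw [lab_conj] at h3
      have := congrArg Lbl.conj h3
      rwa [Lconj_conj, Lconj_conj] at this
    rw [if_neg h2, if_neg hl, map_zero]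

theorem amon_pos (G : Geo V) (n : V →₀ ℕ) : 0 < amon G n := by
  unfold amon
  exact Finset.prod_pos fun j _ => pow_pos (G.a_pos j) _

theorem ainv_pos (G : Geo V) (A : Finset V) : 0 < G.ainv A := by
  have : (1 : ℝ) ≤ G.ainv A := by
    unfold Geo.ainv
    rw [Finset.le_fold_max]
    left
    exact le_refl _
  linarith

theorem Wl_pos (G : Geo V) (rho sg kp : ℝ) (v : V → ℝ) (hr : 0 < rho) (hv : ∀ j, 0 < v j)
    (l : Lbl V) : 0 < Wl G rho sg kp v l := by
  unfold Wl
  have h1 := amon_pos G l.n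
  have h2 := ainv_pos G l.A
  have h3 : 0 < ∏ j ∈ l.A, v j := Finset.prod_pos fun j _ => hv j
  positivity

theorem K_v_pos (G : Geo V) (be : V → ℝ) (bB : ℝ) (K : Blk V) (hK : K.OK G be bB) (j : V) :
    0 < K.v j := lt_of_lt_of_le (Real.exp_pos _) (hK.v1 j)

theorem lb_nonneg (G : Geo V) (be : V → ℝ) (bB : ℝ) (K : Blk V) (hK : K.OK G be bB) (t : ℕ)
    (j : V) : 0 ≤ K.lb t j := by
  unfold Blk.lb
  have := K_v_pos G be bB K hK j
  positivity

/-- summability of the restricted bounds -/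
theorem summ_rst (bt : Tr V → ℝ) (hb : ∀ h, 0 ≤ bt h) (W : Lbl V → ℝ) (hW : ∀ l, 0 < W l)
    (hf : ∑' h, ENNReal.ofReal (bt h * W (lab h)) ≠ ∞) (l : Lbl V) :
    Summable (rst (fun h => lab h = l) bt) := by
  have h1 : Summable fun h => bt h * W (lab h) := by
    have h0 := ENNReal.summable_toReal hf
    refine h0.congr fun h => ?_
    exact ENNReal.toReal_ofReal (mul_nonneg (hb h) (hW _).le)
  have h2 : Summable fun h => (bt h * W (lab h)) * (W l)⁻¹ := h1.mul_right _
  refine Summable.of_nonneg_of_le ?_ ?_ h2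
  · intro h
    unfold rst
    split_ifs
    · exact hb h
    · exact le_refl _
  · intro h
    unfold rst
    split_ifs with hl
    · rw [hl, mul_assoc, mul_inv_cancel₀ (hW l).ne', mul_one]
    · exact mul_nonneg (mul_nonneg (hb h) (hW _).le) (inv_nonneg.mpr (hW l).le)

omit [DecidableEq V] in
theorem rst_nonneg (bt : Tr V → ℝ) (hb : ∀ h, 0 ≤ bt h) (E : Tr V → Prop) (h : Tr V) :
    0 ≤ rst E bt h := by
  unfold rst
  split_ifs
  · exact hb h
  · exact le_refl _

open Classical in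
theorem tsum_labels (bt : Tr V → ℝ) (hb : ∀ h, 0 ≤ bt h) (W : Lbl V → ℝ) (hW : ∀ l, 0 < W l)
    (hf : ∑' h, ENNReal.ofReal (bt h * W (lab h)) ≠ ∞) :
    ∑' l, ENNReal.ofReal ((∑' h, rst (fun h => lab h = l) bt h) * W l) =
      ∑' h, ENNReal.ofReal (bt h * W (lab h)) := by
  have h1 : ∀ l, ENNReal.ofReal ((∑' h, rst (fun h => lab h = l) bt h) * W l) =
      ∑' h, (if lab h = l then ENNReal.ofReal (bt h * W (lab h)) else 0) := by
    intro l
    rw [ENNReal.ofReal_mul (tsum_nonneg fun h => rst_nonneg bt hb _ h),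
      ENNReal.ofReal_tsum_of_nonneg (fun h => rst_nonneg bt hb _ h) (summ_rst bt hb W hW hf l),
      ← ENNReal.tsum_mul_right]
    refine tsum_congr fun h => ?_
    unfold rst
    by_cases hl : lab h = l
    · rw [if_pos hl, if_pos hl, ENNReal.ofReal_mul (hb h), hl]
    · rw [if_neg hl, if_neg hl, ENNReal.ofReal_zero, zero_mul]
  simp_rw [h1]
  rw [ENNReal.tsum_comm]
  refine tsum_congr fun h => ?_
  rw [tsum_eq_single (lab h)]
  · rw [if_pos rfl]
  · intro l hl
    rw [if_neg hl.symm]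

end R2d

/-- start data for the next block -/
theorem start_next (G : Geo V) (be : V → ℝ) (bB : ℝ) (K : Blk V) (hK : K.OK G be bB) (S : RS V)
    (P0 : Lbl V → (V → ℝ) → ℂ) (b : Lbl V → ℝ) (l0 : V → ℝ) (hS : Start G be bB K S P0 b l0)
    (K' : Blk V) (hr : K'.rho = K.rho * Real.exp (-K'.P.mu) / 4)
    (hsg : K'.sg0 = K.sg) (hkp : K'.kp0 = K.kp) (hv : K'.v0 = K.v)
    (C14 : 16 * Real.exp (-(3 / 8) * K.P.mu - (1 / 2) * (K.P.mu * (3 / 2 : ℝ) ^ K.L)) ≤
      Real.exp (-2 * K'.P.mu))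
    (hl : ∀ j, l0 j + ∑ t ∈ Finset.range (2 * K.L), K.lb t j +
      ∑ t ∈ Finset.range (2 * K'.L), K'.lb t j ≤ (be j)⁻¹) :
    ∃ b', Start G be bB K'
      ⟨fun h w => lf0 (fun l => pnext (run G be K S (2 * K.L)).u l w) h,
        (run G be K S (2 * K.L)).c, (run G be K S (2 * K.L)).Gd⟩
      (pnext (run G be K S (2 * K.L)).u) b'
      (fun j => l0 j + ∑ t ∈ Finset.range (2 * K.L), K.lb t j) := by
  have hb0 : ∀ h, 0 ≤ bt G bB K b (2 * K.L) h := fun h => bt_nonneg G bB K b hS.b0 _ h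
  have hrho : 0 < K'.rho := by
    rw [hr]
    have := hK.rho0
    positivity
  have hW : ∀ l, 0 < Wl G K'.rho K.sg K.kp K.v l :=
    fun l => R2d.Wl_pos G _ _ _ _ hrho (R2d.K_v_pos G be bB K hK) l
  have hend := sum_end G be bB K hK b hS.b0 hS.nrm K'.P.mu K'.rho K'.P.mu_pos.le hr C14
  have hfin : ∑' h, ENNReal.ofReal (bt G bB K b (2 * K.L) h *
      Wl G K'.rho K.sg K.kp K.v (lab h)) ≠ ∞ := ne_top_of_le_ne_top ENNReal.ofReal_ne_top hend
  refine ⟨fun l => ∑' h, rst (fun h => lab h = l) (bt G bB K b (2 * K.L)) h, ?_⟩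
  refine ⟨rfl, ?_, ?_, ?_, ?_, ?_, ?_, ?_⟩
  · intro l
    have hs := R2d.summ_rst _ hb0 (Wl G K'.rho K.sg K.kp K.v) hW hfin l
    have hbe : ∀ j, 0 ≤ be j := fun j => (hK.be0 j).le
    have := RB.tsum (Gd := (run G be K S (2 * K.L)).Gd) hbe
      (f := fun h w => rst (fun h => lab h = l) (fun h => (run G be K S (2 * K.L)).u h w) h)
      (b := fun h => rst (fun h => lab h = l) (bt G bB K b (2 * K.L)) h) ?_ hs
    · exact this
    · intro h
      by_cases hl : lab h = l
      · have h1 := (run_inv G be bB K hK S P0 b l0 hS (2 * K.L) le_rfl).1 h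
        have h2 : rst (fun h => lab h = l) (bt G bB K b (2 * K.L)) h =
            bt G bB K b (2 * K.L) h := by
          unfold rst
          rw [if_pos hl]
        rw [h2]
        refine h1.congr fun w _ => ?_
        unfold rst
        rw [if_pos hl]
      · have h2 : rst (fun h => lab h = l) (bt G bB K b (2 * K.L)) h = 0 := by
          unfold rst
          rw [if_neg hl]
        rw [h2]
        have h3 := RB.const (be := be) (Gd := (run G be K S (2 * K.L)).Gd) (0 : ℂ)
        rw [norm_zero] at h3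
        refine h3.congr fun w _ => ?_
        unfold rst
        rw [if_neg hl]
  · intro l
    exact tsum_nonneg fun h => R2d.rst_nonneg _ hb0 _ h
  · rw [hsg, hkp, hv, R2d.tsum_labels _ hb0 (Wl G K'.rho K.sg K.kp K.v) hW hfin]
    exact hend
  · intro l w
    exact R2d.pnext_conj _ (fun h w => run_conj G be bB K S P0 b l0 hS (2 * K.L) h w) l w
  · intro j
    exact add_nonneg (hS.l00 j) (Finset.sum_nonneg fun t _ => R2d.lb_nonneg G be bB K hK t j)
  · intro j w w'
    exact run_lip G be bB K hK S P0 b l0 hS (2 * K.L) j w w'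
  · exact hl

end KX
end

section

/-!
# All blocks
-/

set_option autoImplicit false

namespace KX

open MeasureTheory

open scoped ENNReal

variable {V : Type} [DecidableEq V]

/-- states at the beginning of the blocks -/
noncomputable def glob (G : Geo V) (be : V → ℝ) (K : ℕ → Blk V) (P0 : Lbl V → ℂ) : ℕ → RS V
  | 0 => ⟨fun h _ => lf0 P0 h, fun _ _ => 0, Set.univ⟩
  | u + 1 =>
    ⟨fun h w => lf0 (fun l => pnext (run G be (K u) (glob G be K P0 u) (2 * (K u).L)).u l w) h,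
      (run G be (K u) (glob G be K P0 u) (2 * (K u).L)).c,
      (run G be (K u) (glob G be K P0 u) (2 * (K u).L)).Gd⟩

/-- leaf coefficients at the beginning of the blocks -/
noncomputable def gP (G : Geo V) (be : V → ℝ) (K : ℕ → Blk V) (P0 : Lbl V → ℂ) :
    ℕ → Lbl V → (V → ℝ) → ℂ
  | 0 => fun l _ => P0 l
  | u + 1 => pnext (run G be (K u) (glob G be K P0 u) (2 * (K u).L)).u

/-- sum of the Lipschitz bounds of the shifts in the first `u` blocks -/
noncomputable def lsum (K : ℕ → Blk V) (u : ℕ) (j : V) : ℝ :=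
  ∑ a ∈ Finset.range u, ∑ t ∈ Finset.range (2 * (K a).L), (K a).lb t j

/-- conditions on the sequence of blocks -/
structure Seq (G : Geo V) (be : V → ℝ) (bB : ℝ) (K : ℕ → Blk V) (Cb : ℝ) : Prop where
  ok : ∀ u, (K u).OK G be bB
  rho : ∀ u, (K (u + 1)).rho = (K u).rho * Real.exp (-(K (u + 1)).P.mu) / 4
  sg : ∀ u, (K (u + 1)).sg0 = (K u).sg
  kp : ∀ u, (K (u + 1)).kp0 = (K u).kp
  v : ∀ u, (K (u + 1)).v0 = (K u).v
  C14 : ∀ u, 16 * Real.exp (-(3 / 8) * (K u).P.mu -
    (1 / 2) * ((K u).P.mu * (3 / 2 : ℝ) ^ (K u).L)) ≤ Real.exp (-2 * (K (u + 1)).P.mu)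
  ls : ∀ u j, lsum K u j ≤ (be j)⁻¹
  lt : ∀ u, Summable (lsum K u) ∧ (∑' j, lsum K u j) * (∑' j, be j) ≤ 1 / 2
  Am1 : ∀ u, 1 ≤ (K u).Am
  cc : ∀ u, 280 * (K u).Am * Real.exp (-(K u).C.c) ≤ 1
  LS1 : ∀ u, LS G (K u).C.ell (K u).C.dp
  LS2 : ∀ u, LS G (K u).C.ell (K u).C.dpp
  SB : ∀ u, SB G (K u).C.bD Cb
  Cb0 : 0 ≤ Cb

theorem glob_start (G : Geo V) (be : V → ℝ) (bB : ℝ) (K : ℕ → Blk V) (Cb : ℝ)
    (hK : Seq G be bB K Cb) (P0 : Lbl V → ℂ) (hr : ∀ l, P0 l.conj = (starRingEnd ℂ) (P0 l))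
    (hn : ∑' l, ENNReal.ofReal (‖P0 l‖ * Wl G (K 0).rho (K 0).sg0 (K 0).kp0 (K 0).v0 l) ≤
      ENNReal.ofReal ((K 0).rho * Real.exp (-(K 0).P.mu))) (u : ℕ) :
    ∃ b, Start G be bB (K u) (glob G be K P0 u) (gP G be K P0 u) b (lsum K u) := by
  induction u with
  | zero =>
    refine ⟨fun l => ‖P0 l‖, ?_⟩
    constructor
    · rfl
    · intro l
      refine ⟨‖P0 l‖, 0, norm_nonneg _, le_refl _, by simp, fun w _ => le_refl _, ?_⟩
      intro w _ w' _
      simp [gP]
    · intro l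
      exact norm_nonneg _
    · exact hn
    · intro l w
      exact hr l
    · intro j
      simp [lsum]
    · intro j w w'
      simp [glob, lsum]
    · intro j
      have := hK.ls 1 j
      simpa [lsum] using this
  | succ u ih =>
    obtain ⟨b, hb⟩ := ih
    have h1 := start_next G be bB (K u) (hK.ok u) _ _ b _ hb (K (u + 1)) (hK.rho u) (hK.sg u)
      (hK.kp u) (hK.v u) (hK.C14 u) (by
        intro j
        have := hK.ls (u + 2) j
        unfold lsum at this ⊢
        rw [Finset.sum_range_succ, Finset.sum_range_succ] at this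
        exact this)
    obtain ⟨b', hb'⟩ := h1
    refine ⟨b', ?_⟩
    have e : lsum K (u + 1) = fun j => lsum K u j + ∑ t ∈ Finset.range (2 * (K u).L), (K u).lb t j := by
      funext j
      unfold lsum
      rw [Finset.sum_range_succ]
    rw [e]
    exact hb'

end KX
end

section

/-!
# All blocks
-/

set_option autoImplicit false

namespace KX

open MeasureTheory

open scoped ENNReal

variable {V : Type} [DecidableEq V]

theorem globb_lb_nonneg (G : Geo V) (be : V → ℝ) (bB : ℝ) (K : Blk V) (hK : K.OK G be bB) (t : ℕ)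
    (j : V) : 0 ≤ K.lb t j := by
  unfold Blk.lb
  have h1 : 0 < K.v j := lt_of_lt_of_le (Real.exp_pos _) (hK.v1 j)
  positivity

theorem globb_lsum_nonneg (G : Geo V) (be : V → ℝ) (bB : ℝ) (K : ℕ → Blk V)
    (hK : ∀ u, (K u).OK G be bB) (u : ℕ) (j : V) : 0 ≤ lsum K u j :=
  Finset.sum_nonneg fun a _ => Finset.sum_nonneg fun t _ => globb_lb_nonneg G be bB (K a) (hK a) t j

omit [DecidableEq V] in
theorem globb_lsum_succ (K : ℕ → Blk V) (u : ℕ) (j : V) :
    lsum K (u + 1) j = lsum K u j + ∑ t ∈ Finset.range (2 * (K u).L), (K u).lb t j := by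
  unfold lsum
  rw [Finset.sum_range_succ]

/-- the conditions of the inner steps imply membership in the good sets -/
theorem globb_mem (G : Geo V) (be : V → ℝ) (K : ℕ → Blk V) (P0 : Lbl V → ℂ) (w : V → ℝ)
    (h : ∀ u t, t < 2 * (K u).L →
      DC G (K u).C (frq (run G be (K u) (glob G be K P0 u) t).c w) ∧
      JC G (K u).C (K u).Am (frq (run G be (K u) (glob G be K P0 u) t).c w)) (u : ℕ) :
    w ∈ (glob G be K P0 u).Gd := by
  induction u with
  | zero => exact Set.mem_univ _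
  | succ u ih =>
    have hrun : ∀ t, t ≤ 2 * (K u).L → w ∈ (run G be (K u) (glob G be K P0 u) t).Gd := by
      intro t
      induction t with
      | zero => exact fun _ => ih
      | succ t iht =>
        intro ht
        exact ⟨iht (by omega), h u t (by omega)⟩
    exact hrun _ le_rfl

/-- the good set of all frequencies has large probability -/
theorem glob_prob [Countable V] (G : Geo V) (be : V → ℝ) (bB : ℝ) (K : ℕ → Blk V) (Cb : ℝ)
    (hK : Seq G be bB K Cb) (P0 : Lbl V → ℂ) (hr : ∀ l, P0 l.conj = (starRingEnd ℂ) (P0 l))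
    (hn : ∑' l, ENNReal.ofReal (‖P0 l‖ * Wl G (K 0).rho (K 0).sg0 (K 0).kp0 (K 0).v0 l) ≤
      ENNReal.ofReal ((K 0).rho * Real.exp (-(K 0).P.mu))) :
    PP V (⋂ u, (glob G be K P0 u).Gd)ᶜ ≤
      ∑' u, ENNReal.ofReal (9 * Cb * (2 * (K u).L : ℕ) * Real.exp (-(K u).C.lg)) := by
  set c : ℕ → ℕ → V → (V → ℝ) → ℝ := fun u t => (run G be (K u) (glob G be K P0 u) t).c with hc
  set E1 : ℕ → ℕ → Set (V → ℝ) := fun u t => {w | ¬ DC G (K u).C (fun j => w j + c u t j w)}
    with hE1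
  set E2 : ℕ → ℕ → Set (V → ℝ) := fun u t => {w | DC G (K u).C (fun j => w j + c u t j w) ∧
    ¬ JC G (K u).C (K u).Am (fun j => w j + c u t j w)} with hE2
  have hb : ∀ j, 0 ≤ be j := fun j => ((hK.ok 0).be0 j).le
  have hbs : Summable be := (hK.ok 0).bes
  have hsub : (⋂ u, (glob G be K P0 u).Gd)ᶜ ⊆
      ⋃ u, ⋃ t ∈ Finset.range (2 * (K u).L), (E1 u t ∪ E2 u t) := by
    intro w hw
    by_contra hcon
    apply hw
    rw [Set.mem_iInter]
    refine globb_mem G be K P0 w ?_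
    intro u t ht
    by_contra hbad
    apply hcon
    simp only [Set.mem_iUnion, Finset.mem_range]
    refine ⟨u, t, ht, ?_⟩
    by_cases hD : DC G (K u).C (frq (run G be (K u) (glob G be K P0 u) t).c w)
    · exact Or.inr ⟨hD, fun hJ => hbad ⟨hD, hJ⟩⟩
    · exact Or.inl hD
  have hlip : ∀ u t, t < 2 * (K u).L → ∀ j w w',
      |c u t j w - c u t j w'| ≤ lsum K (u + 1) j * DD be w w' := by
    intro u t ht j w w'
    obtain ⟨b, hS⟩ := glob_start G be bB K Cb hK P0 hr hn u
    have h1 := run_lip G be bB (K u) (hK.ok u) _ _ b _ hS t j w w'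
    refine h1.trans ?_
    refine mul_le_mul_of_nonneg_right ?_ (DD_nonneg be hb w w')
    rw [globb_lsum_succ]
    refine add_le_add le_rfl (Finset.sum_le_sum_of_subset_of_nonneg ?_
      (fun s _ _ => globb_lb_nonneg G be bB (K u) (hK.ok u) s j))
    intro s hs
    rw [Finset.mem_range] at hs ⊢
    omega
  have hP : ∀ u t, t < 2 * (K u).L → PP V (E1 u t ∪ E2 u t) ≤
      ENNReal.ofReal (9 * Cb * Real.exp (-(K u).C.lg)) := by
    intro u t ht
    have hl0 : ∀ j, 0 ≤ lsum K (u + 1) j := globb_lsum_nonneg G be bB K hK.ok (u + 1)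
    have h1 : PP V (E1 u t) ≤ ENNReal.ofReal (8 * Cb * Real.exp (-(K u).C.lg)) :=
      DC_prob G (K u).C Cb (hK.LS1 u) (hK.SB u) be hb hbs (c u t) (lsum K (u + 1)) hl0
        (hK.lt (u + 1)).1 (hK.lt (u + 1)).2 (hlip u t ht)
    have h2 : PP V (E2 u t) ≤ ENNReal.ofReal (Cb * Real.exp (-(K u).C.lg)) :=
      JC_prob G (K u).C (K u).Am Cb (hK.Am1 u) (hK.ok u).C.lg0 (hK.ok u).C.dpp0 (hK.LS2 u)
        (hK.SB u) (hK.cc u) be hb hbs (c u t) (lsum K (u + 1)) hl0
        (hK.lt (u + 1)).1 (hK.lt (u + 1)).2 (hlip u t ht)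
    have hCb := hK.Cb0
    calc PP V (E1 u t ∪ E2 u t) ≤ PP V (E1 u t) + PP V (E2 u t) := measure_union_le _ _
      _ ≤ ENNReal.ofReal (8 * Cb * Real.exp (-(K u).C.lg)) +
          ENNReal.ofReal (Cb * Real.exp (-(K u).C.lg)) := add_le_add h1 h2
      _ = ENNReal.ofReal (9 * Cb * Real.exp (-(K u).C.lg)) := by
          rw [← ENNReal.ofReal_add (by positivity) (by positivity)]
          congr 1
          ring
  refine (measure_mono hsub).trans ((measure_iUnion_le _).trans ?_)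
  refine ENNReal.tsum_le_tsum fun u => ?_
  have hCb := hK.Cb0
  calc PP V (⋃ t ∈ Finset.range (2 * (K u).L), (E1 u t ∪ E2 u t))
      ≤ ∑ t ∈ Finset.range (2 * (K u).L), PP V (E1 u t ∪ E2 u t) :=
        measure_biUnion_finset_le _ _
    _ ≤ ∑ t ∈ Finset.range (2 * (K u).L), ENNReal.ofReal (9 * Cb * Real.exp (-(K u).C.lg)) :=
        Finset.sum_le_sum fun t ht => hP u t (Finset.mem_range.1 ht)
    _ = ENNReal.ofReal (9 * Cb * (2 * (K u).L : ℕ) * Real.exp (-(K u).C.lg)) := by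
        rw [Finset.sum_const, Finset.card_range, nsmul_eq_mul]
        have : ((2 * (K u).L : ℕ) : ℝ≥0∞) = ENNReal.ofReal ((2 * (K u).L : ℕ) : ℝ) :=
          (ENNReal.ofReal_natCast _).symm
        rw [this, ← ENNReal.ofReal_mul (by positivity)]
        congr 1
        ring

end KX
end

section

/-!
# All blocks
-/

set_option autoImplicit false

namespace KX

open MeasureTheory

open scoped ENNReal

variable {V : Type} [DecidableEq V]

/-- change of the frequencies over a block -/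
theorem globc_step (G : Geo V) (be : V → ℝ) (bB : ℝ) (K : ℕ → Blk V) (Cb : ℝ)
    (hK : Seq G be bB K Cb) (P0 : Lbl V → ℂ) (hr : ∀ l, P0 l.conj = (starRingEnd ℂ) (P0 l))
    (hn : ∑' l, ENNReal.ofReal (‖P0 l‖ * Wl G (K 0).rho (K 0).sg0 (K 0).kp0 (K 0).v0 l) ≤
      ENNReal.ofReal ((K 0).rho * Real.exp (-(K 0).P.mu)))
    (w : V → ℝ) (hw : ∀ u, w ∈ (glob G be K P0 u).Gd) (j : V) (u : ℕ) :
    |(glob G be K P0 (u + 1)).c j w - (glob G be K P0 u).c j w| ≤
      ∑ t ∈ Finset.range (2 * (K u).L), (K u).lb t j := by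
  obtain ⟨b, hS⟩ := glob_start G be bB K Cb hK P0 hr hn u
  have hinv := (run_inv G be bB (K u) (hK.ok u) _ _ b _ hS (2 * (K u).L) le_rfl).2
  have hwr : w ∈ (run G be (K u) (glob G be K P0 u) (2 * (K u).L)).Gd := hw (u + 1)
  have key : ∀ t, t ≤ 2 * (K u).L →
      |(run G be (K u) (glob G be K P0 u) t).c j w - (glob G be K P0 u).c j w| ≤
        ∑ s ∈ Finset.range t, (K u).lb s j := by
    intro t
    induction t with
    | zero =>
      intro _
      simp [run]
    | succ t ih =>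
      intro ht
      rw [Finset.sum_range_succ]
      have h1 := ih (by omega)
      have h2 := (hinv t (by omega) w (run_Gd_anti G be (K u) _ ht hwr) j).2
      calc |(run G be (K u) (glob G be K P0 u) (t + 1)).c j w - (glob G be K P0 u).c j w|
          = |((run G be (K u) (glob G be K P0 u) t).c j w - (glob G be K P0 u).c j w) +
            ((run G be (K u) (glob G be K P0 u) (t + 1)).c j w -
              (run G be (K u) (glob G be K P0 u) t).c j w)| := by
            congr 1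
            ring
        _ ≤ _ := (abs_add_le _ _).trans (add_le_add h1 h2)
  exact key _ le_rfl

/-- all frequencies converge on the good set -/
theorem glob_conv (G : Geo V) (be : V → ℝ) (bB : ℝ) (K : ℕ → Blk V) (Cb : ℝ)
    (hK : Seq G be bB K Cb) (P0 : Lbl V → ℂ) (hr : ∀ l, P0 l.conj = (starRingEnd ℂ) (P0 l))
    (hn : ∑' l, ENNReal.ofReal (‖P0 l‖ * Wl G (K 0).rho (K 0).sg0 (K 0).kp0 (K 0).v0 l) ≤
      ENNReal.ofReal ((K 0).rho * Real.exp (-(K 0).P.mu)))
    (w : V → ℝ) (hw : ∀ u, w ∈ (glob G be K P0 u).Gd) (j : V) :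
    ∃ x, Filter.Tendsto (fun u => frq (glob G be K P0 u).c w j) Filter.atTop (nhds x) := by
  have hsum : Summable fun u => ∑ t ∈ Finset.range (2 * (K u).L), (K u).lb t j := by
    refine summable_of_sum_range_le (c := (be j)⁻¹) (fun u => ?_) fun n => ?_
    · exact Finset.sum_nonneg fun t _ => globb_lb_nonneg G be bB (K u) (hK.ok u) t j
    · exact hK.ls n j
  refine cauchySeq_tendsto_of_complete (cauchySeq_of_dist_le_of_summable _ (fun u => ?_) hsum)
  rw [dist_comm, Real.dist_eq]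
  have h := globc_step G be bB K Cb hK P0 hr hn w hw j u
  have e : frq (glob G be K P0 (u + 1)).c w j - frq (glob G be K P0 u).c w j =
      (glob G be K P0 (u + 1)).c j w - (glob G be K P0 u).c j w := by
    unfold frq
    ring
  rw [e]
  exact h

end KX
end

section

/-!
# Parameters for `ℤ^d`: final theorem
-/

set_option autoImplicit false

namespace KX

open Filter

open scoped ENNReal

/-- everything the scheme needs: the sequence of blocks `K`, the losses `y` and the sizes `z` of the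
steps, for the final level `s1`, the margins `σ`, the exponent `b` of the site weights, the
closeness `κ`, the probability `η`, the initial scale `r0` -/
structure Params (d : ℕ) (δ s1 σ κ η r0 : ℝ) (K : ℕ → Blk (Fin d → ℤ))
    (y z : ℕ → ℝ) : Prop where
  seq : ∀ (ac : (Fin d → ℤ) → ℝ) (hac0 : ∀ j, 0 < ac j) (hac1 : ∀ j, ac j ≤ 1),
    Seq (geoZ d ac hac0 hac1) (fun j => brz j ^ (-((d : ℝ) + δ))) ((d : ℝ) + δ) K (CbZ d δ)
  rho : (K 0).rho = r0
  sg0 : (K 0).sg0 ≤ s1 + σ
  kp0 : (K 0).kp0 ≤ σ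
  v0 : ∀ j, (K 0).v0 j ≤ brz j ^ (3 * (d : ℝ) + 8 * δ)
  v01 : ∀ j, 1 ≤ (K 0).v0 j
  sg : ∀ u, s1 ≤ (K u).sg
  pr : ∑' u, ENNReal.ofReal (9 * CbZ d δ * (2 * (K u).L : ℕ) * Real.exp (-(K u).C.lg)) ≤
    ENNReal.ofReal η
  y0 : ∀ u, 0 < y u
  ys : Summable fun u => (2 * (K u).L : ℕ) * y u
  y1 : ∑' u, (2 * (K u).L : ℕ) * y u ≤ s1 / 64
  zle : ∀ u, 12 * Real.exp (-(3 / 8) * (K u).P.mu) / (y u * (s1 / 4)) ≤ z u
  z0 : ∀ u, 0 ≤ z u
  z1 : ∀ u, z u * (2 * (K u).L : ℕ) ≤ 1 / 4
  zs : Summable fun u => 4 * (2 * (K u).L : ℕ) * z u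
  z4 : ∑' u, 4 * (2 * (K u).L : ℕ) * z u ≤ κ
  mu : Tendsto (fun u => (K u).P.mu) atTop atTop

theorem seqZ (d : ℕ) (hd : 1 ≤ d) (δ : ℝ) (hδ : 0 < δ) (hδ1 : δ ≤ 1)
    (s1 : ℝ) (hs1 : 0 ≤ s1) : ∀ᶠ u0 in atTop, ∀ r0 : ℝ, 0 < r0 →
    ∀ (ac : (Fin d → ℤ) → ℝ) (hac0 : ∀ j, 0 < ac j) (hac1 : ∀ j, ac j ≤ 1),
    Seq (geoZ d ac hac0 hac1) (fun j => brz j ^ (-((d : ℝ) + δ))) ((d : ℝ) + δ) (KZ d δ s1 r0 u0)
      (CbZ d δ) := by
  have hlb : ∀ᶠ a in atTop, 2 * ((2 * LZ a : ℕ) : ℝ) * Real.exp (-(3 / 8) * muZ a) ≤ zt a := by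
    have h := ((Sub.T.cmul 2).mul (Sub.nat1.pow 2)).le_exp_mu (show (0 : ℝ) < 3 / 8 by norm_num)
    filter_upwards [h] with a ha
    unfold zt
    rw [neg_mul, Real.exp_neg, le_div_iff₀ (by positivity), mul_assoc,
      mul_comm (Real.exp (3 / 8 * muZ a))⁻¹, ← mul_assoc, ← div_eq_mul_inv,
      div_le_one (Real.exp_pos _)]
    exact ha
  have hCb := CbZ_nonneg d δ
  have hsmall : ∀ᶠ a in atTop, tl zt a ≤ 1 / (2 * (CbZ d δ + 1) ^ 2) :=
    tl_zt_small _ (by positivity)
  filter_upwards [eventually_forall_ge_atTop.2 (blkZ_OK d hd δ hδ hδ1 s1 hs1),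
    eventually_forall_ge_atTop.2 hlb, hsmall, eventually_forall_ge_atTop.2 C14_ev,
    eventually_forall_ge_atTop.2 (LS_ev d hd)] with u0 h1 h2 h3 h4 h5 r0 hr0
    ac hac0 hac1
  have hd0 : (0 : ℝ) ≤ d := Nat.cast_nonneg _
  have hlsum : ∀ u j, lsum (KZ d δ s1 r0 u0) u j ≤ tl zt u0 * brz j ^ (-WZ d δ) := by
    intro u j
    unfold lsum
    calc _ ≤ ∑ a ∈ Finset.range u, zt (u0 + a) * brz j ^ (-WZ d δ) :=
          Finset.sum_le_sum fun a _ => lb_sum_le d δ s1 _ (u0 + a) (h2 _ (by omega)) j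
      _ = (∑ a ∈ Finset.range u, zt (u0 + a)) * brz j ^ (-WZ d δ) := by rw [Finset.sum_mul]
      _ ≤ _ := mul_le_mul_of_nonneg_right (sum_zt_le u0 u)
          (Real.rpow_pos_of_pos (brz_pos j) _).le
  have hlb0 : ∀ a t j, 0 ≤ (KZ d δ s1 r0 u0 a).lb t j := by
    intro a t j
    have hv := v_ge d δ s1 (rhoZ r0 u0 a) (u0 + a) j
    have hw : 0 < brz j ^ WZ d δ := Real.rpow_pos_of_pos (brz_pos j) _
    have hv0 : 0 < (KZ d δ s1 r0 u0 a).v j := lt_of_lt_of_le hw hv
    unfold Blk.lb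
    positivity
  have hlsum0 : ∀ u j, 0 ≤ lsum (KZ d δ s1 r0 u0) u j := fun u j =>
    Finset.sum_nonneg fun a _ => Finset.sum_nonneg fun t _ => hlb0 a t j
  have hWs : Summable fun j : Fin d → ℤ => brz j ^ (-((d : ℝ) + δ)) :=
    brz_summable' d hd _ (by linarith)
  have hWle : ∀ j : Fin d → ℤ, brz j ^ (-WZ d δ) ≤ brz j ^ (-((d : ℝ) + δ)) := fun j =>
    Real.rpow_le_rpow_of_exponent_le (one_le_brz j) (by have := WZ_ge d δ hδ; linarith)
  have htl1 : tl zt u0 ≤ 1 := h3.trans (by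
    rw [div_le_one (by positivity)]
    nlinarith)
  have htl0 : 0 ≤ tl zt u0 := tl_nonneg (fun n => (zt_pos n).le) _
  have hls : ∀ u j, lsum (KZ d δ s1 r0 u0) u j ≤ tl zt u0 * brz j ^ (-((d : ℝ) + δ)) := fun u j =>
    (hlsum u j).trans (mul_le_mul_of_nonneg_left (hWle j) htl0)
  have hsm : ∀ u, Summable (lsum (KZ d δ s1 r0 u0) u) := fun u =>
    Summable.of_nonneg_of_le (hlsum0 u) (hls u) (hWs.mul_left _)
  refine
    { ok := fun u => h1 (u0 + u) (by omega) ac hac0 hac1 _ (rhoZ_pos r0 hr0 u0 u)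
      rho := fun u => rfl
      sg := fun u => ?_
      kp := fun u => ?_
      v := fun u => ?_
      C14 := fun u => h4 (u0 + u) (by omega)
      ls := fun u j => ?_
      lt := fun u => ⟨hsm u, ?_⟩
      Am1 := fun u => ?_
      cc := fun u => cc_ev d δ hδ s1 _ (u0 + u)
      LS1 := fun u => h5 (u0 + u) (by omega) ac hac0 hac1
      LS2 := fun u => h5 (u0 + u) (by omega) ac hac0 hac1
      SB := fun u => ?_
      Cb0 := hCb }
  · exact blkZ_sg0 d δ s1 _ (u0 + (u + 1))
  · exact blkZ_kp0 d δ s1 _ (u0 + (u + 1))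
  · exact blkZ_v0 d δ hδ s1 _ (u0 + (u + 1))
  · rw [Real.rpow_neg (brz_pos j).le, inv_inv]
    have e1 : lsum (KZ d δ s1 r0 u0) u j ≤ 1 := by
      refine (hlsum u j).trans ?_
      have e2 : brz j ^ (-WZ d δ) ≤ 1 :=
        Real.rpow_le_one_of_one_le_of_nonpos (one_le_brz j) (by
          have := WZ_ge d δ hδ
          linarith)
      have e3 : 0 < brz j ^ (-WZ d δ) := Real.rpow_pos_of_pos (brz_pos j) _
      nlinarith
    have e4 : 1 ≤ brz j ^ ((d : ℝ) + δ) := Real.one_le_rpow (one_le_brz j) (by positivity)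
    linarith
  · have e1 : ∑' j, lsum (KZ d δ s1 r0 u0) u j ≤ tl zt u0 * CbZ d δ := by
      calc _ ≤ ∑' j : Fin d → ℤ, tl zt u0 * brz j ^ (-((d : ℝ) + δ)) :=
            Summable.tsum_le_tsum (hls u) (hsm u) (hWs.mul_left _)
        _ = _ := by rw [tsum_mul_left]; rfl
    calc _ ≤ (tl zt u0 * CbZ d δ) * CbZ d δ := mul_le_mul_of_nonneg_right e1 hCb
      _ ≤ (1 / (2 * (CbZ d δ + 1) ^ 2) * CbZ d δ) * CbZ d δ := by gcongr
      _ ≤ 1 / 2 := by
          rw [div_mul_eq_mul_div, div_mul_eq_mul_div, div_le_div_iff₀ (by positivity) (by norm_num)]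
          nlinarith
  · show 1 ≤ 1 + (((BZ d δ (u0 + u)).card : ℝ) / muZ (u0 + u) + 1 / laZ d δ (u0 + u)) *
      (muZ (u0 + u) * (3 / 2 : ℝ) ^ LZ (u0 + u))
    have := muZ_pos (u0 + u)
    have := laZ_ge d δ (u0 + u)
    have : 0 ≤ (((BZ d δ (u0 + u)).card : ℝ) / muZ (u0 + u) + 1 / laZ d δ (u0 + u)) *
      (muZ (u0 + u) * (3 / 2 : ℝ) ^ LZ (u0 + u)) := by positivity
    linarith
  · show ∑' i : Fin d → ℤ, ENNReal.ofReal (brz i ^ (-((d : ℝ) + δ))) ≤ ENNReal.ofReal (CbZ d δ)
    rw [← ENNReal.ofReal_tsum_of_nonneg (fun j => (Real.rpow_pos_of_pos (brz_pos j) _).le) hWs]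
    rfl

/-- losses of the level of the observables -/
noncomputable def yyZ (s1 : ℝ) (u0 u : ℕ) : ℝ := s1 * yZ (u0 + u)

/-- sizes of the steps -/
noncomputable def zzZ (s1 : ℝ) (u0 u : ℕ) : ℝ :=
  12 * Real.exp (-(3 / 8) * muZ (u0 + u)) / (yyZ s1 u0 u * (s1 / 4))

theorem z_ev (s1 : ℝ) (hs1 : 0 < s1) : ∀ᶠ a in atTop, 4 * ((2 * LZ a : ℕ) : ℝ) *
    (12 * Real.exp (-(3 / 8) * muZ a) / (s1 * yZ a * (s1 / 4))) ≤ zt a := by
  have h := (((Sub.T.pow 2).mul (Sub.nat1.pow 4)).cmul (192 / s1 ^ 2)).le_exp_mu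
    (show (0 : ℝ) < 3 / 8 by norm_num)
  filter_upwards [h] with a ha
  have hT := TZ_pos a
  unfold zt yZ
  rw [neg_mul, Real.exp_neg]
  have hE := Real.exp_pos (3 / 8 * muZ a)
  set T : ℝ := ((2 * LZ a : ℕ) : ℝ) with hTd
  set E := Real.exp (3 / 8 * muZ a) with hEd
  have e1 : 4 * T * (12 * E⁻¹ / (s1 * (1 / (T * ((a : ℝ) + 1) ^ 2)) * (s1 / 4))) =
      (192 / s1 ^ 2 * (T ^ 2 * ((a : ℝ) + 1) ^ 4)) / E / ((a : ℝ) + 1) ^ 2 := by
    field_simp
    ring
  rw [e1]
  gcongr
  rw [div_le_one hE]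
  exact ha

theorem params_main (d : ℕ) (hd : 1 ≤ d) (δ : ℝ) (hδ : 0 < δ) (hδ1 : δ ≤ 1)
    (s1 : ℝ) (hs1 : 0 < s1) (σ κ η r0 : ℝ) (hσ : 0 < σ) (hκ : 0 < κ) (hη : 0 < η) (hr0 : 0 < r0) :
    ∃ (K : ℕ → Blk (Fin d → ℤ)) (y z : ℕ → ℝ), Params d δ s1 σ κ η r0 K y z := by
  have hCb := CbZ_nonneg d δ
  have hA := AZ_pos d δ
  obtain ⟨u0, h1, h2, h3, h4, h5, h6, h7⟩ := ((seqZ d hd δ hδ hδ1 s1 hs1.le).and
    ((tl_zt_small (1 / AZ d δ) (by positivity)).and
    ((tl_zt_small (σ / 3) (by positivity)).and ((tl_zt_small κ hκ).and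
    ((tl_zt_small (1 / 64) (by norm_num)).and
    ((tl_zt_small (η / (9 * (CbZ d δ + 1))) (by positivity)).and
    (eventually_forall_ge_atTop.2 (z_ev s1 hs1)))))))).exists
  refine ⟨KZ d δ s1 r0 u0, yyZ s1 u0, zzZ s1 u0, ?_⟩
  have hsz : Summable fun u => zt (u0 + u) := by
    have := (summable_nat_add_iff u0).2 zt_summable
    refine this.congr fun n => by rw [add_comm]
  have hsz' : ∑' u, zt (u0 + u) = tl zt u0 := by
    unfold tl
    exact tsum_congr fun n => by rw [add_comm]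
  have htl0 : 0 ≤ tl zt u0 := tl_nonneg (fun n => (zt_pos n).le) _
  have hyy : ∀ u, ((2 * (KZ d δ s1 r0 u0 u).L : ℕ) : ℝ) * yyZ s1 u0 u = s1 * zt (u0 + u) := by
    intro u
    show ((2 * LZ (u0 + u) : ℕ) : ℝ) * (s1 * yZ (u0 + u)) = _
    rw [← yZ_mul]
    ring
  have hyy0 : ∀ u, 0 < yyZ s1 u0 u := fun u => mul_pos hs1 (yZ_pos _)
  have hzz0 : ∀ u, 0 ≤ zzZ s1 u0 u := fun u => by
    have := hyy0 u
    unfold zzZ
    positivity
  have hzz : ∀ u, 4 * ((2 * (KZ d δ s1 r0 u0 u).L : ℕ) : ℝ) * zzZ s1 u0 u ≤ zt (u0 + u) :=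
    fun u => h7 (u0 + u) (by omega)
  have hzz' : ∀ u, 0 ≤ 4 * ((2 * (KZ d δ s1 r0 u0 u).L : ℕ) : ℝ) * zzZ s1 u0 u := fun u => by
    have := hzz0 u
    positivity
  have hzs : Summable fun u => 4 * ((2 * (KZ d δ s1 r0 u0 u).L : ℕ) : ℝ) * zzZ s1 u0 u :=
    Summable.of_nonneg_of_le hzz' hzz hsz
  refine
    { seq := h1 r0 hr0
      rho := rfl
      sg0 := ?_
      kp0 := ?_
      v0 := fun j => ?_
      v01 := fun j => ?_
      sg := fun u => ?_
      pr := ?_
      y0 := hyy0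
      ys := ?_
      y1 := ?_
      zle := fun u => le_refl _
      z0 := hzz0
      z1 := fun u => ?_
      zs := hzs
      z4 := ?_
      mu := ?_ }
  · show (blkZ d δ s1 r0 u0).sg0 ≤ s1 + σ
    rw [blkZ_sg0]
    unfold lossS
    rw [tl_cmul]
    linarith
  · show (blkZ d δ s1 r0 u0).kp0 ≤ σ
    rw [blkZ_kp0]
    unfold lossK
    rw [tl_cmul]
    linarith
  · have h := v0_le d δ hδ s1 r0 u0 (by
      have e1 : tl zt u0 * AZ d δ ≤ 1 := by
        rw [← le_div_iff₀ hA]
        exact h2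
      calc tl zt u0 * (AZ d δ * δ) = (tl zt u0 * AZ d δ) * δ := by ring
        _ ≤ 1 * δ := mul_le_mul_of_nonneg_right e1 hδ.le
        _ = δ := one_mul δ) j
    refine h.trans (le_of_eq ?_)
    congr 1
    unfold WZ
    ring
  · show 1 ≤ (blkZ d δ s1 r0 u0).v0 j
    rw [blkZ_v0 d δ hδ]
    have e1 : 1 ≤ brz j ^ WZ d δ := Real.one_le_rpow (one_le_brz j) (by
      have := WZ_ge d δ hδ
      have hd0 : (0 : ℝ) ≤ d := Nat.cast_nonneg _
      linarith)
    have e2 : 1 ≤ Real.exp (tl (vloss d δ j) u0) :=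
      Real.one_le_exp (tl_nonneg (vloss_nonneg d δ j) _)
    nlinarith
  · show s1 ≤ s1 + tl lossS (u0 + u + 1)
    have := tl_nonneg lossS_nonneg (u0 + u + 1)
    linarith
  · have e1 : ∀ u, 9 * CbZ d δ * ((2 * (KZ d δ s1 r0 u0 u).L : ℕ) : ℝ) *
        Real.exp (-(KZ d δ s1 r0 u0 u).C.lg) = 9 * CbZ d δ * zt (u0 + u) := by
      intro u
      show 9 * CbZ d δ * ((2 * LZ (u0 + u) : ℕ) : ℝ) * Real.exp (-lgZ (u0 + u)) = _
      have hT := TZ_pos (u0 + u)
      unfold lgZ zt
      rw [Real.exp_neg, Real.exp_log (by positivity)]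
      field_simp
    simp_rw [e1]
    have e2 : ∀ u, 0 ≤ 9 * CbZ d δ * zt (u0 + u) := fun u => by
      have := zt_pos (u0 + u)
      positivity
    rw [← ENNReal.ofReal_tsum_of_nonneg e2 (hsz.mul_left _), tsum_mul_left, hsz']
    refine ENNReal.ofReal_le_ofReal ?_
    rw [le_div_iff₀ (by positivity)] at h6
    nlinarith
  · exact (hsz.mul_left s1).congr fun u => (hyy u).symm
  · simp_rw [hyy]
    rw [tsum_mul_left, hsz']
    linarith [mul_le_mul_of_nonneg_left h5 hs1.le]
  · have e1 := hzz u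
    have e2 := zt_le_one (u0 + u)
    linarith
  · calc _ ≤ ∑' u, zt (u0 + u) := Summable.tsum_le_tsum hzz hzs hsz
      _ = tl zt u0 := hsz'
      _ ≤ κ := h4
  · have e1 : Tendsto (fun u : ℕ => ((u0 + u : ℕ) : ℝ) ^ 4 / 3) atTop atTop := by
      refine Tendsto.atTop_div_const (by norm_num) ?_
      refine (tendsto_pow_atTop (by norm_num)).comp ?_
      exact tendsto_natCast_atTop_atTop.comp (tendsto_add_atTop_iff_nat u0 |>.2 tendsto_id |>.congr
        fun n => by simp [add_comm])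
    refine tendsto_atTop_mono (fun u => ?_) e1
    have e2 := exp_le_muZ (u0 + u)
    have e3 := Real.add_one_le_exp (((u0 + u : ℕ) : ℝ) ^ 4 / 3)
    show ((u0 + u : ℕ) : ℝ) ^ 4 / 3 ≤ muZ (u0 + u)
    linarith

end KX
end
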