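import Pool.Agent.Lib.MP_73c19a_an.Model
import Pool.Agent.Lib.MP_73c19a_an.Mg.G015

section

/-!
# Uniqueness of trajectories

Two trajectories with the same initial point coincide if the actions of one of them stay in
`[-r', r']` with `r' < r`. Proof: Cauchy estimates give `|dAng| ≤ C1 e^{-m N(i-j)}` for all actions
in `(-r, r)`, so the actions of the other trajectory move at a uniformly bounded speed and stay below
`(r + r') / 2` for a time `t1` independent of the initial time; there the vector field is Lipschitz in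
the sup norm (second derivatives by Cauchy estimates, `∑_i e^{-m N(i-j)} < ∞`), and
`E(t) = sup_j max(|ΔI_j|, |Δφ_j|)` (finite, lifts chosen with equal initial values, periodicity)
satisfies `E(t) ≤ K |∫ E|`, so `E = 0`. Then continue in steps of length `t1` in both directions.
-/

set_option autoImplicit false

namespace KamLattice

variable {d : ℕ}

/-- Lipschitz bound of a bounded differentiable function -/
theorem lip_uniqb {E : Type*} [NormedAddCommGroup E] [NormedSpace ℂ E] (F : E → ℂ) (U : Set E)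
    (B : ℝ)
    (hF : ∀ z ∈ U, DifferentiableAt ℂ F z) (hFB : ∀ z ∈ U, ‖F z‖ ≤ B) (P v : E) (ρ δ : ℝ)
    (hρ : 0 < ρ) (hv : ‖v‖ ≤ δ)
    (hU : ∀ t : ℝ, 0 ≤ t → t ≤ 1 → Metric.closedBall (P + (t : ℂ) • v) ρ ⊆ U) :
    ‖F (P + v) - F P‖ ≤ B * δ / ρ := by
  have hδ0 : 0 ≤ δ := (norm_nonneg v).trans hv
  rcases hδ0.eq_or_lt with hδ | hδ
  · have hv0 : v = 0 := norm_le_zero_iff.1 (by rw [hδ]; exact hv)
    rw [hv0, ← hδ]; simp
  let h : ℂ → ℂ := fun τ => F (P + τ • v)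
  have hin : ∀ t : ℝ, 0 ≤ t → t ≤ 1 → ∀ τ : ℂ, ‖τ - t‖ ≤ ρ / δ → P + τ • v ∈ U := by
    intro t h0 h1 τ hτ
    apply hU t h0 h1
    rw [Metric.mem_closedBall, dist_eq_norm]
    have : P + τ • v - (P + (t : ℂ) • v) = (τ - t) • v := by rw [sub_smul]; abel
    rw [this, norm_smul]
    calc ‖τ - t‖ * ‖v‖ ≤ ρ / δ * δ := by gcongr
      _ = ρ := by field_simp
  have hhd : ∀ t : ℝ, 0 ≤ t → t ≤ 1 → ∀ τ : ℂ, ‖τ - t‖ ≤ ρ / δ → DifferentiableAt ℂ h τ := by
    intro t h0 h1 τ hτ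
    have h2 := hF _ (hin t h0 h1 τ hτ)
    have h3 : DifferentiableAt ℂ (fun τ : ℂ => P + τ • v) τ :=
      (differentiableAt_id.smul_const v).const_add P
    exact h2.comp τ h3
  have hbd : ∀ t : ℝ, 0 ≤ t → t ≤ 1 → ‖deriv h t‖ ≤ B * δ / ρ := by
    intro t h0 h1
    have h2 : DiffContOnCl ℂ h (Metric.ball (t : ℂ) (ρ / δ)) := by
      apply DifferentiableOn.diffContOnCl_ball (U := Metric.closedBall (t : ℂ) (ρ / δ)) _ subset_rfl
      intro τ hτ
      rw [Metric.mem_closedBall, dist_eq_norm] at hτ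
      exact (hhd t h0 h1 τ hτ).differentiableWithinAt
    have h3 := Complex.norm_deriv_le_of_forall_mem_sphere_norm_le (C := B)
      (div_pos hρ hδ) h2 (fun z hz => by
        apply hFB
        apply hin t h0 h1
        rw [mem_sphere_iff_norm] at hz
        exact hz.le)
    calc ‖deriv h t‖ ≤ B / (ρ / δ) := h3
      _ = B * δ / ρ := by field_simp
  have key := norm_image_sub_le_of_norm_deriv_le_segment_01' (f := fun t : ℝ => h t)
    (f' := fun t : ℝ => deriv h t) (C := B * δ / ρ)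
    (fun t ht => by
      have h1 := (hhd t ht.1 ht.2 t (by simp; positivity)).hasDerivAt
      exact h1.comp_ofReal.hasDerivWithinAt)
    (fun t ht => hbd t ht.1 ht.2.le)
  simpa [h] using key

/-- Lipschitz bound of a directional derivative -/
theorem lip_deriv_uniqb {E : Type*} [NormedAddCommGroup E] [NormedSpace ℂ E] (F : E → ℂ)
    (U : Set E) (B : ℝ)
    (hF : ∀ z ∈ U, DifferentiableAt ℂ F z) (hFB : ∀ z ∈ U, ‖F z‖ ≤ B) (P P' e : E) (ρ δ : ℝ)
    (hρ : 0 < ρ) (hv : ‖P' - P‖ ≤ δ) (he : ‖e‖ ≤ 1)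
    (hU : ∀ t : ℝ, 0 ≤ t → t ≤ 1 → Metric.closedBall (P + (t : ℂ) • (P' - P)) (2 * ρ) ⊆ U) :
    ‖deriv (fun w : ℂ => F (P + w • e)) 0 - deriv (fun w : ℂ => F (P' + w • e)) 0‖ ≤
      B * δ / ρ ^ 2 := by
  have hin : ∀ t : ℝ, 0 ≤ t → t ≤ 1 → ∀ w : ℂ, ‖w‖ ≤ ρ →
      Metric.closedBall (P + w • e + (t : ℂ) • (P' - P)) ρ ⊆ U := by
    intro t h0 h1 w hw z hz
    apply hU t h0 h1
    rw [Metric.mem_closedBall, dist_eq_norm] at hz ⊢
    have h2 : z - (P + (t : ℂ) • (P' - P)) =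
        (z - (P + w • e + (t : ℂ) • (P' - P))) + w • e := by abel
    rw [h2]
    calc _ ≤ ‖z - (P + w • e + (t : ℂ) • (P' - P))‖ + ‖w • e‖ := norm_add_le _ _
      _ ≤ ρ + ρ * 1 := by
          rw [norm_smul]; gcongr
      _ = 2 * ρ := by ring
  have hin0 : ∀ w : ℂ, ‖w‖ ≤ ρ → P + w • e ∈ U := by
    intro w hw
    apply hin 0 le_rfl zero_le_one w hw
    simp [hρ.le]
  have hin1 : ∀ w : ℂ, ‖w‖ ≤ ρ → P' + w • e ∈ U := by
    intro w hw
    apply hin 1 zero_le_one le_rfl w hw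
    rw [Metric.mem_closedBall, dist_eq_norm]
    have : P' + w • e - (P + w • e + ((1 : ℝ) : ℂ) • (P' - P)) = 0 := by
      rw [Complex.ofReal_one, one_smul]; abel
    rw [this, norm_zero]; exact hρ.le
  have hd0 : ∀ w : ℂ, ‖w‖ ≤ ρ → DifferentiableAt ℂ (fun w : ℂ => F (P + w • e)) w := by
    intro w hw
    have h3 : DifferentiableAt ℂ (fun τ : ℂ => P + τ • e) w :=
      (differentiableAt_id.smul_const e).const_add P
    exact (hF _ (hin0 w hw)).comp w h3
  have hd1 : ∀ w : ℂ, ‖w‖ ≤ ρ → DifferentiableAt ℂ (fun w : ℂ => F (P' + w • e)) w := by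
    intro w hw
    have h3 : DifferentiableAt ℂ (fun τ : ℂ => P' + τ • e) w :=
      (differentiableAt_id.smul_const e).const_add P'
    exact (hF _ (hin1 w hw)).comp w h3
  let u : ℂ → ℂ := fun w => F (P + w • e) - F (P' + w • e)
  have hu : deriv u 0 = deriv (fun w : ℂ => F (P + w • e)) 0 -
      deriv (fun w : ℂ => F (P' + w • e)) 0 :=
    deriv_fun_sub (hd0 0 (by simp [hρ.le])) (hd1 0 (by simp [hρ.le]))
  rw [← hu]
  have h2 : DiffContOnCl ℂ u (Metric.ball 0 ρ) := by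
    apply DifferentiableOn.diffContOnCl_ball (U := Metric.closedBall 0 ρ) _ subset_rfl
    intro τ hτ
    rw [mem_closedBall_zero_iff] at hτ
    exact ((hd0 τ hτ).sub (hd1 τ hτ)).differentiableWithinAt
  have h3 := Complex.norm_deriv_le_of_forall_mem_sphere_norm_le (C := B * δ / ρ) hρ h2
    (fun z hz => by
      rw [mem_sphere_zero_iff_norm] at hz
      have h4 := lip_uniqb F U B hF hFB (P + z • e) (P' - P) ρ δ hρ hv
        (fun t h0 h1 => hin t h0 h1 z hz.le)
      have h5 : P + z • e + (P' - P) = P' + z • e := by abel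
      rw [h5, norm_sub_rev] at h4
      exact h4)
  calc ‖deriv u 0‖ ≤ B * δ / ρ / ρ := h3
    _ = _ := by field_simp


/-- balls around real points -/
theorem ball_sub_uniqb (r s r' ρ : ℝ) (h1 : r' + 2 * ρ < r) (h2 : 2 * ρ < s)
    (x y φ ψ : ℝ) (hx : |x| ≤ r') (hy : |y| ≤ r') :
    Metric.closedBall ((x : ℂ), (y : ℂ), (φ : ℂ), (ψ : ℂ)) (2 * ρ) ⊆ Dom r s := by
  rintro ⟨z1, z2, z3, z4⟩ hz
  rw [Metric.mem_closedBall, dist_eq_norm] at hz
  simp only [Prod.mk_sub_mk, Prod.norm_mk, sup_le_iff] at hz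
  obtain ⟨hz1, hz2, hz3, hz4⟩ := hz
  refine ⟨?_, ?_, ?_, ?_⟩
  · show ‖z1‖ < r
    have : ‖z1‖ ≤ ‖z1 - x‖ + ‖(x : ℂ)‖ := by simpa using norm_add_le (z1 - x) (x : ℂ)
    rw [Complex.norm_real, Real.norm_eq_abs] at this
    linarith
  · show ‖z2‖ < r
    have : ‖z2‖ ≤ ‖z2 - y‖ + ‖(y : ℂ)‖ := by simpa using norm_add_le (z2 - y) (y : ℂ)
    rw [Complex.norm_real, Real.norm_eq_abs] at this
    linarith
  · show |z3.im| < s
    have := Complex.abs_im_le_norm (z3 - φ)
    simp only [Complex.sub_im, Complex.ofReal_im, sub_zero] at this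
    linarith
  · show |z4.im| < s
    have := Complex.abs_im_le_norm (z4 - ψ)
    simp only [Complex.sub_im, Complex.ofReal_im, sub_zero] at this
    linarith

theorem part_lip_uniqb (F : ℂ × ℂ × ℂ × ℂ → ℂ) (B r s r' ρ δ : ℝ)
    (hF : AnalyticOnNhd ℂ F (Dom r s)) (hFB : ∀ z ∈ Dom r s, ‖F z‖ ≤ B) (hρ : 0 < ρ)
    (h1 : r' + 2 * ρ < r) (h2 : 2 * ρ < s) (x y φ ψ x' y' φ' ψ' : ℝ) (hx : |x| ≤ r')
    (hy : |y| ≤ r') (hx' : |x'| ≤ r') (hy' : |y'| ≤ r') (dx : |x - x'| ≤ δ) (dy : |y - y'| ≤ δ)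
    (dφ : |φ - φ'| ≤ δ) (dψ : |ψ - ψ'| ≤ δ) :
    ‖deriv (fun z : ℂ => F (z, y, φ, ψ)) x - deriv (fun z : ℂ => F (z, y', φ', ψ')) x'‖ ≤
      B * δ / ρ ^ 2 ∧
    ‖deriv (fun z : ℂ => F (x, z, φ, ψ)) y - deriv (fun z : ℂ => F (x', z, φ', ψ')) y'‖ ≤
      B * δ / ρ ^ 2 ∧
    ‖deriv (fun z : ℂ => F (x, y, z, ψ)) φ - deriv (fun z : ℂ => F (x', y', z, ψ')) φ'‖ ≤
      B * δ / ρ ^ 2 ∧
    ‖deriv (fun z : ℂ => F (x, y, φ, z)) ψ - deriv (fun z : ℂ => F (x', y', φ', z)) ψ'‖ ≤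
      B * δ / ρ ^ 2 := by
  have key : ∀ e : ℂ × ℂ × ℂ × ℂ, ‖e‖ ≤ 1 →
      ‖deriv (fun w : ℂ => F (((x : ℂ), (y : ℂ), (φ : ℂ), (ψ : ℂ)) + w • e)) 0 -
        deriv (fun w : ℂ => F (((x' : ℂ), (y' : ℂ), (φ' : ℂ), (ψ' : ℂ)) + w • e)) 0‖ ≤
        B * δ / ρ ^ 2 := by
    intro e he
    refine lip_deriv_uniqb F (Dom r s) B (fun z hz => (hF z hz).differentiableAt) hFB _ _ e ρ δ hρ
      ?_ he ?_
    · simp only [Prod.mk_sub_mk, Prod.norm_mk, sup_le_iff, ← Complex.ofReal_sub,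
        Complex.norm_real, Real.norm_eq_abs]
      rw [abs_sub_comm x', abs_sub_comm y', abs_sub_comm φ', abs_sub_comm ψ']
      exact ⟨dx, dy, dφ, dψ⟩
    · intro t h0 ht1
      have h3 : ((x : ℂ), (y : ℂ), (φ : ℂ), (ψ : ℂ)) + (t : ℂ) •
          (((x' : ℂ), (y' : ℂ), (φ' : ℂ), (ψ' : ℂ)) - ((x : ℂ), (y : ℂ), (φ : ℂ), (ψ : ℂ))) =
          (((x + t * (x' - x) : ℝ) : ℂ), ((y + t * (y' - y) : ℝ) : ℂ),
            ((φ + t * (φ' - φ) : ℝ) : ℂ), ((ψ + t * (ψ' - ψ) : ℝ) : ℂ)) := by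
        simp
      rw [h3]
      have hconv : ∀ a b : ℝ, |a| ≤ r' → |b| ≤ r' → |a + t * (b - a)| ≤ r' := by
        intro a b ha hb
        rw [abs_le] at ha hb ⊢
        constructor <;> nlinarith
      exact ball_sub_uniqb r s r' ρ h1 h2 _ _ _ _ (hconv x x' hx hx') (hconv y y' hy hy')
  have sh : ∀ (g : ℂ → ℂ) (a : ℂ), deriv g a = deriv (fun w => g (a + w)) 0 := by
    intro g a
    rw [deriv_comp_const_add, add_zero]
  refine ⟨?_, ?_, ?_, ?_⟩
  · rw [sh _ (x : ℂ), sh _ (x' : ℂ)]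
    simpa using key (1, 0, 0, 0) (by simp)
  · rw [sh _ (y : ℂ), sh _ (y' : ℂ)]
    simpa using key (0, 1, 0, 0) (by simp)
  · rw [sh _ (φ : ℂ), sh _ (φ' : ℂ)]
    simpa using key (0, 0, 1, 0) (by simp)
  · rw [sh _ (ψ : ℂ), sh _ (ψ' : ℂ)]
    simpa using key (0, 0, 0, 1) (by simp)

/-- bound of the angle derivatives -/
theorem part_bound_uniqb (F : ℂ × ℂ × ℂ × ℂ → ℂ) (B r s ρ : ℝ)
    (hF : AnalyticOnNhd ℂ F (Dom r s)) (hFB : ∀ z ∈ Dom r s, ‖F z‖ ≤ B) (hρ : 0 < ρ)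
    (hs : ρ < s) (x y φ ψ : ℝ) (hx : |x| < r) (hy : |y| < r) :
    ‖deriv (fun z : ℂ => F (x, y, z, ψ)) φ‖ ≤ B / ρ ∧
    ‖deriv (fun z : ℂ => F (x, y, φ, z)) ψ‖ ≤ B / ρ := by
  have hs0 : 0 < s := hρ.trans hs
  constructor
  · have hin : ∀ z ∈ Metric.closedBall (φ : ℂ) ρ, ((x : ℂ), (y : ℂ), z, (ψ : ℂ)) ∈ Dom r s := by
      intro z hz
      rw [Metric.mem_closedBall, dist_eq_norm] at hz
      refine ⟨by simpa using hx, by simpa using hy, ?_, by simpa using hs0⟩
      show |z.im| < s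
      have := Complex.abs_im_le_norm (z - φ)
      simp only [Complex.sub_im, Complex.ofReal_im, sub_zero] at this
      linarith
    refine Complex.norm_deriv_le_of_forall_mem_sphere_norm_le hρ ?_
      (fun z hz => hFB _ (hin z (Metric.sphere_subset_closedBall hz)))
    apply DifferentiableOn.diffContOnCl_ball (U := Metric.closedBall (φ : ℂ) ρ) _ subset_rfl
    intro z hz
    have h3 : DifferentiableAt ℂ (fun z : ℂ => ((x : ℂ), (y : ℂ), z, (ψ : ℂ))) z := by
      fun_prop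
    exact ((hF _ (hin z hz)).differentiableAt.comp z h3).differentiableWithinAt
  · have hin : ∀ z ∈ Metric.closedBall (ψ : ℂ) ρ, ((x : ℂ), (y : ℂ), (φ : ℂ), z) ∈ Dom r s := by
      intro z hz
      rw [Metric.mem_closedBall, dist_eq_norm] at hz
      refine ⟨by simpa using hx, by simpa using hy, by simpa using hs0, ?_⟩
      show |z.im| < s
      have := Complex.abs_im_le_norm (z - ψ)
      simp only [Complex.sub_im, Complex.ofReal_im, sub_zero] at this
      linarith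
    refine Complex.norm_deriv_le_of_forall_mem_sphere_norm_le hρ ?_
      (fun z hz => hFB _ (hin z (Metric.sphere_subset_closedBall hz)))
    apply DifferentiableOn.diffContOnCl_ball (U := Metric.closedBall (ψ : ℂ) ρ) _ subset_rfl
    intro z hz
    have h3 : DifferentiableAt ℂ (fun z : ℂ => ((x : ℂ), (y : ℂ), (φ : ℂ), z)) z := by
      fun_prop
    exact ((hF _ (hin z hz)).differentiableAt.comp z h3).differentiableWithinAt

/-- bounds of the terms of the vector field -/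
theorem field_bound (N : (Fin d → ℝ) → ℝ) (hN : IsNorm N) (r s C m : ℝ) (hr : 0 < r) (hs : 0 < s)
    (hC : 0 ≤ C) (hm : 0 < m) (f : Site d → Site d → ℂ × ℂ × ℂ × ℂ → ℂ)
    (hf : IsInteraction N r s C m f) (r' : ℝ) (hr' : r' < r) (hr'0 : 0 < r') :
    ∃ K : ℝ, 0 ≤ K ∧
      (∀ (I φ : Site d → ℝ) (j i : Site d), (∀ j, |I j| < r) →
        ‖dAng f I φ j i‖ ≤ K * Real.exp (-m * N (iv (i - j)))) ∧
      (∀ (I φ I' φ' : Site d → ℝ) (j i : Site d) (δ : ℝ), (∀ j, |I j| ≤ r') → (∀ j, |I' j| ≤ r') →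
        (∀ j, |I j - I' j| ≤ δ) → (∀ j, |φ j - φ' j| ≤ δ) →
        ‖dAng f I φ j i - dAng f I' φ' j i‖ ≤ K * Real.exp (-m * N (iv (i - j))) * δ ∧
        ‖dAct f I φ j i - dAct f I' φ' j i‖ ≤ K * Real.exp (-m * N (iv (i - j))) * δ) := by
  obtain ⟨ρ, hρ, hρ1, hρ2⟩ : ∃ ρ : ℝ, 0 < ρ ∧ r' + 2 * ρ < r ∧ 2 * ρ < s := by
    refine ⟨min ((r - r') / 4) (s / 4), lt_min (by linarith) (by linarith), ?_, ?_⟩
    · have := min_le_left ((r - r') / 4) (s / 4)
      linarith
    · have := min_le_right ((r - r') / 4) (s / 4)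
      linarith
  have hN0 : N 0 = 0 := by
    have := hN.smul 0 0
    simpa using this
  have hNn : ∀ x, N (-x) = N x := by
    intro x
    have := hN.smul (-1) x
    simpa using this
  have hsym : ∀ i j : Site d, N (iv (i - j)) = N (iv (j - i)) := by
    intro i j
    have : iv (i - j) = -iv (j - i) := by
      funext a
      simp [iv]
    rw [this, hNn]
  have hB : ∀ i j : Site d, i ≠ j → ∀ z ∈ Dom r s,
      ‖f i j z‖ ≤ C * Real.exp (-m * N (iv (i - j))) * (2 * r) ^ 2 := by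
    intro i j hij z hz
    refine (hf.bound i j hij z hz).trans ?_
    obtain ⟨h1, h2, -, -⟩ := hz
    have h3 : ‖z.1‖ + ‖z.2.1‖ ≤ 2 * r := by linarith
    gcongr
  let c : ℝ := C * (2 * r) ^ 2
  have hc : 0 ≤ c := by positivity
  have hK : 0 ≤ 2 * c / ρ + 2 * c / ρ ^ 2 := by positivity
  refine ⟨2 * c / ρ + 2 * c / ρ ^ 2, hK, ?_, ?_⟩
  · intro I φ j i hI
    by_cases hij : i = j
    · simp only [dAng, if_pos hij, norm_zero]
      positivity
    · simp only [dAng, if_neg hij]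
      have h1 := (part_bound_uniqb (f j i) _ r s ρ (hf.analytic j i (Ne.symm hij))
        (hB j i (Ne.symm hij)) hρ (by linarith) (I j) (I i) (φ j) (φ i) (hI j) (hI i)).1
      have h2 := (part_bound_uniqb (f i j) _ r s ρ (hf.analytic i j hij)
        (hB i j hij) hρ (by linarith) (I i) (I j) (φ i) (φ j) (hI i) (hI j)).2
      rw [hsym j i] at h1
      refine (norm_add_le _ _).trans ((add_le_add h1 h2).trans ?_)
      have he := Real.exp_pos (-m * N (iv (i - j)))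
      have h3 : C * Real.exp (-m * N (iv (i - j))) * (2 * r) ^ 2 / ρ +
          C * Real.exp (-m * N (iv (i - j))) * (2 * r) ^ 2 / ρ =
          (2 * c / ρ) * Real.exp (-m * N (iv (i - j))) := by
        simp only [c]; ring
      rw [h3]
      have h4 : 0 ≤ 2 * c / ρ ^ 2 := by positivity
      gcongr
      linarith
  · intro I φ I' φ' j i δ hI hI' dI dφ
    have hδ : 0 ≤ δ := (abs_nonneg _).trans (dI j)
    have hfin : ∀ z : ℂ, ‖z‖ ≤ C * Real.exp (-m * N (iv (i - j))) * (2 * r) ^ 2 * δ / ρ ^ 2 +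
        C * Real.exp (-m * N (iv (i - j))) * (2 * r) ^ 2 * δ / ρ ^ 2 →
        ‖z‖ ≤ (2 * c / ρ + 2 * c / ρ ^ 2) * Real.exp (-m * N (iv (i - j))) * δ := by
      intro z hz
      refine hz.trans ?_
      have h3 : C * Real.exp (-m * N (iv (i - j))) * (2 * r) ^ 2 * δ / ρ ^ 2 +
          C * Real.exp (-m * N (iv (i - j))) * (2 * r) ^ 2 * δ / ρ ^ 2 =
          (2 * c / ρ ^ 2) * Real.exp (-m * N (iv (i - j))) * δ := by
        simp only [c]; ring
      rw [h3]
      have h4 : 0 ≤ 2 * c / ρ := by positivity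
      gcongr
      linarith
    by_cases hij : i = j
    · simp only [dAng, dAct, if_pos hij, sub_zero, norm_zero]
      exact ⟨by positivity, by positivity⟩
    · obtain ⟨a1, -, a3, -⟩ := part_lip_uniqb (f j i) _ r s r' ρ δ
        (hf.analytic j i (Ne.symm hij)) (hB j i (Ne.symm hij)) hρ hρ1 hρ2 (I j) (I i) (φ j) (φ i)
        (I' j) (I' i) (φ' j) (φ' i) (hI j) (hI i) (hI' j) (hI' i) (dI j) (dI i) (dφ j) (dφ i)
      obtain ⟨-, b2, -, b4⟩ := part_lip_uniqb (f i j) _ r s r' ρ δ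
        (hf.analytic i j hij) (hB i j hij) hρ hρ1 hρ2 (I i) (I j) (φ i) (φ j)
        (I' i) (I' j) (φ' i) (φ' j) (hI i) (hI j) (hI' i) (hI' j) (dI i) (dI j) (dφ i) (dφ j)
      rw [hsym j i] at a1 a3
      constructor
      · simp only [dAng, if_neg hij]
        apply hfin
        rw [add_sub_add_comm]
        exact (norm_add_le _ _).trans (add_le_add a3 b4)
      · simp only [dAct, if_neg hij]
        apply hfin
        rw [add_sub_add_comm]
        exact (norm_add_le _ _).trans (add_le_add a1 b2)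

end KamLattice
end

section

/-!
# Uniqueness of trajectories

Two trajectories with the same initial point coincide if the actions of one of them stay in
`[-r', r']` with `r' < r`. Proof: Cauchy estimates give `|dAng| ≤ C1 e^{-m N(i-j)}` for all actions
in `(-r, r)`, so the actions of the other trajectory move at a uniformly bounded speed and stay below
`(r + r') / 2` for a time `t1` independent of the initial time; there the vector field is Lipschitz in
the sup norm (second derivatives by Cauchy estimates, `∑_i e^{-m N(i-j)} < ∞`), and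
`E(t) = sup_j max(|ΔI_j|, |Δφ_j|)` (finite, lifts chosen with equal initial values, periodicity)
satisfies `E(t) ≤ K |∫ E|`, so `E = 0`. Then continue in steps of length `t1` in both directions.
-/

set_option autoImplicit false

namespace KamLattice

variable {d : ℕ}

theorem dom_shift {r s : ℝ} {x y φ ψ : ℂ} (h : (x, y, φ, ψ) ∈ Dom r s) (a b : ℝ) :
    (x, y, φ + (a : ℂ), ψ + (b : ℂ)) ∈ Dom r s := by
  obtain ⟨h1, h2, h3, h4⟩ := h
  exact ⟨h1, h2, by simpa using h3, by simpa using h4⟩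

theorem per1_nat {N : (Fin d → ℝ) → ℝ} {r s C m : ℝ}
    {f : Site d → Site d → ℂ × ℂ × ℂ × ℂ → ℂ} (hf : IsInteraction N r s C m f) {i j : Site d}
    (hij : i ≠ j) (n : ℕ) : ∀ (x y φ ψ : ℂ), (x, y, φ, ψ) ∈ Dom r s →
    f i j (x, y, φ + ((n * (2 * Real.pi) : ℝ) : ℂ), ψ) = f i j (x, y, φ, ψ) := by
  induction n with
  | zero => intro x y φ ψ _; simp
  | succ n ih =>
    intro x y φ ψ h
    have h1 := hf.per1 i j hij x y (φ + ((n * (2 * Real.pi) : ℝ) : ℂ)) ψ
      (by simpa using dom_shift h (n * (2 * Real.pi)) 0)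
    rw [ih x y φ ψ h] at h1
    rw [← h1]
    congr 4
    push_cast
    ring

theorem per2_nat {N : (Fin d → ℝ) → ℝ} {r s C m : ℝ}
    {f : Site d → Site d → ℂ × ℂ × ℂ × ℂ → ℂ} (hf : IsInteraction N r s C m f) {i j : Site d}
    (hij : i ≠ j) (n : ℕ) : ∀ (x y φ ψ : ℂ), (x, y, φ, ψ) ∈ Dom r s →
    f i j (x, y, φ, ψ + ((n * (2 * Real.pi) : ℝ) : ℂ)) = f i j (x, y, φ, ψ) := by
  induction n with
  | zero => intro x y φ ψ _; simp
  | succ n ih =>
    intro x y φ ψ h
    have h1 := hf.per2 i j hij x y φ (ψ + ((n * (2 * Real.pi) : ℝ) : ℂ))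
      (by simpa using dom_shift h 0 (n * (2 * Real.pi)))
    rw [ih x y φ ψ h] at h1
    rw [← h1]
    congr 4
    push_cast
    ring

theorem per1_int {N : (Fin d → ℝ) → ℝ} {r s C m : ℝ}
    {f : Site d → Site d → ℂ × ℂ × ℂ × ℂ → ℂ} (hf : IsInteraction N r s C m f) {i j : Site d}
    (hij : i ≠ j) (n : ℤ) (x y φ ψ : ℂ) (h : (x, y, φ, ψ) ∈ Dom r s) :
    f i j (x, y, φ + ((n * (2 * Real.pi) : ℝ) : ℂ), ψ) = f i j (x, y, φ, ψ) := by
  obtain ⟨q, hq | hq⟩ := Int.eq_nat_or_neg n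
  · subst hq
    have := per1_nat hf hij q x y φ ψ h
    push_cast at this ⊢
    exact this
  · subst hq
    have h' : (x, y, φ + ((((-(q : ℤ)) : ℤ) * (2 * Real.pi) : ℝ) : ℂ), ψ) ∈ Dom r s := by
      simpa using dom_shift h (((-(q : ℤ)) : ℤ) * (2 * Real.pi)) 0
    have := per1_nat hf hij q x y _ ψ h'
    rw [← this]
    congr 4
    push_cast
    ring

theorem per2_int {N : (Fin d → ℝ) → ℝ} {r s C m : ℝ}
    {f : Site d → Site d → ℂ × ℂ × ℂ × ℂ → ℂ} (hf : IsInteraction N r s C m f) {i j : Site d}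
    (hij : i ≠ j) (n : ℤ) (x y φ ψ : ℂ) (h : (x, y, φ, ψ) ∈ Dom r s) :
    f i j (x, y, φ, ψ + ((n * (2 * Real.pi) : ℝ) : ℂ)) = f i j (x, y, φ, ψ) := by
  obtain ⟨q, hq | hq⟩ := Int.eq_nat_or_neg n
  · subst hq
    have := per2_nat hf hij q x y φ ψ h
    push_cast at this ⊢
    exact this
  · subst hq
    have h' : (x, y, φ, ψ + ((((-(q : ℤ)) : ℤ) * (2 * Real.pi) : ℝ) : ℂ)) ∈ Dom r s := by
      simpa using dom_shift h 0 (((-(q : ℤ)) : ℤ) * (2 * Real.pi))
    have := per2_nat hf hij q x y φ _ h'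
    rw [← this]
    congr 4
    push_cast
    ring

theorem per_both {N : (Fin d → ℝ) → ℝ} {r s C m : ℝ}
    {f : Site d → Site d → ℂ × ℂ × ℂ × ℂ → ℂ} (hf : IsInteraction N r s C m f) {i j : Site d}
    (hij : i ≠ j) (n k : ℤ) (x y φ ψ : ℂ) (h : (x, y, φ, ψ) ∈ Dom r s) :
    f i j (x, y, φ + ((n * (2 * Real.pi) : ℝ) : ℂ), ψ + ((k * (2 * Real.pi) : ℝ) : ℂ)) =
      f i j (x, y, φ, ψ) := by
  rw [per2_int hf hij k, per1_int hf hij n x y φ ψ h]
  simpa using dom_shift h (n * (2 * Real.pi)) 0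

theorem circ_lift {a b : ℝ} (h : ((a : ℝ) : AddCircle (2 * Real.pi)) = (b : ℝ)) :
    ∃ n : ℤ, a = b + n * (2 * Real.pi) := by
  have h1 : (((a - b : ℝ)) : AddCircle (2 * Real.pi)) = 0 := by
    rw [AddCircle.coe_sub, h, sub_self]
  obtain ⟨n, hn⟩ := (AddCircle.coe_eq_zero_iff (2 * Real.pi)).1 h1
  exact ⟨n, by rw [zsmul_eq_mul] at hn; linarith⟩

/-- a function that agrees with its translate near `a` has the same derivative at `a + c` -/
theorem deriv_shift {g h : ℂ → ℂ} (a c : ℂ) (H : ∀ᶠ x in nhds a, g (x + c) = h x) :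
    deriv g (a + c) = deriv h a := by
  rw [← deriv_comp_add_const]
  exact Filter.EventuallyEq.deriv_eq H

theorem ev_im {s : ℝ} (hs : 0 < s) (a : ℝ) : ∀ᶠ x in nhds (a : ℂ), |x.im| < s := by
  have : Continuous fun x : ℂ => |x.im| := Complex.continuous_im.abs
  exact this.continuousAt.eventually_lt continuousAt_const (by simpa using hs)

theorem ev_norm {r : ℝ} (a : ℝ) (h : |a| < r) : ∀ᶠ x in nhds (a : ℂ), ‖x‖ < r := by
  exact continuous_norm.continuousAt.eventually_lt continuousAt_const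
    (by simpa [Complex.norm_real] using h)

/-- the field does not change when the angles are shifted by multiples of `2π` -/
theorem field_periodic (N : (Fin d → ℝ) → ℝ) (r s C m : ℝ) (hs : 0 < s)
    (f : Site d → Site d → ℂ × ℂ × ℂ × ℂ → ℂ) (hf : IsInteraction N r s C m f)
    (I φ φ' : Site d → ℝ) (hI : ∀ j, |I j| < r)
    (hφ : ∀ j, ((φ j : ℝ) : AddCircle (2 * Real.pi)) = (φ' j : ℝ)) (j i : Site d) :
    dAng f I φ j i = dAng f I φ' j i ∧ dAct f I φ j i = dAct f I φ' j i := by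
  obtain ⟨nj, hnj⟩ := circ_lift (hφ j)
  obtain ⟨ni, hni⟩ := circ_lift (hφ i)
  have hIc : ∀ k, ‖((I k : ℝ) : ℂ)‖ < r := fun k => by simpa [Complex.norm_real] using hI k
  have hj : ((φ j : ℝ) : ℂ) = (φ' j : ℂ) + ((nj * (2 * Real.pi) : ℝ) : ℂ) := by
    rw [hnj, Complex.ofReal_add]
  have hi : ((φ i : ℝ) : ℂ) = (φ' i : ℂ) + ((ni * (2 * Real.pi) : ℝ) : ℂ) := by
    rw [hni, Complex.ofReal_add]
  have him : ∀ a : ℝ, |((a : ℝ) : ℂ).im| < s := fun a => by simpa using hs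
  constructor
  · unfold dAng
    by_cases hij : i = j
    · simp [hij]
    · rw [if_neg hij, if_neg hij, hj, hi]
      congr 1
      · apply deriv_shift
        filter_upwards [ev_im hs (φ' j)] with x hx
        exact per_both hf (Ne.symm hij) nj ni _ _ x _ ⟨hIc j, hIc i, hx, him _⟩
      · apply deriv_shift
        filter_upwards [ev_im hs (φ' j)] with x hx
        exact per_both hf hij ni nj _ _ _ x ⟨hIc i, hIc j, him _, hx⟩
  · unfold dAct
    by_cases hij : i = j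
    · simp [hij]
    · rw [if_neg hij, if_neg hij, hj, hi]
      congr 1
      · apply Filter.EventuallyEq.deriv_eq
        filter_upwards [ev_norm (I j) (hI j)] with x hx
        exact per_both hf (Ne.symm hij) nj ni x _ _ _ ⟨hx, hIc i, him _, him _⟩
      · apply Filter.EventuallyEq.deriv_eq
        filter_upwards [ev_norm (I j) (hI j)] with x hx
        exact per_both hf hij ni nj _ x _ _ ⟨hIc i, hx, him _, him _⟩

end KamLattice
end

section

/-!
# Uniqueness of trajectories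

Two trajectories with the same initial point coincide if the actions of one of them stay in
`[-r', r']` with `r' < r`. Proof: Cauchy estimates give `|dAng| ≤ C1 e^{-m N(i-j)}` for all actions
in `(-r, r)`, so the actions of the other trajectory move at a uniformly bounded speed and stay below
`(r + r') / 2` for a time `t1` independent of the initial time; there the vector field is Lipschitz in
the sup norm (second derivatives by Cauchy estimates, `∑_i e^{-m N(i-j)} < ∞`), and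
`E(t) = sup_j max(|ΔI_j|, |Δφ_j|)` (finite, lifts chosen with equal initial values, periodicity)
satisfies `E(t) ≤ K |∫ E|`, so `E = 0`. Then continue in steps of length `t1` in both directions.
-/

set_option autoImplicit false

namespace KamLattice

variable {d : ℕ}

/-- trajectory with real lifts of the angles -/
structure LTuq (f : Site d → Site d → ℂ × ℂ × ℂ × ℂ → ℂ) (r e : ℝ) (ω : Site d → ℝ)
    (I φ : ℝ → Site d → ℝ) : Prop where
  bd : ∀ t j, |I t j| < r
  sA : ∀ t j, Summable (dAct f (I t) (φ t) j)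
  sG : ∀ t j, Summable (dAng f (I t) (φ t) j)
  dI : ∀ t j, ∃ a : ℝ, HasDerivAt (fun t => I t j) a t ∧
    (a : ℂ) = -e * ∑' i, dAng f (I t) (φ t) j i
  dP : ∀ t j, ∃ a : ℝ, HasDerivAt (fun t => φ t j) a t ∧
    (a : ℂ) = ω j + e * ∑' i, dAct f (I t) (φ t) j i

theorem sum_sub_uq (g : Site d → ℝ) (hg : Summable g) (j : Site d) :
    Summable (fun i => g (i - j)) ∧ ∑' i, g (i - j) = ∑' i, g i :=
  ⟨(Equiv.subRight j).summable_iff.2 hg, (Equiv.subRight j).tsum_eq g⟩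

theorem tsum_bound_uq {a : Site d → ℂ} {g : Site d → ℝ} (hg : Summable g) (j : Site d) (c : ℝ)
    (h : ∀ i, ‖a i‖ ≤ c * g (i - j)) : ‖∑' i, a i‖ ≤ c * ∑' i, g i := by
  have h1 := sum_sub_uq g hg j
  have h2 := tsum_of_norm_bounded ((h1.1.mul_left c).hasSum) h
  rwa [tsum_mul_left, h1.2] at h2

theorem gen_uq {f : Site d → Site d → ℂ × ℂ × ℂ × ℂ → ℂ} {r e : ℝ} {ω : Site d → ℝ}
    {I φ I' φ' : ℝ → Site d → ℝ} (hx : LTuq f r e ω I φ) (hy : LTuq f r e ω I' φ')
    (g : Site d → ℝ) (hg : Summable g) (t1 : ℝ) (K : ℝ)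
    (hK : 0 ≤ K * ∑' i, g i) (hsm : |e| * (K * ∑' i, g i) * t1 ≤ 1 / 2)
    (h0 : I 0 = I' 0) (h0' : φ 0 = φ' 0) (δ : ℝ) (hδ : 0 ≤ δ)
    (h : ∀ t ∈ Set.Icc 0 t1, ∀ j i,
      ‖dAng f (I t) (φ t) j i - dAng f (I' t) (φ' t) j i‖ ≤ K * g (i - j) * δ ∧
      ‖dAct f (I t) (φ t) j i - dAct f (I' t) (φ' t) j i‖ ≤ K * g (i - j) * δ) :
    ∀ t ∈ Set.Icc 0 t1, ∀ j, |I t j - I' t j| ≤ δ / 2 ∧ |φ t j - φ' t j| ≤ δ / 2 := by
  intro t ht j
  have key : ∀ (F F' : ℝ → ℝ) (a a' : ℝ → ℝ), (∀ t, HasDerivAt F (a t) t) →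
      (∀ t, HasDerivAt F' (a' t) t) → F 0 = F' 0 →
      (∀ t ∈ Set.Icc 0 t1, |a t - a' t| ≤ |e| * (K * δ * ∑' i, g i)) →
      |F t - F' t| ≤ δ / 2 := by
    intro F F' a a' hF hF' hFF hb
    have h1 := norm_image_sub_le_of_norm_deriv_le_segment' (f := fun t => F t - F' t)
      (f' := fun t => a t - a' t) (a := 0) (b := t1) (C := |e| * (K * δ * ∑' i, g i))
      (fun t _ => ((hF t).sub (hF' t)).hasDerivWithinAt)
      (fun t ht => by rw [Real.norm_eq_abs]; exact hb t (Set.Ico_subset_Icc_self ht)) t ht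
    simp only [hFF, sub_self, sub_zero, Real.norm_eq_abs] at h1
    refine h1.trans ?_
    have h2 : |e| * (K * δ * ∑' i, g i) * t ≤ |e| * (K * δ * ∑' i, g i) * t1 := by
      refine mul_le_mul_of_nonneg_left ht.2 ?_
      have : K * δ * ∑' i, g i = (K * ∑' i, g i) * δ := by ring
      rw [this]
      positivity
    have h3 : |e| * (K * δ * ∑' i, g i) * t1 = (|e| * (K * ∑' i, g i) * t1) * δ := by ring
    have h4 := mul_le_mul_of_nonneg_right hsm hδ
    linarith
  have hb : ∀ (a a' : Site d → ℂ), Summable a → Summable a' →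
      (∀ i, ‖a i - a' i‖ ≤ K * g (i - j) * δ) → ‖∑' i, a i - ∑' i, a' i‖ ≤ K * δ * ∑' i, g i := by
    intro a a' ha ha' hi
    rw [← ha.tsum_sub ha']
    refine tsum_bound_uq hg j (K * δ) fun i => ?_
    refine (hi i).trans (le_of_eq ?_)
    ring
  constructor
  · choose a ha ha2 using fun t => hx.dI t j
    choose a' ha' ha2' using fun t => hy.dI t j
    refine key _ _ a a' ha ha' (by rw [h0]) fun t ht => ?_
    have h1 : ((a t - a' t : ℝ) : ℂ) = -e * (∑' i, dAng f (I t) (φ t) j i -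
        ∑' i, dAng f (I' t) (φ' t) j i) := by
      rw [Complex.ofReal_sub, ha2, ha2']; ring
    rw [← Real.norm_eq_abs, ← Complex.norm_real, h1, norm_mul, norm_neg, Complex.norm_real,
      Real.norm_eq_abs]
    exact mul_le_mul_of_nonneg_left (hb _ _ (hx.sG t j) (hy.sG t j) fun i => (h t ht j i).1)
      (abs_nonneg _)
  · choose a ha ha2 using fun t => hx.dP t j
    choose a' ha' ha2' using fun t => hy.dP t j
    refine key _ _ a a' ha ha' (by rw [h0']) fun t ht => ?_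
    have h1 : ((a t - a' t : ℝ) : ℂ) = e * (∑' i, dAct f (I t) (φ t) j i -
        ∑' i, dAct f (I' t) (φ' t) j i) := by
      rw [Complex.ofReal_sub, ha2, ha2']; ring
    rw [← Real.norm_eq_abs, ← Complex.norm_real, h1, norm_mul, Complex.norm_real,
      Real.norm_eq_abs]
    exact mul_le_mul_of_nonneg_left (hb _ _ (hx.sA t j) (hy.sA t j) fun i => (h t ht j i).2)
      (abs_nonneg _)

theorem loc_uq (N : (Fin d → ℝ) → ℝ) (r s C m : ℝ) (hs : 0 < s)
    (f : Site d → Site d → ℂ × ℂ × ℂ × ℂ → ℂ) (hf : IsInteraction N r s C m f)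
    (hsum : Summable fun j : Site d => Real.exp (-m * N (iv j))) (r1 r2 K : ℝ) (hr2 : 0 < r2)
    (hK0 : 0 ≤ K)
    (hKG : ∀ (I φ : Site d → ℝ) (j i : Site d), (∀ j, |I j| < r) →
        ‖dAng f I φ j i‖ ≤ K * Real.exp (-m * N (iv (i - j))))
    (hKL : ∀ (I φ I' φ' : Site d → ℝ) (j i : Site d) (δ : ℝ), (∀ j, |I j| ≤ r2) →
        (∀ j, |I' j| ≤ r2) → (∀ j, |I j - I' j| ≤ δ) → (∀ j, |φ j - φ' j| ≤ δ) →
        ‖dAng f I φ j i - dAng f I' φ' j i‖ ≤ K * Real.exp (-m * N (iv (i - j))) * δ ∧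
        ‖dAct f I φ j i - dAct f I' φ' j i‖ ≤ K * Real.exp (-m * N (iv (i - j))) * δ)
    {e : ℝ} {ω : Site d → ℝ} {I φ I' φ' : ℝ → Site d → ℝ} (hx : LTuq f r e ω I φ)
    (hy : LTuq f r e ω I' φ') (hI' : ∀ t j, |I' t j| ≤ r1) (t1 : ℝ) (ht1 : 0 ≤ t1)
    (h12 : r1 + |e| * (K * ∑' j : Site d, Real.exp (-m * N (iv j))) * t1 ≤ r2)
    (hsm : |e| * (K * ∑' j : Site d, Real.exp (-m * N (iv j))) * t1 ≤ 1 / 2)
    (h0 : I 0 = I' 0) (h0' : φ 0 = φ' 0) :
    ∀ t ∈ Set.Icc 0 t1, I t = I' t ∧ φ t = φ' t := by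
  set g : Site d → ℝ := fun j => Real.exp (-m * N (iv j)) with hg
  have hS0 : 0 ≤ ∑' j, g j := tsum_nonneg fun j => (Real.exp_pos _).le
  have hKS : 0 ≤ K * ∑' j, g j := mul_nonneg hK0 hS0
  have hr12 : r1 ≤ r2 := by
    have : 0 ≤ |e| * (K * ∑' j, g j) * t1 := by positivity
    linarith
  -- the actions of the first trajectory stay in the domain
  have hI : ∀ t ∈ Set.Icc 0 t1, ∀ j, |I t j| ≤ r2 := by
    intro t ht j
    choose a ha ha2 using fun t => hx.dI t j
    have hb : ∀ t, |a t| ≤ |e| * (K * ∑' j, g j) := by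
      intro t
      rw [← Real.norm_eq_abs, ← Complex.norm_real, ha2, norm_mul, norm_neg, Complex.norm_real,
        Real.norm_eq_abs]
      exact mul_le_mul_of_nonneg_left (tsum_bound_uq hsum j K fun i =>
        hKG (I t) (φ t) j i (hx.bd t)) (abs_nonneg _)
    have h1 := norm_image_sub_le_of_norm_deriv_le_segment' (f := fun t => I t j)
      (f' := a) (a := 0) (b := t1) (C := |e| * (K * ∑' j, g j))
      (fun t _ => (ha t).hasDerivWithinAt)
      (fun t _ => by rw [Real.norm_eq_abs]; exact hb t) t ht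
    rw [Real.norm_eq_abs, sub_zero] at h1
    have h2 : |e| * (K * ∑' j, g j) * t ≤ |e| * (K * ∑' j, g j) * t1 :=
      mul_le_mul_of_nonneg_left ht.2 (by positivity)
    have h3 : |I 0 j| ≤ r1 := by rw [h0]; exact hI' 0 j
    have h4 : |I t j| ≤ |I t j - I 0 j| + |I 0 j| := by
      have := abs_add_le (I t j - I 0 j) (I 0 j)
      rwa [sub_add_cancel] at this
    linarith
  have hI'2 : ∀ t j, |I' t j| ≤ r2 := fun t j => (hI' t j).trans hr12
  -- a priori bound
  set δ0 : ℝ := max (2 * r2) Real.pi with hδ0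
  have hδ0p : 0 ≤ δ0 := (by positivity : (0 : ℝ) ≤ 2 * r2).trans (le_max_left _ _)
  have hpi := Real.pi_pos
  have hbase : ∀ t ∈ Set.Icc 0 t1, ∀ j, |I t j - I' t j| ≤ δ0 / 2 ∧ |φ t j - φ' t j| ≤ δ0 / 2 := by
    refine gen_uq hx hy g hsum t1 K hKS hsm h0 h0' δ0 hδ0p ?_
    intro t ht j i
    set φ2 : Site d → ℝ := fun j => φ' t j +
      (round ((φ t j - φ' t j) / (2 * Real.pi)) : ℝ) * (2 * Real.pi) with hφ2
    have hper : ∀ j, ((φ' t j : ℝ) : AddCircle (2 * Real.pi)) = (φ2 j : ℝ) := by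
      intro j
      rw [hφ2]
      simp only [AddCircle.coe_add]
      have h1 : (((round ((φ t j - φ' t j) / (2 * Real.pi)) : ℝ) * (2 * Real.pi) : ℝ) :
          AddCircle (2 * Real.pi)) = 0 := by
        rw [AddCircle.coe_eq_zero_iff]
        exact ⟨round ((φ t j - φ' t j) / (2 * Real.pi)), by rw [zsmul_eq_mul]⟩
      rw [h1, add_zero]
    have hd : ∀ j, |φ t j - φ2 j| ≤ δ0 := by
      intro j
      have h1 := abs_sub_round ((φ t j - φ' t j) / (2 * Real.pi))
      have h2 : φ t j - φ2 j = ((φ t j - φ' t j) / (2 * Real.pi) -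
          (round ((φ t j - φ' t j) / (2 * Real.pi)) : ℝ)) * (2 * Real.pi) := by
        rw [hφ2]
        field_simp
        ring
      rw [h2, abs_mul, abs_of_pos (by positivity : (0 : ℝ) < 2 * Real.pi)]
      have h3 := mul_le_mul_of_nonneg_right h1 (by positivity : (0 : ℝ) ≤ 2 * Real.pi)
      refine h3.trans (le_trans (le_of_eq (by ring)) (le_max_right (2 * r2) Real.pi))
    have hp := field_periodic N r s C m hs f hf (I' t) (φ' t) φ2 (hy.bd t) hper j i
    rw [hp.1, hp.2]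
    refine hKL (I t) (φ t) (I' t) φ2 j i δ0 (hI t ht) (hI'2 t) (fun j => ?_) hd
    have h1 := abs_sub (I t j) (I' t j)
    have h2 := hI t ht j
    have h3 := hI'2 t j
    exact (h1.trans (by linarith : |I t j| + |I' t j| ≤ 2 * r2)).trans (le_max_left _ _)
  have hiter : ∀ n : ℕ, ∀ t ∈ Set.Icc 0 t1, ∀ j,
      |I t j - I' t j| ≤ δ0 / 2 ^ n ∧ |φ t j - φ' t j| ≤ δ0 / 2 ^ n := by
    intro n
    induction n with
    | zero =>
      intro t ht j
      have := hbase t ht j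
      rw [pow_zero, div_one]
      constructor
      · linarith [this.1]
      · linarith [this.2]
    | succ n ih =>
      have h1 := gen_uq hx hy g hsum t1 K hKS hsm h0 h0' (δ0 / 2 ^ n) (by positivity)
        (fun t ht j i => hKL (I t) (φ t) (I' t) (φ' t) j i (δ0 / 2 ^ n) (hI t ht) (hI'2 t)
          (fun j => (ih t ht j).1) fun j => (ih t ht j).2)
      intro t ht j
      have h2 := h1 t ht j
      rwa [div_div, ← pow_succ] at h2
  have hlim : Filter.Tendsto (fun n : ℕ => δ0 / 2 ^ n) Filter.atTop (nhds 0) :=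
    tendsto_const_nhds.div_atTop (tendsto_pow_atTop_atTop_of_one_lt one_lt_two)
  intro t ht
  constructor
  · funext j
    have h1 : |I t j - I' t j| ≤ 0 := ge_of_tendsto' hlim fun n => (hiter n t ht j).1
    have h2 := abs_nonpos_iff.1 h1
    linarith
  · funext j
    have h1 : |φ t j - φ' t j| ≤ 0 := ge_of_tendsto' hlim fun n => (hiter n t ht j).2
    have h2 := abs_nonpos_iff.1 h1
    linarith

theorem LTuq.shift {f : Site d → Site d → ℂ × ℂ × ℂ × ℂ → ℂ} {r e : ℝ} {ω : Site d → ℝ}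
    {I φ : ℝ → Site d → ℝ} (hx : LTuq f r e ω I φ) (t0 : ℝ) :
    LTuq f r e ω (fun t => I (t + t0)) (fun t => φ (t + t0)) where
  bd := fun t j => hx.bd (t + t0) j
  sA := fun t j => hx.sA (t + t0) j
  sG := fun t j => hx.sG (t + t0) j
  dI := fun t j => by
    obtain ⟨a, ha, ha2⟩ := hx.dI (t + t0) j
    exact ⟨a, ha.comp_add_const t t0, ha2⟩
  dP := fun t j => by
    obtain ⟨a, ha, ha2⟩ := hx.dP (t + t0) j
    exact ⟨a, ha.comp_add_const t t0, ha2⟩

theorem LTuq.rev {f : Site d → Site d → ℂ × ℂ × ℂ × ℂ → ℂ} {r e : ℝ} {ω : Site d → ℝ}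
    {I φ : ℝ → Site d → ℝ} (hx : LTuq f r e ω I φ) :
    LTuq f r (-e) (-ω) (fun t => I (-t)) (fun t => φ (-t)) where
  bd := fun t j => hx.bd (-t) j
  sA := fun t j => hx.sA (-t) j
  sG := fun t j => hx.sG (-t) j
  dI := fun t j => by
    obtain ⟨a, ha, ha2⟩ := hx.dI (-t) j
    refine ⟨-a, ?_, ?_⟩
    · have := ha.comp t (hasDerivAt_neg t)
      rwa [mul_neg, mul_one] at this
    · rw [Complex.ofReal_neg, ha2]
      push_cast
      ring
  dP := fun t j => by
    obtain ⟨a, ha, ha2⟩ := hx.dP (-t) j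
    refine ⟨-a, ?_, ?_⟩
    · have := ha.comp t (hasDerivAt_neg t)
      rwa [mul_neg, mul_one] at this
    · rw [Complex.ofReal_neg, ha2, Pi.neg_apply]
      push_cast
      ring

theorem glob_uq (N : (Fin d → ℝ) → ℝ) (hN : IsNorm N) (r s C m : ℝ) (hr : 0 < r)
    (hs : 0 < s) (hC : 0 ≤ C) (hm : 0 < m) (f : Site d → Site d → ℂ × ℂ × ℂ × ℂ → ℂ)
    (hf : IsInteraction N r s C m f) (r' : ℝ) (hr' : r' < r)
    {e : ℝ} {ω : Site d → ℝ} {I φ I' φ' : ℝ → Site d → ℝ} (hx : LTuq f r e ω I φ)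
    (hy : LTuq f r e ω I' φ') (hI' : ∀ t j, |I' t j| ≤ r')
    (h0 : I 0 = I' 0) (h0' : φ 0 = φ' 0) (t : ℝ) (ht : 0 ≤ t) : I t = I' t ∧ φ t = φ' t := by
  have hr'0 : 0 ≤ r' := (abs_nonneg _).trans (hI' 0 0)
  obtain ⟨K, hK0, hKG, hKL⟩ := field_bound N hN r s C m hr hs hC hm f hf ((r + r') / 2)
    (by linarith) (by linarith)
  have hsum := exp_norm_summable N hN m hm
  set A : ℝ := |e| * (K * ∑' j : Site d, Real.exp (-m * N (iv j))) with hA
  have hA0 : 0 ≤ A := by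
    have : 0 ≤ ∑' j : Site d, Real.exp (-m * N (iv j)) :=
      tsum_nonneg fun j => (Real.exp_pos _).le
    positivity
  set t1 : ℝ := min ((r - r') / 2) (1 / 2) / (A + 1) with ht1
  have hmin : 0 < min ((r - r') / 2) (1 / 2) := lt_min (by linarith) (by norm_num)
  have ht1p : 0 < t1 := div_pos hmin (by linarith)
  have hAt : A * t1 ≤ min ((r - r') / 2) (1 / 2) := by
    rw [ht1, mul_div_assoc', div_le_iff₀ (by linarith)]
    nlinarith
  have h12 : r' + A * t1 ≤ (r + r') / 2 := by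
    have := hAt.trans (min_le_left _ _)
    linarith
  have hsm : A * t1 ≤ 1 / 2 := hAt.trans (min_le_right _ _)
  have hn : ∀ n : ℕ, ∀ t ∈ Set.Icc 0 (n * t1), I t = I' t ∧ φ t = φ' t := by
    intro n
    induction n with
    | zero =>
      intro t ht
      have : t = 0 := by
        have h1 := ht.2
        simp only [Nat.cast_zero, zero_mul] at h1
        exact le_antisymm h1 ht.1
      rw [this]
      exact ⟨h0, h0'⟩
    | succ n ih =>
      intro t ht
      by_cases htn : t ≤ n * t1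
      · exact ih t ⟨ht.1, htn⟩
      · have hn0 : (0 : ℝ) ≤ n * t1 := by positivity
        have h1 := ih (n * t1) ⟨hn0, le_refl _⟩
        have h2 := loc_uq N r s C m hs f hf hsum r' ((r + r') / 2) K (by linarith) hK0 hKG hKL
          (hx.shift (n * t1)) (hy.shift (n * t1)) (fun t j => hI' _ j) t1 ht1p.le h12 hsm
          (by simpa using h1.1) (by simpa using h1.2) (t - n * t1)
          ⟨by linarith, by
            have := ht.2
            push_cast at this
            linarith⟩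
        simpa using h2
  obtain ⟨n, hn'⟩ := exists_nat_ge (t / t1)
  refine hn n t ⟨ht, ?_⟩
  rwa [div_le_iff₀ ht1p] at hn'

theorem LTuq_of_traj {f : Site d → Site d → ℂ × ℂ × ℂ × ℂ → ℂ} {r e : ℝ} {ω : Site d → ℝ}
    {x : ℝ → Phase d} (hx : IsTrajectory f r e ω x) : ∃ φ : ℝ → Site d → ℝ,
    (∀ t j, ((φ t j : ℝ) : AddCircle (2 * Real.pi)) = (x t).2 j) ∧
      LTuq f r e ω (fun t => (x t).1) φ := by
  obtain ⟨φ, h1, h2, h3, h4⟩ := hx
  refine ⟨φ, h1, ⟨fun t j => (h4 t j).1, fun t j => (h4 t j).2.1, fun t j => (h4 t j).2.2.1,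
    fun t j => ⟨_, ?_, (h4 t j).2.2.2.1⟩, fun t j => ⟨_, ?_, (h4 t j).2.2.2.2⟩⟩⟩
  · exact ((h2 j).differentiable one_ne_zero t).hasDerivAt
  · exact ((h3 j).differentiable one_ne_zero t).hasDerivAt

theorem trajectory_unique (N : (Fin d → ℝ) → ℝ) (hN : IsNorm N) (r s C m : ℝ) (hr : 0 < r)
    (hs : 0 < s) (hC : 0 ≤ C) (hm : 0 < m) (f : Site d → Site d → ℂ × ℂ × ℂ × ℂ → ℂ)
    (hf : IsInteraction N r s C m f) (e : ℝ) (ω : Site d → ℝ) (x y : ℝ → Phase d)
    (hx : IsTrajectory f r e ω x) (hy : IsTrajectory f r e ω y) (r' : ℝ) (hr' : r' < r)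
    (hy' : ∀ t j, |(y t).1 j| ≤ r') (h0 : x 0 = y 0) (t : ℝ) : x t = y t := by
  obtain ⟨φ, hφ, hX⟩ := LTuq_of_traj hx
  obtain ⟨φ', hφ', hY⟩ := LTuq_of_traj hy
  -- change the lift of the second trajectory
  set c : Site d → ℝ := fun j => φ 0 j - φ' 0 j with hc
  have hc0 : ∀ j, ((c j : ℝ) : AddCircle (2 * Real.pi)) = 0 := by
    intro j
    rw [hc]
    simp only [AddCircle.coe_sub]
    rw [hφ, hφ', h0, sub_self]
  have hcP : ∀ t j, ((φ' t j : ℝ) : AddCircle (2 * Real.pi)) = ((φ' t j + c j : ℝ) :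
      AddCircle (2 * Real.pi)) := by
    intro t j
    rw [AddCircle.coe_add, hc0, add_zero]
  have hfp : ∀ t j i, dAng f (y t).1 (φ' t) j i = dAng f (y t).1 (fun j => φ' t j + c j) j i ∧
      dAct f (y t).1 (φ' t) j i = dAct f (y t).1 (fun j => φ' t j + c j) j i := fun t j i =>
    field_periodic N r s C m hs f hf (y t).1 (φ' t) _ (hY.bd t) (hcP t) j i
  have hY' : LTuq f r e ω (fun t => (y t).1) (fun t j => φ' t j + c j) := by
    refine ⟨hY.bd, fun t j => ?_, fun t j => ?_, fun t j => ?_, fun t j => ?_⟩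
    · exact (hY.sA t j).congr fun i => (hfp t j i).2
    · exact (hY.sG t j).congr fun i => (hfp t j i).1
    · obtain ⟨a, ha, ha2⟩ := hY.dI t j
      refine ⟨a, ha, ?_⟩
      rw [ha2, tsum_congr fun i => (hfp t j i).1]
    · obtain ⟨a, ha, ha2⟩ := hY.dP t j
      refine ⟨a, ha.add_const _, ?_⟩
      rw [ha2, tsum_congr fun i => (hfp t j i).2]
  have hI0 : (x 0).1 = (y 0).1 := by rw [h0]
  have hφ0 : φ 0 = fun j => φ' 0 j + c j := by
    funext j
    rw [hc]
    ring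
  have hall : (x t).1 = (y t).1 ∧ φ t = fun j => φ' t j + c j := by
    rcases le_total 0 t with ht | ht
    · exact glob_uq N hN r s C m hr hs hC hm f hf r' hr' hX hY' hy' hI0 hφ0 t ht
    · have h1 := glob_uq N hN r s C m hr hs hC hm f hf r' hr' hX.rev hY'.rev
        (fun t j => hy' (-t) j) (by simpa using hI0) (by simpa using hφ0) (-t) (by linarith)
      simpa using h1
  refine Prod.ext hall.1 ?_
  funext j
  rw [← hφ, ← hφ', hall.2, hcP]

end KamLattice
end
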