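import Pool.Agent.Lib.MP_73c19a_an.Mg.G014
import Pool.Agent.Lib.MP_73c19a_an.Mg.G019
import Pool.Agent.Lib.MP_73c19a_an.Mg.G022
import Pool.Agent.Lib.MP_73c19a_an.Mg.G004
import Pool.Agent.Lib.MP_73c19a_an.Mg.G005
import Pool.Agent.Lib.MP_73c19a_an.Mg.G013
import Pool.Agent.Lib.MP_73c19a_an.Mg.G025

section

/-!
# The transformation of one block on formal series
-/

set_option autoImplicit false

namespace KX

open scoped ENNReal

variable {V : Type} [DecidableEq V]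

section blke

/-- the new perturbation as a formal series -/
theorem be_next (G : Geo V) (be : V → ℝ) (bB : ℝ) (K : Blk V) (hK : K.OK G be bB) (S : RS V)
    (P0 : Lbl V → (V → ℝ) → ℂ) (b : Lbl V → ℝ) (l0 : V → ℝ) (hS : Start G be bB K S P0 b l0)
    (t : ℕ) (ht : t < 2 * K.L) (w : V → ℝ) (hw : w ∈ (run G be K S (t + 1)).Gd)
    (s1 : ℝ) (hs1 : 0 < s1) (hs1' : s1 ≤ K.sg)
    (hz : 24 * Real.exp (-(3 / 8) * K.P.mu) ≤ s1 ^ 2 / 2) :
    runp G be K S w (t + 1) = fun m =>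
      tp (pt (rung G be K S w t)) (runp G be K S w t)
        (pt (rst (Tr.EE G K.P t) fun h => (run G be K S t).u h w)) m -
        pt (rst (Tr.SS G K.P t) fun h => (run G be K S t).u h w) m := by
  have hrho : 0 < K.rho := hK.rho0
  have hwt : w ∈ (run G be K S t).Gd := run_Gd_anti G be K S (Nat.le_succ t) hw
  have hE0 : 0 < Real.exp (-(3 / 8) * K.P.mu) := Real.exp_pos _
  have hgen1 : ∑' h, ‖rung G be K S w t h‖ₑ * wT G K.rho s1 h ≤
      ENNReal.ofReal (2 * K.rho * Real.exp (-(3 / 8) * K.P.mu)) :=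
    (bd_sum_mono G K.rho hrho hs1' _).trans
      (sum_gen_le G be bB K hK S P0 b l0 hS t ht w hw)
  have husum1 : ∑' h, ‖(run G be K S t).u h w‖ₑ * wT G K.rho s1 h ≤
      ENNReal.ofReal (2 * K.rho * Real.exp (-(3 / 8) * K.P.mu)) :=
    (bd_sum_mono G K.rho hrho hs1' _).trans
      (sum_u_le G be bB K hK S P0 b l0 hS t ht.le w hwt)
  have hrung : rung G be K S w t =
      gen G K.P t (runw G be K S w t) fun h => (run G be K S t).u h w := rfl
  have hrunp : runp G be K S w t = pt fun h => (run G be K S t).u h w := rfl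
  have h1 := pt_nxt G K.P t (runw G be K S w t) (fun h => (run G be K S t).u h w) K.rho 0 (s1 / 2)
    (1 / 2) hrho le_rfl (by positivity) (by norm_num) le_rfl (by
      have e1 : (0 : ℝ) + 2 * (s1 / 2) = s1 := by ring
      rw [e1, ← hrung]
      refine (mul_le_mul_right hgen1 _).trans ?_
      rw [← ENNReal.ofReal_mul (by positivity)]
      apply ENNReal.ofReal_le_ofReal
      have h4 : 3 / (K.rho * (s1 / 2) ^ 2) * (2 * K.rho * Real.exp (-(3 / 8) * K.P.mu)) =
          24 * Real.exp (-(3 / 8) * K.P.mu) / s1 ^ 2 := by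
        field_simp
        ring
      rw [h4, div_le_iff₀ (by positivity)]
      linarith)
    (by
      have e1 : (0 : ℝ) + 2 * (s1 / 2) = s1 := by ring
      rw [e1]
      exact ne_top_of_le_ne_top ENNReal.ofReal_ne_top husum1)
  rw [hrung, hrunp, ← h1]
  rfl

/-- finiteness of the parts of degree at most one -/
theorem be_fin (G : Geo V) (be : V → ℝ) (bB : ℝ) (K : Blk V) (hK : K.OK G be bB) (S : RS V)
    (P0 : Lbl V → (V → ℝ) → ℂ) (b : Lbl V → ℝ) (l0 : V → ℝ) (hS : Start G be bB K S P0 b l0)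
    (t : ℕ) (ht : t ≤ 2 * K.L) (w : V → ℝ) (hw : w ∈ (run G be K S t).Gd)
    (rho0 s1 : ℝ) (hr0 : K.rho ≤ rho0) (hs1 : 0 < s1) (hs1' : s1 ≤ K.sg) (E : Tr V → Prop)
    (hE : ∀ h, E h → Tr.deg h ≤ 1) :
    nr (wg G rho0 s1) (pt (rst E fun h => (run G be K S t).u h w)) ≠ ∞ := by
  have hrho : 0 < K.rho := hK.rho0
  have husum1 : ∑' h, ‖(run G be K S t).u h w‖ₑ * wT G K.rho s1 h ≤
      ENNReal.ofReal (2 * K.rho * Real.exp (-(3 / 8) * K.P.mu)) :=
    (bd_sum_mono G K.rho hrho hs1' _).trans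
      (sum_u_le G be bB K hK S P0 b l0 hS t ht w hw)
  have h1 := nr_deg_le G K.rho rho0 s1 hrho hr0 hs1.le
    (rst E fun h => (run G be K S t).u h w) (by
      intro h hh
      unfold rst at hh
      by_cases hEh : E h
      · exact hE h hEh
      · rw [if_neg hEh] at hh; exact absurd rfl hh)
  refine ne_top_of_le_ne_top ?_ h1
  refine ENNReal.mul_ne_top ENNReal.ofReal_ne_top ?_
  exact ne_top_of_le_ne_top ENNReal.ofReal_ne_top
    ((bd_rst_le G K.rho s1 E _).trans husum1)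

/-- the generator at the large scale -/
theorem be_F (G : Geo V) (be : V → ℝ) (bB : ℝ) (K : Blk V) (hK : K.OK G be bB) (S : RS V)
    (P0 : Lbl V → (V → ℝ) → ℂ) (b : Lbl V → ℝ) (l0 : V → ℝ) (hS : Start G be bB K S P0 b l0)
    (t : ℕ) (ht : t < 2 * K.L) (w : V → ℝ) (hw : w ∈ (run G be K S (t + 1)).Gd)
    (rho0 : ℝ) (hr0 : K.rho ≤ rho0) :
    nr (wg G rho0 K.sg) (pt (rung G be K S w t)) ≤
      ENNReal.ofReal (2 * rho0 * Real.exp (-(3 / 8) * K.P.mu)) := by
  have hrho : 0 < K.rho := hK.rho0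
  have hrho0 : 0 < rho0 := hrho.trans_le hr0
  have hgen := sum_gen_le G be bB K hK S P0 b l0 hS t ht w hw
  have hrung : rung G be K S w t =
      gen G K.P t (runw G be K S w t) fun h => (run G be K S t).u h w := rfl
  have h1 := nr_deg_le G K.rho rho0 K.sg hrho hr0 hK.sg0 (rung G be K S w t) (by
    intro h hh
    rw [hrung] at hh
    unfold gen rst at hh
    by_cases hEh : Tr.EE G K.P t h
    · exact hEh.1
    · rw [if_neg hEh] at hh; exact absurd rfl hh)
  refine h1.trans ((mul_le_mul_right hgen _).trans ?_)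
  rw [← ENNReal.ofReal_mul (by positivity)]
  apply ENNReal.ofReal_le_ofReal
  apply le_of_eq
  field_simp

/-- finiteness of the perturbation after one step -/
theorem be_step (G : Geo V) (be : V → ℝ) (bB : ℝ) (K : Blk V) (hK : K.OK G be bB) (S : RS V)
    (P0 : Lbl V → (V → ℝ) → ℂ) (b : Lbl V → ℝ) (l0 : V → ℝ) (hS : Start G be bB K S P0 b l0)
    (t : ℕ) (ht : t < 2 * K.L) (w : V → ℝ) (hw : w ∈ (run G be K S (t + 1)).Gd)
    (rho0 s y z s2 : ℝ) (hr0 : K.rho ≤ rho0) (hs : 0 < s) (hy : 0 < y) (hs2 : 0 < s2)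
    (hss : s2 ≤ K.sg) (hsy : s + y ≤ K.sg / 2) (hz0 : 0 ≤ z) (hz1 : z ≤ 1 / 2)
    (hz : 12 * Real.exp (-(3 / 8) * K.P.mu) / (y * s2) ≤ z) (hys : y ≤ s2 / 4)
    (hp : nr (wg G rho0 (s + y)) (runp G be K S w t) ≠ ∞) :
    nr (wg G rho0 s) (runp G be K S w (t + 1)) ≠ ∞ := by
  have hrho : 0 < K.rho := hK.rho0
  have hrho0 : 0 < rho0 := hrho.trans_le hr0
  have hE0 : 0 < Real.exp (-(3 / 8) * K.P.mu) := Real.exp_pos _
  have hwt : w ∈ (run G be K S t).Gd := run_Gd_anti G be K S (Nat.le_succ t) hw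
  have hsg : 0 < K.sg := hs2.trans_le hss
  rw [be_next G be bB K hK S P0 b l0 hS t ht w hw s2 hs2 hss (by
    rw [div_le_iff₀ (by positivity)] at hz
    nlinarith [mul_le_mul_of_nonneg_right hys hs2.le, mul_nonneg hy.le hs2.le])]
  have hF : ENNReal.ofReal (6 / (rho0 * y * K.sg)) * nr (wg G rho0 K.sg) (pt (rung G be K S w t)) ≤
      ENNReal.ofReal z := by
    refine (mul_le_mul_right (be_F G be bB K hK S P0 b l0 hS t ht w hw rho0 hr0) _).trans ?_
    rw [← ENNReal.ofReal_mul (by positivity)]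
    apply ENNReal.ofReal_le_ofReal
    have e1 : 6 / (rho0 * y * K.sg) * (2 * rho0 * Real.exp (-(3 / 8) * K.P.mu)) =
        12 * Real.exp (-(3 / 8) * K.P.mu) / (y * K.sg) := by
      field_simp
      norm_num
    rw [e1]
    refine le_trans ?_ hz
    gcongr
  have h1 := nr_tp_le G rho0 s y K.sg z hrho0 hs.le hy hsg hsy hz0 hz1
    (pt (rung G be K S w t)) (runp G be K S w t)
    (pt (rst (Tr.EE G K.P t) fun h => (run G be K S t).u h w)) hF
  have h2 : nr (wg G rho0 (s + y))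
      (pt (rst (Tr.EE G K.P t) fun h => (run G be K S t).u h w)) ≠ ∞ :=
    be_fin G be bB K hK S P0 b l0 hS t ht.le w hwt rho0 (s + y) hr0 (by positivity)
      (by linarith) _ fun h hh => hh.1
  have h3 : nr (wg G rho0 s)
      (pt (rst (Tr.SS G K.P t) fun h => (run G be K S t).u h w)) ≠ ∞ :=
    be_fin G be bB K hK S P0 b l0 hS t ht.le w hwt rho0 s hr0 hs
      (by linarith) _ fun h hh => hh.1
  have h4 : nr (wg G rho0 s) (tp (pt (rung G be K S w t)) (runp G be K S w t)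
      (pt (rst (Tr.EE G K.P t) fun h => (run G be K S t).u h w))) ≠ ∞ :=
    ne_top_of_le_ne_top (ENNReal.mul_ne_top (by norm_num) (ENNReal.add_ne_top.2 ⟨hp, h2⟩)) h1
  have h5 : (fun m => tp (pt (rung G be K S w t)) (runp G be K S w t)
        (pt (rst (Tr.EE G K.P t) fun h => (run G be K S t).u h w)) m -
        pt (rst (Tr.SS G K.P t) fun h => (run G be K S t).u h w) m) =
      fun m => tp (pt (rung G be K S w t)) (runp G be K S w t)
        (pt (rst (Tr.EE G K.P t) fun h => (run G be K S t).u h w)) m +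
        (fun m' => (-1 : ℂ) * pt (rst (Tr.SS G K.P t) fun h => (run G be K S t).u h w) m') m := by
    funext m; ring
  rw [h5]
  refine ne_top_of_le_ne_top ?_ (nr_add_le _ _ _)
  rw [nr_smul]
  exact ENNReal.add_ne_top.2 ⟨h4, ENNReal.mul_ne_top (by simp) h3⟩

end blke

/-- The whole block: levels `s + 2 L y → s` for the observables, `s2 + 2 L y → s2` for the
finiteness of the perturbation (`s2 / 4` has to dominate the levels of the observables). -/
theorem block_tsf (G : Geo V) (be : V → ℝ) (bB : ℝ) (K : Blk V) (hK : K.OK G be bB) (S : RS V)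
    (P0 : Lbl V → (V → ℝ) → ℂ) (b : Lbl V → ℝ) (l0 : V → ℝ) (hS : Start G be bB K S P0 b l0)
    (w : V → ℝ) (hw : w ∈ (run G be K S (2 * K.L)).Gd)
    (rho0 s s2 y z : ℝ) (hr0 : K.rho ≤ rho0) (hs : 0 ≤ s) (hy : 0 < y)
    (hs2 : s + (2 * K.L : ℕ) * y ≤ s2 / 4) (hsg : s2 + (2 * K.L : ℕ) * y ≤ K.sg / 2)
    (hs20 : 0 < s2) (hz1 : z * (2 * K.L : ℕ) ≤ 1 / 4)
    (hz : 12 * Real.exp (-(3 / 8) * K.P.mu) / (y * s2) ≤ z)
    (hp : nr (wg G rho0 (s2 + (2 * K.L : ℕ) * y)) (runp G be K S w 0) ≠ ∞) :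
    (∃ Φ, Tsf G rho0 (s + (2 * K.L : ℕ) * y) s (4 * (2 * K.L : ℕ) * z) (runw G be K S w 0)
      (runp G be K S w 0) (runw G be K S w (2 * K.L)) (runp G be K S w (2 * K.L)) Φ) ∧
    nr (wg G rho0 s2) (runp G be K S w (2 * K.L)) ≠ ∞ := by
  have hrho : 0 < K.rho := hK.rho0
  have hrho0 : 0 < rho0 := hrho.trans_le hr0
  have hE0 : 0 < Real.exp (-(3 / 8) * K.P.mu) := Real.exp_pos _
  have hz0 : 0 ≤ z := le_trans (by positivity) hz
  have hL1 : (1 : ℝ) ≤ (2 * K.L : ℕ) := by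
    have := hK.L1
    exact_mod_cast (by omega : 1 ≤ 2 * K.L)
  have hyL : y ≤ (2 * K.L : ℕ) * y := by nlinarith
  have hzL : z ≤ 1 / 4 := le_trans (by nlinarith) hz1
  have hsg0 : s2 ≤ K.sg := by
    have : 0 ≤ ((2 * K.L : ℕ) : ℝ) * y := by positivity
    linarith
  have main : ∀ t : ℕ, t ≤ 2 * K.L →
      (∃ Φ, Tsf G rho0 (s + (2 * K.L : ℕ) * y) (s + ((2 * K.L : ℕ) - (t : ℝ)) * y) (4 * t * z)
        (runw G be K S w 0) (runp G be K S w 0) (runw G be K S w t) (runp G be K S w t) Φ) ∧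
      nr (wg G rho0 (s2 + ((2 * K.L : ℕ) - (t : ℝ)) * y)) (runp G be K S w t) ≠ ∞ := by
    intro t
    induction t with
    | zero =>
      intro _
      refine ⟨⟨id, ?_⟩, ?_⟩
      · have e1 : s + (((2 * K.L : ℕ) : ℝ) - ((0 : ℕ) : ℝ)) * y = s + (2 * K.L : ℕ) * y := by
          push_cast; ring
        rw [e1]
        exact Tsf.refl G rho0 _ _ (by simp) _ _
      · have e1 : s2 + (((2 * K.L : ℕ) : ℝ) - ((0 : ℕ) : ℝ)) * y = s2 + (2 * K.L : ℕ) * y := by
          push_cast; ring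
        rw [e1]
        exact hp
    | succ t ih =>
      intro ht
      obtain ⟨⟨Φ, hΦ⟩, hfin⟩ := ih (by omega)
      have htlt : t < 2 * K.L := by omega
      have hw1 : w ∈ (run G be K S (t + 1)).Gd := run_Gd_anti G be K S ht hw
      have htR : ((t : ℕ) : ℝ) + 1 ≤ (2 * K.L : ℕ) := by exact_mod_cast ht
      have hm0 : 0 ≤ (((2 * K.L : ℕ) : ℝ) - ((t + 1 : ℕ) : ℝ)) * y := by
        push_cast at htR ⊢
        apply mul_nonneg _ hy.le
        linarith
      have e2 : (((2 * K.L : ℕ) : ℝ) - (t : ℝ)) * y =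
          (((2 * K.L : ℕ) : ℝ) - ((t + 1 : ℕ) : ℝ)) * y + y := by
        push_cast; ring
      have hle : (((2 * K.L : ℕ) : ℝ) - (t : ℝ)) * y ≤ (2 * K.L : ℕ) * y := by
        have : (0 : ℝ) ≤ (t : ℝ) := Nat.cast_nonneg t
        nlinarith
      have hs1pos : 0 < s2 + (((2 * K.L : ℕ) : ℝ) - (t : ℝ)) * y := by rw [e2]; linarith
      have hstep := step_tsf G be bB K hK S P0 b l0 hS t htlt w hw1 rho0
        (s2 + (((2 * K.L : ℕ) : ℝ) - (t : ℝ)) * y)
        (s + (((2 * K.L : ℕ) : ℝ) - ((t + 1 : ℕ) : ℝ)) * y) y z hr0 hs1pos (by linarith)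
        (by linarith) hy (by linarith) (by linarith) (by
          refine le_trans ?_ hz
          have : s2 ≤ s2 + (((2 * K.L : ℕ) : ℝ) - (t : ℝ)) * y := by rw [e2]; linarith
          gcongr) hfin
      refine ⟨⟨expX (pt (rung G be K S w t)) ∘ Φ, ?_⟩, ?_⟩
      · have e3 : s + (((2 * K.L : ℕ) : ℝ) - ((t + 1 : ℕ) : ℝ)) * y + y =
            s + (((2 * K.L : ℕ) : ℝ) - (t : ℝ)) * y := by rw [e2]; ring
        rw [e3] at hstep
        have hc := Tsf.comp hrho0 (by linarith) (by linarith) (by positivity) (by positivity)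
          hΦ hstep
        refine Tsf.mono hrho0 hc le_rfl le_rfl ?_
        have h1 : 4 * (t : ℝ) * z ≤ 1 := by
          have : (t : ℝ) * z ≤ (2 * K.L : ℕ) * z := by
            apply mul_le_mul_of_nonneg_right _ hz0
            linarith
          nlinarith
        push_cast
        nlinarith
      · exact be_step G be bB K hK S P0 b l0 hS t htlt w hw1 rho0 _ y z s2 hr0 (by linarith) hy
          hs20 hsg0 (by rw [add_assoc, ← e2]; linarith) hz0 (by linarith) hz (by linarith)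
          (by rw [add_assoc, ← e2]; exact hfin)
  obtain ⟨⟨Φ, hΦ⟩, hfin⟩ := main (2 * K.L) le_rfl
  refine ⟨⟨Φ, ?_⟩, ?_⟩
  · have e1 : s + (((2 * K.L : ℕ) : ℝ) - ((2 * K.L : ℕ) : ℝ)) * y = s := by ring
    rw [e1] at hΦ
    exact hΦ
  · have e1 : s2 + (((2 * K.L : ℕ) : ℝ) - ((2 * K.L : ℕ) : ℝ)) * y = s2 := by ring
    rw [e1] at hfin
    exact hfin

end KX
end

section

/-!
# All blocks
-/

set_option autoImplicit false

namespace KX

open MeasureTheory

open scoped ENNReal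

variable {V : Type} [DecidableEq V]

/-- the chain of transformations for a good frequency vector. `y u` is the loss of the level of the
observables per inner step of the block `u`, `s0` the final level, `sg1` a lower bound of all the
exponents `(K u).sg`. -/
theorem glob_chain (G : Geo V) (be : V → ℝ) (bB : ℝ) (K : ℕ → Blk V) (Cb : ℝ)
    (hK : Seq G be bB K Cb) (P0 : Lbl V → ℂ) (hr : ∀ l, P0 l.conj = (starRingEnd ℂ) (P0 l))
    (hn : ∑' l, ENNReal.ofReal (‖P0 l‖ * Wl G (K 0).rho (K 0).sg0 (K 0).kp0 (K 0).v0 l) ≤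
      ENNReal.ofReal ((K 0).rho * Real.exp (-(K 0).P.mu)))
    (w : V → ℝ) (hw : ∀ u, w ∈ (glob G be K P0 u).Gd)
    (sg1 : ℝ) (hsg1 : 0 < sg1) (hsg : ∀ u, sg1 ≤ (K u).sg) (y z : ℕ → ℝ) (hy : ∀ u, 0 < y u)
    (hys : Summable fun u => (2 * (K u).L : ℕ) * y u)
    (hy1 : ∑' u, (2 * (K u).L : ℕ) * y u ≤ sg1 / 64)
    (hz : ∀ u, 12 * Real.exp (-(3 / 8) * (K u).P.mu) / (y u * (sg1 / 4)) ≤ z u)
    (hz0 : ∀ u, 0 ≤ z u) (hz1 : ∀ u, z u * (2 * (K u).L : ℕ) ≤ 1 / 4)
    (hzs : Summable fun u => 4 * (2 * (K u).L : ℕ) * z u)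
    (hz4 : ∑' u, 4 * (2 * (K u).L : ℕ) * z u ≤ 1 / 4)
    (hmu : Filter.Tendsto (fun u => (K u).P.mu) Filter.atTop Filter.atTop)
    (hp : nr (wg G (K 0).rho (sg1 / 2)) (pt (lf0 P0)) ≠ ∞) :
    ∃ (s : ℕ → ℝ) (Φ : ℕ → (Mon V → ℂ) → Mon V → ℂ) (w' : V → ℝ), s 0 = sg1 / 32 ∧
      Chain G (K 0).rho (sg1 / 64) s (fun u => 4 * (2 * (K u).L : ℕ) * z u)
        (fun u => frq (glob G be K P0 u).c w)
        (fun u => pt fun h => (glob G be K P0 u).u h w) Φ w' := by
  classical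
  set Y : ℕ → ℝ := fun u => (2 * (K u).L : ℕ) * y u with hY
  have hY0 : ∀ u, 0 ≤ Y u := fun u => mul_nonneg (Nat.cast_nonneg _) (hy u).le
  set Q : ℕ → ℝ := fun u => ∑ v ∈ Finset.range u, Y v with hQ
  have hQ0 : ∀ u, 0 ≤ Q u := fun u => Finset.sum_nonneg fun v _ => hY0 v
  have hQ1 : ∀ u, Q u ≤ sg1 / 64 := fun u =>
    (hys.sum_le_tsum (Finset.range u) fun v _ => hY0 v).trans hy1
  have hQs : ∀ u, Q (u + 1) = Q u + Y u := fun u => Finset.sum_range_succ _ _
  -- the scales decrease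
  have hrho : ∀ u, (K u).rho ≤ (K 0).rho := by
    intro u
    induction u with
    | zero => exact le_rfl
    | succ u ih =>
      have h1 : Real.exp (-(K (u + 1)).P.mu) ≤ 1 :=
        Real.exp_le_one_iff.2 (by have := (K (u + 1)).P.mu_pos; linarith)
      have h2 : 0 < (K u).rho := (hK.ok u).rho0
      rw [hK.rho u]
      have h3 : (K u).rho * Real.exp (-(K (u + 1)).P.mu) ≤ (K u).rho :=
        mul_le_of_le_one_right h2.le h1
      have h4 : 0 < (K u).rho * Real.exp (-(K (u + 1)).P.mu) := by positivity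
      linarith
  -- the perturbations
  have hpn : ∀ u, (pt fun h => (glob G be K P0 (u + 1)).u h w) =
      runp G be (K u) (glob G be K P0 u) w (2 * (K u).L) := by
    intro u
    obtain ⟨b, hb⟩ := glob_start G be bB K Cb hK P0 hr hn u
    have h1 := sum_u_le G be bB (K u) (hK.ok u) (glob G be K P0 u) (gP G be K P0 u) b (lsum K u)
      hb (2 * (K u).L) le_rfl w (hw (u + 1))
    exact pt_pnext G (K u).rho (K u).sg (hK.ok u).rho0 (hK.ok u).sg0
      (run G be (K u) (glob G be K P0 u) (2 * (K u).L)).u w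
      (ne_top_of_le_ne_top ENNReal.ofReal_ne_top h1)
  -- one block
  have key : ∀ u, nr (wg G (K 0).rho (sg1 / 2 - Q u)) (pt fun h => (glob G be K P0 u).u h w) ≠ ∞ →
      (∃ Φ, Tsf G (K 0).rho (sg1 / 32 - Q u) (sg1 / 32 - Q (u + 1))
        (4 * (2 * (K u).L : ℕ) * z u) (frq (glob G be K P0 u).c w)
        (pt fun h => (glob G be K P0 u).u h w) (frq (glob G be K P0 (u + 1)).c w)
        (pt fun h => (glob G be K P0 (u + 1)).u h w) Φ) ∧
      nr (wg G (K 0).rho (sg1 / 2 - Q (u + 1))) (pt fun h => (glob G be K P0 (u + 1)).u h w) ≠ ∞ := by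
    intro u hu
    obtain ⟨b, hb⟩ := glob_start G be bB K Cb hK P0 hr hn u
    have e1 : sg1 / 32 - Q (u + 1) + (2 * (K u).L : ℕ) * y u = sg1 / 32 - Q u := by
      rw [hQs]; simp only [hY]; ring
    have e2 : sg1 / 2 - Q (u + 1) + (2 * (K u).L : ℕ) * y u = sg1 / 2 - Q u := by
      rw [hQs]; simp only [hY]; ring
    have q0 := hQ0 u
    have q1 := hQ1 u
    have q2 := hQ0 (u + 1)
    have q3 := hQ1 (u + 1)
    have hsu := hsg u
    have h := block_tsf G be bB (K u) (hK.ok u) (glob G be K P0 u) (gP G be K P0 u) b (lsum K u)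
      hb w (hw (u + 1)) (K 0).rho (sg1 / 32 - Q (u + 1)) (sg1 / 2 - Q (u + 1)) (y u) (z u)
      (hrho u) (by linarith) (hy u) (by rw [e1]; linarith) (by rw [e2]; linarith)
      (by linarith) (hz1 u) (by
        refine le_trans ?_ (hz u)
        have hyu := hy u
        have h1 : y u * (sg1 / 4) ≤ y u * (sg1 / 2 - Q (u + 1)) :=
          mul_le_mul_of_nonneg_left (by linarith) hyu.le
        have h2 : 0 < y u * (sg1 / 4) := by positivity
        exact div_le_div_of_nonneg_left (by positivity) h2 h1)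
      (by rw [e2]; exact hu)
    rw [e1, ← hpn u] at h
    exact h
  have hfin : ∀ u, nr (wg G (K 0).rho (sg1 / 2 - Q u)) (pt fun h => (glob G be K P0 u).u h w) ≠ ∞ := by
    intro u
    induction u with
    | zero =>
      have h0 : Q 0 = 0 := Finset.sum_range_zero _
      rw [h0, sub_zero]
      exact hp
    | succ u ih => exact (key u ih).2
  choose Φ hΦ using fun u => (key u (hfin u)).1
  choose w' hw' using glob_conv G be bB K Cb hK P0 hr hn w hw
  refine ⟨fun u => sg1 / 32 - Q u, Φ, w', ?_, ?_⟩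
  · have h0 : Q 0 = 0 := Finset.sum_range_zero _
    change sg1 / 32 - Q 0 = sg1 / 32
    rw [h0, sub_zero]
  · refine
      { rho0 := (hK.ok 0).rho0
        s00 := by positivity
        s0s := fun t => by have := hQ1 t; linarith
        anti := fun t => by have := hQs t; have := hY0 t; linarith
        ep0 := fun t => by have := hz0 t; positivity
        eps := hzs
        ep4 := hz4
        tsf := hΦ
        small := ?_
        wlim := hw' }
    -- smallness of the part of degree at most one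
    have hb : ∀ u, nr (wg G (K 0).rho (sg1 / 64)) (le1 (pt fun h => (glob G be K P0 u).u h w)) ≤
        ENNReal.ofReal (2 * (K 0).rho * Real.exp (-(3 / 8) * (K u).P.mu)) := by
      intro u
      obtain ⟨b, hb⟩ := glob_start G be bB K Cb hK P0 hr hn u
      have h1 := sum_u_le G be bB (K u) (hK.ok u) (glob G be K P0 u) (gP G be K P0 u) b (lsum K u)
        hb 0 (Nat.zero_le _) w (hw u)
      have hsu := hsg u
      have h2 : nr (wg G (K 0).rho (sg1 / 64)) (le1 (pt fun h => (glob G be K P0 u).u h w)) ≤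
          nr (wg G (K 0).rho (K u).sg) (le1 (pt fun h => (glob G be K P0 u).u h w)) :=
        nr_mono (fun m => wg_mono G (K 0).rho (hK.ok 0).rho0 (by linarith) m) _
      have h3 := nr_le1_le G (K u).rho (K 0).rho (K u).sg (hK.ok u).rho0 (hrho u) (hK.ok u).sg0
        (fun h => (glob G be K P0 u).u h w)
      refine h2.trans (h3.trans ?_)
      refine (mul_le_mul_right h1 _).trans ?_
      have hru := (hK.ok u).rho0
      have hr0 := (hK.ok 0).rho0
      rw [← ENNReal.ofReal_mul (by positivity)]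
      refine ENNReal.ofReal_le_ofReal (le_of_eq ?_)
      field_simp
    have ht : Filter.Tendsto (fun u => ENNReal.ofReal (2 * (K 0).rho *
        Real.exp (-(3 / 8) * (K u).P.mu))) Filter.atTop (nhds 0) := by
      rw [← ENNReal.ofReal_zero]
      refine ENNReal.tendsto_ofReal ?_
      have h1 : Filter.Tendsto (fun u => -(3 / 8 : ℝ) * (K u).P.mu) Filter.atTop Filter.atBot :=
        Filter.Tendsto.const_mul_atTop_of_neg (by norm_num) hmu
      have h2 := (Real.tendsto_exp_atBot.comp h1).const_mul (2 * (K 0).rho)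
      simpa using h2
    exact tendsto_of_tendsto_of_tendsto_of_le_of_le tendsto_const_nhds ht (fun _ => zero_le) hb

end KX
end

section

/-!
# Assembly: the torus of a good frequency vector
-/

set_option autoImplicit false

namespace KX

open MeasureTheory KamLattice

open scoped ENNReal

variable {d : ℕ}

theorem Blk_sg_le_sg0 {V : Type} [DecidableEq V] (G : Geo V) (be : V → ℝ) (bB : ℝ) (K : Blk V)
    (hK : K.OK G be bB) : K.sg ≤ K.sg0 := by
  unfold Blk.sg0 Blk.ch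
  have h1 := hK.y0
  have h2 := hK.C.th0
  have h3 := K.P.de_pos
  have h4 : 0 ≤ 2 * K.y * (2 * K.L : ℕ) := by positivity
  have h5 : 0 ≤ (1 / 2 + 9 * K.C.th) * K.P.de := by positivity
  linarith

theorem Blk_kp0_nonneg {V : Type} [DecidableEq V] (G : Geo V) (be : V → ℝ) (bB : ℝ) (K : Blk V)
    (hK : K.OK G be bB) : 0 ≤ K.kp0 := by
  unfold Blk.kp0 Blk.ch
  have h1 := hK.kp0
  have h2 := hK.C.th0
  have h3 := K.P.de_pos
  positivity

/-- For a good frequency vector `w` there is an invariant torus. -/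
theorem exists_torus (N : (Fin d → ℝ) → ℝ) (hN : IsNorm N) (r s C m : ℝ) (hr : 0 < r) (hs : 0 < s)
    (hC : 0 ≤ C) (hm : 0 < m) (f : Site d → Site d → ℂ × ℂ × ℂ × ℂ → ℂ)
    (hf : IsInteraction N r s C m f) (a : Site d → ℝ) (ha0 : ∀ j, 0 < a j) (ha1 : ∀ j, a j ≤ 1)
    (be : Site d → ℝ) (bB : ℝ) (K : ℕ → Blk (Site d)) (Cb : ℝ)
    (hK : Seq (geoZ d a ha0 ha1) be bB K Cb) (y z : ℕ → ℝ) (s1 : ℝ) (hs1 : 0 < s1) (hs11 : s1 ≤ 1)
    (hv0 : ∀ j, 1 ≤ (K 0).v0 j)
    (hsg : ∀ u, s1 ≤ (K u).sg) (hy : ∀ u, 0 < y u)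
    (hys : Summable fun u => (2 * (K u).L : ℕ) * y u)
    (hy1 : ∑' u, (2 * (K u).L : ℕ) * y u ≤ s1 / 64)
    (hz : ∀ u, 12 * Real.exp (-(3 / 8) * (K u).P.mu) / (y u * (s1 / 4)) ≤ z u)
    (hz0 : ∀ u, 0 ≤ z u) (hz1 : ∀ u, z u * (2 * (K u).L : ℕ) ≤ 1 / 4)
    (hzs : Summable fun u => 4 * (2 * (K u).L : ℕ) * z u)
    (hz4 : ∑' u, 4 * (2 * (K u).L : ℕ) * z u ≤ s1 / 2000)
    (hmu : Filter.Tendsto (fun u => (K u).P.mu) Filter.atTop Filter.atTop)
    (cs R c ep : ℝ) (hcs : 0 < cs) (hR : (K 0).rho < R) (hRr : cs + R < r) (hep : 0 < ep)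
    (hc : 0 < c) (hc1 : cs ≤ c) (hc2 : c / 2 + (K 0).rho / 4 ≤ cs)
    (cf : (Site d × Site d) × ℕ × ℕ × ℤ × ℤ → ℂ)
    (hcr : ∀ p n1 n2 k1 k2, cf (p, n1, n2, -k1, -k2) = (starRingEnd ℂ) (cf (p, n1, n2, k1, k2)))
    (hx : Exd f a cs R cf) (Kc : ℝ) (hKc : 0 ≤ Kc)
    (hsum : ∑' x, ‖cf x‖ₑ * ENNReal.ofReal (Wl (geoZ d a ha0 ha1) (K 0).rho (K 0).sg0 (K 0).kp0
      (K 0).v0 (lblOf x)) ≤ ENNReal.ofReal Kc)
    (hepK : ep * Kc ≤ (K 0).rho * Real.exp (-(K 0).P.mu))
    (w : Site d → ℝ) (hw : ∀ u, w ∈ (glob (geoZ d a ha0 ha1) be K (P0of ep cf) u).Gd) :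
    ∃ (Ψ : (Site d → AddCircle (2 * Real.pi)) → Phase d) (wt : Site d → ℝ),
      IsTorus f r ep w Ψ wt ∧ ∀ θ j, |(Ψ θ).1 j - c * a j| ≤ c * a j / 2 := by
  have hrho : 0 < (K 0).rho := (hK.ok 0).rho0
  have hsg0 : s1 ≤ (K 0).sg0 := (hsg 0).trans (Blk_sg_le_sg0 _ _ _ _ (hK.ok 0))
  have hkp0 : 0 ≤ (K 0).kp0 := Blk_kp0_nonneg _ _ _ _ (hK.ok 0)
  have hne : ∑' x, ‖cf x‖ₑ * ENNReal.ofReal (Wl (geoZ d a ha0 ha1) (K 0).rho (K 0).sg0 (K 0).kp0
      (K 0).v0 (lblOf x)) ≠ ∞ := ne_top_of_le_ne_top ENNReal.ofReal_ne_top hsum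
  have hn := (P0of_norm (geoZ d a ha0 ha1) (K 0).rho (K 0).sg0 (K 0).kp0 (K 0).v0 ep hep.le cf Kc hKc
    hrho (fun j => by linarith [hv0 j]) hsum).trans (ENNReal.ofReal_le_ofReal hepK)
  have hreal := P0of_real ep cf hcr
  obtain ⟨q1, q2, q3⟩ := P0of_pt (geoZ d a ha0 ha1) (K 0).rho (K 0).sg0 (K 0).kp0 (K 0).v0 hrho
    (hs1.le.trans hsg0) hkp0 hv0 ep hep.le cf hne
  have hlev : ∀ t : ℝ, t ≤ (K 0).sg0 →
      nr (wg (geoZ d a ha0 ha1) (K 0).rho t) (pt (lf0 (P0of ep cf))) ≠ ∞ := by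
    intro t ht
    refine ne_top_of_le_ne_top q3 ?_
    unfold nr
    exact ENNReal.tsum_le_tsum fun x => mul_le_mul_right (wg_mono _ _ hrho ht x) _
  obtain ⟨sl, Φ, w', hsl, hch⟩ := glob_chain (geoZ d a ha0 ha1) be bB K Cb hK (P0of ep cf) hreal hn
    w hw s1 hs1 hsg y z hy hys hy1 hz hz0 hz1 hzs (hz4.trans (by linarith)) hmu
    (hlev _ (by linarith))
  have hw0 : frq (glob (geoZ d a ha0 ha1) be K (P0of ep cf) 0).c w = w := by
    funext j
    show w j + 0 = w j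
    simp
  have hp0 : (fun u => pt fun h => (glob (geoZ d a ha0 ha1) be K (P0of ep cf) u).u h w) 0 =
      fun m => (ep : ℂ) * push monOf cf m := by
    show pt (fun h => lf0 (P0of ep cf) h) = _
    exact q1
  have hexp : Real.exp (sl 0) ≤ 2 := by
    rw [hsl]
    have h1 : s1 / 32 ≤ 1 / 2 := by linarith
    have h2 : Real.exp (1 / 2) ≤ 2 := by
      have h3 := Real.exp_one_lt_d9
      have h4 : Real.exp (1 / 2) * Real.exp (1 / 2) = Real.exp 1 := by
        rw [← Real.exp_add]; norm_num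
      nlinarith [Real.exp_pos (1 / 2)]
    exact (Real.exp_le_exp.2 h1).trans h2
  have hS0 : 0 ≤ ∑' u, 4 * (2 * (K u).L : ℕ) * z u :=
    tsum_nonneg fun u => by have := hz0 u; positivity
  have hsm1 : 2 * (∑' u, 4 * (2 * (K u).L : ℕ) * z u) * Real.exp (sl 0) ≤ s1 / 500 := by
    have := mul_le_mul (mul_le_mul_of_nonneg_left hz4 (by norm_num : (0 : ℝ) ≤ 2)) hexp
      (Real.exp_pos _).le (by linarith)
    linarith
  have hsm : 2 * (∑' u, 4 * (2 * (K u).L : ℕ) * z u) * Real.exp (sl 0) ≤ 1 / 4 := by linarith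
  have hsm' : 2 * (∑' u, 4 * (2 * (K u).L : ℕ) * z u) * Real.exp (sl 0) / (s1 / 64) ≤ 1 / 4 := by
    rw [div_le_iff₀ (by positivity)]
    linarith
  have hwg2 : nr (wg (geoZ d a ha0 ha1) (K 0).rho (2 * sl 0))
      ((fun u => pt fun h => (glob (geoZ d a ha0 ha1) be K (P0of ep cf) u).u h w) 0) ≠ ∞ := by
    show nr _ (pt (fun h => lf0 (P0of ep cf) h)) ≠ ∞
    rw [hsl]
    exact hlev _ (by linarith)
  obtain ⟨hcont, hinj⟩ := Psi_cont_inj a ha0 ha1 hch cs hsm hsm'
  have htraj : ∀ θ : Site d → Cir,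
      IsTrajectory f r ep w fun t => Psi a cs Φ (flow w' θ t) := by
    intro θ
    have h1 := Psi_traj f a ha0 ha1 hch cs R r ep (K 0).sg0 hcs hR hRr (hs1.trans_le hsg0) hsm cf hx
      q2 hp0 hwg2 θ
    rw [hw0] at h1
    exact h1
  have hbd : ∀ θ j, |(Psi a cs Φ θ).1 j - cs * a j| ≤ (K 0).rho * a j / 4 := by
    intro θ j
    have h1 := (TX_TE hch θ j).1
    have h2 : |(Psi a cs Φ θ).1 j - cs * a j| = |(TX Φ θ j).re| := by
      show |cs * a j + (TX Φ θ j).re - cs * a j| = _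
      rw [add_sub_cancel_left]
    rw [h2]
    refine (Complex.abs_re_le_norm _).trans (h1.trans ?_)
    show 2 * (∑' u, 4 * (2 * (K u).L : ℕ) * z u) * ((K 0).rho * a j * Real.exp (sl 0)) ≤ _
    have h3 : 0 ≤ (K 0).rho * a j := mul_nonneg hrho.le (ha0 j).le
    nlinarith [mul_le_mul_of_nonneg_left hsm h3]
  have hac : ∀ j, (K 0).rho * a j / 4 ≤ (cs - c / 2) * a j := by
    intro j
    have := mul_le_mul_of_nonneg_right (by linarith : (K 0).rho / 4 ≤ cs - c / 2) (ha0 j).le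
    linarith
  have hup : ∀ θ j, |(Psi a cs Φ θ).1 j| ≤ cs + R := by
    intro θ j
    have h1 := abs_le.1 (hbd θ j)
    have h2 := ha1 j
    have h3 := ha0 j
    have h4 : cs * a j ≤ cs := by nlinarith
    have h5 : (K 0).rho * a j / 4 ≤ R := by nlinarith
    have h6 : 0 < cs * a j := mul_pos hcs h3
    rw [abs_le]
    constructor <;> linarith
  refine ⟨Psi a cs Φ, w', ⟨hcont, hinj, ?_, htraj, ?_⟩, ?_⟩
  · intro θ j
    have h1 := abs_le.1 (hbd θ j)
    have h2 := hac j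
    have h3 : 0 < c / 2 * a j := mul_pos (by linarith) (ha0 j)
    have h4 : (cs - c / 2) * a j = cs * a j - c / 2 * a j := by ring
    linarith
  · intro θ x hx1 hx0 t
    have h1 := trajectory_unique N hN r s C m hr hs hC hm f hf ep w x
      (fun t => Psi a cs Φ (flow w' θ t)) hx1 (htraj θ) (cs + R) hRr (fun t j => hup _ j) ?_ t
    · exact h1
    · rw [hx0]
      show Psi a cs Φ θ = Psi a cs Φ (flow w' θ 0)
      congr 1
      funext j
      show θ j = θ j + ((0 * w' j : ℝ) : Cir)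
      simp
  · intro θ j
    have h1 := abs_le.1 (hbd θ j)
    have h2 := hac j
    have h4 : (cs - c / 2) * a j = cs * a j - c / 2 * a j := by ring
    have h5 : cs * a j ≤ c * a j := mul_le_mul_of_nonneg_right hc1 (ha0 j).le
    have h6 := mul_le_mul_of_nonneg_right hc2 (ha0 j).le
    rw [abs_le]
    constructor
    · nlinarith
    · have h7 : 0 < (K 0).rho * a j := mul_pos hrho (ha0 j)
      have h8 : (K 0).rho * a j / 4 ≤ c * a j / 2 := by nlinarith
      linarith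

end KX
end
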