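import Pool.Agent.Lib.MP_73c19a_an.Posc
import Pool.Agent.Lib.MP_73c19a_an.Mg.G007
import Pool.Agent.Lib.MP_73c19a_an.Mg.G008
import Pool.Agent.Lib.MP_73c19a_an.Mg.G003

section

/-!
# Positions in trees

`Lf h`: the leaf positions, `Dv h`: the positions of the divided (left) children, with their
subtrees and leaf sets.
-/

set_option autoImplicit false
set_option linter.unusedSectionVars false

namespace KX

variable {V : Type} [DecidableEq V]

namespace Tr

/-- number of leaf positions over a site -/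
noncomputable def mlt (h : Tr V) (i : V) : ℕ :=
  (Finset.univ.filter fun x : Lf h => i ∈ (lb h x).A).card

theorem mem_supp_osub (h : Tr V) (y : Option (Dv h)) {i : V} (hi : i ∈ (k (osub h y)).support) :
    ∃ x ∈ ls h y, i ∈ (lb h x).A := by
  have h1 : k (osub h y) = ∑ x ∈ ls h y, (lb h x).k :=
    sum_ls k (fun l => l.k) (fun _ => rfl) (fun _ _ _ => rfl) h y
  rw [h1, Finsupp.mem_support_iff, Finsupp.finsetSum_apply] at hi
  obtain ⟨x, hx, hne⟩ := Finset.exists_ne_zero_of_sum_ne_zero hi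
  exact ⟨x, hx, (lb h x).hk (Finsupp.mem_support_iff.2 hne)⟩

theorem lb_A_subset (h : Tr V) (x : Lf h) : (lb h x).A ⊆ A h := by
  induction h with
  | leaf l => exact Finset.Subset.refl _
  | node j f p hf hp =>
    rcases x with x | x
    · exact (hf x).trans Finset.subset_union_left
    · exact (hp x).trans Finset.subset_union_right

theorem one_le_mlt (h : Tr V) {i : V} (hi : i ∈ A h) : ∃ x : Lf h, i ∈ (lb h x).A := by
  induction h with
  | leaf l => exact ⟨(), hi⟩
  | node j f p hf hp =>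
    rcases Finset.mem_union.1 hi with h1 | h1
    · obtain ⟨x, hx⟩ := hf h1
      exact ⟨Sum.inl x, hx⟩
    · obtain ⟨x, hx⟩ := hp h1
      exact ⟨Sum.inr x, hx⟩

theorem mlt_pos (h : Tr V) {i : V} (hi : i ∈ A h) : 1 ≤ mlt h i := by
  obtain ⟨x, hx⟩ := one_le_mlt h hi
  exact Finset.card_pos.2 ⟨x, Finset.mem_filter.2 ⟨Finset.mem_univ _, hx⟩⟩

/-- double counting of the leaves over the sites of a set -/
theorem sum_card_eq_mlt (h : Tr V) (B : Finset V) (p : V → Prop) [DecidablePred p] :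
    ∑ x : Lf h, (((lb h x).A \ B).filter p).card = ∑ i ∈ (A h \ B).filter p, mlt h i := by
  have h1 : ∀ x : Lf h, (((lb h x).A \ B).filter p).card =
      ∑ i ∈ (A h \ B).filter p, if i ∈ (lb h x).A then 1 else 0 := by
    intro x
    rw [← Finset.sum_filter, Finset.sum_const, smul_eq_mul, mul_one]
    congr 1
    ext i
    simp only [Finset.mem_filter, Finset.mem_sdiff]
    constructor
    · rintro ⟨⟨h2, h3⟩, h4⟩
      exact ⟨⟨⟨lb_A_subset h x h2, h3⟩, h4⟩, h2⟩
    · rintro ⟨⟨⟨_, h3⟩, h4⟩, h2⟩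
      exact ⟨⟨h2, h3⟩, h4⟩
  simp_rw [h1]
  rw [Finset.sum_comm]
  refine Finset.sum_congr rfl fun i _ => ?_
  rw [← Finset.sum_filter, Finset.sum_const, smul_eq_mul, mul_one]
  rfl

theorem sum_mlt_eq_o (h : Tr V) (B : Finset V) : ∑ i ∈ A h \ B, mlt h i = o B h := by
  have h1 := sum_card_eq_mlt h B (fun _ => True)
  have h2 : o B h = ∑ x : Lf h, ((lb h x).A \ B).card :=
    sum_univ_ls (o B) (fun l => (l.A \ B).card) (fun _ => rfl) (fun _ _ _ => rfl) h
  simp only [Finset.filter_true] at h1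
  rw [h2, h1]

theorem sum_filter_mlt_le (h : Tr V) (B : Finset V) :
    ∑ i ∈ (A h \ B).filter (fun i => 2 ≤ mlt h i), mlt h i ≤ 2 * ov B h := by
  have h1 : (∑ i ∈ A h \ B, (mlt h i : ℤ)) = (A h \ B).card + ov B h := by
    have := sum_mlt_eq_o h B
    rw [o_eq] at this
    exact_mod_cast this
  have h2 : (∑ i ∈ (A h \ B).filter (fun i => 2 ≤ mlt h i), (mlt h i : ℤ)) ≤
      ∑ i ∈ A h \ B, (2 * (mlt h i : ℤ) - 2) := by
    rw [Finset.sum_filter]
    refine Finset.sum_le_sum fun i hi => ?_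
    have h3 := mlt_pos h (Finset.mem_sdiff.1 hi).1
    split_ifs with h4
    · omega
    · omega
  have h5 : ∑ i ∈ A h \ B, (2 * (mlt h i : ℤ) - 2) = 2 * (ov B h : ℤ) := by
    rw [Finset.sum_sub_distrib, ← Finset.mul_sum, h1, Finset.sum_const, nsmul_eq_mul]
    ring
  have h6 : ((∑ i ∈ (A h \ B).filter (fun i => 2 ≤ mlt h i), mlt h i : ℕ) : ℤ) ≤
      ((2 * ov B h : ℕ) : ℤ) := by
    push_cast
    linarith
  exact_mod_cast h6

/-- sites covered at least twice: summed over the divided positions they are at most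
`2 T` times the sum of the overlaps. Here `mult` counts the leaf positions over a site. -/
theorem sum_multi_le (G : Geo V) (P : BP V) (h : Tr V) (hg : Good G P h) (hd : deg h ≤ 1) (T : ℕ)
    (hT : tau G P h < T) :
    ∑ y : Option (Dv h), ((((k (osub h y)).support \ P.B).filter fun i =>
      2 ≤ (Finset.univ.filter fun x : Lf h => i ∈ (lb h x).A).card).card : ℝ) ≤
      T * (2 * ov P.B h) := by
  have h1 : ∀ y : Option (Dv h), (((k (osub h y)).support \ P.B).filter fun i =>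
      2 ≤ (Finset.univ.filter fun x : Lf h => i ∈ (lb h x).A).card).card ≤
      ∑ x : Lf h, if x ∈ ls h y then
        (((lb h x).A \ P.B).filter (fun i => 2 ≤ mlt h i)).card else 0 := by
    intro y
    rw [Finset.sum_ite_mem, Finset.univ_inter]
    refine le_trans (Finset.card_le_card ?_) Finset.card_biUnion_le
    intro i hi
    rw [Finset.mem_filter, Finset.mem_sdiff] at hi
    obtain ⟨⟨h2, h3⟩, h4⟩ := hi
    obtain ⟨x, hx, hxi⟩ := mem_supp_osub h y h2
    refine Finset.mem_biUnion.2 ⟨x, hx, ?_⟩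
    rw [Finset.mem_filter, Finset.mem_sdiff]
    exact ⟨⟨hxi, h3⟩, h4⟩
  have h2 : ∑ y : Option (Dv h), (((k (osub h y)).support \ P.B).filter fun i =>
      2 ≤ (Finset.univ.filter fun x : Lf h => i ∈ (lb h x).A).card).card ≤ T * (2 * ov P.B h) := by
    refine (Finset.sum_le_sum fun y _ => h1 y).trans ?_
    rw [Finset.sum_comm]
    refine le_trans ?_ (Nat.mul_le_mul_left T (sum_filter_mlt_le h P.B))
    rw [← sum_card_eq_mlt, Finset.mul_sum]
    refine Finset.sum_le_sum fun x _ => ?_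
    rw [← Finset.sum_filter, Finset.sum_const, smul_eq_mul]
    exact Nat.mul_le_mul_right _ (depth_le G P h hg hd T hT x)
  exact_mod_cast h2

end Tr

end KX
end

section

/-!
# Algebraic identities for formal series

All identities are equalities of push-forwards over a common index set (`push_push`, `push_congr`,
`push_add`, `push_equiv`).
-/

set_option autoImplicit false

namespace KX

open scoped ENNReal

variable {V : Type} [DecidableEq V]

theorem tsum_antidiag_alg2b {F : ℕ × ℕ → ℂ} (hF : Summable F) :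
    ∑' p, F p = ∑' n : ℕ, ∑ x ∈ Finset.HasAntidiagonal.antidiagonal n, F x := by
  conv_rhs => congr; ext; rw [← Finset.sum_finset_coe, ← tsum_fintype (L := .unconditional _)]
  rw [← Finset.HasAntidiagonal.sigmaAntidiagonalEquivProd.tsum_eq F]
  exact ((Finset.HasAntidiagonal.sigmaAntidiagonalEquivProd.summable_iff).2 hF).tsum_sigma'
    (fun n ↦ (hasSum_fintype _).summable)

theorem summable_alg2b {ι : Type} {u : ι → ℂ} (h : ∑' i, ‖u i‖ₑ ≠ ∞) :
    Summable fun i => ‖u i‖ := by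
  simp only [enorm_eq_nnnorm] at h
  have h1 := ENNReal.tsum_coe_ne_top_iff_summable.1 h
  exact NNReal.summable_coe.2 h1

theorem summable_w_alg2b {ι : Type} {u : ι → ℂ} {w : ℝ≥0∞} (hw : w ≠ 0)
    (h : ∑' i, ‖u i‖ₑ * w ≠ ∞) : Summable fun i => ‖u i‖ := by
  apply summable_alg2b
  intro h1
  rw [ENNReal.tsum_mul_right, h1, ENNReal.top_mul hw] at h
  exact h rfl

/-- pointwise summability of a series of series -/
theorem summable_pt_alg2b {M : Type} (w : M → ℝ≥0∞) (hw : ∀ m, w m ≠ 0) (g : ℕ → M → ℂ)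
    (hg : ∑' a, nr w (g a) ≠ ∞) (m : M) : Summable fun a => ‖g a m‖ := by
  refine summable_w_alg2b (hw m) (ne_top_of_le_ne_top hg (ENNReal.tsum_le_tsum fun a => ?_))
  exact ENNReal.le_tsum (f := fun m => ‖g a m‖ₑ * w m) m

theorem tsum_mul_alg2b {u v : ℕ → ℂ} (hu : Summable fun a => ‖u a‖)
    (hv : Summable fun a => ‖v a‖) :
    (∑' a, u a) * (∑' a, v a) = ∑' p : ℕ × ℕ, u p.1 * v p.2 :=
  tsum_mul_tsum_of_summable_norm hu hv

theorem tsum_prod_alg2b (x y : ℕ → ℝ≥0∞) :
    ∑' p : ℕ × ℕ, x p.1 * y p.2 = (∑' a, x a) * ∑' b, y b := by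
  rw [ENNReal.tsum_prod' (f := fun p : ℕ × ℕ => x p.1 * y p.2), ← ENNReal.tsum_mul_right]
  refine tsum_congr fun a => ?_
  rw [← ENNReal.tsum_mul_left]

/-- product of two absolutely convergent series of series -/
theorem mulm_tsum_tsum (G : Geo V) (rho s : ℝ) (hr : 0 < rho) (hs : 0 ≤ s)
    (g h : ℕ → Mon V → ℂ) (hg : ∑' a, nr (wm G rho s) (g a) ≠ ∞)
    (hh : ∑' a, nr (wm G rho s) (h a) ≠ ∞) (m : Mon V) :
    mulm (fun m => ∑' a, g a m) (fun m => ∑' a, h a m) m =
      ∑' n : ℕ, ∑ x ∈ Finset.HasAntidiagonal.antidiagonal n, mulm (g x.1) (h x.2) m := by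
  have hw := wm_ne_zero G rho s hr
  have hprod : ∑' p : ℕ × ℕ, nr (wm G rho s) (g p.1) * nr (wm G rho s) (h p.2) ≠ ∞ := by
    rw [tsum_prod_alg2b (fun a => nr (wm G rho s) (g a)) (fun a => nr (wm G rho s) (h a))]
    exact ENNReal.mul_ne_top hg hh
  have h1 : ∑' x : (ℕ × ℕ) × (Mon V × Mon V),
      ‖g x.1.1 x.2.1 * h x.1.2 x.2.2‖ₑ * wm G rho s (x.2.1 + x.2.2) ≠ ∞ := by
    rw [ENNReal.tsum_prod' (f := fun x : (ℕ × ℕ) × (Mon V × Mon V) =>
      ‖g x.1.1 x.2.1 * h x.1.2 x.2.2‖ₑ * wm G rho s (x.2.1 + x.2.2))]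
    exact ne_top_of_le_ne_top hprod (ENNReal.tsum_le_tsum fun p =>
      mulm_abs_alg2a G rho s hr hs (g p.1) (h p.2))
  have h2 : mulm (fun m => ∑' a, g a m) (fun m => ∑' a, h a m) m =
      ∑' p : ℕ × ℕ, mulm (g p.1) (h p.2) m := by
    unfold mulm
    rw [← push_tsum (wm G rho s) hw (fun x : Mon V × Mon V => x.1 + x.2)
      (fun (p : ℕ × ℕ) (x : Mon V × Mon V) => g p.1 x.1 * h p.2 x.2) h1 m]
    congr 2
    funext x
    exact tsum_mul_alg2b (summable_pt_alg2b _ hw g hg x.1) (summable_pt_alg2b _ hw h hh x.2)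
  rw [h2]
  apply tsum_antidiag_alg2b
  refine Summable.of_norm (summable_w_alg2b (hw m) (ne_top_of_le_ne_top hprod
    (ENNReal.tsum_le_tsum fun p => ?_)))
  refine le_trans ?_ (nr_mulm_le G rho s hr hs (g p.1) (h p.2))
  exact ENNReal.le_tsum (f := fun m => ‖mulm (g p.1) (h p.2) m‖ₑ * wm G rho s m) m

end KX
end

section

/-!
# Algebraic identities for formal series

All identities are equalities of push-forwards over a common index set (`push_push`, `push_congr`,
`push_add`, `push_equiv`).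
-/

set_option autoImplicit false

namespace KX

open scoped ENNReal

variable {V : Type} [DecidableEq V]

/-- the kernel of the bracket with a fixed first monomial -/
theorem kernel_le_2e (G : Geo V) (rho s : ℝ) (hr : 0 < rho) (hs : 0 < s) (F : Mon V → ℂ)
    (m1 : Mon V) :
    ∑' x : V × Mon V, ‖Complex.I * (kapm x.1 m1 x.2 : ℂ) * F x.2‖ₑ *
      wm G rho (s / 2) (tgt x.1 m1 x.2) ≤
    ENNReal.ofReal (1 / (rho * (s / 2) * (s / 2))) * wm G rho s m1 * nr (wg G rho s) F := by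
  have h := XX_abs_le G rho (s / 2) (s / 2) (s / 2) hr (by positivity) (by positivity)
    (by positivity) F (em m1)
  rw [add_halves, nr_em] at h
  refine le_trans ?_ h
  have hinj : Function.Injective (fun x : V × Mon V => ((x.1, m1, x.2) : V × Mon V × Mon V)) := by
    rintro ⟨a, b⟩ ⟨c, d⟩ h
    simp only [Prod.mk.injEq] at h
    exact Prod.ext h.1 h.2.2
  refine le_trans (le_of_eq ?_) (ENNReal.tsum_comp_le_tsum_of_injective hinj _)
  refine tsum_congr fun x => ?_
  simp [em]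

omit [DecidableEq V] in
theorem kapm_add_left_2e (j : V) (a b m2 : Mon V) :
    kapm j (a + b) m2 = kapm j a m2 + kapm j b m2 := by
  simp only [kapm, Prod.fst_add, Prod.snd_add, Finsupp.add_apply]
  push_cast
  ring

theorem tgt_add_left_2e (j : V) (a b m2 : Mon V) (h : kapm j a m2 ≠ 0) :
    tgt j (a + b) m2 = tgt j a m2 + b := by
  have h1 : 1 ≤ a.1 j + m2.1 j := by
    by_contra hc
    have h2 : a.1 j = 0 := by omega
    have h3 : m2.1 j = 0 := by omega
    exact h (by simp [kapm, h2, h3])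
  refine Prod.ext ?_ ?_
  · ext i
    simp only [tgt, Prod.fst_add, Finsupp.add_apply, Finsupp.tsub_apply]
    by_cases hi : i = j
    · subst hi
      simp only [Finsupp.single_eq_same]
      omega
    · have : (Finsupp.single j 1 : V →₀ ℕ) i = 0 := Finsupp.single_eq_of_ne hi
      omega
  · simp only [tgt, Prod.snd_add]
    abel

theorem tgt_add_right_2e (j : V) (a b m2 : Mon V) (h : kapm j b m2 ≠ 0) :
    tgt j (a + b) m2 = a + tgt j b m2 := by
  rw [add_comm a b, tgt_add_left_2e j b a m2 h, add_comm]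

/-- Leibniz rule -/
theorem XX_mulm (G : Geo V) (rho s : ℝ) (hr : 0 < rho) (hs : 0 < s) (F g h : Mon V → ℂ)
    (hF : nr (wg G rho s) F ≠ ∞) (hg : nr (wm G rho s) g ≠ ∞) (hh : nr (wm G rho s) h ≠ ∞) :
    XX F (mulm g h) = fun m => mulm (XX F g) h m + mulm g (XX F h) m := by
  set W := wm G rho (s / 2) with hW
  have hW0 : ∀ m, W m ≠ 0 := wm_ne_zero G rho (s / 2) hr
  have hWs : ∀ m, W m ≤ wm G rho s m := wm_mono G rho hr (by linarith)
  have hgW : nr W g ≠ ∞ := ne_top_of_le_ne_top hg (nr_mono hWs g)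
  have hhW : nr W h ≠ ∞ := ne_top_of_le_ne_top hh (nr_mono hWs h)
  -- the absolute sums
  have hXg : ∑' x : V × Mon V × Mon V,
      ‖Complex.I * (kapm x.1 x.2.1 x.2.2 : ℂ) * g x.2.1 * F x.2.2‖ₑ *
        W (tgt x.1 x.2.1 x.2.2) ≠ ∞ := by
    have := XX_abs_le G rho (s / 2) (s / 2) (s / 2) hr (by positivity) (by positivity)
      (by positivity) F g
    rw [add_halves] at this
    exact ne_top_of_le_ne_top (ENNReal.mul_ne_top (ENNReal.mul_ne_top ENNReal.ofReal_ne_top hg) hF)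
      this
  have hXh : ∑' x : V × Mon V × Mon V,
      ‖Complex.I * (kapm x.1 x.2.1 x.2.2 : ℂ) * h x.2.1 * F x.2.2‖ₑ *
        W (tgt x.1 x.2.1 x.2.2) ≠ ∞ := by
    have := XX_abs_le G rho (s / 2) (s / 2) (s / 2) hr (by positivity) (by positivity)
      (by positivity) F h
    rw [add_halves] at this
    exact ne_top_of_le_ne_top (ENNReal.mul_ne_top (ENNReal.mul_ne_top ENNReal.ofReal_ne_top hh) hF)
      this
  -- index sets
  let e0 : V × Mon V × Mon V ≃ (V × Mon V) × Mon V :=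
    { toFun := fun x => ((x.1, x.2.2), x.2.1)
      invFun := fun x => (x.1.1, x.2, x.1.2)
      left_inv := fun x => rfl
      right_inv := fun x => rfl }
  let e1 : (V × Mon V) × (Mon V × Mon V) ≃ Mon V × (V × Mon V × Mon V) :=
    { toFun := fun x => (x.2.2, (x.1.1, x.2.1, x.1.2))
      invFun := fun x => ((x.2.1, x.2.2.2), (x.2.2.1, x.1))
      left_inv := fun x => rfl
      right_inv := fun x => rfl }
  let e2 : (V × Mon V) × (Mon V × Mon V) ≃ Mon V × (V × Mon V × Mon V) :=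
    { toFun := fun x => (x.2.1, (x.1.1, x.2.2, x.1.2))
      invFun := fun x => ((x.2.1, x.2.2.2), (x.1, x.2.2.1))
      left_inv := fun x => rfl
      right_inv := fun x => rfl }
  let T : (V × Mon V) × (Mon V × Mon V) → Mon V := fun x => tgt x.1.1 (x.2.1 + x.2.2) x.1.2
  let u1 : (V × Mon V) × (Mon V × Mon V) → ℂ := fun x =>
    (h x.2.2 * (Complex.I * (kapm x.1.1 x.2.1 x.1.2 : ℂ) * g x.2.1 * F x.1.2))
  let u2 : (V × Mon V) × (Mon V × Mon V) → ℂ := fun x =>
    (g x.2.1 * (Complex.I * (kapm x.1.1 x.2.2 x.1.2 : ℂ) * h x.2.2 * F x.1.2))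
  -- left-hand side
  have hL : XX F (mulm g h) = push T (fun x => u1 x + u2 x) := by
    unfold XX
    rw [← push_equiv e0.symm]
    have h1 : ((fun x : V × Mon V × Mon V => Complex.I * (kapm x.1 x.2.1 x.2.2 : ℂ) *
        mulm g h x.2.1 * F x.2.2) ∘ e0.symm) = fun x : (V × Mon V) × Mon V =>
        (Complex.I * (kapm x.1.1 x.2 x.1.2 : ℂ) * F x.1.2) *
          push (fun y : Mon V × Mon V => y.1 + y.2) (fun y => g y.1 * h y.2) x.2 := by
      funext x
      simp only [Function.comp, e0, Equiv.coe_fn_symm_mk, mulm]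
      ring
    rw [h1, push_push W hW0]
    · congr 1
      funext x
      simp only [u1, u2, kapm_add_left_2e]
      push_cast
      ring
    · -- absolute convergence
      set C := ENNReal.ofReal (1 / (rho * (s / 2) * (s / 2))) * nr (wg G rho s) F with hC
      have hCt : C ≠ ∞ := ENNReal.mul_ne_top ENNReal.ofReal_ne_top hF
      have hb : ∑' x : (V × Mon V) × (Mon V × Mon V),
          ‖Complex.I * (kapm x.1.1 (x.2.1 + x.2.2) x.1.2 : ℂ) * F x.1.2‖ₑ *
            ‖g x.2.1 * h x.2.2‖ₑ * W (tgt x.1.1 (x.2.1 + x.2.2) x.1.2) ≤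
          C * (nr (wm G rho s) g * nr (wm G rho s) h) := by
        rw [ENNReal.tsum_prod', ENNReal.tsum_comm]
        calc ∑' (y : Mon V × Mon V) (x : V × Mon V),
              ‖Complex.I * (kapm x.1 (y.1 + y.2) x.2 : ℂ) * F x.2‖ₑ *
                ‖g y.1 * h y.2‖ₑ * W (tgt x.1 (y.1 + y.2) x.2)
            = ∑' (y : Mon V × Mon V), ‖g y.1 * h y.2‖ₑ * ∑' (x : V × Mon V),
              ‖Complex.I * (kapm x.1 (y.1 + y.2) x.2 : ℂ) * F x.2‖ₑ *
                 W (tgt x.1 (y.1 + y.2) x.2) := by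
              refine tsum_congr fun y => ?_
              rw [← ENNReal.tsum_mul_left]
              refine tsum_congr fun x => ?_
              ring
          _ ≤ ∑' (y : Mon V × Mon V), ‖g y.1 * h y.2‖ₑ * (C * (wm G rho s y.1 *
                wm G rho s y.2)) := by
              refine ENNReal.tsum_le_tsum fun y => mul_le_mul' le_rfl ?_
              refine le_trans (kernel_le_2e G rho s hr hs F (y.1 + y.2)) ?_
              rw [hC]
              calc ENNReal.ofReal (1 / (rho * (s / 2) * (s / 2))) * wm G rho s (y.1 + y.2) *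
                    nr (wg G rho s) F = ENNReal.ofReal (1 / (rho * (s / 2) * (s / 2))) *
                    nr (wg G rho s) F * wm G rho s (y.1 + y.2) := by ring
                _ ≤ _ := mul_le_mul' le_rfl (wm_add_le G rho s hr hs.le y.1 y.2)
          _ = C * (nr (wm G rho s) g * nr (wm G rho s) h) := by
              have : ∀ y : Mon V × Mon V, ‖g y.1 * h y.2‖ₑ * (C * (wm G rho s y.1 *
                wm G rho s y.2)) = C * ((‖g y.1‖ₑ * wm G rho s y.1) *
                  (‖h y.2‖ₑ * wm G rho s y.2)) := by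
                intro y
                rw [enorm_mul]
                ring
              rw [tsum_congr this, ENNReal.tsum_mul_left]
              congr 1
              rw [ENNReal.tsum_prod', nr, nr, ← ENNReal.tsum_mul_right]
              refine tsum_congr fun a => ?_
              rw [← ENNReal.tsum_mul_left]
      exact ne_top_of_le_ne_top (ENNReal.mul_ne_top hCt (ENNReal.mul_ne_top hg hh)) hb
  -- first term
  have hA1 : ∑' x : Mon V × (V × Mon V × Mon V), ‖h x.1‖ₑ *
      ‖Complex.I * (kapm x.2.1 x.2.2.1 x.2.2.2 : ℂ) * g x.2.2.1 * F x.2.2.2‖ₑ *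
        W (tgt x.2.1 x.2.2.1 x.2.2.2 + x.1) ≠ ∞ := by
    have hb : ∑' x : Mon V × (V × Mon V × Mon V), ‖h x.1‖ₑ *
      ‖Complex.I * (kapm x.2.1 x.2.2.1 x.2.2.2 : ℂ) * g x.2.2.1 * F x.2.2.2‖ₑ *
        W (tgt x.2.1 x.2.2.1 x.2.2.2 + x.1) ≤ nr W h * ∑' x : V × Mon V × Mon V,
        ‖Complex.I * (kapm x.1 x.2.1 x.2.2 : ℂ) * g x.2.1 * F x.2.2‖ₑ *
          W (tgt x.1 x.2.1 x.2.2) := by
      rw [ENNReal.tsum_prod', nr, ← ENNReal.tsum_mul_right]
      refine ENNReal.tsum_le_tsum fun b => ?_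
      rw [← ENNReal.tsum_mul_left]
      refine ENNReal.tsum_le_tsum fun x => ?_
      refine le_trans (mul_le_mul' le_rfl (wm_add_le G rho (s / 2) hr (by positivity) _ _)) ?_
      exact le_of_eq (by ring)
    exact ne_top_of_le_ne_top (ENNReal.mul_ne_top hhW hXg) hb
  have hA2 : ∑' x : Mon V × (V × Mon V × Mon V), ‖g x.1‖ₑ *
      ‖Complex.I * (kapm x.2.1 x.2.2.1 x.2.2.2 : ℂ) * h x.2.2.1 * F x.2.2.2‖ₑ *
        W (x.1 + tgt x.2.1 x.2.2.1 x.2.2.2) ≠ ∞ := by
    have hb : ∑' x : Mon V × (V × Mon V × Mon V), ‖g x.1‖ₑ *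
      ‖Complex.I * (kapm x.2.1 x.2.2.1 x.2.2.2 : ℂ) * h x.2.2.1 * F x.2.2.2‖ₑ *
        W (x.1 + tgt x.2.1 x.2.2.1 x.2.2.2) ≤ nr W g * ∑' x : V × Mon V × Mon V,
        ‖Complex.I * (kapm x.1 x.2.1 x.2.2 : ℂ) * h x.2.1 * F x.2.2‖ₑ *
          W (tgt x.1 x.2.1 x.2.2) := by
      rw [ENNReal.tsum_prod', nr, ← ENNReal.tsum_mul_right]
      refine ENNReal.tsum_le_tsum fun b => ?_
      rw [← ENNReal.tsum_mul_left]
      refine ENNReal.tsum_le_tsum fun x => ?_
      refine le_trans (mul_le_mul' le_rfl (wm_add_le G rho (s / 2) hr (by positivity) _ _)) ?_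
      exact le_of_eq (by ring)
    exact ne_top_of_le_ne_top (ENNReal.mul_ne_top hgW hXh) hb
  have hc1 : ∀ x : (V × Mon V) × (Mon V × Mon V), u1 x ≠ 0 →
      T x = tgt x.1.1 x.2.1 x.1.2 + x.2.2 := by
    intro x hx
    refine tgt_add_left_2e _ _ _ _ fun hk => hx ?_
    simp [u1, hk]
  have hc2 : ∀ x : (V × Mon V) × (Mon V × Mon V), u2 x ≠ 0 →
      T x = x.2.1 + tgt x.1.1 x.2.2 x.1.2 := by
    intro x hx
    refine tgt_add_right_2e _ _ _ _ fun hk => hx ?_
    simp [u2, hk]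
  have hR1 : mulm (XX F g) h = push T u1 := by
    have h1 : mulm (XX F g) h = push (fun x : Mon V × Mon V => x.2 + x.1) (fun x =>
        h x.1 * push (fun x : V × Mon V × Mon V => tgt x.1 x.2.1 x.2.2)
          (fun x => Complex.I * (kapm x.1 x.2.1 x.2.2 : ℂ) * g x.2.1 * F x.2.2) x.2) := by
      rw [mulm_comm]
      unfold mulm XX
      congr 1
      funext x
      exact add_comm _ _
    rw [h1]
    refine Eq.trans (push_push W hW0 (fun x : V × Mon V × Mon V => tgt x.1 x.2.1 x.2.2)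
      (fun x => Complex.I * (kapm x.1 x.2.1 x.2.2 : ℂ) * g x.2.1 * F x.2.2)
      (fun x : Mon V × Mon V => x.2 + x.1) (fun x => h x.1) hA1) ?_
    rw [← push_equiv e1]
    exact (push_congr _ _ _ fun x hx => hc1 x hx).symm
  have hR2 : mulm g (XX F h) = push T u2 := by
    refine Eq.trans (push_push W hW0 (fun x : V × Mon V × Mon V => tgt x.1 x.2.1 x.2.2)
      (fun x => Complex.I * (kapm x.1 x.2.1 x.2.2 : ℂ) * h x.2.1 * F x.2.2)
      (fun x : Mon V × Mon V => x.1 + x.2) (fun x => g x.1) hA2) ?_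
    rw [← push_equiv e2]
    exact (push_congr _ _ _ fun x hx => hc2 x hx).symm
  have hS1 : ∑' x, ‖u1 x‖ₑ * W (T x) ≠ ∞ := by
    have : ∑' x, ‖u1 x‖ₑ * W (T x) = ∑' x : Mon V × (V × Mon V × Mon V), ‖h x.1‖ₑ *
      ‖Complex.I * (kapm x.2.1 x.2.2.1 x.2.2.2 : ℂ) * g x.2.2.1 * F x.2.2.2‖ₑ *
        W (tgt x.2.1 x.2.2.1 x.2.2.2 + x.1) := by
      rw [← e1.tsum_eq]
      refine tsum_congr fun x => ?_
      by_cases hx : u1 x = 0
      · have hx' : h x.2.2 * (Complex.I * (kapm x.1.1 x.2.1 x.1.2 : ℂ) * g x.2.1 * F x.1.2) = 0 :=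
          hx
        rw [hx, ← enorm_mul]
        show _ = ‖h x.2.2 * (Complex.I * (kapm x.1.1 x.2.1 x.1.2 : ℂ) * g x.2.1 * F x.1.2)‖ₑ * _
        rw [hx']
        simp
      · rw [hc1 x hx, ← enorm_mul]
        rfl
    rw [this]
    exact hA1
  have hS2 : ∑' x, ‖u2 x‖ₑ * W (T x) ≠ ∞ := by
    have : ∑' x, ‖u2 x‖ₑ * W (T x) = ∑' x : Mon V × (V × Mon V × Mon V), ‖g x.1‖ₑ *
      ‖Complex.I * (kapm x.2.1 x.2.2.1 x.2.2.2 : ℂ) * h x.2.2.1 * F x.2.2.2‖ₑ *
        W (x.1 + tgt x.2.1 x.2.2.1 x.2.2.2) := by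
      rw [← e2.tsum_eq]
      refine tsum_congr fun x => ?_
      by_cases hx : u2 x = 0
      · have hx' : g x.2.1 * (Complex.I * (kapm x.1.1 x.2.2 x.1.2 : ℂ) * h x.2.2 * F x.1.2) = 0 :=
          hx
        rw [hx, ← enorm_mul]
        show _ = ‖g x.2.1 * (Complex.I * (kapm x.1.1 x.2.2 x.1.2 : ℂ) * h x.2.2 * F x.1.2)‖ₑ * _
        rw [hx']
        simp
      · rw [hc2 x hx, ← enorm_mul]
        rfl
    rw [this]
    exact hA2
  rw [hL, hR1, hR2]
  exact push_add W hW0 T u1 u2 hS1 hS2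

end KX
end
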