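import Pool.Agent.Lib.MP_73c19a_an.Mg.G015
import Pool.Agent.Lib.MP_73c19a_an.Costa
import Pool.Agent.Lib.MP_73c19a_an.Mg.G016
import Pool.Agent.Lib.MP_73c19a_an.Mg.G014
import Pool.Agent.Lib.MP_73c19a_an.Dioa

section

/-!
# The cost of the small divisors of a divided tree

`x y ≥ 0` is (the positive part of) `log (1 / |k_y · ω|)` for the divided positions `y` of `h`,
including the root. `hD` is the diophantine bound for every single divisor, `hJ` the joint bound for
linearly independent families. Proof of `cost_main` in `/team-store/MP_73c19a_PROOF.md`, Part C.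
-/

set_option autoImplicit false

namespace KX

variable {V : Type} [DecidableEq V]

namespace Tr

theorem mg_const_mul_costc (c : ℝ) (w : V → ℝ) (h : Tr V) :
    mg (fun i => c * w i) h = c * mg w h := by
  induction h with
  | leaf l => simp [mg]
  | node j f p ihf ihp => simp only [mg, ihf, ihp, ← Finset.mul_sum]; ring

theorem q_mul_le_mg_costc (w : V → ℝ) (hw : ∀ i, 0 ≤ w i) (C : ℝ) (h : Tr V) (hc : conn h)
    (hC : ∀ i ∈ A h, C ≤ w i) : ((q h : ℝ) - 1) * C ≤ mg w h := by
  induction h with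
  | leaf l => simp [q, mg]
  | node j f p ihf ihp =>
    obtain ⟨hjf, hjp, hcf, hcp⟩ := hc
    have h1 := ihf hcf (fun i hi => hC i (Finset.mem_union_left _ hi))
    have h2 := ihp hcp (fun i hi => hC i (Finset.mem_union_right _ hi))
    have h3 : w j ≤ ∑ i ∈ A f ∩ A p, w i :=
      Finset.single_le_sum (fun i _ => hw i) (Finset.mem_inter.2 ⟨hjf, hjp⟩)
    have h4 := hC j (Finset.mem_union_left _ hjf)
    simp only [q, mg]
    push_cast
    linarith

theorem ov_mul_le_mg_costc (B : Finset V) (w : V → ℝ) (hw : ∀ i, 0 ≤ w i) (C : ℝ)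
    (hC : ∀ i, i ∉ B → C ≤ w i) (h : Tr V) : C * ov B h ≤ mg w h := by
  induction h with
  | leaf l => simp [ov, mg]
  | node j f p ihf ihp =>
    have h1 : ∑ i ∈ (A f ∩ A p) \ B, w i ≤ ∑ i ∈ A f ∩ A p, w i :=
      Finset.sum_le_sum_of_subset_of_nonneg Finset.sdiff_subset fun i _ _ => hw i
    have h2 : (((A f ∩ A p) \ B).card : ℝ) * C ≤ ∑ i ∈ (A f ∩ A p) \ B, w i := by
      have := Finset.card_nsmul_le_sum ((A f ∩ A p) \ B) w C
        fun i hi => hC i (Finset.mem_sdiff.1 hi).2
      rwa [nsmul_eq_mul] at this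
    simp only [ov, mg]
    push_cast
    linarith

/-- many leaves: the divisors with few outer sites (class `a`) or with many multiply covered sites
(class `b`) are estimated by `hD`, the remaining ones (class `c`) by `core_basis` and `hJ` -/
theorem cost_large (G : Geo V) (P : BP V) (h : Tr V) (hg : Good G P h) (hd : deg h ≤ 1)
    (hk : k h ≠ 0) (T : ℕ) (hT : tau G P h < T) (x : Option (Dv h) → ℝ) (hx : ∀ y, 0 ≤ x y)
    (lg bD ell dp dpp c th eta e1 bb bq : ℝ) (qs g : ℕ) (hlg : 0 ≤ lg) (hbD : 0 ≤ bD)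
    (hell : 0 ≤ ell) (hdp : 0 ≤ dp) (hdpp : 0 ≤ dpp) (hc : 0 ≤ c) (hth : 0 ≤ th) (heta : 0 < eta)
    (he : 0 < e1) (he1 : e1 ≤ 1) (hbb : 0 ≤ bb) (hbq : 0 ≤ bq) (hg1 : 1 ≤ g)
    (hD : ∀ y, x y ≤ lg + bD * Real.log (G.brm (ky h y).support) + ell * (ky h y).support.card +
      dp * (G.Lam (ky h y).support + kab (ky h y)))
    (hJ : ∀ R : Finset (Option (Dv h)), LinearIndependent ℝ (fun y : R => rv (ky h y)) →
      ∑ y ∈ R, x y ≤ 2 * (bD * Real.log (G.brm (A h)) + ell * ca h + dpp * (N h + L G h) +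
        c * q h + lg))
    (C1 : lg + bD * Real.log (1 / e1) + ell * P.B.card ≤ th * P.mu)
    (C3 : T * (bD * e1 + dp) ≤ th * P.de) (C4 : T * ell * eta ≤ th * P.la)
    (C5 : ∀ i, i ∉ P.B → 4 * T * ell ≤ bb * Real.log (G.br i))
    (C6 : 8 * g * ell ≤ th * P.la) (C7 : 8 * g * (ell * P.B.card + c + lg) ≤ th * P.mu)
    (C8 : 8 * g * dpp ≤ th * P.de) (C9 : 8 * g * bD ≤ bq * qs)
    (Cg : 16 / eta ≤ (3 / 2 : ℝ) ^ (g - 1)) (hq : qs < q h) (i : V) (hi : i ∈ A h) :
    ∑ y, x y ≤ 3 * th * mass G P h + mg (fun j => (bD + bb + bq) * Real.log (G.br j)) h +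
      bD * Real.log (G.br i) := by
  classical
  have hla := P.la_pos
  have hmu := P.mu_pos
  have hde := P.de_pos
  have hconn := good_conn G P h hg
  have hlogbr : ∀ j, 0 ≤ Real.log (G.br j) := fun j => Real.log_nonneg (G.one_le_br j)
  -- masses of the leaves
  set ml : Lf h → ℝ := fun q => mass G P (leaf (lb h q)) / P.la with hml
  have hmleaf : ∀ l : Lbl V, 0 < mass G P (leaf l) :=
    fun l => lt_of_lt_of_le P.mu_pos (mu_le_mass G P _)
  have hM : ∀ y, ∑ q ∈ ls h y, ml q = mass G P (osub h y) / P.la := by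
    intro y
    rw [sum_ls (mass G P) (fun l => mass G P (leaf l)) (fun _ => rfl) (mass_node G P) h y,
      Finset.sum_div]
  set kq : Lf h → V →₀ ℤ := fun q => (lb h q).k with hkq
  set Aq : Lf h → Finset V := fun q => (lb h q).A with hAq
  have hkn : ∀ y, kn (ls h) kq y = ky h y := by
    intro y
    rw [ky, sum_ls k (fun l => l.k) (fun _ => rfl) (fun _ _ _ => rfl) h y]; rfl
  have hmpos : ∀ q, 0 < ml q := fun q => div_pos (hmleaf _) hla
  have hsupp : ∀ q, (kq q).support ⊆ Aq q := fun q => (lb h q).hk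
  have hAm : ∀ q, ((Aq q \ P.B).card : ℝ) ≤ ml q := by
    intro q
    rw [hml]
    simp only
    rw [le_div_iff₀ hla]
    simp only [mass, Tr.q, o, N, L, hAq]
    have h1 : 0 ≤ P.mu * ((1 : ℕ) : ℝ) := by positivity
    have h2 : 0 ≤ P.de * (((lb h q).N : ℝ) + (G.Lam (lb h q).A : ℝ)) := by positivity
    linarith
  -- number of multiply covered sites
  set mu2 : Option (Dv h) → ℕ := fun y => (((ky h y).support \ P.B).filter fun i =>
      2 ≤ (Finset.univ.filter fun x : Lf h => i ∈ (lb h x).A).card).card with hmu2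
  set M : Option (Dv h) → ℝ := fun y => mass G P (osub h y) / P.la with hMdef
  have hMpos : ∀ y, 0 ≤ M y := by
    intro y
    exact div_nonneg (P.mu_pos.le.trans (mu_le_mass G P _)) hla.le
  -- the classes
  set Sc : Finset (Option (Dv h)) :=
    Finset.univ.filter fun y => eta * M y ≤ sg P.B h y ∧ 2 * mu2 y ≤ sg P.B h y with hSc
  set Sab : Finset (Option (Dv h)) :=
    Finset.univ.filter fun y => ¬ (eta * M y ≤ sg P.B h y ∧ 2 * mu2 y ≤ sg P.B h y) with hSab
  have hsplit : ∑ y, x y = ∑ y ∈ Sc, x y + ∑ y ∈ Sab, x y :=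
    (Finset.sum_filter_add_sum_filter_not _ _ _).symm
  have hdeg : ∀ y, deg (osub h y) ≤ 1 := by
    intro y
    cases y with
    | none => exact hd
    | some y => exact (good_sub G P h hg y).2.1
  -- class c
  have hcore := core_basis (ls h) kq Aq P.B ml hmpos hsupp hAm eta heta Sc
    (fun y _ => ls_nonempty h y) (fun y => win G P (osub h y)) (fun y => deg (osub h y))
    (fun y _ => hdeg y) (P.mu / P.la) (div_pos hmu hla)
    (by
      intro y _
      rw [hM y, div_mul_eq_mul_div]
      exact div_le_div_of_nonneg_right (le_win G P _) hla.le)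
    (by
      intro y _
      rw [hM y, div_mul_eq_mul_div]
      exact div_lt_div_of_pos_right (win_lt G P _) hla)
    (by
      intro y _ z _ hyz
      exact laminar G P h hg hd y z hyz)
    (by
      intro y hy
      rw [hM y, hkn y]
      exact ((Finset.mem_filter.1 hy).2).1)
    (by
      intro y hy
      rw [hkn y]
      exact ((Finset.mem_filter.1 hy).2).2)
    g hg1 Cg x (fun y _ => hx y)
  obtain ⟨R, hRS, hRind, hRsum⟩ := hcore
  have hRind' : LinearIndependent ℝ (fun y : R => rv (ky h y)) := by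
    have : (fun y : R => rv (ky h y)) =
        (fun n : R => fun i : V => ((kn (ls h) kq n i : ℤ) : ℝ)) := by
      funext y
      rw [hkn y]
      rfl
    rw [this]
    exact hRind
  have hJR := hJ R hRind'
  have hq1 : (1 : ℝ) ≤ q h := by exact_mod_cast one_le_q h
  have hca : (ca h : ℝ) ≤ q h * P.B.card + o P.B h := by exact_mod_cast ca_le P.B h
  have hg0 : (0 : ℝ) < g := by exact_mod_cast hg1
  have hlogbrm : 0 ≤ Real.log (G.brm (A h)) := Real.log_nonneg (G.one_le_brm _)
  have hmassdef : mass G P h = P.mu * q h + P.la * o P.B h + P.de * (N h + L G h) := rfl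
  have hclassc : ∑ y ∈ Sc, x y ≤ th * mass G P h + bq * mg (fun j => Real.log (G.br j)) h := by
    have h1 : ∑ y ∈ Sc, x y ≤ 4 * g * (2 * (bD * Real.log (G.brm (A h)) + ell * ca h +
        dpp * (N h + L G h) + c * q h + lg)) :=
      hRsum.trans (mul_le_mul_of_nonneg_left hJR (by positivity))
    have h2 : 8 * g * ell * ca h ≤ 8 * g * ell * (q h * P.B.card + o P.B h) :=
      mul_le_mul_of_nonneg_left hca (by positivity)
    have h3 : 8 * g * ell * o P.B h ≤ th * P.la * o P.B h :=
      mul_le_mul_of_nonneg_right C6 (by positivity)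
    have h4 : 8 * g * (ell * P.B.card + c + lg) * q h ≤ th * P.mu * q h :=
      mul_le_mul_of_nonneg_right C7 (by positivity)
    have h5 : 8 * g * dpp * (N h + L G h) ≤ th * P.de * (N h + L G h) :=
      mul_le_mul_of_nonneg_right C8 (by positivity)
    have h6 : 8 * g * bD * Real.log (G.brm (A h)) ≤ bq * qs * Real.log (G.brm (A h)) :=
      mul_le_mul_of_nonneg_right C9 hlogbrm
    have h7 : ((q h : ℝ) - 1) * Real.log (G.brm (A h)) ≤ mg (fun j => Real.log (G.br j)) h := by
      refine q_mul_le_mg_costc _ hlogbr _ h hconn fun j hj => ?_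
      exact Real.log_le_log (lt_of_lt_of_le one_pos (G.one_le_brm _)) (G.brm_le hj)
    have h8 : (qs : ℝ) * Real.log (G.brm (A h)) ≤ ((q h : ℝ) - 1) * Real.log (G.brm (A h)) := by
      refine mul_le_mul_of_nonneg_right ?_ hlogbrm
      have : (qs : ℝ) + 1 ≤ q h := by exact_mod_cast hq
      linarith
    have h9 : bq * qs * Real.log (G.brm (A h)) ≤ bq * mg (fun j => Real.log (G.br j)) h := by
      rw [mul_assoc]
      exact mul_le_mul_of_nonneg_left (h8.trans h7) hbq
    have h10 : 8 * g * lg ≤ 8 * g * lg * q h := le_mul_of_one_le_right (by positivity) hq1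
    rw [hmassdef]
    linarith
  -- classes a and b
  have hsumM : ∑ y, M y ≤ T * mass G P h / P.la := by
    have h1 := sum_osub_le G P h hg hd T hT (mass G P) (fun l => mass G P (leaf l))
      (fun l => (hmleaf l).le) (fun _ => rfl) (mass_node G P)
    rw [hMdef, ← Finset.sum_div]
    exact div_le_div_of_nonneg_right h1 hla.le
  have hsummu : ∑ y, (mu2 y : ℝ) ≤ T * (2 * ov P.B h) := sum_multi_le G P h hg hd T hT
  have hsg : ∑ y ∈ Sab, (sg P.B h y : ℝ) ≤ eta * (T * mass G P h / P.la) +
      2 * (T * (2 * ov P.B h)) := by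
    have h1 : ∑ y ∈ Sab, (sg P.B h y : ℝ) ≤ ∑ y ∈ Sab, (eta * M y + 2 * (mu2 y : ℝ)) := by
      refine Finset.sum_le_sum fun y hy => ?_
      have hy' := (Finset.mem_filter.1 hy).2
      rw [not_and_or] at hy'
      have hM0 : 0 ≤ eta * M y := mul_nonneg heta.le (hMpos y)
      have hmu0 : (0 : ℝ) ≤ 2 * (mu2 y : ℝ) := by positivity
      rcases hy' with h' | h'
      · push Not at h'
        linarith
      · push Not at h'
        have : ((sg P.B h y : ℕ) : ℝ) < 2 * (mu2 y : ℝ) := by exact_mod_cast h'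
        linarith
    have h2 : ∑ y ∈ Sab, (eta * M y + 2 * (mu2 y : ℝ)) ≤ ∑ y, (eta * M y + 2 * (mu2 y : ℝ)) :=
      Finset.sum_le_sum_of_subset_of_nonneg (Finset.subset_univ _) fun y _ _ =>
        add_nonneg (mul_nonneg heta.le (hMpos y)) (by positivity)
    have h2' : ∑ y, (eta * M y + 2 * (mu2 y : ℝ)) = eta * ∑ y, M y + 2 * ∑ y, (mu2 y : ℝ) := by
      rw [Finset.sum_add_distrib, ← Finset.mul_sum, ← Finset.mul_sum]
    have h3 := mul_le_mul_of_nonneg_left hsumM heta.le
    linarith
  have hell1 : ell * (eta * (T * mass G P h / P.la)) ≤ th * mass G P h := by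
    have hm0 : 0 ≤ mass G P h / P.la := div_nonneg (P.mu_pos.le.trans (mu_le_mass G P _)) hla.le
    have h1 := mul_le_mul_of_nonneg_right C4 hm0
    calc ell * (eta * (T * mass G P h / P.la)) = T * ell * eta * (mass G P h / P.la) := by ring
      _ ≤ th * P.la * (mass G P h / P.la) := h1
      _ = th * mass G P h := by field_simp
  have hell2 : ell * (2 * (T * (2 * ov P.B h))) ≤ bb * mg (fun j => Real.log (G.br j)) h := by
    have h1 := ov_mul_le_mg_costc P.B (fun j => bb * Real.log (G.br j))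
      (fun j => mul_nonneg hbb (hlogbr j)) (4 * T * ell) C5 h
    rw [mg_const_mul_costc] at h1
    linarith
  have hclassab : ∑ y ∈ Sab, x y ≤ 2 * th * mass G P h +
      (bD + bb) * mg (fun j => Real.log (G.br j)) h + bD * Real.log (G.br i) := by
    have h1 : ∑ y ∈ Sab, x y ≤ ∑ y ∈ Sab, ((lg + bD * Real.log (G.brm (ky h y).support) +
        dp * (G.Lam (ky h y).support + kab (ky h y))) + ell * (ky h y).support.card) := by
      refine Finset.sum_le_sum fun y _ => ?_
      have := hD y
      linarith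
    rw [Finset.sum_add_distrib, ← Finset.mul_sum] at h1
    have h2 := sum_D G P h hg hd hk T hT lg bD dp e1 hlg hbD hdp he he1 Sab i hi
    have h3 := mul_le_mul_of_nonneg_left (sum_card_le P.B h Sab) hell
    have h4 := mul_le_mul_of_nonneg_left hsg hell
    have h5 : (lg + bD * Real.log (1 / e1) + ell * P.B.card) * q h ≤ th * P.mu * q h :=
      mul_le_mul_of_nonneg_right C1 (by positivity)
    have h6 : T * (bD * e1 + dp) * (N h + L G h) ≤ th * P.de * (N h + L G h) :=
      mul_le_mul_of_nonneg_right C3 (by positivity)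
    have h7 : 0 ≤ th * (P.la * o P.B h) := by positivity
    have h8 : th * mass G P h = th * P.mu * q h + th * (P.la * o P.B h) +
        th * P.de * (N h + L G h) := by rw [hmassdef]; ring
    linarith
  rw [mg_const_mul_costc]
  rw [hsplit]
  linarith

end Tr

end KX
end

section

/-!
# The cost of the small divisors of a divided tree

`x y ≥ 0` is (the positive part of) `log (1 / |k_y · ω|)` for the divided positions `y` of `h`,
including the root. `hD` is the diophantine bound for every single divisor, `hJ` the joint bound for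
linearly independent families. Proof of `cost_main` in `/team-store/MP_73c19a_PROOF.md`, Part C.
-/

set_option autoImplicit false

namespace KX

variable {V : Type} [DecidableEq V]

namespace Tr

/-- the cost estimate -/
theorem cost_main (G : Geo V) (P : BP V) (h : Tr V) (hg : Good G P h) (hd : deg h ≤ 1)
    (hk : k h ≠ 0) (T : ℕ) (hT : tau G P h < T) (x : Option (Dv h) → ℝ) (hx : ∀ y, 0 ≤ x y)
    (lg bD ell dp dpp c th eta e1 bb bq : ℝ) (qs g : ℕ) (hlg : 0 ≤ lg) (hbD : 0 ≤ bD)
    (hell : 0 ≤ ell) (hdp : 0 ≤ dp) (hdpp : 0 ≤ dpp) (hc : 0 ≤ c) (hth : 0 ≤ th) (heta : 0 < eta)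
    (he : 0 < e1) (he1 : e1 ≤ 1) (hbb : 0 ≤ bb) (hbq : 0 ≤ bq) (hg1 : 1 ≤ g)
    (hD : ∀ y, x y ≤ lg + bD * Real.log (G.brm (ky h y).support) + ell * (ky h y).support.card +
      dp * (G.Lam (ky h y).support + kab (ky h y)))
    (hJ : ∀ R : Finset (Option (Dv h)), LinearIndependent ℝ (fun y : R => rv (ky h y)) →
      ∑ y ∈ R, x y ≤ 2 * (bD * Real.log (G.brm (A h)) + ell * ca h + dpp * (N h + L G h) +
        c * q h + lg))
    (C1 : lg + bD * Real.log (1 / e1) + ell * P.B.card ≤ th * P.mu)
    (C2 : ell * qs ≤ th * P.la) (C3 : T * (bD * e1 + dp) ≤ th * P.de)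
    (C4 : T * ell * eta ≤ th * P.la)
    (C5 : ∀ i, i ∉ P.B → 4 * T * ell ≤ bb * Real.log (G.br i))
    (C6 : 8 * g * ell ≤ th * P.la) (C7 : 8 * g * (ell * P.B.card + c + lg) ≤ th * P.mu)
    (C8 : 8 * g * dpp ≤ th * P.de) (C9 : 8 * g * bD ≤ bq * qs)
    (Cg : 16 / eta ≤ (3 / 2 : ℝ) ^ (g - 1)) (i : V) (hi : i ∈ A h) :
    ∑ y, x y ≤ 3 * th * mass G P h + mg (fun j => (bD + bb + bq) * Real.log (G.br j)) h +
      bD * Real.log (G.br i) := by
  rcases le_or_gt (q h) qs with hq | hq
  · have h1 := cost_small G P h hg hd hk T hT x lg bD ell dp th e1 qs hlg hbD hell hdp hth he he1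
      hD C1 C2 C3 hq i hi
    have h2 : mg (fun j => bD * Real.log (G.br j)) h ≤
        mg (fun j => (bD + bb + bq) * Real.log (G.br j)) h := by
      apply mg_mono
      intro j
      have := Real.log_nonneg (G.one_le_br j)
      nlinarith [mul_nonneg hbb this, mul_nonneg hbq this]
    have h3 : 0 ≤ mass G P h := (P.mu_pos.le).trans (mu_le_mass G P h)
    have h4 : 0 ≤ th * mass G P h := mul_nonneg hth h3
    linarith
  · exact cost_large G P h hg hd hk T hT x hx lg bD ell dp dpp c th eta e1 bb bq qs g hlg hbD hell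
      hdp hdpp hc hth heta he he1 hbb hbq hg1 hD hJ C1 C3 C4 C5 C6 C7 C8 C9 Cg hq i hi

end Tr

end KX
end

section

/-!
# Small divisor conditions and products of divisors

`DC`, `JC`: the single and the joint diophantine conditions for a frequency vector `w`.
`hatY h`: the product of `max 1 (1 / |k_y · ω_{τ(y)}|)` over the divided positions of `h`.
`YY h`: the product of the inverse divisors themselves.
-/

set_option autoImplicit false

namespace KX

variable {V : Type} [DecidableEq V]

namespace Tr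

theorem dcost_nonneg_Diob (G : Geo V) (P : BP V) (C : CC) (T : ℕ) (hC : C.OK G P T)
    (k : V →₀ ℤ) : 0 ≤ dcost G C k := by
  unfold dcost
  have h1 := Real.log_nonneg (G.one_le_brm k.support)
  have h2 := hC.lg0
  have h3 := hC.bD0
  have h4 := hC.ell0
  have h5 := hC.dp0
  positivity

theorem mx_le_Diob (G : Geo V) (P : BP V) (C : CC) (T : ℕ) (hC : C.OK G P T)
    (w : V → ℝ) (hD : DC G C w) (k : V →₀ ℤ) (hk : k ≠ 0) :
    Real.log (mx (dot k w)) ≤ dcost G C k := by
  have h1 := hD k hk
  have h0 : 0 < |dot k w| := lt_of_lt_of_le (Real.exp_pos _) h1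
  have h2 : mx (dot k w) ≤ Real.exp (dcost G C k) := by
    unfold mx
    apply max_le
    · exact Real.one_le_exp (dcost_nonneg_Diob G P C T hC k)
    · rw [inv_le_comm₀ h0 (Real.exp_pos _), ← Real.exp_neg]
      exact h1
  calc Real.log (mx (dot k w)) ≤ Real.log (Real.exp (dcost G C k)) :=
        Real.log_le_log (lt_of_lt_of_le one_pos (one_le_mx _)) h2
    _ = dcost G C k := Real.log_exp _

theorem mx_le_two_Diob {a b : ℝ} (hb : 0 < |b|) (h : |b| ≤ 2 * |a|) : mx a ≤ 2 * mx b := by
  have ha : 0 < |a| := by linarith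
  unfold mx
  apply max_le
  · have := le_max_left 1 |b|⁻¹
    linarith
  · have h1 : |a|⁻¹ ≤ 2 * |b|⁻¹ := by
      rw [inv_le_comm₀ ha (by positivity), mul_inv, inv_inv]
      linarith
    exact h1.trans (mul_le_mul_of_nonneg_left (le_max_right _ _) (by norm_num))

/-- divided trees: `x y = log (mx (k_y · om (tau h)))` in `cost_main`, and the drift hypothesis
`hdr` costs a factor `2 ≤ exp (th * mu)` per divisor -/
theorem hatY_div_le (G : Geo V) (P : BP V) (C : CC) (T : ℕ) (hC : C.OK G P T) (Am : ℝ)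
    (om : ℕ → V → ℝ) (h : Tr V) (hg : Good G P h) (hd : deg h ≤ 1) (hk : k h ≠ 0)
    (hT : tau G P h < T) (hD : DC G C (om (tau G P h))) (hJ : JC G C Am (om (tau G P h)))
    (hA : ((A h).card : ℝ) ≤ Am)
    (hdr : ∀ y : Option (Dv h), |dot (ky h y) (om (tau G P h))| ≤
      2 * |dot (ky h y) (om (tau G P (osub h y)))|)
    (i : V) (hi : i ∈ A h) :
    hatY G P om h * mx (dot (k h) (om (tau G P h))) ≤ Real.exp (4 * C.th * mass G P h +
      mg (fun j => (C.bD + C.bb + C.bq) * Real.log (G.br j)) h + C.bD * Real.log (G.br i)) := by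
  set w := om (tau G P h) with hw
  have hne : ∀ y : Option (Dv h), ky h y ≠ 0 := fun y => (osub_good_Costa G P h hg hk y).2
  have hpos : ∀ y : Option (Dv h), 0 < |dot (ky h y) w| := fun y =>
    lt_of_lt_of_le (Real.exp_pos _) (hD _ (hne y))
  have hmain := cost_main G P h hg hd hk T hT (fun y => Real.log (mx (dot (ky h y) w)))
    (fun y => Real.log_nonneg (one_le_mx _)) C.lg C.bD C.ell C.dp C.dpp C.c C.th C.eta C.e1 C.bb
    C.bq C.qs C.g hC.lg0 hC.bD0 hC.ell0 hC.dp0 hC.dpp0 hC.c0 hC.th0 hC.eta0 hC.e0 hC.e1 hC.bb0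
    hC.bq0 hC.g1 (fun y => mx_le_Diob G P C T hC w hD _ (hne y)) (fun R hR => ?_)
    hC.C1 hC.C2 hC.C3 hC.C4 hC.C5 hC.C6 hC.C7 hC.C8 hC.C9 hC.Cg i hi
  · -- the product
    have h1 : hatY G P om h * mx (dot (k h) w) =
        ∏ y : Option (Dv h), mx (dot (ky h y) (om (tau G P (osub h y)))) := by
      rw [Fintype.prod_option, hatY_eq, mul_comm]
      rfl
    have h2 : ∏ y : Option (Dv h), mx (dot (ky h y) (om (tau G P (osub h y)))) ≤
        ∏ y : Option (Dv h), (2 * mx (dot (ky h y) w)) := by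
      refine Finset.prod_le_prod (fun y _ => zero_le_one.trans (one_le_mx _)) (fun y _ => ?_)
      exact mx_le_two_Diob (hpos y) (hdr y)
    have h3 : ∏ y : Option (Dv h), (2 * mx (dot (ky h y) w)) =
        (2 : ℝ) ^ (q h) * ∏ y : Option (Dv h), mx (dot (ky h y) w) := by
      rw [Finset.prod_mul_distrib, Finset.prod_const, Finset.card_univ, card_opt_Costa]
    have h4 : ∏ y : Option (Dv h), mx (dot (ky h y) w) =
        Real.exp (∑ y : Option (Dv h), Real.log (mx (dot (ky h y) w))) := by
      rw [Real.exp_sum]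
      refine Finset.prod_congr rfl fun y _ => ?_
      rw [Real.exp_log (lt_of_lt_of_le one_pos (one_le_mx _))]
    have h5 : (2 : ℝ) ^ (q h) = Real.exp (q h * Real.log 2) := by
      rw [mul_comm, Real.exp_mul, Real.exp_log (by norm_num), Real.rpow_natCast]
    have h6 : q h * Real.log 2 ≤ C.th * mass G P h := by
      have a1 : (q h : ℝ) * Real.log 2 ≤ q h * (C.th * P.mu) :=
        mul_le_mul_of_nonneg_left hC.C10 (Nat.cast_nonneg _)
      have a2 := mul_le_mul_of_nonneg_left (mu_q_le_mass G P h) hC.th0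
      linarith
    rw [h1]
    refine h2.trans ?_
    rw [h3, h4, h5, ← Real.exp_add]
    apply Real.exp_le_exp.2
    linarith
  · have h1 := hJ h (good_conn G P h hg) hA R hR
    have h2 : ∑ y ∈ R, Real.log (mx (dot (ky h y) w)) = Real.log (∏ y ∈ R, mx (dot (ky h y) w)) :=
      (Real.log_prod (fun y _ => (lt_of_lt_of_le one_pos (one_le_mx _)).ne')).symm
    rw [h2]
    have h3 : 0 < ∏ y ∈ R, mx (dot (ky h y) w) :=
      Finset.prod_pos fun y _ => lt_of_lt_of_le one_pos (one_le_mx _)
    calc Real.log (∏ y ∈ R, mx (dot (ky h y) w)) ≤ Real.log (Real.exp (jcost G C h)) :=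
          Real.log_le_log h3 h1
      _ = jcost G C h := Real.log_exp _

end Tr

end KX
end

section

/-!
# Small divisor conditions and products of divisors

`DC`, `JC`: the single and the joint diophantine conditions for a frequency vector `w`.
`hatY h`: the product of `max 1 (1 / |k_y · ω_{τ(y)}|)` over the divided positions of `h`.
`YY h`: the product of the inverse divisors themselves.
-/

set_option autoImplicit false

namespace KX

variable {V : Type} [DecidableEq V]

namespace Tr

/-- all trees: induction along the right spine -/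
theorem hatY_le (G : Geo V) (P : BP V) (C : CC) (T : ℕ) (hC : C.OK G P T) (Am : ℝ)
    (om : ℕ → V → ℝ) (t : ℕ) (ht : t ≤ T) (hD : ∀ s, s < t → DC G C (om s))
    (hJ : ∀ s, s < t → JC G C Am (om s))
    (hA : ∀ h : Tr V, tau G P h < T → ((A h).card : ℝ) ≤ Am)
    (hdr : ∀ s, s < t → ∀ f : Tr V, Good G P f → deg f ≤ 1 → k f ≠ 0 → tau G P f ≤ s →
      |dot (k f) (om s)| ≤ 2 * |dot (k f) (om (tau G P f))|)
    (h : Tr V) (hg : Good G P h) (hb : birth G P h ≤ t) :
    hatY G P om h ≤ Real.exp (4 * C.th * mass G P h +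
      mg (fun j => (C.bD + C.bb + C.bq) * Real.log (G.br j)) h) := by
  have hth := hC.th0
  have hw : ∀ i : V, C.bD * Real.log (G.br i) ≤ (C.bD + C.bb + C.bq) * Real.log (G.br i) := by
    intro i
    have h1 := Real.log_nonneg (G.one_le_br i)
    have h2 := mul_nonneg hC.bb0 h1
    have h3 := mul_nonneg hC.bq0 h1
    linarith
  have hw0 : ∀ i : V, 0 ≤ (C.bD + C.bb + C.bq) * Real.log (G.br i) := by
    intro i
    have h1 := Real.log_nonneg (G.one_le_br i)
    exact (mul_nonneg hC.bD0 h1).trans (hw i)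
  induction h with
  | leaf l =>
    show (1 : ℝ) ≤ _
    apply Real.one_le_exp
    have h1 : 0 ≤ mass G P (leaf l) := (P.mu_pos.le).trans (mu_le_mass G P _)
    have h2 : mg (fun j => (C.bD + C.bb + C.bq) * Real.log (G.br j)) (leaf l) = 0 := rfl
    rw [h2]
    positivity
  | node j f p ihf ihp =>
    obtain ⟨gf, gp, df, kf, hkap, hbp, -⟩ := hg
    have hb' : tau G P f + 1 ≤ t := hb
    obtain ⟨hjf, hjp⟩ := kap_mem j f p hkap
    have h1 := hatY_div_le G P C T hC Am om f gf df kf (by omega) (hD _ (by omega))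
      (hJ _ (by omega)) (hA f (by omega)) (fun y => by
        cases y with
        | none =>
          show |dot (ky f none) (om (tau G P f))| ≤ 2 * |dot (ky f none) (om (tau G P f))|
          have := abs_nonneg (dot (ky f none) (om (tau G P f)))
          linarith
        | some y =>
          obtain ⟨a1, a2, a3, a4⟩ := good_sub G P f gf y
          have a5 := good_tau G P f gf df
          exact hdr _ (by omega) (sub f y) a1 a2 a3 (by omega)) j hjf
    have h2 := ihp gp (hbp.trans hb')
    show hatY G P om f * mx (dot (k f) (om (tau G P f))) * hatY G P om p ≤ _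
    have h3 : 0 ≤ hatY G P om p := zero_le_one.trans (one_le_hatY G P om p)
    refine (mul_le_mul h1 h2 h3 (Real.exp_pos _).le).trans ?_
    rw [← Real.exp_add]
    apply Real.exp_le_exp.2
    rw [mass_node]
    have h4 : mg (fun j => (C.bD + C.bb + C.bq) * Real.log (G.br j)) (node j f p) =
        (∑ i ∈ A f ∩ A p, (C.bD + C.bb + C.bq) * Real.log (G.br i)) +
        mg (fun j => (C.bD + C.bb + C.bq) * Real.log (G.br j)) f +
        mg (fun j => (C.bD + C.bb + C.bq) * Real.log (G.br j)) p := rfl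
    have h5 : (C.bD + C.bb + C.bq) * Real.log (G.br j) ≤
        ∑ i ∈ A f ∩ A p, (C.bD + C.bb + C.bq) * Real.log (G.br i) :=
      Finset.single_le_sum (f := fun i => (C.bD + C.bb + C.bq) * Real.log (G.br i))
        (fun i _ => hw0 i) (Finset.mem_inter.2 ⟨hjf, hjp⟩)
    rw [h4]
    have h6 := hw j
    linarith

end Tr

end KX
end
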