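import Pool.Agent.Lib.MP_73c19a_an.Mg.G009
import Pool.Agent.Lib.MP_73c19a_an.Mg.G020
import Pool.Agent.Lib.MP_73c19a_an.Mg.G012
import Pool.Agent.Lib.MP_73c19a_an.Mg.G016

section

/-!
# The exponential of a derivation
-/

set_option autoImplicit false

namespace KX

open scoped ENNReal

variable {V : Type} [DecidableEq V]

theorem nr_ne_top_of_mul_a3c {c : ℝ} (hc : 0 < c) {x : ℝ≥0∞} {z : ℝ}
    (h : ENNReal.ofReal c * x ≤ ENNReal.ofReal z) : x ≠ ∞ := by
  rintro rfl
  rw [ENNReal.mul_top (by simpa using hc)] at h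
  exact absurd h (not_le.2 ENNReal.ofReal_lt_top)

theorem nrF_ne_top_a3c (G : Geo V) (rho y s1 z : ℝ) (hr : 0 < rho) (hy : 0 < y)
    (hs1 : 0 < s1) (F : Mon V → ℂ)
    (hF : ENNReal.ofReal (6 / (rho * y * s1)) * nr (wg G rho s1) F ≤ ENNReal.ofReal z) :
    nr (wg G rho s1) F ≠ ∞ :=
  nr_ne_top_of_mul_a3c (by positivity) hF

theorem nr_iter_ne_top_a3c (G : Geo V) (rho s y s1 : ℝ) (hr : 0 < rho) (hs : 0 ≤ s) (hy : 0 < y)
    (hs1 : 0 < s1) (h2 : s + y ≤ s1 / 2) (F g : Mon V → ℂ) (hF : nr (wg G rho s1) F ≠ ∞)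
    (hg : nr (wm G rho (s + y)) g ≠ ∞) (n : ℕ) : nr (wm G rho s) ((XX F)^[n] g) ≠ ∞ := by
  refine ne_top_of_le_ne_top ?_ (nr_XX_iter G rho s y s1 hr hs hy hs1 h2 F g n)
  exact ENNReal.mul_ne_top (ENNReal.pow_ne_top (ENNReal.mul_ne_top ENNReal.ofReal_ne_top hF)) hg

theorem XX_iter_add_a3c (G : Geo V) (rho s y s1 : ℝ) (hr : 0 < rho) (hs : 0 ≤ s) (hy : 0 < y)
    (hs1 : 0 < s1) (h2 : s + y ≤ s1 / 2) (F g g' : Mon V → ℂ) (hF : nr (wg G rho s1) F ≠ ∞)
    (hg : nr (wm G rho (s + y)) g ≠ ∞) (hg' : nr (wm G rho (s + y)) g' ≠ ∞) (n : ℕ) :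
    (XX F)^[n] (fun m => g m + g' m) = fun m => ((XX F)^[n] g) m + ((XX F)^[n] g') m := by
  induction n with
  | zero => rfl
  | succ n ih =>
    rw [Function.iterate_succ_apply', ih, Function.iterate_succ_apply',
      Function.iterate_succ_apply']
    have e : s + y / 2 + y / 2 = s + y := by ring
    have h3 : nr (wg G rho (s + y / 2)) F ≠ ∞ := by
      refine ne_top_of_le_ne_top hF (nr_mono (fun m => wg_mono G rho hr (by linarith) m) F)
    have h4 : ∀ g₀ : Mon V → ℂ, nr (wm G rho (s + y)) g₀ ≠ ∞ →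
        nr (wm G rho (s + y / 2)) ((XX F)^[n] g₀) ≠ ∞ := by
      intro g₀ hg₀
      exact nr_iter_ne_top_a3c G rho (s + y / 2) (y / 2) s1 hr (by linarith) (by linarith) hs1
        (by linarith) F g₀ hF (by rw [e]; exact hg₀) n
    exact XX_add G rho (s + y / 2) (s + y / 2) hr (by linarith) F _ _ h3 (h4 g hg) (h4 g' hg')

/-- the terms of the exponential series are summable in norm -/
theorem tsum_nr_exp_a3c (G : Geo V) (rho s y s1 z : ℝ) (hr : 0 < rho) (hs : 0 ≤ s) (hy : 0 < y)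
    (hs1 : 0 < s1) (h2 : s + y ≤ s1 / 2) (hz : 0 ≤ z) (hz1 : z ≤ 1 / 2) (F g : Mon V → ℂ)
    (hF : ENNReal.ofReal (6 / (rho * y * s1)) * nr (wg G rho s1) F ≤ ENNReal.ofReal z)
    (hg : nr (wm G rho (s + y)) g ≠ ∞) :
    ∑' n : ℕ, nr (wm G rho s) (fun m => (1 / (n.factorial : ℂ)) * ((XX F)^[n] g) m) ≠ ∞ := by
  have h1 : ∑' n : ℕ, nr (wm G rho s) (fun m => (1 / (n.factorial : ℂ)) * ((XX F)^[n] g) m) ≤
      ∑' n : ℕ, ENNReal.ofReal (z ^ n) * nr (wm G rho (s + y)) g :=
    ENNReal.tsum_le_tsum fun n => nr_XX_iter_fac G rho s y s1 z hr hs hy hs1 h2 hz F g hF n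
  refine ne_top_of_le_ne_top ?_ h1
  rw [ENNReal.tsum_mul_right]
  refine ENNReal.mul_ne_top ?_ hg
  rw [← ENNReal.ofReal_tsum_of_nonneg (fun n => pow_nonneg hz n)
    (summable_geometric_of_lt_one hz (by linarith))]
  exact ENNReal.ofReal_ne_top

theorem summable_exp_a3c (G : Geo V) (rho s y s1 z : ℝ) (hr : 0 < rho) (hs : 0 ≤ s) (hy : 0 < y)
    (hs1 : 0 < s1) (h2 : s + y ≤ s1 / 2) (hz : 0 ≤ z) (hz1 : z ≤ 1 / 2) (F g : Mon V → ℂ)
    (hF : ENNReal.ofReal (6 / (rho * y * s1)) * nr (wg G rho s1) F ≤ ENNReal.ofReal z)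
    (hg : nr (wm G rho (s + y)) g ≠ ∞) (m : Mon V) :
    Summable fun n : ℕ => (1 / (n.factorial : ℂ)) * ((XX F)^[n] g) m := by
  have h1 := tsum_nr_exp_a3c G rho s y s1 z hr hs hy hs1 h2 hz hz1 F g hF hg
  have h3 : ∑' n : ℕ, ‖(1 / (n.factorial : ℂ)) * ((XX F)^[n] g) m‖ₑ * wm G rho s m ≠ ∞ := by
    refine ne_top_of_le_ne_top h1 (ENNReal.tsum_le_tsum fun n => ?_)
    exact ENNReal.le_tsum (f := fun m => ‖(1 / (n.factorial : ℂ)) * ((XX F)^[n] g) m‖ₑ *
      wm G rho s m) m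
  rw [ENNReal.tsum_mul_right] at h3
  have h4 : ∑' n : ℕ, ‖(1 / (n.factorial : ℂ)) * ((XX F)^[n] g) m‖ₑ ≠ ∞ := by
    intro h5
    rw [h5, ENNReal.top_mul (wm_ne_zero G rho s hr m)] at h3
    exact h3 rfl
  apply Summable.of_norm
  rw [← summable_norm_iff] at *
  have h6 := ENNReal.summable_toReal h4
  refine h6.congr fun n => ?_
  rw [norm_norm]
  exact toReal_enorm _

theorem expX_add (G : Geo V) (rho s y s1 z : ℝ) (hr : 0 < rho) (hs : 0 ≤ s) (hy : 0 < y)
    (hs1 : 0 < s1) (h2 : s + y ≤ s1 / 2) (hz : 0 ≤ z) (hz1 : z ≤ 1 / 2) (F g g' : Mon V → ℂ)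
    (hF : ENNReal.ofReal (6 / (rho * y * s1)) * nr (wg G rho s1) F ≤ ENNReal.ofReal z)
    (hg : nr (wm G rho (s + y)) g ≠ ∞) (hg' : nr (wm G rho (s + y)) g' ≠ ∞) :
    expX F (fun m => g m + g' m) = fun m => expX F g m + expX F g' m := by
  have hF' := nrF_ne_top_a3c G rho y s1 z hr hy hs1 F hF
  funext m
  unfold expX
  rw [← (summable_exp_a3c G rho s y s1 z hr hs hy hs1 h2 hz hz1 F g hF hg m).tsum_add
    (summable_exp_a3c G rho s y s1 z hr hs hy hs1 h2 hz hz1 F g' hF hg' m)]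
  refine tsum_congr fun n => ?_
  rw [XX_iter_add_a3c G rho s y s1 hr hs hy hs1 h2 F g g' hF' hg hg' n]
  ring

theorem XX_iter_smul_a3c (F g : Mon V → ℂ) (c : ℂ) (n : ℕ) :
    (XX F)^[n] (fun m => c * g m) = fun m => c * ((XX F)^[n] g) m := by
  induction n with
  | zero => rfl
  | succ n ih =>
    rw [Function.iterate_succ_apply', ih, Function.iterate_succ_apply', XX_smul]

theorem expX_smul (F g : Mon V → ℂ) (c : ℂ) :
    expX F (fun m => c * g m) = fun m => c * expX F g m := by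
  funext m
  unfold expX
  rw [← tsum_mul_left]
  refine tsum_congr fun n => ?_
  rw [XX_iter_smul_a3c]
  ring

theorem XX_zero_right_a3c (F : Mon V → ℂ) : XX F (fun _ => 0) = fun _ => 0 := by
  funext m
  unfold XX push
  simp

theorem XX_one_a3c (F : Mon V → ℂ) : XX F (em 0) = fun _ => 0 := by
  funext m
  unfold XX push
  have h : ∀ x : V × Mon V × Mon V,
      Complex.I * (kapm x.1 x.2.1 x.2.2 : ℂ) * (em 0 : Mon V → ℂ) x.2.1 * F x.2.2 = 0 := by
    intro x
    by_cases hx : x.2.1 = 0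
    · have h1 : kapm x.1 x.2.1 x.2.2 = 0 := by
        rw [hx]
        simp [kapm]
      rw [h1]
      simp
    · have h1 : (em 0 : Mon V → ℂ) x.2.1 = 0 := by
        unfold em
        exact Pi.single_eq_of_ne hx _
      rw [h1]
      simp
  simp only [h]
  simp

theorem expX_one (F : Mon V → ℂ) : expX F (em 0) = em 0 := by
  have h : ∀ n, (XX F)^[n + 1] (em 0) = fun _ => 0 := by
    intro n
    induction n with
    | zero => exact XX_one_a3c F
    | succ n ih => rw [Function.iterate_succ_apply', ih, XX_zero_right_a3c]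
  funext m
  unfold expX
  rw [tsum_eq_single 0]
  · simp
  · intro n hn
    obtain ⟨k, rfl⟩ := Nat.exists_eq_succ_of_ne_zero hn
    rw [Nat.succ_eq_add_one, h]
    simp

theorem expX_cj (F g : Mon V → ℂ) (hF : cj F = F) : expX F (cj g) = cj (expX F g) := by
  have h : ∀ n, (XX F)^[n] (cj g) = cj ((XX F)^[n] g) := by
    intro n
    induction n with
    | zero => rfl
    | succ n ih => rw [Function.iterate_succ_apply', ih, Function.iterate_succ_apply', cj_XX F _ hF]
  funext m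
  unfold expX
  show _ = (starRingEnd ℂ) (∑' n : ℕ, (1 / (n.factorial : ℂ)) * ((XX F)^[n] g) (m.1, -m.2))
  rw [Complex.conj_tsum]
  refine tsum_congr fun n => ?_
  rw [h n, map_mul]
  congr 1
  rw [map_div₀, map_one, Complex.conj_natCast]

end KX
end

section

/-!
# The exponential of a derivation
-/

set_option autoImplicit false

namespace KX

open scoped ENNReal

variable {V : Type} [DecidableEq V]

theorem XX_zero_a3d (F : Mon V → ℂ) : XX F (fun _ => 0) = fun _ => 0 := by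
  funext m
  unfold XX push
  simp

/-- the bracket of a finite sum -/
theorem XX_sum_a3d (G : Geo V) (rho s : ℝ) (hr : 0 < rho) (hs : 0 < s) (F : Mon V → ℂ)
    (hF : nr (wg G rho s) F ≠ ∞) {α : Type} [DecidableEq α] (S : Finset α) (c : α → ℂ)
    (A : α → Mon V → ℂ) (hA : ∀ x ∈ S, nr (wm G rho s) (A x) ≠ ∞) :
    nr (wm G rho s) (fun m => ∑ x ∈ S, c x * A x m) ≠ ∞ ∧
      XX F (fun m => ∑ x ∈ S, c x * A x m) = fun m => ∑ x ∈ S, c x * XX F (A x) m := by
  induction S using Finset.induction_on with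
  | empty =>
    simp only [Finset.sum_empty]
    refine ⟨?_, XX_zero_a3d F⟩
    unfold nr
    simp
  | insert a S ha ih =>
    obtain ⟨h1, h2⟩ := ih fun x hx => hA x (Finset.mem_insert_of_mem hx)
    simp only [Finset.sum_insert ha]
    have h3 : nr (wm G rho s) (fun m => c a * A a m) ≠ ∞ := by
      rw [nr_smul]
      exact ENNReal.mul_ne_top enorm_ne_top (hA a (Finset.mem_insert_self a S))
    refine ⟨ne_top_of_le_ne_top (ENNReal.add_ne_top.2 ⟨h3, h1⟩) (nr_add_le _ _ _), ?_⟩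
    rw [XX_add G rho s s hr hs F _ _ hF h3 h1, h2, XX_smul]

/-- Leibniz formula for the powers: `(XX F)^n (g h) = ∑ C(n, a) (XX F)^a g * (XX F)^(n-a) h` -/
theorem XX_iter_mulm (G : Geo V) (rho s s1 : ℝ) (hr : 0 < rho) (hs : 0 < s)
    (hs1 : 0 < s1) (h2 : s ≤ s1 / 2) (F g h : Mon V → ℂ)
    (hF : nr (wg G rho s1) F ≠ ∞) (hg : nr (wm G rho s) g ≠ ∞) (hh : nr (wm G rho s) h ≠ ∞)
    (n : ℕ) (m : Mon V) :
    ((XX F)^[n] (mulm g h)) m = ∑ x ∈ Finset.HasAntidiagonal.antidiagonal n,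
      (n.choose x.1 : ℂ) * mulm ((XX F)^[x.1] g) ((XX F)^[x.2] h) m := by
  have e : s / 2 + s / 2 = s := by ring
  have hF2 : nr (wg G rho (s / 2)) F ≠ ∞ :=
    ne_top_of_le_ne_top hF (nr_mono (fun m => wg_mono G rho hr (by linarith) m) F)
  have hg2 : ∀ a, nr (wm G rho (s / 2)) ((XX F)^[a] g) ≠ ∞ := fun a =>
    nr_iter_ne_top_a3c G rho (s / 2) (s / 2) s1 hr (by linarith) (by linarith) hs1
      (by linarith) F g hF (by rw [e]; exact hg) a
  have hh2 : ∀ a, nr (wm G rho (s / 2)) ((XX F)^[a] h) ≠ ∞ := fun a =>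
    nr_iter_ne_top_a3c G rho (s / 2) (s / 2) s1 hr (by linarith) (by linarith) hs1
      (by linarith) F h hF (by rw [e]; exact hh) a
  have hs2 : 0 < s / 2 := by linarith
  have key : ∀ n : ℕ, (XX F)^[n] (mulm g h) = fun m =>
      ∑ x ∈ Finset.HasAntidiagonal.antidiagonal n,
        (n.choose x.1 : ℂ) * mulm ((XX F)^[x.1] g) ((XX F)^[x.2] h) m := by
    intro n
    induction n with
    | zero =>
      funext m
      simp
    | succ n ih =>
      rw [Function.iterate_succ_apply', ih]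
      have h3 := (XX_sum_a3d G rho (s / 2) hr hs2 F hF2
        (Finset.HasAntidiagonal.antidiagonal n) (fun x => (n.choose x.1 : ℂ))
        (fun x => mulm ((XX F)^[x.1] g) ((XX F)^[x.2] h)) fun x _ =>
          ne_top_of_le_ne_top (ENNReal.mul_ne_top (hg2 x.1) (hh2 x.2))
            (nr_mulm_le G rho (s / 2) hr hs2.le _ _)).2
      rw [h3]
      funext m
      rw [Finset.sum_antidiagonal_choose_succ_mul
        (fun a b => mulm ((XX F)^[a] g) ((XX F)^[b] h) m) n, ← Finset.sum_add_distrib]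
      refine Finset.sum_congr rfl fun x hx => ?_
      have hx' : x.1 + x.2 = n := Finset.HasAntidiagonal.mem_antidiagonal.1 hx
      have h4 : n.choose x.2 = n.choose x.1 := (Nat.choose_symm_of_eq_add hx'.symm).symm
      rw [XX_mulm G rho (s / 2) hr hs2 F _ _ hF2 (hg2 x.1) (hh2 x.2), h4,
        Function.iterate_succ_apply', Function.iterate_succ_apply']
      ring
  exact congrFun (key n) m

end KX
end

section

/-!
# The exponential of a derivation
-/

set_option autoImplicit false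

namespace KX

open scoped ENNReal

variable {V : Type} [DecidableEq V]

omit [DecidableEq V] in
theorem mulm_smul_smul_a3e (g h : Mon V → ℂ) (c d : ℂ) :
    mulm (fun m => c * g m) (fun m => d * h m) = fun m => c * d * mulm g h m := by
  unfold mulm
  rw [← push_smul]
  congr 1
  funext x
  ring

/-- `exp (XX F)` is multiplicative -/
theorem expX_mulm (G : Geo V) (rho s y s1 z : ℝ) (hr : 0 < rho) (hs : 0 ≤ s) (hy : 0 < y)
    (hs1 : 0 < s1) (h2 : s + y ≤ s1 / 2) (hz : 0 ≤ z) (hz1 : z ≤ 1 / 2) (F g h : Mon V → ℂ)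
    (hF : ENNReal.ofReal (6 / (rho * y * s1)) * nr (wg G rho s1) F ≤ ENNReal.ofReal z)
    (hg : nr (wm G rho (s + y)) g ≠ ∞) (hh : nr (wm G rho (s + y)) h ≠ ∞) :
    expX F (mulm g h) = mulm (expX F g) (expX F h) := by
  have hF' := nrF_ne_top_a3c G rho y s1 z hr hy hs1 F hF
  funext m
  have h3 := mulm_tsum_tsum G rho s hr hs
    (fun n m => (1 / (n.factorial : ℂ)) * ((XX F)^[n] g) m)
    (fun n m => (1 / (n.factorial : ℂ)) * ((XX F)^[n] h) m)
    (tsum_nr_exp_a3c G rho s y s1 z hr hs hy hs1 h2 hz hz1 F g hF hg)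
    (tsum_nr_exp_a3c G rho s y s1 z hr hs hy hs1 h2 hz hz1 F h hF hh) m
  refine Eq.trans ?_ h3.symm
  unfold expX
  refine tsum_congr fun n => ?_
  rw [XX_iter_mulm G rho (s + y) s1 hr (by linarith) hs1 h2 F g h hF' hg hh n m,
    Finset.mul_sum]
  refine Finset.sum_congr rfl fun x hx => ?_
  have hx' : x.1 + x.2 = n := Finset.HasAntidiagonal.mem_antidiagonal.1 hx
  rw [mulm_smul_smul_a3e]
  have h4 : (n.factorial : ℂ) = (n.choose x.1 : ℂ) * (x.1.factorial : ℂ) * (x.2.factorial : ℂ) := by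
    have h5 := Nat.choose_mul_factorial_mul_factorial (n := n) (k := x.1) (by omega)
    have h6 : n - x.1 = x.2 := by omega
    rw [h6] at h5
    exact_mod_cast h5.symm
  have h7 : (x.1.factorial : ℂ) ≠ 0 := by exact_mod_cast Nat.factorial_ne_zero _
  have h8 : (x.2.factorial : ℂ) ≠ 0 := by exact_mod_cast Nat.factorial_ne_zero _
  have h9 : (n.choose x.1 : ℂ) ≠ 0 := by
    exact_mod_cast (Nat.choose_pos (by omega : x.1 ≤ n)).ne'
  rw [h4]
  field_simp

end KX
end

section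

/-!
# Algebraic identities for formal series

All identities are equalities of push-forwards over a common index set (`push_push`, `push_congr`,
`push_add`, `push_equiv`).
-/

set_option autoImplicit false

namespace KX

open scoped ENNReal

variable {V : Type} [DecidableEq V]

/-- the bracket of two absolutely convergent series of series -/
theorem XX_tsum_tsum (G : Geo V) (rho s : ℝ) (hr : 0 < rho) (hs : 0 < s)
    (F g : ℕ → Mon V → ℂ) (hF : ∑' a, nr (wg G rho s) (F a) ≠ ∞)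
    (hg : ∑' a, nr (wm G rho s) (g a) ≠ ∞) (m : Mon V) :
    XX (fun m => ∑' a, F a m) (fun m => ∑' a, g a m) m =
      ∑' n : ℕ, ∑ x ∈ Finset.HasAntidiagonal.antidiagonal n, XX (F x.1) (g x.2) m := by
  have hw := wm_ne_zero G rho s hr
  have hwg := wg_ne_zero G rho s hr
  have hw0 := wm_ne_zero G rho 0 hr
  set C : ℝ≥0∞ := ENNReal.ofReal (1 / (rho * s * s)) with hC
  have hprod : ∑' p : ℕ × ℕ, C * nr (wm G rho (0 + s)) (g p.2) * nr (wg G rho (0 + s)) (F p.1) ≠
      ∞ := by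
    have h1 : ∀ p : ℕ × ℕ, C * nr (wm G rho (0 + s)) (g p.2) * nr (wg G rho (0 + s)) (F p.1) =
        C * (nr (wg G rho s) (F p.1) * nr (wm G rho s) (g p.2)) := by
      intro p
      rw [zero_add]
      ring
    simp only [h1]
    rw [ENNReal.tsum_mul_left, tsum_prod_alg2b (fun a => nr (wg G rho s) (F a))
      (fun a => nr (wm G rho s) (g a))]
    exact ENNReal.mul_ne_top ENNReal.ofReal_ne_top (ENNReal.mul_ne_top hF hg)
  have h1 : ∑' x : (ℕ × ℕ) × (V × Mon V × Mon V),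
      ‖Complex.I * (kapm x.2.1 x.2.2.1 x.2.2.2 : ℂ) * g x.1.2 x.2.2.1 * F x.1.1 x.2.2.2‖ₑ *
        wm G rho 0 (tgt x.2.1 x.2.2.1 x.2.2.2) ≠ ∞ := by
    rw [ENNReal.tsum_prod' (f := fun x : (ℕ × ℕ) × (V × Mon V × Mon V) =>
      ‖Complex.I * (kapm x.2.1 x.2.2.1 x.2.2.2 : ℂ) * g x.1.2 x.2.2.1 * F x.1.1 x.2.2.2‖ₑ *
        wm G rho 0 (tgt x.2.1 x.2.2.1 x.2.2.2))]
    exact ne_top_of_le_ne_top hprod (ENNReal.tsum_le_tsum fun p =>
      XX_abs_le G rho 0 s s hr le_rfl hs hs (F p.1) (g p.2))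
  have h2 : XX (fun m => ∑' a, F a m) (fun m => ∑' a, g a m) m =
      ∑' p : ℕ × ℕ, XX (F p.1) (g p.2) m := by
    unfold XX
    rw [← push_tsum (wm G rho 0) hw0 (fun x : V × Mon V × Mon V => tgt x.1 x.2.1 x.2.2)
      (fun (p : ℕ × ℕ) (x : V × Mon V × Mon V) =>
        Complex.I * (kapm x.1 x.2.1 x.2.2 : ℂ) * g p.2 x.2.1 * F p.1 x.2.2) h1 m]
    congr 2
    funext x
    have h3 := tsum_mul_alg2b (summable_pt_alg2b _ hwg F hF x.2.2)
      (summable_pt_alg2b _ hw g hg x.2.1)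
    calc Complex.I * (kapm x.1 x.2.1 x.2.2 : ℂ) * (∑' a, g a x.2.1) * (∑' a, F a x.2.2)
        = Complex.I * (kapm x.1 x.2.1 x.2.2 : ℂ) *
          ((∑' a, F a x.2.2) * (∑' a, g a x.2.1)) := by ring
      _ = ∑' p : ℕ × ℕ, Complex.I * (kapm x.1 x.2.1 x.2.2 : ℂ) * g p.2 x.2.1 * F p.1 x.2.2 := by
          rw [h3, ← tsum_mul_left]
          refine tsum_congr fun p => ?_
          ring
  rw [h2]
  apply tsum_antidiag_alg2b
  refine Summable.of_norm (summable_w_alg2b (hw0 m) (ne_top_of_le_ne_top hprod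
    (ENNReal.tsum_le_tsum fun p => ?_)))
  refine le_trans ?_ (nr_XX_le G rho 0 s s hr le_rfl hs hs (F p.1) (g p.2))
  exact ENNReal.le_tsum (f := fun m => ‖XX (F p.1) (g p.2) m‖ₑ * wm G rho 0 m) m

end KX
end

section

/-!
# The exponential of a derivation
-/

set_option autoImplicit false

namespace KX

open scoped ENNReal

variable {V : Type} [DecidableEq V]

namespace A3g

/-- pointwise summability from summability of the norms -/
theorem summable_of_nr {κ M : Type} (w : M → ℝ≥0∞) (f : κ → M → ℂ) (h : ∑' n, nr w (f n) ≠ ∞)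
    (m : M) (hm : w m ≠ 0) : Summable fun n => ‖f n m‖ := by
  have h1 : ∑' n, ‖f n m‖ₑ * w m ≠ ∞ := by
    refine ne_top_of_le_ne_top h (ENNReal.tsum_le_tsum fun n => ?_)
    exact ENNReal.le_tsum (f := fun m => ‖f n m‖ₑ * w m) m
  rw [ENNReal.tsum_mul_right] at h1
  have h2 : ∑' n, ‖f n m‖ₑ ≠ ∞ := fun h3 => h1 (by rw [h3, ENNReal.top_mul hm])
  have h3 := ENNReal.summable_toReal h2
  refine h3.congr fun n => ?_
  simp

/-- pointwise bound -/
theorem enorm_le_nr {M : Type} (w : M → ℝ≥0∞) (f : M → ℂ) (m : M) : ‖f m‖ₑ * w m ≤ nr w f :=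
  ENNReal.le_tsum (f := fun m => ‖f m‖ₑ * w m) m

theorem geom_ne_top {z : ℝ} (hz : 0 ≤ z) (hz1 : z < 1) {C : ℝ≥0∞} (hC : C ≠ ∞) :
    ∑' n : ℕ, ENNReal.ofReal (z ^ n) * C ≠ ∞ := by
  rw [ENNReal.tsum_mul_right]
  refine ENNReal.mul_ne_top ?_ hC
  rw [← ENNReal.ofReal_tsum_of_nonneg (fun n => pow_nonneg hz n)
    (summable_geometric_of_lt_one hz hz1)]
  exact ENNReal.ofReal_ne_top

end A3g

/-- the exponential conjugates the two derivations -/
theorem expX_dl (G : Geo V) (rho s y s1 z : ℝ) (hr : 0 < rho) (hs : 0 ≤ s) (hy : 0 < y)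
    (hs1 : 0 < s1) (h2 : s + y ≤ s1 / 4) (hz : 0 ≤ z) (hz1 : z ≤ 1 / 2) (F p r g : Mon V → ℂ)
    (w : V → ℝ) (hr' : Dw w F = r)
    (hF : ENNReal.ofReal (6 / (rho * y * s1)) * nr (wg G rho s1) F ≤ ENNReal.ofReal z)
    (hp : nr (wg G rho s1) p ≠ ∞) (hrr : nr (wg G rho s1) r ≠ ∞)
    (hg : nr (wm G rho (s + y)) g ≠ ∞) (hdg : nr (wm G rho (s + y)) (dl w p g) ≠ ∞) :
    dl w (tp F p r) (expX F g) = expX F (dl w p g) := by
  -- levels
  obtain ⟨t, ht⟩ : ∃ t, t = s + y / 4 := ⟨_, rfl⟩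
  obtain ⟨v, hv⟩ : ∃ v, v = 3 * y / 4 := ⟨_, rfl⟩
  have ht0 : 0 < t := by rw [ht]; positivity
  have hv0 : 0 < v := by rw [hv]; positivity
  have htv : t + v = s + y := by rw [ht, hv]; ring
  have htv2 : t + v ≤ s1 / 2 := by rw [htv]; linarith
  have htv1 : t + v ≤ s1 := by linarith
  have hz' : 0 ≤ 4 * z / 3 := by positivity
  have hz1' : 4 * z / 3 < 1 := by linarith
  have hFt : ENNReal.ofReal (6 / (rho * v * s1)) * nr (wg G rho s1) F ≤
      ENNReal.ofReal (4 * z / 3) := by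
    have e1 : 6 / (rho * v * s1) = (4 / 3) * (6 / (rho * y * s1)) := by
      rw [hv]; field_simp
    have e2 : 4 * z / 3 = (4 / 3) * z := by ring
    rw [e1, e2, ENNReal.ofReal_mul (by norm_num), ENNReal.ofReal_mul (by norm_num), mul_assoc]
    gcongr
  have hFne : nr (wg G rho s1) F ≠ ∞ := by
    intro h
    rw [h, ENNReal.mul_top] at hF
    · exact absurd hF (by simp)
    · have : 0 < 6 / (rho * y * s1) := by positivity
      simpa using this
  -- generators have finite norms at the level `t + v`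
  have hpt : nr (wg G rho (t + v)) p ≠ ∞ :=
    ne_top_of_le_ne_top hp (nr_mono (fun m => wg_mono G rho hr htv1 m) p)
  have hrt : nr (wg G rho (t + v)) r ≠ ∞ :=
    ne_top_of_le_ne_top hrr (nr_mono (fun m => wg_mono G rho hr htv1 m) r)
  have hgt : nr (wm G rho (t + v)) g ≠ ∞ := by rw [htv]; exact hg
  have hwt : ∀ m, wm G rho t m ≠ 0 := fun m => wm_ne_zero G rho t hr m
  have hgt' : ∀ m, wg G rho t m ≠ 0 := fun m => wg_ne_zero G rho t hr m
  -- the three exponential series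
  have S1 : ∀ q : Mon V → ℂ, nr (wm G rho (t + v)) q ≠ ∞ →
      ∑' n : ℕ, nr (wm G rho t) (fun m => (1 / (n.factorial : ℂ)) * ((XX F)^[n] q) m) ≠ ∞ := by
    intro q hq
    refine ne_top_of_le_ne_top (A3g.geom_ne_top hz' hz1' hq) (ENNReal.tsum_le_tsum fun n => ?_)
    exact nr_XX_iter_fac G rho t v s1 _ hr ht0.le hv0 hs1 htv2 hz' F q hFt n
  have S2 : ∀ q : Mon V → ℂ, nr (wg G rho (t + v)) q ≠ ∞ →
      ∑' n : ℕ, nr (wg G rho t) (fun m => (1 / (n.factorial : ℂ)) * ((XX F)^[n] q) m) ≠ ∞ := by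
    intro q hq
    refine ne_top_of_le_ne_top (A3g.geom_ne_top hz' hz1' hq) (ENNReal.tsum_le_tsum fun n => ?_)
    exact nr_XX_iter_fac' G rho t v s1 _ hr ht0.le hv0 hs1 htv2 hz' F q hFt n
  -- iterates have finite norms
  have hit : ∀ (q : Mon V → ℂ), nr (wm G rho (t + v)) q ≠ ∞ → ∀ n,
      nr (wm G rho t) ((XX F)^[n] q) ≠ ∞ := by
    intro q hq n
    refine ne_top_of_le_ne_top ?_ (nr_XX_iter G rho t v s1 hr ht0.le hv0 hs1 htv2 F q n)
    exact ENNReal.mul_ne_top (ENNReal.pow_ne_top (ENNReal.mul_ne_top ENNReal.ofReal_ne_top hFne)) hq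
  have hFt' : nr (wg G rho t) F ≠ ∞ :=
    ne_top_of_le_ne_top hFne (nr_mono (fun m => wg_mono G rho hr (by linarith) m) F)
  have hmono : ∀ q : Mon V → ℂ, nr (wg G rho (t + v)) q ≠ ∞ → nr (wm G rho (t + v)) q ≠ ∞ :=
    fun q hq => ne_top_of_le_ne_top hq (nr_mono (fun m => wm_le_wg G rho _ m) q)
  -- linearity of the iterates
  have hlin : ∀ (c : ℂ) (n : ℕ), (XX F)^[n] (fun m' => p m' - r m' / c) =
      fun m => ((XX F)^[n] p) m - ((XX F)^[n] r) m / c := by
    intro c n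
    induction n with
    | zero => rfl
    | succ n ih =>
      rw [Function.iterate_succ_apply', ih, Function.iterate_succ_apply',
        Function.iterate_succ_apply']
      have e1 : (fun m => ((XX F)^[n] p) m - ((XX F)^[n] r) m / c) =
          fun m => ((XX F)^[n] p) m + (fun m => (-(1 / c)) * ((XX F)^[n] r) m) m := by
        funext m; ring
      rw [e1, XX_add G rho t t hr ht0 F _ _ hFt' (hit p (hmono p hpt) n) ?_, XX_smul]
      · funext m; ring
      · rw [nr_smul]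
        exact ENNReal.mul_ne_top (by simp) (hit r (hmono r hrt) n)
  -- the coefficients of the transformed perturbation
  obtain ⟨q, hq⟩ : ∃ q : ℕ → Mon V → ℂ, q = fun a => match a with
      | 0 => p
      | a + 1 => fun m => ((XX F)^[a + 1] p) m - ((XX F)^[a] r) m := ⟨_, rfl⟩
  have hq0 : q 0 = p := by rw [hq]
  have hqs : ∀ a, q (a + 1) = fun m => ((XX F)^[a + 1] p) m - ((XX F)^[a] r) m := by
    intro a; rw [hq]
  have sumP : ∀ m, Summable fun n : ℕ => (1 / (n.factorial : ℂ)) * ((XX F)^[n] p) m := fun m =>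
    (A3g.summable_of_nr (wg G rho t) (fun n m => (1 / ((n : ℕ).factorial : ℂ)) *
      ((XX F)^[n] p) m) (S2 p hpt) m (hgt' m)).of_norm
  have sumR : ∀ m, Summable fun n : ℕ => (1 / ((n + 1).factorial : ℂ)) * ((XX F)^[n] r) m := by
    intro m
    have h1 := A3g.summable_of_nr (wg G rho t) (fun n m => (1 / ((n : ℕ).factorial : ℂ)) *
      ((XX F)^[n] r) m) (S2 r hrt) m (hgt' m)
    refine Summable.of_norm (Summable.of_nonneg_of_le (fun _ => norm_nonneg _) (fun n => ?_) h1)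
    rw [norm_mul, norm_mul]
    refine mul_le_mul_of_nonneg_right ?_ (norm_nonneg _)
    rw [norm_div, norm_div, norm_one, Complex.norm_natCast, Complex.norm_natCast]
    have : (0 : ℝ) < (n.factorial : ℝ) := by exact_mod_cast Nat.factorial_pos n
    apply one_div_le_one_div_of_le this
    exact_mod_cast Nat.factorial_le (Nat.le_succ n)
  have htp : tp F p r = fun m => ∑' a : ℕ, (fun a m => (1 / ((a : ℕ).factorial : ℂ)) * q a m) a m := by
    funext m
    show ∑' n : ℕ, (1 / (n.factorial : ℂ)) *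
      ((XX F)^[n] (fun m' => p m' - r m' / ((n : ℂ) + 1))) m = _
    have e1 : ∀ n : ℕ, (1 / (n.factorial : ℂ)) *
        ((XX F)^[n] (fun m' => p m' - r m' / ((n : ℂ) + 1))) m =
        (1 / (n.factorial : ℂ)) * ((XX F)^[n] p) m -
          (1 / ((n + 1).factorial : ℂ)) * ((XX F)^[n] r) m := by
      intro n
      rw [hlin ((n : ℂ) + 1) n]
      have h1 : (n.factorial : ℂ) ≠ 0 := by exact_mod_cast (Nat.factorial_pos n).ne'
      have h2 : ((n : ℂ) + 1) ≠ 0 := by exact_mod_cast Nat.succ_ne_zero n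
      rw [Nat.factorial_succ]
      push_cast
      field_simp
    simp_rw [e1]
    rw [(sumP m).tsum_sub (sumR m)]
    have e2 : Summable fun a : ℕ => (1 / ((a : ℕ).factorial : ℂ)) * q a m := by
      rw [← summable_nat_add_iff 1]
      have : ∀ a : ℕ, (1 / (((a + 1 : ℕ)).factorial : ℂ)) * q (a + 1) m =
          (1 / (((a + 1 : ℕ)).factorial : ℂ)) * ((XX F)^[a + 1] p) m -
          (1 / (((a + 1 : ℕ)).factorial : ℂ)) * ((XX F)^[a] r) m := by
        intro a; rw [hqs]; ring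
      simp_rw [this]
      exact ((summable_nat_add_iff 1).mpr (sumP m)).sub (sumR m)
    rw [e2.tsum_eq_zero_add, (sumP m).tsum_eq_zero_add]
    have e3 : ∀ a : ℕ, (1 / (((a + 1 : ℕ)).factorial : ℂ)) * q (a + 1) m =
          (1 / (((a + 1 : ℕ)).factorial : ℂ)) * ((XX F)^[a + 1] p) m -
          (1 / (((a + 1 : ℕ)).factorial : ℂ)) * ((XX F)^[a] r) m := by
        intro a; rw [hqs]; ring
    simp_rw [e3]
    rw [((summable_nat_add_iff 1).mpr (sumP m)).tsum_sub (sumR m), hq0]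
    simp only [Function.iterate_zero, id_eq]
    ring
  -- norms of the coefficients
  have SQ : ∑' a : ℕ, nr (wg G rho t) (fun m => (1 / ((a : ℕ).factorial : ℂ)) * q a m) ≠ ∞ := by
    rw [tsum_eq_zero_add' ENNReal.summable]
    refine ENNReal.add_ne_top.mpr ⟨?_, ?_⟩
    · rw [hq0, nr_smul]
      refine ENNReal.mul_ne_top (by simp) ?_
      exact ne_top_of_le_ne_top hp (nr_mono (fun m => wg_mono G rho hr (by linarith) m) p)
    · have key : ∀ a : ℕ, nr (wg G rho t) (fun m => (1 / ((a + 1).factorial : ℂ)) * q (a + 1) m) ≤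
          nr (wg G rho t) (fun m => (1 / ((a + 1).factorial : ℂ)) * ((XX F)^[a + 1] p) m) +
          nr (wg G rho t) (fun m => (1 / ((a : ℕ).factorial : ℂ)) * ((XX F)^[a] r) m) := by
        intro a
        have e1 : (fun m => (1 / ((a + 1).factorial : ℂ)) * q (a + 1) m) =
            fun m => (fun m => (1 / ((a + 1).factorial : ℂ)) * ((XX F)^[a + 1] p) m) m +
              (fun m => (-(1 / ((a : ℂ) + 1))) *
                ((1 / ((a : ℕ).factorial : ℂ)) * ((XX F)^[a] r) m)) m := by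
          funext m
          rw [hqs]
          have h1 : (a.factorial : ℂ) ≠ 0 := by exact_mod_cast (Nat.factorial_pos a).ne'
          have h2 : ((a : ℂ) + 1) ≠ 0 := by exact_mod_cast Nat.succ_ne_zero a
          rw [Nat.factorial_succ]
          push_cast
          field_simp
          ring
        rw [e1]
        refine (nr_add_le _ _ _).trans (add_le_add le_rfl ?_)
        rw [nr_smul]
        refine mul_le_of_le_one_left zero_le ?_
        rw [enorm_neg, ← ofReal_norm]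
        rw [ENNReal.ofReal_le_one, norm_div, norm_one]
        have e2 : ‖((a : ℂ) + 1)‖ = (a : ℝ) + 1 := by
          have : ((a : ℂ) + 1) = ((a + 1 : ℕ) : ℂ) := by push_cast; rfl
          rw [this, Complex.norm_natCast]; push_cast; rfl
        rw [e2, div_le_one (by positivity)]
        have : (0 : ℝ) ≤ a := Nat.cast_nonneg a
        linarith
      refine ne_top_of_le_ne_top ?_ (ENNReal.tsum_le_tsum key)
      rw [ENNReal.tsum_add]
      refine ENNReal.add_ne_top.mpr ⟨?_, S2 r hrt⟩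
      have := S2 p hpt
      rw [tsum_eq_zero_add' ENNReal.summable] at this
      exact (ENNReal.add_ne_top.mp this).2
  funext m
  have hR : Summable fun n : ℕ => (1 / (n.factorial : ℂ)) * ((XX F)^[n] (dl w p g)) m :=
    (A3g.summable_of_nr (wm G rho t) (fun n m => (1 / ((n : ℕ).factorial : ℂ)) *
      ((XX F)^[n] (dl w p g)) m) (S1 _ (by rw [htv]; exact hdg)) m (hwt m)).of_norm
  have hH : Summable fun n : ℕ => (1 / (n.factorial : ℂ)) * ((XX F)^[n] g) m :=
    (A3g.summable_of_nr (wm G rho t) (fun n m => (1 / ((n : ℕ).factorial : ℂ)) *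
      ((XX F)^[n] g) m) (S1 _ hgt) m (hwt m)).of_norm
  have hD : Summable fun n : ℕ => Complex.I * (dotm m.2 w : ℂ) *
      ((1 / (n.factorial : ℂ)) * ((XX F)^[n] g) m) := hH.mul_left _
  have key : ∀ n : ℕ, (1 / (n.factorial : ℂ)) * ((XX F)^[n] (dl w p g)) m =
      Complex.I * (dotm m.2 w : ℂ) * ((1 / (n.factorial : ℂ)) * ((XX F)^[n] g) m) +
      ∑ x ∈ Finset.HasAntidiagonal.antidiagonal n,
        XX ((fun a m => (1 / ((a : ℕ).factorial : ℂ)) * q a m) x.1)
          ((fun b m => (1 / ((b : ℕ).factorial : ℂ)) * ((XX F)^[b] g) m) x.2) m := by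
    intro n
    rw [XX_iter_dl G rho (s + y) s1 hr (by linarith) hs1 (by linarith) F p r g w hr' hFne hp hrr
      hg hdg n m, Finset.mul_sum]
    have e1 : Complex.I * (dotm m.2 w : ℂ) * ((1 / (n.factorial : ℂ)) * ((XX F)^[n] g) m) =
        ∑ x ∈ Finset.HasAntidiagonal.antidiagonal n, if x.1 = 0 then
          Complex.I * (dotm m.2 w : ℂ) * ((1 / (x.2.factorial : ℂ)) * ((XX F)^[x.2] g) m)
          else 0 := by
      rw [Finset.sum_eq_single (0, n)]
      · simp
      · rintro ⟨a, b⟩ hx hne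
        rw [Finset.HasAntidiagonal.mem_antidiagonal] at hx
        simp only at hx
        rw [if_neg]
        rintro rfl
        exact hne (by rw [← hx]; simp)
      · intro h
        exact absurd (Finset.HasAntidiagonal.mem_antidiagonal.mpr (Nat.zero_add n)) h
    rw [e1, ← Finset.sum_add_distrib]
    refine Finset.sum_congr rfl ?_
    rintro ⟨a, b⟩ hx
    rw [Finset.HasAntidiagonal.mem_antidiagonal] at hx
    simp only at hx ⊢
    rw [XX_smul, XX_smul_left]
    have hn : (n.choose a : ℂ) * (a.factorial : ℂ) * (b.factorial : ℂ) = (n.factorial : ℂ) := by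
      have := Nat.choose_mul_factorial_mul_factorial (show a ≤ n by omega)
      have hb : n - a = b := by omega
      rw [hb] at this
      exact_mod_cast this
    have h1 : (a.factorial : ℂ) ≠ 0 := by exact_mod_cast (Nat.factorial_pos a).ne'
    have h2 : (b.factorial : ℂ) ≠ 0 := by exact_mod_cast (Nat.factorial_pos b).ne'
    have h3 : (n.factorial : ℂ) ≠ 0 := by exact_mod_cast (Nat.factorial_pos n).ne'
    have e2 : (1 / (n.factorial : ℂ)) * (n.choose a : ℂ) =
        (1 / (a.factorial : ℂ)) * (1 / (b.factorial : ℂ)) := by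
      rw [← hn]
      have h4 : (n.choose a : ℂ) ≠ 0 := by
        intro h; rw [h] at hn; simp at hn; exact h3 hn.symm
      field_simp
    rw [← mul_assoc, e2]
    cases a with
    | zero =>
      simp only [dls, dl, Pi.add_apply, if_true, Nat.factorial_zero, Nat.cast_one, hq0, Dw]
      ring
    | succ a =>
      rw [if_neg (Nat.succ_ne_zero a), hqs]
      simp only [dls]
      ring
  have hA : Summable fun n : ℕ => ∑ x ∈ Finset.HasAntidiagonal.antidiagonal n,
        XX ((fun a m => (1 / ((a : ℕ).factorial : ℂ)) * q a m) x.1)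
          ((fun b m => (1 / ((b : ℕ).factorial : ℂ)) * ((XX F)^[b] g) m) x.2) m := by
    refine (hR.sub hD).congr fun n => ?_
    rw [key n]; ring
  show Dw w (expX F g) m + XX (tp F p r) (expX F g) m = _
  have hL : XX (tp F p r) (expX F g) m = ∑' n : ℕ, ∑ x ∈ Finset.HasAntidiagonal.antidiagonal n,
        XX ((fun a m => (1 / ((a : ℕ).factorial : ℂ)) * q a m) x.1)
          ((fun b m => (1 / ((b : ℕ).factorial : ℂ)) * ((XX F)^[b] g) m) x.2) m := by
    rw [htp]
    exact XX_tsum_tsum G rho t hr ht0 (fun a m => (1 / ((a : ℕ).factorial : ℂ)) * q a m)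
      (fun b m => (1 / ((b : ℕ).factorial : ℂ)) * ((XX F)^[b] g) m) SQ (S1 g hgt) m
  have hE : expX F (dl w p g) m = ∑' n : ℕ, (1 / (n.factorial : ℂ)) *
      ((XX F)^[n] (dl w p g)) m := rfl
  rw [hL, hE]
  simp_rw [key]
  rw [hD.tsum_add hA, tsum_mul_left]
  rfl

end KX
end
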