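import Pool.Agent.Lib.MP_73c19a_an.Mg.G004
import Pool.Agent.Lib.MP_73c19a_an.Mg.G022

section

/-!
# Parameters for `ℤ^d`: the blocks
-/

set_option autoImplicit false

namespace KX

open Filter

/-- tail sums -/
noncomputable def tl (f : ℕ → ℝ) (a : ℕ) : ℝ := ∑' n, f (n + a)

theorem tl_succ {f : ℕ → ℝ} (hf : Summable f) (a : ℕ) : tl f a = f a + tl f (a + 1) := by
  have h := ((summable_nat_add_iff a).2 hf).tsum_eq_zero_add
  unfold tl
  rw [h, zero_add]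
  congr 1
  refine tsum_congr fun n => ?_
  congr 1
  ring

theorem tl_nonneg {f : ℕ → ℝ} (hf : ∀ n, 0 ≤ f n) (a : ℕ) : 0 ≤ tl f a :=
  tsum_nonneg fun _ => hf _

theorem tl_mono {f g : ℕ → ℝ} (hf : ∀ n, 0 ≤ f n) (hg : Summable g) (h : ∀ n, f n ≤ g n) (a : ℕ) :
    tl f a ≤ tl g a :=
  Summable.tsum_le_tsum (fun n => h _)
    (Summable.of_nonneg_of_le (fun n => hf _) (fun n => h _) ((summable_nat_add_iff a).2 hg))
    ((summable_nat_add_iff a).2 hg)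

theorem tl_cmul (c : ℝ) (f : ℕ → ℝ) (a : ℕ) : tl (fun n => c * f n) a = c * tl f a := by
  unfold tl
  rw [tsum_mul_left]

/-- the comparison series -/
noncomputable def zt (a : ℕ) : ℝ := 1 / ((a : ℝ) + 1) ^ 2

theorem zt_pos (a : ℕ) : 0 < zt a := by unfold zt; positivity

theorem zt_le_one (a : ℕ) : zt a ≤ 1 := by
  unfold zt
  have h0 : (0 : ℝ) ≤ a := Nat.cast_nonneg _
  rw [div_le_one (by positivity)]
  exact one_le_pow₀ (by linarith)

theorem zt_summable : Summable zt := by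
  have h := (summable_nat_add_iff 1).2 (Real.summable_one_div_nat_pow.2 (by norm_num : 1 < 2))
  refine h.congr fun n => ?_
  unfold zt
  push_cast
  rfl

theorem tl_zt_small (c : ℝ) (hc : 0 < c) : ∀ᶠ a in atTop, tl zt a ≤ c := by
  have h := tendsto_sum_nat_add zt
  filter_upwards [h.eventually (gt_mem_nhds hc)] with a ha
  exact ha.le

/-- loss of the level per inner step -/
noncomputable def yZ (a : ℕ) : ℝ := 1 / (((2 * LZ a : ℕ) : ℝ) * ((a : ℝ) + 1) ^ 2)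

theorem TZ_pos (a : ℕ) : (0 : ℝ) < ((2 * LZ a : ℕ) : ℝ) := by
  have := one_le_LZ a
  exact_mod_cast (by omega : 0 < 2 * LZ a)

theorem yZ_pos (a : ℕ) : 0 < yZ a := by
  have := TZ_pos a
  unfold yZ
  positivity

theorem yZ_mul (a : ℕ) : yZ a * ((2 * LZ a : ℕ) : ℝ) = zt a := by
  have := TZ_pos a
  unfold yZ zt
  field_simp

/-- loss of the exponent `sg` in a block -/
noncomputable def lossS (a : ℕ) : ℝ := (2 + (1 / 2 + 9 * (1 / 72))) * zt a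

noncomputable def lossK (a : ℕ) : ℝ := (1 / 2 + 9 * (1 / 72)) * zt a

theorem lossS_nonneg (a : ℕ) : 0 ≤ lossS a := by
  have := zt_pos a; unfold lossS; positivity

theorem lossK_nonneg (a : ℕ) : 0 ≤ lossK a := by
  have := zt_pos a; unfold lossK; positivity

theorem lossS_summable : Summable lossS := zt_summable.mul_left _

theorem lossK_summable : Summable lossK := zt_summable.mul_left _

/-- loss of the site weights in a block -/
noncomputable def vloss (d : ℕ) (δ : ℝ) (j : Fin d → ℤ) (a : ℕ) : ℝ :=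
  if j ∈ BZ d δ a then 0 else (1 / 2 + 9 * (1 / 72)) * laZ d δ a

theorem vloss_nonneg (d : ℕ) (δ : ℝ) (j : Fin d → ℤ) (a : ℕ) : 0 ≤ vloss d δ j a := by
  unfold vloss
  split_ifs
  · exact le_refl _
  · have := laZ_ge d δ a
    positivity

theorem vloss_le (d : ℕ) (δ : ℝ) (hδ : 0 < δ) (j : Fin d → ℤ) (a : ℕ) :
    vloss d δ j a ≤ (AZ d δ * δ * Real.log (brz j)) * zt a := by
  have hA := AZ_pos d δ
  have hl0 : 0 ≤ Real.log (brz j) := Real.log_nonneg (one_le_brz j)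
  unfold vloss
  split_ifs with h
  · have := zt_pos a
    positivity
  · have h1 := lR_lt_log d δ a j h
    unfold lR at h1
    rw [div_lt_iff₀ hδ] at h1
    have h2 := LZ_ge a
    have hell := one_le_ellZ a
    have ha0 : (0 : ℝ) ≤ a := Nat.cast_nonneg _
    have h3 : 4 * ((a : ℝ) + 1) ^ 3 * ellZ a ≤ Real.log (brz j) * δ := by
      have : 4 * ((a : ℝ) + 1) ^ 3 * ellZ a ≤ 4 * ((2 * LZ a : ℕ) : ℝ) * ellZ a := by gcongr
      linarith
    unfold laZ zt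
    have h4 : (AZ d δ * δ * Real.log (brz j)) * (1 / ((a : ℝ) + 1) ^ 2) =
        AZ d δ * (Real.log (brz j) * δ) / ((a : ℝ) + 1) ^ 2 := by ring
    rw [h4, le_div_iff₀ (by positivity)]
    have h5 : (1 / 2 + 9 * (1 / 72)) * (AZ d δ * ((a : ℝ) + 1) * ellZ a) * ((a : ℝ) + 1) ^ 2 ≤
        AZ d δ * (4 * ((a : ℝ) + 1) ^ 3 * ellZ a) := by
      have : 0 ≤ AZ d δ * (((a : ℝ) + 1) ^ 3 * ellZ a) := by positivity
      nlinarith
    exact h5.trans (mul_le_mul_of_nonneg_left h3 hA.le)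

theorem vloss_summable (d : ℕ) (δ : ℝ) (hδ : 0 < δ) (j : Fin d → ℤ) :
    Summable (vloss d δ j) :=
  Summable.of_nonneg_of_le (vloss_nonneg d δ j) (vloss_le d δ hδ j) (zt_summable.mul_left _)

/-- exponent of the site weights -/
noncomputable def WZ (d : ℕ) (δ : ℝ) : ℝ := 2 * (((d : ℝ) + δ) + δ + δ) + ((d : ℝ) + δ)

theorem WZ_ge (d : ℕ) (δ : ℝ) (hδ : 0 < δ) : (d : ℝ) + δ ≤ WZ d δ := by
  have hd0 : (0 : ℝ) ≤ d := Nat.cast_nonneg _
  unfold WZ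
  linarith

/-- the block with absolute index `a` -/
noncomputable def blkZ (d : ℕ) (δ s1 rho : ℝ) (a : ℕ) : Blk (Fin d → ℤ) where
  P := PZ d δ a
  C := CZ d δ a
  Am := 1 + (((BZ d δ a).card : ℝ) / muZ a + 1 / laZ d δ a) * (muZ a * (3 / 2 : ℝ) ^ LZ a)
  L := LZ a
  y := yZ a
  rho := rho
  sg := s1 + tl lossS (a + 1)
  kp := tl lossK (a + 1)
  v := fun j => brz j ^ WZ d δ * Real.exp (tl (vloss d δ j) (a + 1))

theorem blkZ_sg0 (d : ℕ) (δ s1 rho : ℝ) (a : ℕ) :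
    (blkZ d δ s1 rho a).sg0 = s1 + tl lossS a := by
  show (s1 + tl lossS (a + 1)) + 2 * yZ a * ((2 * LZ a : ℕ) : ℝ) +
    (1 / 2 + 9 * (1 / 72)) * deZ a = s1 + tl lossS a
  rw [tl_succ lossS_summable a, mul_assoc 2, yZ_mul]
  unfold lossS deZ zt
  ring

theorem blkZ_kp0 (d : ℕ) (δ s1 rho : ℝ) (a : ℕ) :
    (blkZ d δ s1 rho a).kp0 = tl lossK a := by
  show tl lossK (a + 1) + (1 / 2 + 9 * (1 / 72)) * deZ a = tl lossK a
  rw [tl_succ lossK_summable a]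
  unfold lossK deZ zt
  ring

theorem blkZ_v0 (d : ℕ) (δ : ℝ) (hδ : 0 < δ) (s1 rho : ℝ) (a : ℕ) :
    (blkZ d δ s1 rho a).v0 = fun j => brz j ^ WZ d δ * Real.exp (tl (vloss d δ j) a) := by
  funext j
  show brz j ^ WZ d δ * Real.exp (tl (vloss d δ j) (a + 1)) *
    Real.exp (if j ∈ BZ d δ a then 0 else (1 / 2 + 9 * (1 / 72)) * laZ d δ a) = _
  rw [tl_succ (vloss_summable d δ hδ j) a, mul_assoc, ← Real.exp_add]
  congr 2
  unfold vloss
  ring

theorem v_ge (d : ℕ) (δ s1 rho : ℝ) (a : ℕ) (j : Fin d → ℤ) :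
    brz j ^ WZ d δ ≤ (blkZ d δ s1 rho a).v j := by
  show brz j ^ WZ d δ ≤ brz j ^ WZ d δ * Real.exp (tl (vloss d δ j) (a + 1))
  have h1 : 1 ≤ Real.exp (tl (vloss d δ j) (a + 1)) :=
    Real.one_le_exp (tl_nonneg (vloss_nonneg d δ j) _)
  have h2 : 0 < brz j ^ WZ d δ := Real.rpow_pos_of_pos (brz_pos j) _
  nlinarith

theorem v0_le (d : ℕ) (δ : ℝ) (hδ : 0 < δ) (s1 rho : ℝ) (a : ℕ)
    (ha : tl zt a * (AZ d δ * δ) ≤ δ) (j : Fin d → ℤ) :
    (blkZ d δ s1 rho a).v0 j ≤ brz j ^ (WZ d δ + δ) := by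
  rw [blkZ_v0 d δ hδ, Real.rpow_add (brz_pos j)]
  refine mul_le_mul_of_nonneg_left ?_ (Real.rpow_pos_of_pos (brz_pos j) _).le
  rw [Real.rpow_def_of_pos (brz_pos j)]
  refine Real.exp_le_exp.2 ?_
  have h1 : tl (vloss d δ j) a ≤ tl (fun n => (AZ d δ * δ * Real.log (brz j)) * zt n) a :=
    tl_mono (vloss_nonneg d δ j) (zt_summable.mul_left _) (vloss_le d δ hδ j) a
  rw [tl_cmul] at h1
  have hl0 : 0 ≤ Real.log (brz j) := Real.log_nonneg (one_le_brz j)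
  calc tl (vloss d δ j) a ≤ AZ d δ * δ * Real.log (brz j) * tl zt a := h1
    _ = Real.log (brz j) * (tl zt a * (AZ d δ * δ)) := by ring
    _ ≤ Real.log (brz j) * δ := mul_le_mul_of_nonneg_left ha hl0

theorem C11_ev : ∀ᶠ a in atTop, ∀ m : ℝ, muZ a ≤ m →
    4 * ((2 * LZ a : ℕ) : ℝ) * (m / deZ a) ≤ Real.exp ((1 / 3 - 3 * (1 / 72)) * m) := by
  have h := ((Sub.T.mul (Sub.nat1.pow 2)).cmul 4).le_mu (show (0 : ℝ) < 49 / 1152 by norm_num)
  filter_upwards [h] with a ha m hm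
  have hmu := muZ_pos a
  have hm0 : 0 < m := lt_of_lt_of_le hmu hm
  have h1 : ((7 / 24 : ℝ) * m) ^ 2 / (Nat.factorial 2) ≤ Real.exp (7 / 24 * m) :=
    Real.pow_div_factorial_le_exp _ (by positivity) 2
  have h2 : (1 / 3 - 3 * (1 / 72) : ℝ) * m = 7 / 24 * m := by ring
  rw [h2]
  refine le_trans ?_ h1
  unfold deZ
  rw [div_div_eq_mul_div, div_one]
  have h3 : ((7 / 24 : ℝ) * m) ^ 2 / (Nat.factorial 2) = (49 / 1152 * m) * m := by
    norm_num [Nat.factorial]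
    ring
  rw [h3]
  have h4 : 4 * (((2 * LZ a : ℕ) : ℝ) * ((a : ℝ) + 1) ^ 2) ≤ 49 / 1152 * m := ha.trans (by
    exact mul_le_mul_of_nonneg_left hm (by norm_num))
  calc 4 * ((2 * LZ a : ℕ) : ℝ) * (m * ((a : ℝ) + 1) ^ 2)
      = 4 * (((2 * LZ a : ℕ) : ℝ) * ((a : ℝ) + 1) ^ 2) * m := by ring
    _ ≤ 49 / 1152 * m * m := mul_le_mul_of_nonneg_right h4 hm0.le

theorem one_le_muZ (a : ℕ) : 1 ≤ muZ a := one_le_pow₀ (by norm_num)

theorem C12_ev (d : ℕ) (δ : ℝ) (hδ : 0 < δ) (hδ1 : δ ≤ 1) : ∀ᶠ a in atTop, ∀ m : ℝ, muZ a ≤ m →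
    1 + 4 * (m / muZ a) * (m / deZ a) * (1 + m / deZ a) ^ ((d : ℝ) + δ) ≤
      Real.exp (1 / 72 * m) := by
  have h := (((Sub.nat1.pow 2).pow (d + 2)).cmul
    (5 * 2 ^ (d + 1) * (72 ^ (d + 4) * (Nat.factorial (d + 4) : ℝ)))).le_mu one_pos
  filter_upwards [h] with a ha m hm
  have hmu := muZ_pos a
  have hmu1 := one_le_muZ a
  have hm1 : 1 ≤ m := hmu1.trans hm
  have hm0 : 0 < m := by linarith
  set D : ℝ := ((a : ℝ) + 1) ^ 2 with hD
  have ha0 : (0 : ℝ) ≤ a := Nat.cast_nonneg _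
  have hD1 : 1 ≤ D := one_le_pow₀ (by linarith)
  have hmD : m / deZ a = m * D := by
    unfold deZ
    rw [div_div_eq_mul_div, div_one]
  rw [hmD]
  have hmD1 : 1 ≤ m * D := by nlinarith
  have h1 : (1 + m * D) ^ ((d : ℝ) + δ) ≤ (2 * (m * D)) ^ (d + 1) := by
    calc (1 + m * D) ^ ((d : ℝ) + δ) ≤ (1 + m * D) ^ (((d + 1 : ℕ)) : ℝ) := by
          refine Real.rpow_le_rpow_of_exponent_le (by linarith) ?_
          push_cast
          linarith
      _ = (1 + m * D) ^ (d + 1) := Real.rpow_natCast _ _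
      _ ≤ _ := pow_le_pow_left₀ (by linarith) (by linarith) _
  have h2 : 1 + 4 * (m / muZ a) * (m * D) * (1 + m * D) ^ ((d : ℝ) + δ) ≤
      5 * (m * (m * D) * (2 * (m * D)) ^ (d + 1)) := by
    have h3 : m / muZ a ≤ m := div_le_self hm0.le hmu1
    have h4 : 4 * (m / muZ a) * (m * D) * (1 + m * D) ^ ((d : ℝ) + δ) ≤
        4 * m * (m * D) * (2 * (m * D)) ^ (d + 1) := by gcongr
    have h5 : 1 ≤ m * (m * D) * (2 * (m * D)) ^ (d + 1) := by
      have h6 : 1 ≤ (2 * (m * D)) ^ (d + 1) := one_le_pow₀ (by linarith)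
      have h7 : 1 ≤ m * (m * D) := by nlinarith
      nlinarith
    nlinarith
  have h8 : (1 / 72 * m) ^ (d + 4) / (Nat.factorial (d + 4)) ≤ Real.exp (1 / 72 * m) :=
    Real.pow_div_factorial_le_exp _ (by positivity) _
  refine h2.trans (le_trans ?_ h8)
  rw [le_div_iff₀ (by positivity)]
  have h9 : 5 * (m * (m * D) * (2 * (m * D)) ^ (d + 1)) * (Nat.factorial (d + 4) : ℝ) =
      (5 * 2 ^ (d + 1) * (72 ^ (d + 4) * (Nat.factorial (d + 4) : ℝ)) * D ^ (d + 2)) *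
      (m ^ (d + 3) / 72 ^ (d + 4)) := by
    have : (2 * (m * D)) ^ (d + 1) = 2 ^ (d + 1) * m ^ (d + 1) * D ^ (d + 1) := by
      rw [mul_pow, mul_pow, mul_assoc]
    rw [this]
    field_simp
    ring
  rw [h9]
  have h10 : (1 / 72 * m) ^ (d + 4) = m * (m ^ (d + 3) / 72 ^ (d + 4)) := by
    rw [mul_pow, div_pow, one_pow, pow_succ m]
    ring
  rw [h10]
  refine mul_le_mul_of_nonneg_right ?_ (by positivity)
  linarith

theorem C13_ev : ∀ᶠ a in atTop,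
    24 * ((2 * LZ a : ℕ) : ℝ) * Real.exp (-(3 / 8) * muZ a) ≤ yZ a ^ 2 := by
  have h := ((Sub.T.cmul 24).mul ((Sub.T.mul (Sub.nat1.pow 2)).pow 2)).le_exp_mu
    (show (0 : ℝ) < 3 / 8 by norm_num)
  filter_upwards [h] with a ha
  have hT := TZ_pos a
  unfold yZ
  rw [neg_mul, Real.exp_neg, div_pow, one_pow, le_div_iff₀ (by positivity), mul_assoc,
    mul_comm (Real.exp (3 / 8 * muZ a))⁻¹, ← mul_assoc, ← div_eq_mul_inv,
    div_le_one (Real.exp_pos _)]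
  exact ha

/-- all conditions on one block -/
theorem blkZ_OK (d : ℕ) (hd : 1 ≤ d) (δ : ℝ) (hδ : 0 < δ) (hδ1 : δ ≤ 1)
    (s1 : ℝ) (hs1 : 0 ≤ s1) : ∀ᶠ a in atTop, ∀ (ac : (Fin d → ℤ) → ℝ) (hac0 : ∀ j, 0 < ac j) (hac1 : ∀ j, ac j ≤ 1),
    ∀ rho : ℝ, 0 < rho →
    (blkZ d δ s1 rho a).OK (geoZ d ac hac0 hac1) (fun j => brz j ^ (-((d : ℝ) + δ))) ((d : ℝ) + δ) := by
  filter_upwards [CZ_OK d δ hδ, C11_ev, C12_ev d δ hδ hδ1, C13_ev] with a h1 h2 h3 h4 ac hac0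
    hac1 rho hrho
  have hd0 : (0 : ℝ) ≤ d := Nat.cast_nonneg _
  refine
    { C := h1 ac hac0 hac1
      be0 := fun j => Real.rpow_pos_of_pos (brz_pos j) _
      bes := brz_summable' d hd _ (by linarith)
      bB0 := by positivity
      br := fun j => ?_
      L1 := one_le_LZ a
      y0 := yZ_pos a
      rho0 := hrho
      sg0 := ?_
      kp0 := tl_nonneg lossK_nonneg _
      th1 := le_of_eq rfl
      v1 := fun j => ?_
      vD := fun j => ?_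
      Am1 := ?_
      C11 := h2
      C12 := h3
      C13 := h4 }
  · rw [Real.rpow_neg (brz_pos j).le, inv_inv]
    exact le_of_eq rfl
  · show 0 ≤ s1 + tl lossS (a + 1)
    have := tl_nonneg lossS_nonneg (a + 1)
    linarith
  · refine le_trans (le_of_eq ?_) (v_ge d δ s1 rho a j)
    show Real.exp ((2 * (((d : ℝ) + δ) + δ + δ) + ((d : ℝ) + δ)) * Real.log (brz j)) =
      brz j ^ WZ d δ
    rw [Real.rpow_def_of_pos (brz_pos j), mul_comm]
    rfl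
  · refine le_trans ?_ (v_ge d δ s1 rho a j)
    exact Real.rpow_le_rpow_of_exponent_le (one_le_brz j) (WZ_ge d δ hδ)
  · show (((BZ d δ a).card : ℝ) / muZ a + 1 / laZ d δ a) * (muZ a * (3 / 2 : ℝ) ^ LZ a) ≤
      1 + (((BZ d δ a).card : ℝ) / muZ a + 1 / laZ d δ a) * (muZ a * (3 / 2 : ℝ) ^ LZ a)
    linarith

end KX
end

section

/-!
# Parameters for `ℤ^d`: the sequence of blocks
-/

set_option autoImplicit false

namespace KX

open Filter

open scoped ENNReal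

theorem C14_ev : ∀ᶠ a in atTop, 16 * Real.exp (-(3 / 8) * muZ a -
    (1 / 2) * (muZ a * (3 / 2 : ℝ) ^ LZ a)) ≤ Real.exp (-2 * muZ (a + 1)) := by
  have h := (Sub.const 30).le_mu one_pos
  filter_upwards [h] with a ha
  have h1 : muZ a * (3 / 2 : ℝ) ^ LZ a = 81 / 16 * muZ (a + 1) := by
    unfold muZ
    rw [← pow_add, LZ_eq, pow_add]
    norm_num
    ring
  rw [h1]
  have h2 : muZ a ≤ muZ (a + 1) := by
    unfold muZ
    exact pow_le_pow_right₀ (by norm_num) (Nat.pow_le_pow_left (by omega) 4)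
  have h3 : (16 : ℝ) ≤ Real.exp (17 / 32 * muZ (a + 1)) := by
    have := Real.add_one_le_exp (17 / 32 * muZ (a + 1))
    linarith
  have h4 : Real.exp (-2 * muZ (a + 1)) =
      Real.exp (17 / 32 * muZ (a + 1)) * Real.exp (-(1 / 2) * (81 / 16 * muZ (a + 1))) := by
    rw [← Real.exp_add]
    congr 1
    ring
  rw [h4]
  have h5 : Real.exp (-(3 / 8) * muZ a - (1 / 2) * (81 / 16 * muZ (a + 1))) ≤
      Real.exp (-(1 / 2) * (81 / 16 * muZ (a + 1))) := by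
    refine Real.exp_le_exp.2 ?_
    have := muZ_pos a
    linarith
  exact mul_le_mul h3 h5 (Real.exp_pos _).le (Real.exp_pos _).le

theorem cc_ev (d : ℕ) (δ : ℝ) (hδ : 0 < δ) (s1 rho : ℝ) (a : ℕ) :
    280 * (blkZ d δ s1 rho a).Am * Real.exp (-(blkZ d δ s1 rho a).C.c) ≤ 1 := by
  show 280 * (1 + (((BZ d δ a).card : ℝ) / muZ a + 1 / laZ d δ a) *
    (muZ a * (3 / 2 : ℝ) ^ LZ a)) * Real.exp (-cZ d δ a) ≤ 1
  have hmu := muZ_pos a
  have hla := laZ_ge d δ a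
  have hla0 : 0 < laZ d δ a := by linarith
  have hB := card_BZ_le d δ hδ a
  have hlR := lR_nonneg δ hδ a
  have e32 : (3 / 2 : ℝ) ≤ Real.exp 1 := by
    have := Real.exp_one_gt_d9
    linarith
  have hpow : ∀ n : ℕ, (3 / 2 : ℝ) ^ n ≤ Real.exp n := fun n => by
    have := pow_le_pow_left₀ (by norm_num : (0 : ℝ) ≤ 3 / 2) e32 n
    rwa [← Real.exp_nat_mul, mul_one] at this
  have h1 : (((BZ d δ a).card : ℝ) / muZ a + 1 / laZ d δ a) * (muZ a * (3 / 2 : ℝ) ^ LZ a) =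
      ((BZ d δ a).card : ℝ) * (3 / 2 : ℝ) ^ LZ a + (3 / 2 : ℝ) ^ (a ^ 4 + LZ a) / laZ d δ a := by
    have : (3 / 2 : ℝ) ^ (a ^ 4 + LZ a) = muZ a * (3 / 2 : ℝ) ^ LZ a := by
      unfold muZ; rw [pow_add]
    rw [this]
    field_simp
  rw [h1, LZ_eq]
  set E : ℝ := 2 * d + d * lR δ a + LZ a + (((a + 1) ^ 4 + 4 : ℕ) : ℝ) with hE
  have hc : cZ d δ a = 7 + E := by unfold cZ; rw [hE]; ring
  have hd0 : (0 : ℝ) ≤ d := Nat.cast_nonneg _
  have hL0 : (0 : ℝ) ≤ LZ a := Nat.cast_nonneg _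
  have hdl : 0 ≤ (d : ℝ) * lR δ a := by positivity
  have hn0 : (0 : ℝ) ≤ (((a + 1) ^ 4 + 4 : ℕ) : ℝ) := Nat.cast_nonneg _
  have t1 : (1 : ℝ) ≤ Real.exp E := Real.one_le_exp (by positivity)
  have t2 : ((BZ d δ a).card : ℝ) * (3 / 2 : ℝ) ^ LZ a ≤ Real.exp E := by
    calc _ ≤ Real.exp (2 * d + d * lR δ a) * Real.exp (LZ a) := by
          gcongr
          exact hpow _
      _ = Real.exp (2 * d + d * lR δ a + LZ a) := by rw [Real.exp_add (2 * (d : ℝ) + d * lR δ a)]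
      _ ≤ _ := Real.exp_le_exp.2 (by rw [hE]; linarith)
  have t3 : (3 / 2 : ℝ) ^ ((a + 1) ^ 4 + 4) / laZ d δ a ≤ Real.exp E := by
    calc _ ≤ (3 / 2 : ℝ) ^ ((a + 1) ^ 4 + 4) := div_le_self (by positivity) hla
      _ ≤ Real.exp (((a + 1) ^ 4 + 4 : ℕ) : ℝ) := hpow _
      _ ≤ _ := Real.exp_le_exp.2 (by rw [hE]; linarith)
  have t4 : (840 : ℝ) ≤ Real.exp 7 := by
    have h := Real.exp_one_gt_d9
    have : Real.exp 7 = Real.exp 1 ^ 7 := by rw [← Real.exp_nat_mul]; norm_num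
    rw [this]
    calc (840 : ℝ) ≤ 2.7182818283 ^ 7 := by norm_num
      _ ≤ _ := pow_le_pow_left₀ (by norm_num) h.le 7
  rw [hc, Real.exp_neg, Real.exp_add, mul_inv_le_iff₀ (by positivity), one_mul]
  have t5 : 0 < Real.exp E := Real.exp_pos _
  nlinarith

theorem LS_ev (d : ℕ) (hd : 1 ≤ d) : ∀ᶠ a in atTop,
    ∀ (ac : (Fin d → ℤ) → ℝ) (hac0 : ∀ j, 0 < ac j) (hac1 : ∀ j, ac j ≤ 1),
    LS (geoZ d ac hac0 hac1) (ellZ a) (dpZ a) := by
  filter_upwards [eventually_nat_ge (16 * (4 * d) ^ d * (Nat.factorial (2 * (6 * d + 13)) : ℝ))]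
    with a ha ac hac0 hac1
  refine LS_geoZ d hd ac hac0 hac1 (ellZ a) (dpZ a) (dpZ_pos a) (dpZ_le_one a) ?_
  have ha0 : (0 : ℝ) ≤ a := Nat.cast_nonneg _
  set x : ℝ := (a : ℝ) + 1 with hx
  have hx0 : 0 < x := by linarith
  have h1 : (√x) ^ (2 * (6 * d + 13)) / (Nat.factorial (2 * (6 * d + 13))) ≤ Real.exp (√x) :=
    Real.pow_div_factorial_le_exp _ (Real.sqrt_nonneg _) _
  have h2 : (√x) ^ (2 * (6 * d + 13)) = x ^ (6 * d + 13) := by
    rw [pow_mul, Real.sq_sqrt hx0.le]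
  rw [h2] at h1
  refine le_trans ?_ h1
  rw [le_div_iff₀ (by positivity)]
  unfold dpZ
  rw [← hx]
  have h3 : 16 * (4 * (d : ℝ) / (1 / x ^ 6)) ^ d / (1 / x ^ 6) ^ 2 *
      (Nat.factorial (2 * (6 * d + 13)) : ℝ) =
      (16 * (4 * d) ^ d * (Nat.factorial (2 * (6 * d + 13)) : ℝ)) * x ^ (6 * d + 12) := by
    have h4 : (4 * (d : ℝ) / (1 / x ^ 6)) ^ d = (4 * d) ^ d * x ^ (6 * d) := by
      rw [div_div_eq_mul_div, div_one, mul_pow, ← pow_mul]
    rw [h4, div_pow, one_pow, ← pow_mul, div_div_eq_mul_div, div_one]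
    ring
  rw [h3]
  have h5 : x ^ (6 * d + 13) = x * x ^ (6 * d + 12) := by ring
  rw [h5]
  exact mul_le_mul_of_nonneg_right ha (by positivity)

/-- scales -/
noncomputable def rhoZ (r0 : ℝ) (u0 : ℕ) : ℕ → ℝ
  | 0 => r0
  | u + 1 => rhoZ r0 u0 u * Real.exp (-muZ (u0 + (u + 1))) / 4

theorem rhoZ_pos (r0 : ℝ) (hr : 0 < r0) (u0 u : ℕ) : 0 < rhoZ r0 u0 u := by
  induction u with
  | zero => exact hr
  | succ u ih =>
    unfold rhoZ
    positivity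

/-- the sequence of blocks -/
noncomputable def KZ (d : ℕ) (δ s1 r0 : ℝ) (u0 u : ℕ) : Blk (Fin d → ℤ) :=
  blkZ d δ s1 (rhoZ r0 u0 u) (u0 + u)

/-- sum of the locations -/
noncomputable def CbZ (d : ℕ) (δ : ℝ) : ℝ := ∑' j : Fin d → ℤ, brz j ^ (-((d : ℝ) + δ))

theorem CbZ_nonneg (d : ℕ) (δ : ℝ) : 0 ≤ CbZ d δ :=
  tsum_nonneg fun j => (Real.rpow_pos_of_pos (brz_pos j) _).le

theorem lb_sum_le (d : ℕ) (δ s1 rho : ℝ) (a : ℕ)
    (h : 2 * ((2 * LZ a : ℕ) : ℝ) * Real.exp (-(3 / 8) * muZ a) ≤ zt a) (j : Fin d → ℤ) :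
    ∑ t ∈ Finset.range (2 * (blkZ d δ s1 rho a).L), (blkZ d δ s1 rho a).lb t j ≤
      zt a * brz j ^ (-WZ d δ) := by
  have hw : 0 < brz j ^ WZ d δ := Real.rpow_pos_of_pos (brz_pos j) _
  have hv := v_ge d δ s1 rho a j
  have h1 : ∀ t, (blkZ d δ s1 rho a).lb t j ≤
      2 * brz j ^ (-WZ d δ) * Real.exp (-(3 / 8) * muZ a) := by
    intro t
    show 2 * ((blkZ d δ s1 rho a).v j)⁻¹ *
      Real.exp (-(1 / 2) * (muZ a * (3 / 2 : ℝ) ^ (t / 2)) - (3 / 8) * muZ a) ≤ _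
    have h2 : ((blkZ d δ s1 rho a).v j)⁻¹ ≤ brz j ^ (-WZ d δ) := by
      rw [Real.rpow_neg (brz_pos j).le]
      exact inv_anti₀ hw hv
    have h3 : Real.exp (-(1 / 2) * (muZ a * (3 / 2 : ℝ) ^ (t / 2)) - (3 / 8) * muZ a) ≤
        Real.exp (-(3 / 8) * muZ a) := by
      refine Real.exp_le_exp.2 ?_
      have : 0 < muZ a * (3 / 2 : ℝ) ^ (t / 2) := by
        have := muZ_pos a
        positivity
      linarith
    have h4 : 0 < brz j ^ (-WZ d δ) := Real.rpow_pos_of_pos (brz_pos j) _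
    exact mul_le_mul (mul_le_mul_of_nonneg_left h2 (by norm_num)) h3 (Real.exp_pos _).le
      (by positivity)
  calc _ ≤ ∑ _t ∈ Finset.range (2 * (blkZ d δ s1 rho a).L),
        2 * brz j ^ (-WZ d δ) * Real.exp (-(3 / 8) * muZ a) := Finset.sum_le_sum fun t _ => h1 t
    _ = (2 * ((2 * LZ a : ℕ) : ℝ) * Real.exp (-(3 / 8) * muZ a)) * brz j ^ (-WZ d δ) := by
        rw [Finset.sum_const, Finset.card_range, nsmul_eq_mul]
        show ((2 * LZ a : ℕ) : ℝ) * _ = _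
        ring
    _ ≤ _ := mul_le_mul_of_nonneg_right h (Real.rpow_pos_of_pos (brz_pos j) _).le

theorem sum_zt_le (u0 u : ℕ) : ∑ a ∈ Finset.range u, zt (u0 + a) ≤ tl zt u0 := by
  unfold tl
  have h := ((summable_nat_add_iff u0).2 zt_summable)
  have := h.sum_le_tsum (Finset.range u) (fun i _ => (zt_pos _).le)
  refine le_trans (le_of_eq ?_) this
  refine Finset.sum_congr rfl fun i _ => ?_
  rw [add_comm]

end KX
end
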